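import Pool.Agent.Lib.MP_215a10_lc.Dec.Basic

/-! Primitive recursive maps and predicates, recursively enumerable predicates. -/

set_option autoImplicit false

namespace Pool.Agent.Sand.Check

section
variable {α β γ δ : Type} [Primcodable α] [Primcodable β] [Primcodable γ] [Primcodable δ]

@[fun_prop] def PR (f : α → β) : Prop := Primrec f
@[fun_prop] def PP (p : α → Prop) : Prop := PrimrecPred p

@[fun_prop] lemma PR.id : PR (fun a : α => a) := Primrec.id
@[fun_prop] lemma PR.const (b : β) : PR (fun _ : α => b) := Primrec.const b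
@[fun_prop] lemma PR.comp {f : β → γ} {g : α → β} (hf : PR f) (hg : PR g) :
    PR (fun a => f (g a)) := Primrec.comp hf hg
@[fun_prop] lemma PR.fst {f : α → β × γ} (hf : PR f) : PR (fun a => (f a).1) :=
  Primrec.comp Primrec.fst hf
@[fun_prop] lemma PR.snd {f : α → β × γ} (hf : PR f) : PR (fun a => (f a).2) :=
  Primrec.comp Primrec.snd hf
@[fun_prop] lemma PR.pair {f : α → β} {g : α → γ} (hf : PR f) (hg : PR g) :
    PR (fun a => (f a, g a)) := Primrec.pair hf hg
lemma PR.of_eq {f g : α → β} (hf : PR f) (h : ∀ a, f a = g a) : PR g := Primrec.of_eq hf h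
@[fun_prop] lemma PR.nadd {f g : α → ℕ} (hf : PR f) (hg : PR g) : PR (fun a => f a + g a) :=
  Primrec.nat_add.comp hf hg
@[fun_prop] lemma PR.nmul {f g : α → ℕ} (hf : PR f) (hg : PR g) : PR (fun a => f a * g a) :=
  Primrec.nat_mul.comp hf hg
@[fun_prop] lemma PR.nmin {f g : α → ℕ} (hf : PR f) (hg : PR g) : PR (fun a => min (f a) (g a)) :=
  Primrec.nat_min.comp hf hg
@[fun_prop] lemma PR.getD {f : α → List β} {g : α → ℕ} (d : β) (hf : PR f) (hg : PR g) :
    PR (fun a => (f a).getD (g a) d) := (Primrec.list_getD d).comp hf hg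
@[fun_prop] lemma PR.range {f : α → ℕ} (hf : PR f) : PR (fun a => List.range (f a)) :=
  Primrec.list_range.comp hf
lemma PR.map {f : α → List β} {g : α → β → γ} (hf : PR f)
    (hg : PR (fun w : α × β => g w.1 w.2)) : PR (fun a => (f a).map (g a)) :=
  Primrec.list_map hf hg
lemma PR.ite {p : α → Prop} [DecidablePred p] {f g : α → β} (hp : PP p) (hf : PR f) (hg : PR g) :
    PR (fun a => if p a then f a else g a) := Primrec.ite hp hf hg

lemma PP.of_iff {p q : α → Prop} (hp : PP p) (h : ∀ a, p a ↔ q a) : PP q := PrimrecPred.of_eq hp h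
@[fun_prop] lemma PP.comp {p : β → Prop} {f : α → β} (hp : PP p) (hf : PR f) :
    PP (fun a => p (f a)) := PrimrecPred.comp hp hf
@[fun_prop] lemma PP.and {p q : α → Prop} (hp : PP p) (hq : PP q) : PP (fun a => p a ∧ q a) :=
  PrimrecPred.and hp hq
@[fun_prop] lemma PP.or {p q : α → Prop} (hp : PP p) (hq : PP q) : PP (fun a => p a ∨ q a) :=
  PrimrecPred.or hp hq
@[fun_prop] lemma PP.not {p : α → Prop} (hp : PP p) : PP (fun a => ¬ p a) := PrimrecPred.not hp
lemma PP.imp {p q : α → Prop} (hp : PP p) (hq : PP q) : PP (fun a => p a → q a) :=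
  (hp.not.or hq).of_iff fun a => by tauto
@[fun_prop] lemma PP.iff {p q : α → Prop} (hp : PP p) (hq : PP q) : PP (fun a => p a ↔ q a) :=
  ((hp.imp hq).and (hq.imp hp)).of_iff fun a => by tauto
@[fun_prop] lemma PP.eq {f g : α → β} (hf : PR f) (hg : PR g) : PP (fun a => f a = g a) :=
  Primrec.eq.comp hf hg
@[fun_prop] lemma PP.ne {f g : α → β} (hf : PR f) (hg : PR g) : PP (fun a => f a ≠ g a) :=
  (PP.eq hf hg).not
@[fun_prop] lemma PP.nlt {f g : α → ℕ} (hf : PR f) (hg : PR g) : PP (fun a => f a < g a) :=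
  Primrec.nat_lt.comp hf hg
lemma PP.ex {l : α → List β} {p : α → β → Prop} (hl : PR l)
    (hp : PP (fun w : α × β => p w.1 w.2)) : PP (fun a => ∃ b ∈ l a, p a b) := by
  have h : PrimrecRel (fun (b : β) (a : α) => p a b) :=
    PP.comp (f := fun w : β × α => (w.2, w.1)) hp (by fun_prop)
  exact h.exists_mem_list.comp hl Primrec.id
lemma PP.all {l : α → List β} {p : α → β → Prop} (hl : PR l)
    (hp : PP (fun w : α × β => p w.1 w.2)) : PP (fun a => ∀ b ∈ l a, p a b) := by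
  have h : PrimrecRel (fun (b : β) (a : α) => p a b) :=
    PP.comp (f := fun w : β × α => (w.2, w.1)) hp (by fun_prop)
  exact h.forall_mem_list.comp hl Primrec.id
@[fun_prop] lemma PP.mem {l : α → List β} {f : α → β} (hl : PR l) (hf : PR f) :
    PP (fun a => f a ∈ l a) :=
  (PP.ex (p := fun a b => b = f a) hl (by fun_prop)).of_iff (by simp)

/-! integers -/

lemma enc_int (z : ℤ) :
    Encodable.encode z = if 0 ≤ z then 2 * z.natAbs else 2 * z.natAbs - 1 := by
  cases z with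
  | ofNat n => simp; rfl
  | negSucc n =>
    rw [if_neg (by omega), Int.natAbs_negSucc]
    change 2 * n + 1 = _
    omega

lemma prim_cast : Primrec fun n : ℕ => (n : ℤ) :=
  Primrec.encode_iff.1 ((Primrec.nat_mul.comp (.const 2) .id).of_eq fun n => by simp [enc_int])

lemma prim_negCast : Primrec fun n : ℕ => -(n : ℤ) :=
  Primrec.encode_iff.1 ((Primrec.nat_sub.comp (Primrec.nat_mul.comp (.const 2) .id)
    (.const 1)).of_eq fun n => by
      rw [enc_int]; split_ifs with h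
      · simp at h; simp [h]
      · simp)

lemma prim_natAbs : Primrec Int.natAbs :=
  (Primrec.nat_div.comp (Primrec.succ.comp Primrec.encode) (.const 2)).of_eq fun z => by
    rw [enc_int]; split_ifs <;> omega

lemma prim_nonneg : PrimrecPred fun z : ℤ => 0 ≤ z :=
  (Primrec.eq.comp (Primrec.nat_mod.comp Primrec.encode (.const 2)) (.const 0)).of_eq fun z => by
    rw [enc_int]; split_ifs <;> omega

lemma prim_neg : Primrec fun z : ℤ => -z :=
  (Primrec.ite prim_nonneg (prim_negCast.comp prim_natAbs) (prim_cast.comp prim_natAbs)).of_eq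
    fun z => by split_ifs <;> omega

lemma prim_mul : Primrec₂ fun a b : ℤ => a * b := by
  have h : Primrec fun p : ℤ × ℤ => ((p.1.natAbs * p.2.natAbs : ℕ) : ℤ) :=
    prim_cast.comp (Primrec.nat_mul.comp (prim_natAbs.comp .fst) (prim_natAbs.comp .snd))
  refine (Primrec.ite (prim_nonneg.comp .fst)
    (Primrec.ite (prim_nonneg.comp .snd) h (prim_neg.comp h))
    (Primrec.ite (prim_nonneg.comp .snd) (prim_neg.comp h) h)).of_eq fun p => ?_
  split_ifs with a b b <;> simp only [Nat.cast_mul, Int.natCast_natAbs]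
  · rw [abs_of_nonneg a, abs_of_nonneg b]
  · rw [abs_of_nonneg a, abs_of_neg (not_le.1 b)]; ring
  · rw [abs_of_nonneg b, abs_of_neg (not_le.1 a)]; ring
  · rw [abs_of_neg (not_le.1 b), abs_of_neg (not_le.1 a)]; ring

lemma prim_toNat : Primrec Int.toNat :=
  (Primrec.ite prim_nonneg prim_natAbs (.const 0)).of_eq fun z => by split_ifs <;> omega

lemma prim_add : Primrec₂ fun a b : ℤ => a + b := by
  have h1 : Primrec fun p : ℤ × ℤ => p.1.toNat + p.2.toNat :=
    Primrec.nat_add.comp (prim_toNat.comp .fst) (prim_toNat.comp .snd)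
  have h2 : Primrec fun p : ℤ × ℤ => (-p.1).toNat + (-p.2).toNat :=
    Primrec.nat_add.comp (prim_toNat.comp (prim_neg.comp .fst))
      (prim_toNat.comp (prim_neg.comp .snd))
  refine (Primrec.ite (Primrec.nat_le.comp h2 h1) (prim_cast.comp (Primrec.nat_sub.comp h1 h2))
    (prim_negCast.comp (Primrec.nat_sub.comp h2 h1))).of_eq fun p => ?_
  beta_reduce
  split_ifs <;> omega

@[fun_prop] lemma PR.cast {f : α → ℕ} (hf : PR f) : PR (fun a => (f a : ℤ)) := prim_cast.comp hf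
@[fun_prop] lemma PR.neg {f : α → ℤ} (hf : PR f) : PR (fun a => - f a) := prim_neg.comp hf
@[fun_prop] lemma PR.mul {f g : α → ℤ} (hf : PR f) (hg : PR g) : PR (fun a => f a * g a) :=
  prim_mul.comp hf hg
lemma PR.zadd {f g : α → ℤ} (hf : PR f) (hg : PR g) : PR (fun a => f a + g a) :=
  prim_add.comp hf hg
@[fun_prop] lemma PP.zle {f g : α → ℤ} (hf : PR f) (hg : PR g) : PP (fun a => f a ≤ g a) :=
  PP.of_iff (prim_nonneg.comp (hg.zadd hf.neg)) fun a => by omega

/-! recursively enumerable predicates -/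

def RE (P : α → Prop) : Prop :=
  ∃ (ω : Type) (_ : Primcodable ω) (R : α → ω → Prop), PP (fun w : α × ω => R w.1 w.2) ∧
    ∀ a, P a ↔ ∃ w, R a w

lemma RE.of_iff {P Q : α → Prop} (hP : RE P) (h : ∀ a, P a ↔ Q a) : RE Q := by
  have : P = Q := funext fun a => propext (h a)
  exact this ▸ hP

lemma PP.re {P : α → Prop} (h : PP P) : RE P :=
  ⟨ℕ, inferInstance, fun a _ => P a, h.comp (by fun_prop), by simp⟩

lemma PP.app2 {R : β → γ → Prop} (h : PP (fun w : β × γ => R w.1 w.2)) {f : α → β} {g : α → γ}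
    (hf : PR f) (hg : PR g) : PP (fun a => R (f a) (g a)) := h.comp (hf.pair hg)

lemma RE.comp {P : β → Prop} {f : α → β} (hP : RE P) (hf : PR f) : RE (fun a => P (f a)) := by
  obtain ⟨ω, _, R, hR, h⟩ := hP
  exact ⟨ω, _, fun a w => R (f a) w, hR.app2 (by fun_prop) (by fun_prop), fun a => h _⟩

lemma RE.app2 {R : β → γ → Prop} (h : RE (fun w : β × γ => R w.1 w.2)) {f : α → β} {g : α → γ}
    (hf : PR f) (hg : PR g) : RE (fun a => R (f a) (g a)) := h.comp (hf.pair hg)

lemma RE.app3 {R : β → γ → δ → Prop} (h : RE (fun w : β × γ × δ => R w.1 w.2.1 w.2.2))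
    {f : α → β} {g : α → γ} {k : α → δ} (hf : PR f) (hg : PR g) (hk : PR k) :
    RE (fun a => R (f a) (g a) (k a)) := h.comp (hf.pair (hg.pair hk))

lemma RE.and {P Q : α → Prop} (hP : RE P) (hQ : RE Q) : RE (fun a => P a ∧ Q a) := by
  obtain ⟨ω, _, R, hR, h⟩ := hP
  obtain ⟨ω', _, R', hR', h'⟩ := hQ
  refine ⟨ω × ω', inferInstance, fun a w => R a w.1 ∧ R' a w.2,
    (hR.app2 (by fun_prop) (by fun_prop)).and (hR'.app2 (by fun_prop) (by fun_prop)), fun a => ?_⟩
  simp [h, h']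

lemma RE.or {P Q : α → Prop} (hP : RE P) (hQ : RE Q) : RE (fun a => P a ∨ Q a) := by
  obtain ⟨ω, _, R, hR, h⟩ := hP
  obtain ⟨ω', _, R', hR', h'⟩ := hQ
  refine ⟨List ω × List ω', inferInstance, fun a w => (∃ u ∈ w.1, R a u) ∨ ∃ u ∈ w.2, R' a u,
    ?_, fun a => ?_⟩
  · beta_reduce
    refine PP.or (PP.ex (by fun_prop) ?_) (PP.ex (by fun_prop) ?_)
    · exact hR.app2 (by fun_prop) (by fun_prop)
    · exact hR'.app2 (by fun_prop) (by fun_prop)
  beta_reduce
  rw [h, h']
  constructor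
  · rintro (⟨u, hu⟩ | ⟨u, hu⟩)
    · exact ⟨([u], []), .inl ⟨u, by simp, hu⟩⟩
    · exact ⟨([], [u]), .inr ⟨u, by simp, hu⟩⟩
  · rintro ⟨w, ⟨u, -, hu⟩ | ⟨u, -, hu⟩⟩
    exacts [.inl ⟨u, hu⟩, .inr ⟨u, hu⟩]

lemma RE.ex {P : α → β → Prop} (hP : RE (fun w : α × β => P w.1 w.2)) :
    RE (fun a => ∃ b, P a b) := by
  obtain ⟨ω, _, R, hR, h⟩ := hP
  refine ⟨β × ω, inferInstance, fun a w => R (a, w.1) w.2,
    hR.app2 (by fun_prop) (by fun_prop), fun a => ?_⟩
  constructor
  · rintro ⟨b, hb⟩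
    obtain ⟨w, hw⟩ := (h (a, b)).1 hb
    exact ⟨(b, w), hw⟩
  · rintro ⟨w, hw⟩
    exact ⟨w.1, (h (a, w.1)).2 ⟨_, hw⟩⟩

lemma list_wit {ι κ : Type} (l : List ι) (R : ι → κ → Prop) (h : ∀ b ∈ l, ∃ w, R b w) :
    ∃ W : List κ, (∀ b ∈ l, ∃ w ∈ W, R b w) ∧ ∀ w ∈ W, ∃ b ∈ l, R b w := by
  induction l with
  | nil => exact ⟨[], by simp⟩
  | cons b l ih =>
    obtain ⟨W, h1, h2⟩ := ih fun b hb => h b (by simp [hb])
    obtain ⟨w, hw⟩ := h b (by simp)
    refine ⟨w :: W, ?_, ?_⟩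
    · intro b' hb'
      rcases List.mem_cons.1 hb' with rfl | hb'
      · exact ⟨w, by simp, hw⟩
      · obtain ⟨u, hu, h3⟩ := h1 b' hb'
        exact ⟨u, by simp [hu], h3⟩
    · intro u hu
      rcases List.mem_cons.1 hu with rfl | hu
      · exact ⟨b, by simp, hw⟩
      · obtain ⟨b', hb', h3⟩ := h2 u hu
        exact ⟨b', by simp [hb'], h3⟩

lemma RE.all {l : α → List β} {P : α → β → Prop} (hl : PR l)
    (hP : RE (fun w : α × β => P w.1 w.2)) : RE (fun a => ∀ b ∈ l a, P a b) := by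
  obtain ⟨ω, _, R, hR, h⟩ := hP
  refine ⟨List ω, inferInstance, fun a W => ∀ b ∈ l a, ∃ u ∈ W, R (a, b) u,
    PP.all (by fun_prop) (PP.ex (by fun_prop) (hR.app2 (by fun_prop) (by fun_prop))),
    fun a => ?_⟩
  constructor
  · intro H
    obtain ⟨W, hW, -⟩ := list_wit (l a) (fun b u => R (a, b) u) fun b hb => (h (a, b)).1 (H b hb)
    exact ⟨W, hW⟩
  · rintro ⟨W, hW⟩ b hb
    obtain ⟨u, -, hu⟩ := hW b hb
    exact (h (a, b)).2 ⟨u, hu⟩

lemma RE.exl {l : α → List β} {P : α → β → Prop} (hl : PR l)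
    (hP : RE (fun w : α × β => P w.1 w.2)) : RE (fun a => ∃ b ∈ l a, P a b) :=
  RE.ex (P := fun a b => b ∈ l a ∧ P a b) ((PP.re (by fun_prop)).and hP)

lemma RE.imp {P Q : α → Prop} (hP : PP P) (hQ : RE Q) : RE (fun a => P a → Q a) :=
  (hP.not.re.or hQ).of_iff fun a => by tauto

lemma RE.toREPred {P : α → Prop} (hP : RE P) : REPred P := by
  classical
  obtain ⟨ω, _, R, hR, h⟩ := hP
  have hd : PR (fun w : α × ℕ => (Encodable.decode (α := ω) w.2).toList) :=
    Primrec.optionToList.comp (Primrec.decode.comp Primrec.snd)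
  have h1 : PP (fun w : α × ℕ => ∃ u ∈ (Encodable.decode (α := ω) w.2).toList, R w.1 u) :=
    PP.ex hd (hR.app2 (by fun_prop) (by fun_prop))
  have h2 : Partrec (fun a : α => Nat.rfind fun n =>
      Part.some (decide (∃ u ∈ (Encodable.decode (α := ω) n).toList, R a u))) :=
    Partrec.rfind (PrimrecPred.computablePred h1).decide.partrec
  refine h2.dom_re.of_eq fun a => ?_
  rw [h, Nat.rfind_dom]
  constructor
  · rintro ⟨n, hn, -⟩
    simp only [Part.mem_some_iff, true_eq_decide_iff] at hn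
    obtain ⟨u, -, hu⟩ := hn
    exact ⟨u, hu⟩
  · rintro ⟨u, hu⟩
    refine ⟨Encodable.encode u, ?_, fun _ => trivial⟩
    simp only [Part.mem_some_iff, true_eq_decide_iff]
    exact ⟨u, by simp, hu⟩

end

end Pool.Agent.Sand.Check
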