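import Mathlib

/-! Automatic (base 2) predicates and maps on lattices such as `ℤ × ℤ × ℤ`.
`AP P` : the family of all `x ↦ P (2^k • x + a)` with `a` of size `O(2^k)` is finite.
Closed under Boolean operations, quantifiers and affine substitution. -/

set_option autoImplicit false

namespace Pool.Agent.Sand

class Dig (α : Type) [AddCommGroup α] where
  nm : α → ℕ
  nm_add : ∀ a b, nm (a + b) ≤ nm a + nm b
  nm_neg : ∀ a, nm (-a) = nm a
  nm_two : ∀ a, nm (a + a) = 2 * nm a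
  fin_ball : ∀ n, {a | nm a ≤ n}.Finite
  split : ∀ (k : ℕ) (y : α), ∃ y' r, nm r ≤ 2 ^ k ∧ y = (2 ^ k : ℤ) • y' + r

open Dig

instance : Dig ℤ where
  nm := Int.natAbs
  nm_add := Int.natAbs_add_le
  nm_neg := Int.natAbs_neg
  nm_two a := by omega
  fin_ball n := (Set.finite_Icc (-(n:ℤ)) n).subset (by
    intro a ha; simp only [Set.mem_ofPred_eq] at ha; constructor <;> omega)
  split k y := ⟨y / 2 ^ k, y % 2 ^ k, by
    have h : (0:ℤ) < 2 ^ k := by positivity
    have h1 := Int.emod_nonneg y h.ne'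
    have h2 := Int.emod_lt_of_pos y h
    constructor
    · zify; rw [abs_of_nonneg h1]; exact h2.le
    · rw [smul_eq_mul]; exact (Int.mul_ediv_add_emod y _).symm⟩

instance {α β : Type} [AddCommGroup α] [AddCommGroup β] [Dig α] [Dig β] : Dig (α × β) where
  nm a := max (nm a.1) (nm a.2)
  nm_add a b := by
    have := nm_add a.1 b.1; have := nm_add a.2 b.2
    simp only [Prod.fst_add, Prod.snd_add]; omega
  nm_neg a := by simp only [Prod.fst_neg, Prod.snd_neg, nm_neg]
  nm_two a := by simp only [Prod.fst_add, Prod.snd_add, nm_two]; omega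
  fin_ball n := ((fin_ball (α := α) n).prod (fin_ball (α := β) n)).subset (by
    intro a ha; simp only [Set.mem_ofPred_eq, max_le_iff] at ha; exact ha)
  split k y := by
    obtain ⟨a, r, h, e⟩ := split k y.1
    obtain ⟨b, s, h', e'⟩ := split k y.2
    exact ⟨(a, b), (r, s), max_le h h', Prod.ext e e'⟩

section
variable {α β γ : Type} [AddCommGroup α] [Dig α] [AddCommGroup β] [Dig β] [AddCommGroup γ] [Dig γ]

lemma nm_zero : nm (0 : α) = 0 := by
  have := nm_two (0 : α); rw [add_zero] at this; omega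

lemma nm_pow (k : ℕ) (a : α) : nm ((2 ^ k : ℤ) • a) = 2 ^ k * nm a := by
  induction k with
  | zero => simp
  | succ k ih => rw [pow_succ, mul_comm, mul_smul, two_smul, nm_two, ih]; ring

lemma nm_nsmul (n : ℕ) (a : α) : nm (n • a) ≤ n * nm a := by
  induction n with
  | zero => simp [nm_zero]
  | succ n ih => rw [succ_nsmul]; have := nm_add (n • a) a; nlinarith

lemma nm_zsmul (n : ℤ) (a : α) : nm (n • a) ≤ n.natAbs * nm a := by
  rcases Int.natAbs_eq n with h | h
  · conv_lhs => rw [h, natCast_zsmul]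
    exact nm_nsmul _ _
  · conv_lhs => rw [h, neg_smul, nm_neg, natCast_zsmul]
    exact nm_nsmul _ _

/-- the kernel family of a predicate -/
def Ker (P : α → Prop) (C : ℕ) : Set (α → Prop) :=
  {Q | ∃ (k : ℕ) (a : α), nm a ≤ C * 2 ^ k ∧ Q = fun x => P ((2 ^ k : ℤ) • x + a)}

/-- automatic predicate -/
@[fun_prop] def AP (P : α → Prop) : Prop := ∀ C, (Ker P C).Finite

/-- automatic map -/
@[fun_prop] def AM (f : α → β) : Prop := AP (fun z : α × β => f z.1 = z.2)

/-- bounded additive maps -/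
def Bd (f : α → β) : Prop := (∀ a b, f (a + b) = f a + f b) ∧ ∃ K, ∀ a, nm (f a) ≤ K * nm a

lemma Bd.smul {f : α → β} (h : Bd f) (k : ℕ) (x : α) : f ((2 ^ k : ℤ) • x) = (2 ^ k : ℤ) • f x := by
  induction k with
  | zero => simp
  | succ k ih => rw [pow_succ, mul_comm, mul_smul, two_smul, h.1, ih, mul_smul, two_smul]

lemma AP.affine {P : β → Prop} (hP : AP P) {f : α → β} (hf : Bd f) (b : β) :
    AP (fun x => P (f x + b)) := by
  intro C
  obtain ⟨K, hK⟩ := hf.2
  refine ((hP (K * C + nm b)).image (fun Q x => Q (f x))).subset ?_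
  rintro Q ⟨k, a, ha, rfl⟩
  refine ⟨_, ⟨k, f a + b, ?_, rfl⟩, ?_⟩
  · have h1 := nm_add (f a) b
    have h2 := hK a
    have h3 : 1 ≤ 2 ^ k := Nat.one_le_two_pow
    have h4 : K * nm a ≤ K * (C * 2 ^ k) := Nat.mul_le_mul_left _ ha
    nlinarith
  · funext x; simp only [hf.1, hf.smul, add_assoc]

lemma AP.lin {P : β → Prop} (hP : AP P) {f : α → β} (hf : Bd f) : AP (fun x => P (f x)) := by
  simpa using hP.affine hf 0

lemma AP.of_iff {P Q : α → Prop} (hP : AP P) (h : ∀ x, P x ↔ Q x) : AP Q := by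
  have : P = Q := funext fun x => propext (h x)
  exact this ▸ hP

@[fun_prop] lemma AP.const (p : Prop) : AP (fun _ : α => p) := by
  intro C
  refine (Set.finite_singleton (fun _ : α => p)).subset ?_
  rintro Q ⟨k, a, -, rfl⟩; rfl

lemma AP.bin {P Q : α → Prop} (hP : AP P) (hQ : AP Q) (op : Prop → Prop → Prop) :
    AP (fun x => op (P x) (Q x)) := by
  intro C
  refine (((hP C).prod (hQ C)).image (fun z x => op (z.1 x) (z.2 x))).subset ?_
  rintro R ⟨k, a, ha, rfl⟩
  exact ⟨(_, _), ⟨⟨k, a, ha, rfl⟩, ⟨k, a, ha, rfl⟩⟩, rfl⟩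

@[fun_prop] lemma AP.and {P Q : α → Prop} (hP : AP P) (hQ : AP Q) : AP (fun x => P x ∧ Q x) :=
  hP.bin hQ And
@[fun_prop] lemma AP.or {P Q : α → Prop} (hP : AP P) (hQ : AP Q) : AP (fun x => P x ∨ Q x) :=
  hP.bin hQ Or
@[fun_prop] lemma AP.iff {P Q : α → Prop} (hP : AP P) (hQ : AP Q) : AP (fun x => P x ↔ Q x) :=
  hP.bin hQ Iff
lemma AP.imp {P Q : α → Prop} (hP : AP P) (hQ : AP Q) : AP (fun x => P x → Q x) :=
  hP.bin hQ (fun a b => a → b)
@[fun_prop] lemma AP.not {P : α → Prop} (hP : AP P) : AP (fun x => ¬ P x) :=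
  hP.bin hP (fun a _ => ¬ a)

lemma AP.ex {P : α → β → Prop} (hP : AP (fun z : α × β => P z.1 z.2)) :
    AP (fun x => ∃ y, P x y) := by
  intro C
  have hf := hP (C + 1)
  refine ((hf.finite_subsets).image (fun (T : Set (α × β → Prop)) x => ∃ y, ∃ Q ∈ T, Q (x, y))).subset ?_
  rintro R ⟨k, a, ha, rfl⟩
  refine ⟨{Q | ∃ r : β, nm r ≤ 2 ^ k ∧
      Q = fun z : α × β => P ((2 ^ k : ℤ) • z.1 + a) ((2 ^ k : ℤ) • z.2 + r)}, ?_, ?_⟩
  · rintro Q ⟨r, hr, rfl⟩
    refine ⟨k, (a, r), ?_, rfl⟩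
    show max (nm a) (nm r) ≤ _
    apply max_le <;> nlinarith [Nat.zero_le (C * 2 ^ k), Nat.zero_le (2 ^ k)]
  · funext x; apply propext; constructor
    · rintro ⟨y, Q, ⟨r, hr, rfl⟩, h⟩; exact ⟨_, h⟩
    · rintro ⟨y, h⟩
      obtain ⟨y', r, hr, rfl⟩ := split k y
      exact ⟨y', _, ⟨r, hr, rfl⟩, h⟩

lemma AP.all {P : α → β → Prop} (hP : AP (fun z : α × β => P z.1 z.2)) :
    AP (fun x => ∀ y, P x y) :=
  (AP.ex (P := fun x y => ¬ P x y) hP.not).not.of_iff (by simp)

lemma ap_zero : AP (fun x : α => x = 0) := by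
  intro C
  refine (((fin_ball (α := α) C).finite_subsets).image (fun (T : Set α) x => x ∈ T)).subset ?_
  rintro R ⟨k, a, ha, rfl⟩
  refine ⟨{x | (2 ^ k : ℤ) • x + a = 0}, ?_, rfl⟩
  intro x hx
  have h1 : (2 ^ k : ℤ) • x = -a := eq_neg_of_add_eq_zero_left hx
  have h2 := nm_pow k x
  rw [h1, nm_neg] at h2
  have h3 : 0 < 2 ^ k := by positivity
  show nm x ≤ C
  nlinarith

lemma ap_nonneg : AP (fun x : ℤ => 0 ≤ x) := by
  intro C
  refine ((Set.finite_Icc (-(C:ℤ) - 1) (C + 1)).image (fun t x => t ≤ x)).subset ?_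
  rintro R ⟨k, a, ha, rfl⟩
  have h : (0:ℤ) < 2 ^ k := by positivity
  have ha' : |a| ≤ C * 2 ^ k := by
    have : ((nm a : ℕ) : ℤ) ≤ ((C * 2 ^ k : ℕ) : ℤ) := by exact_mod_cast ha
    push_cast at this; exact (Int.natCast_natAbs a) ▸ this
  have h1 := Int.emod_nonneg a h.ne'
  have h2 := Int.emod_lt_of_pos a h
  have h3 := Int.mul_ediv_add_emod a (2 ^ k)
  obtain ⟨h4, h5⟩ := abs_le.mp ha'
  refine ⟨-(a / 2 ^ k), ⟨?_, ?_⟩, ?_⟩
  · nlinarith
  · nlinarith
  · funext x; apply propext; rw [smul_eq_mul]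
    constructor
    · intro hx; nlinarith
    · intro hx; by_contra hn; push Not at hn
      have : x + a / 2 ^ k ≤ -1 := by omega
      nlinarith

lemma Bd.id : Bd (fun x : α => x) := ⟨fun _ _ => rfl, 1, fun a => by simp⟩
lemma Bd.fst {f : α → β × γ} (h : Bd f) : Bd (fun x => (f x).1) :=
  ⟨fun a b => by beta_reduce; rw [h.1]; rfl, let ⟨K, hK⟩ := h.2; ⟨K, fun a => le_trans (le_max_left _ _) (hK a)⟩⟩
lemma Bd.snd {f : α → β × γ} (h : Bd f) : Bd (fun x => (f x).2) :=
  ⟨fun a b => by beta_reduce; rw [h.1]; rfl, let ⟨K, hK⟩ := h.2; ⟨K, fun a => le_trans (le_max_right _ _) (hK a)⟩⟩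
lemma Bd.pair {f : α → β} {g : α → γ} (h : Bd f) (h' : Bd g) : Bd (fun x => (f x, g x)) :=
  ⟨fun a b => by beta_reduce; rw [h.1, h'.1]; rfl, by
    obtain ⟨K, hK⟩ := h.2; obtain ⟨K', hK'⟩ := h'.2
    refine ⟨K + K', fun a => max_le ?_ ?_⟩
    · have := hK a; show nm (f a) ≤ _; nlinarith [Nat.zero_le (K' * nm a)]
    · have := hK' a; show nm (g a) ≤ _; nlinarith [Nat.zero_le (K * nm a)]⟩
lemma Bd.add {f g : α → β} (h : Bd f) (h' : Bd g) : Bd (fun x => f x + g x) :=
  ⟨fun a b => by beta_reduce; rw [h.1, h'.1]; abel, by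
    obtain ⟨K, hK⟩ := h.2; obtain ⟨K', hK'⟩ := h'.2
    refine ⟨K + K', fun a => ?_⟩
    have := hK a; have := hK' a; have := nm_add (f a) (g a); nlinarith⟩
lemma Bd.zsmul {f : α → β} (h : Bd f) (n : ℤ) : Bd (fun x => n • f x) :=
  ⟨fun a b => by beta_reduce; rw [h.1, smul_add], by
    obtain ⟨K, hK⟩ := h.2
    refine ⟨n.natAbs * K, fun a => ?_⟩
    have := nm_zsmul n (f a); have := Nat.mul_le_mul_left n.natAbs (hK a); nlinarith⟩
lemma Bd.sub {f g : α → β} (h : Bd f) (h' : Bd g) : Bd (fun x => f x - g x) := by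
  have := h.add (h'.zsmul (-1)); simpa [sub_eq_add_neg] using this
lemma Bd.smul_const {f : α → ℤ} (h : Bd f) (v : β) : Bd (fun x => f x • v) :=
  ⟨fun a b => by beta_reduce; rw [h.1, add_smul], by
    obtain ⟨K, hK⟩ := h.2
    refine ⟨K * nm v, fun a => ?_⟩
    have h1 := nm_zsmul (f a) v
    have h2 : (f a).natAbs ≤ K * nm a := hK a
    have := Nat.mul_le_mul_right (nm v) h2; nlinarith⟩

lemma Bd.am {f : α → β} (h : Bd f) (b : β) : AM (fun x => f x + b) := by
  have h1 : Bd (fun z : α × β => f z.1) :=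
    ⟨fun a b => h.1 _ _, let ⟨K, hK⟩ := h.2;
      ⟨K, fun a => le_trans (hK a.1) (Nat.mul_le_mul_left _ (le_max_left _ _))⟩⟩
  exact (ap_zero.affine (h1.sub Bd.id.snd) b).of_iff (by
    intro z; constructor <;> intro hz
    · have : f z.1 + b - z.2 = 0 := by rw [← hz]; abel
      exact sub_eq_zero.mp this
    · show f z.1 - z.2 + b = 0
      have hz' : f z.1 + b = z.2 := hz
      rw [← hz']; abel)

lemma Bd.am' {f : α → β} (h : Bd f) : AM f := by simpa using h.am 0

@[fun_prop] lemma AP.comp {P : β → Prop} {f : α → β} (hP : AP P) (hf : AM f) :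
    AP (fun x => P (f x)) :=
  (AP.ex (P := fun x y => f x = y ∧ P y) (AP.and hf (hP.lin Bd.id.snd))).of_iff (by simp)

@[fun_prop] lemma AM.id : AM (fun x : α => x) := Bd.id.am'
@[fun_prop] lemma AM.const (b : β) : AM (fun _ : α => b) := by
  have : Bd (fun _ : α => (0 : β)) := ⟨by simp, 0, by simp [nm_zero]⟩
  simpa using this.am b

lemma AM.pair0 {f : α → β} {g : α → γ} (hf : AM f) (hg : AM g) : AM (fun x => (f x, g x)) :=
  (AP.and (AP.lin hf (Bd.id.fst.pair Bd.id.snd.fst))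
    (AP.lin hg (Bd.id.fst.pair Bd.id.snd.snd))).of_iff (by intro z; simp [Prod.ext_iff])

@[fun_prop] lemma AM.comp {g : β → γ} {f : α → β} (hg : AM g) (hf : AM f) :
    AM (fun x => g (f x)) := by
  have h1 : AM (fun z : α × γ => f z.1) :=
    AP.lin hf (Bd.id.fst.fst.pair Bd.id.snd)
  exact AP.comp (P := fun z : β × γ => g z.1 = z.2) hg (h1.pair0 Bd.id.snd.am')

@[fun_prop] lemma AM.pair {f : α → β} {g : α → γ} (hf : AM f) (hg : AM g) :
    AM (fun x => (f x, g x)) := hf.pair0 hg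
@[fun_prop] lemma AM.fst {f : α → β × γ} (hf : AM f) : AM (fun x => (f x).1) :=
  AM.comp (g := fun z : β × γ => z.1) Bd.id.fst.am' hf
@[fun_prop] lemma AM.snd {f : α → β × γ} (hf : AM f) : AM (fun x => (f x).2) :=
  AM.comp (g := fun z : β × γ => z.2) Bd.id.snd.am' hf
@[fun_prop] lemma AM.add {f g : α → β} (hf : AM f) (hg : AM g) : AM (fun x => f x + g x) :=
  AM.comp (g := fun z : β × β => z.1 + z.2) (Bd.id.fst.add Bd.id.snd).am' (hf.pair hg)
@[fun_prop] lemma AM.sub {f g : α → β} (hf : AM f) (hg : AM g) : AM (fun x => f x - g x) :=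
  AM.comp (g := fun z : β × β => z.1 - z.2) (Bd.id.fst.sub Bd.id.snd).am' (hf.pair hg)
@[fun_prop] lemma AM.zsmul {f : α → β} (n : ℤ) (hf : AM f) : AM (fun x => n • f x) :=
  AM.comp (g := fun z : β => n • z) (Bd.id.zsmul n).am' hf
@[fun_prop] lemma AM.neg {f : α → β} (hf : AM f) : AM (fun x => - f x) := by
  simpa using hf.zsmul (-1)
@[fun_prop] lemma AM.smul_const {f : α → ℤ} (hf : AM f) (v : β) : AM (fun x => f x • v) :=
  AM.comp (g := fun z : ℤ => z • v) (Bd.id.smul_const v).am' hf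
@[fun_prop] lemma AM.const_mul {f : α → ℤ} (n : ℤ) (hf : AM f) : AM (fun x => n * f x) :=
  hf.zsmul n
@[fun_prop] lemma AM.mul_const {f : α → ℤ} (hf : AM f) (n : ℤ) : AM (fun x => f x * n) := by
  simpa [mul_comm] using hf.zsmul n

@[fun_prop] lemma AP.eq {f g : α → β} (hf : AM f) (hg : AM g) : AP (fun x => f x = g x) :=
  (ap_zero.comp (hf.sub hg)).of_iff (by intro x; exact sub_eq_zero)
@[fun_prop] lemma AP.ne {f g : α → β} (hf : AM f) (hg : AM g) : AP (fun x => f x ≠ g x) :=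
  (AP.eq hf hg).not
@[fun_prop] lemma AP.le {f g : α → ℤ} (hf : AM f) (hg : AM g) : AP (fun x => f x ≤ g x) :=
  (ap_nonneg.comp (hg.sub hf)).of_iff (by intro x; exact sub_nonneg)
@[fun_prop] lemma AP.lt {f g : α → ℤ} (hf : AM f) (hg : AM g) : AP (fun x => f x < g x) :=
  (AP.le hg hf).not.of_iff (by intro x; exact not_le)
@[fun_prop] lemma AP.ge {f g : α → ℤ} (hf : AM f) (hg : AM g) : AP (fun x => f x ≥ g x) :=
  AP.le hg hf
@[fun_prop] lemma AP.gt {f g : α → ℤ} (hf : AM f) (hg : AM g) : AP (fun x => f x > g x) :=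
  AP.lt hg hf
@[fun_prop] lemma AP.dvd {f : α → ℤ} (n : ℤ) (hf : AM f) : AP (fun x => n ∣ f x) :=
  AP.ex (P := fun x y => f x = n * y) (by fun_prop)
/-- automatic set (a hypothesis `APS S` in the context is used by `fun_prop` for `f x ∈ S`) -/
def APS (S : Set β) : Prop := AP (fun y => y ∈ S)
@[fun_prop] lemma AP.mem {S : Set β} {f : α → β} (hS : APS S) (hf : AM f) :
    AP (fun x => f x ∈ S) := AP.comp (P := fun y => y ∈ S) hS hf

/-- a map is automatic when its graph is -/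
lemma AM.of_graph {f : α → β} {P : α → β → Prop} (hP : AP (fun z : α × β => P z.1 z.2))
    (h : ∀ x y, P x y ↔ f x = y) : AM f := hP.of_iff (fun z => h z.1 z.2)

lemma AM.of_eq {f g : α → β} (hf : AM f) (h : ∀ x, f x = g x) : AM g := by
  have : f = g := funext h
  exact this ▸ hf

@[fun_prop] lemma AM.ite {P : α → Prop} [DecidablePred P] {f g : α → β} (hP : AP P) (hf : AM f)
    (hg : AM g) : AM (fun x => if P x then f x else g x) :=
  AM.of_graph (P := fun x y => (P x ∧ f x = y) ∨ (¬ P x ∧ g x = y)) (by fun_prop)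
    (by intro x y; by_cases h : P x <;> simp [h])

@[fun_prop] lemma AM.min {f g : α → ℤ} (hf : AM f) (hg : AM g) : AM (fun x => min (f x) (g x)) :=
  (AM.ite (AP.le hf hg) hf hg).of_eq (by intro x; rw [min_def])
@[fun_prop] lemma AM.max {f g : α → ℤ} (hf : AM f) (hg : AM g) : AM (fun x => max (f x) (g x)) :=
  (AM.ite (AP.le hf hg) hg hf).of_eq (by intro x; rw [max_def])
@[fun_prop] lemma AM.abs {f : α → ℤ} (hf : AM f) : AM (fun x => |f x|) :=
  (AM.max hf hf.neg).of_eq (by intro x; rw [abs_eq_max_neg])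
@[fun_prop] lemma AM.ediv {f : α → ℤ} (hf : AM f) (n : ℤ) : AM (fun x => f x / n) := by
  rcases eq_or_ne n 0 with rfl | hn
  · simpa using AM.const (α := α) (0 : ℤ)
  refine AM.of_graph (P := fun x y => 0 ≤ f x - n * y ∧ f x - n * y < |n|) (by fun_prop) ?_
  intro x y
  have h1 := Int.emod_nonneg (f x) hn
  have h2 := Int.emod_lt_abs (f x) hn
  have h3 := Int.mul_ediv_add_emod (f x) n
  constructor
  · rintro ⟨h4, h5⟩
    have := (Int.ediv_emod_unique'' (a := f x) (b := n) (r := f x - n * y) (q := y) hn).mpr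
      ⟨by ring, h4, h5⟩
    exact this.1
  · rintro rfl; constructor <;> linarith
@[fun_prop] lemma AM.emod {f : α → ℤ} (hf : AM f) (n : ℤ) : AM (fun x => f x % n) :=
  (hf.sub ((hf.ediv n).const_mul n)).of_eq (by intro x; rw [Int.emod_def])

lemma AP.exFin {ι : Type} {P : ι → α → Prop} {s : Set ι} (hs : s.Finite) (h : ∀ i ∈ s, AP (P i)) :
    AP (fun x => ∃ i ∈ s, P i x) := by
  induction s, hs using Set.Finite.induction_on with
  | empty => exact (AP.const False).of_iff (by simp)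
  | @insert a s _ _ ih =>
    exact ((h a (by simp)).or (ih fun i hi => h i (by simp [hi]))).of_iff (by simp)

lemma AP.allFin {ι : Type} {P : ι → α → Prop} {s : Set ι} (hs : s.Finite) (h : ∀ i ∈ s, AP (P i)) :
    AP (fun x => ∀ i ∈ s, P i x) :=
  (AP.exFin (P := fun i x => ¬ P i x) hs fun i hi => (h i hi).not).not.of_iff (by simp)

lemma AP.exFintype {ι : Type} [Finite ι] {P : ι → α → Prop} (h : ∀ i, AP (P i)) :
    AP (fun x => ∃ i, P i x) :=
  (AP.exFin (P := P) Set.finite_univ fun i _ => h i).of_iff (by simp)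

lemma AP.allFintype {ι : Type} [Finite ι] {P : ι → α → Prop} (h : ∀ i, AP (P i)) :
    AP (fun x => ∀ i, P i x) :=
  (AP.allFin (P := P) Set.finite_univ fun i _ => h i).of_iff (by simp)

lemma AP.finite {S : Set α} (hS : S.Finite) : AP (fun x => x ∈ S) :=
  (AP.exFin (P := fun i x => x = i) hS fun i _ => by fun_prop).of_iff (by simp)

@[fun_prop] lemma AM.sum {ι : Type} (s : Finset ι) {f : ι → α → β} (h : ∀ i, AM (f i)) :
    AM (fun x => ∑ i ∈ s, f i x) := by
  classical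
  induction s using Finset.induction_on with
  | empty => simpa using AM.const (α := α) (0 : β)
  | insert a s ha ih => exact ((h a).add ih).of_eq (by intro x; rw [Finset.sum_insert ha])

/-- case distinction over a finite index -/
lemma AM.cases {ι : Type} [Finite ι] (κ : α → ι) (hκ : ∀ i, AP (fun x => κ x = i))
    {f : ι → α → β} (h : ∀ i, AM (f i)) : AM (fun x => f (κ x) x) :=
  AM.of_graph (P := fun x y => ∃ i, κ x = i ∧ f i x = y)
    (AP.exFintype fun i => by
      have := hκ i; have := h i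
      exact AP.and (AP.comp (P := fun x => κ x = i) (hκ i) (by fun_prop)) (h i))
    (by simp)

end

end Pool.Agent.Sand
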