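import Pool.Agent.Lib.MP_215a10_lc.Dec.Stmts

/-! Small shared lemmas. -/

set_option autoImplicit false

namespace Pool.Agent.Sand

open Classical

/-! ### linear algebra on `V` -/

lemma dot_add (a x y : V) : dot a (x + y) = dot a x + dot a y := by simp [dot]; ring
lemma dot_sub (a x y : V) : dot a (x - y) = dot a x - dot a y := by simp [dot]; ring
lemma dot_neg (a x : V) : dot a (-x) = -dot a x := by simp [dot]; ring
lemma dot_smul (a x : V) (k : ℤ) : dot a (k • x) = k * dot a x := by simp [dot]; ring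
lemma dot_comm (a x : V) : dot a x = dot x a := by simp [dot]; ring
lemma neg_dot (a x : V) : dot (-a) x = -dot a x := by simp [dot]; ring
lemma smul_dot (a x : V) (k : ℤ) : dot (k • a) x = k * dot a x := by simp [dot]; ring
lemma add_dot (a b x : V) : dot (a + b) x = dot a x + dot b x := by simp [dot]; ring
@[simp] lemma dot_zero (a : V) : dot a 0 = 0 := by simp [dot]
@[simp] lemma zero_dot (a : V) : dot 0 a = 0 := by simp [dot]
lemma det_add (a x y : V) : det a (x + y) = det a x + det a y := by simp [det]; ring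
lemma det_sub (a x y : V) : det a (x - y) = det a x - det a y := by simp [det]; ring
lemma det_neg (a x : V) : det a (-x) = -det a x := by simp [det]; ring
lemma neg_det (a x : V) : det (-a) x = -det a x := by simp [det]; ring
lemma det_smul (a x : V) (k : ℤ) : det a (k • x) = k * det a x := by simp [det]; ring
lemma smul_det (a x : V) (k : ℤ) : det (k • a) x = k * det a x := by simp [det]; ring
@[simp] lemma det_self (a : V) : det a a = 0 := by simp [det]; ring
@[simp] lemma det_zero (a : V) : det a 0 = 0 := by simp [det]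
@[simp] lemma zero_det (a : V) : det 0 a = 0 := by simp [det]
lemma det_eq_dot (a x : V) : det a x = dot (rot a) x := by simp [det, dot, rot]; ring
lemma det_rot (a : V) : det a (rot a) = dot a a := by simp [det, dot, rot]
@[simp] lemma dot_rot (a : V) : dot a (rot a) = 0 := by simp [dot, rot]; ring
@[simp] lemma rot_dot (a : V) : dot (rot a) a = 0 := by simp [dot, rot]; ring
lemma rot_rot (a : V) : rot (rot a) = -a := by simp [rot]; rfl
lemma rot_neg (a : V) : rot (-a) = -rot a := by simp [rot]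
lemma rot_smul (a : V) (k : ℤ) : rot (k • a) = k • rot a := by simp [rot]
lemma rot_ne {a : V} (h : a ≠ 0) : rot a ≠ 0 := by
  intro h'; apply h; simp only [rot, Prod.ext_iff, Prod.fst_zero, Prod.snd_zero] at h' ⊢; omega
lemma dot_self_pos {a : V} (h : a ≠ 0) : 0 < dot a a := by
  have : a.1 ≠ 0 ∨ a.2 ≠ 0 := by
    by_contra hh; push Not at hh; exact h (Prod.ext hh.1 hh.2)
  unfold dot; rcases this with h | h <;> nlinarith [mul_self_pos.mpr h, mul_self_nonneg a.1, mul_self_nonneg a.2]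
lemma n1_nonneg (x : V) : 0 ≤ n1 x := by unfold n1; positivity
lemma n1_add (x y : V) : n1 (x + y) ≤ n1 x + n1 y := by
  unfold n1; have := abs_add_le x.1 y.1; have := abs_add_le x.2 y.2
  simp only [Prod.fst_add, Prod.snd_add]; omega
@[simp] lemma n1_neg (x : V) : n1 (-x) = n1 x := by simp [n1]
@[simp] lemma n1_rot (x : V) : n1 (rot x) = n1 x := by simp [n1, rot]; ring
@[simp] lemma n1_zero : n1 0 = 0 := by simp [n1]
lemma n1_smul (x : V) (k : ℤ) : n1 (k • x) = |k| * n1 x := by simp [n1, abs_mul]; ring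
lemma abs_dot_le (a x : V) : |dot a x| ≤ n1 a * n1 x := by
  unfold dot n1
  have h := abs_add_le (a.1 * x.1) (a.2 * x.2)
  rw [abs_mul, abs_mul] at h
  nlinarith [abs_nonneg a.1, abs_nonneg a.2, abs_nonneg x.1, abs_nonneg x.2]
lemma abs_det_le (a x : V) : |det a x| ≤ n1 a * n1 x := by
  rw [det_eq_dot]; simpa using abs_dot_le (rot a) x
lemma ball_finite (R : ℤ) : {x : V | n1 x ≤ R}.Finite :=
  ((Set.finite_Icc (-R) R).prod (Set.finite_Icc (-R) R)).subset (by
    intro x hx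
    simp only [Set.mem_ofPred_eq, n1] at hx
    have := abs_nonneg x.1; have := abs_nonneg x.2
    have h1 := abs_le.mp (show |x.1| ≤ R by omega)
    have h2 := abs_le.mp (show |x.2| ≤ R by omega)
    exact ⟨h1, h2⟩)
lemma finite_bdd {S : Set V} (h : S.Finite) : ∃ R : ℤ, ∀ x ∈ S, n1 x ≤ R := by
  obtain ⟨R, hR⟩ := (h.image n1).bddAbove
  exact ⟨R, fun x hx => hR ⟨x, hx, rfl⟩⟩
/-- decomposition along `ν` and `rot ν` -/
lemma dot_self_smul (ν x : V) : dot ν ν • x = dot ν x • ν + det ν x • rot ν := by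
  simp [dot, det, rot, Prod.ext_iff]; constructor <;> ring
/-- a set bounded in the directions `ν` and `rot ν` is finite -/
lemma finite_of_dot_det {ν : V} (h : ν ≠ 0) (C : ℤ) :
    {x : V | |dot ν x| ≤ C ∧ |det ν x| ≤ C}.Finite := by
  refine (ball_finite (2 * C * n1 ν)).subset ?_
  rintro x ⟨h1, h2⟩
  have h3 := dot_self_pos h
  have h4 := n1_add (dot ν x • ν) (det ν x • rot ν)
  rw [← dot_self_smul, n1_smul, n1_smul, n1_smul, n1_rot, abs_of_pos h3] at h4
  have := n1_nonneg ν; have := n1_nonneg x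
  show n1 x ≤ _
  nlinarith

lemma qd_add (p : Q2) (x y : V) : qd p (x + y) = qd p x + qd p y := by simp [qd]; ring
lemma qd_sub (p : Q2) (x y : V) : qd p (x - y) = qd p x - qd p y := by simp [qd]; ring
lemma qd_neg (p : Q2) (x : V) : qd p (-x) = -qd p x := by simp [qd]; ring
lemma qd_smul (p : Q2) (x : V) (k : ℤ) : qd p (k • x) = k * qd p x := by simp [qd]; ring
lemma add_qd (p q : Q2) (x : V) : qd (p + q) x = qd p x + qd q x := by simp [qd]; ring
lemma sub_qd (p q : Q2) (x : V) : qd (p - q) x = qd p x - qd q x := by simp [qd]; ring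
lemma neg_qd (p : Q2) (x : V) : qd (-p) x = -qd p x := by simp [qd]; ring
lemma smul_qd (p : Q2) (t : ℚ) (x : V) : qd (t • p) x = t * qd p x := by simp [qd]; ring
@[simp] lemma qd_zero (p : Q2) : qd p 0 = 0 := by simp [qd]
@[simp] lemma zero_qd (x : V) : qd 0 x = 0 := by simp [qd]
@[simp] lemma qd_toQ (a x : V) : qd (toQ a) x = dot a x := by simp [qd, toQ, dot]
lemma toQ_add (a b : V) : toQ (a + b) = toQ a + toQ b := by simp [toQ]
lemma toQ_neg (a : V) : toQ (-a) = -toQ a := by simp [toQ]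
lemma toQ_smul (a : V) (k : ℤ) : toQ (k • a) = (k : ℚ) • toQ a := by simp [toQ]
@[simp] lemma toQ_zero : toQ 0 = 0 := by simp [toQ]
lemma abs_qd_le (p : Q2) (x : V) : |qd p x| ≤ (|p.1| + |p.2|) * n1 x := by
  unfold qd n1
  have h := abs_add_le (p.1 * x.1) (p.2 * x.2)
  rw [abs_mul, abs_mul] at h
  push_cast
  nlinarith [abs_nonneg p.1, abs_nonneg p.2, abs_nonneg (x.1 : ℚ), abs_nonneg (x.2 : ℚ)]
lemma exists_grid (p : Q2) : ∃ D : ℤ, 0 < D ∧ Grid D p := by
  refine ⟨p.1.den * p.2.den, by positivity, (p.1.num * p.2.den, p.2.num * p.1.den), ?_⟩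
  have h1 := Rat.mul_den_eq_num p.1; have h2 := Rat.mul_den_eq_num p.2
  simp only [toQ, Prod.ext_iff, Prod.smul_fst, Prod.smul_snd, smul_eq_mul]
  push_cast; constructor
  · rw [← h1]; ring
  · rw [← h2]; ring
lemma Grid.mul {D : ℤ} {p : Q2} (h : Grid D p) (k : ℤ) : Grid (k * D) p := by
  obtain ⟨z, hz⟩ := h
  exact ⟨k • z, by rw [toQ_smul, ← hz, smul_smul]; push_cast; rfl⟩
lemma Grid.isZ {D : ℤ} {p : Q2} (h : Grid D p) (x : V) : IsZ (D * qd p x) := by
  obtain ⟨z, hz⟩ := h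
  exact ⟨dot z x, by rw [← smul_qd, hz, qd_toQ]⟩

/-! ### steps and counting -/

@[simp] lemma e0 : e 0 = (1, 0) := rfl
@[simp] lemma e1 : e 1 = (-1, 0) := rfl
@[simp] lemma e2 : e 2 = (0, 1) := rfl
@[simp] lemma e3 : e 3 = (0, -1) := rfl
lemma e_opp (i : Fin 4) : e (opp i) = -e i := by fin_cases i <;> rfl
lemma opp_opp (i : Fin 4) : opp (opp i) = i := by fin_cases i <;> rfl
@[simp] lemma n1_e (i : Fin 4) : n1 (e i) = 1 := by fin_cases i <;> simp [n1, e]
lemma sum_e : ∑ i : Fin 4, e i = 0 := by simp [Fin.sum_univ_four]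
lemma abs_dot_e (a : V) (i : Fin 4) : |dot a (e i)| ≤ n1 a := by simpa using abs_dot_le a (e i)
lemma abs_det_e (a : V) (i : Fin 4) : |det a (e i)| ≤ n1 a := by simpa using abs_det_le a (e i)
lemma exists_e_pos {a : V} (h : a ≠ 0) : ∃ i, 0 < dot (e i) a := by
  by_contra hh; push Not at hh
  have h0 := hh 0; have h1 := hh 1; have h2 := hh 2; have h3 := hh 3
  simp [dot] at h0 h1 h2 h3
  exact h (Prod.ext (by simp; omega) (by simp; omega))
/-- induction along lattice paths -/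
lemma V_induction {P : V → Prop} (x0 : V) (h0 : P x0) (hs : ∀ x i, P x → P (x + e i)) (x : V) :
    P x := by
  have h1 : ∀ a : ℤ, ∀ y, P y → P (y + (a, 0)) := by
    intro a
    induction a using Int.induction_on with
    | zero => intro y hy; simpa [← Prod.zero_eq_mk] using hy
    | succ a ih => intro y hy; have := hs _ 0 (ih y hy); simpa [add_assoc] using this
    | pred a ih =>
      intro y hy; have := hs _ 1 (ih y hy); simpa [add_assoc, sub_eq_add_neg] using this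
  have h2 : ∀ a : ℤ, ∀ y, P y → P (y + (0, a)) := by
    intro a
    induction a using Int.induction_on with
    | zero => intro y hy; simpa [← Prod.zero_eq_mk] using hy
    | succ a ih => intro y hy; have := hs _ 2 (ih y hy); simpa [add_assoc] using this
    | pred a ih =>
      intro y hy; have := hs _ 3 (ih y hy); simpa [add_assoc, sub_eq_add_neg] using this
  have := h2 (x.2 - x0.2) _ (h1 (x.1 - x0.1) _ h0)
  have e' : x0 + (x.1 - x0.1, 0) + (0, x.2 - x0.2) = x := by ext <;> simp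
  rwa [e'] at this

lemma cnt_nonneg (P : Fin 4 → Prop) : 0 ≤ cnt P :=
  Finset.sum_nonneg fun i _ => by split_ifs <;> simp
lemma cnt_mono {P Q : Fin 4 → Prop} (h : ∀ i, P i → Q i) : cnt P ≤ cnt Q :=
  Finset.sum_le_sum fun i _ => by
    by_cases hp : P i
    · simp [hp, h i hp]
    · simp only [hp, if_false]; split_ifs <;> simp
lemma cnt_congr {P Q : Fin 4 → Prop} (h : ∀ i, P i ↔ Q i) : cnt P = cnt Q :=
  le_antisymm (cnt_mono fun i => (h i).1) (cnt_mono fun i => (h i).2)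
lemma cnt_split (P Q : Fin 4 → Prop) :
    cnt P = cnt (fun i => P i ∧ Q i) + cnt (fun i => P i ∧ ¬ Q i) := by
  unfold cnt; rw [← Finset.sum_add_distrib]
  exact Finset.sum_congr rfl fun i _ => by by_cases P i <;> by_cases Q i <;> simp [*]
@[simp] lemma cnt_true : cnt (fun _ => True) = 4 := by simp [cnt]
@[simp] lemma cnt_false : cnt (fun _ => False) = 0 := by simp [cnt]
lemma cnt_add_not (P : Fin 4 → Prop) : cnt P + cnt (fun i => ¬ P i) = 4 := by
  have := cnt_split (fun _ => True) P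
  simp only [true_and, cnt_true] at this; exact this.symm
lemma cnt_le_four (P : Fin 4 → Prop) : cnt P ≤ 4 := by
  have := cnt_add_not P; have := cnt_nonneg (fun i => ¬ P i); omega
lemma cnt_or_le (P Q : Fin 4 → Prop) : cnt (fun i => P i ∨ Q i) ≤ cnt P + cnt Q := by
  unfold cnt; rw [← Finset.sum_add_distrib]
  exact Finset.sum_le_sum fun i _ => by by_cases P i <;> by_cases Q i <;> simp [*]
lemma cnt_or_disj {P Q : Fin 4 → Prop} (h : ∀ i, P i → ¬ Q i) :
    cnt (fun i => P i ∨ Q i) = cnt P + cnt Q := by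
  unfold cnt; rw [← Finset.sum_add_distrib]
  exact Finset.sum_congr rfl fun i _ => by
    have := h i; by_cases P i <;> by_cases Q i <;> simp_all
lemma cnt_eq_zero {P : Fin 4 → Prop} (h : ∀ i, ¬ P i) : cnt P = 0 := by
  rw [cnt_congr (Q := fun _ => False) (by simpa using h), cnt_false]
lemma exists_of_cnt_pos {P : Fin 4 → Prop} (h : 0 < cnt P) : ∃ i, P i := by
  by_contra hh; push Not at hh; rw [cnt_eq_zero hh] at h; exact lt_irrefl _ h
/-- termwise comparison of `sum + cnt` -/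
lemma sum_cnt_le {f g : Fin 4 → ℤ} {P Q : Fin 4 → Prop}
    (h : ∀ i, f i + (if P i then 1 else 0) ≤ g i + (if Q i then 1 else 0)) :
    ∑ i, f i + cnt P ≤ ∑ i, g i + cnt Q := by
  unfold cnt; rw [← Finset.sum_add_distrib, ← Finset.sum_add_distrib]
  exact Finset.sum_le_sum fun i _ => h i

lemma ind_mem {F : Set V} {x : V} (h : x ∈ F) : ind F x = 1 := by simp [ind, h]
lemma ind_not {F : Set V} {x : V} (h : x ∉ F) : ind F x = 0 := by simp [ind, h]
lemma ind_nonneg (F : Set V) (x : V) : 0 ≤ ind F x := by unfold ind; split_ifs <;> simp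
lemma ind_le_one (F : Set V) (x : V) : ind F x ≤ 1 := by unfold ind; split_ifs <;> simp

/-! ### Laplacian and stability -/

lemma lap_eq (g : V → ℤ) (x : V) : lap g x =
    g (x.1 + 1, x.2) + g (x.1 - 1, x.2) + g (x.1, x.2 + 1) + g (x.1, x.2 - 1) - 4 * g x := by
  have h0 : x + e 0 = (x.1 + 1, x.2) := by ext <;> simp
  have h1 : x + e 1 = (x.1 - 1, x.2) := by ext <;> simp [sub_eq_add_neg]
  have h2 : x + e 2 = (x.1, x.2 + 1) := by ext <;> simp
  have h3 : x + e 3 = (x.1, x.2 - 1) := by ext <;> simp [sub_eq_add_neg]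
  rw [lap, Fin.sum_univ_four, h0, h1, h2, h3]; ring
lemma lap_add (g h : V → ℤ) (x : V) : lap (fun y => g y + h y) x = lap g x + lap h x := by
  simp only [lap, Fin.sum_univ_four]; ring
lemma lap_sub (g h : V → ℤ) (x : V) : lap (fun y => g y - h y) x = lap g x - lap h x := by
  simp only [lap, Fin.sum_univ_four]; ring
@[simp] lemma lap_const (a : ℤ) (x : V) : lap (fun _ => a) x = 0 := by simp [lap]
@[simp] lemma lap_dot (l x : V) : lap (fun y => dot l y) x = 0 := by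
  simp [lap, Fin.sum_univ_four, dot]; ring
lemma lap_shift (g : V → ℤ) (z x : V) : lap (fun y => g (y + z)) x = lap g (x + z) := by
  simp only [lap, add_right_comm x _ z]
lemma lap_congr {g h : V → ℤ} {x : V} (h0 : g x = h x) (h1 : ∀ i, g (x + e i) = h (x + e i)) :
    lap g x = lap h x := by simp only [lap, h0, h1]
lemma lap_mono {g h : V → ℤ} {x : V} (h0 : g x = h x) (h1 : ∀ i, g (x + e i) ≤ h (x + e i)) :
    lap g x ≤ lap h x := Finset.sum_le_sum fun i _ => by have := h1 i; omega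
lemma StAt.mono {c g h : V → ℤ} {x : V} (hs : StAt c h x) (h0 : g x = h x)
    (h1 : ∀ i, g (x + e i) ≤ h (x + e i)) : StAt c g x := by
  have := lap_mono h0 h1; unfold StAt at *; omega
lemma StAt.congr {c g h : V → ℤ} {x : V} (hs : StAt c h x) (h0 : g x = h x)
    (h1 : ∀ i, g (x + e i) = h (x + e i)) : StAt c g x := hs.mono h0 fun i => (h1 i).le
lemma Stable.min {c g h : V → ℤ} (hg : Stable c g) (hh : Stable c h) :
    Stable c (fun x => min (g x) (h x)) := by
  intro x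
  rcases le_total (g x) (h x) with h1 | h1
  · exact (hg x).mono (min_eq_left h1) fun i => min_le_left _ _
  · exact (hh x).mono (min_eq_right h1) fun i => min_le_right _ _
lemma Stable.add_const {c g : V → ℤ} (hg : Stable c g) (a : ℤ) : Stable c (fun x => g x + a) := by
  intro x; have := hg x; unfold StAt at *; rw [lap_add]; simpa using this
lemma Stable.add_dot {c g : V → ℤ} (hg : Stable c g) (l : V) :
    Stable c (fun x => g x + dot l x) := by
  intro x; have := hg x; unfold StAt at *; rw [lap_add]; simpa using this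
lemma Stable.sub_dot {c g : V → ℤ} (hg : Stable c g) (l : V) :
    Stable c (fun x => g x - dot l x) := by
  intro x; have := hg x; unfold StAt at *; rw [lap_sub]; simpa using this
lemma Stable.shift {c g : V → ℤ} {N : ℤ} (hc : IsBG c N) (hg : Stable c g) (z : V) :
    Stable c (fun x => g (x + N • z)) := by
  intro x; have := hg (x + N • z); unfold StAt at *; rw [lap_shift, ← hc.per x z]; exact this
lemma stable_const {c : V → ℤ} {N : ℤ} (hc : IsBG c N) (a : ℤ) : Stable c (fun _ => a) := by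
  intro x; have := hc.le3 x; unfold StAt; simpa using this
lemma IsBG.of_dvd {c : V → ℤ} {N0 N : ℤ} (hc : IsBG c N0) (hN : 0 < N) (h : N0 ∣ N) :
    IsBG c N := by
  obtain ⟨k, rfl⟩ := h
  exact ⟨hN, fun x z => by rw [mul_smul, hc.per], hc.nonneg, hc.le3⟩
lemma KF.stable {c : V → ℤ} {N : ℤ} {k : V → Fin 4 → ℤ} {g : V → ℤ} (hk : Budget c N k)
    (hg : KF k g) : Stable c g := by
  intro x
  have h1 : lap g x ≤ ∑ i, k x i := Finset.sum_le_sum fun i _ => hg x i
  have := hk.2 x; unfold StAt; omega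
lemma KF.max {k : V → Fin 4 → ℤ} {g h : V → ℤ} (hg : KF k g) (hh : KF k h) :
    KF k (fun x => max (g x) (h x)) := by
  intro x i; have := hg x i; have := hh x i; simp only; omega
lemma KF.add_const {k : V → Fin 4 → ℤ} {g : V → ℤ} (hg : KF k g) (a : ℤ) :
    KF k (fun x => g x + a) := by
  intro x i; have := hg x i; simp only; omega

lemma fsc_iff_stuck (c g : V → ℤ) (F : Set V) :
    FSC c g F ↔ Stuck (fun _ _ => True) (fun x => 4 - c x - lap g x) F := by
  unfold FSC Stuck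
  refine forall_congr' fun x => imp_congr_right fun _ => ?_
  simp only [true_and]; omega
lemma lap_ind (F : Set V) {x : V} (hx : x ∈ F) : lap (ind F) x = -cnt (fun i => x + e i ∉ F) := by
  unfold lap cnt; rw [← Finset.sum_neg_distrib]
  exact Finset.sum_congr rfl fun i _ => by by_cases h : x + e i ∈ F <;> simp [ind, hx, h]
lemma FSC.stable {c g : V → ℤ} {F : Set V} (hg : Stable c g) (hF : FSC c g F) :
    Stable c (fun x => g x - ind F x) := by
  intro x
  by_cases hx : x ∈ F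
  · have := hF x hx; unfold StAt; rw [lap_sub, lap_ind F hx]; omega
  · exact (hg x).mono (by simp [ind_not hx]) fun i => by have := ind_nonneg F (x + e i); omega
lemma FSC.sUnion {c g : V → ℤ} {S : Set (Set V)} (h : ∀ F ∈ S, FSC c g F) : FSC c g (⋃₀ S) := by
  rintro x ⟨F, hF, hx⟩
  have h1 := h F hF x hx
  have h2 : cnt (fun i => x + e i ∉ ⋃₀ S) ≤ cnt (fun i => x + e i ∉ F) :=
    cnt_mono fun i hi hf => hi ⟨F, hF, hf⟩
  omega

/-! ### ceiling division -/

@[simp] lemma cd_one (a : ℤ) : cd 1 a = a := by simp [cd]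
lemma cd_le_iff {D : ℤ} (hD : 0 < D) (a k : ℤ) : cd D a ≤ k ↔ a ≤ D * k := by
  unfold cd; rw [neg_le, Int.le_ediv_iff_mul_le hD]; constructor <;> intro h <;> linarith
lemma lt_cd_iff {D : ℤ} (hD : 0 < D) (a k : ℤ) : k < cd D a ↔ D * k < a := by
  rw [← not_le, cd_le_iff hD, not_le]
lemma le_mul_cd {D : ℤ} (hD : 0 < D) (a : ℤ) : a ≤ D * cd D a := (cd_le_iff hD _ _).1 le_rfl
lemma mul_cd_lt {D : ℤ} (hD : 0 < D) (a : ℤ) : D * (cd D a - 1) < a :=
  (lt_cd_iff hD _ _).1 (by omega)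
lemma cd_mono {D : ℤ} (hD : 0 < D) {a b : ℤ} (h : a ≤ b) : cd D a ≤ cd D b :=
  (cd_le_iff hD _ _).2 (h.trans (le_mul_cd hD b))
lemma cd_eq {D : ℤ} (hD : 0 < D) {a k : ℤ} (h1 : D * (k - 1) < a) (h2 : a ≤ D * k) : cd D a = k := by
  have := (cd_le_iff hD a k).2 h2; have := (lt_cd_iff hD a (k - 1)).2 h1; omega
lemma cd_succ {D : ℤ} (hD : 0 < D) (a : ℤ) : cd D (a + 1) = cd D a + if D ∣ a then 1 else 0 := by
  have h1 := le_mul_cd hD a; have h2 := mul_cd_lt hD a
  split_ifs with h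
  · obtain ⟨k, rfl⟩ := h
    have : cd D (D * k) = k := cd_eq hD (by linarith) le_rfl
    rw [this]; exact cd_eq hD (by linarith) (by linarith)
  · have : a ≠ D * cd D a := fun h' => h ⟨_, h'⟩
    rw [add_zero]; exact cd_eq hD (by linarith) (by omega)
lemma ediv_sub_le_cd {D : ℤ} (hD : 0 < D) (a b : ℤ) : a / D - b / D ≤ cd D (a - b) := by
  have h1 := le_mul_cd hD (a - b)
  have h2 := Int.mul_ediv_add_emod b D
  have h3 := Int.emod_lt_of_pos b hD
  have : a / D < b / D + cd D (a - b) + 1 := by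
    rw [Int.ediv_lt_iff_lt_mul hD]; nlinarith
  omega
@[simp] lemma lapD_one (B : V → ℤ) (x : V) : lapD 1 B x = lap B x := by simp [lapD, lap]
@[simp] lemma stD_one (c B : V → ℤ) (x : V) : StD c 1 B x ↔ StAt c B x := by simp [StD, StAt]
lemma fscD_one (c B : V → ℤ) (F : Set V) : FSCD c 1 B F ↔ FSC c B F := by
  unfold FSCD FSC
  refine forall_congr' fun x => imp_congr_right fun hx => ?_
  rw [stD_one]; unfold StAt; rw [lap_sub, lap_ind F hx]; omega
lemma free_one {c B : V → ℤ} {I : Set V → Prop} :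
    Free c 1 I B ↔ ∀ F, I F → FSC c B F → F = ∅ := by simp only [Free, fscD_one]
lemma stable_of_stD {c B : V → ℤ} {D : ℤ} (hD : 0 < D) (h : ∀ x, StD c D B x) :
    Stable c (fun x => B x / D) := by
  intro x
  have h1 : lap (fun x => B x / D) x ≤ lapD D B x :=
    Finset.sum_le_sum fun i _ => ediv_sub_le_cd hD _ _
  have := h x; unfold StAt StD at *; omega

/-! ### automatic maps on `V` -/

section
variable {α : Type} [AddCommGroup α] [Dig α]
@[fun_prop] lemma AM.dot (a : V) {f : α → V} (hf : AM f) : AM (fun x => dot a (f x)) := by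
  unfold Sand.dot; fun_prop
@[fun_prop] lemma AM.det (a : V) {f : α → V} (hf : AM f) : AM (fun x => det a (f x)) := by
  unfold Sand.det; fun_prop
@[fun_prop] lemma AM.n1 {f : α → V} (hf : AM f) : AM (fun x => n1 (f x)) := by
  unfold Sand.n1; fun_prop
@[fun_prop] lemma AM.ind {F : Set V} (hF : APS F) {f : α → V} (hf : AM f) :
    AM (fun x => ind F (f x)) := by
  unfold Sand.ind; fun_prop
lemma AM.cnt {P : α → Fin 4 → Prop} (h : ∀ i, AP (fun x => P x i)) : AM (fun x => cnt (P x)) := by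
  unfold Sand.cnt
  exact AM.sum _ fun i => AM.ite (h i) (AM.const _) (AM.const _)
end
lemma AM.lap {g : V → ℤ} (hg : AM g) : AM (lap g) := by
  unfold Sand.lap
  exact AM.sum _ fun i => by fun_prop

/-- a function that is equivariant on a set that is finite modulo the lattice of `z1, z2` -/
lemma am_lat (z1 z2 : V) (R : Finset V) (Y : Set V) (g : V → ℤ) (l1 l2 : V → ℤ)
    (hY : ∀ x, x ∈ Y ↔ ∃ i j : ℤ, ∃ y ∈ R, x = y + i • z1 + j • z2)
    (hg : ∀ y ∈ R, ∀ i j : ℤ, g (y + i • z1 + j • z2) = g y + i * l1 y + j * l2 y) :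
    APS Y ∧ AM (fun x => if x ∈ Y then g x else 0) := by
  have h1 : APS Y := by
    refine AP.of_iff (AP.ex (AP.ex (AP.exFin (P := fun y (w : (V × ℤ) × ℤ) =>
      w.1.1 = y + w.1.2 • z1 + w.2 • z2) R.finite_toSet fun y _ => by fun_prop))) fun x => (hY x).symm
  refine ⟨h1, AM.of_graph (P := fun x v => (∃ i j : ℤ, ∃ y ∈ (R : Set V), x = y + i • z1 + j • z2 ∧
    v = g y + i * l1 y + j * l2 y) ∨ (x ∉ Y ∧ v = 0)) ?_ ?_⟩
  · refine AP.or (AP.ex (AP.ex (AP.exFin (P := fun y (w : ((V × ℤ) × ℤ) × ℤ) =>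
      w.1.1.1 = y + w.1.2 • z1 + w.2 • z2 ∧ w.1.1.2 = g y + w.1.2 * l1 y + w.2 * l2 y)
      R.finite_toSet fun y _ => by fun_prop))) (by fun_prop)
  · intro x v
    by_cases hx : x ∈ Y
    · simp only [hx, not_true, false_and, or_false, if_true]
      constructor
      · rintro ⟨i, j, y, hy, rfl, rfl⟩; exact hg y hy i j
      · rintro rfl
        obtain ⟨i, j, y, hy, rfl⟩ := (hY x).1 hx
        exact ⟨i, j, y, hy, rfl, hg y hy i j⟩
    · simp only [hx, not_false_iff, true_and, if_false]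
      constructor
      · rintro (⟨i, j, y, hy, rfl, -⟩ | h)
        · exact absurd ((hY _).2 ⟨i, j, y, hy, rfl⟩) hx
        · exact h.symm
      · intro h; exact Or.inr h.symm

/-- iterating a one-step equivariance on an invariant set -/
lemma iter_eqv {Y : Set V} {z : V} {g : V → ℤ} {a : ℤ} (hY : ∀ x, x + z ∈ Y ↔ x ∈ Y)
    (hg : ∀ x ∈ Y, g (x + z) = g x + a) (i : ℤ) :
    ∀ x ∈ Y, x + i • z ∈ Y ∧ g (x + i • z) = g x + i * a := by
  induction i using Int.induction_on with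
  | zero => intro x hx; simpa using hx
  | succ i ih =>
    intro x hx; obtain ⟨h1, h2⟩ := ih x hx
    rw [add_smul, one_smul, ← add_assoc]
    exact ⟨(hY _).2 h1, by rw [hg _ h1, h2]; ring⟩
  | pred i ih =>
    intro x hx; obtain ⟨h1, h2⟩ := ih x hx
    have e' : x + (-(i:ℤ)) • z = x + (-(i:ℤ) - 1) • z + z := by rw [sub_smul, one_smul]; abel
    rw [e'] at h1 h2
    have h3 := (hY _).1 h1
    exact ⟨h3, by rw [hg _ h3] at h2; linarith⟩

lemma iter_iff {P : V → Prop} {z : V} (h : ∀ x, P (x + z) ↔ P x) (i : ℤ) (x : V) :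
    P (x + i • z) ↔ P x := by
  constructor
  · intro hx
    have := (iter_eqv (Y := {x | P x}) (g := fun _ => 0) (a := 0) h (by simp) (-i) _ hx).1
    simpa using this
  · intro hx
    exact (iter_eqv (Y := {x | P x}) (g := fun _ => 0) (a := 0) h (by simp) i _ hx).1

/-- version of `am_lat` from one-step invariance, with constant increments -/
lemma am_lat' (z1 z2 : V) (Y : Set V) (g : V → ℤ) (a1 a2 : ℤ)
    (hY : ∀ x, (x + z1 ∈ Y ↔ x ∈ Y) ∧ (x + z2 ∈ Y ↔ x ∈ Y))
    (hR : ∃ R : Finset V, ∀ x ∈ Y, ∃ i j : ℤ, x - i • z1 - j • z2 ∈ R)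
    (hg : ∀ x ∈ Y, g (x + z1) = g x + a1 ∧ g (x + z2) = g x + a2) :
    APS Y ∧ AM (fun x => if x ∈ Y then g x else 0) := by
  obtain ⟨R, hR⟩ := hR
  have k1 := iter_eqv (fun x => (hY x).1) (fun x hx => (hg x hx).1)
  have k2 := iter_eqv (fun x => (hY x).2) (fun x hx => (hg x hx).2)
  refine am_lat z1 z2 (R.filter (· ∈ Y)) Y g (fun _ => a1) (fun _ => a2) ?_ ?_
  · intro x; constructor
    · intro hx
      obtain ⟨i, j, h⟩ := hR x hx
      refine ⟨i, j, _, Finset.mem_filter.2 ⟨h, ?_⟩, by abel⟩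
      have := (k2 (-j) _ (k1 (-i) x hx).1).1
      simpa [sub_eq_add_neg] using this
    · rintro ⟨i, j, y, hy, rfl⟩
      exact (k2 j _ (k1 i y (Finset.mem_filter.1 hy).2).1).1
  · intro y hy i j
    have hy' := (Finset.mem_filter.1 hy).2
    rw [(k2 j _ (k1 i y hy').1).2, (k1 i y hy').2]

/-- every point is a lattice translate of a point of the box -/
lemma box_rep {N : ℤ} (hN : 0 < N) (x : V) :
    ∃ z : V, ∃ y : V, (0 ≤ y.1 ∧ y.1 < N ∧ 0 ≤ y.2 ∧ y.2 < N) ∧ x = y + N • z :=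
  ⟨(x.1 / N, x.2 / N), (x.1 % N, x.2 % N),
    ⟨Int.emod_nonneg _ hN.ne', Int.emod_lt_of_pos _ hN, Int.emod_nonneg _ hN.ne',
      Int.emod_lt_of_pos _ hN⟩, by
    ext <;> simp [Int.emod_add_mul_ediv]⟩
lemma box_finite (N : ℤ) : {y : V | 0 ≤ y.1 ∧ y.1 < N ∧ 0 ≤ y.2 ∧ y.2 < N}.Finite :=
  ((Set.finite_Ico 0 N).prod (Set.finite_Ico 0 N)).subset
    (by rintro y ⟨h1, h2, h3, h4⟩; exact ⟨⟨h1, h2⟩, h3, h4⟩)
lemma box_lat {N : ℤ} (hN : 0 < N) :
    ∃ R : Finset V, ∀ x : V, ∃ i j : ℤ, x - i • (N • e 0) - j • (N • e 2) ∈ R := by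
  refine ⟨(box_finite N).toFinset, fun x => ?_⟩
  obtain ⟨z, y, hy, rfl⟩ := box_rep hN x
  refine ⟨z.1, z.2, ?_⟩
  have : y + N • z - z.1 • (N • e 0) - z.2 • (N • e 2) = y := by ext <;> simp <;> ring
  rw [this]; simpa using hy
/-- a periodic function is bounded -/
lemma per_bdd {N : ℤ} (hN : 0 < N) {f : V → ℚ} (hf : ∀ x z, f (x + N • z) = f x) :
    ∃ C : ℚ, ∀ x, |f x| ≤ C := by
  obtain ⟨C, hC⟩ := ((box_finite N).image fun y => |f y|).bddAbove
  refine ⟨C, fun x => ?_⟩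
  obtain ⟨z, y, hy, rfl⟩ := box_rep hN x
  rw [hf]; exact hC ⟨y, hy, rfl⟩

lemma Eqv.near {N : ℤ} {p : Q2} {g : V → ℤ} (h : Eqv N p g) (hN : 0 < N) : Near p g :=
  per_bdd hN (f := fun x => (g x : ℚ) + qd p x) (by
    intro x z; simp only [h x z, qd_add, qd_smul]; ring)
lemma Eqv.am {N : ℤ} {p : Q2} {g : V → ℤ} (h : Eqv N p g) (hN : 0 < N) : AM g := by
  have key : ∀ i x, g (x + N • e i) = g x + (g (N • e i) - g 0) := by
    intro i x
    have h1 := h x (e i); have h2 := h 0 (e i); rw [zero_add] at h2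
    have : (g (x + N • e i) : ℚ) = g x + (g (N • e i) - g 0) := by rw [h1, h2]; ring
    exact_mod_cast this
  obtain ⟨R, hR⟩ := box_lat hN
  have := (am_lat' (N • e 0) (N • e 2) Set.univ g _ _ (by simp) ⟨R, fun x _ => hR x⟩
    (fun x _ => ⟨key 0 x, key 2 x⟩)).2
  simpa using this
lemma ap_per {N : ℤ} (hN : 0 < N) {Y : Set V} (h : ∀ x z, x + N • z ∈ Y ↔ x ∈ Y) :
    APS Y := by
  obtain ⟨R, hR⟩ := box_lat hN
  exact (am_lat' (N • e 0) (N • e 2) Y (fun _ => 0) 0 0 (fun x => ⟨h x _, h x _⟩)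
    ⟨R, fun x _ => hR x⟩ (by simp)).1
lemma IsBG.am {c : V → ℤ} {N : ℤ} (hc : IsBG c N) : AM c :=
  Eqv.am (N := N) (p := 0) (fun x z => by rw [hc.per]; simp) hc.pos
lemma Eqv.mul {N : ℤ} {p : Q2} {g : V → ℤ} (h : Eqv N p g) (k : ℤ) : Eqv (k * N) p g := by
  intro x z; rw [mul_comm k, mul_smul, h, qd_smul]; push_cast; ring
lemma Eqv.of_dvd {N N' : ℤ} {p : Q2} {g : V → ℤ} (h : Eqv N p g) (hd : N ∣ N') : Eqv N' p g := by
  obtain ⟨k, rfl⟩ := hd; rw [mul_comm]; exact h.mul k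
lemma Eqv.add_const {N : ℤ} {p : Q2} {g : V → ℤ} (h : Eqv N p g) (a : ℤ) :
    Eqv N p (fun x => g x + a) := by
  intro x z; push_cast; rw [h]; ring
lemma Eqv.sub_dot {N : ℤ} {p : Q2} {g : V → ℤ} (h : Eqv N p g) (l : V) :
    Eqv N (p + toQ l) (fun x => g x - dot l x) := by
  intro x z; push_cast; rw [h, add_qd, qd_toQ, dot_add, dot_smul]; push_cast; ring
lemma Eqv.grid {N : ℤ} {p : Q2} {g : V → ℤ} (h : Eqv N p g) : Grid N p := by
  refine ⟨(g 0 - g (0 + N • e 0), g 0 - g (0 + N • e 2)), ?_⟩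
  simp only [toQ, Prod.ext_iff, Prod.smul_fst, Prod.smul_snd, smul_eq_mul]
  push_cast; rw [h, h]; simp [qd]
lemma Eqv.lap {N : ℤ} {p : Q2} {g : V → ℤ} (h : Eqv N p g) (x z : V) :
    lap g (x + N • z) = lap g x := by
  refine Finset.sum_congr rfl fun i _ => ?_
  have h1 := h x z; have h2 := h (x + e i) z
  rw [add_right_comm x (N • z)]
  have : ((g (x + e i + N • z) - g (x + N • z) : ℤ) : ℚ) = ((g (x + e i) - g x : ℤ) : ℚ) := by
    push_cast; rw [h1, h2]; ring
  exact_mod_cast this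
/-- dividing a lifted phase -/
lemma Eqv.ediv {N D : ℤ} {m : Q2} {B : V → ℤ} (hD : 0 < D) (h : Eqv N ((D : ℚ) • m) B) :
    Eqv (D * N) m (fun x => B x / D) := by
  intro x z
  obtain ⟨u, hu⟩ := h.grid.isZ z
  have h1 := h x (D • z)
  rw [smul_smul, mul_comm N D, qd_smul] at h1
  have h2 : B (x + (D * N) • z) = B x + D * (-u) := by
    have : (B (x + (D * N) • z) : ℚ) = B x + D * (-u) := by rw [h1, ← hu]; ring
    exact_mod_cast this
  simp only
  rw [h2, Int.add_mul_ediv_left _ _ hD.ne']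
  rw [smul_qd] at hu
  push_cast; rw [← hu]; ring
lemma kf_of_lift {D : ℤ} (hD : 0 < D) {k : V → Fin 4 → ℤ} {B : V → ℤ}
    (h : ∀ x i, B (x + e i) - B x ≤ D * k x i) : KF k (fun x => B x / D) :=
  fun x i => (ediv_sub_le_cd hD _ _).trans ((cd_le_iff hD _ _).2 (h x i))
lemma stD_of_lift {c : V → ℤ} {N D : ℤ} (hD : 0 < D) {k : V → Fin 4 → ℤ} (hk : Budget c N k)
    {B : V → ℤ} (h : ∀ x i, B (x + e i) - B x ≤ D * k x i) (x : V) : StD c D B x := by
  have h1 : lapD D B x ≤ ∑ i, k x i := Finset.sum_le_sum fun i _ => (cd_le_iff hD _ _).2 (h x i)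
  have := hk.2 x; unfold StD; omega

/-! ### ranks -/

lemma mk2_lt {a b a' b' : ℤ} : mk2 a b < mk2 a' b' ↔ a < a' ∨ a = a' ∧ b < b' := by
  simp [mk2, Prod.Lex.toLex_lt_toLex]
lemma mk5_lt {a b c d f a' b' c' d' f' : ℤ} : mk5 a b c d f < mk5 a' b' c' d' f' ↔
    a < a' ∨ a = a' ∧ (b < b' ∨ b = b' ∧ (c < c' ∨ c = c' ∧ (d < d' ∨ d = d' ∧ f < f'))) := by
  simp [mk5, Prod.Lex.toLex_lt_toLex]
lemma AR5.comp {ρ : V → R5} (h : AR5 ρ) {f : V → V} (hf : AM f) : AR5 (fun x => ρ (f x)) := by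
  obtain ⟨a, b, c, d, g, ha, hb, hc, hd, hg, rfl⟩ := h
  exact ⟨_, _, _, _, _, ha.comp hf, hb.comp hf, hc.comp hf, hd.comp hf, hg.comp hf, rfl⟩
lemma AR5.ite {P : V → Prop} [DecidablePred P] (hP : AP P) {ρ σ : V → R5} (h : AR5 ρ)
    (h' : AR5 σ) : AR5 (fun x => if P x then ρ x else σ x) := by
  obtain ⟨a, b, c, d, g, ha, hb, hc, hd, hg, rfl⟩ := h
  obtain ⟨a', b', c', d', g', ha', hb', hc', hd', hg', rfl⟩ := h'
  refine ⟨_, _, _, _, _, AM.ite hP ha ha', AM.ite hP hb hb', AM.ite hP hc hc', AM.ite hP hd hd',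
    AM.ite hP hg hg', ?_⟩
  funext x; by_cases hx : P x <;> simp [hx]

lemma WFon.mono {α : Type} [LE α] {S S' : Set V} {ρ : V → α} (h : WFon S ρ) (hS : S' ⊆ S) :
    WFon S' ρ := fun F hF => h F (hF.trans hS)
lemma WFon.congr {α : Type} [LE α] {S : Set V} {ρ ρ' : V → α} (h : WFon S ρ)
    (h' : ∀ x ∈ S, ρ' x = ρ x) : WFon S ρ' := by
  intro F hF hne
  obtain ⟨x, hx, hm⟩ := h F hF hne
  exact ⟨x, hx, fun y hy => by rw [h' x (hF hx), h' y (hF hy)]; exact hm y hy⟩
lemma WFon.union {α : Type} [LinearOrder α] {S S' : Set V} {ρ : V → α} (h : WFon S ρ)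
    (h' : WFon S' ρ) : WFon (S ∪ S') ρ := by
  intro F hF hne
  by_cases h1 : (F ∩ S).Nonempty
  · obtain ⟨x, hx, hm⟩ := h _ Set.inter_subset_right h1
    by_cases h2 : (F ∩ S').Nonempty
    · obtain ⟨x', hx', hm'⟩ := h' _ Set.inter_subset_right h2
      rcases le_total (ρ x) (ρ x') with hl | hl
      · exact ⟨x, hx.1, fun y hy => (hF hy).elim (fun a => hm y ⟨hy, a⟩)
          fun a => hl.trans (hm' y ⟨hy, a⟩)⟩
      · exact ⟨x', hx'.1, fun y hy => (hF hy).elim (fun a => hl.trans (hm y ⟨hy, a⟩))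
          fun a => hm' y ⟨hy, a⟩⟩
    · exact ⟨x, hx.1, fun y hy => (hF hy).elim (fun a => hm y ⟨hy, a⟩)
        fun a => absurd ⟨y, hy, a⟩ h2⟩
  · exact h' F (fun y hy => (hF hy).resolve_left fun a => h1 ⟨y, hy, a⟩) hne
lemma wfon_of_finite_image {α : Type} [LinearOrder α] {S : Set V} {ρ : V → α}
    (h : (ρ '' S).Finite) : WFon S ρ := by
  intro F hF hne
  obtain ⟨_, ⟨x, hx, rfl⟩, hm⟩ := Set.exists_min_image (ρ '' F) id
    (h.subset (Set.image_mono hF)) (hne.image _)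
  exact ⟨x, hx, fun y hy => hm _ ⟨y, hy, rfl⟩⟩
lemma wfon_of_finite {α : Type} [LinearOrder α] {S : Set V} {ρ : V → α} (h : S.Finite) :
    WFon S ρ := wfon_of_finite_image (h.image _)
lemma wfon_biUnion {α ι : Type} [LinearOrder α] {s : Set ι} (hs : s.Finite) {S : ι → Set V}
    {ρ : V → α} (h : ∀ i ∈ s, WFon (S i) ρ) : WFon (⋃ i ∈ s, S i) ρ := by
  induction s, hs using Set.Finite.induction_on with
  | empty => simpa using wfon_of_finite Set.finite_empty
  | @insert a s _ _ ih =>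
    rw [Set.biUnion_insert]
    exact (h a (by simp)).union (ih fun i hi => h i (by simp [hi]))
lemma wfon_int {S : Set V} {ρ : V → ℤ} {B : ℤ} (h : ∀ x ∈ S, B ≤ ρ x) : WFon S ρ := by
  intro F hF ⟨x0, hx0⟩
  obtain ⟨m, ⟨x, hx, rfl⟩, hm⟩ := Int.exists_least_of_bdd (P := fun m => ∃ x ∈ F, ρ x = m)
    ⟨B, by rintro _ ⟨x, hx, rfl⟩; exact h x (hF hx)⟩ ⟨_, x0, hx0, rfl⟩
  exact ⟨x, hx, fun y hy => hm _ ⟨y, hy, rfl⟩⟩
/-- lexicographic well-foundedness -/
lemma wfon_lex {α : Type} [LinearOrder α] {S : Set V} {a : V → ℤ} {σ : V → α} {B : ℤ}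
    (h : ∀ x ∈ S, B ≤ a x) (h' : ∀ v, WFon {x | x ∈ S ∧ a x = v} σ) :
    WFon S (fun x => toLex (a x, σ x)) := by
  intro F hF hne
  obtain ⟨x0, hx0, hm0⟩ := wfon_int h F hF hne
  obtain ⟨x, hx, hm⟩ := h' (a x0) {y | y ∈ F ∧ a y = a x0} (fun y hy => ⟨hF hy.1, hy.2⟩)
    ⟨x0, hx0, rfl⟩
  refine ⟨x, hx.1, fun y hy => ?_⟩
  rw [Prod.Lex.toLex_le_toLex]
  rcases (hm0 y hy).lt_or_eq with h1 | h1
  · left; show a x < a y; rw [hx.2]; exact h1
  · right; exact ⟨hx.2.trans h1, hm y ⟨hy, h1.symm⟩⟩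
lemma WFon.shift {α : Type} [LE α] {S : Set V} {ρ : V → α} (h : WFon S ρ) (z : V) :
    WFon {x | x + z ∈ S} (fun x => ρ (x + z)) := by
  intro F hF hne
  obtain ⟨_, ⟨x, hx, rfl⟩, hm⟩ := h ((fun x => x + z) '' F)
    (by rintro _ ⟨x, hx, rfl⟩; exact hF hx) (hne.image _)
  exact ⟨x, hx, fun y hy => hm _ ⟨y, hy, rfl⟩⟩

lemma SubAt.shift {α : Type} [LT α] {c τ : V → ℤ} {ρ : V → α} {N : ℤ} (hc : IsBG c N) (z : V)
    (a : ℤ) {x : V} (h : SubAt c τ ρ (x + N • z)) :
    SubAt c (fun y => τ (y + N • z) + a) (fun y => ρ (y + N • z)) x := by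
  unfold SubAt at *
  rw [lap_add, lap_const, lap_shift, ← hc.per x z]
  simp only [add_right_comm x _ (N • z)]
  omega
lemma IsSub.shift {c τ : V → ℤ} {ρ : V → R5} {N : ℤ} (hc : IsBG c N) (h : IsSub c τ ρ) (z : V)
    (a : ℤ) : IsSub c (fun y => τ (y + N • z) + a) (fun y => ρ (y + N • z)) := by
  obtain ⟨h1, h2, h3⟩ := h
  exact ⟨by fun_prop, h2.comp (f := fun y => y + N • z) (by fun_prop),
    fun x => SubAt.shift hc z a (h3 _)⟩

/-! ### ideals, cells, derivations -/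

lemma tinv_fin : TInv IFin := fun _ z h =>
  Set.Finite.preimage (f := fun x => x + z) (fun _ _ _ _ h => add_right_cancel h) h
lemma tinv_out (n : V) : TInv (IOut n) := by
  rintro F z ⟨C, h⟩
  refine ⟨C + |det n z| + |dot n z|, fun x hx => ?_⟩
  obtain ⟨h1, h2⟩ := h _ hx
  rw [det_add] at h1; rw [dot_add] at h2
  have := abs_le.1 h1; have := le_abs_self (det n z); have := neg_abs_le (det n z)
  have := le_abs_self (dot n z); have := abs_nonneg (dot n z)
  exact ⟨abs_le.2 ⟨by omega, by omega⟩, by omega⟩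
lemma tinv_band (n : V) : TInv (IBand n) := by
  rintro F z ⟨C, h⟩
  refine ⟨C + |det n z|, fun x hx => ?_⟩
  have h1 := h _ hx
  rw [det_add] at h1
  have := abs_le.1 h1; have := le_abs_self (det n z); have := neg_abs_le (det n z)
  exact abs_le.2 ⟨by omega, by omega⟩
lemma tinv_half (n : V) : TInv (IHalf n) := by
  rintro F z ⟨C, h⟩
  refine ⟨C + |dot n z|, fun x hx => ?_⟩
  have h1 := h _ hx
  rw [dot_add] at h1
  have := le_abs_self (dot n z); omega
lemma IFin.out {F : Set V} (h : IFin F) (n : V) : IOut n F := by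
  obtain ⟨R, hR⟩ := finite_bdd h
  refine ⟨n1 n * R, fun x hx => ?_⟩
  have h1 := abs_det_le n x; have h2 := abs_dot_le n x
  have h3 := mul_le_mul_of_nonneg_left (hR x hx) (n1_nonneg n)
  have := neg_abs_le (dot n x)
  exact ⟨by omega, by omega⟩
lemma IOut.band {F : Set V} {n : V} (h : IOut n F) : IBand n F :=
  let ⟨C, hC⟩ := h; ⟨C, fun x hx => (hC x hx).1⟩
lemma IOut.half {F : Set V} {n : V} (h : IOut n F) : IHalf n F :=
  let ⟨C, hC⟩ := h; ⟨C, fun x hx => (hC x hx).2⟩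
lemma Free.mono {c B : V → ℤ} {D : ℤ} {I I' : Set V → Prop} (h : Free c D I B)
    (hI : ∀ F, I' F → I F) : Free c D I' B := fun F hF => h F (hI F hF)

lemma Cl.refl (N : ℤ) (q : Q2) : Cl N q q := fun _ _ _ h => h
lemma Cl.trans {N : ℤ} {p q r : Q2} (h : Cl N p q) (h' : Cl N q r) : Cl N p r :=
  fun a ha b hb => h' a ha b (h a ha b hb)
lemma Cl.eq_of_isZ {N : ℤ} {p q : Q2} (h : Cl N p q) {a : V} (ha : n1 a ≤ N ^ 2)
    (hz : IsZ (qd p a)) : qd q a = qd p a := by
  obtain ⟨b, hb⟩ := hz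
  have h1 := h a ha b hb.le
  have h2 := h (-a) (by simpa using ha) (-b) (by rw [qd_neg, hb]; simp)
  rw [qd_neg] at h2; push_cast at h2; linarith
lemma Cl.cls {N : ℤ} (hN : 0 < N) {p q : Q2} (h : Cl N p q) : Cls 1 q p := by
  have hb : ∀ i, n1 (e i) ≤ N ^ 2 := fun i => by rw [n1_e]; nlinarith
  have k : ∀ i, qd q (e i) ≤ qd p (e i) + 1 := fun i =>
    (h (e i) (hb i) ⌈qd p (e i)⌉ (Int.le_ceil _)).trans (Int.ceil_lt_add_one _).le
  have h0 := k 0; have h1 := k 1; have h2 := k 2; have h3 := k 3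
  simp [qd] at h0 h1 h2 h3
  exact ⟨abs_le.2 ⟨by linarith, by linarith⟩, abs_le.2 ⟨by linarith, by linarith⟩⟩
lemma DD_pos (N : ℤ) : 0 < DD N := by unfold DD; exact_mod_cast Nat.factorial_pos _

lemma DvF.props {c : V → ℤ} {N : ℤ} {X : Ctx} {T : V} {G : V → V → ℤ} (h : DvF c N X T G) :
    AM (fun w : V × V => G w.1 w.2) ∧ dot X.l T = 0 ∧
      ∀ s, Stable c (G s) ∧ ∀ x, G s (x + T) = G s x := by
  obtain ⟨L, hL, it, hit, rfl, rfl⟩ := h
  obtain ⟨h1, h2, h3⟩ := hL it hit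
  exact ⟨h1, h2, fun s => ⟨(h3 s).1, (h3 s).2.1⟩⟩
lemma Dv.props {c : V → ℤ} {N : ℤ} {X : Ctx} {T : V} {g : V → ℤ} (h : Dv c N X T g) :
    AM g ∧ dot X.l T = 0 ∧ Stable c g ∧ ∀ x, g (x + T) = g x := by
  obtain ⟨h1, h2, h3⟩ := DvF.props h
  exact ⟨AM.comp (f := fun x : V => ((0 : V), x)) h1 (by fun_prop), h2, h3 0⟩

end Pool.Agent.Sand
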