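import Pool.Agent.Lib.MP_215a10_lc.Dec.Stmts
import Pool.Agent.Lib.MP_215a10_lc.Dec.Once

/-! Budgets of pinned slopes. -/

set_option autoImplicit false

namespace Pool.Agent.Sand.Budget

theorem qd_add (q : Q2) (x y : V) : qd q (x + y) = qd q x + qd q y := by
  simp only [qd, Prod.fst_add, Prod.snd_add, Int.cast_add]
  ring

theorem qd_smul (q : Q2) (n : ℤ) (x : V) : qd q (n • x) = n * qd q x := by
  simp only [qd, Prod.smul_fst, Prod.smul_snd, smul_eq_mul, Int.cast_mul]
  ring

theorem qd_neg (q : Q2) (x : V) : qd q (-x) = -qd q x := by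
  simp only [qd, Prod.fst_neg, Prod.snd_neg, Int.cast_neg]
  ring

theorem qd_left (r : ℚ) (q : Q2) (x : V) : qd (r • q) x = r * qd q x := by
  simp only [qd, Prod.smul_fst, Prod.smul_snd, smul_eq_mul]
  ring

theorem qd_toQ (a x : V) : qd (toQ a) x = (dot a x : ℤ) := by
  simp only [qd, toQ, dot, Int.cast_add, Int.cast_mul]

theorem exists_den (q : Q2) : ∃ d : ℤ, 0 < d ∧ ∀ x, ∃ m : ℤ, (m : ℚ) = d * qd q x := by
  refine ⟨(q.1.den : ℤ) * (q.2.den : ℤ), by positivity, fun x => ?_⟩
  refine ⟨q.1.num * q.2.den * x.1 + q.2.num * q.1.den * x.2, ?_⟩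
  have h1 : (q.1.num : ℚ) = q.1 * q.1.den := (Rat.mul_den_eq_num q.1).symm
  have h2 : (q.2.num : ℚ) = q.2 * q.2.den := (Rat.mul_den_eq_num q.2).symm
  simp only [qd, Int.cast_add, Int.cast_mul, Int.cast_natCast]
  rw [h1, h2]
  ring

theorem exists_min {g : V → ℤ} {q : Q2} (hg : Near q g) (N : ℤ) (x : V) :
    ∃ z0 : V, ∀ z : V,
      (g (x + N • z0) : ℚ) + N * qd q z0 ≤ (g (x + N • z) : ℚ) + N * qd q z := by
  obtain ⟨C, hC⟩ := hg
  obtain ⟨d, hd, hm⟩ := exists_den q
  have hd' : (0 : ℚ) < d := by exact_mod_cast hd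
  have ex : ∀ z : V, ∃ m : ℤ, (m : ℚ) = d * ((g (x + N • z) : ℚ) + N * qd q z) := fun z => by
    obtain ⟨m, h⟩ := hm z
    refine ⟨d * g (x + N • z) + N * m, ?_⟩
    push_cast
    rw [h]
    ring
  obtain ⟨m, ⟨z0, h0⟩, hmin⟩ := Int.exists_least_of_bdd
    (P := fun m : ℤ => ∃ z : V, (m : ℚ) = d * ((g (x + N • z) : ℚ) + N * qd q z))
    ⟨⌊(d : ℚ) * (-C - qd q x)⌋, fun m ⟨z, hz⟩ => by
      have h1 := (abs_le.1 (hC (x + N • z))).1
      rw [qd_add, qd_smul] at h1
      have h2 : (d : ℚ) * (-C - qd q x) ≤ m := by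
        rw [hz]
        exact mul_le_mul_of_nonneg_left (by linarith) hd'.le
      exact_mod_cast (Int.floor_le _).trans h2⟩
    (by obtain ⟨m, h⟩ := ex 0; exact ⟨m, 0, h⟩)
  refine ⟨z0, fun z => ?_⟩
  obtain ⟨m', h'⟩ := ex z
  have h1 : (m : ℚ) ≤ m' := by exact_mod_cast hmin m' ⟨z, h'⟩
  rw [h0, h'] at h1
  exact le_of_mul_le_mul_left h1 hd'

theorem exists_w {g : V → ℤ} {q : Q2} (hg : Near q g) (N : ℤ) :
    ∃ w : V → ℚ, (∀ x z, w (x + N • z) = w x - N * qd q z) ∧
      ∀ x, ∃ z : V, ∀ y, w y - w x ≤ (g (y + N • z) : ℚ) - g (x + N • z) := by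
  choose z0 hz0 using exists_min hg N
  refine ⟨fun x => (g (x + N • z0 x) : ℚ) + N * qd q (z0 x), fun x z => ?_,
    fun x => ⟨z0 x, fun y => ?_⟩⟩
  · have h1 := hz0 x (z + z0 (x + N • z))
    have h2 := hz0 (x + N • z) (z0 x + -z)
    have e1 : x + N • (z + z0 (x + N • z)) = x + N • z + N • z0 (x + N • z) := by
      rw [smul_add, add_assoc]
    have e2 : x + N • z + N • (z0 x + -z) = x + N • z0 x := by
      rw [smul_add, smul_neg]
      abel
    rw [e1, qd_add] at h1
    rw [e2, qd_add, qd_neg] at h2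
    linarith
  · have h1 := hz0 y (z0 x)
    linarith

theorem disp_cons (i : Fin 4) (l : List (Fin 4)) : disp (i :: l) = e i + disp l := by
  simp only [disp, List.map_cons, List.sum_cons]

theorem n1_e (i : Fin 4) : n1 (e i) = 1 := by
  fin_cases i <;> simp [n1, e]

theorem n1_add (x y : V) : n1 (x + y) ≤ n1 x + n1 y := by
  have h1 := abs_add_le x.1 y.1
  have h2 := abs_add_le x.2 y.2
  simp only [n1, Prod.fst_add, Prod.snd_add]
  linarith

theorem n1_disp (l : List (Fin 4)) : n1 (disp l) ≤ l.length := by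
  induction l with
  | nil => simp [disp, n1]
  | cons i l ih =>
    have h1 := n1_add (e i) (disp l)
    rw [disp_cons, List.length_cons]
    rw [n1_e] at h1
    push_cast
    linarith

theorem n1_neg (x : V) : n1 (-x) = n1 x := by
  simp only [n1, Prod.fst_neg, Prod.snd_neg, abs_neg]

theorem wwt_ge {w : V → ℚ} {k : V → Fin 4 → ℤ} (h : ∀ x i, w (x + e i) - w x ≤ k x i)
    (l : List (Fin 4)) : ∀ x, w (x + disp l) - w x ≤ (wwt k x l : ℤ) := by
  induction l with
  | nil => intro x; simp [disp, wwt]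
  | cons i l ih =>
    intro x
    have h1 := ih (x + e i)
    have h2 := h x i
    rw [disp_cons, ← add_assoc, wwt]
    push_cast
    linarith

theorem wwt_mul (D : ℤ) (k : V → Fin 4 → ℤ) (l : List (Fin 4)) :
    ∀ x, wwt (fun x i => -(D * k x i)) x l = -(D * wwt k x l) := by
  induction l with
  | nil => intro x; simp [wwt]
  | cons i l ih =>
    intro x
    rw [wwt, wwt, ih]
    ring

/-- the scalar product with a fixed vector as an additive map -/
def dotH (a : V) : V →+ ℤ where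
  toFun := dot a
  map_zero' := by simp [dot]
  map_add' := fun x y => by
    simp only [dot, Prod.fst_add, Prod.snd_add]
    ring

end Pool.Agent.Sand.Budget

namespace Pool.Agent.Sand

open Budget in
theorem budget_proof (hpot : pot_stmt) : budget_stmt := by
  intro c N q hc hp
  obtain ⟨g, hs, hg⟩ := hp
  obtain ⟨w, hw, hz⟩ := exists_w hg N
  have hper : ∀ (x z : V) (i : Fin 4),
      ⌈w (x + N • z + e i) - w (x + N • z)⌉ = ⌈w (x + e i) - w x⌉ := fun x z i => by
    rw [add_right_comm, hw, hw]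
    congr 1
    ring
  refine ⟨fun x i => ⌈w (x + e i) - w x⌉, ⟨hper, fun x => ?_⟩, fun q' D hD hcl hgr => ?_⟩
  · obtain ⟨z, h1⟩ := hz x
    have h2 := hs (x + N • z)
    rw [StAt, hc.per] at h2
    have h3 : ∑ i : Fin 4, ⌈w (x + e i) - w x⌉ ≤ lap g (x + N • z) := by
      refine Finset.sum_le_sum fun i _ => Int.ceil_le.2 ?_
      have h4 := h1 (x + e i)
      rw [add_right_comm] at h4
      push_cast
      exact h4
    linarith
  · obtain ⟨a, ha⟩ := hgr
    have hq : ∀ x, ((dot a x : ℤ) : ℚ) = D * qd q' x := fun x => by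
      rw [← qd_toQ, ← ha, qd_left]
    obtain ⟨B, hB1, hB2⟩ := hpot ℤ N (fun _ _ => True)
      (fun x i => -(D * ⌈w (x + e i) - w x⌉)) (dotH a) hc.pos (fun _ _ _ => Iff.rfl)
      (fun x z i => by rw [hper]) (fun x l z _ hl hd => by
        have h1 := wwt_ge (w := w) (k := fun x i => ⌈w (x + e i) - w x⌉)
          (fun x i => Int.le_ceil _) l x
        rw [hd, hw] at h1
        have h2 := hcl (-disp l) (by rw [n1_neg]; exact (n1_disp l).trans hl)
          (wwt (fun x i => ⌈w (x + e i) - w x⌉) x l) (by rw [qd_neg, hd, qd_smul]; linarith)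
        rw [qd_neg] at h2
        rw [wwt_mul]
        have hD' : (0 : ℚ) ≤ D := by exact_mod_cast hD.le
        have h3 := mul_le_mul_of_nonneg_left h2 hD'
        have h4 := hq (disp l)
        have h5 : ((-(D * wwt (fun x i => ⌈w (x + e i) - w x⌉) x l) : ℤ) : ℚ) ≤
            ((dot a (disp l) : ℤ) : ℚ) := by
          push_cast
          linarith
        exact_mod_cast h5)
    refine ⟨fun x => -B x, fun x z => ?_, fun x i => ?_⟩
    · have h1 := hq (N • z)
      rw [qd_smul] at h1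
      have h2 : B (x + N • z) = B x + dot a (N • z) := hB1 x z
      rw [qd_left]
      push_cast
      rw [h2]
      push_cast
      rw [h1]
      ring
    · have h1 := hB2 x i trivial
      linarith

end Pool.Agent.Sand
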