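import Pool.Agent.Lib.MP_215a10_lc.Dec.Stmts

/-! Cells of the arrangement of lines in the plane of slopes. -/

set_option autoImplicit false

namespace Pool.Agent.Sand.Cells

theorem ball_finite (M : ℤ) : {a : V | n1 a ≤ M}.Finite := by
  refine ((Set.finite_Icc (-M) M).prod (Set.finite_Icc (-M) M)).subset fun a ha => ?_
  simp only [n1, Set.mem_ofPred_eq] at ha
  have h1 := abs_nonneg a.1
  have h2 := abs_nonneg a.2
  exact ⟨abs_le.1 (by omega), abs_le.1 (by omega)⟩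

theorem qd_add_smul (q d : Q2) (t : ℚ) (a : V) : qd (q + t • d) a = qd q a + t * qd d a := by
  simp only [qd, Prod.fst_add, Prod.snd_add, Prod.smul_fst, Prod.smul_snd, smul_eq_mul]
  ring

theorem qd_neg (d : Q2) (a : V) : qd (-d) a = -qd d a := by
  simp only [qd, Prod.fst_neg, Prod.snd_neg]
  ring

theorem qd_rot (a b : V) : qd (toQ (rot a)) b = det a b := by
  simp only [qd, toQ, rot, det]
  push_cast
  ring

theorem n1_nonneg (a : V) : 0 ≤ n1 a := add_nonneg (abs_nonneg _) (abs_nonneg _)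

theorem abs_dot_le (a b : V) : |dot a b| ≤ n1 a * n1 b := by
  have h := abs_add_le (a.1 * b.1) (a.2 * b.2)
  rw [abs_mul, abs_mul] at h
  have := mul_nonneg (abs_nonneg a.1) (abs_nonneg b.2)
  have := mul_nonneg (abs_nonneg a.2) (abs_nonneg b.1)
  simp only [dot, n1]
  nlinarith

theorem n1_rot (a : V) : n1 (rot a) = n1 a := by
  simp only [n1, rot, abs_neg]
  ring

theorem dot_rot (a b : V) : dot (rot a) b = det a b := by
  simp only [dot, rot, det]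
  ring

theorem cl_trans {N : ℤ} {p q r : Q2} (h : Cl N p q) (h' : Cl N q r) : Cl N p r :=
  fun a ha b hb => h' a ha b (h a ha b hb)

theorem seg {N : ℤ} {p d : Q2} {u v : ℚ} (h : ∀ w, (u ≤ w ∧ w < v) ∨ (v < w ∧ w ≤ u) →
    ∀ a, n1 a ≤ N ^ 2 → IsZ (qd (p + w • d) a) → qd d a = 0) : Cl N (p + u • d) (p + v • d) := by
  intro a ha b hb
  by_contra hc
  rw [qd_add_smul] at hb hc
  push Not at hc
  have h0 : qd d a ≠ 0 := by
    intro e
    rw [e] at hb hc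
    linarith
  have e : qd p a + (b - qd p a) / qd d a * qd d a = b := by field_simp; ring
  refine h0 (h ((b - qd p a) / qd d a) ?_ a ha ⟨b, by rw [qd_add_smul, e]⟩)
  rcases lt_or_gt_of_ne h0 with k | k
  · exact Or.inr ⟨(lt_div_iff_of_neg k).2 (by linarith), (div_le_iff_of_neg k).2 (by linarith)⟩
  · exact Or.inl ⟨(le_div_iff₀ k).2 (by linarith), (div_lt_iff₀ k).2 (by linarith)⟩

/-- move in the direction `d` up to the first new line -/
theorem move {N : ℤ} (hN : 0 < N) (q d : Q2) (hd : d ≠ 0)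
    (h : ∀ a, n1 a ≤ N ^ 2 → IsZ (qd q a) → qd d a = 0) :
    ∃ t : ℚ, 0 ≤ t ∧ Cl N q (q + t • d) ∧
      ∃ a, n1 a ≤ N ^ 2 ∧ qd d a ≠ 0 ∧ IsZ (qd (q + t • d) a) := by
  have h1 : (1 : ℤ) ≤ N ^ 2 := by nlinarith
  have hne : {a : V | n1 a ≤ N ^ 2 ∧ 0 < qd d a}.Nonempty := by
    by_contra hc
    have k : ∀ a : V, n1 a ≤ 1 → qd d a ≤ 0 := fun a ha => by
      by_contra h2
      exact hc ⟨a, ha.trans h1, not_le.1 h2⟩
    have k1 := k (1, 0) (by simp [n1])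
    have k2 := k (-1, 0) (by simp [n1])
    have k3 := k (0, 1) (by simp [n1])
    have k4 := k (0, -1) (by simp [n1])
    simp only [qd] at k1 k2 k3 k4
    push_cast at k1 k2 k3 k4
    exact hd (Prod.ext (show d.1 = 0 by linarith) (show d.2 = 0 by linarith))
  obtain ⟨a0, ⟨h2, h3⟩, h4⟩ := Set.exists_min_image _
    (fun a => ((⌊qd q a⌋ : ℚ) + 1 - qd q a) / qd d a)
    ((ball_finite (N ^ 2)).subset fun a ha => ha.1) hne
  have h5 : 0 ≤ ((⌊qd q a0⌋ : ℚ) + 1 - qd q a0) / qd d a0 :=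
    div_nonneg (by linarith [Int.lt_floor_add_one (qd q a0)]) h3.le
  refine ⟨_, h5, fun a ha b hb => ?_, a0, h2, h3.ne', ⌊qd q a0⌋ + 1, ?_⟩
  · rw [qd_add_smul]
    by_cases c : 0 < qd d a
    · have h6 := (le_div_iff₀ c).1 (h4 a ⟨ha, c⟩)
      have h7 : qd q a < b := lt_of_le_of_ne hb fun e => c.ne' (h a ha ⟨b, e⟩)
      have h8 : ((⌊qd q a⌋ + 1 : ℤ) : ℚ) ≤ b := Int.cast_le.2 (Int.floor_lt.2 h7)
      push_cast at h8
      linarith
    · nlinarith [not_lt.1 c]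
  · rw [qd_add_smul, div_mul_cancel₀ _ h3.ne']
    push_cast
    ring

theorem move2 {N : ℤ} (hN : 0 < N) (q d : Q2) (ξ : V) (hd : d ≠ 0)
    (h : ∀ a, n1 a ≤ N ^ 2 → IsZ (qd q a) → qd d a = 0) :
    ∃ t : ℚ, qd q ξ ≤ qd (q + t • d) ξ ∧ Cl N q (q + t • d) ∧
      ∃ a, n1 a ≤ N ^ 2 ∧ qd d a ≠ 0 ∧ IsZ (qd (q + t • d) a) := by
  rcases le_total 0 (qd d ξ) with c | c
  · obtain ⟨t, h1, h2⟩ := move hN q d hd h
    exact ⟨t, by rw [qd_add_smul]; nlinarith, h2⟩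
  · obtain ⟨t, h1, h2, a, h3, h4, h5⟩ := move hN q (-d) (neg_ne_zero.2 hd)
      fun a ha hz => by rw [qd_neg, h a ha hz, neg_zero]
    rw [smul_neg, ← neg_smul] at h2 h5
    rw [qd_neg] at h4
    exact ⟨-t, by rw [qd_add_smul]; nlinarith, h2, a, h3, neg_ne_zero.1 h4, h5⟩

theorem vfind1 {N : ℤ} (hN : 0 < N) (q : Q2) (ξ a0 : V) (h0 : a0 ≠ 0) (h1 : n1 a0 ≤ N ^ 2)
    (h2 : IsZ (qd q a0)) : ∃ v, Special N v ∧ Cl N q v ∧ qd q ξ ≤ qd v ξ := by
  by_cases c : Special N q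
  · exact ⟨q, c, fun _ _ _ h => h, le_rfl⟩
  obtain ⟨t, k1, k2, a, k3, k4, k5⟩ := move2 hN q (toQ (rot a0)) ξ (by
    intro e
    simp only [toQ, rot, Prod.ext_iff, Prod.fst_zero, Prod.snd_zero, Int.cast_eq_zero,
      neg_eq_zero] at e
    exact h0 (Prod.ext e.2 e.1)) fun a ha hz => by
      rw [qd_rot]
      by_contra h3
      exact c ⟨a0, a, h1, ha, fun e => h3 (by rw [e, Int.cast_zero]), h2, hz⟩
  refine ⟨_, ⟨a0, a, h1, k3, fun e => k4 (by rw [qd_rot, e, Int.cast_zero]), ?_, k5⟩, k2, k1⟩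
  rw [qd_add_smul, qd_rot, show det a0 a0 = 0 by simp only [det]; ring]
  simpa using h2

theorem sort_set (T : Set ℚ) (hT : T.Finite) (h0 : 0 ∈ T) (h1 : 1 ∈ T)
    (h : ∀ t ∈ T, 0 ≤ t ∧ t ≤ 1) : ∃ (k : ℕ) (s : ℕ → ℚ), 0 < k ∧ s 0 = 0 ∧ s k = 1 ∧
      (∀ i j, i < j → j ≤ k → s i < s j) ∧ (∀ i ≤ k, s i ∈ T) ∧ ∀ t ∈ T, ∃ i ≤ k, s i = t := by
  have hc : 1 < hT.toFinset.card := Finset.one_lt_card.2
    ⟨0, hT.mem_toFinset.2 h0, 1, hT.mem_toFinset.2 h1, zero_ne_one⟩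
  obtain ⟨k, hk⟩ : ∃ k, hT.toFinset.card = k + 1 := ⟨hT.toFinset.card - 1, by omega⟩
  let f := hT.toFinset.orderEmbOfFin hk
  let s : ℕ → ℚ := fun i => if hi : i < k + 1 then f ⟨i, hi⟩ else 0
  have a1 : ∀ i j, i < j → j ≤ k → s i < s j := fun i j hij hj => by
    simp only [s, dif_pos (show i < k + 1 by omega), dif_pos (show j < k + 1 by omega)]
    exact f.strictMono hij
  have a2 : ∀ i ≤ k, s i ∈ T := fun i hi => by
    simp only [s, dif_pos (show i < k + 1 by omega)]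
    exact hT.mem_toFinset.1 (Finset.orderEmbOfFin_mem _ _ _)
  have a3 : ∀ t ∈ T, ∃ i ≤ k, s i = t := fun t ht => by
    have : t ∈ Set.range f := by
      rw [Finset.range_orderEmbOfFin]
      exact Finset.mem_coe.2 (hT.mem_toFinset.2 ht)
    obtain ⟨i, hi⟩ := this
    exact ⟨i.1, by omega, by simp only [s, dif_pos i.2]; exact hi⟩
  refine ⟨k, s, by omega, ?_, ?_, a1, a2, a3⟩
  · obtain ⟨i, hi, e⟩ := a3 0 h0
    rcases Nat.eq_zero_or_pos i with rfl | c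
    · exact e
    · exact absurd (a1 0 i c hi) (by rw [e]; exact not_lt.2 (h _ (a2 0 (Nat.zero_le k))).1)
  · obtain ⟨i, hi, e⟩ := a3 1 h1
    rcases hi.eq_or_lt with rfl | c
    · exact e
    · exact absurd (a1 i k c le_rfl) (by rw [e]; exact not_lt.2 (h _ (a2 k le_rfl)).2)

theorem cross_finite (N : ℤ) (p d : Q2) : {t : ℚ | (0 ≤ t ∧ t ≤ 1) ∧
    ∃ a, n1 a ≤ N ^ 2 ∧ qd d a ≠ 0 ∧ IsZ (qd (p + t • d) a)}.Finite := by
  refine ((ball_finite (N ^ 2)).biUnion fun a _ =>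
    (Set.finite_Icc ⌈qd p a - |qd d a|⌉ ⌊qd p a + |qd d a|⌋).image
      fun b : ℤ => ((b : ℚ) - qd p a) / qd d a).subset ?_
  rintro t ⟨⟨t0, t1⟩, a, ha, h0, b, hb⟩
  rw [qd_add_smul] at hb
  have h1 := le_abs_self (qd d a)
  have h2 := neg_abs_le (qd d a)
  have h3 := abs_nonneg (qd d a)
  refine Set.mem_biUnion ha ⟨b, ⟨Int.ceil_le.2 (by nlinarith), Int.le_floor.2 (by nlinarith)⟩, ?_⟩
  show ((b : ℚ) - qd p a) / qd d a = t
  rw [← hb]
  field_simp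
  ring

theorem cone1 {n : ℤ} {C : Set V} {η : ℝ × ℝ} {ν : V} (h1 : ∀ a ∈ C, n1 a ≤ n)
    (h2 : ∀ a ∈ C, 0 ≤ rd η a) (h3 : 0 < rd η ν) (σ : ℤ) (hσ : |σ| = 1)
    (h4 : ∃ a ∈ C, 0 < σ * det ν a) :
    ∃ η' : V, n1 η' ≤ n + 1 ∧ 0 < dot η' ν ∧ ∀ a ∈ C, 0 ≤ dot η' a := by
  obtain ⟨a0, ⟨k1, k2⟩, k3⟩ := Set.exists_min_image {a | a ∈ C ∧ 0 < σ * det ν a}
    (fun a => rd η a / ((σ * det ν a : ℤ) : ℝ))
    ((ball_finite n).subset fun a ha => h1 a ha.1) h4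
  have k4 : (0 : ℝ) < ((σ * det ν a0 : ℤ) : ℝ) := Int.cast_pos.2 k2
  refine ⟨(σ * a0.2, -(σ * a0.1)), ?_, ?_, fun a ha => ?_⟩
  · have := h1 a0 k1
    simp only [n1, abs_neg, abs_mul, hσ] at this ⊢
    omega
  · simp only [dot, det] at k2 ⊢
    linarith
  · have k5 : rd η a0 * ((σ * det ν a : ℤ) : ℝ) ≤ rd η a * ((σ * det ν a0 : ℤ) : ℝ) := by
      by_cases c : 0 < σ * det ν a
      · exact (div_le_div_iff₀ k4 (Int.cast_pos.2 c)).1 (k3 a ⟨ha, c⟩)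
      · have : ((σ * det ν a : ℤ) : ℝ) ≤ 0 := by exact_mod_cast not_lt.1 c
        nlinarith [h2 a0 k1, mul_nonneg (h2 a ha) k4.le]
    have k6 : rd η ν * ((dot (σ * a0.2, -(σ * a0.1)) a : ℤ) : ℝ) =
        rd η a * ((σ * det ν a0 : ℤ) : ℝ) - rd η a0 * ((σ * det ν a : ℤ) : ℝ) := by
      simp only [rd, dot, det]
      push_cast
      ring
    have k7 : (0 : ℝ) ≤ ((dot (σ * a0.2, -(σ * a0.1)) a : ℤ) : ℝ) :=
      nonneg_of_mul_nonneg_right (by rw [k6]; linarith) h3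
    exact_mod_cast k7

end Pool.Agent.Sand.Cells

namespace Pool.Agent.Sand

open Cells

theorem vfind_proof : vfind_stmt := by
  intro N q ξ hN
  by_cases c : ∃ a0, a0 ≠ 0 ∧ n1 a0 ≤ N ^ 2 ∧ IsZ (qd q a0)
  · obtain ⟨a0, h0, h1, h2⟩ := c
    exact vfind1 hN q ξ a0 h0 h1 h2
  obtain ⟨t, k1, k2, a, k3, k4, k5⟩ := move2 hN q (1, 0) ξ (by simp) fun a ha hz => by
    have : a = 0 := by
      by_contra h
      exact c ⟨a, h, ha, hz⟩
    simp [this, qd]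
  obtain ⟨v, h1, h2, h3⟩ := vfind1 hN _ ξ a (by rintro rfl; simp [qd] at k4) k3 k5
  exact ⟨v, h1, cl_trans k2 h2, k1.trans h3⟩

theorem spgrid_proof : spgrid_stmt := by
  rintro N p ⟨a, a', h1, h2, h3, ⟨b, hb⟩, b', hb'⟩
  have h4 : |det a a'| ≤ N ^ 4 := by
    have := abs_dot_le (rot a) a'
    rw [dot_rot, n1_rot] at this
    calc _ ≤ n1 a * n1 a' := this
      _ ≤ N ^ 2 * N ^ 2 := mul_le_mul h1 h2 (n1_nonneg _) (sq_nonneg _)
      _ = _ := by ring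
  have h5 : det a a' ∣ DD N := by
    rw [DD, Int.natAbs_dvd.symm, Int.natCast_dvd_natCast]
    refine Nat.dvd_factorial (Int.natAbs_pos.2 h3) ?_
    rw [Int.abs_eq_natAbs] at h4
    omega
  obtain ⟨k, hk⟩ := h5
  refine ⟨(k * (b * a'.2 - b' * a.2), k * (a.1 * b' - a'.1 * b)), ?_⟩
  simp only [qd] at hb hb'
  rw [hk]
  refine Prod.ext ?_ ?_ <;>
    simp only [toQ, det, Prod.smul_fst, Prod.smul_snd, smul_eq_mul] <;>
    push_cast <;> rw [← hb, ← hb'] <;> ring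

theorem smallt_proof : smallt_stmt := by
  intro N D r hD
  have hD' : (0 : ℚ) < D := Int.cast_pos.2 hD
  have hK : (0 : ℚ) ≤ ((|r| * N ^ 2 : ℤ) : ℚ) := by positivity
  refine ⟨1 / (D * (((|r| * N ^ 2 : ℤ) : ℚ) + 1)), by positivity, ?_⟩
  rintro p ζ t ⟨z, hz⟩ hζ t0 t1 a ha b hb
  by_contra hc
  push Not at hc
  have e1 : (D : ℚ) * qd p a = (dot z a : ℤ) := by
    simp only [toQ, Prod.ext_iff, Prod.smul_fst, Prod.smul_snd, smul_eq_mul] at hz
    simp only [qd, dot]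
    push_cast
    rw [← hz.1, ← hz.2]
    ring
  have e2 : qd (p - t • toQ ζ) a = qd p a - t * (dot ζ a : ℤ) := by
    simp only [qd, dot, toQ, Prod.fst_sub, Prod.snd_sub, Prod.smul_fst, Prod.smul_snd, smul_eq_mul]
    push_cast
    ring
  have h1 : D * b < dot z a := by
    have : ((D * b : ℤ) : ℚ) < (dot z a : ℤ) := by
      rw [← e1]
      push_cast
      exact mul_lt_mul_of_pos_left hc hD'
    exact_mod_cast this
  have h2 : ((D * b + 1 : ℤ) : ℚ) ≤ (dot z a : ℤ) := Int.cast_le.2 h1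
  have h3 : dot ζ a ≤ |r| * N ^ 2 := (le_abs_self _).trans ((abs_dot_le ζ a).trans
    (mul_le_mul (hζ.trans (le_abs_self r)) ha (n1_nonneg _) (abs_nonneg _)))
  have h4 : ((dot ζ a : ℤ) : ℚ) ≤ ((|r| * N ^ 2 : ℤ) : ℚ) := Int.cast_le.2 h3
  rw [le_div_iff₀ (by positivity)] at t1
  rw [e2] at hb
  rw [← e1] at h2
  generalize ((|r| * N ^ 2 : ℤ) : ℚ) = K at *
  push_cast at h2
  have h5 := mul_le_mul_of_nonneg_left hb hD'.le
  have h6 := mul_le_mul_of_nonneg_left h4 (mul_nonneg t0 hD'.le)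
  rcases t0.eq_or_lt with rfl | t2
  · linarith
  · nlinarith [mul_pos t2 hD']

theorem clmove_proof : clmove_stmt := by
  intro N q d h
  by_cases hd : ∃ a, n1 a ≤ N ^ 2 ∧ qd d a ≠ 0
  · obtain ⟨a0, h3, h4⟩ := Set.exists_min_image {a | n1 a ≤ N ^ 2 ∧ qd d a ≠ 0}
      (fun a => ((⌊qd q a⌋ : ℚ) + 1 - qd q a) / |qd d a|)
      ((ball_finite (N ^ 2)).subset fun a ha => ha.1) hd
    refine ⟨((⌊qd q a0⌋ : ℚ) + 1 - qd q a0) / |qd d a0|,
      div_pos (by linarith [Int.lt_floor_add_one (qd q a0)]) (abs_pos.2 h3.2),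
      fun t ht a ha b hb => ?_⟩
    rw [qd_add_smul]
    by_cases c : qd d a = 0
    · rwa [c, mul_zero, add_zero]
    · have h6 := (le_div_iff₀ (abs_pos.2 c)).1 (ht.trans (h4 a ⟨ha, c⟩))
      have h7 : qd q a < b := lt_of_le_of_ne hb fun e => c (h a ha ⟨b, e⟩)
      have h8 : ((⌊qd q a⌋ + 1 : ℤ) : ℚ) ≤ b := Int.cast_le.2 (Int.floor_lt.2 h7)
      have h9 := le_abs_self (t * qd d a)
      rw [abs_mul] at h9
      push_cast at h8
      linarith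
  · refine ⟨1, one_pos, fun t _ a ha b hb => ?_⟩
    have : qd d a = 0 := by
      by_contra c
      exact hd ⟨a, ha, c⟩
    rwa [qd_add_smul, this, mul_zero, add_zero]

theorem breaks_proof : breaks_stmt := by
  intro N p d
  obtain ⟨k, s, h1, h2, h3, h4, h5, h6⟩ := sort_set (insert 0 (insert 1 {t : ℚ | (0 ≤ t ∧ t ≤ 1) ∧
    ∃ a, n1 a ≤ N ^ 2 ∧ qd d a ≠ 0 ∧ IsZ (qd (p + t • d) a)}))
    (((cross_finite N p d).insert 1).insert 0) (Or.inl rfl) (Or.inr (Or.inl rfl)) (by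
      rintro t (rfl | rfl | h)
      exacts [⟨le_rfl, zero_le_one⟩, ⟨zero_le_one, le_rfl⟩, h.1])
  refine ⟨k, s, h1, h2, h3, fun i hi => h4 i _ (Nat.lt_succ_self i) hi, fun i i0 i1 => ?_,
    fun t t0 t1 h => h6 t (Or.inr (Or.inr ⟨⟨t0, t1⟩, h⟩)), fun i hi => ?_⟩
  · rcases h5 i i1.le with e | e | e
    · exact absurd (h4 0 i i0 i1.le) (by rw [h2, e]; exact lt_irrefl _)
    · exact absurd (h4 i k i1 le_rfl) (by rw [h3, e]; exact lt_irrefl _)
    · exact e.2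
  · have m : ∀ i j, i ≤ j → j ≤ k → s i ≤ s j := fun i j hij hj => by
      rcases hij.eq_or_lt with rfl | c
      exacts [le_rfl, (h4 i j c hj).le]
    have l := h4 i _ (Nat.lt_succ_self i) hi
    have key : ∀ w, s i < w → w < s (i + 1) → ∀ a, n1 a ≤ N ^ 2 → IsZ (qd (p + w • d) a) →
        qd d a = 0 := fun w w0 w1 a ha hz => by
      by_contra c
      have l0 := m 0 i (Nat.zero_le i) hi.le
      have l1 := m (i + 1) k hi le_rfl
      obtain ⟨j, hj, e⟩ := h6 w (Or.inr (Or.inr ⟨⟨by linarith, by linarith⟩, a, ha, c, hz⟩))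
      rcases le_or_gt j i with c2 | c2
      · linarith [m j i c2 hi.le]
      · linarith [m (i + 1) j c2 hj]
    constructor <;> refine seg fun w hw => key w ?_ ?_ <;> rcases hw with hw | hw <;>
      linarith [hw.1, hw.2]

theorem cone_proof : cone_stmt := by
  intro n C η ν hn h1 h2 h3
  by_cases c1 : ∃ a ∈ C, 0 < 1 * det ν a
  · exact cone1 h1 h2 h3 1 rfl c1
  by_cases c2 : ∃ a ∈ C, 0 < -1 * det ν a
  · exact cone1 h1 h2 h3 (-1) rfl c2
  push Not at c1 c2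
  obtain ⟨u, u1, u2⟩ : ∃ u : V, n1 u = 1 ∧ 0 < dot u ν := by
    by_contra hc
    push Not at hc
    have k1 := hc (1, 0) rfl
    have k2 := hc (-1, 0) rfl
    have k3 := hc (0, 1) rfl
    have k4 := hc (0, -1) rfl
    simp only [dot] at k1 k2 k3 k4
    simp [rd, show ν.1 = 0 by omega, show ν.2 = 0 by omega] at h3
  refine ⟨u, by omega, u2, fun a ha => ?_⟩
  have e : det ν a = 0 := by have := c1 a ha; have := c2 a ha; omega
  have k6 : rd η ν * ((dot u a : ℤ) : ℝ) = rd η a * ((dot u ν : ℤ) : ℝ) +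
      (η.1 * u.2 - η.2 * u.1) * ((det ν a : ℤ) : ℝ) := by
    simp only [rd, dot, det]
    push_cast
    ring
  have k7 : (0 : ℝ) ≤ ((dot u a : ℤ) : ℝ) := nonneg_of_mul_nonneg_right (by
    rw [k6, e, Int.cast_zero, mul_zero, add_zero]
    exact mul_nonneg (h2 a ha) (Int.cast_pos.2 u2).le) h3
  exact_mod_cast k7

end Pool.Agent.Sand
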