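import Pool.Agent.Lib.MP_215a10_lc.Dec.Check4

/-! The robustness certificate is recursively enumerable. -/

set_option autoImplicit false

namespace Pool.Agent.Sand.Check

open Dig Dg

abbrev IC := ℕ × V × Code ((V × V) × ℤ)
instance icP : Primcodable IC := inferInstance
noncomputable def decI (q : IC) : Item := ⟨q.1, q.2.1, fun s x => evF q.2.2 (s, x)⟩

lemma exists_decI {it : Item} (h : AM (fun w : V × V => it.G w.1 w.2)) : ∃ q, decI q = it := by
  obtain ⟨n, T, G⟩ := it
  obtain ⟨A, hA⟩ := exists_codeF h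
  exact ⟨(n, T, A), by simp only [decI, hA]⟩

section
variable {α : Type} [AddCommGroup α] [Dig α] [Primcodable α] [Dg α] {π π' : Type} [Primcodable π]
  [Primcodable π']

lemma UM.app2 {g : π → V → V → ℤ} (hg : UM (fun p (z : V × V) => g p z.1 z.2)) {r : π' → π}
    {u v : π' → α → V} (hr : PR r) (hu : UM u) (hv : UM v) :
    UM (fun p x => g (r p) (u p x) (v p x)) := hg.app hr (hu.pair hv)

lemma ua_item {Y L : π → List IC} {n : π → ℕ} {Ψ : π → α → Item → Prop} (hY : PR Y) (hL : PR L)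
    (hn : PR n) (h : UA (fun (w : π × IC) x => Ψ w.1 x (decI w.2))) :
    UA (fun p x => ∃ it, (it ∈ (Y p).map decI ∨ (it ∈ (L p).map decI ∧ it.st < n p)) ∧
      Ψ p x it) := by
  refine ((UA.exl (P := fun p q x => Ψ p x (decI q)) hY h).or
    (UA.exl (P := fun p q x => q.1 < n p ∧ Ψ p x (decI q)) hL
      ((ua_pp (by fun_prop)).and h))).of_iff fun p x => ?_
  simp only [List.mem_map]
  constructor
  · rintro (⟨q, h1, h2⟩ | ⟨q, h1, h2, h3⟩)
    exacts [⟨_, .inl ⟨q, h1, rfl⟩, h2⟩, ⟨_, .inr ⟨⟨q, h1, rfl⟩, h2⟩, h3⟩]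
  · rintro ⟨_, ⟨q, h1, rfl⟩ | ⟨⟨q, h1, rfl⟩, h2⟩, h3⟩
    exacts [.inl ⟨q, h1, h3⟩, .inr ⟨q, h1, h2, h3⟩]

lemma ua_mem {N : π → ℤ} {Y L : π → List IC} {n : π → ℕ} {T : π → V}
    {Φ : π → α → (V → ℤ) → Prop} (hY : PR Y) (hL : PR L) (hn : PR n) (hT : PR T)
    (h : UA (fun (w : π × IC) (u : ((α × V) × V) × ℤ) => Φ w.1 u.1.1.1
      (fun x => evF w.2.2.2 (u.1.1.2, x + N w.1 • u.1.2) + u.2))) :
    UA (fun p x => ∃ g1, Mem (N p) ((Y p).map decI) ((L p).map decI) (n p) (T p) g1 ∧
      Φ p x g1) := by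
  refine (ua_item (Ψ := fun p x it => (∃ j : ℤ, T p = j • it.T) ∧
    ∃ (s z : V) (a : ℤ), Φ p x (fun y => it.G s (y + N p • z) + a)) hY hL hn
    (UA.and (UA.ex (UA.eq (um_cv (by fun_prop)) (UM.smulc (a := fun w : π × IC => w.2.2.1)
      (um_am (by fun_prop)) (by fun_prop)))) (UA.ex (UA.ex (UA.ex h))))).of_iff fun p x => ?_
  constructor
  · rintro ⟨it, h1, h2, s, z, a, h3⟩
    exact ⟨_, ⟨it, h1, h2, s, z, a, fun _ => rfl⟩, h3⟩
  · rintro ⟨g1, ⟨it, h1, h2, s, z, a, h3⟩, h4⟩
    obtain rfl : g1 = _ := funext h3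
    exact ⟨it, h1, h2, s, z, a, h4⟩

end

lemma ua_just {π : Type} [Primcodable π] {c A : π → V → ℤ} {N : π → ℤ} (z : Prop) {l T : π → V}
    {Y L : π → List IC} {n : π → ℕ} {g : π → V → V → ℤ} (hc : UM c) (hA : UM A) (hN : PR N)
    (hl : PR l) (hT : PR T) (hY : PR Y) (hL : PR L) (hn : PR n)
    (hg : UM (fun p (z : V × V) => g p z.1 z.2)) :
    UA (fun p s => Just (c p) (N p) ⟨z, l p, A p, (Y p).map decI⟩ ((L p).map decI) (n p) (T p)
      (g p s)) := by
  unfold Just Stable StAt FinMod lap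
  simp only [exists_and_left]
  refine UA.and ?_ (UA.and ?_ (UA.or ?_ (UA.or
    (ua_mem hY hL hn hT (ua_mem (by fun_prop) (by fun_prop) (by fun_prop) (by fun_prop) ?_))
    (UA.or (ua_mem hY hL hn hT ?_) (UA.or (UA.and ?_ (UA.or (ua_mem hY hL hn hT ?_)
    (ua_item hY hL hn ?_))) (UA.all (ua_mem hY hL hn hT ?_)))))))
  all_goals
    try dsimp only [decI]
    repeat' first
      | exact um_am (by fun_prop)
      | exact ua_ap (by fun_prop)
      | with_reducible refine UA.and ?_ ?_
      | with_reducible refine UA.ne ?_ ?_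
      | with_reducible refine UA.ex ?_
      | with_reducible refine UA.imp ?_ ?_
      | with_reducible refine UA.all ?_
      | with_reducible refine UA.eq ?_ ?_
      | with_reducible refine UA.le ?_ ?_
      | with_reducible refine UA.lt ?_ ?_
      | with_reducible refine UM.add ?_ ?_
      | with_reducible refine UM.sub ?_ ?_
      | with_reducible refine UM.min ?_ ?_
      | with_reducible refine UM.abs ?_
      | with_reducible refine UM.n1 ?_
      | with_reducible refine UM.sum4 fun i => ?_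
      | with_reducible refine UM.smulc ?_ (by fun_prop)
      | with_reducible refine UM.csmul (by fun_prop) ?_
      | with_reducible refine UM.dot (by fun_prop) ?_
      | with_reducible exact um_cv (by fun_prop)
      | with_reducible refine hg.app2 (by fun_prop) ?_ ?_
      | with_reducible refine hc.app (by fun_prop) ?_
      | with_reducible refine hA.app (by fun_prop) ?_
      | with_reducible refine um_evF.app (by fun_prop) ?_
      | with_reducible refine UM.pair ?_ ?_

lemma re_good {π : Type} [Primcodable π] {c A : π → V → ℤ} {N : π → ℤ} (z : Prop) {l : π → V}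
    {Y L : π → List IC} (hc : UM c) (hA : UM A) (hN : PR N) (hl : PR l) (hY : PR Y) (hL : PR L) :
    RE (fun p => Good (c p) (N p) ⟨z, l p, A p, (Y p).map decI⟩ ((L p).map decI)) := by
  unfold Good
  simp only [List.forall_mem_map]
  refine RE.all hL (RE.and (re_true ?_) (RE.and (UA.re0 ?_) (UA.re0 ?_)))
  · exact fun w => um_evF.am w.2.2.2
  · exact UA.eq (UM.dot (a := fun w : π × IC => l w.1) (by fun_prop)
      (um_cv (a := fun w : π × IC => w.2.2.1) (by fun_prop))) (um_am (AM.const 0))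
  · refine UA.all (UA.lin (P := fun (w : π × IC) s => Just (c w.1) (N w.1)
      ⟨z, l w.1, A w.1, (Y w.1).map decI⟩ ((L w.1).map decI) w.2.1 w.2.2.1
      (fun x => evF w.2.2.2 (s, x))) ?_ str_snd)
    exact ua_just z (hc.par PR.id.fst) (hA.par PR.id.fst) (by fun_prop) (by fun_prop)
      (by fun_prop) (by fun_prop) (by fun_prop) (by fun_prop) (um_evF.par (by fun_prop))

def RB (c : V → ℤ) (N : ℤ) (L0 : List IC) : Prop :=
  Good c N ctx0 (L0.map decI) ∧
   ((∃ it ∈ L0, ∃ l s : V, l ≠ 0 ∧ dot l it.2.1 = 0 ∧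
       ∀ a : ℤ, FinMod it.2.1 (fun x => -a < evF it.2.2 (s, x) + dot l x)) ∨
    (∃ itA ∈ L0, ∃ (sA l : V) (Y L1 : List IC), itA.2.1 = 0 ∧ l ≠ 0 ∧ Y ≠ [] ∧
       (∀ it ∈ Y, it.2.1 = 0 ∧ ∃ it' ∈ L0, it'.2.1 = 0 ∧
          ∀ s x, evF it'.2.2 (s, x) = evF it.2.2 (s, x)) ∧
       Good c N ⟨False, l, fun x => evF itA.2.2 (sA, x), Y.map decI⟩ (L1.map decI) ∧
       ∀ it ∈ Y, ∀ s, ∃ it' ∈ L1, it'.2.1 = 0 ∧
          ∃ s', ∀ x, evF it.2.2 (s, x) - dot l x = evF it'.2.2 (s', x)))

lemma rcert_iff (c : V → ℤ) (N : ℤ) : (∃ L0, RB c N L0) ↔ RCert c N := by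
  constructor
  · rintro ⟨L0, h, H⟩
    refine ⟨_, h, ?_⟩
    rcases H with ⟨it, h1, l, s, h2⟩ | ⟨it, h1, sA, l, Y, L1, h2, h3, h4, h5, h6, h7⟩
    · exact .inl ⟨_, List.mem_map_of_mem h1, s, l, h2⟩
    · refine .inr ⟨_, List.mem_map_of_mem h1, sA, l, _, _, h2, h3, by simpa using h4, ?_, h6, ?_⟩
      · simp only [List.forall_mem_map]
        simp only [List.mem_map, exists_exists_and_eq_and]
        exact h5
      · simp only [List.forall_mem_map]
        simp only [List.mem_map, exists_exists_and_eq_and]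
        exact h7
  · rintro ⟨L0, h, H⟩
    obtain ⟨L0, rfl⟩ := map_lift decI L0 fun it hit => exists_decI (h it hit).1
    refine ⟨L0, h, ?_⟩
    rcases H with ⟨it, h1, s, l, h2⟩ | ⟨it, h1, sA, l, Y, L1, h2, h3, h4, h5, h6, h7⟩
    · obtain ⟨q, hq, rfl⟩ := List.mem_map.1 h1
      exact .inl ⟨q, hq, l, s, h2⟩
    · obtain ⟨q, hq, rfl⟩ := List.mem_map.1 h1
      obtain ⟨L1, rfl⟩ := map_lift decI L1 fun it hit => exists_decI (h6 it hit).1
      obtain ⟨Y, rfl⟩ := map_lift decI Y fun it hit => by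
        obtain ⟨-, it', h8, -, h9⟩ := h5 it hit
        exact exists_decI ((h it' h8).1.of_eq fun w => h9 _ _)
      simp only [List.forall_mem_map] at h5 h7
      simp only [List.mem_map, exists_exists_and_eq_and] at h5 h7
      exact .inr ⟨q, hq, sA, l, Y, L1, h2, h3, by simpa using h4, h5, h6, h7⟩

lemma re_RB {π : Type} [Primcodable π] {c : π → V → ℤ} {N : π → ℤ} {L : π → List IC}
    (hc : UM c) (hN : PR N) (hL : PR L) : RE (fun p => RB (c p) (N p) (L p)) := by
  unfold RB FinMod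
  refine RE.and (re_good True (l := fun _ => 0) (A := fun _ _ => 0) (Y := fun _ => []) hc
    (um_am (AM.const 0)) hN (PR.const _) (PR.const _) hL)
    (RE.or (RE.exl hL (RE.ex (UA.re0 ?_))) (RE.exl hL (RE.ex (RE.ex (RE.ex (RE.ex
      (RE.and (PP.re (by fun_prop)) (RE.and (PP.re (by fun_prop)) (RE.and (PP.re (by fun_prop))
      (RE.and (RE.all (by fun_prop) (RE.and (PP.re (by fun_prop)) (RE.exl (by fun_prop)
        (RE.and (PP.re (by fun_prop)) (UA.re0 ?_)))))
      (RE.and (re_good False (hc.par (by fun_prop)) ?_ (by fun_prop) (by fun_prop) (by fun_prop)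
        (by fun_prop)) (RE.all (by fun_prop) (UA.re0 (UA.all (UA.exl (by fun_prop) ?_)))))))))))))))
  all_goals
    repeat' first
      | exact um_am (by fun_prop)
      | exact ua_ap (by fun_prop)
      | with_reducible refine UA.and ?_ ?_
      | with_reducible refine UA.ne ?_ ?_
      | with_reducible refine UA.ex ?_
      | with_reducible refine UA.imp ?_ ?_
      | with_reducible refine UA.all ?_
      | with_reducible refine UA.eq ?_ ?_
      | with_reducible refine UA.le ?_ ?_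
      | with_reducible refine UA.lt ?_ ?_
      | with_reducible refine UM.add ?_ ?_
      | with_reducible refine UM.sub ?_ ?_
      | with_reducible refine UM.n1 ?_
      | with_reducible refine UM.smulc ?_ (by fun_prop)
      | with_reducible refine UM.dot (by fun_prop) ?_
      | with_reducible exact um_cv (by fun_prop)
      | with_reducible refine um_evF.app (by fun_prop) ?_
      | with_reducible refine UM.pair ?_ ?_

end Check

open Check in
theorem reR_proof : reR_stmt := by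
  refine RE.toREPred (RE.of_iff (RE.ex (P := fun (t : ℕ × ℕ × List ℕ) (L : List IC) =>
    RB (cT t) (NT t) L) ?_) fun t => rcert_iff _ _)
  exact re_RB (um_cT.par PR.id.fst) (pr_NT.comp PR.id.fst) PR.id.snd

end Pool.Agent.Sand
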