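import Pool.Agent.Lib.MP_215a10_lc.Dec.Check1

/-! Uniformly automatic families of predicates. -/

set_option autoImplicit false

namespace Pool.Agent.Sand.Check

open Dig

class Dg (α : Type) [AddCommGroup α] [Dig α] [Primcodable α] where
  D : List α
  nm_D : ∀ e ∈ D, nm e ≤ 1
  ex_D : ∀ y : α, ∃ x, ∃ e ∈ D, y = x + x + e
  un_D : ∀ x x' : α, ∀ e ∈ D, ∀ e' ∈ D, x + x + e = x' + x' + e' → x = x' ∧ e = e'
  pr_add : PR (fun w : α × α => w.1 + w.2)

open Dg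

instance : Dg ℤ where
  D := [0, 1]
  nm_D e he := by
    simp only [List.mem_cons, List.not_mem_nil, or_false] at he
    rcases he with rfl | rfl <;> simp [nm]
  ex_D y := ⟨y / 2, y % 2, by simp; omega, by omega⟩
  un_D x x' e he e' he' h := by
    simp only [List.mem_cons, List.not_mem_nil, or_false] at he he'
    omega
  pr_add := PR.zadd (by fun_prop) (by fun_prop)

instance {α β : Type} [AddCommGroup α] [Dig α] [Primcodable α] [Dg α]
    [AddCommGroup β] [Dig β] [Primcodable β] [Dg β] : Dg (α × β) where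
  D := (D : List α) ×ˢ (D : List β)
  nm_D e he := by
    obtain ⟨a, b⟩ := e
    replace he := List.pair_mem_product.1 he
    exact max_le (nm_D a he.1) (nm_D b he.2)
  ex_D y := by
    obtain ⟨x, e, he, h⟩ := ex_D y.1
    obtain ⟨x', e', he', h'⟩ := ex_D y.2
    exact ⟨(x, x'), (e, e'), List.pair_mem_product.2 ⟨he, he'⟩, Prod.ext h h'⟩
  un_D x x' e he e' he' h := by
    obtain ⟨a, b⟩ := e
    obtain ⟨a', b'⟩ := e'
    replace he := List.pair_mem_product.1 he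
    replace he' := List.pair_mem_product.1 he'
    have h1 := un_D x.1 x'.1 a he.1 a' he'.1 (congrArg Prod.fst h)
    have h2 := un_D x.2 x'.2 b he.2 b' he'.2 (congrArg Prod.snd h)
    exact ⟨Prod.ext h1.1 h2.1, Prod.ext h1.2 h2.2⟩
  pr_add := PR.pair
    (PR.comp (g := fun w : (α × β) × α × β => (w.1.1, w.2.1)) pr_add (by fun_prop))
    (PR.comp (g := fun w : (α × β) × α × β => (w.1.2, w.2.2)) pr_add (by fun_prop))

section
variable {α β γ : Type} [AddCommGroup α] [Dig α] [Primcodable α] [Dg α]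
  [AddCommGroup β] [Dig β] [Primcodable β] [Dg β] [AddCommGroup γ] [Dig γ] [Primcodable γ] [Dg γ]
  {σ σ' π π' κ : Type} [Primcodable σ] [Primcodable σ'] [Primcodable π] [Primcodable π']
  [Primcodable κ]

@[fun_prop] lemma PR.add {f g : π → α} (hf : PR f) (hg : PR g) : PR (fun a => f a + g a) :=
  PR.comp (f := fun w : α × α => w.1 + w.2) pr_add (hf.pair hg)

lemma mem_D {a : α} {b : β} : (a, b) ∈ (D : List (α × β)) ↔ a ∈ (D : List α) ∧ b ∈ (D : List β) :=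
  List.pair_mem_product

lemma mem_D' {w : α × β} : w ∈ (D : List (α × β)) ↔ w.1 ∈ (D : List α) ∧ w.2 ∈ (D : List β) :=
  mem_D

lemma nm_half {x e : α} (he : e ∈ (D : List α)) : 2 * nm x ≤ nm (x + x + e) + 1 := by
  have h1 := nm_add (x + x + e) (-e)
  rw [add_neg_cancel_right, nm_neg, nm_two] at h1
  have := nm_D e he
  omega

/-- the ball of radius one -/
noncomputable def BB (α : Type) [AddCommGroup α] [Dig α] : List α :=
  (fin_ball (α := α) 1).toFinset.toList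

omit [Primcodable α] [Dg α] in
lemma mem_BB {x : α} : x ∈ BB α ↔ nm x ≤ 1 := by simp [BB]

lemma dig_ind {P : α → Prop} (h0 : ∀ x, nm x ≤ 1 → P x)
    (h1 : ∀ x, ∀ e ∈ (D : List α), 1 < nm (x + x + e) → P x → P (x + x + e)) (y : α) : P y := by
  induction hn : nm y using Nat.strong_induction_on generalizing y with
  | _ n ih =>
    by_cases h : nm y ≤ 1
    · exact h0 y h
    obtain ⟨x, e, he, rfl⟩ := ex_D y
    have := nm_half (x := x) he
    exact h1 x e he (by omega) (ih _ (by omega) x rfl)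

/-- a sound, recursively enumerable transition relation with finite orbits -/
def NX (sem : σ → α → Prop) (nx : σ → α → σ → Prop) : Prop :=
  RE (fun w : σ × α × σ => nx w.1 w.2.1 w.2.2) ∧
  (∀ s e s', e ∈ (D : List α) → nx s e s' → ∀ x, sem s (x + x + e) ↔ sem s' x) ∧
  ∀ s, ∃ L : List σ, s ∈ L ∧ ∀ s ∈ L, ∀ e ∈ (D : List α), ∃ s' ∈ L, nx s e s'

lemma NX.not {sem : σ → α → Prop} {nx} (h : NX sem nx) : NX (fun s x => ¬ sem s x) nx :=
  ⟨h.1, fun s e s' he hn x => not_congr (h.2.1 s e s' he hn x), h.2.2⟩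

/-- structural maps -/
def Str (f : α → β) : Prop :=
  (∀ a b, f (a + b) = f a + f b) ∧ (∀ e ∈ (D : List α), f e ∈ (D : List β)) ∧ PR f

lemma NX.lin {sem : σ → β → Prop} {nx} (h : NX sem nx) {f : α → β} (hf : Str f) :
    NX (fun s x => sem s (f x)) (fun s e s' => nx s (f e) s') := by
  have := hf.2.2
  refine ⟨h.1.app3 (by fun_prop) (by fun_prop) (by fun_prop), fun s e s' he hn x => ?_, fun s => ?_⟩
  · beta_reduce; rw [hf.1, hf.1]; exact h.2.1 s _ s' (hf.2.1 e he) hn _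
  · obtain ⟨L, h1, h2⟩ := h.2.2 s
    exact ⟨L, h1, fun s hs e he => h2 s hs _ (hf.2.1 e he)⟩

lemma re_all {sem : σ → α × β → Prop} {nx} (h : NX sem nx) {pos : σ → α × β → Prop}
    (hp : RE (fun w : σ × α × β => pos w.1 w.2)) (h1 : ∀ s z, pos s z → sem s z)
    (h2 : ∀ s z, nm z ≤ 1 → sem s z → pos s z) :
    RE (fun w : σ × α => ∀ y, sem w.1 (w.2, y)) := by
  classical
  have key : RE (fun w : σ × α => ∃ W : List (σ × α), w ∈ W ∧ ∀ u ∈ W,
      (∀ e' ∈ (D : List β), ∃ v ∈ W, ∃ e ∈ (D : List α), u.2 = v.2 + v.2 + e ∧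
        nx u.1 (e, e') v.1) ∧ (u.2 ∈ BB α → ∀ b ∈ BB β, pos u.1 (u.2, b))) := by
    refine RE.ex (RE.and (PP.re (by fun_prop)) (RE.all (by fun_prop) (RE.and ?_ ?_)))
    · refine RE.all (by fun_prop) (RE.exl (by fun_prop) (RE.exl (by fun_prop) (RE.and ?_ ?_)))
      · exact PP.re (by fun_prop)
      · exact h.1.app3 (by fun_prop) (by fun_prop) (by fun_prop)
    · refine RE.imp (by fun_prop) (RE.all (by fun_prop) ?_)
      exact hp.app2 (by fun_prop) (by fun_prop)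
  refine key.of_iff fun w => ⟨?_, fun H => ?_⟩
  · rintro ⟨W, hw, hW⟩ y
    have : ∀ z : α × β, ∀ s, (s, z.1) ∈ W → sem s z := by
      refine dig_ind (fun z hz s hs => ?_) fun z e he hlt ih s hs => ?_
      · exact h1 _ _ ((hW _ hs).2 (mem_BB.2 (le_trans (le_max_left _ _) hz)) z.2
          (mem_BB.2 (le_trans (le_max_right _ _) hz)))
      · obtain ⟨v, hv, e1, he1, h3, h4⟩ := (hW _ hs).1 e.2 (mem_D'.1 he).2
        obtain ⟨h5, h6⟩ := un_D _ _ _ (mem_D'.1 he).1 _ he1 h3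
        subst h6
        exact (h.2.1 s e v.1 he h4 z).2 (ih v.1 (by rw [h5]; exact hv))
    exact this (w.2, y) w.1 hw
  · obtain ⟨L, hL, hc⟩ := h.2.2 w.1
    let X : List α := (fin_ball (α := α) (nm w.2 + 1)).toFinset.toList
    have hX : ∀ x, x ∈ X ↔ nm x ≤ nm w.2 + 1 := by simp [X]
    refine ⟨(L ×ˢ X).filter fun u => decide (∀ y, sem u.1 (u.2, y)), ?_, fun u hu => ?_⟩
    · simp only [List.mem_filter, decide_eq_true_eq]
      exact ⟨List.pair_mem_product.2 ⟨hL, (hX _).2 (by omega)⟩, H⟩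
    simp only [List.mem_filter, decide_eq_true_eq] at hu ⊢
    obtain ⟨hu, hs⟩ := hu
    obtain ⟨hu1, hu2⟩ := List.pair_mem_product.1 hu
    refine ⟨fun e' he' => ?_, fun hb b hb' =>
      h2 _ _ (max_le (mem_BB.1 hb) (mem_BB.1 hb')) (hs b)⟩
    obtain ⟨x, e, he, hx⟩ := ex_D u.2
    obtain ⟨s', hs', hn⟩ := hc u.1 hu1 (e, e') (mem_D.2 ⟨he, he'⟩)
    refine ⟨(s', x), ⟨List.pair_mem_product.2 ⟨hs', (hX _).2 ?_⟩, fun y => ?_⟩, e, he, hx, hn⟩
    · have := nm_half (x := x) he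
      have := (hX _).1 hu2
      rw [← hx] at *
      omega
    · refine (h.2.1 _ _ _ (mem_D.2 ⟨he, he'⟩) hn (x, y)).1 ?_
      have := hs (y + y + e')
      rw [hx] at this
      exact this

def UA0 (sem : σ → α → Prop) : Prop :=
  (∃ nx, NX sem nx) ∧ RE (fun w : σ × α => sem w.1 w.2) ∧ RE (fun w : σ × α => ¬ sem w.1 w.2)

lemma str_fst : Str (fun z : α × β => z.1) :=
  ⟨fun _ _ => rfl, fun _ he => (mem_D'.1 he).1, by fun_prop⟩
lemma str_snd : Str (fun z : α × β => z.2) :=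
  ⟨fun _ _ => rfl, fun _ he => (mem_D'.1 he).2, by fun_prop⟩
lemma Str.pair {f : α → β} {g : α → γ} (hf : Str f) (hg : Str g) : Str (fun x => (f x, g x)) :=
  ⟨fun a b => by beta_reduce; rw [hf.1, hg.1]; rfl, fun e he => mem_D.2 ⟨hf.2.1 e he, hg.2.1 e he⟩,
    hf.2.2.pair hg.2.2⟩
lemma Str.comp {f : β → γ} {g : α → β} (hf : Str f) (hg : Str g) : Str (fun x => f (g x)) :=
  ⟨fun a b => by beta_reduce; rw [hg.1, hf.1], fun e he => hf.2.1 _ (hg.2.1 e he), hf.2.2.comp hg.2.2⟩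

lemma re_of_base {sem : σ → α → Prop} {nx} (h : NX sem nx)
    (hp : RE (fun w : σ × α => w.2 ∈ BB α ∧ sem w.1 w.2)) : RE (fun w : σ × α => sem w.1 w.2) :=
  (re_all (β := ℤ) (h.lin str_fst) (pos := fun s z => z.1 ∈ BB α ∧ sem s z.1)
    (hp.comp (f := fun w : σ × α × ℤ => (w.1, w.2.1)) (by fun_prop)) (fun _ _ h => h.2)
    (fun _ _ hz h => ⟨mem_BB.2 (le_trans (le_max_left _ _) hz), h⟩)).of_iff (by simp)

/-- uniformly automatic family -/
def UA (P : π → α → Prop) : Prop :=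
  ∃ (σ : Type) (_ : Primcodable σ) (sem : σ → α → Prop) (g : π → σ), UA0 sem ∧ PR g ∧
    ∀ p x, P p x ↔ sem (g p) x

lemma UA0.ua {sem : σ → α → Prop} (h : UA0 sem) : UA sem :=
  ⟨σ, _, sem, fun s => s, h, PR.id, fun _ _ => Iff.rfl⟩

lemma UA.of_iff {P Q : π → α → Prop} (hP : UA P) (h : ∀ p x, P p x ↔ Q p x) : UA Q := by
  have : P = Q := funext fun p => funext fun x => propext (h p x)
  exact this ▸ hP

lemma UA.par {P : π → α → Prop} (hP : UA P) {r : π' → π} (hr : PR r) :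
    UA (fun p x => P (r p) x) := by
  obtain ⟨σ, _, sem, g, h, hg, e⟩ := hP
  exact ⟨σ, _, sem, fun p => g (r p), h, hg.comp hr, fun p x => e _ _⟩

lemma UA.re {P : π → α → Prop} (hP : UA P) {f : π → α} (hf : PR f) : RE (fun p => P p (f p)) := by
  obtain ⟨σ, _, sem, g, h, hg, e⟩ := hP
  exact (h.2.1.app2 hg hf).of_iff fun p => (e _ _).symm

lemma UA.re0 {P : π → Prop} (hP : UA (fun p (_ : ℤ) => P p)) : RE P := hP.re (PR.const 0)

lemma UA.not {P : π → α → Prop} (hP : UA P) : UA (fun p x => ¬ P p x) := by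
  obtain ⟨σ, _, sem, g, ⟨⟨nx, h⟩, h1, h2⟩, hg, e⟩ := hP
  exact ⟨σ, _, fun s x => ¬ sem s x, g, ⟨⟨nx, h.not⟩, h2, h1.of_iff (by simp)⟩, hg,
    fun p x => not_congr (e p x)⟩

lemma UA.lin {P : π → β → Prop} (hP : UA P) {f : α → β} (hf : Str f) :
    UA (fun p x => P p (f x)) := by
  obtain ⟨σ, _, sem, g, ⟨⟨nx, h⟩, h1, h2⟩, hg, e⟩ := hP
  have := hf.2.2
  exact ⟨σ, _, fun s x => sem s (f x), g, ⟨⟨_, h.lin hf⟩, h1.app2 (by fun_prop) (by fun_prop),
    RE.app2 (R := fun s x => ¬ sem s x) h2 (by fun_prop) (by fun_prop)⟩, hg, fun p x => e _ _⟩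

lemma UA.and {P Q : π → α → Prop} (hP : UA P) (hQ : UA Q) : UA (fun p x => P p x ∧ Q p x) := by
  obtain ⟨σ, _, sem, g, ⟨⟨nx, h⟩, h1, h2⟩, hg, e⟩ := hP
  obtain ⟨σ', _, sem', g', ⟨⟨nx', h'⟩, h1', h2'⟩, hg', e'⟩ := hQ
  refine ⟨σ × σ', inferInstance, fun s x => sem s.1 x ∧ sem' s.2 x, fun p => (g p, g' p),
    ⟨⟨fun s e s' => nx s.1 e s'.1 ∧ nx' s.2 e s'.2, ?_, ?_, ?_⟩, ?_, ?_⟩, hg.pair hg',
    fun p x => and_congr (e p x) (e' p x)⟩
  · exact (h.1.app3 (by fun_prop) (by fun_prop) (by fun_prop)).and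
      (h'.1.app3 (by fun_prop) (by fun_prop) (by fun_prop))
  · exact fun s e s' he hn x => and_congr (h.2.1 _ _ _ he hn.1 x) (h'.2.1 _ _ _ he hn.2 x)
  · intro s
    obtain ⟨L, a1, a2⟩ := h.2.2 s.1
    obtain ⟨L', b1, b2⟩ := h'.2.2 s.2
    refine ⟨L ×ˢ L', List.pair_mem_product.2 ⟨a1, b1⟩, fun u hu e he => ?_⟩
    obtain ⟨u1, u2⟩ := List.pair_mem_product.1 hu
    obtain ⟨v, hv, c1⟩ := a2 _ u1 e he
    obtain ⟨v', hv', c2⟩ := b2 _ u2 e he
    exact ⟨(v, v'), List.pair_mem_product.2 ⟨hv, hv'⟩, c1, c2⟩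
  · exact (h1.app2 (by fun_prop) (by fun_prop)).and (h1'.app2 (by fun_prop) (by fun_prop))
  · exact ((RE.app2 (R := fun s x => ¬ sem s x) h2 (f := fun w : (σ × σ') × α => w.1.1)
      (g := fun w => w.2) (by fun_prop) (by fun_prop)).or
      (RE.app2 (R := fun s x => ¬ sem' s x) h2' (f := fun w : (σ × σ') × α => w.1.2)
      (g := fun w => w.2) (by fun_prop) (by fun_prop))).of_iff fun w => by tauto

lemma UA.exlex {P : π → κ → α → β → Prop} {l : π → List κ} (hl : PR l)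
    (hP : UA (fun (w : π × κ) (z : α × β) => P w.1 w.2 z.1 z.2)) :
    UA (fun p x => ∃ q ∈ l p, ∃ y, P p q x y) := by
  classical
  obtain ⟨σ, _, sem, g, ⟨⟨nx, h⟩, h1, h2⟩, hg, e⟩ := hP
  refine ⟨List σ, inferInstance, fun L x => ∃ s ∈ L, ∃ y, sem s (x, y),
    fun p => (l p).map fun q => g (p, q),
    ⟨⟨fun L e L' => (∀ s ∈ L, ∀ e' ∈ (D : List β), ∃ s' ∈ L', nx s (e, e') s') ∧
      ∀ s' ∈ L', ∃ s ∈ L, ∃ e' ∈ (D : List β), nx s (e, e') s', ?_, ?_, ?_⟩, ?_, ?_⟩,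
    PR.map hl (by fun_prop), fun p x => ?_⟩
  · refine RE.and (RE.all (by fun_prop) (RE.all (by fun_prop) (RE.exl (by fun_prop) ?_)))
      (RE.all (by fun_prop) (RE.exl (by fun_prop) (RE.exl (by fun_prop) ?_))) <;>
    exact h.1.app3 (by fun_prop) (by fun_prop) (by fun_prop)
  · rintro L e L' he ⟨a1, a2⟩ x
    constructor
    · rintro ⟨s, hs, y, hy⟩
      obtain ⟨y', e', he', rfl⟩ := ex_D y
      obtain ⟨s', hs', hn⟩ := a1 s hs e' he'
      exact ⟨s', hs', y', (h.2.1 _ _ _ (mem_D.2 ⟨he, he'⟩) hn (x, y')).1 hy⟩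
    · rintro ⟨s', hs', y, hy⟩
      obtain ⟨s, hs, e', he', hn⟩ := a2 s' hs'
      exact ⟨s, hs, y + y + e', (h.2.1 _ _ _ (mem_D.2 ⟨he, he'⟩) hn (x, y)).2 hy⟩
  · intro L
    choose M hM hc using h.2.2
    have key : ∀ L1 : List σ, (∀ s ∈ L1, s ∈ L.flatMap M) → ∀ e ∈ (D : List α),
        ∃ L' ∈ L :: (L.flatMap M).sublists,
          (∀ s ∈ L1, ∀ e' ∈ (D : List β), ∃ s' ∈ L', nx s (e, e') s') ∧
          ∀ s' ∈ L', ∃ s ∈ L1, ∃ e' ∈ (D : List β), nx s (e, e') s' := by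
      intro L1 hL1 e he
      refine ⟨(L.flatMap M).filter fun s' =>
        decide (∃ s ∈ L1, ∃ e' ∈ (D : List β), nx s (e, e') s'),
        List.mem_cons_of_mem _ (List.mem_sublists.2 List.filter_sublist), fun s hs e' he' => ?_,
        fun s' hs' => by simpa using (List.mem_filter.1 hs').2⟩
      obtain ⟨t, ht, hst⟩ := List.mem_flatMap.1 (hL1 s hs)
      obtain ⟨s', hs', hn⟩ := hc t s hst (e, e') (mem_D.2 ⟨he, he'⟩)
      exact ⟨s', List.mem_filter.2 ⟨List.mem_flatMap.2 ⟨t, ht, hs'⟩,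
        decide_eq_true ⟨s, hs, e', he', hn⟩⟩, hn⟩
    refine ⟨L :: (L.flatMap M).sublists, by simp, fun L1 hL1 => key L1 fun s hs => ?_⟩
    rcases List.mem_cons.1 hL1 with rfl | hL1
    · exact List.mem_flatMap.2 ⟨s, hs, hM s⟩
    · exact (List.mem_sublists.1 hL1).subset hs
  · refine RE.exl (by fun_prop) (RE.ex ?_)
    exact h1.app2 (by fun_prop) (by fun_prop)
  · have h3 := re_all h.not (pos := fun s z => ¬ sem s z) h2 (fun _ _ h => h) fun _ _ _ h => h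
    refine (RE.all (l := fun w : List σ × α => w.1) (P := fun w s => ∀ y, ¬ sem s (w.2, y))
      (by fun_prop) (RE.app2 (R := fun s x => ∀ y, ¬ sem s (x, y)) h3 (by fun_prop)
        (by fun_prop))).of_iff (by simp)
  · simp only [List.mem_map, exists_exists_and_eq_and]
    exact exists_congr fun q => and_congr_right fun _ => exists_congr fun y => e (p, q) (x, y)

lemma UA.ex {P : π → α → β → Prop} (hP : UA (fun p (z : α × β) => P p z.1 z.2)) :
    UA (fun p x => ∃ y, P p x y) :=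
  (UA.exlex (κ := ℕ) (P := fun p _ x y => P p x y) (PR.const [0])
    (hP.par (r := fun w : π × ℕ => w.1) (by fun_prop))).of_iff (by simp)

lemma UA.exl {P : π → κ → α → Prop} {l : π → List κ} (hl : PR l)
    (hP : UA (fun (w : π × κ) x => P w.1 w.2 x)) : UA (fun p x => ∃ q ∈ l p, P p q x) :=
  (UA.exlex (β := ℤ) (P := fun p q x _ => P p q x) hl (hP.lin str_fst)).of_iff (by simp)

lemma UA.all {P : π → α → β → Prop} (hP : UA (fun p (z : α × β) => P p z.1 z.2)) :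
    UA (fun p x => ∀ y, P p x y) :=
  (UA.ex (P := fun p x y => ¬ P p x y) hP.not).not.of_iff (by simp)

lemma UA.or {P Q : π → α → Prop} (hP : UA P) (hQ : UA Q) : UA (fun p x => P p x ∨ Q p x) :=
  (hP.not.and hQ.not).not.of_iff fun p x => by tauto

lemma UA.imp {P Q : π → α → Prop} (hP : UA P) (hQ : UA Q) : UA (fun p x => P p x → Q p x) :=
  (hP.and hQ.not).not.of_iff fun p x => by tauto

/-- members of a uniformly automatic family are automatic -/
lemma UA.ap {P : π → α → Prop} (hP : UA P) (p : π) : AP (P p) := by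
  obtain ⟨σ, _, sem, g, ⟨⟨nx, h⟩, -, -⟩, -, e⟩ := hP
  obtain ⟨L, hL, hc⟩ := h.2.2 (g p)
  intro C
  have key : ∀ (k : ℕ) (a : α), nm a ≤ C * 2 ^ k + 1 → ∀ s ∈ L, ∃ s' ∈ L, ∃ a', nm a' ≤ C + 1 ∧
      ∀ x, sem s ((2 ^ k : ℤ) • x + a) ↔ sem s' (x + a') := by
    intro k
    induction k with
    | zero => intro a ha s hs; exact ⟨s, hs, a, by simpa using ha, by simp⟩
    | succ k ih =>
      intro a ha s hs
      obtain ⟨a1, d, hd, rfl⟩ := ex_D a
      obtain ⟨s1, hs1, hn⟩ := hc s hs d hd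
      have h1 := nm_half (x := a1) hd
      obtain ⟨s', hs', a', ha', h2⟩ := ih a1 (by rw [pow_succ, ← mul_assoc] at ha; omega) s1 hs1
      refine ⟨s', hs', a', ha', fun x => ?_⟩
      rw [← h2, ← h.2.1 _ _ _ hd hn, pow_succ, mul_comm, mul_smul, two_smul]
      exact iff_of_eq (congrArg _ (by abel))
  refine ((L.finite_toSet.prod (fin_ball (α := α) (C + 1))).image
    (fun w x => sem w.1 (x + w.2))).subset ?_
  rintro Q ⟨k, a, ha, rfl⟩
  obtain ⟨s', hs', a', ha', h2⟩ := key k a (by omega) _ hL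
  exact ⟨(s', a'), ⟨hs', ha'⟩, funext fun x => propext (by rw [e, h2])⟩

/-- the linear atom -/
lemma ua_lin : UA (fun (p : ℤ × ℤ) (z : ℤ × ℤ) => p.1 * z.1 + p.2 ≤ z.2) := by
  refine UA0.ua ⟨⟨fun s e s' => s'.1 = s.1 ∧ (s'.2 + s'.2 + e.2 = s.1 * e.1 + s.2 ∨
    s'.2 + s'.2 + e.2 = s.1 * e.1 + s.2 + 1), PP.re (by fun_prop), ?_, fun s => ?_⟩,
    PP.re (by fun_prop), PP.re (by fun_prop)⟩
  · rintro ⟨a, k⟩ ⟨e, e'⟩ ⟨a', k'⟩ - ⟨rfl, h⟩ ⟨x, y⟩
    simp only [Prod.fst_add, Prod.snd_add, mul_add] at h ⊢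
    omega
  · refine ⟨((Finset.Icc (-(|s.1| + |s.2| + 1)) (|s.1| + |s.2| + 1)).toList).map
      fun k => (s.1, k), ?_, ?_⟩
    · simp only [List.mem_map, Finset.mem_toList, Finset.mem_Icc]
      refine ⟨s.2, ⟨?_, ?_⟩, rfl⟩ <;> cases abs_cases s.1 <;> cases abs_cases s.2 <;> omega
    · simp only [List.mem_map, Finset.mem_toList, Finset.mem_Icc]
      rintro _ ⟨k, hk, rfl⟩ e he
      obtain ⟨h1, h2⟩ := mem_D'.1 he
      have h1 : e.1 = 0 ∨ e.1 = 1 := by simpa [D] using h1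
      have h2 : e.2 = 0 ∨ e.2 = 1 := by simpa [D] using h2
      refine ⟨(s.1, (s.1 * e.1 + k - e.2 + 1) / 2), ⟨_, ?_, rfl⟩, rfl, ?_⟩
      · rcases h1 with h1 | h1 <;> rw [h1] <;> cases abs_cases s.1 <;> cases abs_cases s.2 <;>
          omega
      · simp only
        omega

end

end Pool.Agent.Sand.Check
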