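import Pool.Agent.Lib.MP_215a10_lc.Dec.Check2

/-! Codes of automatic predicates and maps, uniformly automatic maps. -/

set_option autoImplicit false

namespace Pool.Agent.Sand.Check

open Dig Dg

abbrev Code (α : Type) := List ℕ × List (ℕ × α × ℕ) × List (ℕ × α)

instance codeP (α : Type) [Primcodable α] : Primcodable (Code α) := inferInstance

section
variable {α β γ : Type} [AddCommGroup α] [Dig α] [Primcodable α] [Dg α]
  [AddCommGroup β] [Dig β] [Primcodable β] [Dg β] [AddCommGroup γ] [Dig γ] [Primcodable γ] [Dg γ]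
  {π π' κ : Type} [Primcodable π] [Primcodable π'] [Primcodable κ]

def Cons (A : Code α) : Prop :=
  (∀ s ∈ A.1, ∀ e ∈ (D : List α), ∃ s' ∈ A.1, (s, e, s') ∈ A.2.1) ∧
  (∀ t ∈ A.2.1, ∀ t' ∈ A.2.1, t.1 = t'.1 → t.2.1 = t'.2.1 → t.2.2 = t'.2.2) ∧
  ∀ t ∈ A.2.1, ∀ b ∈ BB α, b + b + t.2.1 ∈ BB α →
    ((t.1, b + b + t.2.1) ∈ A.2.2 ↔ (t.2.2, b) ∈ A.2.2)

lemma pp_cons : PP (fun A : Code α => Cons A) := by
  refine PP.and (PP.all (by fun_prop) (PP.all (by fun_prop) (PP.ex (by fun_prop) (by fun_prop))))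
    (PP.and (PP.all (by fun_prop) (PP.all (by fun_prop) (PP.imp (by fun_prop)
      (PP.imp (by fun_prop) (by fun_prop))))) ?_)
  exact PP.all (by fun_prop) (PP.all (by fun_prop) (PP.imp (by fun_prop) (by fun_prop)))

inductive Ev (A : Code α) : ℕ → α → Prop
  | base (s : ℕ) (y : α) : nm y ≤ 1 → (s, y) ∈ A.2.2 → Ev A s y
  | step (s s' : ℕ) (e x y : α) : e ∈ (D : List α) → y = x + x + e → 1 < nm y →
      (s, e, s') ∈ A.2.1 → Ev A s' x → Ev A s y

lemma ev_base {A : Code α} {s : ℕ} {y : α} (h : nm y ≤ 1) : Ev A s y ↔ (s, y) ∈ A.2.2 := by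
  refine ⟨fun H => ?_, Ev.base s y h⟩
  cases H with
  | base _ _ _ h2 => exact h2
  | step _ _ _ _ _ _ _ h2 => omega

lemma ev_law {A : Code α} (hA : Cons A) {s s' : ℕ} {e : α} (he : e ∈ (D : List α))
    (ht : (s, e, s') ∈ A.2.1) (x : α) : Ev A s (x + x + e) ↔ Ev A s' x := by
  by_cases h : nm (x + x + e) ≤ 1
  · have h1 : nm x ≤ 1 := by have := nm_half (x := x) he; omega
    rw [ev_base h, ev_base h1]
    exact hA.2.2 _ ht x (mem_BB.2 h1) (mem_BB.2 h)
  · refine ⟨fun H => ?_, Ev.step s s' e x _ he rfl (by omega) ht⟩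
    generalize hy : x + x + e = y at H h
    cases H with
    | base _ _ h1 => omega
    | step _ s1 e1 x1 _ h1 h2 _ h4 h5 =>
      obtain ⟨rfl, rfl⟩ := un_D _ _ _ he _ h1 (hy.trans h2)
      obtain rfl : s' = s1 := hA.2.1 _ ht _ h4 rfl rfl
      exact h5

def semS (w : Code α × ℕ) (x : α) : Prop := (Cons w.1 ∧ w.2 ∈ w.1.1) ∧ Ev w.1 w.2 x

lemma ua0_semS : UA0 (semS (α := α)) := by
  have hc : PP (fun w : Code α × ℕ => Cons w.1 ∧ w.2 ∈ w.1.1) :=
    PP.and (pp_cons.comp (by fun_prop)) (by fun_prop)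
  have hn : NX (semS (α := α)) fun w e w' => (¬ (Cons w.1 ∧ w.2 ∈ w.1.1) ∧ w' = w) ∨
      ((Cons w.1 ∧ w.2 ∈ w.1.1) ∧ w'.1 = w.1 ∧ w'.2 ∈ w.1.1 ∧ (w.2, e, w'.2) ∈ w.1.2.1) := by
    refine ⟨PP.re (PP.or (PP.and (PP.not (hc.comp PR.id.fst)) (by fun_prop))
      (PP.and (hc.comp PR.id.fst) (by fun_prop))), ?_, fun w => ?_⟩
    · rintro ⟨A, s⟩ e ⟨A', s'⟩ he (⟨h1, h2⟩ | ⟨h1, rfl, h3, h4⟩) x
      · rw [h2]; exact iff_of_false (fun h => h1 h.1) fun h => h1 h.1
      · exact and_congr (iff_of_true h1 ⟨h1.1, h3⟩) (ev_law h1.1 he h4 x)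
    · refine ⟨w :: w.1.1.map fun s => (w.1, s), by simp, fun u hu e he => ?_⟩
      by_cases h : Cons u.1 ∧ u.2 ∈ u.1.1
      · obtain ⟨s', h1, h2⟩ := h.1.1 _ h.2 e he
        have h3 : u.1 = w.1 := by
          rcases List.mem_cons.1 hu with rfl | hu
          · rfl
          · obtain ⟨_, -, rfl⟩ := List.mem_map.1 hu; rfl
        exact ⟨(u.1, s'), List.mem_cons_of_mem _ (List.mem_map.2 ⟨s', h3 ▸ h1, by rw [h3]⟩),
          .inr ⟨h, rfl, h1, h2⟩⟩
      · exact ⟨u, hu, .inl ⟨h, rfl⟩⟩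
  have hb : PP (fun w : (Code α × ℕ) × α =>
      (Cons w.1.1 ∧ w.1.2 ∈ w.1.1.1) ∧ (w.1.2, w.2) ∈ w.1.1.2.2) :=
    PP.and (hc.comp PR.id.fst) (by fun_prop)
  have hm : PP (fun w : (Code α × ℕ) × α => w.2 ∈ BB α) := by fun_prop
  refine ⟨⟨_, hn⟩, re_of_base hn ((hm.and hb).re.of_iff fun w => ?_),
    re_of_base hn.not ((hm.and hb.not).re.of_iff fun w => ?_)⟩
  · exact and_congr_right fun h => and_congr_right fun _ => (ev_base (mem_BB.1 h)).symm
  · exact and_congr_right fun h => not_congr (and_congr_right fun _ => (ev_base (mem_BB.1 h)).symm)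

/-- the predicate with code `A` -/
def semC (A : Code α) (x : α) : Prop := semS (A, 0) x

lemma ua_semC : UA (semC (α := α)) :=
  ua0_semS.ua.par (r := fun A : Code α => (A, 0)) (by fun_prop)

lemma exists_code {P : α → Prop} (hP : AP P) : ∃ A : Code α, semC A = P := by
  classical
  let Lq : List (α → Prop) := P :: (hP 1).toFinset.toList
  have hK : ∀ Q, Q ∈ Lq ↔ Q ∈ Ker P 1 := by
    intro Q
    simp only [Lq, List.mem_cons, Finset.mem_toList, Set.Finite.mem_toFinset]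
    refine ⟨?_, .inr⟩
    rintro (rfl | h)
    · exact ⟨0, 0, by simp [nm_zero], by simp⟩
    · exact h
  have hstep : ∀ i < Lq.length, ∀ e ∈ (D : List α), ∃ j < Lq.length,
      ∀ x, Lq.getD i P (x + x + e) ↔ Lq.getD j P x := by
    intro i hi e he
    obtain ⟨k, a, ha, hq⟩ := (hK _).1 (List.getElem_mem hi)
    have : (fun x => P ((2 ^ (k + 1) : ℤ) • x + ((2 ^ k : ℤ) • e + a))) ∈ Lq := by
      refine (hK _).2 ⟨k + 1, _, ?_, rfl⟩
      have h1 := nm_add ((2 ^ k : ℤ) • e) a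
      have h2 := Nat.mul_le_mul_left (2 ^ k) (nm_D e he)
      rw [nm_pow] at h1
      rw [pow_succ]; omega
    obtain ⟨j, hj, h⟩ := List.getElem_of_mem this
    refine ⟨j, hj, fun x => ?_⟩
    rw [List.getD_eq_getElem _ _ hi, List.getD_eq_getElem _ _ hj, hq, h]
    refine iff_of_eq (congrArg P ?_)
    rw [pow_succ, mul_smul, two_smul, smul_add, add_assoc]
  choose! δ hδ h using hstep
  let A : Code α := (List.range Lq.length,
    (List.range Lq.length ×ˢ (D : List α)).map fun u => (u.1, u.2, δ u.1 u.2),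
    (List.range Lq.length ×ˢ BB α).filter fun u => decide (Lq.getD u.1 P u.2))
  have htr : ∀ t, t ∈ A.2.1 ↔ t.1 < Lq.length ∧ t.2.1 ∈ (D : List α) ∧ t.2.2 = δ t.1 t.2.1 := by
    rintro ⟨s, e, s'⟩
    simp only [A, List.mem_map, Prod.mk.injEq, Prod.exists]
    constructor
    · rintro ⟨a, b, h1, rfl, rfl, rfl⟩
      have := List.pair_mem_product.1 h1
      exact ⟨List.mem_range.1 this.1, this.2, rfl⟩
    · rintro ⟨h1, h2, rfl⟩
      exact ⟨s, e, List.pair_mem_product.2 ⟨List.mem_range.2 h1, h2⟩, rfl, rfl, rfl⟩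
  have hacc : ∀ s b, s < Lq.length → b ∈ BB α → ((s, b) ∈ A.2.2 ↔ Lq.getD s P b) := by
    intro s b h1 h2
    simp only [A, List.mem_filter, decide_eq_true_eq]
    exact and_iff_right (List.pair_mem_product.2 ⟨List.mem_range.2 h1, h2⟩)
  have hA : Cons A := by
    refine ⟨fun s hs e he => ⟨δ s e, List.mem_range.2 (hδ s (List.mem_range.1 hs) e he),
      (htr _).2 ⟨List.mem_range.1 hs, he, rfl⟩⟩, fun t ht t' ht' h1 h2 => ?_,
      fun t ht b hb hb' => ?_⟩
    · rw [((htr _).1 ht).2.2, ((htr _).1 ht').2.2, h1, h2]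
    · obtain ⟨h1, h2, h3⟩ := (htr _).1 ht
      rw [hacc _ _ h1 hb', h3, hacc _ _ (hδ _ h1 _ h2) hb]
      exact h _ h1 _ h2 b
  have key : ∀ x, ∀ i < Lq.length, Ev A i x ↔ Lq.getD i P x := by
    refine dig_ind (fun x hx i hi => ?_) fun x e he _ ih i hi => ?_
    · rw [ev_base hx, hacc _ _ hi (mem_BB.2 hx)]
    · rw [ev_law hA he ((htr (i, e, δ i e)).2 ⟨hi, he, rfl⟩), ih _ (hδ i hi e he), h i hi e he]
  have h0 : 0 < Lq.length := by simp [Lq]
  refine ⟨A, funext fun x => propext ?_⟩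
  exact (and_iff_right ⟨hA, List.mem_range.2 h0⟩).trans (key x 0 h0)

lemma ua_ap {P : α → Prop} (hP : AP P) : UA (fun (_ : π) x => P x) := by
  obtain ⟨A, rfl⟩ := exists_code hP
  exact ua_semC.par (PR.const A)

/-- uniformly automatic maps -/
def UM (f : π → α → β) : Prop := UA (fun p (z : α × β) => f p z.1 = z.2)

lemma um_am {f : α → β} (hf : AM f) : UM (fun (_ : π) x => f x) := ua_ap hf

lemma UM.am {f : π → α → β} (hf : UM f) (p : π) : AM (f p) := UA.ap hf p

lemma UM.of_eq {f g : π → α → β} (hf : UM f) (h : ∀ p x, f p x = g p x) : UM g := by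
  have : f = g := funext fun p => funext fun x => h p x
  exact this ▸ hf

lemma UA.app {P : π → β → Prop} (hP : UA P) {r : π' → π} {f : π' → α → β} (hr : PR r)
    (hf : UM f) : UA (fun p x => P (r p) (f p x)) :=
  (UA.ex (P := fun p x y => f p x = y ∧ P (r p) y)
    (UA.and hf ((hP.par hr).lin str_snd))).of_iff (by simp)

lemma UM.pair {f : π → α → β} {g : π → α → γ} (hf : UM f) (hg : UM g) :
    UM (fun p x => (f p x, g p x)) :=
  (UA.and (UA.lin hf (str_fst.pair (str_fst.comp str_snd)))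
    (UA.lin hg (str_fst.pair (str_snd.comp str_snd)))).of_iff (by simp [Prod.ext_iff])

lemma UM.app {g : π → β → γ} (hg : UM g) {r : π' → π} {f : π' → α → β} (hr : PR r)
    (hf : UM f) : UM (fun p x => g (r p) (f p x)) := by
  have h1 : UM (fun p (z : α × γ) => f p z.1) :=
    UA.lin hf ((str_fst.comp str_fst).pair str_snd)
  exact UA.app (P := fun p (z : β × γ) => g p z.1 = z.2) hg hr
    (h1.pair (um_am (f := fun z : α × γ => z.2) (by fun_prop)))

lemma ua_comp {P : β → Prop} (hP : AP P) {f : π → α → β} (hf : UM f) :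
    UA (fun p x => P (f p x)) := (ua_ap (π := π) hP).app PR.id hf

lemma um_comp {g : β → γ} (hg : AM g) {f : π → α → β} (hf : UM f) :
    UM (fun p x => g (f p x)) := (um_am (π := π) hg).app PR.id hf

lemma UA.eq {f g : π → α → β} (hf : UM f) (hg : UM g) : UA (fun p x => f p x = g p x) :=
  ua_comp (P := fun z : β × β => z.1 = z.2) (by fun_prop) (hf.pair hg)
lemma UA.ne {f g : π → α → β} (hf : UM f) (hg : UM g) : UA (fun p x => f p x ≠ g p x) :=
  (UA.eq hf hg).not
lemma UA.le {f g : π → α → ℤ} (hf : UM f) (hg : UM g) : UA (fun p x => f p x ≤ g p x) :=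
  ua_comp (P := fun z : ℤ × ℤ => z.1 ≤ z.2) (by fun_prop) (hf.pair hg)
lemma UA.lt {f g : π → α → ℤ} (hf : UM f) (hg : UM g) : UA (fun p x => f p x < g p x) :=
  ua_comp (P := fun z : ℤ × ℤ => z.1 < z.2) (by fun_prop) (hf.pair hg)
lemma UM.add {f g : π → α → β} (hf : UM f) (hg : UM g) : UM (fun p x => f p x + g p x) :=
  um_comp (g := fun z : β × β => z.1 + z.2) (by fun_prop) (hf.pair hg)
lemma UM.sub {f g : π → α → β} (hf : UM f) (hg : UM g) : UM (fun p x => f p x - g p x) :=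
  um_comp (g := fun z : β × β => z.1 - z.2) (by fun_prop) (hf.pair hg)
lemma UM.min {f g : π → α → ℤ} (hf : UM f) (hg : UM g) : UM (fun p x => min (f p x) (g p x)) :=
  um_comp (g := fun z : ℤ × ℤ => Min.min z.1 z.2) (by fun_prop) (hf.pair hg)
lemma UM.abs {f : π → α → ℤ} (hf : UM f) : UM (fun p x => |f p x|) :=
  um_comp (g := fun z : ℤ => |z|) (by fun_prop) hf
lemma UM.fst {f : π → α → β × γ} (hf : UM f) : UM (fun p x => (f p x).1) :=
  um_comp (g := fun z : β × γ => z.1) (by fun_prop) hf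
lemma UM.snd {f : π → α → β × γ} (hf : UM f) : UM (fun p x => (f p x).2) :=
  um_comp (g := fun z : β × γ => z.2) (by fun_prop) hf

lemma um_aff : UM (fun (p : ℤ × ℤ) (x : ℤ) => p.1 * x + p.2) :=
  (ua_lin.and (ua_lin.par (r := fun p : ℤ × ℤ => (p.1, p.2 + 1)) (by fun_prop)).not).of_iff
    fun p x => by simp only; omega

lemma UM.mulc {a : π → ℤ} {f : π → α → ℤ} (ha : PR a) (hf : UM f) :
    UM (fun p x => a p * f p x) :=
  (um_aff.app (r := fun p => (a p, 0)) (by fun_prop) hf).of_eq (by simp)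

lemma um_cz {a : π → ℤ} (ha : PR a) : UM (fun p (_ : α) => a p) :=
  (UM.mulc ha (um_am (AM.const 1))).of_eq (by simp)

lemma um_cv {a : π → V} (ha : PR a) : UM (fun p (_ : α) => a p) :=
  (um_cz ha.fst).pair (um_cz ha.snd)

lemma UM.csmul {a : π → ℤ} {f : π → α → V} (ha : PR a) (hf : UM f) :
    UM (fun p x => a p • f p x) :=
  ((UM.mulc ha hf.fst).pair (UM.mulc ha hf.snd)).of_eq fun _ _ => rfl

lemma UM.smulc {a : π → V} {f : π → α → ℤ} (hf : UM f) (ha : PR a) :
    UM (fun p x => f p x • a p) :=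
  ((UM.mulc ha.fst hf).pair (UM.mulc ha.snd hf)).of_eq fun _ _ =>
    Prod.ext (mul_comm _ _) (mul_comm _ _)

lemma UM.dot {a : π → V} {f : π → α → V} (ha : PR a) (hf : UM f) :
    UM (fun p x => dot (a p) (f p x)) :=
  (UM.mulc ha.fst hf.fst).add (UM.mulc ha.snd hf.snd)

lemma UM.n1 {f : π → α → V} (hf : UM f) : UM (fun p x => n1 (f p x)) :=
  hf.fst.abs.add hf.snd.abs

lemma ua_pp {P : π → Prop} (hP : PP P) : UA (fun p (_ : α) => P p) := by
  classical
  exact (UA.eq (um_cz (PR.ite hP (PR.const 0) (PR.const 1))) (um_am (AM.const 0))).of_iff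
    (by simp)

lemma UM.ite {P : π → α → Prop} {_ : ∀ p x, Decidable (P p x)} {f g : π → α → β} (hP : UA P)
    (hf : UM f) (hg : UM g) : UM (fun p x => if P p x then f p x else g p x) :=
  (((hP.lin str_fst).and hf).or ((hP.lin str_fst).not.and hg)).of_iff fun p x => by
    by_cases h : P p x.1 <;> simp [h]

lemma UA.all4 {P : Fin 4 → π → α → Prop} (h : ∀ i, UA (P i)) : UA (fun p x => ∀ i, P i p x) :=
  ((h 0).and ((h 1).and ((h 2).and (h 3)))).of_iff (by simp [Fin.forall_fin_succ])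

lemma UM.sum4 {f : Fin 4 → π → α → ℤ} (h : ∀ i, UM (f i)) : UM (fun p x => ∑ i, f i p x) :=
  ((((h 0).add (h 1)).add (h 2)).add (h 3)).of_eq fun p x => by rw [Fin.sum_univ_four]

open Classical in
/-- the map with code `A` -/
noncomputable def evF (A : Code (α × β)) (x : α) : β :=
  if h : ∃ y, semC A (x, y) ∧ ∀ y', semC A (x, y') → y' = y then h.choose else 0

lemma um_evF : UM (evF (α := α) (β := β)) := by
  have h1 : UA (fun (A : Code (α × β)) (z : α × β) =>
      semC A (z.1, z.2) ∧ ∀ y', semC A (z.1, y') → y' = z.2) :=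
    ua_semC.and (UA.all (UA.imp (ua_semC.app PR.id (um_am (by fun_prop))) (ua_ap (by fun_prop))))
  have h2 := (UA.ex (P := fun A x y => semC A (x, y) ∧ ∀ y', semC A (x, y') → y' = y) h1).not
  refine (h1.or ((h2.lin str_fst).and (ua_ap (P := fun z : α × β => z.2 = 0)
    (by fun_prop)))).of_iff fun A z => ?_
  unfold evF
  split_ifs with h
  · constructor
    · rintro (h3 | h3)
      · exact h3.2 _ h.choose_spec.1
      · exact absurd h h3.1
    · intro h3; exact .inl (h3 ▸ h.choose_spec)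
  · constructor
    · rintro (h3 | h3)
      · exact absurd ⟨_, h3⟩ h
      · exact h3.2.symm
    · intro h3; exact .inr ⟨h, h3.symm⟩

lemma exists_codeF {f : α → β} (hf : AM f) : ∃ A : Code (α × β), evF A = f := by
  obtain ⟨A, hA⟩ := exists_code hf
  refine ⟨A, funext fun x => ?_⟩
  have h : ∃ y, semC A (x, y) ∧ ∀ y', semC A (x, y') → y' = y := by
    rw [hA]; exact ⟨f x, rfl, fun y' h => h.symm⟩
  rw [evF, dif_pos h]
  have := h.choose_spec.1
  exact (hA ▸ this : (fun z : α × β => f z.1 = z.2) (x, h.choose)).symm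

end

end Pool.Agent.Sand.Check
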