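import Pool.Agent.Lib.MP_215a10_lc.Dec.Check3

/-! The explosion certificate is recursively enumerable. -/

set_option autoImplicit false

namespace Pool.Agent.Sand.Check

open Dig Dg

section
variable {α β : Type} [AddCommGroup α] [Dig α] [Primcodable α] [Dg α]
  [AddCommGroup β] [Dig β] [Primcodable β] [Dg β] {π : Type} [Primcodable π]

/-- rank orders with first order well-foundedness test -/
def RK {R : Type} [LinearOrder R] (m : β → R) : Prop :=
  AP (fun z : β × β => m z.1 < m z.2) ∧ ∃ LB : β → ℤ → β → Prop,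
    AP (fun z : (β × ℤ) × β => LB z.1.1 z.1.2 z.2) ∧
    (∀ u C C' w, C' ≤ C → LB u C w → LB u C' w) ∧
    ∀ (S : Set V) (F : V → β), WFon S (fun x => m (F x)) ↔ ∀ u, ∃ C, ∀ x ∈ S, LB u C (F x)

lemma rk_int : RK (fun z : ℤ => z) := by
  refine ⟨by fun_prop, fun _ C w => C ≤ w, by fun_prop, fun _ _ _ _ => le_trans, fun S F =>
    ⟨fun h _ => ?_, fun h => ?_⟩⟩
  · rcases S.eq_empty_or_nonempty with rfl | hS
    · simp
    · obtain ⟨x, -, hx⟩ := h S le_rfl hS
      exact ⟨F x, hx⟩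
  · obtain ⟨C, hC⟩ := h 0
    exact wfon_int hC

omit [Primcodable β] [Dg β] in
lemma RK.step {R : Type} [LinearOrder R] {m : β → R} (h : RK m) :
    RK (fun w : ℤ × β => toLex (w.1, m w.2)) := by
  obtain ⟨h1, LB, h2, h3, h4⟩ := h
  refine ⟨?_, fun u C w => C ≤ w.1 ∧ (w.1 = u.1 → LB u.2 C w.2), ?_,
    fun u C C' w hC h => ⟨hC.trans h.1, fun e => h3 _ _ _ _ hC (h.2 e)⟩, fun S F =>
    ⟨fun h u => ?_, fun h => ?_⟩⟩
  · refine AP.of_iff (P := fun z : (ℤ × β) × ℤ × β =>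
      z.1.1 < z.2.1 ∨ z.1.1 = z.2.1 ∧ m z.1.2 < m z.2.2) (AP.or (by fun_prop)
      (AP.and (by fun_prop) (h1.comp (f := fun z : (ℤ × β) × ℤ × β => (z.1.2, z.2.2))
        (by fun_prop)))) fun z => ?_
    rw [Prod.Lex.toLex_lt_toLex]
  · exact AP.and (by fun_prop) (AP.imp (by fun_prop)
      (h2.comp (f := fun z : ((ℤ × β) × ℤ) × ℤ × β => ((z.1.1.2, z.1.2), z.2.2)) (by fun_prop)))
  · rcases S.eq_empty_or_nonempty with rfl | hS
    · simp
    obtain ⟨x0, -, hx⟩ := h S le_rfl hS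
    have h5 : WFon {x | x ∈ S ∧ (F x).1 = u.1} (fun x => m (F x).2) := by
      intro G hG hne
      obtain ⟨x, hx1, hx2⟩ := h G (fun y hy => (hG hy).1) hne
      refine ⟨x, hx1, fun y hy => ?_⟩
      rcases Prod.Lex.toLex_le_toLex.1 (hx2 y hy) with h6 | h6
      · exact absurd h6 (by rw [(hG hy).2, (hG hx1).2]; exact lt_irrefl _)
      · exact h6.2
    obtain ⟨C, hC⟩ := (h4 _ fun x => (F x).2).1 h5 u.2
    refine ⟨min C (F x0).1, fun x hx' => ⟨(min_le_right _ _).trans ?_, fun e =>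
      h3 _ _ _ _ (min_le_left _ _) (hC x ⟨hx', e⟩)⟩⟩
    rcases Prod.Lex.toLex_le_toLex.1 (hx x hx') with h6 | h6
    exacts [h6.le, h6.1.le]
  · obtain ⟨C, hC⟩ := h 0
    refine wfon_lex (B := C) (fun x hx => (hC x hx).1) fun v =>
      (h4 _ fun x => (F x).2).2 fun u => ?_
    obtain ⟨C', hC'⟩ := h (v, u)
    exact ⟨C', fun x hx => (hC' x hx.1).2 hx.2⟩

lemma RK.wf {R : Type} [LinearOrder R] {m : β → R} (h : RK m) {S : π → α → V → Prop}
    {F : π → V → β} (hS : UA (fun p (z : α × V) => S p z.1 z.2)) (hF : UM F) :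
    UA (fun p x => WFon {y | S p x y} (fun y => m (F p y))) := by
  obtain ⟨-, LB, h2, -, h4⟩ := h
  refine UA.of_iff (P := fun p x => ∀ u, ∃ C, ∀ y, S p x y → LB u C (F p y)) ?_
    fun p x => (h4 _ _).symm
  refine UA.all (UA.ex (UA.all (UA.imp ?_ ?_)))
  · exact hS.app (f := fun _ (z : ((α × β) × ℤ) × V) => (z.1.1.1, z.2)) PR.id (um_am (by fun_prop))
  · exact ua_comp h2 (f := fun p (z : ((α × β) × ℤ) × V) => ((z.1.1.2, z.1.2), F p z.2))
      (UM.pair (um_am (by fun_prop)) (hF.app PR.id (um_am (by fun_prop))))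

lemma um_cnt {P : Fin 4 → π → α → Prop} (h : ∀ i, UA (P i)) :
    UM (fun p x => cnt (fun i => P i p x)) := by
  unfold cnt
  exact UM.sum4 fun i => UM.ite (h i) (um_am (AM.const 1)) (um_am (AM.const 0))

lemma um_lap {g : π → α → V → ℤ} (hg : UM (fun p (z : α × V) => g p z.1 z.2)) :
    UM (fun p (z : α × V) => lap (g p z.1) z.2) := by
  unfold lap
  exact UM.sum4 fun i => UM.sub
    (hg.app (f := fun _ (z : α × V) => (z.1, z.2 + e i)) PR.id (um_am (by fun_prop))) hg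

lemma RK.sub {R : Type} [LinearOrder R] {m : β → R} (h : RK m) {c τ : π → V → ℤ} {F : π → V → β}
    (hc : UM c) (hτ : UM τ) (hF : UM F) :
    UA (fun p x => SubAt (c p) (τ p) (fun y => m (F p y)) x) := by
  unfold SubAt lap
  refine UA.le (um_am (AM.const 4)) (UM.add (UM.add hc (UM.sum4 fun i => UM.sub
    (hτ.app PR.id (um_am (by fun_prop))) hτ)) (um_cnt fun i => ?_))
  exact ua_comp h.1 (f := fun p x => (F p (x + e i), F p x))
    (UM.pair (hF.app PR.id (um_am (by fun_prop))) hF)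

lemma re_true {P : π → Prop} (h : ∀ p, P p) : RE P :=
  (PP.eq (PR.const 0) (PR.const 0)).re.of_iff fun p => iff_of_true rfl (h p)

end

abbrev Z5 := ℤ × ℤ × ℤ × ℤ × ℤ
def m5 (w : Z5) : R5 := mk5 w.1 w.2.1 w.2.2.1 w.2.2.2.1 w.2.2.2.2
def m6 (w : ℤ × Z5) : R6 := toLex (w.1, m5 w.2)
lemma rk5 : RK m5 := rk_int.step.step.step.step
lemma rk6 : RK m6 := rk5.step

lemma ar5_iff {ρ : V → R5} : AR5 ρ ↔ ∃ F : V → Z5, AM F ∧ ρ = fun x => m5 (F x) := by
  constructor
  · rintro ⟨a, b, c, d, f, _, _, _, _, _, rfl⟩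
    exact ⟨fun x => (a x, b x, c x, d x, f x), by fun_prop, rfl⟩
  · rintro ⟨F, hF, rfl⟩
    exact ⟨_, _, _, _, _, hF.fst, hF.snd.fst, hF.snd.snd.fst, hF.snd.snd.snd.fst,
      hF.snd.snd.snd.snd, rfl⟩

lemma ar6_iff {ρ : V → R6} : AR6 ρ ↔ ∃ F : V → ℤ × Z5, AM F ∧ ρ = fun x => m6 (F x) := by
  constructor
  · rintro ⟨a, σ, _, h, rfl⟩
    obtain ⟨F, _, rfl⟩ := ar5_iff.1 h
    exact ⟨fun x => (a x, F x), by fun_prop, rfl⟩
  · rintro ⟨F, hF, rfl⟩
    exact ⟨_, _, hF.fst, ar5_iff.2 ⟨_, hF.snd, rfl⟩, rfl⟩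

lemma map_lift {ι κ : Type} (f : ι → κ) (l : List κ) (h : ∀ b ∈ l, ∃ a, f a = b) :
    ∃ l' : List ι, l'.map f = l := by
  induction l with
  | nil => exact ⟨[], rfl⟩
  | cons b l ih =>
    obtain ⟨l', h1⟩ := ih fun b hb => h b (by simp [hb])
    obtain ⟨a, ha⟩ := h b (by simp)
    exact ⟨a :: l', by simp [h1, ha]⟩

lemma um_cT : UM cT := by
  have key : ∀ (n : ℕ) (x : ℤ) (P : ℕ → Prop),
      (∃ i ∈ List.range (n + 1), (∃ q : ℤ, x = ((n : ℤ) + 1) * q + i) ∧ P i) ↔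
        P (x % ((n : ℤ) + 1)).toNat := by
    intro n x P
    have h0 : (0 : ℤ) < (n : ℤ) + 1 := by omega
    have h1 := Int.emod_nonneg x h0.ne'
    have h2 := Int.emod_lt_of_pos x h0
    constructor
    · rintro ⟨i, hi, ⟨q, rfl⟩, h⟩
      rw [List.mem_range] at hi
      rwa [Int.mul_add_emod_self_left, Int.emod_eq_of_lt (by omega) (by omega), Int.toNat_natCast]
    · refine fun h => ⟨_, List.mem_range.2 (by omega), ⟨x / (n + 1), ?_⟩, h⟩
      rw [Int.toNat_of_nonneg h1, Int.mul_ediv_add_emod]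
  refine UA.of_iff (P := fun (t : ℕ × ℕ × List ℕ) (z : V × ℤ) => ∃ i ∈ List.range (t.1 + 1),
    (∃ q : ℤ, z.1.1 = ((t.1 : ℤ) + 1) * q + i) ∧ ∃ j ∈ List.range (t.2.1 + 1),
    (∃ q : ℤ, z.1.2 = ((t.2.1 : ℤ) + 1) * q + j) ∧
      ((min (t.2.2.getD (i * (t.2.1 + 1) + j) 0) 3 : ℕ) : ℤ) = z.2) ?_ fun t z => ?_
  · refine UA.exl (by fun_prop) (UA.and (UA.ex ?_) (UA.exl (by fun_prop) (UA.and (UA.ex ?_) ?_)))
    · exact UA.eq (um_am (by fun_prop)) (UM.add (UM.mulc (by fun_prop) (um_am (by fun_prop)))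
        (um_cz (by fun_prop)))
    · exact UA.eq (um_am (by fun_prop)) (UM.add (UM.mulc (by fun_prop) (um_am (by fun_prop)))
        (um_cz (by fun_prop)))
    · refine UA.eq (um_cz (PR.cast (PR.nmin (PR.getD 0 ?_ ?_) (PR.const 3)))) (um_am (by fun_prop))
      · fun_prop
      · exact (PR.id.fst.snd.nmul (PR.id.fst.fst.snd.fst.nadd (PR.const 1))).nadd PR.id.snd
  · rw [key, key]; rfl

lemma pr_NT : PR NT := by unfold NT; fun_prop

lemma re_cyl {π : Type} [Primcodable π] {c b ψ : π → V → ℤ} {N : π → ℤ} {T : π → V}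
    {Y W : π → V → Prop} {K : π → V → Z5} (hc : UM c) (hb : UM b) (hψ : UM ψ) (hN : PR N)
    (hT : PR T) (hY : UA Y) (hW : UA W) (hK : UM K) :
    RE (fun p => CylOK (c p) (N p) (b p) ⟨T p, Y p, W p, ψ p, fun x => m5 (K p x)⟩) := by
  unfold CylOK
  refine (re_true hY.ap).and ((re_true hW.ap).and ((re_true hψ.am).and
    ((re_true fun p => ar5_iff.2 ⟨_, hK.am p, rfl⟩).and (UA.re0 ?_))))
  have hs := rk5.sub hc hψ hK
  dsimp only
  repeat' first
    | exact um_am (by fun_prop)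
    | exact ua_ap (by fun_prop)
    | with_reducible refine UA.and ?_ ?_
    | with_reducible refine UA.not ?_
    | with_reducible refine UA.ex ?_
    | with_reducible refine UA.imp ?_ ?_
    | with_reducible refine UA.all4 fun i => ?_
    | with_reducible refine UA.all ?_
    | with_reducible refine UA.eq ?_ ?_
    | with_reducible refine UA.le ?_ ?_
    | with_reducible refine UM.add ?_ ?_
    | with_reducible refine UM.smulc ?_ hT
    | with_reducible refine UM.csmul hN ?_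
    | with_reducible exact um_cv hT
    | with_reducible refine hY.app PR.id ?_
    | with_reducible refine hW.app PR.id ?_
    | with_reducible refine hψ.app PR.id ?_
    | with_reducible refine hb.app PR.id ?_
    | with_reducible refine hs.app PR.id ?_
    | with_reducible refine rk5.wf ?_ hK

abbrev CI := V × Code V × Code V × Code (V × ℤ) × Code (V × Z5)
instance ciP : Primcodable CI := inferInstance
noncomputable def decC (q : CI) : CylItem :=
  ⟨q.1, semC q.2.1, semC q.2.2.1, evF q.2.2.2.1, fun x => m5 (evF q.2.2.2.2 x)⟩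

def EB (c : V → ℤ) (N : ℤ) (b : V → ℤ) (ρ : V → R6) (G : V → Prop) (R0 : ℤ)
    (its : List CylItem) : Prop :=
  AM b ∧ AR6 ρ ∧ AP G ∧ (∃ C : ℤ, ∀ x, b x ≤ C) ∧ (∀ x, R0 < n1 x → SubAt c b ρ x) ∧
    (∀ C : ℤ, WFon {x | G x ∧ -C ≤ b x} ρ) ∧ (∀ it ∈ its, CylOK c N b it) ∧
    ∀ C : ℤ, ∃ R : ℤ, ∀ x, -C ≤ b x → G x ∨ n1 x ≤ R ∨
      ∃ it ∈ its, ∃ (y : V) (j : ℤ), 0 ≤ j ∧ n1 y ≤ R ∧ x = y + j • it.T ∧ it.Y y ∧ b x < it.ψ y

lemma re_EB {π : Type} [Primcodable π] {c b : π → V → ℤ} {N R0 : π → ℤ} {G : π → V → Prop}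
    {K : π → V → ℤ × Z5} {l : π → List CI} (hc : UM c) (hb : UM b) (hN : PR N) (hR : PR R0)
    (hG : UA G) (hK : UM K) (hl : PR l) :
    RE (fun p => EB (c p) (N p) (b p) (fun x => m6 (K p x)) (G p) (R0 p) ((l p).map decC)) := by
  unfold EB
  simp only [List.forall_mem_map]
  simp only [List.mem_map, exists_exists_and_eq_and]
  have hs := rk6.sub hc hb hK
  refine (re_true hb.am).and ((re_true fun p => ar6_iff.2 ⟨_, hK.am p, rfl⟩).and
    ((re_true hG.ap).and ((UA.re0 ?_).and ((UA.re0 ?_).and ((UA.re0 ?_).and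
    ((RE.all hl ?_).and (UA.re0 ?_)))))))
  on_goal 4 =>
    exact re_cyl (hc.par PR.id.fst) (hb.par PR.id.fst) (um_evF.par (by fun_prop)) (by fun_prop)
      (by fun_prop) (ua_semC.par (by fun_prop)) (ua_semC.par (by fun_prop))
      (um_evF.par (by fun_prop))
  all_goals
    try dsimp only [decC]
    repeat' first
      | exact um_am (by fun_prop)
      | exact ua_ap (by fun_prop)
      | with_reducible refine UA.and ?_ ?_
      | with_reducible refine UA.or ?_ ?_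
      | with_reducible refine UA.exl hl ?_
      | with_reducible refine UA.ex ?_
      | with_reducible refine UA.imp ?_ ?_
      | with_reducible refine UA.all ?_
      | with_reducible refine UA.eq ?_ ?_
      | with_reducible refine UA.le ?_ ?_
      | with_reducible refine UA.lt ?_ ?_
      | with_reducible refine UM.add ?_ ?_
      | refine UM.smulc ?_ (by fun_prop)
      | with_reducible exact um_cz hR
      | with_reducible refine hG.app PR.id ?_
      | refine hb.app (by fun_prop) ?_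
      | with_reducible refine hs.app PR.id ?_
      | with_reducible refine rk6.wf ?_ hK
      | refine ua_semC.app (by fun_prop) ?_
      | refine um_evF.app (by fun_prop) ?_

end Check

open Check in
theorem reE_proof : reE_stmt := by
  refine RE.toREPred (RE.of_iff (RE.ex (P := fun (t : ℕ × ℕ × List ℕ)
    (w : Code (V × ℤ) × Code (V × ℤ × Z5) × Code V × ℤ × List CI) =>
      EB (cT t) (NT t) (evF w.1) (fun x => m6 (evF w.2.1 x)) (semC w.2.2.1) w.2.2.2.1
        (w.2.2.2.2.map decC)) ?_) fun t => ⟨?_, ?_⟩)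
  · have := pr_NT
    exact re_EB (um_cT.par PR.id.fst) (um_evF.par (by fun_prop)) (by fun_prop) (by fun_prop)
      (ua_semC.par (by fun_prop)) (um_evF.par (by fun_prop)) (by fun_prop)
  · rintro ⟨w, h⟩
    exact ⟨_, _, _, _, _, h⟩
  · rintro ⟨b, ρ, G, R0, its, h⟩
    obtain ⟨A1, rfl⟩ := exists_codeF h.1
    obtain ⟨F, hF, rfl⟩ := ar6_iff.1 h.2.1
    obtain ⟨A2, rfl⟩ := exists_codeF hF
    obtain ⟨A3, rfl⟩ := exists_code h.2.2.1
    obtain ⟨l, rfl⟩ := map_lift decC its fun it hit => by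
      obtain ⟨T, Y, W, ψ, κ⟩ := it
      obtain ⟨h1, h2, h3, h4, -⟩ := h.2.2.2.2.2.2.1 _ hit
      obtain ⟨B1, rfl⟩ := exists_code (P := Y) h1
      obtain ⟨B2, rfl⟩ := exists_code (P := W) h2
      obtain ⟨B3, rfl⟩ := exists_codeF (f := ψ) h3
      obtain ⟨F, hF, rfl⟩ := (ar5_iff (ρ := κ)).1 h4
      obtain ⟨B4, rfl⟩ := exists_codeF hF
      exact ⟨(T, B1, B2, B3, B4), rfl⟩
    exact ⟨(A1, A2, A3, R0, l), h⟩

end Pool.Agent.Sand
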