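import Pool.Agent.Lib.MP_215a10_lc.Dec.Aut

/-! Definitions for the decidability of explosiveness of periodic sandpiles on `ℤ × ℤ`. -/

set_option autoImplicit false

namespace Pool.Agent.Sand

open Classical

abbrev V := ℤ × ℤ
abbrev Q2 := ℚ × ℚ

def dot (a b : V) : ℤ := a.1 * b.1 + a.2 * b.2
def rot (a : V) : V := (-a.2, a.1)
def det (a b : V) : ℤ := a.1 * b.2 - a.2 * b.1
def n1 (x : V) : ℤ := |x.1| + |x.2|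
def qd (p : Q2) (x : V) : ℚ := p.1 * x.1 + p.2 * x.2
def rd (p : ℝ × ℝ) (x : V) : ℝ := p.1 * x.1 + p.2 * x.2
def toQ (x : V) : Q2 := ((x.1 : ℚ), (x.2 : ℚ))

/-- the four unit steps -/
def e : Fin 4 → V := ![(1, 0), (-1, 0), (0, 1), (0, -1)]
/-- the opposite step -/
def opp : Fin 4 → Fin 4 := ![1, 0, 3, 2]

noncomputable def cnt (P : Fin 4 → Prop) : ℤ := ∑ i : Fin 4, if P i then 1 else 0
noncomputable def ind (F : Set V) (x : V) : ℤ := if x ∈ F then 1 else 0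

def lap (g : V → ℤ) (x : V) : ℤ := ∑ i : Fin 4, (g (x + e i) - g x)

/-- periodic background with period lattice `N ℤ²` -/
structure IsBG (c : V → ℤ) (N : ℤ) : Prop where
  pos : 0 < N
  per : ∀ x z : V, c (x + N • z) = c x
  nonneg : ∀ x, 0 ≤ c x
  le3 : ∀ x, c x ≤ 3

def StAt (c g : V → ℤ) (x : V) : Prop := c x + lap g x ≤ 3
def Stable (c g : V → ℤ) : Prop := ∀ x, StAt c g x

/-- every finite amount of sand at the origin can be stabilised -/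
def Robust (c : V → ℤ) : Prop :=
  ∀ n : ℕ, ∃ u : V → ℕ, ∀ x, c x + (if x = 0 then (n : ℤ) else 0) + lap (fun y => (u y : ℤ)) x ≤ 3

/-- burning inequality: `τ` is a subsolution at `x` with burning order `ρ` -/
def SubAt {α : Type} [LT α] (c τ : V → ℤ) (ρ : V → α) (x : V) : Prop :=
  4 ≤ c x + lap τ x + cnt (fun i => ρ (x + e i) < ρ x)

/-- forbidden subconfiguration of `c + lap g` (possibly infinite or empty) -/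
def FSC (c g : V → ℤ) (F : Set V) : Prop :=
  ∀ x ∈ F, c x + lap g x + cnt (fun i => x + e i ∉ F) ≤ 3

/-- stuck set of the threshold process with edges `E` and thresholds `θ` -/
def Stuck (E : V → Fin 4 → Prop) (θ : V → ℤ) (F : Set V) : Prop :=
  ∀ x ∈ F, cnt (fun i => E x i ∧ x + e i ∉ F) < θ x

/-- `g` is equivariant under `N ℤ²` with slope `-p` -/
def Eqv (N : ℤ) (p : Q2) (g : V → ℤ) : Prop :=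
  ∀ x z : V, (g (x + N • z) : ℚ) = g x - N * qd p z

def Near (p : Q2) (g : V → ℤ) : Prop := ∃ C : ℚ, ∀ x, |(g x : ℚ) + qd p x| ≤ C
def Pinned (c : V → ℤ) (p : Q2) : Prop := ∃ g, Stable c g ∧ Near p g
def Grid (D : ℤ) (p : Q2) : Prop := ∃ z : V, (D : ℚ) • p = toQ z

/-! ### ranks -/

abbrev R2 := ℤ ×ₗ ℤ
abbrev R5 := ℤ ×ₗ ℤ ×ₗ ℤ ×ₗ ℤ ×ₗ ℤ
abbrev R6 := ℤ ×ₗ R5
def mk2 (a b : ℤ) : R2 := toLex (a, b)
def mk5 (a b c d f : ℤ) : R5 := toLex (a, toLex (b, toLex (c, toLex (d, f))))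
def AR2 (ρ : V → R2) : Prop := ∃ a b : V → ℤ, AM a ∧ AM b ∧ ρ = fun x => mk2 (a x) (b x)
def AR5 (ρ : V → R5) : Prop := ∃ a b c d f : V → ℤ, AM a ∧ AM b ∧ AM c ∧ AM d ∧ AM f ∧
  ρ = fun x => mk5 (a x) (b x) (c x) (d x) (f x)
def AR6 (ρ : V → R6) : Prop := ∃ (a : V → ℤ) (σ : V → R5), AM a ∧ AR5 σ ∧
  ρ = fun x => toLex (a x, σ x)

/-- every nonempty subset of `S` has a point of least rank -/
def WFon {α : Type} [LE α] (S : Set V) (ρ : V → α) : Prop :=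
  ∀ F ⊆ S, F.Nonempty → ∃ x ∈ F, ∀ y ∈ F, ρ x ≤ ρ y

/-! ### ideals of sets -/

def IFin (F : Set V) : Prop := F.Finite
def IOut (n : V) (F : Set V) : Prop := ∃ C : ℤ, ∀ x ∈ F, |det n x| ≤ C ∧ -C ≤ dot n x
def IBand (n : V) (F : Set V) : Prop := ∃ C : ℤ, ∀ x ∈ F, |det n x| ≤ C
def IHalf (η : V) (F : Set V) : Prop := ∃ C : ℤ, ∀ x ∈ F, -C ≤ dot η x
/-- translation invariant family of sets -/
def TInv (I : Set V → Prop) : Prop := ∀ F z, I F → I {x | x + z ∈ F}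

def WFdir {α : Type} [LE α] (n : V) (ρ : V → α) : Prop :=
  ∀ C : ℤ, WFon {x | |det n x| ≤ C ∧ -C ≤ dot n x} ρ

/-! ### lifted sandpile (heights in units `1/D`) and the lowering operator -/

/-- ceiling division -/
def cd (D a : ℤ) : ℤ := -((-a) / D)
def lapD (D : ℤ) (B : V → ℤ) (x : V) : ℤ := ∑ i : Fin 4, cd D (B (x + e i) - B x)
def StD (c : V → ℤ) (D : ℤ) (B : V → ℤ) (x : V) : Prop := c x + lapD D B x ≤ 3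
def FSCD (c : V → ℤ) (D : ℤ) (B : V → ℤ) (F : Set V) : Prop :=
  ∀ x ∈ F, StD c D (fun y => B y - ind F y) x
def UU (c : V → ℤ) (D : ℤ) (I : Set V → Prop) (B : V → ℤ) : Set V :=
  {x | ∃ F, I F ∧ FSCD c D B F ∧ x ∈ F}
noncomputable def Psi (c : V → ℤ) (D : ℤ) (I : Set V → Prop) (B : V → ℤ) : V → ℤ :=
  fun x => B x - ind (UU c D I B) x
def Free (c : V → ℤ) (D : ℤ) (I : Set V → Prop) (B : V → ℤ) : Prop :=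
  ∀ F, I F → FSCD c D B F → F = ∅
def Cyc (c : V → ℤ) (D : ℤ) (I : Set V → Prop) (B : V → ℤ) : Prop :=
  ∃ J : ℕ, 0 < J ∧ ∃ a : ℤ, 0 < a ∧ (Psi c D I)^[J] B = fun x => B x - a

/-! ### steps, staircases -/

def StepF (c φ : V → ℤ) (ζ : V) : Prop :=
  ∃ (C : ℤ) (F : Set V), FSC c φ F ∧ (∀ x, dot ζ x ≤ -C → x ∈ F) ∧ ∀ x ∈ F, dot ζ x ≤ C

/-- two-sided staircase of slope `p - t ζ` that agrees with `φ` near the line `ζ·x = 0` -/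
def Stair (c : V → ℤ) (N : ℤ) (φ : V → ℤ) (p : Q2) (ζ : V) (t : ℚ) (S : V → ℤ) : Prop :=
  Stable c S ∧ (∃ N' : ℤ, 0 < N' ∧ Eqv N' (p - t • toQ ζ) S) ∧
  (∀ x, |dot ζ x| ≤ 2 * n1 ζ → S x = φ x) ∧ (∀ x, 0 ≤ dot ζ x → φ x ≤ S x) ∧
  ∀ x, (S (x + N • rot ζ) : ℚ) = S x - N * qd p (rot ζ)

def HasRamp (c : V → ℤ) (N : ℤ) (φ : V → ℤ) (p : Q2) (ζ : V) : Prop :=
  ∃ m0 : ℤ, ∀ m : ℤ, m0 ≤ m → 0 < m →
    ∃ S, Stair c N φ p ζ (1 / ((m * N * dot ζ ζ : ℤ) : ℚ)) S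

/-! ### cells of slopes, budgets -/

def Cl (N : ℤ) (q q' : Q2) : Prop :=
  ∀ a : V, n1 a ≤ N ^ 2 → ∀ b : ℤ, qd q a ≤ b → qd q' a ≤ b
def IsZ (r : ℚ) : Prop := ∃ b : ℤ, r = b
def Special (N : ℤ) (p : Q2) : Prop :=
  ∃ a a' : V, n1 a ≤ N ^ 2 ∧ n1 a' ≤ N ^ 2 ∧ det a a' ≠ 0 ∧ IsZ (qd p a) ∧ IsZ (qd p a')
/-- common denominator of the special points -/
def DD (N : ℤ) : ℤ := ((N ^ 4).toNat.factorial : ℤ)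
def Budget (c : V → ℤ) (N : ℤ) (k : V → Fin 4 → ℤ) : Prop :=
  (∀ x z i, k (x + N • z) i = k x i) ∧ ∀ x, c x + ∑ i : Fin 4, k x i ≤ 3
def KF (k : V → Fin 4 → ℤ) (g : V → ℤ) : Prop := ∀ x i, g (x + e i) - g x ≤ k x i

/-- displacement, weight and admissibility of a walk given by its list of steps -/
def disp (l : List (Fin 4)) : V := (l.map e).sum
def wwt {G : Type} [AddCommGroup G] (κ : V → Fin 4 → G) : V → List (Fin 4) → G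
  | _, [] => 0
  | x, i :: l => κ x i + wwt κ (x + e i) l
def wok (E : V → Fin 4 → Prop) : V → List (Fin 4) → Prop
  | _, [] => True
  | x, i :: l => E x i ∧ wok E (x + e i) l

/-! ### connectivity, self-sustaining bands -/

def Conn (A : Set V) : V → V → Prop :=
  Relation.ReflTransGen (fun u v => u ∈ A ∧ v ∈ A ∧ ∃ i, v = u + e i)

def SB (c : V → ℤ) (N : ℤ) (φ : V → ℤ) (ν : V) (I : Set V → Prop) (W : Set V) : Prop :=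
  W.Nonempty ∧ IBand ν W ∧ (∀ x, x + N • ν ∈ W ↔ x ∈ W) ∧
  ∀ F ⊆ W, I F → Stuck (fun x i => x + e i ∈ W) (fun x => 4 - c x - lap φ x) F → F = ∅

/-! ### wires, tents -/

def IsSub (c τ : V → ℤ) (ρ : V → R5) : Prop := AM τ ∧ AR5 ρ ∧ ∀ x, SubAt c τ ρ x
def IsWire (c : V → ℤ) (p : Q2) (ν : V) (τ : V → ℤ) (ρ : V → R5) : Prop :=
  IsSub c τ ρ ∧ ∃ ε C : ℚ, 0 < ε ∧ ∀ x, abs ((τ x : ℚ) + qd p x + ε * |(det ν x : ℚ)|) ≤ C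
def HasWire (c : V → ℤ) (p : Q2) (ν : V) : Prop := ∃ τ ρ, IsWire c p ν τ ρ
def HasWFWire (c : V → ℤ) (p : Q2) (ν : V) : Prop := ∃ τ ρ, IsWire c p ν τ ρ ∧ WFdir ν ρ
def IsTent (c : V → ℤ) (q q' : Q2) (τ : V → ℤ) (ρ : V → R5) : Prop :=
  IsSub c τ ρ ∧ ∃ C : ℚ, ∀ x, |(τ x : ℚ) + max (qd q x) (qd q' x)| ≤ C
def HasTent (c : V → ℤ) (q q' : Q2) : Prop := ∃ τ ρ, IsTent c q q' τ ρ
def HasWFTent (c : V → ℤ) (q q' : Q2) (n : V) : Prop := ∃ τ ρ, IsTent c q q' τ ρ ∧ WFdir n ρ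
def ZeroLink (c : V → ℤ) (η : V) : Prop :=
  ∃ τ ρ, IsTent c 0 0 τ ρ ∧ ∀ C : ℤ, WFon {x | -C ≤ dot η x} ρ
def CylData (c : V → ℤ) (p : Q2) (n : V) (s : ℤ) : Prop :=
  ∃ τ ρ, IsTent c p p τ ρ ∧ ∀ C : ℤ, WFon {x | -C ≤ s * det n x ∧ qd p x ≤ C} ρ

/-! ### explosion certificate -/

structure CylItem where
  T : V
  Y : V → Prop
  Win : V → Prop
  ψ : V → ℤ
  κ : V → R5

def CylOK (c : V → ℤ) (N : ℤ) (b : V → ℤ) (it : CylItem) : Prop :=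
  AP it.Y ∧ AP it.Win ∧ AM it.ψ ∧ AR5 it.κ ∧ (∃ z : V, it.T = N • z) ∧
  (∃ C : ℤ, ∀ x, it.Y x → it.ψ x ≤ C) ∧
  (∀ x, it.Y x → ¬ it.Win x → (∀ i, it.Y (x + e i)) ∧ SubAt c it.ψ it.κ x) ∧
  (∀ C : ℤ, WFon {x | it.Y x ∧ -C ≤ it.ψ x} it.κ) ∧
  ∀ x, it.Y x → it.Win x → ∃ J : ℤ, ∀ j : ℤ, J ≤ j → it.ψ x ≤ b (x + j • it.T)

def ECert (c : V → ℤ) (N : ℤ) : Prop :=
  ∃ (b : V → ℤ) (ρ : V → R6) (G : V → Prop) (R0 : ℤ) (its : List CylItem),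
    AM b ∧ AR6 ρ ∧ AP G ∧ (∃ C : ℤ, ∀ x, b x ≤ C) ∧ (∀ x, R0 < n1 x → SubAt c b ρ x) ∧
    (∀ C : ℤ, WFon {x | G x ∧ -C ≤ b x} ρ) ∧ (∀ it ∈ its, CylOK c N b it) ∧
    ∀ C : ℤ, ∃ R : ℤ, ∀ x, -C ≤ b x → G x ∨ n1 x ≤ R ∨
      ∃ it ∈ its, ∃ (y : V) (j : ℤ), 0 ≤ j ∧ n1 y ≤ R ∧ x = y + j • it.T ∧ it.Y y ∧ b x < it.ψ y

/-! ### derivations of local limits of bounded stable functions -/

structure Item where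
  st : ℕ
  T : V
  G : V → V → ℤ

structure Ctx where
  z : Prop
  l : V
  A : V → ℤ
  Y : List Item

def Mem (N : ℤ) (Y L : List Item) (n : ℕ) (T : V) (g : V → ℤ) : Prop :=
  ∃ it, (it ∈ Y ∨ (it ∈ L ∧ it.st < n)) ∧ (∃ j : ℤ, T = j • it.T) ∧
    ∃ (s z : V) (a : ℤ), ∀ x, g x = it.G s (x + N • z) + a

def FinMod (T : V) (E : V → Prop) : Prop := ∃ R : ℤ, ∀ x, E x → ∃ j : ℤ, n1 (x - j • T) ≤ R

def Just (c : V → ℤ) (N : ℤ) (X : Ctx) (L : List Item) (n : ℕ) (T : V) (g : V → ℤ) : Prop :=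
  Stable c g ∧ (∀ x, g (x + T) = g x) ∧
  ((X.z ∧ ∃ C : ℤ, ∀ x, |g x| ≤ C) ∨
   (∃ g1 g2, Mem N X.Y L n T g1 ∧ Mem N X.Y L n T g2 ∧ ∀ x, g x = min (g1 x) (g2 x)) ∨
   (∃ g1, Mem N X.Y L n T g1 ∧ FinMod T (fun x => g x ≠ g1 x)) ∨
   (T = 0 ∧ ((∃ g1, Mem N X.Y L n T g1 ∧ (∃ C : ℤ, ∀ x, g x ≠ g1 x → dot X.l x ≤ C) ∧
      ∀ a : ℤ, FinMod 0 (fun x => g x ≠ g1 x ∧ min (g x) (g1 x) < X.A x + a)) ∨
      ∃ it, (it ∈ X.Y ∨ (it ∈ L ∧ it.st < n)) ∧ ∃ (s z : V) (a : ℤ),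
        FinMod it.T (fun x => g x ≠ it.G s (x + N • z) + a) ∧
        ∃ C : ℤ, ∀ x, |g x - (it.G s (x + N • z) + a)| ≤ C)) ∨
   (∀ R : ℤ, ∃ g1, Mem N X.Y L n T g1 ∧ ∀ x, n1 x ≤ R → g x = g1 x))

def Good (c : V → ℤ) (N : ℤ) (X : Ctx) (L : List Item) : Prop :=
  ∀ it ∈ L, AM (fun w : V × V => it.G w.1 w.2) ∧ dot X.l it.T = 0 ∧
    ∀ s, Just c N X L it.st it.T (it.G s)

def ctx0 : Ctx := ⟨True, 0, fun _ => 0, []⟩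

def RCert (c : V → ℤ) (N : ℤ) : Prop :=
  ∃ L0, Good c N ctx0 L0 ∧
   ((∃ it ∈ L0, ∃ s l : V, l ≠ 0 ∧ dot l it.T = 0 ∧
       ∀ a : ℤ, FinMod it.T (fun x => -a < it.G s x + dot l x)) ∨
    (∃ itA ∈ L0, ∃ (sA l : V) (Y L1 : List Item), itA.T = 0 ∧ l ≠ 0 ∧ Y ≠ [] ∧
       (∀ it ∈ Y, it.T = 0 ∧ ∃ it' ∈ L0, it'.T = 0 ∧ ∀ s x, it'.G s x = it.G s x) ∧
       Good c N ⟨False, l, itA.G sA, Y⟩ L1 ∧
       ∀ it ∈ Y, ∀ s, ∃ it' ∈ L1, it'.T = 0 ∧ ∃ s', ∀ x, it.G s x - dot l x = it'.G s' x))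

def DvF (c : V → ℤ) (N : ℤ) (X : Ctx) (T : V) (G : V → V → ℤ) : Prop :=
  ∃ L, Good c N X L ∧ ∃ it ∈ L, it.T = T ∧ it.G = G
def Dv (c : V → ℤ) (N : ℤ) (X : Ctx) (T : V) (g : V → ℤ) : Prop := DvF c N X T (fun _ => g)

def Hull (c : V → ℤ) (N : ℤ) (X : Ctx) (T : V) (y : Q2) : Prop :=
  ∃ h, Dv c N X T h ∧ ∃ C : ℚ, ∀ x, (h x : ℚ) ≤ -qd y x + C
def AncOK (X : Ctx) (A : List Q2) : Prop :=
  (X.l = 0 → A = []) ∧ ∀ a ∈ A, ∃ C : ℚ, ∀ x, (X.A x : ℚ) ≤ -qd a x + C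
def Par (T ξ : V) : Prop := det T ξ = 0 ∧ (T = 0 → ξ = 0)
def Cov (W : List V) (B H : List Q2) (ξ : V) : Prop :=
  (∃ w ∈ W, 0 < dot w ξ) ∨ ∃ y ∈ H, ∃ b ∈ B, qd b ξ < qd y ξ
/-- positive spanning condition -/
def PS (T : V) (W : List V) (B H : List Q2) : Prop := ∀ ξ, ¬ Par T ξ → Cov W B H ξ
/-- positive spanning condition with anchors that may be used in backward directions only -/
def PSx (l T : V) (W : List V) (B H A : List Q2) : Prop :=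
  ∀ ξ, ¬ Par T ξ → Cov W B H ξ ∨ (T = 0 ∧ dot l ξ ≤ 0 ∧ Cov [] B A ξ)

/-! ### abstract closure systems -/

structure Tup (F : Type) where
  prem : Option F
  W : List V
  B : List Q2
  con : F

inductive Clo {F : Type} (sl : F → Q2) (Lib : Set (Tup F)) (l : V) (A : List Q2) (Init : Set F) :
    F → Prop
  | init (f : F) : f ∈ Init → Clo sl Lib l A Init f
  | step (t : Tup F) (H : List F) : t ∈ Lib → (∀ f, t.prem = some f → Clo sl Lib l A Init f) →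
      (∀ f ∈ H, Clo sl Lib l A Init f) → PSx l 0 t.W t.B (H.map sl) A → Clo sl Lib l A Init t.con

/-- sup distance at most `r` -/
def Cls (r : ℚ) (p q : Q2) : Prop := |p.1 - q.1| ≤ r ∧ |p.2 - q.2| ≤ r

def TupOK {F : Type} (sl : F → Q2) (D r : ℤ) (t : Tup F) : Prop :=
  (∀ w ∈ t.W, n1 w ≤ r) ∧ (∀ b ∈ t.B, Grid D b ∧ Cls r b (sl t.con)) ∧
  (∀ f, t.prem = some f → Cls r (sl f) (sl t.con)) ∧
  (sl t.con ∈ t.B ∨ ∃ f, t.prem = some f ∧ sl f ∈ t.B)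

/-! ### polygons -/

def Sup (H : List Q2) (p : Q2) (ξ : V) : Prop := ∀ y ∈ H, qd y ξ ≤ qd p ξ

def IsEdge (H : List Q2) (p p' : Q2) (n : V) : Prop :=
  p ∈ H ∧ p' ∈ H ∧ (∃ μ : ℚ, 0 < μ ∧ p' - p = μ • toQ (rot n)) ∧ n ≠ 0 ∧ Sup H p n ∧
  ∀ y ∈ H, qd y n = qd p n → ∃ s : ℚ, 0 ≤ s ∧ s ≤ 1 ∧ y = p + s • (p' - p)

def EdgeData (c : V → ℤ) (CP : Q2 → Prop) (p p' : Q2) (n : V) : Prop :=
  ∃ (k : ℕ) (s : ℕ → ℚ) (r : ℕ → Q2), 0 < k ∧ s 0 = 0 ∧ s k = 1 ∧ (∀ i < k, s i < s (i + 1)) ∧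
    (∀ i, r i = p + s i • (p' - p)) ∧
    (∀ i < k, HasTent c (r i) (r (i + 1))) ∧ (∀ i, 0 < i → i < k → HasWire c (r i) n) ∧
    (qd p n = 0 → ∃ iR iL : ℕ, iR ≤ iL ∧ iL ≤ k ∧
      (∀ i, iR ≤ i → i < iL → HasWFTent c (r i) (r (i + 1)) n) ∧
      (∀ i, iR ≤ i → i ≤ iL → 0 < i → i < k → HasWFWire c (r i) n) ∧
      CylData c (r iL) n 1 ∧ CylData c (r iR) n (-1) ∧
      0 ≤ qd (r iL) (rot n) ∧ qd (r iR) (rot n) ≤ 0 ∧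
      (r iL = 0 ∨ CP (r iL)) ∧ (r iR = 0 ∨ CP (r iR)))

def VertexData (c : V → ℤ) (CP : Q2 → Prop) (H : List Q2) (p : Q2) : Prop :=
  ∃ ν : V, ν ≠ 0 ∧ Sup H p ν ∧ HasWire c p ν ∧ (CP p → qd p ν = 0 → HasWFWire c p ν)

def ZeroData (c : V → ℤ) (n n' : V) : Prop :=
  HasWFWire c 0 n ∧ HasWFWire c 0 n' ∧ ∃ η : V, 0 ≤ dot η n ∧ 0 ≤ dot η n' ∧
    (det n n' = 0 → 0 ≤ dot η (rot n)) ∧ ZeroLink c η

/-! ### ray systems -/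

structure RaySys where
  R : Type
  S : Type
  P : Type
  J : Type
  [fR : Fintype R]
  [fS : Fintype S]
  [fP : Fintype P]
  [fJ : Fintype J]
  cen : R → V
  ν : R → V
  isW : R → Prop
  lo : S → R
  hi : S → R
  el : S → P
  sp : S → Q2
  sγ : S → ℚ
  rp : R → Q2
  rγ : R → ℚ
  π : P → V → ℤ
  πρ : P → V → R5
  w : R → V → ℤ
  wρ : R → V → R5
  ε : R → ℚ
  jr : J → R
  js : J → ℤ
  ψ : J → V → ℤ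
  κ : J → V → R5
  C0 : ℕ
  Wd : ℤ

namespace RaySys
variable (X : RaySys)
def f (r : X.R) (x : V) : ℤ := det (X.ν r) (x - X.cen r)
def Sec (σ : X.S) : Set V :=
  {x | 0 ≤ X.f (X.lo σ) x ∧ X.f (X.hi σ) x ≤ 0 ∧
    (X.ν (X.lo σ) = X.ν (X.hi σ) → 0 ≤ dot (X.ν (X.lo σ)) x)}
def ls (σ : X.S) (x : V) : ℚ := qd (X.sp σ) x - X.sγ σ
def lr (r : X.R) (x : V) : ℚ := qd (X.rp r) x - X.rγ r
def SecDir (σ : X.S) (n : V) : Prop :=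
  (0 < qd (X.sp σ) (X.ν (X.lo σ)) ∨ X.ν (X.lo σ) = n) ∧
  (0 < qd (X.sp σ) (X.ν (X.hi σ)) ∨ X.ν (X.hi σ) = n)
def CylSec (σ : X.S) (j : X.J) : Prop :=
  X.SecDir σ (X.ν (X.jr j)) ∧
  ∀ x ∈ X.Sec σ, 0 ≤ X.js j * X.f (X.jr j) x ∧ X.lr (X.jr j) x ≤ X.ls σ x

structure OK (c : V → ℤ) : Prop where
  ν_ne : ∀ r, X.ν r ≠ 0
  ν_le : ∀ r, n1 (X.ν r) ≤ X.C0
  kind : ∀ σ, 0 < det (X.ν (X.lo σ)) (X.ν (X.hi σ)) ∨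
    (X.ν (X.lo σ) = X.ν (X.hi σ) ∧ X.Wd ≤ X.f (X.lo σ) (X.cen (X.hi σ)))
  after : ∀ r, ∃ σ, X.lo σ = r
  before : ∀ r, ∃ σ, X.hi σ = r
  virt : ∀ σ σ', X.hi σ = X.lo σ' → ¬ X.isW (X.hi σ) → X.el σ = X.el σ'
  wl : ∀ σ r, X.isW r → (X.lo σ = r ∨ X.hi σ = r) → X.sp σ = X.rp r ∧ X.sγ σ = X.rγ r
  cov : ∃ R0 : ℤ, ∀ x, R0 < n1 x → ∃ σ, x ∈ X.Sec σ
  sign : ∀ σ, 0 ≤ qd (X.sp σ) (X.ν (X.lo σ)) ∧ 0 ≤ qd (X.sp σ) (X.ν (X.hi σ))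
  πsub : ∀ a, IsSub c (X.π a) (X.πρ a)
  πup : ∀ σ x, (X.π (X.el σ) x : ℚ) ≤ -X.ls σ x + X.C0
  πlo : ∀ σ, ∀ x ∈ X.Sec σ, -X.ls σ x - X.C0 ≤ (X.π (X.el σ) x : ℚ)
  wsub : ∀ r, X.isW r → IsSub c (X.w r) (X.wρ r)
  wapp : ∀ r, X.isW r → ∀ x, abs ((X.w r x : ℚ) + X.lr r x + X.ε r * |(X.f r x : ℚ)|) ≤ X.C0
  εb : ∀ r, X.isW r → 0 < X.ε r ∧ X.ε r ≤ X.C0 ∧
    20 * ((X.C0 : ℚ) + 1) ^ 2 ≤ X.ε r * (X.Wd - X.C0 - 1)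
  Wdb : (X.C0 : ℤ) < X.Wd
  secOK : ∀ σ, (∃ n, n ≠ 0 ∧ X.SecDir σ n ∧ WFdir n (X.πρ (X.el σ))) ∨
    (0 < qd (X.sp σ) (X.ν (X.lo σ)) ∧ 0 < qd (X.sp σ) (X.ν (X.hi σ))) ∨
    (∃ η : V, 0 ≤ dot η (X.ν (X.lo σ)) ∧ 0 ≤ dot η (X.ν (X.hi σ)) ∧
      ∀ C : ℤ, WFon {x | -C ≤ dot η x} (X.πρ (X.el σ))) ∨
    ∃ j, X.CylSec σ j
  wOK : ∀ r, X.isW r → 0 < qd (X.rp r) (X.ν r) ∨ WFdir (X.ν r) (X.wρ r) ∨
    ∃ j, X.ν r = X.ν (X.jr j) ∧ ∀ σ, (X.lo σ = r ∨ X.hi σ = r) → X.CylSec σ j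
  jOK : ∀ j, X.isW (X.jr j) ∧ WFdir (X.ν (X.jr j)) (X.wρ (X.jr j)) ∧
    (X.js j = 1 ∨ X.js j = -1) ∧ qd (X.rp (X.jr j)) (X.ν (X.jr j)) = 0 ∧
    0 ≤ X.js j * qd (X.rp (X.jr j)) (rot (X.ν (X.jr j))) ∧
    IsSub c (X.ψ j) (X.κ j) ∧ (∀ x, |(X.ψ j x : ℚ) + X.lr (X.jr j) x| ≤ X.C0) ∧
    ∀ C : ℤ, WFon {x | -C ≤ X.js j * X.f (X.jr j) x ∧ X.lr (X.jr j) x ≤ C} (X.κ j)
end RaySys

/-! ### the input -/

def cT (t : ℕ × ℕ × List ℕ) (x : V) : ℤ :=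
  ((min (t.2.2.getD ((x.1 % ((t.1 : ℤ) + 1)).toNat * (t.2.1 + 1)
    + (x.2 % ((t.2.1 : ℤ) + 1)).toNat) 0) 3 : ℕ) : ℤ)
def NT (t : ℕ × ℕ × List ℕ) : ℤ := ((t.1 : ℤ) + 1) * ((t.2.1 : ℤ) + 1)

end Pool.Agent.Sand
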