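import Pool.Agent.Lib.MP_215a10_lc.Dec.Stmts

/-! Boundary edges of a finite set of points in the rational plane. -/

set_option autoImplicit false

namespace Pool.Agent.Sand

namespace Edges

def cr (a b : Q2) : ℚ := a.1 * b.2 - a.2 * b.1
def dt (a b : Q2) : ℚ := a.1 * b.1 + a.2 * b.2

/-- rational form of `IsEdge` -/
def E (H : List Q2) (p q : Q2) : Prop :=
  p ∈ H ∧ q ∈ H ∧ p ≠ q ∧ ∀ y ∈ H, 0 ≤ cr (q - p) (y - p) ∧
    (cr (q - p) (y - p) = 0 → 0 ≤ dt (q - p) (y - p) ∧ dt (q - p) (y - p) ≤ dt (q - p) (q - p))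

lemma dt_pos {a : Q2} (h : a ≠ 0) : 0 < dt a a := by
  unfold dt
  by_contra hc
  apply h
  have h1 : a.1 = 0 := by nlinarith [sq_nonneg a.1, sq_nonneg a.2]
  have h2 : a.2 = 0 := by nlinarith [sq_nonneg a.1, sq_nonneg a.2]
  exact Prod.ext h1 h2

lemma cr_id (d u v : Q2) : cr u v * dt d d = dt d u * cr d v - cr d u * dt d v := by
  unfold cr dt; ring

lemma dt_id (d u v : Q2) : dt u v * dt d d = dt d u * dt d v + cr d u * cr d v := by
  unfold cr dt; ring

lemma par {u v : Q2} (hu : u ≠ 0) (h : cr u v = 0) : v = (dt u v / dt u u) • u := by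
  have h0 := (dt_pos hu).ne'
  unfold cr at h
  refine Prod.ext ?_ ?_
  · simp only [Prod.smul_fst, smul_eq_mul]
    rw [div_mul_eq_mul_div, eq_div_iff h0]
    unfold dt
    linear_combination (-u.2) * h
  · simp only [Prod.smul_snd, smul_eq_mul]
    rw [div_mul_eq_mul_div, eq_div_iff h0]
    unfold dt
    linear_combination u.1 * h

lemma cr_smul (t : ℚ) (u v : Q2) : cr (t • u) v = t * cr u v := by
  simp only [cr, Prod.smul_fst, Prod.smul_snd, smul_eq_mul]; ring

lemma dt_smul (t : ℚ) (u v : Q2) : dt (t • u) v = t * dt u v := by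
  simp only [dt, Prod.smul_fst, Prod.smul_snd, smul_eq_mul]; ring

lemma dt_smul' (t : ℚ) (u v : Q2) : dt u (t • v) = t * dt u v := by
  simp only [dt, Prod.smul_fst, Prod.smul_snd, smul_eq_mul]; ring

lemma cr_rot (n : V) (p y : Q2) : cr (toQ (rot n)) (y - p) = qd p n - qd y n := by
  simp only [cr, toQ, rot, qd, Prod.fst_sub, Prod.snd_sub]; push_cast; ring

lemma rot_ne {n : V} (hn : n ≠ 0) : toQ (rot n) ≠ 0 := by
  intro h
  apply hn
  have h1 := congrArg Prod.fst h
  have h2 := congrArg Prod.snd h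
  simp only [toQ, rot, Prod.fst_zero, Prod.snd_zero, Int.cast_eq_zero, neg_eq_zero] at h1 h2
  exact Prod.ext h2 h1

lemma of_edge {H : List Q2} {p q : Q2} {n : V} (h : IsEdge H p q n) : E H p q := by
  obtain ⟨hp, hq, ⟨μ, hμ, hd⟩, hn, hs, hl⟩ := h
  have hne : q - p ≠ 0 := by
    rw [hd]
    exact smul_ne_zero hμ.ne' (rot_ne hn)
  refine ⟨hp, hq, fun h => hne (by rw [h, sub_self]), fun y hy => ⟨?_, fun h0 => ?_⟩⟩
  · rw [hd, cr_smul, cr_rot]
    exact mul_nonneg hμ.le (sub_nonneg.2 (hs y hy))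
  · rw [hd, cr_smul, cr_rot] at h0
    have h1 : qd y n = qd p n := by
      have := (mul_eq_zero.1 h0).resolve_left hμ.ne'
      linarith
    obtain ⟨s, hs0, hs1, hy'⟩ := hl y hy h1
    have h2 : y - p = s • (q - p) := by rw [hy']; abel
    have h3 := dt_pos hne
    rw [h2, dt_smul']
    constructor <;> nlinarith

lemma to_edge {H : List Q2} {p q : Q2} (h : E H p q) : ∃ n, IsEdge H p q n := by
  obtain ⟨hp, hq, hne, hy⟩ := h
  have hne' : q - p ≠ 0 := sub_ne_zero.2 hne.symm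
  set d := q - p with hd
  have ha : (0 : ℚ) < d.1.den := by exact_mod_cast d.1.den_pos
  have hb : (0 : ℚ) < d.2.den := by exact_mod_cast d.2.den_pos
  have hμ : (0 : ℚ) < 1 / (d.1.den * d.2.den) := by positivity
  have hr : d = (1 / (d.1.den * d.2.den) : ℚ) •
      toQ (rot (d.2.num * d.1.den, -(d.1.num * d.2.den))) := by
    refine Prod.ext ?_ ?_
    · simp only [toQ, rot, Prod.smul_fst, smul_eq_mul]
      push_cast
      have := Rat.mul_den_eq_num d.1
      field_simp
      linarith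
    · simp only [toQ, rot, Prod.smul_snd, smul_eq_mul]
      push_cast
      have := Rat.mul_den_eq_num d.2
      field_simp
      linarith
  set n : V := (d.2.num * d.1.den, -(d.1.num * d.2.den)) with hn
  have hc : ∀ y, cr d (y - p) = (1 / (d.1.den * d.2.den) : ℚ) * (qd p n - qd y n) := by
    intro y
    conv_lhs => rw [hr]
    rw [cr_smul, cr_rot]
  refine ⟨n, hp, hq, ⟨_, hμ, hr⟩, ?_, fun y hyH => ?_, fun y hyH h0 => ?_⟩
  · intro h0
    apply hne'
    rw [hr, h0]
    simp [toQ, rot, Prod.ext_iff]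
  · have h1 := (hy y hyH).1
    rw [hc] at h1
    linarith [(mul_nonneg_iff_of_pos_left hμ).1 h1]
  · have h1 : cr d (y - p) = 0 := by rw [hc, h0, sub_self, mul_zero]
    obtain ⟨h2, h3⟩ := (hy y hyH).2 h1
    have h4 := dt_pos hne'
    refine ⟨dt d (y - p) / dt d d, div_nonneg h2 h4.le, (div_le_one h4).2 h3, ?_⟩
    rw [← par hne' h1]
    abel

lemma exists_max (H : List Q2) (P : Q2 → Prop) (f : Q2 → ℚ) (h : ∃ y ∈ H, P y) :
    ∃ y ∈ H, P y ∧ ∀ z ∈ H, P z → f z ≤ f y := by
  classical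
  obtain ⟨y0, hy0, hP0⟩ := h
  obtain ⟨y, hy, hm⟩ := Finset.exists_max_image (H.toFinset.filter P) f
    ⟨y0, by simp [hy0, hP0]⟩
  simp only [Finset.mem_filter, List.mem_toFinset] at hy hm
  exact ⟨y, hy.1, hy.2, fun z hz hPz => hm z ⟨hz, hPz⟩⟩

lemma ray {H : List Q2} {p y0 : Q2} (hp : p ∈ H) (hy0 : y0 ∈ H) (hne : y0 ≠ p)
    (h : ∀ z ∈ H, 0 ≤ cr (y0 - p) (z - p) ∧
      (cr (y0 - p) (z - p) = 0 → 0 ≤ dt (y0 - p) (z - p))) : ∃ q, E H p q := by
  have hu : y0 - p ≠ 0 := sub_ne_zero.2 hne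
  set u := y0 - p with hu'
  have h0 : cr u (y0 - p) = 0 := by
    rw [← hu']; unfold cr; ring
  obtain ⟨q, hq, hq0, hm⟩ := exists_max H (fun z => cr u (z - p) = 0) (fun z => dt u (z - p))
    ⟨y0, hy0, h0⟩
  have h1 := dt_pos hu
  have h2 : dt u u ≤ dt u (q - p) := hm y0 hy0 h0
  have h3 := par hu hq0
  set t := dt u (q - p) / dt u u with ht
  have ht0 : 0 < t := div_pos (by linarith) h1
  refine ⟨q, hp, hq, ?_, fun y hy => ⟨?_, fun hc => ?_⟩⟩
  · rintro rfl
    rw [sub_self] at h2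
    have : dt u 0 = 0 := by simp [dt]
    linarith
  · rw [h3, cr_smul]
    exact mul_nonneg ht0.le (h y hy).1
  · have h4 : cr u (y - p) = 0 := by
      rw [h3, cr_smul] at hc
      exact (mul_eq_zero.1 hc).resolve_left ht0.ne'
    have h5 : dt (q - p) (y - p) = t * dt u (y - p) := by
      conv_lhs => rw [h3]
      rw [dt_smul]
    have h6 : dt (q - p) (q - p) = t * dt u (q - p) := by
      conv_lhs => arg 1; rw [h3]
      rw [dt_smul]
    rw [h5, h6]
    exact ⟨mul_nonneg ht0.le ((h y hy).2 h4), mul_le_mul_of_nonneg_left (hm y hy h4) ht0.le⟩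

lemma next {H : List Q2} {p d : Q2} (hp : p ∈ H) (hd : d ≠ 0) (hH : ∃ y ∈ H, y ≠ p)
    (h : ∀ y ∈ H, 0 ≤ cr d (y - p) ∧ (cr d (y - p) = 0 → dt d (y - p) ≤ 0)) : ∃ q, E H p q := by
  have hdd := dt_pos hd
  by_cases hc : ∃ y ∈ H, 0 < cr d (y - p)
  · obtain ⟨y, hy, hy0, hm⟩ := exists_max H (fun z => 0 < cr d (z - p))
      (fun z => dt d (z - p) / cr d (z - p)) hc
    refine ray hp hy ?_ fun z hz => ⟨?_, fun h0 => ?_⟩
    · rintro rfl
      rw [sub_self] at hy0
      simp [cr] at hy0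
    · have h1 := cr_id d (y - p) (z - p)
      have h2 : 0 ≤ dt d (y - p) * cr d (z - p) - cr d (y - p) * dt d (z - p) := by
        rcases (h z hz).1.eq_or_lt with h3 | h3
        · have h4 := (h z hz).2 h3.symm
          rw [← h3]
          nlinarith
        · have h4 := hm z hz h3
          rw [div_le_div_iff₀ h3 hy0] at h4
          linarith
      rw [← h1] at h2
      exact nonneg_of_mul_nonneg_left h2 hdd
    · have h1 := cr_id d (y - p) (z - p)
      have h2 := dt_id d (y - p) (z - p)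
      rw [h0, zero_mul] at h1
      have h3 := (h z hz).1
      have h4 : 0 ≤ dt (y - p) (z - p) * (dt d d * cr d (y - p)) := by
        have : dt (y - p) (z - p) * (dt d d * cr d (y - p)) =
            (dt d (y - p) ^ 2 + cr d (y - p) ^ 2) * cr d (z - p) := by
          linear_combination cr d (y - p) * h2 + dt d (y - p) * h1
        rw [this]
        positivity
      exact nonneg_of_mul_nonneg_left h4 (mul_pos hdd hy0)
  · push Not at hc
    have h0 : ∀ y ∈ H, cr d (y - p) = 0 := fun y hy => le_antisymm (hc y hy) (h y hy).1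
    obtain ⟨y, hy, hne⟩ := hH
    refine ray hp hy hne fun z hz => ⟨?_, fun _ => ?_⟩
    · have h1 := cr_id d (y - p) (z - p)
      rw [h0 y hy, h0 z hz, mul_zero, zero_mul, sub_self] at h1
      exact ((mul_eq_zero.1 h1).resolve_right hdd.ne').ge
    · have h2 := dt_id d (y - p) (z - p)
      rw [h0 y hy, zero_mul, add_zero] at h2
      have h3 : 0 ≤ dt (y - p) (z - p) * dt d d := by
        rw [h2]
        exact mul_nonneg_of_nonpos_of_nonpos ((h y hy).2 (h0 y hy)) ((h z hz).2 (h0 z hz))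
      exact nonneg_of_mul_nonneg_left h3 hdd

lemma cr_shift (p q y : Q2) : cr (q - p) (y - q) = cr (q - p) (y - p) := by
  simp only [cr, Prod.fst_sub, Prod.snd_sub]; ring

lemma dt_shift (p q y : Q2) : dt (q - p) (y - q) = dt (q - p) (y - p) - dt (q - p) (q - p) := by
  simp only [dt, Prod.fst_sub, Prod.snd_sub]; ring

lemma E.next {H : List Q2} {p q : Q2} (h : E H p q) : ∃ r, E H q r := by
  obtain ⟨hp, hq, hne, hy⟩ := h
  refine Edges.next hq (sub_ne_zero.2 hne.symm) ⟨p, hp, hne⟩ fun y hyH => ?_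
  rw [cr_shift, dt_shift]
  exact ⟨(hy y hyH).1, fun h0 => by linarith [((hy y hyH).2 h0).2]⟩

lemma E.swap {H : List Q2} {p q : Q2} (h : E H p q) : E (H.map Prod.swap) q.swap p.swap := by
  obtain ⟨hp, hq, hne, hy⟩ := h
  refine ⟨List.mem_map_of_mem hq, List.mem_map_of_mem hp,
    fun h => hne (Prod.swap_injective h).symm, fun y' hy' => ?_⟩
  obtain ⟨y, hyH, rfl⟩ := List.mem_map.1 hy'
  have h1 : cr (p.swap - q.swap) (y.swap - q.swap) = cr (q - p) (y - p) := by
    simp only [cr, Prod.fst_sub, Prod.snd_sub, Prod.fst_swap, Prod.snd_swap]; ring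
  have h2 : dt (p.swap - q.swap) (y.swap - q.swap) = dt (q - p) (q - p) - dt (q - p) (y - p) := by
    simp only [dt, Prod.fst_sub, Prod.snd_sub, Prod.fst_swap, Prod.snd_swap]; ring
  have h3 : dt (p.swap - q.swap) (p.swap - q.swap) = dt (q - p) (q - p) := by
    simp only [dt, Prod.fst_sub, Prod.snd_sub, Prod.fst_swap, Prod.snd_swap]; ring
  rw [h1, h2, h3]
  exact ⟨(hy y hyH).1, fun h0 => by
    constructor <;> linarith [((hy y hyH).2 h0).1, ((hy y hyH).2 h0).2]⟩

lemma E.prev {H : List Q2} {p q : Q2} (h : E H p q) : ∃ r, E H r p := by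
  obtain ⟨r, hr⟩ := h.swap.next
  have h1 := hr.swap
  rw [List.map_map, Prod.swap_swap_eq, List.map_id, Prod.swap_swap] at h1
  exact ⟨_, h1⟩

lemma E.uniq {H : List Q2} {p q r : Q2} (h : E H p q) (h' : E H p r) : q = r := by
  obtain ⟨_, hq, hne, hy⟩ := h
  obtain ⟨_, hr, hne', hy'⟩ := h'
  have ha := dt_pos (sub_ne_zero.2 hne.symm)
  have hb := dt_pos (sub_ne_zero.2 hne'.symm)
  set u := q - p with hu
  set v := r - p with hv
  have h1 : cr v u = -cr u v := by unfold cr; ring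
  have h2 : dt v u = dt u v := by unfold dt; ring
  have h3 : cr u v = 0 := by
    have := (hy r hr).1
    have := (hy' q hq).1
    linarith
  obtain ⟨h4, h5⟩ := (hy r hr).2 h3
  obtain ⟨_, h6⟩ := (hy' q hq).2 (by rw [h1, h3, neg_zero])
  rw [h2] at h6
  have h7 := dt_id u v v
  rw [h3, mul_zero, add_zero] at h7
  have h8 : dt u v = dt u u := by nlinarith
  have h9 : dt u v = dt v v := by nlinarith
  have h10 : dt (u - v) (u - v) = dt u u + dt v v - 2 * dt u v := by
    simp only [dt, Prod.fst_sub, Prod.snd_sub]; ring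
  by_contra hc
  have h11 : u - v ≠ 0 := by
    rw [hu, hv, sub_sub_sub_cancel_right]
    exact sub_ne_zero.2 hc
  have := dt_pos h11
  linarith

lemma E.uniq' {H : List Q2} {p q r : Q2} (h : E H p q) (h' : E H r q) : p = r :=
  Prod.swap_injective (h.swap.uniq h'.swap)

lemma first {H : List Q2} (h : ∃ p ∈ H, ∃ p' ∈ H, p ≠ p') : ∃ p q, E H p q := by
  obtain ⟨a, ha, b, hb, hab⟩ := h
  obtain ⟨y, hy, -, hm⟩ := exists_max H (fun _ => True) (fun z => -z.2) ⟨a, ha, trivial⟩
  obtain ⟨p, hp, hp2, hm'⟩ := exists_max H (fun z => z.2 = y.2) (fun z => z.1) ⟨y, hy, rfl⟩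
  refine ⟨p, next (d := (1, 0)) hp (by simp [Prod.ext_iff]) ?_ fun z hz => ?_⟩
  · by_cases h : a = p
    · exact ⟨b, hb, fun h' => hab (h.trans h'.symm)⟩
    · exact ⟨a, ha, h⟩
  · have h1 := hm z hz trivial
    simp only [cr, dt, Prod.fst_sub, Prod.snd_sub] at h1 ⊢
    refine ⟨by linarith, fun h0 => ?_⟩
    have h2 := hm' z hz (by linarith)
    linarith

lemma turn {H : List Q2} {p q r : Q2} {n n' : V} (h : IsEdge H p q n) (h' : IsEdge H q r n') :
    (0 < det n n' ∨ (det n n' = 0 ∧ dot n n' < 0 ∧ r = p ∧ ∀ y ∈ H, qd y n = qd p n)) ∧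
      ∀ ν, Sup H q ν → 0 ≤ det n ν ∧ 0 ≤ det ν n' := by
  have hE := of_edge h
  have hE' := of_edge h'
  obtain ⟨hp, hq, ⟨μ, hμ, hd⟩, hn, -, -⟩ := h
  obtain ⟨-, hr, ⟨μ', hμ', hd'⟩, hn', -, -⟩ := h'
  have hmm := mul_pos hμ hμ'
  have hu : q - p ≠ 0 := sub_ne_zero.2 hE.2.2.1.symm
  have hv : r - q ≠ 0 := sub_ne_zero.2 hE'.2.2.1.symm
  have h1 : cr (q - p) (r - q) = μ * μ' * (det n n' : ℚ) := by
    rw [hd, hd']
    simp only [cr, toQ, rot, det, Prod.smul_fst, Prod.smul_snd, smul_eq_mul]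
    push_cast
    ring
  have h2 : dt (q - p) (r - q) = μ * μ' * (dot n n' : ℚ) := by
    rw [hd, hd']
    simp only [dt, toQ, rot, dot, Prod.smul_fst, Prod.smul_snd, smul_eq_mul]
    push_cast
    ring
  refine ⟨?_, fun ν hν => ⟨?_, ?_⟩⟩
  · have h3 := (hE.2.2.2 r hr).1
    rw [← cr_shift] at h3
    rcases h3.eq_or_lt with h4 | h4
    · right
      have h5 := ((hE.2.2.2 r hr).2 (by rw [← cr_shift, ← h4])).2
      have h6 : dt (q - p) (r - q) ≤ 0 := by rw [dt_shift]; linarith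
      have h7 := par hu h4.symm
      have hdd := dt_pos hu
      have h8 : dt (q - p) (r - q) < 0 := by
        refine lt_of_le_of_ne h6 fun h0 => hv ?_
        rw [h7, h0, zero_div, zero_smul]
      have ht : dt (q - p) (r - q) / dt (q - p) (q - p) < 0 := div_neg_of_neg_of_pos h8 hdd
      have h9 : ∀ y ∈ H, cr (q - p) (y - p) = 0 := by
        intro y hy
        have h10 := (hE'.2.2.2 y hy).1
        rw [h7, cr_smul, cr_shift] at h10
        have h11 := (hE.2.2.2 y hy).1
        nlinarith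
      refine ⟨?_, ?_, ?_, fun y hy => ?_⟩
      · rw [h1] at h4
        exact_mod_cast (mul_eq_zero.1 h4.symm).resolve_left hmm.ne'
      · rw [h2] at h8
        exact_mod_cast neg_of_mul_neg_right h8 hmm.le
      · refine hE'.uniq ⟨hq, hp, hE.2.2.1.symm, fun y hy => ?_⟩
        have e1 : cr (p - q) (y - q) = -cr (q - p) (y - p) := by
          simp only [cr, Prod.fst_sub, Prod.snd_sub]; ring
        have e2 : dt (p - q) (y - q) = dt (q - p) (q - p) - dt (q - p) (y - p) := by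
          simp only [dt, Prod.fst_sub, Prod.snd_sub]; ring
        have e3 : dt (p - q) (p - q) = dt (q - p) (q - p) := by
          simp only [dt, Prod.fst_sub, Prod.snd_sub]; ring
        rw [e1, e2, e3, h9 y hy, neg_zero]
        obtain ⟨f1, f2⟩ := (hE.2.2.2 y hy).2 (h9 y hy)
        exact ⟨le_rfl, fun _ => ⟨by linarith, by linarith⟩⟩
      · have h10 := h9 y hy
        rw [hd, cr_smul, cr_rot] at h10
        have := (mul_eq_zero.1 h10).resolve_left hμ.ne'
        linarith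
    · left
      rw [h1] at h4
      exact_mod_cast (mul_pos_iff_of_pos_left hmm).1 h4
  · have h3 := hν p hp
    have h4 : qd q ν - qd p ν = μ * (det n ν : ℚ) := by
      have e1 := congrArg Prod.fst hd
      have e2 := congrArg Prod.snd hd
      simp only [toQ, rot, Prod.smul_fst, Prod.smul_snd, smul_eq_mul, Prod.fst_sub,
        Prod.snd_sub] at e1 e2
      simp only [qd, det]
      push_cast at e1 e2 ⊢
      linear_combination (ν.1 : ℚ) * e1 + (ν.2 : ℚ) * e2
    have h5 : 0 ≤ μ * (det n ν : ℚ) := by linarith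
    exact_mod_cast (mul_nonneg_iff_of_pos_left hμ).1 h5
  · have h3 := hν r hr
    have h4 : qd q ν - qd r ν = μ' * (det ν n' : ℚ) := by
      have e1 := congrArg Prod.fst hd'
      have e2 := congrArg Prod.snd hd'
      simp only [toQ, rot, Prod.smul_fst, Prod.smul_snd, smul_eq_mul, Prod.fst_sub,
        Prod.snd_sub] at e1 e2
      simp only [qd, det]
      push_cast at e1 e2 ⊢
      linear_combination (-(ν.1 : ℚ)) * e1 - (ν.2 : ℚ) * e2
    have h5 : 0 ≤ μ' * (det ν n' : ℚ) := by linarith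
    exact_mod_cast (mul_nonneg_iff_of_pos_left hμ').1 h5

end Edges

open Edges in
theorem edges_proof : edges_stmt := by
  intro H hH
  refine ⟨?_, fun p p' n h => ⟨?_, ?_⟩, fun p p' n p'' n' h h' => (of_edge h).uniq (of_edge h'),
    fun p p' n p'' n' h h' => (of_edge h).uniq' (of_edge h'), fun p p' n p'' n' h h' => turn h h'⟩
  · obtain ⟨p, q, h⟩ := first hH
    obtain ⟨n, hn⟩ := to_edge h
    exact ⟨p, q, n, hn⟩
  · obtain ⟨r, hr⟩ := (of_edge h).next
    obtain ⟨n', hn⟩ := to_edge hr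
    exact ⟨r, n', hn⟩
  · obtain ⟨r, hr⟩ := (of_edge h).prev
    obtain ⟨n', hn⟩ := to_edge hr
    exact ⟨r, n', hn⟩

end Pool.Agent.Sand
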