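import Pool.Agent.Lib.MP_215a10_lc.Dec.Stmts

/-! Soundness of explosion certificates. -/

set_option autoImplicit false

namespace Pool.Agent.Sand

open Filter

namespace Esound

lemma ball_finite (R : ℤ) : {x : V | n1 x ≤ R}.Finite := by
  refine (Set.finite_Icc ((-R, -R) : V) (R, R)).subset fun x hx => ?_
  simp only [n1, Set.mem_ofPred_eq] at hx
  have h1 := abs_nonneg x.1
  have h2 := abs_nonneg x.2
  have h3 := le_abs_self x.1
  have h4 := le_abs_self x.2
  have h5 := neg_abs_le x.1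
  have h6 := neg_abs_le x.2
  refine ⟨⟨?_, ?_⟩, ?_, ?_⟩ <;> simp only <;> omega

lemma inner_step {x : V} (hx : x ≠ 0) : ∃ i, n1 (x + e i) + 1 = n1 x := by
  obtain ⟨a, b⟩ := x
  rcases lt_trichotomy a 0 with h | h | h
  · refine ⟨0, ?_⟩
    simp only [n1, e, Matrix.cons_val_zero, Prod.mk_add_mk, add_zero]
    rw [abs_of_nonpos (by omega : a + 1 ≤ 0), abs_of_neg h]; ring
  · rcases lt_trichotomy b 0 with h' | h' | h'
    · refine ⟨2, ?_⟩
      simp only [n1, e, Matrix.cons_val, Prod.mk_add_mk, add_zero]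
      rw [abs_of_nonpos (by omega : b + 1 ≤ 0), abs_of_neg h']; ring
    · subst h h'; exact absurd rfl hx
    · refine ⟨3, ?_⟩
      simp only [n1, e, Matrix.cons_val, Prod.mk_add_mk, add_zero]
      rw [abs_of_nonneg (by omega : 0 ≤ b + -1), abs_of_pos h']; ring
  · refine ⟨1, ?_⟩
    simp only [n1, e, Matrix.cons_val_one, Matrix.cons_val_zero, Prod.mk_add_mk, add_zero]
    rw [abs_of_nonneg (by omega : 0 ≤ a + -1), abs_of_pos h]; ring

lemma lap_ge {φ : V → ℤ} (h0 : ∀ x, 0 ≤ φ x) (x : V) (i : Fin 4) :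
    φ (x + e i) - 4 * φ x ≤ lap φ x := by
  have h1 : φ (x + e i) ≤ ∑ k : Fin 4, φ (x + e k) :=
    Finset.single_le_sum (f := fun k => φ (x + e k)) (fun k _ => h0 _) (Finset.mem_univ i)
  simp only [lap, Finset.sum_sub_distrib, Finset.sum_const, Finset.card_univ, Fintype.card_fin]
  simp only [nsmul_eq_mul]
  push_cast
  linarith

/-- sand can be added on a whole ball -/
lemma spread {c : V → ℤ} (h : Robust c) (K : ℤ) (n : ℕ) : ∃ (u : V → ℤ) (C : ℤ),
    (∀ x, -C ≤ u x) ∧ (∀ x, c x + lap u x ≤ 3) ∧ ∀ x, n1 x ≤ K → c x + n + lap u x ≤ 3 := by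
  classical
  let φ : V → ℕ := fun x => if n1 x ≤ K then n * 5 ^ (K - n1 x).toNat else 0
  have hn1 : ∀ x : V, 0 ≤ n1 x := fun x => add_nonneg (abs_nonneg _) (abs_nonneg _)
  have hφ : ∀ x, φ x ≤ n * 5 ^ K.toNat := fun x => by
    simp only [φ]
    split_ifs
    · have := hn1 x
      exact Nat.mul_le_mul_left _ (Nat.pow_le_pow_right (by norm_num) (by omega))
    · exact Nat.zero_le _
  obtain ⟨u, hu⟩ := h (n + 4 * φ 0)
  have hl : ∀ x, lap (fun y => (u y : ℤ) - φ y) x =
      lap (fun y => (u y : ℤ)) x - lap (fun y => (φ y : ℤ)) x := fun x => by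
    simp only [lap, ← Finset.sum_sub_distrib]
    exact Finset.sum_congr rfl fun i _ => by ring
  have key : ∀ x, c x + (if n1 x ≤ K then (n : ℤ) else 0) +
      lap (fun y => (u y : ℤ) - φ y) x ≤ 3 := fun x => by
    have h1 := hu x
    rw [hl]
    by_cases hx : x = 0
    · have h2 := lap_ge (φ := fun y => (φ y : ℤ)) (fun _ => Int.natCast_nonneg _) x 0
      have h3 : (0 : ℤ) ≤ φ (x + e 0) := Int.natCast_nonneg _
      have h4 : (0 : ℤ) ≤ n := Int.natCast_nonneg _
      rw [if_pos hx] at h1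
      rw [← hx] at h1
      push_cast at h1
      split_ifs <;> linarith
    · obtain ⟨i, hi⟩ := inner_step hx
      have h2 := lap_ge (φ := fun y => (φ y : ℤ)) (fun _ => Int.natCast_nonneg _) x i
      rw [if_neg hx] at h1
      split_ifs with hK
      · have h3 : φ (x + e i) = 5 * φ x := by
          simp only [φ]
          rw [if_pos hK, if_pos (by omega),
            show (K - n1 (x + e i)).toNat = (K - n1 x).toNat + 1 by omega]
          ring
        have h4 : n ≤ φ x := by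
          simp only [φ]
          rw [if_pos hK]
          exact Nat.le_mul_of_pos_right _ (by positivity)
        have h5 : (φ (x + e i) : ℤ) = 5 * φ x := by exact_mod_cast h3
        have h6 : (n : ℤ) ≤ φ x := by exact_mod_cast h4
        linarith
      · have h3 : (φ x : ℤ) = 0 := by simp only [φ]; rw [if_neg hK]; rfl
        have h4 : (0 : ℤ) ≤ φ (x + e i) := Int.natCast_nonneg _
        linarith
  refine ⟨fun y => (u y : ℤ) - φ y, (n * 5 ^ K.toNat : ℕ), fun x => ?_, fun x => ?_, fun x hx => ?_⟩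
  · have h1 : (φ x : ℤ) ≤ (n * 5 ^ K.toNat : ℕ) := by exact_mod_cast hφ x
    have h2 : (0 : ℤ) ≤ u x := Int.natCast_nonneg _
    simp only
    linarith
  · have h1 := key x
    have h4 : (0 : ℤ) ≤ n := Int.natCast_nonneg _
    split_ifs at h1 <;> linarith
  · have h1 := key x
    rwa [if_pos hx] at h1

lemma sub_contra {α : Type} [LinearOrder α] {c τ g : V → ℤ} {ρ : V → α} {x : V}
    (hs : SubAt c τ ρ x) (h1 : ∀ i, g x - τ x ≤ g (x + e i) - τ (x + e i))
    (h2 : ∀ i, g (x + e i) - τ (x + e i) = g x - τ x → ρ x ≤ ρ (x + e i)) :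
    4 ≤ c x + lap g x := by
  refine hs.trans ?_
  rw [add_assoc]
  refine add_le_add_right ?_ _
  simp only [lap, cnt, ← Finset.sum_add_distrib]
  refine Finset.sum_le_sum fun i _ => ?_
  have := h1 i
  split_ifs with h
  · have h3 : g (x + e i) - τ (x + e i) ≠ g x - τ x := fun h' => absurd (h2 i h') (not_le.2 h)
    omega
  · omega

lemma exists_liminf (a : ℤ → ℤ) (C H : ℤ) (h1 : ∀ j, -C ≤ a j) (h2 : ∀ j, a j ≤ H) :
    ∃ v, (∀ᶠ j in atTop, v ≤ a j) ∧ ∃ᶠ j in atTop, a j = v := by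
  obtain ⟨v, hv, hv'⟩ := Int.exists_greatest_of_bdd (P := fun v => ∀ᶠ j in atTop, v ≤ a j)
    ⟨H, fun z hz => by obtain ⟨j, hj⟩ := hz.exists; exact hj.trans (h2 j)⟩
    ⟨-C, Eventually.of_forall h1⟩
  refine ⟨v, hv, ?_⟩
  by_contra h
  rw [not_frequently] at h
  have := hv' (v + 1) (by filter_upwards [hv, h] with j h3 h4; omega)
  omega

lemma exists_argmin {Y : V → Prop} (f : V → ℤ) (C : ℤ) (h : ∀ x, Y x → -C ≤ f x) {y : V}
    (hy : Y y) : ∃ x, Y x ∧ ∀ z, Y z → f x ≤ f z := by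
  obtain ⟨m, ⟨x, hx, rfl⟩, hm⟩ := Int.exists_least_of_bdd (P := fun m => ∃ x, Y x ∧ f x = m)
    ⟨-C, by rintro z ⟨x, hx, rfl⟩; exact h x hx⟩ ⟨_, y, hy, rfl⟩
  exact ⟨x, hx, fun z hz => hm _ ⟨z, hz, rfl⟩⟩

/-- far along a cylinder the function `u` lies above the barrier -/
lemma cyl {c : V → ℤ} {N : ℤ} (hc : IsBG c N) {b u : V → ℤ} {C m : ℤ} {it : CylItem}
    (hit : CylOK c N b it) (hu0 : ∀ x, -C ≤ u x) (hu : ∀ x, c x + lap u x ≤ 3)
    (hm : ∀ x, m ≤ u x - b x) {y : V} (hy : it.Y y) :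
    ∀ᶠ j : ℤ in atTop, m + it.ψ y ≤ u (y + j • it.T) := by
  obtain ⟨-, -, -, -, ⟨z, hz⟩, ⟨Cψ, hψ⟩, hsub, hwf, hwin⟩ := hit
  obtain ⟨H, hH1, hH2⟩ : ∃ H : ℤ, m + Cψ ≤ H ∧ -C ≤ H := ⟨_, le_max_left _ _, le_max_right _ _⟩
  have hg : ∀ x, c x + lap (fun y => min (u y) H) x ≤ 3 := fun x => by
    rcases le_total (u x) H with h | h
    · refine le_trans (add_le_add_right (Finset.sum_le_sum fun i _ => ?_) _) (hu x)
      simp only
      omega
    · have h1 : lap (fun y => min (u y) H) x ≤ 0 := Finset.sum_nonpos fun i _ => by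
        simp only
        omega
      have := hc.le3 x
      omega
  choose v hv1 hv2 using fun x : V => exists_liminf (fun j => min (u (x + j • it.T)) H) C H
    (fun j => le_min (hu0 _) hH2) fun j => min_le_right _ _
  have hvC : ∀ x, -C ≤ v x := fun x => by
    obtain ⟨j, hj⟩ := (hv2 x).exists
    rw [← hj]
    exact le_min (hu0 _) hH2
  have hst : ∀ x, c x + lap v x ≤ 3 := fun x => by
    obtain ⟨j, h1, h2⟩ := ((hv2 x).and_eventually
      (eventually_all.2 fun i : Fin 4 => hv1 (x + e i))).exists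
    have h3 := hg (x + j • it.T)
    have h4 : c (x + j • it.T) = c x := by rw [hz, smul_comm]; exact hc.per _ _
    rw [h4] at h3
    refine le_trans (add_le_add_right (Finset.sum_le_sum fun i _ => ?_) _) h3
    have h5 := h2 i
    simp only at h1 h5 ⊢
    rw [add_right_comm] at h5
    omega
  obtain ⟨x0, hx0, hmin⟩ := exists_argmin (fun x => v x - it.ψ x) (C + Cψ)
    (fun x hx => by have := hvC x; have := hψ x hx; omega) hy
  obtain ⟨x, ⟨hx1, hx2⟩, hx3⟩ := hwf (C + (v x0 - it.ψ x0))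
    {x | it.Y x ∧ v x - it.ψ x = v x0 - it.ψ x0}
    (fun x hx => ⟨hx.1, by have := hvC x; have := hx.2; omega⟩) ⟨x0, hx0, rfl⟩
  have hW : it.Win x := by
    by_contra hW
    obtain ⟨h1, h2⟩ := hsub x hx1 hW
    have h3 := sub_contra (g := v) h2 (fun i => by rw [hx2]; exact hmin _ (h1 i))
      fun i h => hx3 _ ⟨h1 i, h.trans hx2⟩
    have := hst x
    omega
  obtain ⟨J, hJ⟩ := hwin x hx1 hW
  obtain ⟨j, h1, h2⟩ := ((hv2 x).and_eventually (eventually_ge_atTop J)).exists
  have h3 := hJ j h2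
  have h4 := hm (x + j • it.T)
  have h5 := hψ x hx1
  have h6 := hmin y hy
  filter_upwards [hv1 y] with k hk
  omega

end Esound

open Esound in
theorem esound_proof : esound_stmt := by
  rintro c N hc ⟨b, ρ, G, R0, its, -, -, -, ⟨Cb, hb⟩, hsub, hwf, hits, hcov⟩ hR
  obtain ⟨n0, hn0⟩ := ((ball_finite R0).image fun x => 4 - lap b x).bddAbove
  obtain ⟨u, C, hu0, hu, hu'⟩ := spread hR R0 n0.toNat
  obtain ⟨x0, -, hmin⟩ := exists_argmin (Y := fun _ => True) (fun x => u x - b x) (C + Cb)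
    (fun x _ => by have := hu0 x; have := hb x; omega) (y := 0) trivial
  obtain ⟨m, hm⟩ : ∃ m, m = u x0 - b x0 := ⟨_, rfl⟩
  have hm1 : ∀ x, m ≤ u x - b x := fun x => hm ▸ hmin x trivial
  have hlow : ∀ x, u x - b x = m → -(C + m) ≤ b x := fun x hx => by have := hu0 x; omega
  obtain ⟨R, hR'⟩ := hcov (C + m)
  have hfin : {x | u x - b x = m ∧ ¬ G x}.Finite := by
    have h1 : ∀ it ∈ {it | it ∈ its}, (⋃ y ∈ {y : V | n1 y ≤ R}, (fun j : ℤ => y + j • it.T) ''
        {j | 0 ≤ j ∧ it.Y y ∧ u (y + j • it.T) < m + it.ψ y}).Finite := fun it hit => by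
      refine (ball_finite R).biUnion fun y _ => Set.Finite.image _ ?_
      by_cases hy : it.Y y
      · obtain ⟨J, hJ⟩ := eventually_atTop.1 (cyl hc (hits it hit) hu0 hu hm1 hy)
        refine (Set.finite_Icc 0 J).subset fun j hj => ⟨hj.1, ?_⟩
        by_contra h
        exact absurd (hJ j (not_le.1 h).le) (not_le.2 hj.2.2)
      · exact Set.finite_empty.subset fun j hj => hy hj.2.1
    refine ((ball_finite R).union ((List.finite_toSet its).biUnion h1)).subset fun x hx => ?_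
    rcases hR' x (hlow x hx.1) with h | h | ⟨it, hit, y, j, h2, h3, h4, h5, h6⟩
    · exact absurd h hx.2
    · exact Or.inl h
    · refine Or.inr ?_
      simp only [Set.mem_iUnion]
      refine ⟨it, hit, y, h3, j, ⟨h2, h5, ?_⟩, h4.symm⟩
      have := hx.1
      rw [← h4]
      omega
  obtain ⟨x, hx1, hx2⟩ : ∃ x, u x - b x = m ∧ ∀ y, u y - b y = m → ρ x ≤ ρ y := by
    by_cases hG : ∃ x, u x - b x = m ∧ G x
    · obtain ⟨x1, h1, h2⟩ := hwf (C + m) {x | u x - b x = m ∧ G x}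
        (fun x hx => ⟨hx.2, hlow x hx.1⟩) hG
      obtain ⟨x, h3, h4⟩ := Set.exists_min_image _ ρ (hfin.insert x1) (Set.insert_nonempty _ _)
      refine ⟨x, ?_, fun y hy => ?_⟩
      · rcases h3 with rfl | h3
        · exact h1.1
        · exact h3.1
      · by_cases h5 : G y
        · exact (h4 x1 (Set.mem_insert _ _)).trans (h2 y ⟨hy, h5⟩)
        · exact h4 y (Set.mem_insert_of_mem _ ⟨hy, h5⟩)
    · push Not at hG
      obtain ⟨x, h3, h4⟩ := Set.exists_min_image _ ρ hfin ⟨x0, hm.symm, hG x0 hm.symm⟩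
      exact ⟨x, h3.1, fun y hy => h4 y ⟨hy, hG y hy⟩⟩
  rcases lt_or_ge R0 (n1 x) with h | h
  · have h1 := sub_contra (g := u) (hsub x h) (fun i => by rw [hx1]; exact hm1 _)
      fun i h' => hx2 _ (h'.trans hx1)
    have := hu x
    omega
  · have h1 : 4 - lap b x ≤ n0 := hn0 ⟨x, h, rfl⟩
    have h2 := hu' x h
    have h3 : lap b x ≤ lap u x := Finset.sum_le_sum fun i _ => by
      have := hm1 (x + e i)
      omega
    have h4 := hc.nonneg x
    omega

end Pool.Agent.Sand
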