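import Pool.Agent.Lib.MP_215a10_lc.Dec.Basic

/-! The closure of facts and its finiteness when there is no robustness certificate. -/

set_option autoImplicit false

namespace Pool.Agent.Sand

open Classical

structure All : Prop where
  vfind : vfind_stmt
  spgrid : spgrid_stmt
  smallt : smallt_stmt
  clmove : clmove_stmt
  breaks : breaks_stmt
  budget : budget_stmt
  finphase : finphase_stmt
  triA : triA_stmt
  triB : triB_stmt
  wire : wire_stmt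
  wireU : wireU_stmt
  cyl : cyl_stmt
  tentU : tentU_stmt
  tentP : tentP_stmt
  psi : psi_stmt
  descent : descent_stmt
  cycramp : cycramp_stmt
  stepramp : stepramp_stmt
  rampM : rampM_stmt
  dvof : dvof_stmt
  lowfin : lowfin_stmt
  lowband : lowband_stmt
  ystar : ystar_stmt
  enter : enter_stmt
  kmax : kmax_stmt
  kmax0 : kmax0_stmt
  kmaxC : kmaxC_stmt
  rcertA : rcertA_stmt
  rcertB : rcertB_stmt
  pumpA : pumpA_stmt
  pumpB : pumpB_stmt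
  poly0 : poly0_stmt
  poly : poly_stmt
  edges : edges_stmt

namespace Loc

lemma dv_copy (hd : dvof_stmt) {c : V → ℤ} {N : ℤ} {X : Ctx} {T : V} {g : V → ℤ}
    (h : Dv c N X T g) (j a : ℤ) : Dv c N X (j • T) (fun x => g x + a) := by
  obtain ⟨h1, h2, h3, h4⟩ := h.props
  refine hd c N X [(T, fun _ => g)] _ _ (by simpa [Dv] using h) (by fun_prop)
    (by rw [dot_smul, h2, mul_zero]) fun s => ⟨h3.add_const a, fun x => ?_, ?_⟩
  · have := (iter_eqv (Y := Set.univ) (g := g) (z := T) (a := 0) (by simp)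
      (by simpa using h4) j x trivial).2
    simpa using this
  · refine Or.inr (Or.inr (Or.inr (Or.inr fun R => ⟨fun x => g x + a, ?_, fun _ _ => rfl⟩)))
    exact ⟨⟨0, T, fun _ => g⟩, Or.inr ⟨by simp, by simp⟩, ⟨j, rfl⟩, 0, 0, a, by simp⟩

lemma dv_weak (hd : dvof_stmt) {c : V → ℤ} {N : ℤ} {X : Ctx} {T : V} {g : V → ℤ}
    (h : Dv c N X T g) (j : ℤ) : Dv c N X (j • T) g := by simpa using dv_copy hd h j 0

lemma dv_lim (hd : dvof_stmt) {c : V → ℤ} {N : ℤ} {X : Ctx} {T : V} {g : V → ℤ}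
    (h : Dv c N X T g) : Dv c N X 0 g := by simpa using dv_weak hd h 0

lemma dv_addc (hd : dvof_stmt) {c : V → ℤ} {N : ℤ} {X : Ctx} {T : V} {g : V → ℤ}
    (h : Dv c N X T g) (a : ℤ) : Dv c N X T (fun x => g x + a) := by
  simpa using dv_copy hd h 1 a

lemma dv_hyp (hd : dvof_stmt) {c : V → ℤ} {N : ℤ} {X : Ctx} {g : V → ℤ}
    (h : (⟨0, 0, fun _ => g⟩ : Item) ∈ X.Y) (h1 : AM g) (h3 : Stable c g) : Dv c N X 0 g := by
  refine hd c N X [] _ _ (by simp) (by fun_prop) (by simp) fun s => ⟨h3, by simp, ?_⟩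
  refine Or.inr (Or.inr (Or.inr (Or.inr fun R => ⟨g, ?_, fun _ _ => rfl⟩)))
  exact ⟨_, Or.inl h, ⟨0, by simp⟩, 0, 0, 0, by simp⟩

lemma dv_zero (hd : dvof_stmt) {c : V → ℤ} {N : ℤ} (hc : IsBG c N) (T : V) :
    Dv c N ctx0 T (fun _ => 0) :=
  hd c N ctx0 [] _ _ (by simp) (by fun_prop) (by simp [ctx0]) fun _ =>
    ⟨stable_const hc 0, by simp, Or.inl ⟨trivial, 0, by simp⟩⟩

lemma dv_min (hd : dvof_stmt) {c : V → ℤ} {N : ℤ} {X : Ctx} {T : V} {g h : V → ℤ}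
    (hg : Dv c N X T g) (hh : Dv c N X T h) : Dv c N X T (fun x => min (g x) (h x)) := by
  obtain ⟨h1, h2, h3, h4⟩ := hg.props
  obtain ⟨k1, -, k3, k4⟩ := hh.props
  refine hd c N X [(T, fun _ => g), (T, fun _ => h)] _ _ (by simpa using ⟨hg, hh⟩) (by fun_prop)
    h2 fun s => ⟨h3.min k3, fun x => by simp only [h4, k4], Or.inr (Or.inl ⟨g, h, ?_, ?_, fun _ => rfl⟩)⟩
  · exact ⟨⟨0, T, fun _ => g⟩, Or.inr ⟨by simp, by simp⟩, ⟨1, by simp⟩, 0, 0, 0, by simp⟩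
  · exact ⟨⟨0, T, fun _ => h⟩, Or.inr ⟨by simp, by simp⟩, ⟨1, by simp⟩, 0, 0, 0, by simp⟩

lemma near_le {p : Q2} {g : V → ℤ} (h : Near p g) : ∃ C : ℚ, ∀ x, (g x : ℚ) ≤ -qd p x + C := by
  obtain ⟨C, hC⟩ := h
  exact ⟨C, fun x => by have := (abs_le.1 (hC x)).2; linarith⟩

lemma hull_of {c : V → ℤ} {N : ℤ} {X : Ctx} {T : V} {g : V → ℤ} {p : Q2}
    (h : Dv c N X T g) (hn : Near p g) : Hull c N X T p := ⟨g, h, near_le hn⟩

lemma hull_weak (hd : dvof_stmt) {c : V → ℤ} {N : ℤ} {X : Ctx} {T : V} {p : Q2}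
    (h : Hull c N X T p) (j : ℤ) : Hull c N X (j • T) p :=
  let ⟨g, h1, h2⟩ := h; ⟨g, dv_weak hd h1 j, h2⟩

lemma anc0 : AncOK ctx0 [] := ⟨fun _ => rfl, by simp⟩

lemma psx_of_ps {l T : V} {W : List V} {B H A : List Q2} (h : PS T W B H) : PSx l T W B H A :=
  fun ξ hξ => Or.inl (h ξ hξ)

lemma grid_box_finite {D : ℤ} (hD : 0 < D) (r : ℚ) : {p : Q2 | Grid D p ∧ Cls r p 0}.Finite := by
  refine ((ball_finite (2 * D * ⌈r⌉)).image (fun z : V => ((D : ℚ)⁻¹) • toQ z)).subset ?_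
  rintro p ⟨⟨z, hz⟩, h1, h2⟩
  have hD' : (0 : ℚ) < D := by exact_mod_cast hD
  refine ⟨z, ?_, ?_⟩
  · simp only [Prod.fst_zero, Prod.snd_zero, sub_zero] at h1 h2
    have e1 : (z.1 : ℚ) = D * p.1 := by have := congrArg Prod.fst hz; simpa [toQ] using this.symm
    have e2 : (z.2 : ℚ) = D * p.2 := by have := congrArg Prod.snd hz; simpa [toQ] using this.symm
    have hr := Int.le_ceil r
    have : ((n1 z : ℤ) : ℚ) ≤ ((2 * D * ⌈r⌉ : ℤ) : ℚ) := by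
      unfold n1; push_cast; rw [e1, e2, abs_mul, abs_mul, abs_of_pos hD']; nlinarith
    exact_mod_cast this
  · simp only; rw [← hz, smul_smul, inv_mul_cancel₀ hD'.ne', one_smul]

end Loc

open Loc

/-- the constants of the argument -/
structure Env where
  c : V → ℤ
  N0 : ℤ
  r1 : ℤ
  M : ℤ
  hc : IsBG c N0
  A : All
  r1pos : 1 ≤ r1
  Mpos : 0 < M
  htri : ∀ (φ : V → ℤ) (p : Q2) (ν : V), Stable c φ → Eqv (2 * DD N0 * N0) p φ →
    Free c 1 IFin φ → ν ≠ 0 → (∃ ζ, ζ ≠ 0 ∧ n1 ζ ≤ r1 ∧ StepF c φ ζ ∧ dot ζ ν < 0) ∨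
      ∃ W, SB c (2 * DD N0 * N0) φ ν (IHalf ν) W
  hramp : ∀ (φ : V → ℤ) (p : Q2) (ζ : V), Stable c φ → Eqv (2 * DD N0 * N0) p φ → ζ ≠ 0 →
    n1 ζ ≤ r1 → HasRamp c (2 * DD N0 * N0) φ p ζ →
    (∃ S, Stair c (2 * DD N0 * N0) φ p ζ (1 / (M : ℚ)) S) ∧ Cl N0 (p - (1 / (M : ℚ)) • toQ ζ) p
  nr : ¬ RCert c N0

lemma exists_env (A : All) {c : V → ℤ} {N0 : ℤ} (hc : IsBG c N0) (nr : ¬ RCert c N0) :
    ∃ E : Env, E.c = c ∧ E.N0 = N0 := by
  have hN : 0 < 2 * DD N0 * N0 := by have := DD_pos N0; have := hc.pos; positivity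
  have hdv : N0 ∣ 2 * DD N0 * N0 := Dvd.intro_left _ rfl
  obtain ⟨r, hr⟩ := A.triA c N0 _ hc hN hdv
  obtain ⟨t0, ht0, ht⟩ := A.smallt N0 (2 * DD N0 * N0) (max r 1) hN
  obtain ⟨M, hM, hMt, hM'⟩ := A.rampM c N0 _ _ (max r 1) t0 hc hN hN ht0
  refine ⟨⟨c, N0, max r 1, M, hc, A, le_max_right _ _, hM, ?_, ?_, nr⟩, rfl, rfl⟩
  · intro φ p ν h1 h2 h3 h4
    by_cases h5 : Hnu c φ ν
    · exact Or.inr (A.triB c N0 _ φ p ν hc hN hdv h1 h2 h4 h5)
    · rcases hr φ p ν h1 h2 h3 h4 h5 with ⟨ζ, k1, k2, k3⟩ | h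
      · exact Or.inl ⟨ζ, k1, k2.trans (le_max_left _ _), k3⟩
      · exact Or.inr h
  · intro φ p ζ h1 h2 h3 h4 h5
    exact ⟨hM' φ p ζ h1 h2.grid h2 h3 h4 h5, ht p ζ _ h2.grid h4 (by positivity) hMt⟩

namespace Env
variable (E : Env)

def D2 : ℤ := 2 * DD E.N0
def N1 : ℤ := 2 * DD E.N0 * E.N0
def t : ℚ := 1 / (E.M : ℚ)
def rc : ℚ := (E.N0 : ℚ) ^ 2 + 3
lemma D2pos : 0 < E.D2 := by unfold D2; have := DD_pos E.N0; omega
lemma N1pos : 0 < E.N1 := by unfold N1; have := DD_pos E.N0; have := E.hc.pos; positivity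
lemma N1dvd : E.N0 ∣ E.N1 := Dvd.intro_left _ rfl
lemma N1eq : E.D2 * E.N0 = E.N1 := rfl
lemma tpos : 0 < E.t := by unfold t; have := E.Mpos; positivity
lemma tle : E.t ≤ 1 := by
  unfold t; have : (1 : ℚ) ≤ E.M := by exact_mod_cast E.Mpos
  rw [div_le_one (by linarith)]; exact this

def F : Type := {z : Q2 × (V → ℤ) // Eqv E.N1 z.1 z.2 ∧ Stable E.c z.2 ∧ z.2 0 = 0}
variable {E} in
def sl (f : E.F) : Q2 := f.1.1
variable {E} in
def ph (f : E.F) : V → ℤ := f.1.2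
variable {E} in
def sh (f : E.F) (a : V) : E.F :=
  ⟨(sl f + toQ a, fun x => ph f x - dot a x), f.2.1.sub_dot a, f.2.2.1.sub_dot a, by
    simpa [ph] using f.2.2.2⟩
variable {E} in
def nrm {p : Q2} {φ : V → ℤ} (h1 : Eqv E.N1 p φ) (h2 : Stable E.c φ) : E.F :=
  ⟨(p, fun x => φ x + -φ 0), h1.add_const _, h2.add_const _, by simp⟩

def Valid (t : Tup E.F) : Prop :=
  ∀ (X : Ctx) (A : List Q2) (H : List E.F), AncOK X A →
    (∀ f, t.prem = some f → Dv E.c E.N0 X 0 (ph f)) → (∀ y ∈ H, Dv E.c E.N0 X 0 (ph y)) →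
    PSx X.l 0 t.W t.B (H.map sl) A → Dv E.c E.N0 X 0 (ph t.con)

def Lib : Set (Tup E.F) := {t | TupOK sl (E.M * E.N1) (E.r1 + 2) t ∧ E.Valid t}
def Init : Set E.F := {f | Dv E.c E.N0 ctx0 0 (ph f) ∧ Cls (E.rc + 3) (sl f) 0}
def Cf (f : E.F) : Prop := Clo sl E.Lib 0 [] E.Init f

lemma clo_dv {X : Ctx} {A : List Q2} {I : Set E.F} (hA : AncOK X A)
    (hI : ∀ f ∈ I, Dv E.c E.N0 X 0 (ph f)) {f : E.F} (h : Clo sl E.Lib X.l A I f) :
    Dv E.c E.N0 X 0 (ph f) := by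
  induction h with
  | init f hf => exact hI f hf
  | step t H ht _ _ hps ih1 ih2 => exact ht.2 X A H hA ih1 ih2 hps

lemma cf_dv {f : E.F} (h : E.Cf f) : Dv E.c E.N0 ctx0 0 (ph f) :=
  E.clo_dv (X := ctx0) anc0 (fun _ hf => hf.1) h

lemma near_ph (f : E.F) : Near (sl f) (ph f) := f.2.1.near E.N1pos

lemma fib_finite (p : Q2) : {f : E.F | sl f = p}.Finite := by
  have := E.A.finphase E.c 1 E.N1 p E.hc.nonneg one_pos E.N1pos
  refine Set.Finite.of_finite_image (f := ph) (this.subset ?_) ?_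
  · rintro _ ⟨f, hf, rfl⟩
    exact ⟨fun x => (stD_one _ _ _).2 (f.2.2.1 x), hf ▸ f.2.1, f.2.2.2⟩
  · intro f hf g hg h
    exact Subtype.ext (Prod.ext (hf.trans hg.symm) h)

lemma finite_of_sl {S : Set E.F} (h : (sl '' S).Finite) : S.Finite :=
  (h.biUnion fun p _ => E.fib_finite p).subset fun f hf => by
    simp only [Set.mem_iUnion]; exact ⟨sl f, ⟨f, hf, rfl⟩, rfl⟩

lemma grid_sl (f : E.F) : Grid (E.M * E.N1) (sl f) := f.2.1.grid.mul _

lemma init_finite : E.Init.Finite :=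
  E.finite_of_sl ((grid_box_finite (mul_pos E.Mpos E.N1pos) (E.rc + 3)).subset (by
    rintro _ ⟨f, hf, rfl⟩; exact ⟨E.grid_sl f, hf.2⟩))

lemma eqv_zero : Eqv E.N1 0 (fun _ => 0) := by intro x z; simp

lemma rc_pos : 0 < E.rc := by unfold rc; positivity

lemma zero_init : nrm E.eqv_zero (stable_const E.hc 0) ∈ E.Init := by
  refine ⟨?_, ?_⟩
  · simpa [nrm, ph] using dv_zero E.A.dvof E.hc 0
  · have := E.rc_pos
    constructor <;> simp [nrm, sl] <;> linarith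

theorem cf_finite : {f | E.Cf f}.Finite := by
  by_contra hinf
  have hinf' : (sl '' {f | E.Cf f}).Infinite := fun h => hinf (E.finite_of_sl h)
  rcases E.A.pumpA (E.M * E.N1) (sl '' {f | E.Cf f}) (mul_pos E.Mpos E.N1pos)
    (by rintro _ ⟨f, -, rfl⟩; exact E.grid_sl f) ⟨_, Clo.init _ E.zero_init, rfl⟩ hinf' with
    ⟨l, hl, H, hH, hps⟩ | ⟨l, hl, ⟨K, hK⟩, hβ⟩
  · refine E.nr (E.A.rcertA E.c E.N0 0 l H E.hc hl (by simp) ?_ hps)
    intro y hy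
    obtain ⟨f, hf, rfl⟩ := hH y hy
    exact hull_of (E.cf_dv hf) (E.near_ph f)
  · obtain ⟨l', hl', a1, a2, h1, h2, Y, hY, hY1, hY2⟩ := E.A.pumpB E.F sl sh E.Lib E.Init
      (E.M * E.N1) (E.r1 + 2) l (mul_pos E.Mpos E.N1pos) E.grid_sl (fun _ _ => rfl)
      (fun f a b => Subtype.ext (Prod.ext (by simp [sh, sl, toQ_add, add_assoc])
        (by funext x; simp [sh, ph, add_dot]; ring)))
      (fun f => Subtype.ext (Prod.ext (by simp [sh, sl]) (by funext x; simp [sh, ph])))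
      E.fib_finite (fun t ht => ht.1) E.init_finite hl
      ⟨K, fun f hf => hK _ ⟨f, hf, rfl⟩⟩
      (fun β => let ⟨_, ⟨f, hf, rfl⟩, h⟩ := hβ β; ⟨f, hf, h⟩)
    refine E.nr (E.A.rcertB E.c E.N0 l' (fun x => min (ph a1 x) (ph a2 x)) (Y.map ph) hl'
      (by simpa using hY) (dv_min E.A.dvof (E.cf_dv h1) (E.cf_dv h2)) ?_ ?_)
    · intro y hy
      obtain ⟨f, hf, rfl⟩ := List.mem_map.1 hy
      exact E.cf_dv (hY1 f hf)
    · intro y hy
      obtain ⟨f, hf, rfl⟩ := List.mem_map.1 hy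
      refine E.clo_dv (X := ⟨False, l', fun x => min (ph a1 x) (ph a2 x),
        (Y.map ph).map fun y => ⟨0, 0, fun _ => y⟩⟩) (A := [sl a1, sl a2]) ⟨fun h => absurd h hl', ?_⟩
        ?_ (hY2 f hf)
      · intro a ha
        simp only [List.mem_cons, List.not_mem_nil, or_false] at ha
        rcases ha with rfl | rfl
        · obtain ⟨C, hC⟩ := near_le (E.near_ph a1)
          exact ⟨C, fun x => le_trans (by push_cast; exact min_le_left _ _) (hC x)⟩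
        · obtain ⟨C, hC⟩ := near_le (E.near_ph a2)
          exact ⟨C, fun x => le_trans (by push_cast; exact min_le_right _ _) (hC x)⟩
      · intro g hg
        exact dv_hyp E.A.dvof (List.mem_map.2 ⟨ph g, List.mem_map.2 ⟨g, hg, rfl⟩, rfl⟩)
          (g.2.1.am E.N1pos) g.2.2.1

end Env

end Pool.Agent.Sand
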