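import Pool.Agent.Lib.MP_215a10_lc.Dec.Local1

/-! The closure rules for facts. -/

set_option autoImplicit false

namespace Pool.Agent.Sand

open Classical Loc

namespace Loc

lemma qd_decomp (n : V) (y : Q2) (ξ : V) :
    qd y ξ * dot n n = dot n ξ * qd y n + det n ξ * qd y (rot n) := by
  simp [qd, dot, det, rot]; ring

lemma ne_of_not_par0 {ξ : V} (h : ¬ Par 0 ξ) : ξ ≠ 0 := fun h' => h ⟨by simp, fun _ => h'⟩
lemma not_par0 {ξ : V} (h : ξ ≠ 0) : ¬ Par 0 ξ := fun h' => h (h'.2 rfl)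

lemma dot_ne_of_det {n ξ : V} (hn : n ≠ 0) (hξ : ξ ≠ 0) (h : det n ξ = 0) : dot n ξ ≠ 0 := by
  intro h'
  have := dot_self_smul n ξ
  rw [h, h', zero_smul, zero_smul, add_zero] at this
  rcases smul_eq_zero.1 this with h1 | h1
  · exact (dot_self_pos hn).ne' h1
  · exact hξ h1

lemma cls_trans {a b : ℚ} {p q r : Q2} (h : Cls a p q) (h' : Cls b q r) : Cls (a + b) p r :=
  ⟨by have := abs_sub_le p.1 q.1 r.1; linarith [h.1, h'.1],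
    by have := abs_sub_le p.2 q.2 r.2; linarith [h.2, h'.2]⟩
lemma cls_symm {a : ℚ} {p q : Q2} (h : Cls a p q) : Cls a q p :=
  ⟨by rw [abs_sub_comm]; exact h.1, by rw [abs_sub_comm]; exact h.2⟩
lemma cls_mono {a b : ℚ} {p q : Q2} (h : Cls a p q) (hab : a ≤ b) : Cls b p q :=
  ⟨h.1.trans hab, h.2.trans hab⟩
lemma cls_refl {a : ℚ} (ha : 0 ≤ a) (p : Q2) : Cls a p p := ⟨by simpa using ha, by simpa using ha⟩
lemma cls_step (p : Q2) {t r : ℚ} (ζ : V) (h : |t| * n1 ζ ≤ r) : Cls r (p - t • toQ ζ) p := by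
  unfold n1 at h; push_cast at h
  have := abs_nonneg t; have := abs_nonneg (ζ.1 : ℚ); have := abs_nonneg (ζ.2 : ℚ)
  constructor <;> simp [toQ, abs_mul] <;> nlinarith

lemma cls_of_u {n : V} (hn : n ≠ 0) {p y : Q2} {r : ℚ} (hp : qd p n = 0) (hy : qd y n = 0)
    (h : |qd p (rot n)| ≤ |qd y (rot n)|) (hr : Cls r y 0) : Cls r p 0 := by
  have hN : (0 : ℚ) < dot n n := by exact_mod_cast dot_self_pos hn
  have key : ∀ ξ, |qd p ξ| ≤ |qd y ξ| := by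
    intro ξ
    have h1 := qd_decomp n p ξ; have h2 := qd_decomp n y ξ
    rw [hp, mul_zero, zero_add] at h1; rw [hy, mul_zero, zero_add] at h2
    have h3 : |qd p ξ| * dot n n ≤ |qd y ξ| * dot n n := by
      rw [← abs_of_pos hN, ← abs_mul, ← abs_mul, h1, h2, abs_mul, abs_mul]
      exact mul_le_mul_of_nonneg_left h (abs_nonneg _)
    exact le_of_mul_le_mul_right h3 hN
  have h0 := key (1, 0); have h1 := key (0, 1)
  simp [qd] at h0 h1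
  exact ⟨by simpa using h0.trans (by simpa using hr.1), by simpa using h1.trans (by simpa using hr.2)⟩

lemma ps_line {n : V} (hn : n ≠ 0) {j : ℤ} (hj : j ≠ 0) {b y1 y2 : Q2} (hb : qd b n = 0)
    (h1 : qd y1 n = 0) (h2 : qd y2 n = 0)
    (h : (qd y1 (rot n) - qd b (rot n)) * (qd y2 (rot n) - qd b (rot n)) < 0) :
    PS (j • n) [] [b] [y1, y2] := by
  intro ξ hξ
  have hN : (0 : ℚ) < dot n n := by exact_mod_cast dot_self_pos hn
  have hd : (det n ξ : ℚ) ≠ 0 := by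
    intro h0
    have h0' : det n ξ = 0 := by exact_mod_cast h0
    exact hξ ⟨by rw [smul_det, h0', mul_zero], fun h' => absurd h' (smul_ne_zero hj hn)⟩
  have e0 := qd_decomp n b ξ; have e1 := qd_decomp n y1 ξ; have e2 := qd_decomp n y2 ξ
  rw [hb] at e0; rw [h1] at e1; rw [h2] at e2
  right
  by_contra hh
  push Not at hh
  have k1 := hh y1 (by simp) b (by simp); have k2 := hh y2 (by simp) b (by simp)
  have m1 : (det n ξ : ℚ) * (qd y1 (rot n) - qd b (rot n)) ≤ 0 := by nlinarith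
  have m2 : (det n ξ : ℚ) * (qd y2 (rot n) - qd b (rot n)) ≤ 0 := by nlinarith
  have m3 := mul_nonneg_of_nonpos_of_nonpos m1 m2
  have m4 : 0 < (det n ξ : ℚ) * det n ξ := mul_self_pos.2 hd
  nlinarith

lemma det_zero_of_perp {p : Q2} (hp : p ≠ 0) {n T : V} (h1 : qd p n = 0) (h2 : qd p T = 0) :
    det n T = 0 := by
  have k1 : p.1 * (det n T : ℚ) = 0 := by
    unfold qd at h1 h2; unfold det; push_cast; linear_combination T.2 * h1 - n.2 * h2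
  have k2 : p.2 * (det n T : ℚ) = 0 := by
    unfold qd at h1 h2; unfold det; push_cast; linear_combination n.1 * h2 - T.1 * h1
  by_contra h
  have h' : (det n T : ℚ) ≠ 0 := by exact_mod_cast h
  exact hp (Prod.ext ((mul_eq_zero.1 k1).resolve_right h') ((mul_eq_zero.1 k2).resolve_right h'))

lemma eq_zero_of_perp {n : V} (hn : n ≠ 0) {p : Q2} (h1 : qd p n = 0) (h2 : qd p (rot n) = 0) :
    p = 0 := by
  by_contra hp
  have := det_zero_of_perp hp h1 h2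
  rw [det_rot] at this; exact (dot_self_pos hn).ne' this

lemma Stair.pinned {c φ S : V → ℤ} {N : ℤ} {p : Q2} {ζ : V} {t : ℚ} (h : Stair c N φ p ζ t S) :
    Pinned c (p - t • toQ ζ) := let ⟨h1, ⟨_, h2, h3⟩, _⟩ := h; ⟨S, h1, h3.near h2⟩

lemma special_zero {N : ℤ} (hN : 0 < N) : Special N 0 :=
  ⟨e 0, e 2, by rw [n1_e]; nlinarith, by rw [n1_e]; nlinarith, by simp [det], ⟨0, by simp⟩,
    ⟨0, by simp⟩⟩

lemma eqv_inv {N : ℤ} {p : Q2} {g : V → ℤ} (h : Eqv N p g) {n : V} (hn : qd p n = 0) (m : ℤ)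
    (x : V) : g (x + (m * N) • n) = g x := by
  have := h x (m • n)
  rw [smul_smul, mul_comm N m, qd_smul, hn] at this
  exact_mod_cast (by simpa using this : (g (x + (m * N) • n) : ℚ) = g x)

end Loc

namespace Env
variable (E : Env)

def InF (p : Q2) (φ : V → ℤ) : Prop := ∃ (h1 : Eqv E.N1 p φ) (h2 : Stable E.c φ), E.Cf (nrm h1 h2)

lemma hs_finite : {y | Special E.N0 y ∧ ∃ φ, E.InF y φ}.Finite :=
  (E.cf_finite.image sl).subset (by rintro y ⟨-, φ, h1, h2, h⟩; exact ⟨_, h, rfl⟩)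

noncomputable def H : List Q2 := E.hs_finite.toFinset.toList

lemma mem_H {y : Q2} : y ∈ E.H ↔ Special E.N0 y ∧ ∃ φ, E.InF y φ := by simp [H]

lemma lift_list (L : List Q2) (hL : ∀ y ∈ L, y ∈ E.H) :
    ∃ Hf : List E.F, (∀ f ∈ Hf, E.Cf f) ∧ Hf.map sl = L := by
  induction L with
  | nil => exact ⟨[], by simp, rfl⟩
  | cons y L ih =>
    obtain ⟨Hf, h1, h2⟩ := ih fun z hz => hL z (by simp [hz])
    obtain ⟨-, φ, k1, k2, k⟩ := E.mem_H.1 (hL y (by simp))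
    refine ⟨nrm k1 k2 :: Hf, ?_, by simp [h2, sl, nrm]⟩
    intro f hf
    rcases List.mem_cons.1 hf with rfl | hf
    · exact k
    · exact h1 f hf

variable {E}

lemma dv_nrm {X : Ctx} {p : Q2} {φ : V → ℤ} {h1 : Eqv E.N1 p φ} {h2 : Stable E.c φ} :
    Dv E.c E.N0 X 0 (ph (nrm h1 h2)) ↔ Dv E.c E.N0 X 0 φ :=
  ⟨fun h => by simpa [ph, nrm] using dv_addc E.A.dvof h (φ 0), fun h => dv_addc E.A.dvof h _⟩

lemma hull_list {X : Ctx} {Hf : List E.F} (h : ∀ y ∈ Hf, Dv E.c E.N0 X 0 (ph y)) :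
    ∀ y ∈ Hf.map sl, Hull E.c E.N0 X 0 y := by
  intro y hy
  obtain ⟨f, hf, rfl⟩ := List.mem_map.1 hy
  exact hull_of (h f hf) (E.near_ph f)

lemma step {t : Tup E.F} (h1 : TupOK sl (E.M * E.N1) (E.r1 + 2) t) (h2 : E.Valid t)
    (h3 : ∀ f, t.prem = some f → E.Cf f) {L : List Q2} (hL : ∀ y ∈ L, y ∈ E.H)
    (hps : PS 0 t.W t.B L) : E.Cf t.con := by
  obtain ⟨Hf, k1, rfl⟩ := E.lift_list L hL
  exact Clo.step t Hf ⟨h1, h2⟩ h3 k1 (psx_of_ps hps)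

lemma r2nn : (0 : ℚ) ≤ ((E.r1 + 2 : ℤ) : ℚ) := by have := E.r1pos; positivity
lemma r2two : (1 : ℚ) + 1 ≤ ((E.r1 + 2 : ℤ) : ℚ) := by
  have : (1 : ℚ) ≤ E.r1 := by exact_mod_cast E.r1pos
  push_cast; linarith

lemma cl_init {p : Q2} {φ : V → ℤ} (h : Dv E.c E.N0 ctx0 0 φ) (h1 : Eqv E.N1 p φ)
    (hp : Cls (E.rc + 3) p 0) : E.InF p φ :=
  ⟨h1, h.props.2.2.1, Clo.init _ ⟨dv_nrm.2 h, hp⟩⟩

lemma psi_props {I : Set V → Prop} (hI : TInv I) {p : Q2} {φ : V → ℤ} (h1 : Eqv E.N1 p φ)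
    (h2 : Stable E.c φ) : Eqv E.N1 p (Psi E.c 1 I φ) ∧ Stable E.c (Psi E.c 1 I φ) := by
  obtain ⟨k1, k2, -⟩ := E.A.psi E.c E.N0 E.N1 1 I p φ E.hc E.N1dvd one_pos hI
    (fun x => (stD_one _ _ _).2 (h2 x)) h1
  exact ⟨k2, fun x => (stD_one _ _ _).1 (k1 x)⟩

lemma cl_low {p : Q2} {φ : V → ℤ} (h : E.InF p φ) : E.InF p (Psi E.c 1 IFin φ) := by
  obtain ⟨h1, h2, h3⟩ := h
  obtain ⟨k1, k2⟩ := psi_props tinv_fin h1 h2
  refine ⟨k1, k2, step (t := ⟨some (nrm h1 h2), [e 0, e 1, e 2, e 3], [p], nrm k1 k2⟩)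
    ⟨?_, ?_, ?_, Or.inl (by simp [sl, nrm])⟩ ?_ (by rintro f ⟨⟩; exact h3) (L := []) (by simp) ?_⟩
  · intro w hw
    have := E.r1pos
    simp only [List.mem_cons, List.not_mem_nil, or_false] at hw
    rcases hw with rfl | rfl | rfl | rfl <;> rw [n1_e] <;> omega
  · intro b hb
    rw [List.mem_singleton.1 hb]
    exact ⟨h1.grid.mul _, cls_refl r2nn _⟩
  · rintro f ⟨⟩; exact cls_refl r2nn _
  · intro X A Hf _ hp _ _
    exact (dv_nrm (h1 := k1) (h2 := k2)).2 (E.A.lowfin E.c E.N0 E.N1 X φ p E.hc E.N1pos E.N1dvd h2 h1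
      (dv_nrm.1 (hp _ rfl)))
  · intro ξ hξ
    obtain ⟨i, hi⟩ := exists_e_pos (ne_of_not_par0 hξ)
    exact Or.inl ⟨e i, by fin_cases i <;> simp, hi⟩

lemma kfun {q : Q2} (hq : Pinned E.c q) : ∃ k, Budget E.c E.N0 k ∧
    (∀ q', Cl E.N0 q q' → ∃ g, KF k g ∧ AM g ∧ Near q' g) ∧
    ∀ q', Cl E.N0 q q' → Grid E.D2 q' → ∃ g, KF k g ∧ Eqv E.N1 q' g := by
  obtain ⟨k, h1, h2⟩ := E.A.budget E.c E.N0 q E.hc hq
  refine ⟨k, h1, fun q' h => ?_, fun q' h hg => ?_⟩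
  · obtain ⟨D, hD, hg⟩ := exists_grid q'
    obtain ⟨B, k1, k2⟩ := h2 q' D hD h hg
    have := mul_pos hD E.hc.pos
    exact ⟨_, kf_of_lift hD k2, (k1.ediv hD).am this, (k1.ediv hD).near this⟩
  · obtain ⟨B, k1, k2⟩ := h2 q' _ E.D2pos h hg
    exact ⟨_, kf_of_lift E.D2pos k2, k1.ediv E.D2pos⟩

lemma sp_grid {v : Q2} (h : Special E.N0 v) : Grid E.D2 v := (E.A.spgrid _ _ h).mul 2

def RampIn (E : Env) (φ : V → ℤ) (p : Q2) (ζ : V) : Prop :=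
  ζ ≠ 0 ∧ n1 ζ ≤ E.r1 ∧ HasRamp E.c E.N1 φ p ζ

lemma cl_pass {p : Q2} {φ : V → ℤ} (h : E.InF p φ) {Z : List V} (hZ : ∀ ζ ∈ Z, E.RampIn φ p ζ)
    {L : List Q2} (hL : ∀ y ∈ L, y ∈ E.H) (hps : PS 0 (Z.map fun ζ => -ζ) [p] L) {ζ1 : V}
    (h1 : ζ1 ∈ Z) {v : Q2} (hv : Special E.N0 v) (hcl : Cl E.N0 (p - E.t • toQ ζ1) v) :
    v ∈ E.H := by
  obtain ⟨e1, e2, e3⟩ := h
  have hS : ∀ ζ ∈ Z, (∃ S, Stair E.c E.N1 φ p ζ E.t S) ∧ Cl E.N0 (p - E.t • toQ ζ) p :=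
    fun ζ hζ => E.hramp φ p ζ e2 e1 (hZ ζ hζ).1 (hZ ζ hζ).2.1 (hZ ζ hζ).2.2
  obtain ⟨⟨S, hS1⟩, hcp⟩ := hS ζ1 h1
  obtain ⟨k, hk, k1, k2⟩ := kfun (Stair.pinned hS1)
  obtain ⟨g, g1, g2⟩ := k2 v hcl (sp_grid hv)
  obtain ⟨h, l1, l2, l3⟩ := k1 p hcp
  have hpv : Cls ((E.r1 + 2 : ℤ) : ℚ) p v :=
    cls_mono (cls_trans (hcp.cls E.hc.pos) (cls_symm (hcl.cls E.hc.pos))) r2two
  refine E.mem_H.2 ⟨hv, g, g2, g1.stable hk,
    step (t := ⟨some (nrm e1 e2), Z.map fun ζ => -ζ, [p], nrm g2 (g1.stable hk)⟩)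
    ⟨?_, ?_, ?_, Or.inr ⟨_, rfl, by simp [sl, nrm]⟩⟩ ?_ (by rintro f ⟨⟩; exact e3) hL hps⟩
  · intro w hw
    obtain ⟨ζ, hζ, rfl⟩ := List.mem_map.1 hw
    have := (hZ ζ hζ).2.1; rw [n1_neg]; omega
  · intro b hb
    rw [List.mem_singleton.1 hb]
    exact ⟨e1.grid.mul _, hpv⟩
  · rintro f ⟨⟩; exact hpv
  · intro X A Hf hA hp hH hpsx
    have hy := E.A.ystar E.c E.N0 E.N1 X 0 φ p E.t Z (Hf.map sl) A E.hc E.N1pos E.N1dvd (by simp) hA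
      E.tpos e2 e1 (dv_nrm.1 (hp _ rfl)) (by simp)
      (fun ζ hζ => ⟨(hZ ζ hζ).1, ⟨0, by simp⟩, (hS ζ hζ).1⟩) (hull_list hH) hpsx
    refine (dv_nrm (h1 := g2) (h2 := g1.stable hk)).2 (E.A.kmax E.c E.N0 X 0 k g [p] (Hf.map sl ++ Z.map fun ζ => p - E.t • toQ ζ) A
      E.hc (by simp) hA hk g1 (g2.am E.N1pos) (by simp) ?_ ?_ ?_)
    · intro b hb
      rw [List.mem_singleton.1 hb]
      exact ⟨h, l1, l2, l3, by simp⟩
    · intro y hy'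
      rcases List.mem_append.1 hy' with h' | h'
      · exact hull_list hH y h'
      · obtain ⟨ζ, hζ, rfl⟩ := List.mem_map.1 h'
        exact hy ζ hζ
    · intro ξ hξ
      rcases hpsx ξ hξ with (⟨w, hw, h'⟩ | ⟨y, hy', h'⟩) | h'
      · obtain ⟨ζ, hζ, rfl⟩ := List.mem_map.1 hw
        refine Or.inl (Or.inr ⟨_, List.mem_append_right _ (List.mem_map.2 ⟨ζ, hζ, rfl⟩), p,
          by simp, ?_⟩)
        rw [neg_dot] at h'
        have h'' : (dot ζ ξ : ℚ) < 0 := by exact_mod_cast (by omega : dot ζ ξ < 0)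
        rw [sub_qd, smul_qd, qd_toQ]; nlinarith [E.tpos]
      · exact Or.inl (Or.inr ⟨y, List.mem_append_left _ hy', h'⟩)
      · exact Or.inr h'

lemma pass_contra {p : Q2} {φ : V → ℤ} (h : E.InF p φ) {Z : List V}
    (hZ : ∀ ζ ∈ Z, E.RampIn φ p ζ) {L : List Q2} (hL : ∀ y ∈ L, y ∈ E.H)
    (hps : PS 0 (Z.map fun ζ => -ζ) [p] L) {ξ : V} (hξ : ξ ≠ 0) (hs : Sup E.H p ξ) : False := by
  rcases hps ξ (not_par0 hξ) with ⟨w, hw, h'⟩ | ⟨y, hy, b, hb, h'⟩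
  · obtain ⟨ζ, hζ, rfl⟩ := List.mem_map.1 hw
    obtain ⟨v, v1, v2, v3⟩ := E.A.vfind E.N0 (p - E.t • toQ ζ) ξ E.hc.pos
    have := hs v (cl_pass h hZ hL hps hζ v1 v2)
    rw [neg_dot] at h'
    have h'' : (dot ζ ξ : ℚ) < 0 := by exact_mod_cast (by omega : dot ζ ξ < 0)
    rw [sub_qd, smul_qd, qd_toQ] at v3; nlinarith [E.tpos]
  · rw [List.mem_singleton.1 hb] at h'
    exact absurd (hs y (hL y hy)) (not_le.2 h')

lemma cl_enter {p : Q2} {φ : V → ℤ} (e1 : Eqv E.N1 p φ) (e2 : Stable E.c φ) {ζ : V}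
    (hζ : E.RampIn φ p ζ) {L : List Q2} (hL : ∀ y ∈ L, y ∈ E.H)
    (hps : PS 0 [] [p, p - E.t • toQ ζ] L) : E.InF p φ := by
  obtain ⟨⟨S, hS⟩, -⟩ := E.hramp φ p ζ e2 e1 hζ.1 hζ.2.1 hζ.2.2
  refine ⟨e1, e2, step (t := ⟨none, [], [p, p - E.t • toQ ζ], nrm e1 e2⟩)
    ⟨by simp, ?_, by simp, Or.inl (by simp [sl, nrm])⟩ ?_ (by simp) hL hps⟩
  · intro b hb
    simp only [List.mem_cons, List.not_mem_nil, or_false] at hb
    rcases hb with rfl | rfl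
    · exact ⟨e1.grid.mul _, cls_refl r2nn _⟩
    · constructor
      · obtain ⟨z, hz⟩ := e1.grid.mul E.M
        refine ⟨z - E.N1 • ζ, ?_⟩
        have hM : (E.M : ℚ) ≠ 0 := by exact_mod_cast E.Mpos.ne'
        rw [smul_sub, hz, sub_eq_add_neg z, toQ_add, toQ_neg, toQ_smul, smul_smul, ← sub_eq_add_neg]
        congr 2
        unfold t; push_cast; field_simp
      · refine cls_step p ζ ?_
        have h1 : ((n1 ζ : ℤ) : ℚ) ≤ E.r1 := by exact_mod_cast hζ.2.1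
        have h2 : (0 : ℚ) ≤ n1 ζ := by exact_mod_cast n1_nonneg ζ
        rw [abs_of_pos E.tpos]; push_cast; nlinarith [E.tle, E.tpos]
  · intro X A Hf hA _ hH hpsx
    exact (dv_nrm (h1 := e1) (h2 := e2)).2 (E.A.enter E.c E.N0 E.N1 X φ S p E.t ζ (Hf.map sl) A E.hc E.N1pos E.N1dvd hA
      E.tpos e2 e1 hζ.1 hS (hull_list hH) hpsx)

lemma spc_finite (q : Q2) : {v | Special E.N0 v ∧ Cl E.N0 q v}.Finite :=
  (grid_box_finite E.D2pos (1 + (|q.1| + |q.2|))).subset (by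
    rintro v ⟨h1, h2⟩
    refine ⟨sp_grid h1, cls_trans (h2.cls E.hc.pos) ⟨?_, ?_⟩⟩
    · have := abs_nonneg q.2; simp only [Prod.fst_zero, sub_zero]; linarith
    · have := abs_nonneg q.1; simp only [Prod.snd_zero, sub_zero]; linarith)

lemma cl_cross {q : Q2} (hq : Pinned E.c q) {L : List Q2} (hL : ∀ y ∈ L, y ∈ E.H)
    (hps : ∀ ξ, ξ ≠ 0 → ∃ y ∈ L, ∃ b, Special E.N0 b ∧ Cl E.N0 q b ∧ qd b ξ < qd y ξ)
    {v : Q2} (hv : Special E.N0 v) (hcl : Cl E.N0 q v) : v ∈ E.H := by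
  obtain ⟨k, hk, k1, k2⟩ := kfun hq
  obtain ⟨g, g1, g2⟩ := k2 v hcl (sp_grid hv)
  have hB : ∀ b, b ∈ (spc_finite (E := E) q).toFinset.toList ↔ Special E.N0 b ∧ Cl E.N0 q b := by
    simp
  refine E.mem_H.2 ⟨hv, g, g2, g1.stable hk,
    step (t := ⟨none, [], (spc_finite q).toFinset.toList, nrm g2 (g1.stable hk)⟩)
    ⟨by simp, ?_, by simp, Or.inl ((hB _).2 ⟨hv, hcl⟩)⟩ ?_ (by simp) hL ?_⟩
  · intro b hb
    obtain ⟨b1, b2⟩ := (hB b).1 hb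
    refine ⟨?_, cls_mono (cls_trans (b2.cls E.hc.pos) (cls_symm (hcl.cls E.hc.pos))) r2two⟩
    have := (sp_grid b1).mul (E.M * E.N0)
    rwa [mul_assoc, mul_comm E.N0] at this
  · intro X A Hf hA _ hH hpsx
    refine (dv_nrm (h1 := g2) (h2 := g1.stable hk)).2 (E.A.kmax E.c E.N0 X 0 k g _ _ A E.hc (by simp) hA hk g1 (g2.am E.N1pos)
      (by simp) ?_ (hull_list hH) hpsx)
    intro b hb
    obtain ⟨h, l1, l2, l3⟩ := k1 b ((hB b).1 hb).2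
    exact ⟨h, l1, l2, l3, by simp⟩
  · intro ξ hξ
    obtain ⟨y, hy, b, b1, b2, h⟩ := hps ξ (ne_of_not_par0 hξ)
    exact Or.inr ⟨y, hy, b, (hB b).2 ⟨b1, b2⟩, h⟩

end Env

end Pool.Agent.Sand
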