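import Pool.Agent.Lib.MP_215a10_lc.Dec.Local2

/-! Interior points, cylinder points and the cylinder lemma. -/

set_option autoImplicit false

namespace Pool.Agent.Sand

open Classical Loc

namespace Loc

lemma nn_pos {n : V} (hn : n ≠ 0) : (0 : ℚ) < dot n n := by exact_mod_cast dot_self_pos hn

lemma qd_par {n ξ : V} (h : det n ξ = 0) (y : Q2) : qd y ξ * dot n n = dot n ξ * qd y n := by
  rw [qd_decomp, h]; simp

lemma perp_par {n ξ : V} (hn : n ≠ 0) (h : det n ξ = 0) {y : Q2} (hy : qd y n = 0) :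
    qd y ξ = 0 := by
  have := qd_par h y
  rw [hy, mul_zero] at this
  exact (mul_eq_zero.1 this).resolve_right (nn_pos hn).ne'

lemma det_comm (a b : V) : det a b = -det b a := by simp [det]; ring
lemma rot_dot_rot (a b : V) : dot (rot a) (rot b) = dot a b := by simp [dot, rot]; ring

lemma band_par {ν ν0 : V} (hν : ν ≠ 0) (h : det ν ν0 = 0) {F : Set V} (hF : IBand ν F) :
    IBand ν0 F := by
  obtain ⟨C, hC⟩ := hF
  refine ⟨|dot ν ν0| * C, fun x hx => ?_⟩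
  have h1 : dot ν ν * det ν0 x = dot ν ν0 * det ν x := by
    unfold det at h ⊢; unfold dot; linear_combination (-(ν.1 * x.1) - ν.2 * x.2) * h
  have h2 := dot_self_pos hν
  have h3 : dot ν ν * |det ν0 x| ≤ |dot ν ν0| * C := by
    rw [← abs_of_pos h2, ← abs_mul, h1, abs_mul]
    exact mul_le_mul_of_nonneg_left (hC x hx) (abs_nonneg _)
  nlinarith [abs_nonneg (det ν0 x)]

lemma move_sign {N : ℤ} {q d : Q2} {t0 : ℚ} (ht0 : 0 < t0)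
    (h : ∀ t : ℚ, |t| ≤ t0 → Cl N q (q + t • d)) {ξ : V} (hd : qd d ξ ≠ 0) :
    ∃ q', Cl N q q' ∧ qd q ξ < qd q' ξ := by
  rcases lt_or_gt_of_ne hd with h1 | h1
  · refine ⟨_, h (-t0) (by rw [abs_neg, abs_of_pos ht0]), ?_⟩
    rw [add_qd, smul_qd]; nlinarith
  · refine ⟨_, h t0 (by rw [abs_of_pos ht0]), ?_⟩
    rw [add_qd, smul_qd]; nlinarith

/-- a point strictly inside a segment is exceeded by an endpoint in every transversal direction -/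
lemma seg_cov {p p' : Q2} {n : V} {μ s : ℚ} (hμ : 0 < μ) (hd : p' - p = μ • toQ (rot n))
    (h0 : 0 < s) (h1 : s < 1) {ξ : V} (hξ : det n ξ ≠ 0) :
    ∃ y ∈ [p, p'], qd (p + s • (p' - p)) ξ < qd y ξ := by
  have e1 : qd (p' - p) ξ = μ * det n ξ := by rw [hd, smul_qd, qd_toQ, det_eq_dot]
  have e2 : qd p' ξ = qd p ξ + μ * det n ξ := by rw [← e1, sub_qd]; ring
  have hξ' : (det n ξ : ℚ) ≠ 0 := by exact_mod_cast hξ
  rw [add_qd, smul_qd, e1]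
  rcases lt_or_gt_of_ne hξ' with h | h
  · exact ⟨p, by simp, by nlinarith [mul_pos h0 hμ]⟩
  · exact ⟨p', by simp, by rw [e2]; nlinarith [mul_pos (sub_pos.2 h1) hμ]⟩

lemma seg_n {p p' : Q2} {n : V} {μ : ℚ} (hd : p' - p = μ • toQ (rot n)) (s : ℚ) :
    qd (p + s • (p' - p)) n = qd p n := by
  rw [add_qd, smul_qd, hd, smul_qd, qd_toQ]; simp

end Loc

namespace Env
variable {E : Env}

lemma vfind (E : Env) (q : Q2) (ξ : V) :
    ∃ v, Special E.N0 v ∧ Cl E.N0 q v ∧ qd q ξ ≤ qd v ξ := E.A.vfind _ _ _ E.hc.pos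

lemma cross_contra {p p' : Q2} {n : V} {μ s : ℚ} (hp : p ∈ E.H) (hp' : p' ∈ E.H) (hμ : 0 < μ)
    (hd : p' - p = μ • toQ (rot n)) (hn : n ≠ 0) (hs : Sup E.H p n) (h0 : 0 < s) (h1 : s < 1)
    (hq : Pinned E.c (p + s • (p' - p))) {d : Q2} (hdn : qd d n ≠ 0)
    (hm : ∀ a, n1 a ≤ E.N0 ^ 2 → IsZ (qd (p + s • (p' - p)) a) → qd d a = 0) : False := by
  obtain ⟨t0, ht0, ht⟩ := E.A.clmove _ _ _ hm
  obtain ⟨q', k1, k2⟩ := move_sign ht0 ht hdn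
  obtain ⟨v, v1, v2, v3⟩ := E.vfind q' n
  have hv := cl_cross hq (L := [p, p']) (by simp [hp, hp']) ?_ v1 (k1.trans v2)
  · have := hs v hv
    rw [seg_n hd] at k2; linarith
  · intro ξ hξ
    by_cases h : det n ξ = 0
    · have hN := nn_pos hn
      have h2 : (dot n ξ : ℚ) ≠ 0 := by exact_mod_cast dot_ne_of_det hn hξ h
      have h3 : qd d (-ξ) ≠ 0 := by
        rw [qd_neg, neg_ne_zero]
        intro h4
        have := qd_par h d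
        rw [h4, zero_mul] at this
        exact mul_ne_zero h2 hdn this.symm
      obtain ⟨q'', l1, l2⟩ := move_sign ht0 ht h3
      obtain ⟨b, b1, b2, b3⟩ := E.vfind q'' (-ξ)
      refine ⟨p, by simp, b, b1, l1.trans b2, ?_⟩
      have m1 := qd_par h p
      have m2 := qd_par h (p + s • (p' - p))
      rw [seg_n hd, ← m1] at m2
      have m3 := mul_right_cancel₀ hN.ne' m2
      simp only [qd_neg] at l2 b3; linarith
    · obtain ⟨y, hy, k⟩ := seg_cov hμ hd h0 h1 h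
      obtain ⟨b, b1, b2, b3⟩ := E.vfind (p + s • (p' - p)) (-ξ)
      exact ⟨y, hy, b, b1, b2, by simp only [qd_neg] at b3; linarith⟩

lemma ramp_small2 {p : Q2} {φ : V → ℤ} (e1 : Eqv E.N1 p φ) {ζ ζ' : V} (hζ : ζ ≠ 0)
    (h : HasRamp E.c E.N1 φ p ζ) (h' : HasRamp E.c E.N1 φ p ζ') (hd : dot ζ' ζ' = dot ζ ζ)
    (hn : n1 ζ' = n1 ζ) : ∃ t : ℚ, 0 < t ∧ (∃ S, Stair E.c E.N1 φ p ζ t S) ∧
      (∃ S, Stair E.c E.N1 φ p ζ' t S) ∧ Cl E.N0 (p - t • toQ ζ) p ∧ Cl E.N0 (p - t • toQ ζ') p := by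
  obtain ⟨t0, ht0, ht⟩ := E.A.smallt E.N0 E.N1 (n1 ζ) E.N1pos
  obtain ⟨m0, h⟩ := h
  obtain ⟨m1, h'⟩ := h'
  obtain ⟨m2, hm2⟩ := exists_nat_gt (1 / t0)
  set m : ℤ := max (max m0 m1) (m2 + 1) with hm
  have k0 : 0 < m := lt_of_lt_of_le (by positivity) (le_max_right _ _)
  have k1 : 0 < E.N1 * dot ζ ζ := mul_pos E.N1pos (dot_self_pos hζ)
  have k2 : 0 < m * E.N1 * dot ζ ζ := by rw [mul_assoc]; positivity
  have k3 : (0 : ℚ) < ((m * E.N1 * dot ζ ζ : ℤ) : ℚ) := by exact_mod_cast k2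
  have k4 : 1 / ((m * E.N1 * dot ζ ζ : ℤ) : ℚ) ≤ t0 := by
    have l1 : (m2 : ℤ) ≤ m * E.N1 * dot ζ ζ := by
      have : (m2 : ℤ) + 1 ≤ m := le_max_right _ _
      rw [mul_assoc]; nlinarith
    have l2 : (m2 : ℚ) ≤ ((m * E.N1 * dot ζ ζ : ℤ) : ℚ) := by exact_mod_cast l1
    rw [div_lt_iff₀ ht0] at hm2
    rw [div_le_iff₀ k3]; nlinarith
  have k5 : 0 < 1 / ((m * E.N1 * dot ζ ζ : ℤ) : ℚ) := by positivity
  refine ⟨_, k5, h m ((le_max_left _ _).trans (le_max_left _ _)) k0, ?_,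
    ht p ζ _ e1.grid le_rfl k5.le k4, ht p ζ' _ e1.grid hn.le k5.le k4⟩
  have := h' m ((le_max_right _ _).trans (le_max_left _ _)) k0
  rwa [hd] at this

lemma ramp_small {p : Q2} {φ : V → ℤ} (e1 : Eqv E.N1 p φ) {ζ : V} (hζ : ζ ≠ 0)
    (h : HasRamp E.c E.N1 φ p ζ) :
    ∃ t : ℚ, 0 < t ∧ Pinned E.c (p - t • toQ ζ) ∧ Cl E.N0 (p - t • toQ ζ) p := by
  obtain ⟨t, h1, ⟨S, h2⟩, -, h3, -⟩ := ramp_small2 e1 hζ h h rfl rfl
  exact ⟨t, h1, Stair.pinned h2, h3⟩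

def IntP (E : Env) (p : Q2) : Prop :=
  ∀ q v, Pinned E.c q → Cl E.N0 q p → Special E.N0 v → Cl E.N0 q v → v ∈ E.H

lemma intP_contra {p : Q2} (hp : E.IntP p) {φ : V → ℤ} (e1 : Eqv E.N1 p φ) {ζ ξ : V}
    (h : HasRamp E.c E.N1 φ p ζ) (hs : Sup E.H p ξ) (hξ : dot ζ ξ < 0) : False := by
  obtain ⟨t, h1, h2, h3⟩ := ramp_small e1 (by rintro rfl; simp at hξ) h
  obtain ⟨v, v1, v2, v3⟩ := E.vfind (p - t • toQ ζ) ξ
  have := hs v (hp _ v h2 h3 v1 v2)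
  have h' : (dot ζ ξ : ℚ) < 0 := by exact_mod_cast hξ
  rw [sub_qd, smul_qd, qd_toQ] at v3; nlinarith

lemma mem_of_dv {q p v : Q2} {g : V → ℤ} (h : Dv E.c E.N0 ctx0 0 g) (h1 : Eqv E.N1 v g)
    (hv : Special E.N0 v) (hqp : Cl E.N0 q p) (hqv : Cl E.N0 q v) (hp : Cls E.rc p 0) :
    v ∈ E.H :=
  E.mem_H.2 ⟨hv, g, cl_init h h1 (cls_mono (cls_trans (cls_trans (hqv.cls E.hc.pos)
    (cls_symm (hqp.cls E.hc.pos))) hp) (by linarith))⟩

lemma intP_zero : E.IntP 0 := by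
  intro q v hq h0 hv hcl
  obtain ⟨k, hk, k1, k2⟩ := kfun hq
  obtain ⟨g, g1, g2⟩ := k2 v hcl (sp_grid hv)
  obtain ⟨h, l1, l2, l3⟩ := k1 0 h0
  exact mem_of_dv (E.A.kmax0 E.c E.N0 0 k g h E.hc hk g1 (g2.am E.N1pos) (by simp) l1 l2 l3
    (by simp)) g2 hv h0 hcl (cls_refl E.rc_pos.le _)

def CP (E : Env) (p : Q2) : Prop :=
  Special E.N0 p ∧ Cls E.rc p 0 ∧
    ∃ (φ : V → ℤ) (T : V), T ≠ 0 ∧ qd p T = 0 ∧ Eqv E.N1 p φ ∧ Dv E.c E.N0 ctx0 (E.N1 • T) φ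

def CP0 (E : Env) (p : Q2) : Prop := p = 0 ∨ E.CP p

lemma CP0.special {p : Q2} (h : E.CP0 p) : Special E.N0 p := by
  rcases h with rfl | h
  · exact special_zero E.hc.pos
  · exact h.1

lemma CP0.cls {p : Q2} (h : E.CP0 p) : Cls E.rc p 0 := by
  rcases h with rfl | h
  · exact cls_refl E.rc_pos.le _
  · exact h.2.1

lemma cp_dv {p : Q2} (h : E.CP0 p) {n : V} (hp : qd p n = 0) :
    ∃ (φ : V → ℤ) (m : ℤ), 0 < m ∧ Eqv E.N1 p φ ∧ Dv E.c E.N0 ctx0 ((m * E.N1) • n) φ := by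
  by_cases h0 : p = 0
  · subst h0; exact ⟨_, 1, one_pos, E.eqv_zero, dv_zero E.A.dvof E.hc _⟩
  obtain ⟨-, -, φ, T, h1, h2, h3, h4⟩ := h.resolve_left h0
  refine ⟨φ, dot T T, dot_self_pos h1, h3, ?_⟩
  have h5 := dot_self_smul T n
  rw [det_zero_of_perp h0 h2 hp, zero_smul, add_zero] at h5
  have := dv_weak E.A.dvof h4 (dot T n)
  rwa [smul_comm, ← h5, smul_smul, mul_comm] at this

lemma cp_mem {p : Q2} (h : E.CP0 p) : p ∈ E.H := by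
  obtain ⟨φ, m, -, h1, h2⟩ := cp_dv h (qd_zero p)
  exact E.mem_H.2 ⟨h.special, φ, cl_init (dv_lim E.A.dvof h2) h1 (cls_mono h.cls (by linarith))⟩

lemma zero_mem : (0 : Q2) ∈ E.H := cp_mem (Or.inl rfl)

lemma intP_between {n : V} (hn : n ≠ 0) {y1 y2 m : Q2} (h1 : E.CP0 y1) (h2 : E.CP0 y2)
    (n1 : qd y1 n = 0) (n2 : qd y2 n = 0) (nm : qd m n = 0) (l1 : qd y1 (rot n) < qd m (rot n))
    (l2 : qd m (rot n) < qd y2 (rot n)) : E.IntP m := by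
  intro q v hq h0 hv hcl
  obtain ⟨k, hk, k1, k2⟩ := kfun hq
  obtain ⟨g, g1, g2⟩ := k2 v hcl (sp_grid hv)
  obtain ⟨φ1, m1, a1, a2, a3⟩ := cp_dv h1 n1
  obtain ⟨φ2, m2, b1, b2, b3⟩ := cp_dv h2 n2
  have hj : m1 * m2 * E.N1 ≠ 0 := (mul_pos (mul_pos a1 b1) E.N1pos).ne'
  refine mem_of_dv (E.A.kmaxC E.c E.N0 ctx0 ((m1 * m2 * E.N1) • n) k g [m] [y1, y2] E.hc
    (smul_ne_zero hj hn) (by simp [ctx0]) hk g1 (g2.am E.N1pos) ?_ ?_
    (ps_line hn hj nm n1 n2 (by nlinarith))) g2 hv h0 hcl ?_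
  · intro b hb
    rw [List.mem_singleton.1 hb]
    exact ⟨by rw [qd_smul, nm, mul_zero], k1 m h0⟩
  · intro y hy
    simp only [List.mem_cons, List.not_mem_nil, or_false] at hy
    rcases hy with rfl | rfl
    · have := dv_weak E.A.dvof a3 m2
      rw [smul_smul, ← mul_assoc, mul_comm m2] at this
      exact hull_of this (a2.near E.N1pos)
    · have := dv_weak E.A.dvof b3 m1
      rw [smul_smul, ← mul_assoc] at this
      exact hull_of this (b2.near E.N1pos)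
  · rcases le_total 0 (qd m (rot n)) with h | h
    · exact cls_of_u hn nm n2 (by rw [abs_of_nonneg h]; exact l2.le.trans (le_abs_self _)) h2.cls
    · exact cls_of_u hn nm n1 (by rw [abs_of_nonpos h]; linarith [neg_abs_le (qd y1 (rot n))])
        h1.cls

/-- descent at level one -/
lemma desc1 {I : Set V → Prop} (hI : TInv I) {p : Q2} {φ : V → ℤ} (P : (V → ℤ) → Prop)
    (h1 : Eqv E.N1 p φ) (h2 : Stable E.c φ) (h3 : P φ)
    (hP : ∀ ψ, Eqv E.N1 p ψ → Stable E.c ψ → P ψ → P (Psi E.c 1 I ψ)) :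
    ∃ ψ, Eqv E.N1 p ψ ∧ Stable E.c ψ ∧ P ψ ∧ (Free E.c 1 I ψ ∨
      ∀ ζ, ζ ≠ 0 → (∀ F, I F → ∃ C : ℤ, ∀ x ∈ F, dot ζ x ≤ C) → HasRamp E.c E.N1 ψ p ζ) := by
  obtain ⟨j, hj⟩ := E.A.descent E.c E.N0 E.N1 1 I p φ E.hc E.N1pos E.N1dvd one_pos hI
    (fun x => (stD_one _ _ _).2 (h2 x)) h1
  have key : ∀ j : ℕ, Eqv E.N1 p ((Psi E.c 1 I)^[j] φ) ∧ Stable E.c ((Psi E.c 1 I)^[j] φ) ∧
      P ((Psi E.c 1 I)^[j] φ) := by
    intro j
    induction j with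
    | zero => exact ⟨h1, h2, h3⟩
    | succ j ih =>
      rw [Function.iterate_succ_apply']
      obtain ⟨k1, k2⟩ := psi_props hI ih.1 ih.2.1
      exact ⟨k1, k2, hP _ ih.1 ih.2.1 ih.2.2⟩
  obtain ⟨k1, k2, k3⟩ := key j
  refine ⟨_, k1, k2, k3, hj.imp id fun hc ζ hζ hb => ?_⟩
  simpa using E.A.cycramp E.c E.N0 E.N1 1 I p _ ζ E.hc E.N1pos E.N1dvd one_pos hI
    (fun x => (stD_one _ _ _).2 (k2 x)) (by simpa using k1) hc hζ hb

end Env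

end Pool.Agent.Sand
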