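import Pool.Agent.Lib.MP_215a10_lc.Dec.Local3

/-! The cylinder lemma at extremal cylinder points. -/

set_option autoImplicit false

namespace Pool.Agent.Sand

open Classical Loc

namespace Env
variable {E : Env}

/-- `p` is extremal among the cylinder points on the line orthogonal to `n` -/
def Ext (E : Env) (n : V) (s : ℤ) (p : Q2) : Prop :=
  ∀ y, E.CP0 y → qd y n = 0 → s * qd y (rot n) ≤ s * qd p (rot n)

lemma all_moves {n : V} {s : ℤ} (hs : s = 1 ∨ s = -1) {p : Q2} {t : ℚ} (ht : 0 < t)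
    (hcl : Cl E.N0 (p - t • toQ (-(s • rot n))) p)
    (ha : ¬ ∃ a, a ≠ 0 ∧ n1 a ≤ E.N0 ^ 2 ∧ det n a = 0) (d : Q2) :
    ∃ t0 : ℚ, 0 < t0 ∧ ∀ u : ℚ, |u| ≤ t0 →
      Cl E.N0 (p - t • toQ (-(s • rot n))) (p - t • toQ (-(s • rot n)) + u • d) := by
  refine E.A.clmove _ _ _ fun a h1 h2 => ?_
  have h3 := hcl.eq_of_isZ h1 h2
  rw [sub_qd, smul_qd, qd_toQ, neg_dot, smul_dot, ← det_eq_dot] at h3
  have h4 : t * ((-(s * det n a) : ℤ) : ℚ) = 0 := by linarith
  have h5 : -(s * det n a) = 0 := by exact_mod_cast (mul_eq_zero.1 h4).resolve_left ht.ne'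
  have h6 : det n a = 0 := by rcases hs with rfl | rfl <;> omega
  by_cases h : a = 0
  · simp [h]
  · exact absurd ⟨a, h, h1, h6⟩ ha

lemma q_n {n : V} (s : ℤ) {p : Q2} (hp : qd p n = 0) (t : ℚ) :
    qd (p - t • toQ (-(s • rot n))) n = 0 := by
  rw [sub_qd, smul_qd, qd_toQ, neg_dot, smul_dot, hp]; simp

lemma q_rot (n : V) (s : ℤ) (p : Q2) (t : ℚ) :
    qd (p - t • toQ (-(s • rot n))) (rot n) = qd p (rot n) + t * s * dot n n := by
  rw [sub_qd, smul_qd, qd_toQ, neg_dot, smul_dot, rot_dot_rot]; push_cast; ring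

/-- a special point on the line, farther out -/
lemma line_special {n a : V} (hn : n ≠ 0) (ha : a ≠ 0) (ha1 : n1 a ≤ E.N0 ^ 2) (ha2 : det n a = 0)
    (s : ℤ) {q : Q2} (hq : qd q n = 0) : ∃ v, Special E.N0 v ∧ Cl E.N0 q v ∧ qd v n = 0 ∧
      s * qd q (rot n) ≤ s * qd v (rot n) := by
  obtain ⟨v, v1, v2, v3⟩ := E.vfind q (s • rot n)
  rw [qd_smul, qd_smul] at v3
  have h1 := perp_par hn ha2 hq
  have h2 := v2.eq_of_isZ ha1 ⟨0, by simpa using h1⟩
  exact ⟨v, v1, v2, perp_par ha (by rw [det_comm, ha2, neg_zero]) (h2.trans h1), v3⟩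

theorem cy_zero {n : V} (hn : n ≠ 0) (hs0 : Sup E.H 0 n) {s : ℤ} (hs : s = 1 ∨ s = -1)
    (hx : E.Ext n s 0) : ZeroLink E.c (s • rot n) := by
  have hσ : s • rot n ≠ 0 := smul_ne_zero (by omega) (rot_ne hn)
  have hN := nn_pos hn
  have hs2 : (s : ℚ) * s = 1 := by rcases hs with rfl | rfl <;> simp
  obtain ⟨ψ, k1, k2, -, k3 | k3⟩ := desc1 (tinv_half (s • rot n)) (fun _ => True) E.eqv_zero
    (stable_const E.hc 0) trivial (fun _ _ _ _ => trivial)
  · exact (E.A.cyl E.c E.N0 E.N1 ψ E.hc E.N1pos E.N1dvd).2 _ k1 k3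
  exfalso
  obtain ⟨t, ht, hq, hcl⟩ := ramp_small k1 (neg_ne_zero.2 hσ) (k3 _ (neg_ne_zero.2 hσ) (by
    rintro F ⟨C, hC⟩; exact ⟨C, fun x hx => by have := hC x hx; rw [neg_dot]; omega⟩))
  by_cases ha : ∃ a, a ≠ 0 ∧ n1 a ≤ E.N0 ^ 2 ∧ det n a = 0
  · obtain ⟨a, a1, a2, a3⟩ := ha
    obtain ⟨v, v1, v2, v3, v4⟩ := line_special hn a1 a2 a3 s (q_n s (zero_qd n) t)
    obtain ⟨k, hk, -, l2⟩ := kfun hq
    obtain ⟨g, g1, g2⟩ := l2 v v2 (sp_grid v1)
    obtain ⟨h, h1, h2⟩ := l2 0 hcl (sp_grid (special_zero E.hc.pos))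
    have hd := E.A.kmax0 E.c E.N0 (E.N1 • n) k g h E.hc hk g1 (g2.am E.N1pos)
      (by simpa using eqv_inv g2 v3 1) h1 (h2.am E.N1pos) (h2.near E.N1pos)
      (by simpa using eqv_inv h2 (zero_qd n) 1)
    have hc : Cls E.rc v 0 := cls_mono (cls_trans (v2.cls E.hc.pos) (cls_symm (hcl.cls E.hc.pos)))
      (by unfold rc; nlinarith [sq_nonneg (E.N0 : ℚ)])
    have := hx v (Or.inr ⟨v1, hc, g, n, hn, v3, g2, hd⟩) v3
    rw [q_rot] at v4
    simp only [zero_qd, mul_zero, zero_add] at this v4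
    have e : (s : ℚ) * (t * s * dot n n) = t * dot n n := by linear_combination t * dot n n * hs2
    nlinarith [mul_pos ht hN]
  · obtain ⟨t0, ht0, hm⟩ := all_moves hs ht hcl ha (toQ n)
    obtain ⟨q', l1, l2⟩ := move_sign ht0 hm (ξ := n) (by rw [qd_toQ]; exact hN.ne')
    obtain ⟨v, v1, v2, v3⟩ := E.vfind q' n
    have := hs0 v (intP_zero _ v hq hcl v1 (l1.trans v2))
    rw [q_n s (zero_qd n)] at l2
    rw [zero_qd] at this; linarith

lemma ps_two {n : V} (hn : n ≠ 0) {s : ℤ} (hs : s = 1 ∨ s = -1) {q : Q2} {t u : ℚ} (hu : 0 < u)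
    (hut : u < t) (hq : qd q n = 0) (hq' : t * dot n n ≤ s * qd q (rot n)) :
    PS 0 [] [q + u • toQ (n - s • rot n), q + u • toQ (-n - s • rot n)] [0, q] := by
  intro ξ hξ
  have hξ0 := ne_of_not_par0 hξ
  have hN := nn_pos hn
  right
  by_contra hh
  push Not at hh
  have k1 := hh q (by simp) _ (List.mem_cons_self ..)
  have k2 := hh q (by simp) _ (List.mem_cons_of_mem _ (List.mem_cons_self ..))
  have k3 := hh 0 (by simp) _ (List.mem_cons_self ..)
  have k4 := hh 0 (by simp) _ (List.mem_cons_of_mem _ (List.mem_cons_self ..))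
  have e0 := qd_decomp n q ξ
  rw [hq, mul_zero, zero_add] at e0
  simp only [add_qd, smul_qd, qd_toQ, sub_eq_add_neg, add_dot, neg_dot, smul_dot, ← det_eq_dot,
    zero_qd] at k1 k2 k3 k4
  push_cast at k1 k2 k3 k4
  have hαβ : ¬ (dot n ξ = 0 ∧ det n ξ = 0) := fun h => dot_ne_of_det hn hξ0 h.2 h.1
  obtain ⟨α, hα⟩ : ∃ α : ℚ, α = ((dot n ξ : ℤ) : ℚ) := ⟨_, rfl⟩
  obtain ⟨β, hβ⟩ : ∃ β : ℚ, β = (s : ℚ) * ((det n ξ : ℤ) : ℚ) := ⟨_, rfl⟩
  rw [← hα, ← hβ] at k1 k2 k3 k4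
  have m1 : 0 ≤ α - β := by nlinarith
  have m2 : 0 ≤ -α - β := by nlinarith
  have hs2 : (s : ℚ) * s = 1 := by rcases hs with rfl | rfl <;> simp
  have m3 : β < 0 := by
    by_contra h
    have h1 : β = 0 := by linarith
    have h2 : α = 0 := by linarith
    have h3 : (det n ξ : ℚ) = 0 := by linear_combination s * h1 - det n ξ * hs2 - s * hβ
    exact hαβ ⟨by exact_mod_cast hα.symm.trans h2, by exact_mod_cast h3⟩
  have m4 : qd q ξ * dot n n = β * (s * qd q (rot n)) := by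
    rw [e0, hβ]; linear_combination -(det n ξ * qd q (rot n)) * hs2
  have m5 : 0 ≤ qd q ξ - u * β := by linarith
  have m6 : qd q ξ * dot n n ≤ β * (t * dot n n) := by rw [m4]; nlinarith
  have m7 : qd q ξ ≤ β * t := by
    by_contra h
    nlinarith
  nlinarith

theorem cy_pos {n : V} (hn : n ≠ 0) (hs0 : Sup E.H 0 n) {s : ℤ} (hs : s = 1 ∨ s = -1) {p : Q2}
    (hp : E.CP p) (hpn : qd p n = 0) (hpos : 0 < s * qd p (rot n)) (hx : E.Ext n s p) :
    ∃ φ, E.InF p φ ∧ Free E.c 1 (IBand n) φ := by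
  have hσ : s • rot n ≠ 0 := smul_ne_zero (by omega) (rot_ne hn)
  have hN := nn_pos hn
  have hs2 : (s : ℚ) * s = 1 := by rcases hs with rfl | rfl <;> simp
  obtain ⟨φ0, m, hm, e1, e2⟩ := cp_dv (Or.inr hp) hpn
  obtain ⟨ψ, k1, k2, k0, k3 | k3⟩ := desc1 (tinv_band n)
    (fun ψ => Dv E.c E.N0 ctx0 ((m * E.N1) • n) ψ) e1 e2.props.2.2.1 e2
    (fun ψ a1 a2 a3 => E.A.lowband E.c E.N0 E.N1 m ctx0 ψ p n E.hc E.N1pos E.N1dvd a2 a1 hn hm hpn
      (by simp [ctx0]) a3)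
  · exact ⟨ψ, cl_init (dv_lim E.A.dvof k0) k1 (cls_mono hp.2.1 (by linarith)), k3⟩
  exfalso
  have hj : m * E.N1 ≠ 0 := (mul_pos hm E.N1pos).ne'
  have hb : ∀ u : ℤ, (u = 1 ∨ u = -1) → HasRamp E.c E.N1 ψ p (u • rot n) := by
    intro u hu
    refine k3 _ (smul_ne_zero (by omega) (rot_ne hn)) ?_
    rintro F ⟨C, hC⟩
    refine ⟨C, fun x hx => ?_⟩
    have := abs_le.1 (hC x hx)
    rw [smul_dot, ← det_eq_dot]; rcases hu with rfl | rfl <;> omega
  obtain ⟨t, ht, hS1, hS2, -, hcl⟩ := ramp_small2 k1 hσ (hb s hs)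
    (ζ' := -(s • rot n)) (by simpa using hb (-s) (by omega)) (by rw [neg_dot, dot_neg, neg_neg])
    (n1_neg _)
  have hq : Pinned E.c (p - t • toQ (-(s • rot n))) := let ⟨_, h⟩ := hS2; Stair.pinned h
  have hH : Hull E.c E.N0 ctx0 ((m * E.N1) • n) (p - t • toQ (-(s • rot n))) := by
    refine E.A.ystar E.c E.N0 E.N1 ctx0 _ ψ p t [s • rot n, -(s • rot n)] [] [] E.hc E.N1pos E.N1dvd
      (by simp [ctx0]) anc0 ht k2 k1 k0 (by rw [qd_smul, hpn, mul_zero]) ?_ (by simp) ?_ _ (by simp)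
    · intro ζ hζ
      simp only [List.mem_cons, List.not_mem_nil, or_false] at hζ
      rcases hζ with rfl | rfl
      · refine ⟨hσ, ⟨-(s * m), ?_⟩, hS1⟩
        rw [rot_smul, rot_rot, smul_neg, smul_neg, smul_smul, ← neg_smul]
        congr 1; rcases hs with rfl | rfl <;> ring
      · refine ⟨neg_ne_zero.2 hσ, ⟨s * m, ?_⟩, hS2⟩
        rw [rot_neg, rot_smul, rot_rot, smul_neg s, neg_neg, smul_smul]
        congr 1; rcases hs with rfl | rfl <;> ring
    · intro ξ hξ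
      have hd : det n ξ ≠ 0 := fun h =>
        hξ ⟨by rw [smul_det, h, mul_zero], fun h' => absurd h' (smul_ne_zero hj hn)⟩
      refine Or.inl (Or.inl ?_)
      simp only [List.map_cons, List.map_nil, List.mem_cons, List.not_mem_nil, or_false,
        exists_eq_or_imp, exists_eq_left, neg_dot, smul_dot, ← det_eq_dot]
      rcases hs with rfl | rfl <;> omega
  have hH0 : Hull E.c E.N0 ctx0 ((m * E.N1) • n) 0 :=
    hull_of (dv_zero E.A.dvof E.hc _) (E.eqv_zero.near E.N1pos)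
  have hqn := q_n s hpn t
  have hqr := q_rot n s p t
  set q := p - t • toQ (-(s • rot n)) with hqdef
  have e : (s : ℚ) * (t * s * dot n n) = t * dot n n := by linear_combination t * dot n n * hs2
  have htN := mul_pos ht hN
  obtain ⟨k, hk, l1, l2⟩ := kfun hq
  by_cases ha : ∃ a, a ≠ 0 ∧ n1 a ≤ E.N0 ^ 2 ∧ det n a = 0
  · obtain ⟨a, a1, a2, a3⟩ := ha
    obtain ⟨v, v1, v2, v3, v4⟩ := line_special hn a1 a2 a3 s hqn
    obtain ⟨g, g1, g2⟩ := l2 v v2 (sp_grid v1)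
    obtain ⟨h, h1, h2⟩ := l2 p hcl (sp_grid hp.1)
    have hd := E.A.kmax E.c E.N0 ctx0 ((m * E.N1) • n) k g [p] [0, q] [] E.hc (by simp [ctx0]) anc0
      hk g1 (g2.am E.N1pos) (eqv_inv g2 v3 m) (by
        intro b hb
        rw [List.mem_singleton.1 hb]
        exact ⟨h, h1, h2.am E.N1pos, h2.near E.N1pos, eqv_inv h2 hpn m⟩)
      (List.forall_mem_cons.2 ⟨hH0, List.forall_mem_cons.2 ⟨hH, by simp⟩⟩) (psx_of_ps (ps_line hn hj hpn (zero_qd n) hqn (by
        rw [hqr, zero_qd]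
        have : (0 - qd p (rot n)) * (qd p (rot n) + t * s * dot n n - qd p (rot n)) =
          -((s * qd p (rot n)) * (t * dot n n)) := by ring
        rw [this]; exact neg_neg_of_pos (mul_pos hpos htN))))
    have v5 : s * qd p (rot n) < s * qd v (rot n) := by rw [hqr] at v4; linarith
    by_cases hc : Cls E.rc v 0
    · have := hx v (Or.inr ⟨v1, hc, g, m • n, smul_ne_zero hm.ne' hn,
        by rw [qd_smul, v3, mul_zero], g2, by rwa [smul_smul, mul_comm]⟩) v3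
      linarith
    · obtain ⟨l, l0, l3, l4, l5⟩ : ∃ l : V, l ≠ 0 ∧ n1 l ≤ E.N0 ^ 2 ∧ dot l n = 0 ∧
          0 < s * dot l (rot n) := by
        have b1 : dot (rot a) n = 0 := by rw [← det_eq_dot, det_comm, a3, neg_zero]
        have b2 : dot n a ≠ 0 := dot_ne_of_det hn a1 a3
        by_cases b3 : 0 < s * dot (rot a) (rot n)
        · exact ⟨rot a, rot_ne a1, by simpa using a2, b1, b3⟩
        · refine ⟨-rot a, neg_ne_zero.2 (rot_ne a1), by simpa using a2, by rw [neg_dot, b1, neg_zero],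
            ?_⟩
          rw [neg_dot]
          rw [rot_dot_rot, dot_comm] at b3 ⊢
          rcases hs with rfl | rfl <;> omega
      have l6 : (0 : ℚ) < s * dot l (rot n) := by exact_mod_cast l5
      have l7 : qd (toQ l) n = 0 := by rw [qd_toQ, l4]; simp
      refine E.nr (E.A.rcertA E.c E.N0 ((m * E.N1) • n) l [0, v] E.hc l0
        (by rw [dot_smul, l4, mul_zero]) (List.forall_mem_cons.2 ⟨hH0,
          List.forall_mem_cons.2 ⟨hull_of hd (g2.near E.N1pos), by simp⟩⟩)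
        (ps_line hn hj l7 (zero_qd n) v3 ?_))
      have l8 : s * (dot l (rot n) : ℚ) < s * qd v (rot n) := by
        by_contra hh
        refine hc (cls_of_u hn v3 l7 ?_ ?_)
        · rw [qd_toQ]
          rcases hs with rfl | rfl <;> push_cast at * <;> rw [abs_le] <;> constructor <;>
            linarith [le_abs_self (dot l (rot n) : ℚ), neg_abs_le (dot l (rot n) : ℚ)]
        · have c1 : ((n1 l : ℤ) : ℚ) ≤ ((E.N0 ^ 2 : ℤ) : ℚ) := by exact_mod_cast l3
          unfold n1 at c1; push_cast at c1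
          have := abs_nonneg (l.1 : ℚ); have := abs_nonneg (l.2 : ℚ)
          constructor <;> simp only [toQ, rc, Prod.fst_zero, Prod.snd_zero, sub_zero] <;> linarith
      rw [qd_toQ, zero_qd]
      have : (0 - (dot l (rot n) : ℚ)) * (qd v (rot n) - dot l (rot n)) =
          -((s * dot l (rot n)) * (s * qd v (rot n) - s * dot l (rot n))) := by
        linear_combination (dot l (rot n) * (qd v (rot n) - dot l (rot n))) * hs2
      rw [this]; exact neg_neg_of_pos (mul_pos l6 (sub_pos.2 l8))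
  · obtain ⟨t1, ht1, m1⟩ := all_moves hs ht hcl ha (toQ (n - s • rot n))
    obtain ⟨t2, ht2, m2⟩ := all_moves hs ht hcl ha (toQ (-n - s • rot n))
    set u := min (min t1 t2) (t / 2) with hu
    have u0 : 0 < u := lt_min (lt_min ht1 ht2) (by linarith)
    have u1 := m1 u (by rw [abs_of_pos u0]; exact (min_le_left _ _).trans (min_le_left _ _))
    have u2 := m2 u (by rw [abs_of_pos u0]; exact (min_le_left _ _).trans (min_le_right _ _))
    have u3 : u < t := lt_of_le_of_lt (min_le_right _ _) (by linarith)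
    obtain ⟨v, v1, v2, v3⟩ := E.vfind (q + u • toQ (n - s • rot n)) n
    obtain ⟨g, g1, g2⟩ := l2 v (u1.trans v2) (sp_grid v1)
    have hd := E.A.kmax E.c E.N0 ctx0 0 k g _ [0, q] [] E.hc (by simp) anc0
      hk g1 (g2.am E.N1pos) (by simp) (by
        intro b hb
        simp only [List.mem_cons, List.not_mem_nil, or_false] at hb
        rcases hb with rfl | rfl
        · obtain ⟨h, c1, c2, c3⟩ := l1 _ u1
          exact ⟨h, c1, c2, c3, by simp⟩
        · obtain ⟨h, c1, c2, c3⟩ := l1 _ u2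
          exact ⟨h, c1, c2, c3, by simp⟩)
      (by
        have c1 := hull_weak E.A.dvof hH 0
        have c2 := hull_weak E.A.dvof hH0 0
        rw [zero_smul] at c1 c2
        simp [c1, c2])
      (psx_of_ps (ps_two hn hs u0 u3 hqn (by rw [hqr]; linarith)))
    have := hs0 v (mem_of_dv hd g2 v1 hcl (u1.trans v2) hp.2.1)
    rw [add_qd, hqn, smul_qd, qd_toQ, sub_eq_add_neg, add_dot, neg_dot, smul_dot, rot_dot] at v3
    rw [zero_qd] at this
    push_cast at v3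
    nlinarith [mul_pos u0 hN]

theorem cy_data {n : V} (hn : n ≠ 0) (hs0 : Sup E.H 0 n) {s : ℤ} (hs : s = 1 ∨ s = -1) {p : Q2}
    (hp : E.CP0 p) (hpn : qd p n = 0) (hx : E.Ext n s p) :
    CylData E.c p n s ∧ (p ≠ 0 → ∃ φ, E.InF p φ ∧ Free E.c 1 (IBand n) φ) := by
  by_cases h0 : p = 0
  · subst h0
    obtain ⟨τ, ρ, h1, h2⟩ := cy_zero hn hs0 hs hx
    refine ⟨⟨τ, ρ, h1, fun C => (h2 C).mono fun x hx => ?_⟩, fun h => absurd rfl h⟩
    have := hx.1
    simp only [Set.mem_setOf_eq, smul_dot, ← det_eq_dot]; exact this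
  · have h1 := hx 0 (Or.inl rfl) (zero_qd n)
    rw [zero_qd, mul_zero] at h1
    have h2 : (0 : ℚ) < s * qd p (rot n) := lt_of_le_of_ne h1 fun h => h0 (eq_zero_of_perp hn hpn
      ((mul_eq_zero.1 h.symm).resolve_left (by rcases hs with rfl | rfl <;> simp)))
    obtain ⟨φ, k1, k2⟩ := cy_pos hn hs0 hs (hp.resolve_left h0) hpn h2 hx
    exact ⟨(E.A.cyl E.c E.N0 E.N1 φ E.hc E.N1pos E.N1dvd).1 p n s k1.1 hn k2 hpn hs h2,
      fun _ => ⟨φ, k1, k2⟩⟩

end Env

end Pool.Agent.Sand
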