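import Pool.Agent.Lib.MP_215a10_lc.Dec.Local4

/-! Wires and tents along the boundary of the polygon of slopes. -/

set_option autoImplicit false

namespace Pool.Agent.Sand

open Classical Loc

namespace Loc

lemma sb_fin {c φ : V → ℤ} {N : ℤ} {ν : V} {W : Set V} (h : SB c N φ ν (IHalf ν) W) :
    SB c N φ ν IFin W :=
  ⟨h.1, h.2.1, h.2.2.1, fun F h1 h2 => h.2.2.2 F h1 (h2.out ν).half⟩

lemma wire_neg {c : V → ℤ} {p : Q2} {ν : V} (h : HasWire c p (-ν)) : HasWire c p ν := by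
  obtain ⟨τ, ρ, h1, ε, C, h2, h3⟩ := h
  refine ⟨τ, ρ, h1, ε, C, h2, fun x => ?_⟩
  have := h3 x
  rwa [neg_det, Int.cast_neg, abs_neg] at this

lemma wire_of_wf {c : V → ℤ} {p : Q2} {ν : V} (h : HasWFWire c p ν) : HasWire c p ν :=
  let ⟨τ, ρ, h1, _⟩ := h; ⟨τ, ρ, h1⟩
lemma tent_of_wf {c : V → ℤ} {p q : Q2} {ν : V} (h : HasWFTent c p q ν) : HasTent c p q :=
  let ⟨τ, ρ, h1, _⟩ := h; ⟨τ, ρ, h1⟩

lemma fin_bd (ζ : V) (F : Set V) (h : IFin F) : ∃ C : ℤ, ∀ x ∈ F, dot ζ x ≤ C := by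
  obtain ⟨C, hC⟩ := (h.out (-ζ)).half
  exact ⟨C, fun x hx => by have := hC x hx; rw [neg_dot] at this; omega⟩

lemma out_bd (n : V) (F : Set V) (h : IOut n F) : ∃ C : ℤ, ∀ x ∈ F, dot (-n) x ≤ C := by
  obtain ⟨C, hC⟩ := h.half
  exact ⟨C, fun x hx => by have := hC x hx; rw [neg_dot]; omega⟩

lemma e_ne (i : Fin 4) : e i ≠ 0 := fun h => by have := n1_e i; rw [h] at this; simp at this

lemma seg_ps {p p' y : Q2} {n : V} {μ s : ℚ} (hμ : 0 < μ) (hd : p' - p = μ • toQ (rot n))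
    (hn : n ≠ 0) (h0 : 0 < s) (h1 : s < 1) (hy : qd y n < qd p n) {ξ : V} (hξ : ξ ≠ 0) :
    (∃ y' ∈ [p, p', y], qd (p + s • (p' - p)) ξ < qd y' ξ) ∨ (det n ξ = 0 ∧ 0 < dot n ξ) := by
  by_cases h : det n ξ = 0
  · rcases lt_or_gt_of_ne (dot_ne_of_det hn hξ h) with k | k
    · refine Or.inl ⟨y, by simp, ?_⟩
      have m1 := qd_par h y
      have m2 := qd_par h (p + s • (p' - p))
      rw [seg_n hd] at m2
      have k' : (dot n ξ : ℚ) < 0 := by exact_mod_cast k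
      have := nn_pos hn
      by_contra hh
      nlinarith
    · exact Or.inr ⟨h, k⟩
  · obtain ⟨y', h2, h3⟩ := seg_cov hμ hd h0 h1 h
    refine Or.inl ⟨y', ?_, h3⟩
    simp only [List.mem_cons, List.not_mem_nil, or_false] at h2 ⊢
    tauto

lemma dot_par {n ξ : V} (hn : n ≠ 0) (h : det n ξ = 0) (h' : 0 < dot n ξ) {ζ : V}
    (hζ : 0 < dot ζ n) : 0 < dot ζ ξ := by
  have := qd_par h (toQ ζ)
  rw [qd_toQ, qd_toQ] at this
  have h1 : dot ζ ξ * dot n n = dot n ξ * dot ζ n := by exact_mod_cast this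
  have h2 := dot_self_pos hn
  by_contra hh
  nlinarith [mul_pos h' hζ]

end Loc

namespace Env
variable {E : Env}

lemma ramp_of_step {p : Q2} {φ : V → ℤ} (e1 : Eqv E.N1 p φ) (e2 : Stable E.c φ) {ζ : V}
    (h1 : ζ ≠ 0) (h2 : n1 ζ ≤ E.r1) (h3 : StepF E.c φ ζ) : E.RampIn φ p ζ :=
  ⟨h1, h2, E.A.stepramp E.c E.N0 E.N1 φ p ζ E.hc E.N1pos E.N1dvd e2 e1 h1 h3⟩

lemma tri {p : Q2} {φ : V → ℤ} (e1 : Eqv E.N1 p φ) (e2 : Stable E.c φ) (e3 : Free E.c 1 IFin φ)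
    {ν : V} (hν : ν ≠ 0) : (∃ ζ, E.RampIn φ p ζ ∧ dot ζ ν < 0) ∨
      (HasWire E.c p ν ∧ (Free E.c 1 (IOut ν) φ → HasWFWire E.c p ν)) := by
  rcases E.htri φ p ν e2 e1 e3 hν with ⟨ζ, h1, h2, h3, h4⟩ | ⟨W, h⟩
  · exact Or.inl ⟨ζ, ramp_of_step e1 e2 h1 h2 h3, h4⟩
  · have := E.A.wire E.c E.N0 E.N1 φ p ν W E.hc E.N1pos E.N1dvd e2 e1 hν
    exact Or.inr ⟨this.1 (sb_fin h) e3, this.2 h⟩

lemma phase_of {p : Q2} (hp : Pinned E.c p) (hg : Grid E.D2 p) :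
    ∃ φ, Eqv E.N1 p φ ∧ Stable E.c φ := by
  obtain ⟨k, hk, -, l2⟩ := kfun hp
  obtain ⟨g, g1, g2⟩ := l2 p (Cl.refl _ _) hg
  exact ⟨g, g2, g1.stable hk⟩

lemma wire_intP {r : Q2} {n : V} (hn : n ≠ 0) (hr : E.IntP r) (hs : Sup E.H r n)
    (hg : Pinned E.c r → Special E.N0 r) : HasWFWire E.c r n := by
  by_cases hp : Pinned E.c r
  swap
  · exact E.A.wireU E.c E.N0 r n E.hc hp hn
  obtain ⟨φ, e1, e2⟩ := phase_of hp (sp_grid (hg hp))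
  obtain ⟨ψ, k1, k2, -, k3 | k3⟩ := desc1 (tinv_out n) (fun _ => True) e1 e2 trivial
    (fun _ _ _ _ => trivial)
  · rcases tri k1 k2 (k3.mono fun F h => h.out n) hn with ⟨ζ, h1, h2⟩ | h
    · exact (intP_contra hr k1 h1.2.2 hs h2).elim
    · exact h.2 k3
  · exact (intP_contra hr k1 (k3 _ (neg_ne_zero.2 hn) (out_bd n)) hs
      (by rw [neg_dot]; have := dot_self_pos hn; omega)).elim

/-- data of a segment of the boundary with a point strictly below it -/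
structure Seg (E : Env) (p p' : Q2) (n : V) : Prop where
  hp : p ∈ E.H
  hp' : p' ∈ E.H
  hd : ∃ μ : ℚ, 0 < μ ∧ p' - p = μ • toQ (rot n)
  hn : n ≠ 0
  hs : Sup E.H p n

lemma Seg.sup {p p' : Q2} {n : V} (h : E.Seg p p' n) (s : ℚ) : Sup E.H (p + s • (p' - p)) n := by
  obtain ⟨μ, -, hd⟩ := h.hd
  intro y hy; rw [seg_n hd]; exact h.hs y hy

lemma pass_seg {p p' y : Q2} {n : V} (h : E.Seg p p' n) (hy : y ∈ E.H) (hy' : qd y n < qd p n)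
    {s : ℚ} (h0 : 0 < s) (h1 : s < 1) {φ : V → ℤ} (hφ : E.InF (p + s • (p' - p)) φ) {ζ : V}
    (hζ : E.RampIn φ (p + s • (p' - p)) ζ) (hζn : dot ζ n < 0) : False := by
  obtain ⟨μ, hμ, hd⟩ := h.hd
  refine pass_contra hφ (Z := [ζ]) (by simpa using hζ) (L := [p, p', y])
    (by simp [h.hp, h.hp', hy]) ?_ h.hn (h.sup s)
  intro ξ hξ
  rcases seg_ps hμ hd h.hn h0 h1 hy' (ne_of_not_par0 hξ) with ⟨y', k1, k2⟩ | ⟨k1, k2⟩
  · exact Or.inr ⟨y', k1, _, by simp, k2⟩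
  · exact Or.inl ⟨-ζ, by simp, dot_par h.hn k1 k2 (by rw [neg_dot]; omega)⟩

lemma two_ramps {p p' y : Q2} {n : V} (h : E.Seg p p' n) (hy : y ∈ E.H) (hy' : qd y n < qd p n)
    {s : ℚ} (h0 : 0 < s) (h1 : s < 1) {φ : V → ℤ} (e1 : Eqv E.N1 (p + s • (p' - p)) φ)
    (e2 : Stable E.c φ) {ζ ζ' : V} (hζ : E.RampIn φ (p + s • (p' - p)) ζ) (hζn : dot ζ n < 0)
    (hζ' : E.RampIn φ (p + s • (p' - p)) ζ') (hζn' : 0 < dot ζ' n) : False := by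
  obtain ⟨μ, hμ, hd⟩ := h.hd
  refine pass_seg h hy hy' h0 h1 (cl_enter e1 e2 hζ' (L := [p, p', y])
    (by simp [h.hp, h.hp', hy]) ?_) hζ hζn
  intro ξ hξ
  rcases seg_ps hμ hd h.hn h0 h1 hy' (ne_of_not_par0 hξ) with ⟨y', k1, k2⟩ | ⟨k1, k2⟩
  · exact Or.inr ⟨y', k1, _, by simp, k2⟩
  · refine Or.inr ⟨p, by simp, _, List.mem_cons_of_mem _ (List.mem_cons_self ..), ?_⟩
    have m1 := qd_par k1 p
    have m2 := qd_par k1 (p + s • (p' - p))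
    rw [seg_n hd, ← m1] at m2
    have m3 := mul_right_cancel₀ (nn_pos h.hn).ne' m2
    have m4 : (0 : ℚ) < dot ζ' ξ := by exact_mod_cast dot_par h.hn k1 k2 hζn'
    rw [sub_qd, smul_qd, qd_toQ, m3]; nlinarith [E.tpos]

lemma all_ramps {p p' y : Q2} {n : V} (h : E.Seg p p' n) (hy : y ∈ E.H) (hy' : qd y n < qd p n)
    {s : ℚ} (h0 : 0 < s) (h1 : s < 1) {φ : V → ℤ} (e1 : Eqv E.N1 (p + s • (p' - p)) φ)
    (e2 : Stable E.c φ) (hr : ∀ ζ, ζ ≠ 0 → HasRamp E.c E.N1 φ (p + s • (p' - p)) ζ) : False := by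
  obtain ⟨i, hi⟩ := exists_e_pos h.hn
  obtain ⟨j, hj⟩ := exists_e_pos (neg_ne_zero.2 h.hn)
  exact two_ramps h hy hy' h0 h1 e1 e2 ⟨e_ne j, by rw [n1_e]; exact E.r1pos, hr _ (e_ne j)⟩
    (by rw [dot_neg] at hj; omega) ⟨e_ne i, by rw [n1_e]; exact E.r1pos, hr _ (e_ne i)⟩ hi

lemma wire_mid {p p' y : Q2} {n : V} (h : E.Seg p p' n) (hy : y ∈ E.H) (hy' : qd y n < qd p n)
    {s : ℚ} (h0 : 0 < s) (h1 : s < 1)
    (hg : Pinned E.c (p + s • (p' - p)) → Special E.N0 (p + s • (p' - p))) :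
    HasWire E.c (p + s • (p' - p)) n := by
  by_cases hp : Pinned E.c (p + s • (p' - p))
  swap
  · exact wire_of_wf (E.A.wireU E.c E.N0 _ n E.hc hp h.hn)
  obtain ⟨φ, e1, e2⟩ := phase_of hp (sp_grid (hg hp))
  obtain ⟨ψ, k1, k2, -, k3 | k3⟩ := desc1 tinv_fin (fun _ => True) e1 e2 trivial
    (fun _ _ _ _ => trivial)
  · rcases tri k1 k2 k3 h.hn with ⟨ζ, a1, a2⟩ | a
    · rcases tri k1 k2 k3 (neg_ne_zero.2 h.hn) with ⟨ζ', b1, b2⟩ | b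
      · exact (two_ramps h hy hy' h0 h1 k1 k2 a1 a2 b1 (by rw [dot_neg] at b2; omega)).elim
      · exact wire_neg b.1
    · exact a.1
  · exact (all_ramps h hy hy' h0 h1 k1 k2 fun ζ hζ => k3 ζ hζ (fin_bd ζ)).elim

lemma wire_cap {p p' y : Q2} {n : V} (h : E.Seg p p' n) (hy : y ∈ E.H) (hy' : qd y n < qd p n)
    {s : ℚ} (h0 : 0 < s) (h1 : s < 1) {φ : V → ℤ} (hφ : E.InF (p + s • (p' - p)) φ)
    (hf : Free E.c 1 (IBand n) φ) : HasWFWire E.c (p + s • (p' - p)) n := by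
  rcases tri hφ.1 hφ.2.1 (hf.mono fun F h => (h.out n).band) h.hn with ⟨ζ, a1, a2⟩ | a
  · exact (pass_seg h hy hy' h0 h1 hφ a1 a2).elim
  · exact a.2 (hf.mono fun F h => h.band)

/-- a pinned breakpoint inside an edge is special -/
lemma break_special {p p' : Q2} {n : V} (h : E.Seg p p' n) {s : ℚ} (h0 : 0 < s) (h1 : s < 1)
    {a : V} (ha : n1 a ≤ E.N0 ^ 2) (hd : qd (p' - p) a ≠ 0) (hz : IsZ (qd (p + s • (p' - p)) a))
    (hp : Pinned E.c (p + s • (p' - p))) : Special E.N0 (p + s • (p' - p)) := by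
  obtain ⟨μ, hμ, hd'⟩ := h.hd
  by_contra hs
  refine cross_contra h.hp h.hp' hμ hd' h.hn h.hs h0 h1 hp (d := toQ (rot a)) ?_ ?_
  · rw [hd', smul_qd, qd_toQ, ← det_eq_dot] at hd
    rw [qd_toQ, ← det_eq_dot, det_comm]
    intro h'
    refine hd ?_
    have : (det n a : ℚ) = 0 := by push_cast at h'; linarith
    rw [this, mul_zero]
  · intro a' h2 h3
    by_contra h4
    refine hs ⟨a, a', ha, h2, fun h5 => h4 ?_, hz, h3⟩
    rw [qd_toQ, ← det_eq_dot, h5]; simp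

/-- lifted descent at a pinned grid point -/
lemma descD {I : Set V → Prop} (hI : TInv I) {m : Q2} (hm : Pinned E.c m) (hg : Grid E.D2 m) :
    ∃ B, Eqv E.N0 ((E.D2 : ℚ) • m) B ∧ (Free E.c E.D2 I B ∨ ∃ φ, Eqv E.N1 m φ ∧ Stable E.c φ ∧
      ∀ ζ, ζ ≠ 0 → (∀ F, I F → ∃ C : ℤ, ∀ x ∈ F, dot ζ x ≤ C) → HasRamp E.c E.N1 φ m ζ) := by
  obtain ⟨k, hk, h2⟩ := E.A.budget E.c E.N0 m E.hc hm
  obtain ⟨B, b1, b2⟩ := h2 m _ E.D2pos (Cl.refl _ _) hg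
  have b3 := stD_of_lift E.D2pos hk b2
  obtain ⟨j, hj⟩ := E.A.descent E.c E.N0 E.N0 E.D2 I _ B E.hc E.hc.pos dvd_rfl E.D2pos hI b3 b1
  have key : ∀ j : ℕ, (∀ x, StD E.c E.D2 ((Psi E.c E.D2 I)^[j] B) x) ∧
      Eqv E.N0 ((E.D2 : ℚ) • m) ((Psi E.c E.D2 I)^[j] B) := by
    intro j
    induction j with
    | zero => exact ⟨b3, b1⟩
    | succ j ih =>
      rw [Function.iterate_succ_apply']
      obtain ⟨k1, k2, -⟩ := E.A.psi E.c E.N0 E.N0 E.D2 I _ _ E.hc dvd_rfl E.D2pos hI ih.1 ih.2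
      exact ⟨k1, k2⟩
  obtain ⟨k1, k2⟩ := key j
  refine ⟨_, k2, hj.imp id fun hc => ⟨_, k2.ediv E.D2pos, stable_of_stD E.D2pos k1,
    fun ζ hζ hb => ?_⟩⟩
  exact E.A.cycramp E.c E.N0 E.N0 E.D2 I m _ ζ E.hc E.hc.pos dvd_rfl E.D2pos hI k1 k2 hc hζ hb

/-- tents between consecutive breakpoints -/
lemma tent_seg {p p' : Q2} {n : V} (h : E.Seg p p' n) {s s' : ℚ} (h0 : 0 ≤ s) (hss : s < s')
    (h1 : s' ≤ 1) (c1 : Cl E.N0 (p + ((s + s') / 2) • (p' - p)) (p + s • (p' - p)))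
    (c2 : Cl E.N0 (p + ((s + s') / 2) • (p' - p)) (p + s' • (p' - p)))
    (hb : ∀ u, (u = s ∨ u = s') → Special E.N0 (p + u • (p' - p)) ∨
      ∃ a, n1 a ≤ E.N0 ^ 2 ∧ qd (p' - p) a ≠ 0 ∧ IsZ (qd (p + u • (p' - p)) a)) :
    ((∃ y ∈ E.H, qd y n < qd p n) → HasTent E.c (p + s • (p' - p)) (p + s' • (p' - p))) ∧
    (E.IntP (p + ((s + s') / 2) • (p' - p)) →
      HasWFTent E.c (p + s • (p' - p)) (p + s' • (p' - p)) n) := by
  obtain ⟨μ, hμ, hd⟩ := h.hd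
  have hN := nn_pos h.hn
  have q1 : ∀ u : ℚ, qd (p + ((s + s') / 2) • (p' - p) - (p + u • (p' - p))) n = 0 := fun u => by
    rw [sub_qd, seg_n hd, seg_n hd, sub_self]
  by_cases hp : Pinned E.c (p + ((s + s') / 2) • (p' - p))
  swap
  · have := E.A.tentU E.c E.N0 _ _ _ n E.hc hp c1 c2 h.hn (q1 s) (q1 s')
    exact ⟨fun _ => tent_of_wf this, fun _ => this⟩
  have m0 : 0 < (s + s') / 2 := by linarith
  have m1 : (s + s') / 2 < 1 := by linarith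
  have hz : ∀ a, n1 a ≤ E.N0 ^ 2 → IsZ (qd (p + ((s + s') / 2) • (p' - p)) a) →
      qd (p' - p) a = 0 := by
    intro a ha hz
    have := c1.eq_of_isZ ha hz
    rw [add_qd, add_qd, smul_qd, smul_qd] at this
    have h2 : (s' - s) * qd (p' - p) a = 0 := by linarith
    exact (mul_eq_zero.1 h2).resolve_left (by linarith)
  obtain ⟨a, a1, a2, a3⟩ : ∃ a, n1 a ≤ E.N0 ^ 2 ∧ IsZ (qd (p + ((s + s') / 2) • (p' - p)) a) ∧
      a ≠ 0 := by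
    by_contra hh
    push Not at hh
    exact cross_contra h.hp h.hp' hμ hd h.hn h.hs m0 m1 hp (d := toQ n)
      (by rw [qd_toQ]; exact hN.ne') fun a a1 a2 => by simp [hh a a1 a2]
  have a4 := hz a a1 a2
  have hd0 : p' - p ≠ 0 := by
    intro h'
    have : qd (p' - p) (rot n) = μ * dot n n := by rw [hd, smul_qd, qd_toQ, rot_dot_rot]
    rw [h', zero_qd] at this
    nlinarith [mul_pos hμ hN]
  have sp : ∀ u, (u = s ∨ u = s') → Special E.N0 (p + u • (p' - p)) := by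
    intro u hu
    rcases hb u hu with h' | ⟨a', b1, b2, b3⟩
    · exact h'
    refine ⟨a, a', a1, b1, fun h5 => b2 (perp_par a3 h5 a4), ?_, b3⟩
    rw [add_qd, smul_qd, a4] at a2 ⊢
    simpa using a2
  have hg : Grid E.D2 (p + ((s + s') / 2) • (p' - p)) := by
    obtain ⟨z, hz⟩ := E.A.spgrid _ _ (sp s (Or.inl rfl))
    obtain ⟨z', hz'⟩ := E.A.spgrid _ _ (sp s' (Or.inr rfl))
    refine ⟨z + z', ?_⟩
    rw [toQ_add, ← hz, ← hz']
    unfold D2; push_cast; module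
  have hne : p + s • (p' - p) ≠ p + ((s + s') / 2) • (p' - p) := by
    intro h'
    have h2 : (s - (s + s') / 2) • (p' - p) = 0 := by rw [sub_smul, add_left_cancel h', sub_self]
    rcases smul_eq_zero.1 h2 with h3 | h3
    · linarith
    · exact hd0 h3
  constructor
  · rintro ⟨y, hy, hy'⟩
    obtain ⟨B, b1, b2 | ⟨φ, b2, b3, b4⟩⟩ := descD tinv_fin hp hg
    · exact (E.A.tentP E.c E.N0 E.D2 B _ _ _ n E.hc E.D2pos b1 c1 c2 hne h.hn (q1 s) (q1 s')).1 b2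
    · exact (all_ramps h hy hy' m0 m1 b2 b3 fun ζ hζ => b4 ζ hζ (fin_bd ζ)).elim
  · intro hI
    obtain ⟨B, b1, b2 | ⟨φ, b2, b3, b4⟩⟩ := descD (tinv_out n) hp hg
    · exact (E.A.tentP E.c E.N0 E.D2 B _ _ _ n E.hc E.D2pos b1 c1 c2 hne h.hn (q1 s) (q1 s')).2 b2
    · exact (intP_contra hI b2 (b4 _ (neg_ne_zero.2 h.hn) (out_bd n)) (h.sup _)
        (by rw [neg_dot]; have := dot_self_pos h.hn; omega)).elim

end Env

end Pool.Agent.Sand
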