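import Pool.Agent.Lib.MP_215a10_lc.Dec.Local5

/-! Edge, vertex and origin data; completeness of the two certificates. -/

set_option autoImplicit false

namespace Pool.Agent.Sand

open Classical Loc

namespace Env
variable {E : Env}

lemma exists_ext (n : V) (s : ℤ) : ∃ p, E.CP0 p ∧ qd p n = 0 ∧ E.Ext n s p := by
  have hf : {y | E.CP0 y ∧ qd y n = 0}.Finite :=
    E.H.finite_toSet.subset fun y hy => cp_mem hy.1
  obtain ⟨p, hp, h⟩ := Set.exists_max_image _ (fun y => (s : ℚ) * qd y (rot n)) hf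
    ⟨0, Or.inl rfl, zero_qd n⟩
  exact ⟨p, hp.1, hp.2, fun y h1 h2 => h y ⟨h1, h2⟩⟩

theorem edge_data {H' : List Q2} (hY : ∀ y, E.CP0 y → y ∈ H') {p p' : Q2} {n : V}
    (he : IsEdge H' p p' n) (h : E.Seg p p' n)
    (hc : (∃ y ∈ E.H, qd y n < qd p n) ∨ (qd p n = 0 ∧ E.CP0 p ∧ E.CP0 p')) :
    EdgeData E.c E.CP p p' n := by
  obtain ⟨μ, hμ, hd⟩ := h.hd
  have hN := nn_pos h.hn
  obtain ⟨k, s, hk, s0, sk, smono, sbr, scomp, scl⟩ := E.A.breaks E.N0 p (p' - p)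
  have mono : ∀ i j, i < j → j ≤ k → s i < s j := by
    intro i j hij hj
    induction j with
    | zero => omega
    | succ j ih =>
      rcases Nat.lt_succ_iff_lt_or_eq.1 hij with h' | rfl
      · exact (ih h' (by omega)).trans (smono j (by omega))
      · exact smono i (by omega)
  have mono' : ∀ i j, i ≤ j → j ≤ k → s i ≤ s j := fun i j hij hj => by
    rcases hij.lt_or_eq with h' | rfl
    · exact (mono i j h' hj).le
    · exact le_rfl
  have pos : ∀ i, 0 < i → i ≤ k → 0 < s i := fun i h1 h2 => s0 ▸ mono 0 i h1 h2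
  have lt1 : ∀ i, i < k → s i < 1 := fun i h1 => sk ▸ mono i k h1 le_rfl
  have u1 : ∀ u : ℚ, qd (p + u • (p' - p)) (rot n) = qd p (rot n) + u * (μ * dot n n) := fun u => by
    rw [add_qd, smul_qd, hd, smul_qd, qd_toQ, rot_dot_rot]
  have hμN := mul_pos hμ hN
  have hd0 : p' - p ≠ 0 := by
    intro h'
    have := u1 1
    rw [h'] at this; simp only [smul_zero, add_zero] at this; linarith
  have hb : ∀ i ≤ k, Special E.N0 (p + s i • (p' - p)) ∨
      ∃ a, n1 a ≤ E.N0 ^ 2 ∧ qd (p' - p) a ≠ 0 ∧ IsZ (qd (p + s i • (p' - p)) a) := by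
    intro i hi
    rcases Nat.eq_zero_or_pos i with rfl | h1
    · left; rw [s0]; simpa using (E.mem_H.1 h.hp).1
    rcases hi.lt_or_eq with h2 | rfl
    · exact Or.inr (sbr i h1 h2)
    · left; rw [sk]; simpa using (E.mem_H.1 h.hp').1
  have tent := fun i (hi : i < k) => tent_seg h (s0 ▸ mono' 0 i (Nat.zero_le _) hi.le) (smono i hi)
    (sk ▸ mono' (i + 1) k hi le_rfl) (scl i hi).1 (scl i hi).2 (by
      rintro u (rfl | rfl)
      · exact hb i hi.le
      · exact hb (i + 1) hi)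
  have spec : ∀ i, 0 < i → i < k → Pinned E.c (p + s i • (p' - p)) →
      Special E.N0 (p + s i • (p' - p)) := fun i h1 h2 hp =>
    let ⟨_, a1, a2, a3⟩ := sbr i h1 h2
    break_special h (pos i h1 h2.le) (lt1 i h2) a1 a2 a3 hp
  have between : qd p n = 0 → ∀ a b u : ℚ, E.CP0 (p + a • (p' - p)) → E.CP0 (p + b • (p' - p)) →
      a < u → u < b → E.IntP (p + u • (p' - p)) := fun h0 a b u ha hb h1 h2 =>
    intP_between h.hn ha hb (by rw [seg_n hd, h0]) (by rw [seg_n hd, h0]) (by rw [seg_n hd, h0])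
      (by rw [u1, u1]; nlinarith) (by rw [u1, u1]; nlinarith)
  have deg : qd p n = 0 ∧ E.CP0 p ∧ E.CP0 p' → ∀ u : ℚ, 0 < u → u < 1 →
      E.IntP (p + u • (p' - p)) := fun hh u h1 h2 =>
    between hh.1 0 1 u (by simpa using hh.2.1) (by simpa using hh.2.2) h1 h2
  refine ⟨k, s, fun i => p + s i • (p' - p), hk, s0, sk, smono, fun _ => rfl, fun i hi => ?_,
    fun i h1 h2 => ?_, fun h0 => ?_⟩
  · rcases hc with hc | hc
    · exact (tent i hi).1 hc
    · refine tent_of_wf ((tent i hi).2 (deg hc _ ?_ ?_))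
      · linarith [mono' 0 i (Nat.zero_le _) hi.le, smono i hi]
      · linarith [mono' (i + 1) k hi le_rfl, smono i hi]
  · rcases hc with ⟨y, hy, hy'⟩ | hc
    · exact wire_mid h hy hy' (pos i h1 h2.le) (lt1 i h2) (spec i h1 h2)
    · exact wire_of_wf (wire_intP h.hn (deg hc _ (pos i h1 h2.le) (lt1 i h2)) (h.sup _)
        (spec i h1 h2))
  have hs0 : Sup E.H 0 n := fun y hy => by have := h.hs y hy; rw [zero_qd]; linarith
  have idx : ∀ y, E.CP0 y → qd y n = 0 → ∃ i ≤ k, y = p + s i • (p' - p) := by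
    intro y hy hyn
    obtain ⟨u, v0, v1, rfl⟩ := he.2.2.2.2.2 y (hY y hy) (hyn.trans h0.symm)
    obtain ⟨a, a', a1, a2, a3, a4, a5⟩ := hy.special
    have : ∃ a, n1 a ≤ E.N0 ^ 2 ∧ qd (p' - p) a ≠ 0 ∧ IsZ (qd (p + u • (p' - p)) a) := by
      by_cases b : qd (p' - p) a = 0
      · exact ⟨a', a2, fun b' => a3 (det_zero_of_perp hd0 b b'), a5⟩
      · exact ⟨a, a1, b, a4⟩
    obtain ⟨i, hi, rfl⟩ := scomp u v0 v1 this
    exact ⟨i, hi, rfl⟩
  obtain ⟨pL, l1, l2, l3⟩ := exists_ext (E := E) n 1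
  obtain ⟨pR, r1, r2, r3⟩ := exists_ext (E := E) n (-1)
  obtain ⟨iL, hiL, rfl⟩ := idx pL l1 l2
  obtain ⟨iR, hiR, rfl⟩ := idx pR r1 r2
  have cL := cy_data h.hn hs0 (Or.inl rfl) l1 l2 l3
  have cR := cy_data h.hn hs0 (Or.inr rfl) r1 r2 r3
  have zL := l3 0 (Or.inl rfl) (zero_qd n)
  have zR := r3 0 (Or.inl rfl) (zero_qd n)
  rw [zero_qd] at zL zR
  push_cast at zL zR
  have cap : ∀ i, 0 < i → i < k → (i = iL ∨ i = iR) → HasWFWire E.c (p + s i • (p' - p)) n := by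
    intro i h1 h2 hi
    by_cases hz : p + s i • (p' - p) = 0
    · rw [hz]; exact wire_intP h.hn intP_zero hs0 fun _ => special_zero E.hc.pos
    rcases hc with ⟨y, hy, hy'⟩ | hc
    · obtain ⟨φ, b1, b2⟩ : ∃ φ, E.InF (p + s i • (p' - p)) φ ∧ Free E.c 1 (IBand n) φ := by
        rcases hi with rfl | rfl
        · exact cL.2 hz
        · exact cR.2 hz
      exact wire_cap h hy hy' (pos i h1 h2.le) (lt1 i h2) b1 b2
    · exact wire_intP h.hn (deg hc _ (pos i h1 h2.le) (lt1 i h2)) (h.sup _) (spec i h1 h2)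
  refine ⟨iR, iL, ?_, hiL, fun i h1 h2 => ?_, fun i h1 h2 h3 h4 => ?_, cL.1, cR.1, by linarith,
    by linarith, l1, r1⟩
  · by_contra hh
    have := mono iL iR (by omega) hiR
    rw [u1] at zL zR; nlinarith
  · refine (tent i (by omega)).2 (between h0 _ _ _ r1 l1 ?_ ?_)
    · linarith [mono' iR i h1 (by omega), smono i (by omega)]
    · linarith [mono' (i + 1) iL h2 hiL, smono i (by omega)]
  · by_cases hi : i = iL ∨ i = iR
    · exact cap i h3 h4 hi
    · exact wire_intP h.hn (between h0 _ _ _ r1 l1 (mono iR i (by omega) h4.le)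
        (mono i iL (by omega) hiL)) (h.sup _) (spec i h3 h4)

lemma ext_vertex {H' : List Q2} (hY : ∀ y, E.CP0 y → y ∈ H') {p p' : Q2} {n ν : V}
    (he : IsEdge H' p p' n) (hν : ν ≠ 0) (hpν : qd p ν = 0) {s : ℤ}
    (hpos : 0 < s * qd p (rot ν)) : E.Ext ν s p := by
  intro y hy hyν
  by_contra hh
  push Not at hh
  obtain ⟨-, -, ⟨μ, hμ, hd⟩, hn, hs, hl⟩ := he
  have hN := nn_pos hν
  have key : ∀ ξ, qd p ξ * (s * qd y (rot ν)) = qd y ξ * (s * qd p (rot ν)) := by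
    intro ξ
    have a1 := qd_decomp ν p ξ
    have a2 := qd_decomp ν y ξ
    rw [hpν] at a1; rw [hyν] at a2
    refine mul_right_cancel₀ hN.ne' ?_
    linear_combination (s * qd y (rot ν)) * a1 - (s * qd p (rot ν)) * a2
  have b1 := hs 0 (hY 0 (Or.inl rfl))
  have b2 := hs y (hY y hy)
  have b3 := key n
  rw [zero_qd] at b1
  have b4 : qd p n = 0 := by nlinarith
  have b5 : qd y n = 0 := by
    rw [b4, zero_mul] at b3
    exact (mul_eq_zero.1 b3.symm).resolve_right hpos.ne'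
  obtain ⟨s0, c0, -, c1⟩ := hl 0 (hY 0 (Or.inl rfl)) (by rw [zero_qd, b4])
  obtain ⟨s1, d0, -, d1⟩ := hl y (hY y hy) (by rw [b5, b4])
  have f0 := congrArg (fun z => (s : ℚ) * qd z (rot ν)) c1
  have f1 := congrArg (fun z => (s : ℚ) * qd z (rot ν)) d1
  simp only [add_qd, smul_qd, zero_qd, mul_zero] at f0 f1
  rcases le_total 0 (s * qd (p' - p) (rot ν)) with g | g
  · nlinarith [mul_nonneg c0 g]
  · nlinarith [mul_nonneg d0 (neg_nonneg.2 g)]

theorem vertex_data {H' : List Q2} (hY : ∀ y, E.CP0 y → y ∈ H') (hH : ∀ y ∈ H', y ∈ E.H)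
    {p p' : Q2} {n : V} (he : IsEdge H' p p' n) (hs : Sup E.H p n) (hp : p ≠ 0) :
    VertexData E.c E.CP H' p := by
  obtain ⟨φ, f1, f2, f3⟩ : ∃ φ, E.InF p φ ∧ Free E.c 1 IFin φ ∧ ∀ ν, ν ≠ 0 → E.CP p → qd p ν = 0 →
      Sup E.H 0 ν → Free E.c 1 (IOut ν) φ := by
    by_cases hA : ∃ ν0, ν0 ≠ 0 ∧ E.CP p ∧ qd p ν0 = 0 ∧ Sup E.H 0 ν0
    · obtain ⟨ν0, a1, a2, a3, a4⟩ := hA
      obtain ⟨s, s1, s2⟩ : ∃ s : ℤ, (s = 1 ∨ s = -1) ∧ 0 < s * qd p (rot ν0) := by
        rcases lt_or_gt_of_ne (fun h => hp (eq_zero_of_perp a1 a3 h)) with h | h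
        · exact ⟨-1, Or.inr rfl, by push_cast; linarith⟩
        · exact ⟨1, Or.inl rfl, by push_cast; linarith⟩
      obtain ⟨φ, b1, b2⟩ := cy_pos a1 a4 s1 a2 a3 s2 (ext_vertex hY he a1 a3 s2)
      exact ⟨φ, b1, b2.mono fun F h => (h.out ν0).band, fun ν c1 _ c2 _ =>
        b2.mono fun F h => band_par c1 (det_zero_of_perp hp c2 a3) h.band⟩
    · obtain ⟨-, φ0, h0⟩ := E.mem_H.1 (hH p he.1)
      obtain ⟨ψ, k1, k2, k0, k3 | k3⟩ := desc1 tinv_fin (E.InF p) h0.1 h0.2.1 h0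
        (fun _ _ _ h => cl_low h)
      · exact ⟨ψ, k0, k3, fun ν c1 c2 c3 c4 => absurd ⟨ν, c1, c2, c3, c4⟩ hA⟩
      · refine (pass_contra k0 (Z := [e 0, e 1, e 2, e 3]) ?_ (L := []) (by simp) ?_
          he.2.2.2.1 hs).elim
        · intro ζ hζ
          have : ∃ i, ζ = e i := by
            simp only [List.mem_cons, List.not_mem_nil, or_false] at hζ
            rcases hζ with h | h | h | h <;> exact ⟨_, h⟩
          obtain ⟨i, rfl⟩ := this
          exact ⟨e_ne i, by rw [n1_e]; exact E.r1pos, k3 _ (e_ne i) (fin_bd _)⟩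
        · intro ξ hξ
          obtain ⟨i, hi⟩ := exists_e_pos (neg_ne_zero.2 (ne_of_not_par0 hξ))
          refine Or.inl ⟨-e i, List.mem_map.2 ⟨e i, by fin_cases i <;> simp, rfl⟩, ?_⟩
          rwa [dot_neg, ← neg_dot] at hi
  have hZ : {ζ | E.RampIn φ p ζ}.Finite := (ball_finite E.r1).subset fun ζ h => h.2.1
  have hZ' : ∀ ζ, ζ ∈ hZ.toFinset.toList ↔ E.RampIn φ p ζ := by simp
  by_cases hps : PS 0 (hZ.toFinset.toList.map fun ζ => -ζ) [p] E.H
  · exact (pass_contra f1 (fun ζ h => (hZ' ζ).1 h) (fun _ h => h) hps he.2.2.2.1 hs).elim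
  unfold PS Cov at hps
  push Not at hps
  obtain ⟨ν, n1', n2, n3⟩ := hps
  have hν := ne_of_not_par0 n1'
  have hsν : Sup E.H p ν := fun y hy => n3 y hy p (by simp)
  rcases tri f1.1 f1.2.1 f2 hν with ⟨ζ, a1, a2⟩ | a
  · have := n2 (-ζ) (List.mem_map.2 ⟨ζ, (hZ' ζ).2 a1, rfl⟩)
    rw [neg_dot] at this; omega
  · exact ⟨ν, hν, fun y hy => hsν y (hH y hy), a.1, fun c1 c2 => a.2 (f3 ν hν c1 c2
      fun y hy => by have := hsν y hy; rw [zero_qd]; linarith)⟩

lemma wire_zero {n : V} (hn : n ≠ 0) (hs : Sup E.H 0 n) : HasWFWire E.c 0 n :=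
  wire_intP hn intP_zero hs fun _ => special_zero E.hc.pos

theorem zero_data {H' : List Q2} (hY : ∀ y, E.CP0 y → y ∈ H') {p p' : Q2} {n n' : V}
    (he : IsEdge H' p 0 n) (he' : IsEdge H' 0 p' n') (hs : Sup E.H p n) (hs' : Sup E.H 0 n') :
    ZeroData E.c n n' := by
  obtain ⟨μ, hμ, hd⟩ := he.2.2.1
  have hn := he.2.2.2.1
  have hN := nn_pos hn
  have h0 : qd p n = 0 := by simpa using (seg_n hd 1).symm
  have hs0 : Sup E.H 0 n := fun y hy => by have := hs y hy; rw [zero_qd]; linarith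
  have hp : p ≠ 0 := by
    rintro rfl
    have := congrArg (fun z => qd z (rot n)) hd
    simp only [smul_qd, qd_toQ, rot_dot_rot, sub_self, zero_qd] at this
    nlinarith [mul_pos hμ hN]
  have hdet := ((E.A.edges H' ⟨p, he.1, 0, he.2.1, hp⟩).2.2.2.2 p 0 n p' n' he he').1
  refine ⟨wire_zero hn hs0, wire_zero he'.2.2.2.1 hs', rot n, by simp, ?_,
    fun _ => (dot_self_pos (rot_ne hn)).le, ?_⟩
  · rw [← det_eq_dot]; omega
  · have := cy_zero hn hs0 (s := 1) (Or.inl rfl) ?_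
    · simpa using this
    intro y hy hyn
    obtain ⟨u, -, v1, rfl⟩ := he.2.2.2.2.2 y (hY y hy) (hyn.trans h0.symm)
    have := congrArg (fun z => qd z (rot n)) hd
    simp only [smul_qd, qd_toQ, rot_dot_rot, sub_qd, zero_qd, add_qd] at this ⊢
    push_cast
    nlinarith [mul_pos hμ hN]

theorem ecert (E : Env) : ECert E.c E.N0 := by
  by_cases hnd : ∀ n, n ≠ 0 → ∃ y ∈ E.H, qd y n ≠ 0
  · have hY : ∀ y, E.CP0 y → y ∈ E.H := fun y => cp_mem
    refine E.A.poly E.c E.N0 E.CP E.H E.hc zero_mem ?_ (fun p p' n he => ?_)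
      (fun p p' n he hp => vertex_data hY (fun _ h => h) he he.2.2.2.2.1 hp)
      (fun p n p' n' he he' => zero_data hY he he' he.2.2.2.2.1 he'.2.2.2.2.1)
    · obtain ⟨y, h1, h2⟩ := hnd (e 0) (e_ne 0)
      exact ⟨y, h1, fun h => h2 (by rw [h, zero_qd])⟩
    · refine edge_data hY he ⟨he.1, he.2.1, he.2.2.1, he.2.2.2.1, he.2.2.2.2.1⟩ (Or.inl ?_)
      by_cases h : qd p n = 0
      · obtain ⟨y, h1, h2⟩ := hnd n he.2.2.2.1
        exact ⟨y, h1, lt_of_le_of_ne (he.2.2.2.2.1 y h1) (h ▸ h2)⟩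
      · exact ⟨0, zero_mem, lt_of_le_of_ne (he.2.2.2.2.1 0 zero_mem)
          (by rw [zero_qd]; exact Ne.symm h)⟩
  push Not at hnd
  obtain ⟨n0, hn0, h0⟩ := hnd
  have hm : ∀ y, y ∈ E.H.filter (fun y => decide (E.CP0 y)) ↔ E.CP0 y := fun y => by
    simp only [List.mem_filter, decide_eq_true_eq]
    exact ⟨fun h => h.2, fun h => ⟨cp_mem h, h⟩⟩
  by_cases hz : ∃ p, E.CP0 p ∧ p ≠ 0
  · have hY := fun y => (hm y).2
    have hH : ∀ y ∈ E.H.filter (fun y => decide (E.CP0 y)), y ∈ E.H :=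
      fun y h => cp_mem ((hm y).1 h)
    have hs : ∀ p p' n, IsEdge (E.H.filter fun y => decide (E.CP0 y)) p p' n →
        ∀ y ∈ E.H, qd y n = 0 := by
      intro p p' n he y hy
      obtain ⟨μ, hμ, hd⟩ := he.2.2.1
      have := congrArg (fun z => qd z n0) hd
      simp only [smul_qd, qd_toQ, sub_qd, h0 p (hH p he.1), h0 p' (hH p' he.2.1), ← det_eq_dot,
        sub_self] at this
      have h1 : det n n0 = 0 := by exact_mod_cast (mul_eq_zero.1 this.symm).resolve_left hμ.ne'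
      exact perp_par hn0 (by rw [det_comm, h1, neg_zero]) (h0 y hy)
    have hs' : ∀ p p' n, IsEdge (E.H.filter fun y => decide (E.CP0 y)) p p' n → Sup E.H p n :=
      fun p p' n he y hy => by rw [hs p p' n he y hy, hs p p' n he p (hH p he.1)]
    refine E.A.poly E.c E.N0 E.CP _ E.hc (hY 0 (Or.inl rfl)) ?_ (fun p p' n he => ?_)
      (fun p p' n he hp => vertex_data hY hH he (hs' _ _ _ he) hp)
      (fun p n p' n' he he' => zero_data hY he he' (hs' _ _ _ he) (hs' _ _ _ he'))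
    · obtain ⟨p, h1, h2⟩ := hz
      exact ⟨p, hY p h1, h2⟩
    · exact edge_data hY he ⟨hH _ he.1, hH _ he.2.1, he.2.2.1, he.2.2.2.1, hs' _ _ _ he⟩
        (Or.inr ⟨hs _ _ _ he p (hH p he.1), (hm _).1 he.1, (hm _).1 he.2.1⟩)
  · push Not at hz
    have s1 : Sup E.H 0 n0 := fun y hy => by rw [h0 y hy, zero_qd]
    have s2 : Sup E.H 0 (-n0) := fun y hy => by rw [qd_neg, h0 y hy, zero_qd, neg_zero]
    refine E.A.poly0 E.c E.N0 n0 E.hc hn0 (wire_zero hn0 s1) (wire_zero (neg_ne_zero.2 hn0) s2) ?_ ?_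
    · simpa using cy_zero hn0 s1 (s := 1) (Or.inl rfl) fun y hy _ => by rw [hz y hy]
    · simpa using cy_zero hn0 s1 (s := -1) (Or.inr rfl) fun y hy _ => by rw [hz y hy]

end Env

theorem complete (A : All) {c : V → ℤ} {N : ℤ} (hc : IsBG c N) : ECert c N ∨ RCert c N := by
  by_cases h : RCert c N
  · exact Or.inr h
  · obtain ⟨E, rfl, rfl⟩ := exists_env A hc h
    exact Or.inl E.ecert

end Pool.Agent.Sand
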