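import Pool.Agent.Lib.MP_215a10_lc.Dec.Stmts

/-! Derived rules of the derivation system: one rule application, Dickson's lemma for
rational polyhedra, surgery against the hull. -/

set_option autoImplicit false

namespace Pool.Agent.Sand

open Classical

namespace Macro1

/-! ### monotonicity of derivations -/

theorem mem_of {N : ℤ} {Y L L' : List Item} {n n' : ℕ} {T : V} {g : V → ℤ}
    (h : ∀ it ∈ L, it.st < n → ∃ it' ∈ L', it'.st < n' ∧ it'.T = it.T ∧ it'.G = it.G)
    (hm : Mem N Y L n T g) : Mem N Y L' n' T g := by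
  obtain ⟨it, h1, h2⟩ := hm
  rcases h1 with h1 | h1
  · exact ⟨it, Or.inl h1, h2⟩
  · obtain ⟨it', k1, k2, k3, k4⟩ := h it h1.1 h1.2
    refine ⟨it', Or.inr ⟨k1, k2⟩, ?_⟩
    rw [k3, k4]; exact h2

theorem just_mono {c : V → ℤ} {N : ℤ} {X : Ctx} {L L' : List Item} {n n' : ℕ} {T : V}
    {g : V → ℤ}
    (h0 : ∀ it ∈ L, it.st < n → ∃ it' ∈ L', it'.st < n' ∧ it'.T = it.T ∧ it'.G = it.G)
    (hj : Just c N X L n T g) : Just c N X L' n' T g := by
  have h : ∀ g1, Mem N X.Y L n T g1 → Mem N X.Y L' n' T g1 := fun g1 => mem_of h0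
  obtain ⟨h1, h2, h3⟩ := hj
  refine ⟨h1, h2, ?_⟩
  rcases h3 with h3 | ⟨g1, g2, m1, m2, h3⟩ | ⟨g1, m1, h3⟩ | ⟨hT, ⟨g1, m1, h3⟩ | ⟨it, m1, h3⟩⟩ | h3
  · exact Or.inl h3
  · exact Or.inr (Or.inl ⟨g1, g2, h _ m1, h _ m2, h3⟩)
  · exact Or.inr (Or.inr (Or.inl ⟨g1, h _ m1, h3⟩))
  · exact Or.inr (Or.inr (Or.inr (Or.inl ⟨hT, Or.inl ⟨g1, h _ m1, h3⟩⟩)))
  · refine Or.inr (Or.inr (Or.inr (Or.inl ⟨hT, Or.inr ?_⟩)))
    rcases m1 with m1 | m1
    · exact ⟨it, Or.inl m1, h3⟩
    · obtain ⟨it', k1, k2, k3, k4⟩ := h0 it m1.1 m1.2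
      refine ⟨it', Or.inr ⟨k1, k2⟩, ?_⟩
      rw [k3, k4]; exact h3
  · refine Or.inr (Or.inr (Or.inr (Or.inr fun R => ?_)))
    obtain ⟨g1, m1, h4⟩ := h3 R
    exact ⟨g1, h _ m1, h4⟩

theorem good_of_sub {c : V → ℤ} {N : ℤ} {X : Ctx} {L L' : List Item} (hL : Good c N X L)
    (h : ∀ it ∈ L, it ∈ L') : ∀ it ∈ L, AM (fun w : V × V => it.G w.1 w.2) ∧ dot X.l it.T = 0 ∧
      ∀ s, Just c N X L' it.st it.T (it.G s) := by
  intro it hit
  obtain ⟨h1, h2, h3⟩ := hL it hit
  exact ⟨h1, h2, fun s => just_mono (fun it' k1 k2 => ⟨it', h it' k1, k2, rfl, rfl⟩) (h3 s)⟩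

theorem good_append {c : V → ℤ} {N : ℤ} {X : Ctx} {L L' : List Item} (hL : Good c N X L)
    (hL' : Good c N X L') : Good c N X (L ++ L') := by
  intro it hit
  rcases List.mem_append.1 hit with h | h
  · exact good_of_sub hL (fun it hit => List.mem_append.2 (Or.inl hit)) it h
  · exact good_of_sub hL' (fun it hit => List.mem_append.2 (Or.inr hit)) it h

theorem collect {c : V → ℤ} {N : ℤ} {X : Ctx} (fam : List (V × (V → V → ℤ)))
    (h : ∀ f ∈ fam, DvF c N X f.1 f.2) :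
    ∃ L, Good c N X L ∧ ∀ f ∈ fam, ∃ it ∈ L, it.T = f.1 ∧ it.G = f.2 := by
  induction fam with
  | nil => exact ⟨[], by intro it hit; simp at hit, by intro f hf; simp at hf⟩
  | cons f fam ih =>
    obtain ⟨L, hL, hf⟩ := ih fun g hg => h g (List.mem_cons_of_mem _ hg)
    obtain ⟨L1, hL1, it, hit, hT⟩ := h f List.mem_cons_self
    refine ⟨L1 ++ L, good_append hL1 hL, fun g hg => ?_⟩
    rcases List.mem_cons.1 hg with rfl | hg
    · exact ⟨it, List.mem_append.2 (Or.inl hit), hT⟩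
    · obtain ⟨it', hit', h'⟩ := hf g hg
      exact ⟨it', List.mem_append.2 (Or.inr hit'), h'⟩

theorem stage_bound (L : List Item) : ∃ n : ℕ, ∀ it ∈ L, it.st < n := by
  induction L with
  | nil => exact ⟨0, by intro it hit; simp at hit⟩
  | cons a L ih =>
    obtain ⟨n, hn⟩ := ih
    refine ⟨n + a.st + 1, fun it hit => ?_⟩
    rcases List.mem_cons.1 hit with rfl | h
    · omega
    · have := hn it h; omega

/-! ### Dickson -/

theorem clear_den (w : Q2) : ∃ (d : ℤ) (z : V), 0 < d ∧ ∀ x, (d : ℚ) * qd w x = (dot z x : ℚ) := by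
  refine ⟨(w.1.den : ℤ) * w.2.den, (w.1.num * w.2.den, w.2.num * w.1.den), by positivity, fun x => ?_⟩
  have h1 : (w.1.num : ℚ) = w.1 * w.1.den := (Rat.mul_den_eq_num w.1).symm
  have h2 : (w.2.num : ℚ) = w.2 * w.2.den := (Rat.mul_den_eq_num w.2).symm
  simp only [qd, dot]
  push_cast
  rw [h1, h2]; ring

theorem qd_sub_right (w : Q2) (x y : V) : qd w (y - x) = qd w y - qd w x := by
  simp only [qd, Prod.fst_sub, Prod.snd_sub]; push_cast; ring

theorem qd_sub_left (y b : Q2) (x : V) : qd (y - b) x = qd y x - qd b x := by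
  simp only [qd, Prod.fst_sub, Prod.snd_sub]; ring

theorem qd_toQ (w x : V) : qd (toQ w) x = (dot w x : ℚ) := by
  simp only [qd, toQ, dot]; push_cast; ring

theorem dick_seq (ws : List Q2) (C : ℚ) (u : ℕ → V) (hu : ∀ n, ∀ w ∈ ws, qd w (u n) ≤ C) :
    ∃ m n, m < n ∧ ∀ w ∈ ws, qd w (u n - u m) ≤ 0 := by
  choose d z hd hz using clear_den
  let K : Q2 → ℤ := fun w => ⌈(d w : ℚ) * C⌉
  have hK : ∀ n, ∀ w ∈ ws, dot (z w) (u n) ≤ K w := by
    intro n w hw
    have h1 : ((dot (z w) (u n) : ℤ) : ℚ) ≤ (d w : ℚ) * C := by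
      rw [← hz]
      exact mul_le_mul_of_nonneg_left (hu n w hw) (by exact_mod_cast (hd w).le)
    have h2 := Int.le_ceil ((d w : ℚ) * C)
    exact_mod_cast h1.trans h2
  let s : ℕ → (Fin ws.length → ℕ) := fun n i => (K ws[i] - dot (z ws[i]) (u n)).toNat
  obtain ⟨m, n, hmn, hs⟩ := wellQuasiOrdered_le (α := Fin ws.length → ℕ) s
  refine ⟨m, n, hmn, fun w hw => ?_⟩
  obtain ⟨i, hi, rfl⟩ := List.getElem_of_mem hw
  have h1 : (K ws[i] - dot (z ws[i]) (u m)).toNat ≤ (K ws[i] - dot (z ws[i]) (u n)).toNat :=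
    hs ⟨i, hi⟩
  have h2 := hK m _ hw
  have h3 := hK n _ hw
  have h4 : dot (z ws[i]) (u n) ≤ dot (z ws[i]) (u m) := by omega
  have h5 : (d ws[i] : ℚ) * qd ws[i] (u n - u m) ≤ 0 := by
    rw [qd_sub_right, mul_sub, hz, hz]
    have : ((dot (z ws[i]) (u n) : ℤ) : ℚ) ≤ (dot (z ws[i]) (u m) : ℤ) := by exact_mod_cast h4
    linarith
  have h6 : (0 : ℚ) < d ws[i] := by exact_mod_cast hd _
  by_contra hc
  push Not at hc
  have := mul_pos h6 hc
  linarith

theorem bdd (ws : List Q2) (C : ℚ) (f : V → ℤ)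
    (h : ∀ x y, f x < f y → ∃ w ∈ ws, 0 < qd w (y - x)) :
    ∃ K : ℤ, ∀ x, (∀ w ∈ ws, qd w x ≤ C) → f x ≤ K := by
  by_contra hc
  push Not at hc
  choose nx hnx hlt using hc
  let u : ℕ → V := fun n => Nat.rec (nx 0) (fun _ v => nx (f v)) n
  have hu : ∀ n, ∀ w ∈ ws, qd w (u n) ≤ C := by
    intro n
    cases n with
    | zero => exact hnx 0
    | succ n => exact hnx _
  have hmono : StrictMono fun n => f (u n) := strictMono_nat_of_lt_succ fun n => hlt _
  obtain ⟨m, n, hmn, hw⟩ := dick_seq ws C u hu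
  obtain ⟨w, hw', hpos⟩ := h (u m) (u n) (hmono hmn)
  have := hw w hw'
  linarith

theorem finmod_of_det (T : V) (hT : T ≠ 0) (K : ℤ) (x : V) (hx : |det T x| ≤ K) :
    ∃ j : ℤ, n1 (x - j • T) ≤ (K + 1) * (2 * n1 T) := by
  have hq : 0 < dot T T := by
    by_contra hc
    apply hT
    simp only [dot] at hc
    have h1 : T.1 = 0 := by nlinarith [mul_self_nonneg T.1, mul_self_nonneg T.2]
    have h2 : T.2 = 0 := by nlinarith [mul_self_nonneg T.1, mul_self_nonneg T.2]
    exact Prod.ext h1 h2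
  refine ⟨dot T x / dot T T, ?_⟩
  set j := dot T x / dot T T with hj
  set q := dot T T with hqd
  have h1 := Int.emod_nonneg (dot T x) hq.ne'
  have h2 := Int.emod_lt_of_pos (dot T x) hq
  have h3 := Int.mul_ediv_add_emod (dot T x) q
  set r := dot T x % q with hr
  set D := det T x with hD
  have hK : 0 ≤ K := (abs_nonneg _).trans hx
  have e1 : q * (x.1 - j * T.1) = r * T.1 - D * T.2 := by
    have : r = dot T x - q * j := by rw [hj]; linarith
    rw [this, hD, hqd]; simp only [dot, det]; ring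
  have e2 : q * (x.2 - j * T.2) = r * T.2 + D * T.1 := by
    have : r = dot T x - q * j := by rw [hj]; linarith
    rw [this, hD, hqd]; simp only [dot, det]; ring
  have key : ∀ y a b : ℤ, |q * y| ≤ r * |a| + |D| * |b| → |y| ≤ |a| + K * |b| := by
    intro y a b hy
    rw [abs_mul, abs_of_pos hq] at hy
    have ha := abs_nonneg a
    have hb := abs_nonneg b
    have h4 : r * |a| ≤ q * |a| := mul_le_mul_of_nonneg_right h2.le ha
    have h5 : |D| * |b| ≤ K * |b| := mul_le_mul_of_nonneg_right hx hb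
    have h6 : K * |b| ≤ q * (K * |b|) := by nlinarith [mul_nonneg hK hb]
    have h7 : q * |y| ≤ q * (|a| + K * |b|) := by nlinarith
    exact le_of_mul_le_mul_left h7 hq
  have k1 : |x.1 - j * T.1| ≤ |T.1| + K * |T.2| := by
    apply key
    rw [e1]
    calc |r * T.1 - D * T.2| ≤ |r * T.1| + |D * T.2| := abs_sub _ _
      _ = r * |T.1| + |D| * |T.2| := by rw [abs_mul, abs_mul, abs_of_nonneg h1]
  have k2 : |x.2 - j * T.2| ≤ |T.2| + K * |T.1| := by
    apply key
    rw [e2]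
    calc |r * T.2 + D * T.1| ≤ |r * T.2| + |D * T.1| := abs_add_le _ _
      _ = r * |T.2| + |D| * |T.1| := by rw [abs_mul, abs_mul, abs_of_nonneg h1]
  simp only [n1, Prod.fst_sub, Prod.snd_sub, Prod.smul_fst, Prod.smul_snd, smul_eq_mul]
  have ha := abs_nonneg T.1
  have hb := abs_nonneg T.2
  nlinarith [mul_nonneg hK ha, mul_nonneg hK hb]

theorem det_sub (T x y : V) : det T (y - x) = det T y - det T x := by
  simp only [det, Prod.fst_sub, Prod.snd_sub]; ring

theorem dot_sub (T x y : V) : dot T (y - x) = dot T y - dot T x := by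
  simp only [dot, Prod.fst_sub, Prod.snd_sub]; ring

/-! ### small facts on stable functions and derivations -/

theorem stable_min {c g1 g2 : V → ℤ} (h1 : Stable c g1) (h2 : Stable c g2) :
    Stable c (fun x => min (g1 x) (g2 x)) := by
  intro x
  have a1 := h1 x
  have a2 := h2 x
  simp only [StAt, lap, Fin.sum_univ_four] at a1 a2 ⊢
  omega

theorem stable_add {c g : V → ℤ} (h : Stable c g) (a : ℤ) : Stable c (fun x => g x + a) := by
  intro x
  have a1 := h x
  simp only [StAt, lap, Fin.sum_univ_four] at a1 ⊢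
  omega

theorem dvf_facts {c : V → ℤ} {N : ℤ} {X : Ctx} {T : V} {G : V → V → ℤ} (h : DvF c N X T G) :
    AM (fun w : V × V => G w.1 w.2) ∧ dot X.l T = 0 ∧
      ∀ s, Stable c (G s) ∧ ∀ x, G s (x + T) = G s x := by
  obtain ⟨L, hL, it, hit, rfl, rfl⟩ := h
  obtain ⟨h1, h2, h3⟩ := hL it hit
  exact ⟨h1, h2, fun s => ⟨(h3 s).1, (h3 s).2.1⟩⟩

theorem dv_facts {c : V → ℤ} {N : ℤ} {X : Ctx} {T : V} {g : V → ℤ} (h : Dv c N X T g) :
    AM g ∧ dot X.l T = 0 ∧ Stable c g ∧ ∀ x, g (x + T) = g x := by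
  obtain ⟨h1, h2, h3⟩ := dvf_facts h
  refine ⟨?_, h2, h3 0⟩
  exact AM.comp (g := fun w : V × V => g w.2) (f := fun x : V => ((0 : V), x)) h1 (by fun_prop)

theorem mem_fam {N : ℤ} {Y : List Item} {fam : List (V × (V → V → ℤ))} {T : V}
    {G : V → V → ℤ} (hf : (T, G) ∈ fam) (s : V) (a : ℤ) :
    Mem N Y (fam.map fun f => ⟨0, f.1, f.2⟩) 1 T (fun x => G s x + a) := by
  refine ⟨⟨0, T, G⟩, Or.inr ⟨List.mem_map.2 ⟨(T, G), hf, rfl⟩, by simp⟩, ⟨1, by simp⟩, s, 0, a, ?_⟩
  intro x; simp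

theorem mem_fam0 {N : ℤ} {Y : List Item} {fam : List (V × (V → V → ℤ))} {T : V}
    {G : V → V → ℤ} (hf : (T, G) ∈ fam) (s : V) :
    Mem N Y (fam.map fun f => ⟨0, f.1, f.2⟩) 1 T (G s) := by
  simpa using mem_fam (N := N) (Y := Y) hf s 0

theorem list_bound {α : Type} (H : List α) (f : α → ℚ → Prop)
    (hm : ∀ y C C', C ≤ C' → f y C → f y C') (h : ∀ y ∈ H, ∃ C, f y C) :
    ∃ C, ∀ y ∈ H, f y C := by
  induction H with
  | nil => exact ⟨0, by intro y hy; simp at hy⟩
  | cons a H ih =>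
    obtain ⟨C, hC⟩ := ih fun y hy => h y (List.mem_cons_of_mem _ hy)
    obtain ⟨C', hC'⟩ := h a List.mem_cons_self
    refine ⟨max C C', fun y hy => ?_⟩
    rcases List.mem_cons.1 hy with rfl | hy
    · exact hm _ _ _ (le_max_right _ _) hC'
    · exact hm _ _ _ (le_max_left _ _) (hC y hy)

theorem ball_bound (f : V → ℤ) (R : ℤ) : ∃ a : ℤ, ∀ x, n1 x ≤ R → f x ≤ a := by
  have hfin : ((Set.Icc (-R) R) ×ˢ (Set.Icc (-R) R) : Set V).Finite :=
    (Set.finite_Icc _ _).prod (Set.finite_Icc _ _)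
  obtain ⟨a, ha⟩ := (hfin.image f).bddAbove
  refine ⟨a, fun x hx => ha ⟨x, ?_, rfl⟩⟩
  simp only [n1] at hx
  have h1 := abs_nonneg x.1
  have h2 := abs_nonneg x.2
  have h3 : |x.1| ≤ R := by linarith
  have h4 : |x.2| ≤ R := by linarith
  exact ⟨abs_le.1 h3, abs_le.1 h4⟩

theorem finmod_mono {T : V} {E E' : V → Prop} (h : FinMod T E') (hE : ∀ x, E x → E' x) :
    FinMod T E := by
  obtain ⟨R, hR⟩ := h
  exact ⟨R, fun x hx => hR x (hE x hx)⟩

section
variable (h1 : dvof_stmt) {c : V → ℤ} {N : ℤ} {X : Ctx} {T : V}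
include h1

/-- the family `min (G s) (h + a)` -/
theorem dv_minfam {G : V → V → ℤ} {h : V → ℤ} (hG : DvF c N X T G) (hh : Dv c N X T h)
    (σ : V → V) (α : V → ℤ) (hσ : AM σ) (hα : AM α) :
    DvF c N X T (fun s x => min (G (σ s) x) (h x + α s)) := by
  obtain ⟨a1, a2, a3⟩ := dvf_facts hG
  obtain ⟨b1, -, b3, b4⟩ := dv_facts hh
  refine h1 c N X [(T, G), (T, fun _ => h)] T _ ?_ ?_ a2 fun s => ?_
  · intro f hf
    rcases List.mem_cons.1 hf with rfl | hf
    · exact hG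
    · rcases List.mem_cons.1 hf with rfl | hf
      · exact hh
      · simp at hf
  · have e1 : AM (fun w : V × V => G (σ w.1) w.2) :=
      AM.comp (g := fun w : V × V => G w.1 w.2) (f := fun w : V × V => (σ w.1, w.2)) a1
        (by fun_prop)
    have e2 : AM (fun w : V × V => h w.2 + α w.1) := by fun_prop
    exact e1.min e2
  · refine ⟨stable_min (a3 _).1 (stable_add b3 _), fun x => ?_, Or.inr (Or.inl ⟨G (σ s),
      fun x => h x + α s, mem_fam0 (by simp) _, mem_fam (G := fun _ => h) (by simp) 0 _,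
      fun x => rfl⟩)⟩
    show min (G (σ s) (x + T)) (h (x + T) + α s) = _
    rw [(a3 _).2, b4]

theorem dv_min {g h : V → ℤ} (hg : Dv c N X T g) (hh : Dv c N X T h) :
    Dv c N X T (fun x => min (g x) (h x)) := by
  have := dv_minfam h1 hg hh (fun s => s) (fun _ => 0) (by fun_prop) (by fun_prop)
  simpa [Dv] using this

theorem dv_shift {h : V → ℤ} (hh : Dv c N X T h) :
    DvF c N X T (fun s x => h x + s.2) := by
  obtain ⟨b1, b2, b3, b4⟩ := dv_facts hh
  refine h1 c N X [(T, fun _ => h)] T _ ?_ (by fun_prop) b2 fun s => ?_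
  · intro f hf
    rcases List.mem_cons.1 hf with rfl | hf
    · exact hh
    · simp at hf
  · refine ⟨stable_add b3 _, fun x => ?_, Or.inr (Or.inl ⟨fun x => h x + s.2,
      fun x => h x + s.2, mem_fam (G := fun _ => h) (by simp) 0 _,
      mem_fam (G := fun _ => h) (by simp) 0 _, fun x => (min_self _).symm⟩)⟩
    show h (x + T) + s.2 = _
    rw [b4]

theorem dv_member {G : V → V → ℤ} (hG : DvF c N X T G) (s : V) : Dv c N X T (G s) := by
  obtain ⟨a1, a2, a3⟩ := dvf_facts hG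
  refine h1 c N X [(T, G)] T _ ?_ ?_ a2 fun _ => ?_
  · intro f hf
    rcases List.mem_cons.1 hf with rfl | hf
    · exact hG
    · simp at hf
  · exact AM.comp (g := fun w : V × V => G w.1 w.2) (f := fun w : V × V => (s, w.2)) a1
      (by fun_prop)
  · exact ⟨(a3 s).1, (a3 s).2, Or.inr (Or.inl ⟨G s, G s, mem_fam0 (by simp) _,
      mem_fam0 (by simp) _, fun x => (min_self _).symm⟩)⟩

/-- one derivable function below all hull bounds -/
theorem hull_fun {g0 : V → ℤ} (hg0 : Dv c N X T g0) (H : List Q2)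
    (hH : ∀ y ∈ H, Hull c N X T y) :
    ∃ h, Dv c N X T h ∧ ∃ C : ℚ, ∀ y ∈ H, ∀ x, (h x : ℚ) ≤ -qd y x + C := by
  induction H with
  | nil => exact ⟨g0, hg0, 0, by intro y hy; simp at hy⟩
  | cons a H ih =>
    obtain ⟨h, hh, C, hC⟩ := ih fun y hy => hH y (List.mem_cons_of_mem _ hy)
    obtain ⟨g, hg, C', hC'⟩ := hH a List.mem_cons_self
    refine ⟨fun x => min (g x) (h x), dv_min h1 hg hh, max C C', fun y hy x => ?_⟩
    have m1 : ((min (g x) (h x) : ℤ) : ℚ) ≤ g x := by exact_mod_cast min_le_left _ _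
    have m2 : ((min (g x) (h x) : ℤ) : ℚ) ≤ h x := by exact_mod_cast min_le_right _ _
    rcases List.mem_cons.1 hy with rfl | hy
    · have := hC' x; have := le_max_right C C'; linarith
    · have := hC y hy x; have := le_max_left C C'; linarith

end

/-- the list of all differences -/
def dif (H B : List Q2) : List Q2 := H.flatMap fun y => B.map fun b => y - b

theorem mem_dif {H B : List Q2} {w : Q2} : w ∈ dif H B ↔ ∃ y ∈ H, ∃ b ∈ B, y - b = w := by
  simp [dif, List.mem_flatMap, List.mem_map]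

theorem cov_pos {W : List V} {B H : List Q2} {ξ : V} (h : Cov W B H ξ) :
    ∃ w ∈ W.map toQ ++ dif H B, 0 < qd w ξ := by
  rcases h with ⟨w, hw, h⟩ | ⟨y, hy, b, hb, h⟩
  · refine ⟨toQ w, List.mem_append.2 (Or.inl (List.mem_map.2 ⟨w, hw, rfl⟩)), ?_⟩
    rw [qd_toQ]; exact_mod_cast h
  · refine ⟨y - b, List.mem_append.2 (Or.inr (mem_dif.2 ⟨y, hy, b, hb, rfl⟩)), ?_⟩
    rw [qd_sub_left]; linarith

theorem core (h1 : dvof_stmt) (h2 : dickson_stmt) {c : V → ℤ} {N : ℤ} {X : Ctx} {T : V}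
    {F : ℤ → V → ℤ} {G' : V → V → ℤ} {h : V → ℤ} {W : List V} {B H A : List Q2}
    (hl : dot X.l T = 0) (hA : AncOK X A) (hF : AM (fun w : ℤ × V => F w.1 w.2))
    (hFs : ∀ s, Stable c (F s) ∧ ∀ x, F s (x + T) = F s x) (hh : Dv c N X T h)
    (hC : ∃ C : ℚ, ∀ y ∈ H, ∀ x, (h x : ℚ) ≤ -qd y x + C) (hG : DvF c N X T G')
    (hcmp : ∀ s : V, ∃ C : ℚ, ∀ x, min (F s.1 x) (h x + s.2) ≠ G' s x →
      (∀ w ∈ W, (dot w x : ℚ) ≤ C) ∧
      ∀ b ∈ B, -qd b x - C ≤ ((min (min (F s.1 x) (h x + s.2)) (G' s x) : ℤ) : ℚ))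
    (hPS : PSx X.l T W B H A) : DvF c N X T (fun s => F s.1) := by
  obtain ⟨b1, -, b3, b4⟩ := dv_facts hh
  obtain ⟨Ch, hCh⟩ := hC
  have hF' : AM (fun w : V × V => F w.1.1 w.2) :=
    AM.comp (g := fun w : ℤ × V => F w.1 w.2) (f := fun w : V × V => (w.1.1, w.2)) hF
      (by fun_prop)
  obtain ⟨CA, hCA⟩ := list_bound A (fun a C => ∀ x, (X.A x : ℚ) ≤ -qd a x + C)
    (fun a C C' hCC hx x => by have := hx x; linarith) hA.2
  have step : DvF c N X T (fun s x => min (F s.1 x) (h x + s.2)) := by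
    refine h1 c N X [(T, G')] T _ ?_ ?_ hl fun s => ?_
    · intro f hf
      rcases List.mem_cons.1 hf with rfl | hf
      · exact hG
      · simp at hf
    · have e2 : AM (fun w : V × V => h w.2 + w.1.2) := by fun_prop
      exact hF'.min e2
    refine ⟨stable_min (hFs _).1 (stable_add b3 _), fun x => ?_, ?_⟩
    · show min (F s.1 (x + T)) (h (x + T) + s.2) = _
      rw [(hFs _).2, b4]
    obtain ⟨C, hCs⟩ := hcmp s
    have inP : ∀ x, min (F s.1 x) (h x + s.2) ≠ G' s x →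
        ∀ w ∈ W.map toQ ++ dif H B, qd w x ≤ |C| + |Ch| + |(s.2 : ℚ)| := by
      intro x hx w hw
      obtain ⟨k1, k2⟩ := hCs x hx
      have n1 := le_abs_self C
      have n2 := le_abs_self Ch
      have n3 := le_abs_self (s.2 : ℚ)
      have n4 := abs_nonneg Ch
      have n5 := abs_nonneg (s.2 : ℚ)
      rcases List.mem_append.1 hw with hw | hw
      · obtain ⟨w', hw', rfl⟩ := List.mem_map.1 hw
        rw [qd_toQ]
        have := k1 w' hw'
        linarith
      · obtain ⟨y, hy, b, hb, rfl⟩ := mem_dif.1 hw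
        rw [qd_sub_left]
        have m1 := k2 b hb
        have m2 : ((min (min (F s.1 x) (h x + s.2)) (G' s x) : ℤ) : ℚ) ≤ ((h x + s.2 : ℤ) : ℚ) := by
          exact_mod_cast (min_le_left _ _).trans (min_le_right _ _)
        have m3 := hCh y hy x
        push_cast at m1 m2
        linarith
    by_cases hT : T = 0
    · refine Or.inr (Or.inr (Or.inr (Or.inl
        ⟨hT, Or.inl ⟨G' s, mem_fam0 (by simp) _, ?_, fun a => ?_⟩⟩)))
      · obtain ⟨C', hC'⟩ := (h2 (W.map toQ ++ dif H B) (|C| + |Ch| + |(s.2 : ℚ)|)).2 X.l (by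
          intro ξ hξ
          have hne : ¬ Par T ξ := by
            intro hp
            rw [hp.2 hT] at hξ
            simp [dot] at hξ
          rcases hPS ξ hne with hc | ⟨-, hc, -⟩
          · exact cov_pos hc
          · omega)
        exact ⟨C', fun x hx => hC' x (inP x hx)⟩
      · have hfm := (h2 ((W.map toQ ++ dif H B) ++ dif A B)
          (|C| + |Ch| + |(s.2 : ℚ)| + |CA| + |(a : ℚ)|)).1 0 (by
            intro ξ hξ
            rcases hPS ξ (by rw [hT]; exact hξ) with hc | ⟨-, -, hc⟩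
            · obtain ⟨w, hw, hpos⟩ := cov_pos hc
              exact ⟨w, List.mem_append.2 (Or.inl hw), hpos⟩
            · obtain ⟨w, hw, hpos⟩ := cov_pos hc
              exact ⟨w, List.mem_append.2 (Or.inr (by simpa using hw)), hpos⟩)
        refine finmod_mono hfm fun x hx w hw => ?_
        have n1 := le_abs_self C
        have n2 := le_abs_self CA
        have n3 := le_abs_self (a : ℚ)
        have n4 := abs_nonneg Ch
        have n5 := abs_nonneg (s.2 : ℚ)
        have n6 := abs_nonneg CA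
        have n7 := abs_nonneg (a : ℚ)
        rcases List.mem_append.1 hw with hw | hw
        · have := inP x hx.1 w hw
          linarith
        · obtain ⟨y, hy, b, hb, rfl⟩ := mem_dif.1 hw
          rw [qd_sub_left]
          have m1 := (hCs x hx.1).2 b hb
          have m2 : ((min (min (F s.1 x) (h x + s.2)) (G' s x) : ℤ) : ℚ) ≤ ((X.A x + a : ℤ) : ℚ) := by
            exact_mod_cast hx.2.le
          have m3 := hCA y hy x
          push_cast at m1 m2
          linarith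
    · refine Or.inr (Or.inr (Or.inl ⟨G' s, mem_fam0 (by simp) _, ?_⟩))
      have hfm := (h2 (W.map toQ ++ dif H B) (|C| + |Ch| + |(s.2 : ℚ)|)).1 T (by
        intro ξ hξ
        rcases hPS ξ hξ with hc | ⟨hc, -⟩
        · exact cov_pos hc
        · exact absurd hc hT)
      exact finmod_mono hfm inP
  refine h1 c N X [(T, fun s x => min (F s.1 x) (h x + s.2))] T _ ?_ hF' hl fun s => ?_
  · intro f hf
    rcases List.mem_cons.1 hf with rfl | hf
    · exact step
    · simp at hf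
  refine ⟨(hFs _).1, (hFs _).2, Or.inr (Or.inr (Or.inr (Or.inr fun R => ?_)))⟩
  obtain ⟨a, ha⟩ := ball_bound (fun x => F s.1 x - h x) R
  refine ⟨_, mem_fam0 (G := fun s x => min (F s.1 x) (h x + s.2)) (by simp) (s.1, a), fun x hx => ?_⟩
  have := ha x hx
  show F s.1 x = min (F s.1 x) (h x + a)
  omega

end Macro1

open Macro1

theorem dvof_proof : dvof_stmt := by
  intro c N X fam T G hf hG hl hJ
  obtain ⟨L, hL, hit⟩ := collect fam hf
  obtain ⟨n, hn⟩ := stage_bound L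
  refine ⟨⟨n, T, G⟩ :: L, ?_, ⟨n, T, G⟩, List.mem_cons_self, rfl, rfl⟩
  intro it hmem
  rcases List.mem_cons.1 hmem with rfl | hmem
  · refine ⟨hG, hl, fun s => just_mono (fun it h1 _ => ?_) (hJ s)⟩
    obtain ⟨f, hf', rfl⟩ := List.mem_map.1 h1
    obtain ⟨it', hit', e1, e2⟩ := hit f hf'
    exact ⟨it', List.mem_cons_of_mem _ hit', hn it' hit', e1, e2⟩
  · exact good_of_sub hL (fun it hit => List.mem_cons_of_mem _ hit) it hmem

theorem dickson_proof : dickson_stmt := by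
  intro ws C
  refine ⟨fun T hT => ?_, fun l hl => ?_⟩
  · by_cases h0 : T = 0
    · obtain ⟨K, hK⟩ := bdd ws C n1 (fun x y hxy => hT _ (by
        intro hp
        have : y = x := sub_eq_zero.1 (hp.2 h0)
        rw [this] at hxy
        exact lt_irrefl _ hxy))
      exact ⟨K, fun x hx => ⟨0, by simpa using hK x hx⟩⟩
    · obtain ⟨K, hK⟩ := bdd ws C (fun x => |det T x|) (fun x y hxy => hT _ (by
        intro hp
        have h1 := hp.1
        rw [det_sub] at h1
        have : det T y = det T x := by linarith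
        simp only [this] at hxy
        exact lt_irrefl _ hxy))
      exact ⟨(K + 1) * (2 * n1 T), fun x hx => finmod_of_det T h0 K x (hK x hx)⟩
  · exact bdd ws C (dot l) (fun x y hxy => hl _ (by rw [dot_sub]; linarith))

theorem ph_proof (h1 : dvof_stmt) (h2 : dickson_stmt) : ph_stmt := by
  intro c N X T F G W B H A _ hl hA hF hFs hG hcmp hH hPS
  obtain ⟨h, hh, hC⟩ := hull_fun h1 (dv_member h1 hG 0) H hH
  have hG' := dv_minfam h1 hG hh (fun s => s) (fun s => s.2) (by fun_prop) (by fun_prop)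
  refine core h1 h2 hl hA hF hFs hh hC hG' (fun s => ?_) hPS
  obtain ⟨C, hCs⟩ := hcmp s.1
  refine ⟨C, fun x hx => ?_⟩
  have hx' : min (F s.1 x) (h x + s.2) ≠ min (G s.1 x) (h x + s.2) := hx
  have hne : F s.1 x ≠ G s.1 x := fun he => hx' (by rw [he])
  obtain ⟨k1, k2⟩ := hCs x hne
  refine ⟨k1, fun b hb => ?_⟩
  have e1 : min (min (F s.1 x) (h x + s.2)) (min (G s.1 x) (h x + s.2)) =
      min (F s.1 x) (G s.1 x) := by omega
  show _ ≤ ((min (min (F s.1 x) (h x + s.2)) (min (G s.1 x) (h x + s.2)) : ℤ) : ℚ)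
  rw [e1]
  push_cast
  exact le_min (k2 b hb).1 (k2 b hb).2

theorem ph0_proof (h1 : dvof_stmt) (h2 : dickson_stmt) : ph0_stmt := by
  intro c N X T F B H A _ hl hA hF hFs hcmp hH hPS
  have hne : ∃ y, y ∈ H := by
    have pos : ∀ v : V, v ≠ 0 → 0 < dot v v := by
      intro v hv
      by_contra hc
      apply hv
      simp only [dot] at hc
      have e1 : v.1 = 0 := by nlinarith [mul_self_nonneg v.1, mul_self_nonneg v.2]
      have e2 : v.2 = 0 := by nlinarith [mul_self_nonneg v.1, mul_self_nonneg v.2]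
      exact Prod.ext e1 e2
    have cov : ∀ (H' : List Q2) (ξ : V), Cov [] B H' ξ → ∃ y, y ∈ H' := by
      intro H' ξ hc
      rcases hc with ⟨w, hw, -⟩ | ⟨y, hy, -⟩
      · simp at hw
      · exact ⟨y, hy⟩
    by_cases hT : T = 0
    · by_cases hX : X.l = 0
      · rcases hPS (1, 0) (fun hp => by simpa using hp.2 hT) with hc | ⟨-, -, hc⟩
        · exact cov _ _ hc
        · obtain ⟨y, hy⟩ := cov _ _ hc
          rw [hA.1 hX] at hy
          simp at hy
      · rcases hPS X.l (fun hp => hX (hp.2 hT)) with hc | ⟨-, hc, -⟩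
        · exact cov _ _ hc
        · have := pos _ hX
          omega
    · have hnp : ¬ Par T (rot T) := by
        intro hp
        have e1 := hp.1
        have e2 := pos T hT
        simp only [det, rot, dot] at e1 e2
        linarith
      rcases hPS (rot T) hnp with hc | ⟨hc, -⟩
      · exact cov _ _ hc
      · exact absurd hc hT
  obtain ⟨y0, hy0⟩ := hne
  obtain ⟨g0, hg0, -⟩ := hH y0 hy0
  obtain ⟨h, hh, hC⟩ := hull_fun h1 hg0 H hH
  refine core h1 h2 hl hA hF hFs hh hC (dv_shift h1 hh) (fun s => ?_) hPS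
  obtain ⟨C, hCs⟩ := hcmp s.1
  refine ⟨C, fun x hx => ⟨by intro w hw; simp at hw, fun b hb => ?_⟩⟩
  have hx' : min (F s.1 x) (h x + s.2) ≠ h x + s.2 := hx
  have e1 : min (min (F s.1 x) (h x + s.2)) (h x + s.2) = F s.1 x := by omega
  show _ ≤ ((min (min (F s.1 x) (h x + s.2)) (h x + s.2) : ℤ) : ℚ)
  rw [e1]
  exact hCs x b hb

end Pool.Agent.Sand
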