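import Pool.Agent.Lib.MP_215a10_lc.Dec.Macro2a

/-! Derived rules (second batch). -/

set_option autoImplicit false

namespace Pool.Agent.Sand.Macro2

open Pool.Agent.Sand Classical

/-! ### lowering by an ideal given by a size function -/

lemma fscd_iff (c φ : V → ℤ) (F : Set V) :
    FSCD c 1 φ F ↔ ∀ x ∈ F, StAt c (fun y => φ y - ind F y) x := by
  simp only [FSCD, std_one]

lemma ind_mono {F G : Set V} (h : F ⊆ G) (x : V) : ind F x ≤ ind G x := by
  unfold ind
  by_cases h1 : x ∈ F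
  · simp [h1, h h1]
  · by_cases h2 : x ∈ G <;> simp [h1, h2]

lemma ind_nonneg (F : Set V) (x : V) : 0 ≤ ind F x := by unfold ind; split_ifs <;> simp

/-- a set covered by forbidden subsets is forbidden -/
lemma fscd_cover {c φ : V → ℤ} {U : Set V}
    (h : ∀ x ∈ U, ∃ F, F ⊆ U ∧ FSCD c 1 φ F ∧ x ∈ F) : FSCD c 1 φ U := by
  rw [fscd_iff]
  intro x hx
  obtain ⟨F, hFU, hF, hxF⟩ := h x hx
  refine stat_mono ((fscd_iff _ _ _).mp hF x hxF) ?_ fun i => ?_
  · simp [ind, hx, hxF]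
  · have := ind_mono hFU (x + e i); linarith

lemma fscd_stable {c φ : V → ℤ} {U : Set V} (hφ : Stable c φ) (h : FSCD c 1 φ U) :
    Stable c (fun y => φ y - ind U y) := by
  intro x
  by_cases hx : x ∈ U
  · exact (fscd_iff _ _ _).mp h x hx
  · refine stat_mono (hφ x) (by simp [ind, hx]) fun i => ?_
    have := ind_nonneg U (x + e i); linarith

lemma fscd_shift {c φ : V → ℤ} {F : Set V} (v : V) (a : ℤ) (hc : ∀ x, c (x + v) = c x)
    (hφ : ∀ x, φ (x + v) = φ x - a) (h : FSCD c 1 φ F) : FSCD c 1 φ {x | x + v ∈ F} := by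
  rw [fscd_iff] at *
  intro x hx
  have := h (x + v) hx
  unfold StAt lap at *
  rw [hc] at this
  have e1 : ∀ i, x + v + e i = x + e i + v := fun i => by abel
  have e2 : ∀ y, ind {x | x + v ∈ F} y = ind F (y + v) := fun y => rfl
  simp only [e1, hφ] at this
  simp only [e2]
  have e3 : ∀ i, φ (x + e i) - ind F (x + e i + v) - (φ x - ind F (x + v)) =
      φ (x + e i) - a - ind F (x + e i + v) - (φ x - a - ind F (x + v)) := fun i => by ring
  simp only [e3]; exact this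

@[fun_prop] lemma am_ind {α : Type} [AddCommGroup α] [Dig α] {F : α → Set V} {f : α → V}
    (h : AP (fun x => f x ∈ F x)) : AM (fun x => ind (F x) (f x)) := by
  unfold ind
  exact AM.ite h (AM.const _) (AM.const _)

lemma low_gen (hd : dvof_stmt) {c : V → ℤ} {N0 N : ℤ} {X : Ctx} {φ : V → ℤ} {p : Q2} {T : V}
    (I : Set V → Prop) (μ : V → ℤ) (hc : IsBG c N0) (hN : 0 < N) (hdiv : N0 ∣ N)
    (hφ : Stable c φ) (hE : Eqv N p φ) (hI : ∀ F, I F ↔ ∃ C, ∀ x ∈ F, μ x ≤ C) (hT : TInv I)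
    (hμ : ∀ x, μ (x + T) = μ x) (hcT : ∀ x, c (x + T) = c x)
    (hfin : ∀ C, FinMod T (fun x => μ x ≤ C)) (hD : Dv c N0 X T φ) :
    Dv c N0 X T (Psi c 1 I φ) := by
  have hφT : ∀ x, φ (x + T) = φ x := dvf_per hD 0
  have hcN : ∀ z x, c (x + N • z) = c x := by
    intro z x
    obtain ⟨k, rfl⟩ := hdiv
    rw [mul_smul]; exact hc.per _ _
  have hshift : ∀ (z : V) (F : Set V), FSCD c 1 φ F → FSCD c 1 φ {x | x + N • z ∈ F} := by
    intro z F hF
    obtain ⟨a, -, ha⟩ := eqv_int hE z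
    exact fscd_shift _ a (hcN z) ha hF
  -- the forbidden sets of size at most `C`
  let FC : ℤ → Set V := fun C => {x | ∃ F, (∀ y ∈ F, μ y ≤ C) ∧ FSCD c 1 φ F ∧ x ∈ F}
  have FCmono : ∀ {C C'}, C ≤ C' → FC C ⊆ FC C' := by
    rintro C C' h x ⟨F, h1, h2, h3⟩
    exact ⟨F, fun y hy => (h1 y hy).trans h, h2, h3⟩
  have hUper : ∀ z x, x + N • z ∈ UU c 1 I φ → x ∈ UU c 1 I φ := by
    rintro z x ⟨F, h1, h2, h3⟩
    exact ⟨_, hT F _ h1, hshift z F h2, h3⟩
  obtain ⟨C, hC⟩ : ∃ C, ∀ x ∈ UU c 1 I φ, n1 x ≤ 2 * N → x ∈ FC C := by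
    have h1 : ∀ x, ∃ C, x ∈ UU c 1 I φ → x ∈ FC C := by
      intro x
      by_cases hx : x ∈ UU c 1 I φ
      · obtain ⟨F, h1, h2, h3⟩ := hx
        obtain ⟨C, hC⟩ := (hI F).mp h1
        exact ⟨C, fun _ => ⟨F, hC, h2, h3⟩⟩
      · exact ⟨0, fun h => absurd h hx⟩
    choose f hf using h1
    obtain ⟨C, -, hC⟩ := bdd_ball f (2 * N)
    exact ⟨C, fun x hx hn => FCmono (le_of_abs_le (hC x hn)) (hf x hx)⟩
  set F0 := FC C with hF0
  have hF0μ : ∀ x ∈ F0, μ x ≤ C := by rintro x ⟨F, h1, -, h3⟩; exact h1 x h3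
  have hF0 : FSCD c 1 φ F0 := fscd_cover (by
    rintro x ⟨F, h1, h2, h3⟩
    exact ⟨F, fun y hy => ⟨F, h1, h2, hy⟩, h2, h3⟩)
  have hF0T : ∀ (j : ℤ) x, x + j • T ∈ F0 → x ∈ F0 := by
    rintro j x ⟨F, h1, h2, h3⟩
    refine ⟨{y | y + j • T ∈ F}, fun y hy => ?_, fscd_shift _ 0 (per_zsmul c T hcT j)
      (fun y => by rw [per_zsmul φ T hφT j, sub_zero]) h2, h3⟩
    rw [← per_zsmul μ T hμ j y]; exact h1 _ hy
  have hF0T' : ∀ x, x + T ∈ F0 ↔ x ∈ F0 := fun x =>
    ⟨fun h => hF0T 1 x (by simpa using h), fun h => hF0T (-1) _ (by simpa using h)⟩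
  obtain ⟨R0, hR0⟩ := hfin C
  have hap : AP (fun x => x ∈ F0) := by
    have hfin1 : (F0 ∩ {x | n1 x ≤ R0}).Finite := (ball_finite R0).subset Set.inter_subset_right
    have h1 := AP.finite hfin1
    refine (AP.ex (P := fun (x : V) (j : ℤ) => x - j • T ∈ F0 ∩ {x | n1 x ≤ R0})
      (AP.mem h1 (by fun_prop))).of_iff fun x => ⟨?_, fun hx => ?_⟩
    · rintro ⟨j, hj, -⟩
      exact hF0T (-j) x (by rw [neg_smul, ← sub_eq_add_neg]; exact hj)
    · obtain ⟨j, hj⟩ := hR0 x (hF0μ x hx)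
      exact ⟨j, hF0T j _ (by simpa using hx), hj⟩
  have hU : ∀ x, x ∈ UU c 1 I φ ↔ ∃ z, x + N • z ∈ F0 := by
    intro x
    constructor
    · intro hx
      refine ⟨-(x.1 / N, x.2 / N), ?_⟩
      have h1 : x + N • (-(x.1 / N, x.2 / N)) = (x.1 % N, x.2 % N) := by
        rw [smul_neg, ← sub_eq_add_neg, sub_eq_iff_eq_add]
        exact split_mod N x
      rw [h1]
      refine hC _ (hUper (x.1 / N, x.2 / N) _ ?_) (n1_mod hN x)
      rw [← split_mod]; exact hx
    · rintro ⟨z, hz⟩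
      exact hUper z x ⟨F0, (hI F0).mpr ⟨C, hF0μ⟩, hF0, hz⟩
  let U : ℤ → Set V := fun R => {x | ∃ z, n1 z ≤ R ∧ x + N • z ∈ F0}
  have hUF : ∀ R, FSCD c 1 φ (U R) := fun R => fscd_cover (by
    rintro x ⟨z, h1, h2⟩
    exact ⟨{y | y + N • z ∈ F0}, fun y hy => ⟨z, h1, hy⟩, hshift z F0 hF0, h2⟩)
  have hφam := dv_am hD
  have hfam : DvF c N0 X T (fun s x => φ x - ind (U s.1) x) := by
    refine dvf_mod hd hD ?_ (fun s => fscd_stable hφ (hUF s.1)) ?_ ?_
    · refine AM.sub (by fun_prop) (am_ind (F := fun w : V × V => U w.1.1) (f := fun w => w.2) ?_)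
      exact AP.ex (P := fun (w : V × V) (z : V) => n1 z ≤ w.1.1 ∧ w.2 + N • z ∈ F0)
        (AP.and (by fun_prop) (AP.mem hap (by fun_prop)))
    · intro s x
      have : x + T ∈ U s.1 ↔ x ∈ U s.1 := by
        refine exists_congr fun z => and_congr_right fun _ => ?_
        rw [add_right_comm]; exact hF0T' _
      simp only [hφT, ind, this]
    · intro s
      refine ⟨R0 + N * s.1, fun x hx => ?_⟩
      have hx' : x ∈ U s.1 := by
        by_contra h
        exact hx (by simp [ind, h])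
      obtain ⟨z, h1, h2⟩ := hx'
      obtain ⟨j, hj⟩ := hR0 _ (hF0μ _ h2)
      refine ⟨j, ?_⟩
      have h3 := n1_add (x + N • z - j • T) (-(N • z))
      rw [n1_neg, n1_smul, abs_of_pos hN,
        show x + N • z - j • T + -(N • z) = x - j • T by abel] at h3
      nlinarith
  have hUF' : FSCD c 1 φ (UU c 1 I φ) := fscd_cover (by
    rintro x ⟨F, h1, h2, h3⟩
    exact ⟨F, fun y hy => ⟨F, h1, h2, hy⟩, h2, h3⟩)
  refine dv_lim hd hfam ?_ (fscd_stable hφ hUF') ?_ ?_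
  · refine AM.sub hφam (am_ind (F := fun _ => UU c 1 I φ) (f := fun x => x) ?_)
    exact (AP.ex (P := fun (x z : V) => x + N • z ∈ F0) (AP.mem hap (by fun_prop))).of_iff
      fun x => (hU x).symm
  · intro x
    have : x + T ∈ UU c 1 I φ ↔ x ∈ UU c 1 I φ := by
      rw [hU, hU]
      refine exists_congr fun z => ?_
      rw [add_right_comm]; exact hF0T' _
    simp only [Psi, hφT, ind, this]
  · intro R
    have h1 : ∀ x, ∃ r, x ∈ UU c 1 I φ → x ∈ U r := by
      intro x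
      by_cases hx : x ∈ UU c 1 I φ
      · obtain ⟨z, hz⟩ := (hU x).mp hx
        exact ⟨n1 z, fun _ => ⟨z, le_rfl, hz⟩⟩
      · exact ⟨0, fun h => absurd h hx⟩
    choose f hf using h1
    obtain ⟨r, -, hr⟩ := bdd_ball f R
    refine ⟨(r, 0), 0, 0, fun x hx => ?_⟩
    have : x ∈ U r ↔ x ∈ UU c 1 I φ := by
      constructor
      · rintro ⟨z, -, hz⟩; exact (hU x).mpr ⟨z, hz⟩
      · intro h
        obtain ⟨z, h2, h3⟩ := hf x h
        exact ⟨z, h2.trans (le_of_abs_le (hr x hx)), h3⟩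
    simp only [Psi, smul_zero, add_zero, ind, this]

/-! ### gluing a phase and a staircase along a line -/

/-- `φ` on the negative side of `ζ`, `S` on the positive side -/
def glue (φ S : V → ℤ) (ζ : V) (x : V) : ℤ := if dot ζ x ≤ 0 then φ x else S x

section
variable {c : V → ℤ} {N : ℤ} {φ S : V → ℤ} {p : Q2} {ζ : V} {t : ℚ}

lemma glue_stable (hφ : Stable c φ) (hS : Stair c N φ p ζ t S) : Stable c (glue φ S ζ) := by
  obtain ⟨h1, -, h3, -, -⟩ := hS
  intro x
  have hn := n1_nonneg ζ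
  by_cases hx : dot ζ x ≤ 0
  · refine stat_mono (hφ x) (by simp [glue, hx]) fun i => le_of_eq ?_
    unfold glue
    split_ifs with h
    · rfl
    · apply h3
      have h4 := abs_le.mp (dot_e ζ i)
      rw [dot_add] at h ⊢
      rw [abs_le]; constructor <;> linarith [h4.1, h4.2]
  · refine stat_mono (h1 x) (by simp [glue, hx]) fun i => le_of_eq ?_
    unfold glue
    split_ifs with h
    · symm; apply h3
      have h4 := abs_le.mp (dot_e ζ i)
      rw [dot_add] at h ⊢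
      rw [abs_le]; constructor <;> linarith [h4.1, h4.2]
    · rfl

lemma glue_ge (hS : Stair c N φ p ζ t S) (x : V) : φ x ≤ glue φ S ζ x := by
  unfold glue
  split_ifs with h
  · exact le_rfl
  · exact hS.2.2.2.1 x (by linarith)

lemma glue_am (hN : 0 < N) (hE : Eqv N p φ) (hS : Stair c N φ p ζ t S) : AM (glue φ S ζ) := by
  obtain ⟨-, ⟨N', hN', hE'⟩, -⟩ := hS
  exact AM.ite (by fun_prop) (eqv_am hN hE) (eqv_am hN' hE')

lemma glue_low (hN : 0 < N) (hE : Eqv N p φ) (ht : 0 < t) (hS : Stair c N φ p ζ t S) :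
    ∃ C : ℚ, ∀ x, -qd p x - C ≤ glue φ S ζ x ∧ -qd p x + t * dot ζ x - C ≤ glue φ S ζ x := by
  obtain ⟨-, ⟨N', hN', hE'⟩, -⟩ := hS
  obtain ⟨C, hC⟩ := eqv_near hN hE
  obtain ⟨C', hC'⟩ := eqv_near hN' hE'
  refine ⟨max C C', fun x => ?_⟩
  have h1 := (abs_le.mp (hC x)).1
  have h2 := (abs_le.mp (hC' x)).1
  have m1 := le_max_left C C'
  have m2 := le_max_right C C'
  rw [qd_slope] at h2
  unfold glue
  split_ifs with h
  · have h3 : ((dot ζ x : ℤ) : ℚ) ≤ 0 := by exact_mod_cast h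
    have h4 : t * dot ζ x ≤ 0 := mul_nonpos_of_nonneg_of_nonpos ht.le h3
    constructor <;> linarith
  · have h3 : (0 : ℚ) ≤ ((dot ζ x : ℤ) : ℚ) := by exact_mod_cast (not_le.mp h).le
    have h4 : 0 ≤ t * dot ζ x := mul_nonneg ht.le h3
    constructor <;> linarith

lemma stair_per {T : V} (hS : Stair c N φ p ζ t S) (hT : ∃ j : ℤ, T = (j * N) • rot ζ)
    (hp : qd p T = 0) (x : V) : S (x + T) = S x := by
  obtain ⟨j, rfl⟩ := hT
  have h5 := hS.2.2.2.2
  have key := per_zsmul (fun y => (S y : ℚ) + qd p y) (N • rot ζ) (fun y => by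
    simp only [h5, qd_add, qd_smul]; ring) j x
  simp only [qd_add, ← mul_smul, hp] at key
  have : ((S (x + (j * N) • rot ζ) : ℤ) : ℚ) = S x := by linarith
  exact_mod_cast this

lemma glue_per {T : V} (hS : Stair c N φ p ζ t S) (hT : ∃ j : ℤ, T = (j * N) • rot ζ)
    (hp : qd p T = 0) (hφ : ∀ x, φ (x + T) = φ x) (x : V) :
    glue φ S ζ (x + T) = glue φ S ζ x := by
  have h1 := stair_per hS hT hp x
  have h2 : dot ζ (x + T) = dot ζ x := by
    obtain ⟨j, rfl⟩ := hT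
    rw [dot_add, dot_smul, dot_rot]; simp
  simp only [glue, h1, h2, hφ]
end

/-- minimum of a base family and a list of families -/
def lmin {ι : Type} (B : ℤ → V → ℤ) (J : ι → ℤ → V → ℤ) : List ι → ℤ → V → ℤ
  | [] => B
  | a :: l => fun R x => min (J a R x) (lmin B J l R x)

lemma lmin_ind {ι : Type} (B : ℤ → V → ℤ) (J : ι → ℤ → V → ℤ) (P : (ℤ → V → ℤ) → Prop)
    (hB : P B) (hmin : ∀ f g, P f → P g → P fun R x => min (f R x) (g R x)) (l : List ι)
    (hJ : ∀ a ∈ l, P (J a)) : P (lmin B J l) := by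
  induction l with
  | nil => exact hB
  | cons a l ih => exact hmin _ _ (hJ a (by simp)) (ih fun b hb => hJ b (by simp [hb]))

lemma lmin_le {ι : Type} (B : ℤ → V → ℤ) (J : ι → ℤ → V → ℤ) (l : List ι) (R : ℤ) (x : V) :
    lmin B J l R x ≤ B R x ∧ ∀ a ∈ l, lmin B J l R x ≤ J a R x := by
  induction l with
  | nil => exact ⟨le_rfl, by simp⟩
  | cons a l ih =>
    refine ⟨(min_le_right _ _).trans ih.1, fun b hb => ?_⟩
    rcases List.mem_cons.mp hb with rfl | hb
    · exact min_le_left _ _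
    · exact (min_le_right _ _).trans (ih.2 b hb)

lemma le_lmin {ι : Type} (B : ℤ → V → ℤ) (J : ι → ℤ → V → ℤ) (l : List ι) (R : ℤ) (x : V) (m : ℤ)
    (hB : m ≤ B R x) (hJ : ∀ a ∈ l, m ≤ J a R x) : m ≤ lmin B J l R x := by
  induction l with
  | nil => exact hB
  | cons a l ih => exact le_min (hJ a (by simp)) (ih fun b hb => hJ b (by simp [hb]))

/-- an eventually true property of finitely many indices holds eventually for all of them -/
lemma ev_list {ι : Type} (l : List ι) (P : ι → ℤ → Prop) (h : ∀ a ∈ l, ∃ R0, ∀ R, R0 ≤ R → P a R) :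
    ∃ R0, ∀ R, R0 ≤ R → ∀ a ∈ l, P a R := by
  induction l with
  | nil => exact ⟨0, by simp⟩
  | cons a l ih =>
    obtain ⟨R1, h1⟩ := h a (by simp)
    obtain ⟨R2, h2⟩ := ih fun b hb => h b (by simp [hb])
    refine ⟨max R1 R2, fun R hR b hb => ?_⟩
    rcases List.mem_cons.mp hb with rfl | hb
    · exact h1 R ((le_max_left _ _).trans hR)
    · exact h2 R ((le_max_right _ _).trans hR) b hb

end Pool.Agent.Sand.Macro2

namespace Pool.Agent.Sand

open Macro2 Classical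

theorem lowfin_proof (hd : dvof_stmt) : lowfin_stmt := by
  intro c N0 N X φ p hc hN hdiv hφ hE hD
  refine low_gen hd IFin n1 hc hN hdiv hφ hE (fun F => ⟨fun hF => ?_, ?_⟩) ?_ (by simp) (by simp)
    (fun C => ⟨C, fun x hx => ⟨0, by simpa using hx⟩⟩) hD
  · obtain ⟨C, hC⟩ := (Set.Finite.image n1 hF).bddAbove
    exact ⟨C, fun x hx => hC ⟨x, hx, rfl⟩⟩
  · rintro ⟨C, hC⟩
    exact (ball_finite C).subset hC
  · intro F z hF
    exact Set.Finite.preimage (f := fun x => x + z) (add_left_injective z).injOn hF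

theorem lowband_proof (hd : dvof_stmt) (hk : dickson_stmt) : lowband_stmt := by
  intro c N0 N m X φ p n hc hN hdiv hφ hE hn hm _ _ hD
  refine low_gen hd (IBand n) (fun x => |det n x|) hc hN hdiv hφ hE (fun F => Iff.rfl) ?_ ?_ ?_ ?_ hD
  · rintro F z ⟨C, hC⟩
    refine ⟨C + |det n z|, fun x hx => ?_⟩
    have h1 := hC _ hx
    rw [det_add] at h1
    have h2 := abs_sub (det n x + det n z) (det n z)
    rw [add_sub_cancel_right] at h2
    linarith
  · intro x; simp only [det_add, det_smul_self, add_zero]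
  · intro x
    obtain ⟨k, rfl⟩ := hdiv
    rw [show (m * (N0 * k)) • n = N0 • ((m * k) • n) by rw [← mul_smul]; congr 1; ring]
    exact hc.per _ _
  · intro C
    have hq : ∀ x, qd (toQ (rot n)) x = det n x := by
      intro x; simp only [qd, toQ, rot, det]; push_cast; ring
    have hq' : ∀ x, qd (toQ (-rot n)) x = -det n x := by
      intro x; simp only [qd, toQ, rot, det, Prod.fst_neg, Prod.snd_neg]; push_cast; ring
    obtain ⟨R, hR⟩ := (hk [toQ (rot n), toQ (-rot n)] C).1 ((m * N) • n) (by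
      intro ξ hξ
      have hT : (m * N) • n ≠ 0 := smul_ne_zero (mul_pos hm hN).ne' hn
      have h1 : det n ξ ≠ 0 := by
        intro h
        refine hξ ⟨?_, fun h0 => absurd h0 hT⟩
        have : det ((m * N) • n) ξ = (m * N) * det n ξ := by
          simp only [det, Prod.smul_fst, Prod.smul_snd, smul_eq_mul]; ring
        rw [this, h, mul_zero]
      rcases lt_or_gt_of_ne h1 with h | h
      · refine ⟨toQ (-rot n), by simp, ?_⟩
        rw [hq']
        have : ((det n ξ : ℤ) : ℚ) < 0 := by exact_mod_cast h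
        linarith
      · refine ⟨toQ (rot n), by simp, ?_⟩
        rw [hq]; exact_mod_cast h)
    refine ⟨R, fun x hx => hR x ?_⟩
    have h1 := abs_le.mp hx
    have h2 : ((det n x : ℤ) : ℚ) ≤ C := by exact_mod_cast h1.2
    have h3 : (-C : ℚ) ≤ ((det n x : ℤ) : ℚ) := by exact_mod_cast h1.1
    intro w hw
    simp only [List.mem_cons, List.not_mem_nil, or_false] at hw
    rcases hw with rfl | rfl
    · rw [hq]; exact h2
    · rw [hq']; linarith

theorem kmax_proof (hd : dvof_stmt) (h0 : ph0_stmt) : kmax_stmt := by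
  intro c N0 X T k g B H A hc hT hA hk hg hga hgT hB hH hPS
  obtain ⟨h, h1, h2, h3, C, hC⟩ : ∃ h : V → ℤ, KF k h ∧ AM h ∧ (∀ x, h (x + T) = h x) ∧
      ∃ C : ℚ, ∀ x, ∀ b ∈ B, -qd b x - C ≤ h x := by
    clear hPS
    induction B with
    | nil => exact ⟨g, hg, hga, hgT, 0, by simp⟩
    | cons b B ih =>
      obtain ⟨h, h1, h2, h3, C, hC⟩ := ih fun b' hb' => hB b' (by simp [hb'])
      obtain ⟨h', h1', h2', ⟨C', hC'⟩, h3'⟩ := hB b (by simp)
      refine ⟨fun x => max (h x) (h' x), kf_max h1 h1', h2.max h2', fun x => by simp only [h3, h3'],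
        max C C', fun x b' hb' => ?_⟩
      have m1 := le_max_left C C'
      have m2 := le_max_right C C'
      rcases List.mem_cons.mp hb' with rfl | hb'
      · have a1 := (abs_le.mp (hC' x)).1
        have a2 : (h' x : ℚ) ≤ ((max (h x) (h' x) : ℤ) : ℚ) := by exact_mod_cast le_max_right _ _
        linarith
      · have a1 := hC x b' hb'
        have a2 : (h x : ℚ) ≤ ((max (h x) (h' x) : ℤ) : ℚ) := by exact_mod_cast le_max_left _ _
        linarith
  have hF := h0 c N0 X T (fun a x => max (h x) (g x + a)) B H A hc hT hA (by fun_prop)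
    (fun a => ⟨kf_stable hk (kf_max h1 (kf_add hg a)), fun x => by simp only [h3, hgT]⟩)
    (fun a => ⟨C, fun x b hb => by
      have a1 := hC x b hb
      have a2 : (h x : ℚ) ≤ ((max (h x) (g x + a) : ℤ) : ℚ) := by exact_mod_cast le_max_left _ _
      linarith⟩) hH hPS
  refine dv_lim hd hF hga (kf_stable hk hg) hgT fun R => ?_
  obtain ⟨a, -, ha⟩ := bdd_ball (fun x => h x - g x) R
  refine ⟨(a, 0), 0, -a, fun x hx => ?_⟩
  have := le_of_abs_le (ha x hx)
  simp only [smul_zero, add_zero]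
  rw [max_eq_right (by linarith)]; ring

theorem kmax0_proof (hd : dvof_stmt) : kmax0_stmt := by
  intro c N0 T k g h hc hk hg hga hgT hh hha ⟨C, hC⟩ hhT
  have hF : DvF c N0 ctx0 T (fun s x => min (max (g x) (h x + -s.1)) (h x + s.1)) := by
    refine hd c N0 ctx0 [] T _ (by simp) (by fun_prop) (by simp [ctx0, dot]) fun s => ?_
    refine ⟨kf_stable hk (kf_min (kf_max hg (kf_add hh _)) (kf_add hh _)),
      fun x => by simp only [hgT, hhT], Or.inl ⟨trivial, ⌈C⌉ + |s.1|, fun x => ?_⟩⟩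
    have h1 := hC x
    have h2 : qd 0 x = 0 := by simp [qd]
    rw [h2, add_zero] at h1
    have h3 : |h x| ≤ ⌈C⌉ := by
      have : ((|h x| : ℤ) : ℚ) ≤ ((⌈C⌉ : ℤ) : ℚ) := by
        push_cast; exact h1.trans (Int.le_ceil C)
      exact_mod_cast this
    have h4 := abs_le.mp h3
    have h5 := le_abs_self s.1
    have h6 := neg_abs_le s.1
    rw [abs_le]
    constructor
    · refine le_min (le_trans ?_ (le_max_right _ _)) ?_ <;> linarith [h4.1]
    · refine (min_le_right _ _).trans ?_; linarith [h4.2]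
  refine dv_lim hd hF hga (kf_stable hk hg) hgT fun R => ?_
  obtain ⟨a, -, ha⟩ := bdd_ball (fun x => h x - g x) R
  refine ⟨(a, 0), 0, 0, fun x hx => ?_⟩
  have := abs_le.mp (ha x hx)
  simp only [smul_zero, add_zero]
  rw [max_eq_left (by linarith [this.2]), min_eq_left (by linarith [this.1])]

theorem rcertA_proof (hd : dvof_stmt) (hk : dickson_stmt) : rcertA_stmt := by
  intro c N T l H _ hl hlT hH hPS
  have hcov : ∀ ξ, ¬ Par T ξ → ∃ y ∈ H, qd (toQ l) ξ < qd y ξ := by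
    intro ξ hξ
    rcases hPS ξ hξ with ⟨w, hw, -⟩ | ⟨y, hy, b, hb, h⟩
    · simp at hw
    · rw [List.mem_singleton.mp hb] at h
      exact ⟨y, hy, h⟩
  have hne : H ≠ [] := by
    rintro rfl
    obtain ⟨ξ, hξ⟩ := exists_not_par T
    obtain ⟨y, hy, -⟩ := hcov ξ hξ
    simp at hy
  obtain ⟨h, ⟨L, hL, it, hit, h1, h2⟩, C, hC⟩ := hull_min hd H hne hH
  refine ⟨L, hL, Or.inl ⟨it, hit, 0, l, hl, by rw [h1]; exact hlT, fun a => ?_⟩⟩
  rw [h1, h2]
  obtain ⟨R, hR⟩ := (hk (H.map fun y => y - toQ l) (C + a)).1 T (by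
    intro ξ hξ
    obtain ⟨y, hy, h3⟩ := hcov ξ hξ
    refine ⟨y - toQ l, List.mem_map.mpr ⟨y, hy, rfl⟩, ?_⟩
    rw [qd_sub_toQ]; rw [qd_toQ] at h3; linarith)
  refine ⟨R, fun x hx => hR x fun w hw => ?_⟩
  obtain ⟨y, hy, rfl⟩ := List.mem_map.mp hw
  have h3 := hC y hy x
  have h4 : (-a : ℚ) < h x + dot l x := by exact_mod_cast hx
  rw [qd_sub_toQ]; linarith

theorem rcertB_proof : rcertB_stmt := by
  intro c N l A ys hl hys hA hY hY'
  obtain ⟨L0, hL0, h0⟩ := good_all (A :: ys) (fun y => y) (by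
    intro y hy
    rcases List.mem_cons.mp hy with rfl | hy
    · exact hA
    · exact hY y hy)
  obtain ⟨L1, hL1, h1⟩ := good_all ys (fun y x => y x - dot l x) hY'
  obtain ⟨itA, hitA, hA1, hA2⟩ := h0 A (by simp)
  refine ⟨L0, hL0, Or.inr ⟨itA, hitA, 0, l, ys.map fun y => ⟨0, 0, fun _ => y⟩, L1, hA1, hl,
    by simpa using hys, ?_, by rw [hA2]; exact hL1, ?_⟩⟩
  · intro it hit
    obtain ⟨y, hy, rfl⟩ := List.mem_map.mp hit
    obtain ⟨it', h2, h3, h4⟩ := h0 y (by simp [hy])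
    exact ⟨rfl, it', h2, h3, fun s x => by rw [h4]⟩
  · intro it hit s
    obtain ⟨y, hy, rfl⟩ := List.mem_map.mp hit
    obtain ⟨it', h2, h3, h4⟩ := h1 y hy
    exact ⟨it', h2, h3, 0, fun x => by rw [h4]⟩

theorem enter_proof (hd : dvof_stmt) (h0 : ph0_stmt) : enter_stmt := by
  intro c N0 N X φ S p t ζ H A hc hN hdiv hA ht hφ hE hζ hS hH hPS
  have ham := glue_am hN hE hS
  obtain ⟨C, hC⟩ := glue_low hN hE ht hS
  have hF := h0 c N0 X 0 (fun _ => glue φ S ζ) _ H A hc (by simp [dot]) hA (by fun_prop)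
    (fun _ => ⟨glue_stable hφ hS, by simp⟩)
    (fun _ => ⟨C, fun x b hb => by
      simp only [List.mem_cons, List.not_mem_nil, or_false] at hb
      rcases hb with rfl | rfl
      · exact (hC x).1
      · rw [qd_slope]; linarith [(hC x).2]⟩) hH hPS
  refine dv_lim hd hF (eqv_am hN hE) hφ (by simp) fun R => ?_
  obtain ⟨j, hj0, hj⟩ := bdd_ball (dot ζ) R
  obtain ⟨a, -, ha⟩ := eqv_int hE ((-j) • ζ)
  obtain ⟨k, rfl⟩ := hdiv
  refine ⟨0, k • (-j) • ζ, a, fun x hx => ?_⟩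
  have h1 := le_of_abs_le (hj x hx)
  have h2 := dot_self_pos hζ
  have h3 : dot ζ (x + (N0 * k) • (-j) • ζ) ≤ 0 := by
    rw [dot_add, dot_smul, dot_smul]
    have h4 : 1 ≤ N0 * k * dot ζ ζ := by nlinarith
    nlinarith
  rw [← mul_smul N0 k]
  simp only [glue, h3, if_true, ha]; ring

theorem ystar_proof (hd : dvof_stmt) (hph : ph_stmt) : ystar_stmt := by
  intro c N0 N X T φ p t Z H A hc hN hdiv hT hA ht hφ hE hD hpT hZ hH hPS ζ1 hζ1
  have hφT : ∀ x, φ (x + T) = φ x := dvf_per hD 0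
  have hS0 : ∀ ζ, ∃ S, ζ ∈ Z → Stair c N φ p ζ t S := fun ζ => by
    by_cases h : ζ ∈ Z
    · obtain ⟨S, hS⟩ := (hZ ζ h).2.2
      exact ⟨S, fun _ => hS⟩
    · exact ⟨φ, fun h' => absurd h' h⟩
  choose S hS using hS0
  choose a ha1 ha2 using eqv_int hE
  have hit : ∀ (ζ : V) (R : ℤ) (x : V), φ (x + N • R • ζ) = φ x - R * a ζ := by
    intro ζ R x
    rw [ha2]
    have : ((a (R • ζ) : ℤ) : ℚ) = ((R * a ζ : ℤ) : ℚ) := by
      push_cast; rw [ha1, ha1, qd_smul]; ring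
    rw [show a (R • ζ) = R * a ζ by exact_mod_cast this]
  let J : V → ℤ → V → ℤ := fun ζ R x => glue φ (S ζ) ζ (x + N • R • ζ) + R * a ζ
  let B : ℤ → V → ℤ := fun _ => glue φ (S ζ1) ζ1
  have hJge : ∀ ζ ∈ Z, ∀ R x, φ x ≤ J ζ R x := by
    intro ζ hζ R x
    have h1 := glue_ge (hS ζ hζ) (x + N • R • ζ)
    rw [hit] at h1
    simp only [J]; linarith
  have hfge : ∀ R x, φ x ≤ lmin B J Z R x := fun R x =>
    le_lmin B J Z R x _ (glue_ge (hS ζ1 hζ1) x) fun ζ hζ => hJge ζ hζ R x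
  have hF := hph c N0 X T (lmin B J Z) (fun _ => φ) _ _ H A hc hT hA ?_ ?_ hD ?_ hH hPS
  · -- first limit
    have hI : Dv c N0 X T (glue φ (S ζ1) ζ1) := by
      refine dv_lim hd hF (glue_am hN hE (hS ζ1 hζ1)) (glue_stable hφ (hS ζ1 hζ1))
        (glue_per (hS ζ1 hζ1) (hZ ζ1 hζ1).2.1 hpT hφT) fun R => ?_
      obtain ⟨R0, hR0⟩ := ev_list Z (fun ζ r => ∀ x, n1 x ≤ R → glue φ (S ζ1) ζ1 x ≤ J ζ r x) (by
        intro ζ hζ
        obtain ⟨C, hC⟩ := glue_low hN hE ht (hS ζ hζ)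
        obtain ⟨K, -, hK⟩ := bdd_ballQ
          (fun x => (glue φ (S ζ1) ζ1 x : ℚ) + qd p x - t * dot ζ x) R
        refine ⟨max 0 ⌈(K + C) / t⌉, fun r hr x hx => ?_⟩
        have h1 := (hC (x + N • r • ζ)).2
        have h2 := le_of_abs_le (hK x hx)
        have h3 : (0 : ℚ) ≤ r := by exact_mod_cast (le_max_left _ _).trans hr
        have h4 : (K + C) / t ≤ r :=
          (Int.le_ceil _).trans (by exact_mod_cast (le_max_right _ _).trans hr)
        rw [div_le_iff₀ ht] at h4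
        have h5 : (1 : ℚ) ≤ N * dot ζ ζ := by
          have := dot_self_pos (hZ ζ hζ).1
          have h6 : (1 : ℤ) ≤ N * dot ζ ζ := by nlinarith
          exact_mod_cast h6
        rw [qd_add, qd_smul, qd_smul, dot_add, dot_smul, dot_smul] at h1
        push_cast at h1
        have h7 : r * t ≤ r * t * (N * dot ζ ζ) :=
          le_mul_of_one_le_right (mul_nonneg h3 ht.le) h5
        have : ((glue φ (S ζ1) ζ1 x : ℤ) : ℚ) ≤ ((J ζ r x : ℤ) : ℚ) := by
          simp only [J]; push_cast; rw [ha1]; linarith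
        exact_mod_cast this)
      refine ⟨(R0, 0), 0, 0, fun x hx => ?_⟩
      simp only [smul_zero, add_zero]
      exact le_antisymm (le_lmin B J Z R0 x _ le_rfl fun ζ hζ => hR0 R0 le_rfl ζ hζ x hx)
        (lmin_le B J Z R0 x).1
    obtain ⟨N', hN', hE'⟩ := (hS ζ1 hζ1).2.1
    obtain ⟨C, hC⟩ := eqv_near hN' hE'
    refine ⟨S ζ1, ?_, C, fun x => by linarith [(abs_le.mp (hC x)).2]⟩
    refine dv_lim hd hI (eqv_am hN' hE') (hS ζ1 hζ1).1
      (stair_per (hS ζ1 hζ1) (hZ ζ1 hζ1).2.1 hpT) fun R => ?_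
    obtain ⟨j, hj0, hj⟩ := bdd_ball (dot ζ1) R
    obtain ⟨b, -, hb⟩ := eqv_int hE' (N0 • (j + 1) • ζ1)
    refine ⟨0, N' • (j + 1) • ζ1, b, fun x hx => ?_⟩
    have h1 := neg_le_of_abs_le (hj x hx)
    have h2 := dot_self_pos (hZ ζ1 hζ1).1
    have h3 : ¬ dot ζ1 (x + N' • N0 • (j + 1) • ζ1) ≤ 0 := by
      rw [dot_add, dot_smul, dot_smul, dot_smul]
      have h5 : 0 < N' * N0 := mul_pos hN' hc.pos
      have h4 : 1 ≤ N' * N0 * dot ζ1 ζ1 := by nlinarith
      nlinarith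
    rw [smul_comm N0 N']
    simp only [glue, h3, if_false, hb]; ring
  · refine lmin_ind B J (fun f => AM fun w : ℤ × V => f w.1 w.2) ?_ (fun f g hf hg => hf.min hg) Z ?_
    · have := glue_am hN hE (hS ζ1 hζ1)
      simp only [B]; fun_prop
    · intro ζ hζ
      have := glue_am hN hE (hS ζ hζ)
      simp only [J]; fun_prop
  · refine lmin_ind B J (fun f => ∀ s, Stable c (f s) ∧ ∀ x, f s (x + T) = f s x)
      (fun _ => ⟨glue_stable hφ (hS ζ1 hζ1), glue_per (hS ζ1 hζ1) (hZ ζ1 hζ1).2.1 hpT hφT⟩)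
      (fun f g hf hg s => ⟨stable_min (hf s).1 (hg s).1, fun x => by
        simp only [(hf s).2, (hg s).2]⟩) Z ?_
    intro ζ hζ s
    constructor
    · obtain ⟨k, rfl⟩ := hdiv
      have := stable_shift hc (glue_stable hφ (hS ζ hζ)) (k • s • ζ) (s * a ζ)
      simpa only [J, mul_smul] using this
    · intro x
      simp only [J]
      rw [add_right_comm, glue_per (hS ζ hζ) (hZ ζ hζ).2.1 hpT hφT]
  · intro s
    obtain ⟨C, hC⟩ := eqv_near hN hE
    obtain ⟨K, hK⟩ : ∃ K : ℤ, ∀ ζ ∈ Z, N * (s * dot ζ ζ) ≤ K := by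
      obtain ⟨K, hK⟩ := ev_list Z (fun ζ r => N * (s * dot ζ ζ) ≤ r) fun ζ _ => ⟨_, fun _ h => h⟩
      exact ⟨K, hK K le_rfl⟩
    refine ⟨max C K, fun x hx => ⟨fun w hw => ?_, fun b hb => ?_⟩⟩
    · obtain ⟨ζ, hζ, rfl⟩ := List.mem_map.mp hw
      have h1 : ¬ dot ζ (x + N • s • ζ) ≤ 0 := by
        intro h
        apply hx
        refine le_antisymm (((lmin_le B J Z s x).2 ζ hζ).trans (le_of_eq ?_)) (hfge s x)
        simp only [J, glue, h, if_true, hit]; ring
      rw [dot_add, dot_smul, dot_smul] at h1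
      have h2 := hK ζ hζ
      have h3 : dot (-ζ) x ≤ K := by rw [dot_neg_left]; linarith
      exact le_trans (by exact_mod_cast h3) (le_max_right C K)
    · rw [List.mem_singleton.mp hb]
      have h1 := (abs_le.mp (hC x)).1
      have h2 : (φ x : ℚ) ≤ lmin B J Z s x := by exact_mod_cast hfge s x
      have h3 := le_max_left C K
      constructor <;> linarith

end Pool.Agent.Sand
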