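import Pool.Agent.Lib.MP_215a10_lc.Dec.Stmts

/-! Auxiliary lemmas for the derived rules (second batch). -/

set_option autoImplicit false

namespace Pool.Agent.Sand.Macro2

open Pool.Agent.Sand Classical

/-! ### geometry -/

lemma n1_nonneg (x : V) : 0 ≤ n1 x := by unfold n1; positivity

lemma n1_add (x y : V) : n1 (x + y) ≤ n1 x + n1 y := by
  unfold n1
  have h1 := abs_add_le x.1 y.1
  have h2 := abs_add_le x.2 y.2
  simp only [Prod.fst_add, Prod.snd_add]; linarith

lemma n1_neg (x : V) : n1 (-x) = n1 x := by unfold n1; simp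

lemma n1_smul (k : ℤ) (x : V) : n1 (k • x) = |k| * n1 x := by
  unfold n1; simp [abs_mul, mul_add]

lemma ball_finite (R : ℤ) : {x : V | n1 x ≤ R}.Finite := by
  refine ((Set.finite_Icc (-R) R).prod (Set.finite_Icc (-R) R)).subset ?_
  intro x hx
  simp only [Set.mem_ofPred_eq, n1] at hx
  have h1 := abs_nonneg x.1
  have h2 := abs_nonneg x.2
  have h3 := abs_le.mp (show |x.1| ≤ R by linarith)
  have h4 := abs_le.mp (show |x.2| ≤ R by linarith)
  exact ⟨⟨h3.1, h3.2⟩, ⟨h4.1, h4.2⟩⟩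

/-- a function is bounded on a ball -/
lemma bdd_ball (f : V → ℤ) (R : ℤ) : ∃ C : ℤ, 0 ≤ C ∧ ∀ x, n1 x ≤ R → |f x| ≤ C := by
  obtain ⟨C, hC⟩ := ((ball_finite R).image fun x => |f x|).bddAbove
  exact ⟨max C 0, le_max_right _ _, fun x hx => le_trans (hC ⟨x, hx, rfl⟩) (le_max_left _ _)⟩

lemma bdd_ballQ (f : V → ℚ) (R : ℤ) : ∃ C : ℚ, 0 ≤ C ∧ ∀ x, n1 x ≤ R → |f x| ≤ C := by
  obtain ⟨C, hC⟩ := ((ball_finite R).image fun x => |f x|).bddAbove
  exact ⟨max C 0, le_max_right _ _, fun x hx => le_trans (hC ⟨x, hx, rfl⟩) (le_max_left _ _)⟩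

lemma dot_add (a x y : V) : dot a (x + y) = dot a x + dot a y := by
  simp only [dot, Prod.fst_add, Prod.snd_add]; ring

lemma dot_smul (a x : V) (k : ℤ) : dot a (k • x) = k * dot a x := by
  simp only [dot, Prod.smul_fst, Prod.smul_snd, smul_eq_mul]; ring

lemma dot_neg_left (a x : V) : dot (-a) x = - dot a x := by
  simp only [dot, Prod.fst_neg, Prod.snd_neg]; ring

lemma dot_rot (a : V) : dot a (rot a) = 0 := by simp only [dot, rot]; ring

lemma dot_self_pos {a : V} (ha : a ≠ 0) : 0 < dot a a := by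
  unfold dot
  by_contra h
  apply ha
  have h1 : a.1 = 0 := by nlinarith [mul_self_nonneg a.1, mul_self_nonneg a.2]
  have h2 : a.2 = 0 := by nlinarith [mul_self_nonneg a.1, mul_self_nonneg a.2]
  exact Prod.ext h1 h2

lemma dot_e (a : V) (i : Fin 4) : |dot a (e i)| ≤ n1 a := by
  have h1 := abs_nonneg a.1
  have h2 := abs_nonneg a.2
  fin_cases i <;> simp [dot, e, n1] <;> linarith

lemma det_add (a x y : V) : det a (x + y) = det a x + det a y := by
  simp only [det, Prod.fst_add, Prod.snd_add]; ring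

lemma det_smul_self (a : V) (k : ℤ) : det a (k • a) = 0 := by
  simp only [det, Prod.smul_fst, Prod.smul_snd, smul_eq_mul]; ring

lemma qd_add (p : Q2) (x y : V) : qd p (x + y) = qd p x + qd p y := by
  simp only [qd, Prod.fst_add, Prod.snd_add]; push_cast; ring

lemma qd_smul (p : Q2) (x : V) (k : ℤ) : qd p (k • x) = k * qd p x := by
  simp only [qd, Prod.smul_fst, Prod.smul_snd, smul_eq_mul]; push_cast; ring

lemma qd_slope (p : Q2) (t : ℚ) (ζ x : V) : qd (p - t • toQ ζ) x = qd p x - t * dot ζ x := by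
  simp only [qd, toQ, dot, Prod.fst_sub, Prod.snd_sub, Prod.smul_fst, Prod.smul_snd, smul_eq_mul]
  push_cast; ring

lemma qd_sub_toQ (y : Q2) (l x : V) : qd (y - toQ l) x = qd y x - dot l x := by
  simp only [qd, toQ, dot, Prod.fst_sub, Prod.snd_sub]; push_cast; ring

lemma qd_toQ (l x : V) : qd (toQ l) x = dot l x := by
  simp only [qd, toQ, dot]; push_cast; ring

@[fun_prop] lemma am_dot {α : Type} [AddCommGroup α] [Dig α] (a : V) {f : α → V} (hf : AM f) :
    AM (fun x => dot a (f x)) := by unfold dot; fun_prop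

@[fun_prop] lemma am_n1 {α : Type} [AddCommGroup α] [Dig α] {f : α → V} (hf : AM f) :
    AM (fun x => n1 (f x)) := by unfold n1; fun_prop

/-- invariance under a vector gives invariance under its multiples -/
lemma per_zsmul {β : Type} (g : V → β) (T : V) (h : ∀ x, g (x + T) = g x) (j : ℤ) (x : V) :
    g (x + j • T) = g x := by
  induction j using Int.induction_on generalizing x with
  | zero => simp
  | succ j ih => rw [add_smul, one_smul, ← add_assoc, h, ih]
  | pred j ih =>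
    have := h (x + (-(j : ℤ) - 1) • T)
    rw [← this, add_assoc, show (-(j : ℤ) - 1) • T + T = (-(j : ℤ)) • T by
      rw [sub_smul, one_smul]; abel, ih]

/-! ### equivariant functions -/

lemma split_mod (N : ℤ) (x : V) : x = (x.1 % N, x.2 % N) + N • (x.1 / N, x.2 / N) := by
  ext
  · simp only [Prod.fst_add, Prod.smul_fst, smul_eq_mul]; exact (Int.emod_add_mul_ediv _ _).symm
  · simp only [Prod.snd_add, Prod.smul_snd, smul_eq_mul]; exact (Int.emod_add_mul_ediv _ _).symm

lemma n1_mod {N : ℤ} (hN : 0 < N) (x : V) : n1 (x.1 % N, x.2 % N) ≤ 2 * N := by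
  have h1 := Int.emod_nonneg x.1 hN.ne'
  have h2 := Int.emod_nonneg x.2 hN.ne'
  have h3 := Int.emod_lt_of_pos x.1 hN
  have h4 := Int.emod_lt_of_pos x.2 hN
  simp only [n1, abs_of_nonneg h1, abs_of_nonneg h2]; linarith

lemma eqv_near {N : ℤ} {p : Q2} {g : V → ℤ} (hN : 0 < N) (h : Eqv N p g) : Near p g := by
  obtain ⟨C, -, hC⟩ := bdd_ballQ (fun x => (g x : ℚ) + qd p x) (2 * N)
  refine ⟨C, fun x => ?_⟩
  have h1 := hC _ (n1_mod hN x)
  have h2 := h (x.1 % N, x.2 % N) (x.1 / N, x.2 / N)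
  have h3 := qd_add p (x.1 % N, x.2 % N) (N • (x.1 / N, x.2 / N))
  rw [← split_mod, qd_smul] at h3
  rw [← split_mod] at h2
  have : (g x : ℚ) + qd p x = g (x.1 % N, x.2 % N) + qd p (x.1 % N, x.2 % N) := by
    rw [h2, h3]; ring
  rw [this]; exact h1

/-- integer form of equivariance -/
lemma eqv_int {N : ℤ} {p : Q2} {g : V → ℤ} (h : Eqv N p g) (z : V) :
    ∃ a : ℤ, (a : ℚ) = N * qd p z ∧ ∀ x, g (x + N • z) = g x - a := by
  refine ⟨g 0 - g (0 + N • z), ?_, fun x => ?_⟩
  · have := h 0 z; push_cast; linarith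
  · have h1 := h 0 z
    have h2 := h x z
    have : ((g (x + N • z) : ℤ) : ℚ) = ((g x - (g 0 - g (0 + N • z)) : ℤ) : ℚ) := by
      push_cast; linarith
    exact_mod_cast this

lemma eqv_am {N : ℤ} {p : Q2} {g : V → ℤ} (hN : 0 < N) (h : Eqv N p g) : AM g := by
  obtain ⟨a, ha, -⟩ := eqv_int h (1, 0)
  obtain ⟨b, hb, -⟩ := eqv_int h (0, 1)
  have key : ∀ x : V, g x = g (x.1 % N, x.2 % N) - a * (x.1 / N) - b * (x.2 / N) := by
    intro x
    have h2 := h (x.1 % N, x.2 % N) (x.1 / N, x.2 / N)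
    rw [← split_mod] at h2
    have : ((g x : ℤ) : ℚ) = ((g (x.1 % N, x.2 % N) - a * (x.1 / N) - b * (x.2 / N) : ℤ) : ℚ) := by
      rw [h2]; push_cast; rw [ha, hb]; simp only [qd]; push_cast; ring
    exact_mod_cast this
  have h1 : AM (fun x : V => g (x.1 % N, x.2 % N)) := by
    refine AM.of_graph (P := fun x y => ∃ r ∈ {r : V | n1 r ≤ 2 * N},
      (x.1 % N, x.2 % N) = r ∧ g r = y) (AP.exFin (ball_finite _) fun r _ => by fun_prop) ?_
    intro x y
    constructor
    · rintro ⟨r, -, rfl, hy⟩; exact hy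
    · intro hy; exact ⟨_, n1_mod hN x, rfl, hy⟩
  refine AM.of_eq (f := fun x : V => g (x.1 % N, x.2 % N) - a * (x.1 / N) - b * (x.2 / N))
    ((h1.sub (by fun_prop)).sub (by fun_prop)) (fun x => (key x).symm)

/-! ### stability -/

lemma stat_mono {c g g' : V → ℤ} {x : V} (h : StAt c g' x) (hx : g x = g' x)
    (hle : ∀ i, g (x + e i) ≤ g' (x + e i)) : StAt c g x := by
  unfold StAt lap at *
  have : ∑ i : Fin 4, (g (x + e i) - g x) ≤ ∑ i : Fin 4, (g' (x + e i) - g' x) :=
    Finset.sum_le_sum fun i _ => by rw [hx]; linarith [hle i]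
  linarith

lemma stable_min {c g g' : V → ℤ} (h : Stable c g) (h' : Stable c g') :
    Stable c (fun x => min (g x) (g' x)) := by
  intro x
  rcases le_total (g x) (g' x) with hx | hx
  · exact stat_mono (h x) (min_eq_left hx) fun i => min_le_left _ _
  · exact stat_mono (h' x) (min_eq_right hx) fun i => min_le_right _ _

lemma stable_shift {c g : V → ℤ} {N : ℤ} (hc : IsBG c N) (h : Stable c g) (z : V) (a : ℤ) :
    Stable c (fun x => g (x + N • z) + a) := by
  intro x
  have := h (x + N • z)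
  unfold StAt lap at *
  rw [hc.per] at this
  simp only [add_sub_add_right_eq_sub]
  have e1 : ∀ i, x + e i + N • z = x + N • z + e i := fun i => by abel
  simp only [e1]; exact this

lemma std_one (c B : V → ℤ) (x : V) : StD c 1 B x ↔ StAt c B x := by
  simp [StD, StAt, lapD, lap, cd]

lemma kf_stable {c : V → ℤ} {N : ℤ} {k : V → Fin 4 → ℤ} {g : V → ℤ} (hk : Budget c N k)
    (hg : KF k g) : Stable c g := by
  intro x
  have h1 := hk.2 x
  have h2 : ∑ i : Fin 4, (g (x + e i) - g x) ≤ ∑ i : Fin 4, k x i :=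
    Finset.sum_le_sum fun i _ => hg x i
  unfold StAt lap; linarith

lemma kf_max {k : V → Fin 4 → ℤ} {g g' : V → ℤ} (h : KF k g) (h' : KF k g') :
    KF k (fun x => max (g x) (g' x)) := by
  intro x i
  have h1 := h x i
  have h2 := h' x i
  have h3 := le_max_left (g x) (g' x)
  have h4 := le_max_right (g x) (g' x)
  rcases le_total (g (x + e i)) (g' (x + e i)) with hx | hx
  · simp only [max_eq_right hx]; linarith
  · simp only [max_eq_left hx]; linarith

lemma kf_min {k : V → Fin 4 → ℤ} {g g' : V → ℤ} (h : KF k g) (h' : KF k g') :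
    KF k (fun x => min (g x) (g' x)) := by
  intro x i
  have h1 := h x i
  have h2 := h' x i
  have h3 := min_le_left (g (x + e i)) (g' (x + e i))
  have h4 := min_le_right (g (x + e i)) (g' (x + e i))
  rcases le_total (g x) (g' x) with hx | hx
  · simp only [min_eq_left hx]; linarith
  · simp only [min_eq_right hx]; linarith

lemma kf_add {k : V → Fin 4 → ℤ} {g : V → ℤ} (h : KF k g) (a : ℤ) : KF k (fun x => g x + a) := by
  intro x i
  have h1 := h x i
  simp only; linarith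

/-! ### derivations -/

variable {c : V → ℤ} {N : ℤ} {X : Ctx} {T : V}

lemma dvf_am {G : V → V → ℤ} (h : DvF c N X T G) : AM (fun w : V × V => G w.1 w.2) := by
  obtain ⟨L, hL, it, hit, -, rfl⟩ := h
  exact (hL it hit).1

lemma dvf_dot {G : V → V → ℤ} (h : DvF c N X T G) : dot X.l T = 0 := by
  obtain ⟨L, hL, it, hit, rfl, -⟩ := h
  exact (hL it hit).2.1

lemma dvf_stable {G : V → V → ℤ} (h : DvF c N X T G) (s : V) : Stable c (G s) := by
  obtain ⟨L, hL, it, hit, -, rfl⟩ := h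
  exact ((hL it hit).2.2 s).1

lemma dvf_per {G : V → V → ℤ} (h : DvF c N X T G) (s x : V) : G s (x + T) = G s x := by
  obtain ⟨L, hL, it, hit, rfl, rfl⟩ := h
  exact ((hL it hit).2.2 s).2.1 x

lemma am_snd {g : V → ℤ} (h : AM g) : AM (fun w : V × V => g w.2) := by fun_prop

lemma dv_am {g : V → ℤ} (h : Dv c N X T g) : AM g :=
  AM.comp (g := fun w : V × V => g w.2) (f := fun x : V => ((0 : V), x)) (dvf_am h) (by fun_prop)

/-- membership of a shifted member of a family of the list -/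
lemma mem_of (fam : List (V × (V → V → ℤ))) (G : V → V → ℤ) (hG : (T, G) ∈ fam) (s z : V) (a : ℤ) :
    Mem N X.Y (fam.map fun f => ⟨0, f.1, f.2⟩) 1 T (fun x => G s (x + N • z) + a) :=
  ⟨⟨0, T, G⟩, Or.inr ⟨List.mem_map.mpr ⟨(T, G), hG, rfl⟩, Nat.zero_lt_one⟩, ⟨1, by simp⟩,
    s, z, a, fun _ => rfl⟩

/-- the limit rule -/
lemma dv_lim (hd : dvof_stmt) {G : V → V → ℤ} {g : V → ℤ} (hG : DvF c N X T G) (hg : AM g)
    (hs : Stable c g) (hp : ∀ x, g (x + T) = g x)
    (h : ∀ R : ℤ, ∃ (s z : V) (a : ℤ), ∀ x, n1 x ≤ R → g x = G s (x + N • z) + a) :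
    Dv c N X T g := by
  refine hd c N X [(T, G)] T (fun _ => g) (by simpa using hG) (am_snd hg) (dvf_dot hG) ?_
  intro _
  refine ⟨hs, hp, Or.inr (Or.inr (Or.inr (Or.inr fun R => ?_)))⟩
  obtain ⟨s, z, a, h⟩ := h R
  exact ⟨_, mem_of [(T, G)] G (by simp) s z a, h⟩

/-- the minimum rule -/
lemma dv_min (hd : dvof_stmt) {g g' : V → ℤ} (h : Dv c N X T g) (h' : Dv c N X T g') :
    Dv c N X T (fun x => min (g x) (g' x)) := by
  have a1 := dv_am h
  have a2 := dv_am h'
  refine hd c N X [(T, fun _ => g), (T, fun _ => g')] T (fun _ x => min (g x) (g' x)) ?_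
    (by fun_prop) (dvf_dot h) ?_
  · intro f hf
    simp only [List.mem_cons, List.not_mem_nil, or_false] at hf
    rcases hf with rfl | rfl
    · exact h
    · exact h'
  intro _
  refine ⟨stable_min (dvf_stable h 0) (dvf_stable h' 0), fun x => ?_, Or.inr (Or.inl
    ⟨_, _, mem_of _ (fun _ => g) (by simp) 0 0 0, mem_of _ (fun _ => g') (by simp) 0 0 0, ?_⟩)⟩
  · have e1 : g (x + T) = g x := dvf_per h 0 x
    have e2 : g' (x + T) = g' x := dvf_per h' 0 x
    simp only [e1, e2]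
  · intro x; simp

/-- the finite modification rule, for a family -/
lemma dvf_mod (hd : dvof_stmt) {g : V → ℤ} {G : V → V → ℤ} (h : Dv c N X T g)
    (hG : AM (fun w : V × V => G w.1 w.2)) (hs : ∀ s, Stable c (G s))
    (hp : ∀ s x, G s (x + T) = G s x) (hf : ∀ s, FinMod T (fun x => G s x ≠ g x)) :
    DvF c N X T G := by
  refine hd c N X [(T, fun _ => g)] T G (fun f hf => by
    rw [List.mem_singleton.mp hf]; exact h) hG (dvf_dot h) ?_
  intro s
  refine ⟨hs s, hp s, Or.inr (Or.inr (Or.inl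
    ⟨_, mem_of _ (fun _ => g) (by simp) 0 0 0, ?_⟩))⟩
  simpa using hf s

lemma hull_min (hd : dvof_stmt) (H : List Q2) (hne : H ≠ []) (hH : ∀ y ∈ H, Hull c N X T y) :
    ∃ h, Dv c N X T h ∧ ∃ C : ℚ, ∀ y ∈ H, ∀ x, (h x : ℚ) ≤ -qd y x + C := by
  induction H with
  | nil => exact absurd rfl hne
  | cons y H ih =>
    obtain ⟨h, hh, C, hC⟩ := hH y (by simp)
    by_cases hH0 : H = []
    · subst hH0
      exact ⟨h, hh, C, by simpa using hC⟩
    · obtain ⟨h', hh', C', hC'⟩ := ih hH0 fun y' hy' => hH y' (by simp [hy'])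
      refine ⟨_, dv_min hd hh hh', max C C', ?_⟩
      intro y' hy' x
      have m1 := le_max_left C C'
      have m2 := le_max_right C C'
      rcases List.mem_cons.mp hy' with rfl | hy'
      · have h1 := hC x
        have h2 : ((min (h x) (h' x) : ℤ) : ℚ) ≤ h x := by exact_mod_cast min_le_left _ _
        linarith
      · have h1 := hC' y' hy' x
        have h2 : ((min (h x) (h' x) : ℤ) : ℚ) ≤ h' x := by exact_mod_cast min_le_right _ _
        linarith

lemma mem_mono {Y L L' : List Item} (hL : ∀ it ∈ L, it ∈ L') {n : ℕ} {g : V → ℤ}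
    (h : Mem N Y L n T g) : Mem N Y L' n T g := by
  obtain ⟨it, h1, h2⟩ := h
  exact ⟨it, h1.imp id fun h => ⟨hL it h.1, h.2⟩, h2⟩

lemma just_mono {L L' : List Item} (hL : ∀ it ∈ L, it ∈ L') {n : ℕ} {g : V → ℤ}
    (h : Just c N X L n T g) : Just c N X L' n T g := by
  obtain ⟨h1, h2, h3⟩ := h
  refine ⟨h1, h2, ?_⟩
  rcases h3 with h3 | ⟨g1, g2, m1, m2, h3⟩ | ⟨g1, m1, h3⟩ |
    ⟨h0, ⟨g1, m1, h3⟩ | ⟨it, m1, h3⟩⟩ | h3
  · exact Or.inl h3
  · exact Or.inr (Or.inl ⟨g1, g2, mem_mono hL m1, mem_mono hL m2, h3⟩)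
  · exact Or.inr (Or.inr (Or.inl ⟨g1, mem_mono hL m1, h3⟩))
  · exact Or.inr (Or.inr (Or.inr (Or.inl ⟨h0, Or.inl ⟨g1, mem_mono hL m1, h3⟩⟩)))
  · exact Or.inr (Or.inr (Or.inr (Or.inl
      ⟨h0, Or.inr ⟨it, m1.imp id fun h => ⟨hL it h.1, h.2⟩, h3⟩⟩)))
  · refine Or.inr (Or.inr (Or.inr (Or.inr fun R => ?_)))
    obtain ⟨g1, m1, h4⟩ := h3 R
    exact ⟨g1, mem_mono hL m1, h4⟩

lemma good_append {L L' : List Item} (h : Good c N X L) (h' : Good c N X L') :
    Good c N X (L ++ L') := by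
  intro it hit
  rcases List.mem_append.mp hit with hi | hi
  · exact ⟨(h it hi).1, (h it hi).2.1, fun s =>
      just_mono (fun _ hj => List.mem_append_left _ hj) ((h it hi).2.2 s)⟩
  · exact ⟨(h' it hi).1, (h' it hi).2.1, fun s =>
      just_mono (fun _ hj => List.mem_append_right _ hj) ((h' it hi).2.2 s)⟩

lemma good_all {ι : Type} (ys : List ι) (f : ι → V → ℤ) (h : ∀ y ∈ ys, Dv c N X T (f y)) :
    ∃ L, Good c N X L ∧ ∀ y ∈ ys, ∃ it ∈ L, it.T = T ∧ it.G = fun _ => f y := by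
  induction ys with
  | nil => exact ⟨[], fun _ hi => absurd hi (by simp), by simp⟩
  | cons y ys ih =>
    obtain ⟨L, hL, hy⟩ := ih fun y' hy' => h y' (by simp [hy'])
    obtain ⟨L', hL', it, hit, h1, h2⟩ := h y (by simp)
    refine ⟨L' ++ L, good_append hL' hL, fun y' hy' => ?_⟩
    rcases List.mem_cons.mp hy' with rfl | hy'
    · exact ⟨it, List.mem_append_left _ hit, h1, h2⟩
    · obtain ⟨it', hit', h3⟩ := hy y' hy'
      exact ⟨it', List.mem_append_right _ hit', h3⟩

lemma exists_not_par (T : V) : ∃ ξ, ¬ Par T ξ := by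
  by_cases hT : T = 0
  · exact ⟨(1, 0), fun h => absurd (h.2 hT) (by simp)⟩
  · refine ⟨rot T, fun h => ?_⟩
    have h1 := dot_self_pos hT
    have h2 := h.1
    simp only [det, rot, dot] at h1 h2
    linarith

end Pool.Agent.Sand.Macro2
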