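import Pool.Agent.Lib.MP_215a10_lc.Dec.Macro2a

/-! Derived rules (third batch): surgery in a band against cylinder functions. -/

set_option autoImplicit false

namespace Pool.Agent.Sand

open Macro2 Classical

theorem phC_proof (hd : dvof_stmt) (hk : dickson_stmt) : phC_stmt := by
  intro c N X T F B H _ _ _ hF hFs hBT hlow hH hPS
  have hcov : ∀ ξ, ¬ Par T ξ → ∃ y ∈ H, ∃ b ∈ B, qd b ξ < qd y ξ := by
    intro ξ hξ
    rcases hPS ξ hξ with ⟨w, hw, -⟩ | h
    · simp at hw
    · exact h
  obtain ⟨ξ0, hξ0⟩ := exists_not_par T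
  obtain ⟨y0, hy0, b0, hb0, -⟩ := hcov ξ0 hξ0
  obtain ⟨h, hh, Ch, hCh⟩ := hull_min hd H (List.ne_nil_of_mem hy0) hH
  have hham := dv_am hh
  have hhT : ∀ x, h (x + T) = h x := dvf_per hh 0
  have hhs : Stable c h := dvf_stable hh 0
  have hF' : AM (fun w : V × V => F w.1.1 w.2) :=
    AM.comp (g := fun w : ℤ × V => F w.1 w.2) (f := fun w : V × V => (w.1.1, w.2)) hF
      (by fun_prop)
  have hsub : ∀ (y b : Q2) (x : V), qd (y - b) x = qd y x - qd b x := by
    intro y b x; simp only [qd, Prod.fst_sub, Prod.snd_sub]; ring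
  have step : DvF c N X 0 (fun s x => min (F s.1 x) (h x + s.2)) := by
    refine hd c N X [(T, fun _ => h)] 0 _ (fun f hf => by
      rw [List.mem_singleton.mp hf]; exact hh) (hF'.min (by fun_prop)) (by simp [dot]) fun s => ?_
    have hst : Stable c (fun x => h x + s.2) := by
      intro x
      have := hhs x
      unfold StAt lap at *
      simpa only [add_sub_add_right_eq_sub] using this
    obtain ⟨C, hC⟩ := hlow s.1
    obtain ⟨R, hR⟩ := (hk (H.flatMap fun y => B.map fun b => y - b) (C + Ch + s.2)).1 T (by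
      intro ξ hξ
      obtain ⟨y, hy, b, hb, h3⟩ := hcov ξ hξ
      refine ⟨y - b, List.mem_flatMap.mpr ⟨y, hy, List.mem_map.mpr ⟨b, hb, rfl⟩⟩, ?_⟩
      rw [hsub]; linarith)
    have hfin : ∀ x, F s.1 x < h x + s.2 → ∃ j : ℤ, n1 (x - j • T) ≤ R := by
      intro x hx
      refine hR x fun w hw => ?_
      obtain ⟨y, hy, hw⟩ := List.mem_flatMap.mp hw
      obtain ⟨b, hb, rfl⟩ := List.mem_map.mp hw
      have h1 := hC x b hb
      have h2 := hCh y hy x
      have h3 : (F s.1 x : ℚ) < h x + s.2 := by exact_mod_cast hx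
      rw [hsub]; linarith
    refine ⟨stable_min (hFs s.1) hst, by simp, Or.inr (Or.inr (Or.inr (Or.inl ⟨rfl, Or.inr
      ⟨⟨0, T, fun _ => h⟩, Or.inr ⟨by simp, Nat.zero_lt_one⟩, 0, 0, s.2, ⟨R, fun x hx => ?_⟩,
        ?_⟩⟩)))⟩
    · refine hfin x ?_
      by_contra hn
      exact hx (by simp [min_eq_right (not_lt.mp hn)])
    · obtain ⟨K, hK0, hK⟩ := bdd_ballQ (fun x => (h x : ℚ) + qd b0 x) R
      refine ⟨max 0 ⌈K + C + s.2⌉, fun x => ?_⟩
      simp only [smul_zero, add_zero]
      by_cases hx : F s.1 x < h x + s.2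
      · obtain ⟨j, hj⟩ := hfin x hx
        have h1 := le_of_abs_le (hK _ hj)
        have h2 : h (x - j • T) = h x := by
          rw [← per_zsmul h T hhT j (x - j • T), sub_add_cancel]
        have h3 : qd b0 (x - j • T) = qd b0 x := by
          have := qd_add b0 (x - j • T) (j • T)
          rw [sub_add_cancel, qd_smul, hBT b0 hb0] at this
          linarith
        rw [h2, h3] at h1
        have h4 := hC x b0 hb0
        rw [min_eq_left hx.le, abs_of_neg (by linarith)]
        refine le_trans ?_ (le_max_right _ _)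
        have : ((-(F s.1 x - (h x + s.2)) : ℤ) : ℚ) ≤ ((⌈K + C + s.2⌉ : ℤ) : ℚ) := by
          refine le_trans ?_ (Int.le_ceil _)
          push_cast; linarith
        exact_mod_cast this
      · rw [min_eq_right (not_lt.mp hx)]; simp
  refine hd c N X [(0, fun s x => min (F s.1 x) (h x + s.2))] 0 _ (fun f hf => by
    rw [List.mem_singleton.mp hf]; exact step) hF' (by simp [dot]) fun s => ?_
  refine ⟨hFs s.1, by simp, Or.inr (Or.inr (Or.inr (Or.inr fun R => ?_)))⟩
  obtain ⟨a, -, ha⟩ := bdd_ball (fun x => F s.1 x - h x) R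
  refine ⟨_, mem_of _ (fun s x => min (F s.1 x) (h x + s.2)) (by simp) (s.1, a) 0 0,
    fun x hx => ?_⟩
  have := le_of_abs_le (ha x hx)
  simp only [smul_zero, add_zero]
  rw [min_eq_left (by linarith)]

theorem kmaxC_proof (hd : dvof_stmt) (h0 : phC_stmt) : kmaxC_stmt := by
  intro c N0 X T k g B H hc hT hl hk hg hga hB hH hPS
  obtain ⟨h, h1, h2, C, hC⟩ : ∃ h : V → ℤ, KF k h ∧ AM h ∧
      ∃ C : ℚ, ∀ x, ∀ b ∈ B, -qd b x - C ≤ h x := by
    clear hPS
    induction B with
    | nil => exact ⟨g, hg, hga, 0, by simp⟩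
    | cons b B ih =>
      obtain ⟨h, h1, h2, C, hC⟩ := ih fun b' hb' => hB b' (by simp [hb'])
      obtain ⟨-, h', h1', h2', C', hC'⟩ := hB b (by simp)
      refine ⟨fun x => max (h x) (h' x), kf_max h1 h1', h2.max h2', max C C', fun x b' hb' => ?_⟩
      have m1 := le_max_left C C'
      have m2 := le_max_right C C'
      rcases List.mem_cons.mp hb' with rfl | hb'
      · have a1 := (abs_le.mp (hC' x)).1
        have a2 : (h' x : ℚ) ≤ ((max (h x) (h' x) : ℤ) : ℚ) := by exact_mod_cast le_max_right _ _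
        linarith
      · have a1 := hC x b' hb'
        have a2 : (h x : ℚ) ≤ ((max (h x) (h' x) : ℤ) : ℚ) := by exact_mod_cast le_max_left _ _
        linarith
  have hF := h0 c N0 X T (fun a x => max (h x) (g x + a)) B H hc hT hl (by fun_prop)
    (fun a => kf_stable hk (kf_max h1 (kf_add hg a))) (fun b hb => (hB b hb).1)
    (fun a => ⟨C, fun x b hb => by
      have a1 := hC x b hb
      have a2 : (h x : ℚ) ≤ ((max (h x) (g x + a) : ℤ) : ℚ) := by exact_mod_cast le_max_left _ _
      linarith⟩) hH hPS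
  refine dv_lim hd hF hga (kf_stable hk hg) (by simp) fun R => ?_
  obtain ⟨a, -, ha⟩ := bdd_ball (fun x => h x - g x) R
  refine ⟨(a, 0), 0, -a, fun x hx => ?_⟩
  have := le_of_abs_le (ha x hx)
  simp only [smul_zero, add_zero]
  rw [max_eq_right (by linarith)]; ring

end Pool.Agent.Sand
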