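import Pool.Agent.Lib.MP_215a10_lc.Dec.Stmts

/-! Planarity: a periodic path separates the two sides of a band. -/

set_option autoImplicit false

namespace Pool.Agent.Sand

namespace Planar

theorem step_cases {u v : V} (h : ∃ i, v = u + e i) :
    v = (u.1 + 1, u.2) ∨ v = (u.1 - 1, u.2) ∨ v = (u.1, u.2 + 1) ∨ v = (u.1, u.2 - 1) := by
  obtain ⟨i, rfl⟩ := h
  fin_cases i <;> simp [e, Prod.ext_iff, sub_eq_add_neg]

theorem step_symm {u v : V} (h : ∃ i, v = u + e i) : ∃ i, u = v + e i := by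
  obtain ⟨i, rfl⟩ := h
  refine ⟨opp i, ?_⟩
  fin_cases i <;> simp [e, opp, Prod.ext_iff]

theorem symm {A : Set V} {x y : V} (h : Conn A x y) : Conn A y x := by
  induction h with
  | refl => exact Relation.ReflTransGen.refl
  | tail _ s ih => exact Relation.ReflTransGen.head ⟨s.2.1, s.1, step_symm s.2.2⟩ ih

theorem mono {A B : Set V} (hAB : A ⊆ B) {x y : V} (h : Conn A x y) : Conn B x y := by
  induction h with
  | refl => exact Relation.ReflTransGen.refl
  | tail _ s ih => exact ih.tail ⟨hAB s.1, hAB s.2.1, s.2.2⟩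

theorem shift {A : Set V} {T : V} (hT : ∀ x ∈ A, x + T ∈ A) {x y : V} (h : Conn A x y) :
    Conn A (x + T) (y + T) := by
  induction h with
  | refl => exact Relation.ReflTransGen.refl
  | tail _ s ih =>
    obtain ⟨h1, h2, i, rfl⟩ := s
    exact ih.tail ⟨hT _ h1, hT _ h2, i, by abel⟩

theorem bounded {A : Set V} (f : V → ℤ) {x y : V} (h : Conn A x y) :
    ∃ R : ℤ, Conn (A ∩ {u | |f u| ≤ R}) x y := by
  induction h with
  | refl => exact ⟨0, Relation.ReflTransGen.refl⟩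
  | @tail b c _ s ih =>
    obtain ⟨R, hR⟩ := ih
    refine ⟨max R (max |f b| |f c|), (mono ?_ hR).tail ⟨⟨s.1, ?_⟩, ⟨s.2.1, ?_⟩, s.2.2⟩⟩
    · intro u hu
      refine ⟨hu.1, ?_⟩
      show |f u| ≤ _
      exact (show |f u| ≤ R from hu.2).trans (le_max_left _ _)
    · show |f b| ≤ _
      exact le_max_of_le_right (le_max_left _ _)
    · show |f c| ≤ _
      exact le_max_of_le_right (le_max_right _ _)

theorem swap {A : Set V} {x y : V} (h : Conn A x y) :
    Conn (Prod.swap ⁻¹' A) x.swap y.swap := by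
  induction h with
  | refl => exact Relation.ReflTransGen.refl
  | tail _ s ih =>
    obtain ⟨h1, h2, i, rfl⟩ := s
    refine ih.tail ⟨by simpa using h1, by simpa using h2, (![2, 3, 0, 1] : Fin 4 → Fin 4) i, ?_⟩
    fin_cases i <;> simp [e]

/-- signed crossing number of the ray going right from `v` -/
theorem wind {S : Set V} {p q : V} (h : Conn S p q) : ∃ ι : V → ℤ,
    (∀ v : V, (v.1 + 1, v.2) ∉ S → ι (v.1 + 1, v.2) = ι v) ∧
    (∀ v : V, (v.1, v.2 + 1) ∉ S → ι v - ι (v.1, v.2 + 1) =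
      (if v.1 < q.1 ∧ q.2 = v.2 + 1 then 1 else 0) - (if v.1 < p.1 ∧ p.2 = v.2 + 1 then 1 else 0)) ∧
    (∀ v : V, (∀ u ∈ S, u.2 = v.2 ∨ u.2 = v.2 + 1 → v.1 < u.1) →
      ι v = (if v.2 < q.2 then 1 else 0) - (if v.2 < p.2 then 1 else 0)) ∧
    (∀ v : V, (∀ u ∈ S, u.2 = v.2 ∨ u.2 = v.2 + 1 → u.1 ≤ v.1) → ι v = 0) := by
  induction h with
  | refl => exact ⟨fun _ => 0, fun _ _ => rfl, fun _ _ => by simp, fun _ _ => by simp,
      fun _ _ => rfl⟩
  | @tail a b _ s ih =>
    obtain ⟨ι, h1, h2, h3, h4⟩ := ih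
    obtain ⟨ha, hb, s⟩ := s
    have s := step_cases s
    obtain ⟨a1, a2⟩ := a
    obtain ⟨b1, b2⟩ := b
    simp only [Prod.mk.injEq] at s
    refine ⟨fun v => ι v + if v.1 < a1 ∧ v.1 < b1 then
      (if v.2 < b2 then 1 else 0) - (if v.2 < a2 then 1 else 0) else 0, ?_, ?_, ?_, ?_⟩
    · intro v hv
      have na : ¬ (a1 = v.1 + 1 ∧ a2 = v.2) := fun h => hv (by rw [← h.1, ← h.2]; exact ha)
      have nb : ¬ (b1 = v.1 + 1 ∧ b2 = v.2) := fun h => hv (by rw [← h.1, ← h.2]; exact hb)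
      simp only [h1 v hv]
      split_ifs <;> omega
    · intro v hv
      have na : ¬ (a1 = v.1 ∧ a2 = v.2 + 1) := fun h => hv (by rw [← h.1, ← h.2]; exact ha)
      have nb : ¬ (b1 = v.1 ∧ b2 = v.2 + 1) := fun h => hv (by rw [← h.1, ← h.2]; exact hb)
      have := h2 v hv
      simp only at this ⊢
      split_ifs at this ⊢ <;> omega
    · intro v hv
      have := h3 v hv
      have na := hv _ ha
      have nb := hv _ hb
      simp only at this na nb ⊢
      split_ifs at this ⊢ <;> omega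
    · intro v hv
      have := h4 v hv
      have na := hv _ ha
      have nb := hv _ hb
      simp only at this na nb ⊢
      split_ifs <;> omega

theorem cross {S : Set V} (hS : ∀ R : ℤ, ∃ p q, Conn S p q ∧ p.2 < -R ∧ R < q.2) {x y : V}
    (h : Conn Sᶜ x y) (hx : ∀ u ∈ S, u.2 = x.2 ∨ u.2 = x.2 + 1 → x.1 < u.1)
    (hy : ∀ u ∈ S, u.2 = y.2 ∨ u.2 = y.2 + 1 → u.1 ≤ y.1) : False := by
  obtain ⟨R, hR⟩ := bounded Prod.snd h
  obtain ⟨p, q, hpq, hp, hq⟩ := hS (max R |x.2| + 1)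
  obtain ⟨ι, h1, h2, h3, h4⟩ := wind hpq
  have key : ∀ z, Conn (Sᶜ ∩ {u | |u.2| ≤ R}) x z → ι z = ι x := by
    intro z hz
    induction hz with
    | refl => rfl
    | @tail a b _ s ih =>
      rw [← ih]
      obtain ⟨⟨ha, ha'⟩, ⟨hb, hb'⟩, s⟩ := s
      simp only [Set.mem_ofPred_eq, abs_le] at ha' hb'
      have m := le_max_left R |x.2|
      rcases step_cases s with rfl | rfl | rfl | rfl
      · exact h1 a hb
      · have := h1 (a.1 - 1, a.2) (by simpa using ha)
        simpa using this.symm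
      · have := h2 a hb
        simp only at hb'
        rw [if_neg (by omega), if_neg (by omega)] at this
        omega
      · have := h2 (a.1, a.2 - 1) (by simpa using ha)
        simp only [sub_add_cancel, Prod.mk.eta] at this hb'
        rw [if_neg (by omega), if_neg (by omega)] at this
        omega
  have e1 := key y hR
  have m := le_max_right R |x.2|
  have m1 := le_abs_self x.2
  have m2 := neg_abs_le x.2
  rw [h4 y hy, h3 x hx, if_pos (by omega), if_neg (by omega)] at e1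
  omega

theorem iter {W : Set V} {T x : V} (hT : ∀ u, u + T ∈ W ↔ u ∈ W) (h : Conn W x (x + T))
    (m : ℕ) : Conn W (x - (m : ℤ) • T) (x + (m : ℤ) • T) := by
  have up : ∀ m : ℕ, Conn W x (x + (m : ℤ) • T) := by
    intro m
    induction m with
    | zero =>
      rw [Nat.cast_zero, zero_smul, add_zero]
      exact Relation.ReflTransGen.refl
    | succ m ih =>
      have := shift (fun u hu => (hT u).2 hu) ih
      rw [show x + ((m + 1 : ℕ) : ℤ) • T = x + (m : ℤ) • T + T by push_cast; module]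
      exact h.trans this
  have dn : ∀ m : ℕ, Conn W (x - (m : ℤ) • T) x := by
    intro m
    induction m with
    | zero =>
      rw [Nat.cast_zero, zero_smul, sub_zero]
      exact Relation.ReflTransGen.refl
    | succ m ih =>
      have s : ∀ u ∈ W, u + -T ∈ W := fun u hu => (hT _).1 (by simpa using hu)
      have h1 := shift s ih
      have h2 := shift s h
      rw [show x - ((m + 1 : ℕ) : ℤ) • T = x - (m : ℤ) • T + -T by push_cast; module]
      have h3 : Conn W (x + -T) x := by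
        rw [show x + T + -T = x by abel] at h2
        exact h2
      exact h1.trans h3
  exact (dn m).trans (up m)

theorem core2 {τ T x₀ : V} {W : Set V} (hτ : τ.2 ≠ 0) (hT0 : T.2 ≠ 0) (hb : IBand τ W)
    (hT : ∀ u, u + T ∈ W ↔ u ∈ W) (h : Conn W x₀ (x₀ + T)) :
    ∃ C : ℤ, ∀ x y, Conn Wᶜ x y → C ≤ det τ x → det τ y ≤ -C → False := by
  obtain ⟨C₀, hC⟩ := hb
  have hS : ∀ R : ℤ, ∃ p q, Conn W p q ∧ p.2 < -R ∧ R < q.2 := by
    intro R
    obtain ⟨m, hm⟩ := Int.eq_ofNat_of_zero_le (show 0 ≤ |R| + |x₀.2| + 1 by positivity)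
    have a1 := le_abs_self R
    have a2 := le_abs_self x₀.2
    have a3 := neg_abs_le x₀.2
    have a4 := abs_nonneg R
    have hi := iter hT h m
    rcases lt_or_gt_of_ne hT0 with t | t
    · refine ⟨_, _, symm hi, ?_, ?_⟩ <;> simp <;> nlinarith
    · refine ⟨_, _, hi, ?_, ?_⟩ <;> simp <;> nlinarith
  have a1 := le_abs_self τ.1
  have a2 := neg_abs_le τ.1
  have big : ∀ x : V, C₀ + |τ.1| + 1 ≤ det τ x → ∀ u ∈ W, u.2 = x.2 ∨ u.2 = x.2 + 1 →
      0 < τ.2 * (u.1 - x.1) := by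
    intro x hx u hu h
    have := (abs_le.1 (hC u hu)).2
    unfold det at hx this
    rcases h with h | h <;> rw [h] at this <;> nlinarith
  have small : ∀ x : V, det τ x ≤ -(C₀ + |τ.1| + 1) → ∀ u ∈ W, u.2 = x.2 ∨ u.2 = x.2 + 1 →
      τ.2 * (u.1 - x.1) < 0 := by
    intro x hx u hu h
    have := (abs_le.1 (hC u hu)).1
    unfold det at hx this
    rcases h with h | h <;> rw [h] at this <;> nlinarith
  refine ⟨C₀ + |τ.1| + 1, fun x y hxy hx hy => ?_⟩
  rcases lt_or_gt_of_ne hτ with t | t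
  · exact cross hS (symm hxy) (fun u hu h => by nlinarith [small y hy u hu h])
      (fun u hu h => by nlinarith [big x hx u hu h])
  · exact cross hS hxy (fun u hu h => by nlinarith [big x hx u hu h])
      (fun u hu h => by nlinarith [small y hy u hu h])

theorem core {τ T x₀ : V} {W : Set V} (hτ : τ ≠ 0) (hT0 : T ≠ 0) (hd : det τ T = 0)
    (hb : IBand τ W) (hT : ∀ u, u + T ∈ W ↔ u ∈ W) (h : Conn W x₀ (x₀ + T)) :
    ∃ C : ℤ, ∀ x y, Conn Wᶜ x y → C ≤ det τ x → det τ y ≤ -C → False := by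
  unfold det at hd
  by_cases h2 : τ.2 = 0
  · have h1 : τ.1 ≠ 0 := fun h1 => hτ (Prod.ext h1 h2)
    have h3 : T.2 = 0 := by
      rw [h2, zero_mul, sub_zero] at hd
      exact (mul_eq_zero.1 hd).resolve_left h1
    have h4 : T.1 ≠ 0 := fun h4 => hT0 (Prod.ext h4 h3)
    have e1 : ∀ u : V, det τ.swap u.swap = -det τ u := fun u => by simp [det]
    obtain ⟨C₀, hC⟩ := hb
    obtain ⟨C, hC'⟩ := core2 (τ := τ.swap) (T := T.swap) (x₀ := x₀.swap) (W := Prod.swap ⁻¹' W)
      h1 h4 ⟨C₀, fun u hu => by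
        have := e1 u.swap
        rw [Prod.swap_swap] at this
        rw [this, abs_neg]
        exact hC _ hu⟩ (fun u => by simpa using hT u.swap) (by simpa using swap h)
    refine ⟨C, fun x y hxy hx hy => hC' y.swap x.swap (swap (symm hxy)) ?_ ?_⟩ <;>
      rw [e1] <;> omega
  · refine core2 h2 (fun h3 => hT0 (Prod.ext ?_ h3)) hb hT h
    rw [h3, mul_zero, zero_sub, neg_eq_zero] at hd
    exact (mul_eq_zero.1 hd).resolve_left h2

theorem zper {W : Set V} {T : V} (hT : ∀ u, u + T ∈ W ↔ u ∈ W) (j : ℤ) (u : V) :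
    u + j • T ∈ W ↔ u ∈ W := by
  induction j using Int.induction_on with
  | zero => simp
  | succ j ih => rw [add_smul, one_smul, ← add_assoc, hT, ih]
  | pred j ih =>
    rw [← ih, ← hT (u + (-(j : ℤ) - 1) • T)]
    congr! 1
    module

theorem sq_pos {T : V} (hT : T ≠ 0) : 0 < dot T T := by
  unfold dot
  by_contra h
  exact hT (Prod.ext (by simp; nlinarith [sq_nonneg T.1, sq_nonneg T.2])
    (by simp; nlinarith [sq_nonneg T.1, sq_nonneg T.2]))

theorem ret {N : ℤ} (hN : 0 < N) {A : Set V} {x : V} (h : {y | Conn A x y}.Infinite) :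
    ∃ u z : V, z ≠ 0 ∧ Conn A u (u + N • z) := by
  obtain ⟨u, hu, v, hv, hne, he⟩ := h.exists_ne_map_eq_of_mapsTo
    (f := fun u : V => (u.1 % N, u.2 % N)) (t := Set.Ico 0 N ×ˢ Set.Ico 0 N)
    (fun u _ => ⟨⟨Int.emod_nonneg _ hN.ne', Int.emod_lt_of_pos _ hN⟩,
      Int.emod_nonneg _ hN.ne', Int.emod_lt_of_pos _ hN⟩)
    ((Set.finite_Ico _ _).prod (Set.finite_Ico _ _))
  simp only [Prod.mk.injEq] at he
  obtain ⟨a, ha⟩ := Int.ModEq.dvd he.1
  obtain ⟨b, hb⟩ := Int.ModEq.dvd he.2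
  have e1 : v = u + N • ((a, b) : V) := Prod.ext (by simp; linarith) (by simp; linarith)
  refine ⟨u, (a, b), fun h0 => hne (by rw [e1, h0]; simp), ?_⟩
  rw [← e1]
  exact (symm hu).trans hv

theorem par {N : ℤ} (hN : 0 < N) {A : Set V} (hA : ∀ x z, x + N • z ∈ A ↔ x ∈ A) {u z v w : V}
    (h1 : Conn A u (u + N • z)) (h2 : Conn Aᶜ v (v + N • w)) : det z w = 0 := by
  by_cases hz : z = 0
  · simp [hz, det]
  by_contra hd
  obtain ⟨R, hR⟩ := bounded (det z) h1
  have e0 : ∀ x, det z (x + N • z) = det z x := fun x => by simp [det]; ring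
  obtain ⟨C, hC⟩ := core (τ := z) (T := N • z) (W := A ∩ {x | |det z x| ≤ R}) hz
    (smul_ne_zero hN.ne' hz) (by simp [det]; ring) ⟨R, fun x hx => hx.2⟩
    (fun x => by simp only [Set.mem_inter_iff, Set.mem_ofPred_eq, hA, e0]) hR
  obtain ⟨m, hm⟩ := Int.eq_ofNat_of_zero_le (show 0 ≤ |C| + |det z v| by positivity)
  have hi := mono (A := Aᶜ) (B := (A ∩ {x | |det z x| ≤ R})ᶜ) (fun x hx h => hx h.1)
    (iter (fun x => not_congr (hA x w)) h2 m)
  have e1 : det z (v - (m : ℤ) • N • w) = det z v - m * (N * det z w) := by simp [det]; ring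
  have e2 : det z (v + (m : ℤ) • N • w) = det z v + m * (N * det z w) := by simp [det]; ring
  have a1 := le_abs_self C
  have a2 := le_abs_self (det z v)
  have a3 := neg_abs_le (det z v)
  have a4 : (0 : ℤ) ≤ m := by positivity
  rcases lt_or_gt_of_ne hd with t | t
  · have : N * det z w ≤ -1 := by nlinarith
    exact hC _ _ hi (by rw [e1]; nlinarith) (by rw [e2]; nlinarith)
  · have : 1 ≤ N * det z w := by nlinarith
    exact hC _ _ (symm hi) (by rw [e2]; nlinarith) (by rw [e1]; nlinarith)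

theorem lane {N : ℤ} (hN : 0 < N) {B : Set V} (hB : ∀ x z, x + N • z ∈ B ↔ x ∈ B) {τ : V}
    (h : ∀ u z, Conn B u (u + N • z) → det τ z = 0) :
    ∃ C : ℤ, ∀ x y, Conn B x y → |det τ (y - x)| ≤ C := by
  classical
  let π : V → V := fun u => (u.1 % N, u.2 % N)
  have hπ : ∀ u v, π u = π v → ∃ z, v = u + N • z := by
    intro u v he
    simp only [π, Prod.mk.injEq] at he
    obtain ⟨a, ha⟩ := Int.ModEq.dvd he.1
    obtain ⟨b, hb⟩ := Int.ModEq.dvd he.2
    exact ⟨(a, b), Prod.ext (by simp; linarith) (by simp; linarith)⟩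
  have same : ∀ x y x' y', Conn B x y → Conn B x' y' → π x' = π x → π y' = π y →
      det τ (y - x) = det τ (y' - x') := by
    intro x y x' y' h1 h2 e1 e2
    obtain ⟨a, rfl⟩ := hπ _ _ e1
    obtain ⟨b, rfl⟩ := hπ _ _ e2
    have h3 := (symm (shift (fun u hu => (hB u a).2 hu) h2)).trans h1
    have h4 := h (y' + N • a) (b - a) (by
      rw [show y' + N • a + N • (b - a) = y' + N • b by module]
      exact h3)
    simp only [det, Prod.fst_sub, Prod.snd_sub, Prod.fst_add, Prod.snd_add, Prod.smul_fst,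
      Prod.smul_snd, smul_eq_mul] at h4 ⊢
    linear_combination N * h4
  let g : V × V → ℤ := fun k =>
    if hk : ∃ p : V × V, Conn B p.1 p.2 ∧ π p.1 = k.1 ∧ π p.2 = k.2 then
      |det τ (hk.choose.2 - hk.choose.1)| else 0
  have fin : (g '' ((Set.Ico 0 N ×ˢ Set.Ico 0 N) ×ˢ (Set.Ico 0 N ×ˢ Set.Ico 0 N))).Finite :=
    (((Set.finite_Ico _ _).prod (Set.finite_Ico _ _)).prod
      ((Set.finite_Ico _ _).prod (Set.finite_Ico _ _))).image _
  obtain ⟨C, hC⟩ := fin.bddAbove
  refine ⟨C, fun x y hxy => hC ⟨(π x, π y), ?_, ?_⟩⟩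
  · have m : ∀ t : ℤ, t % N ∈ Set.Ico 0 N := fun t =>
      ⟨Int.emod_nonneg _ hN.ne', Int.emod_lt_of_pos _ hN⟩
    exact ⟨⟨m _, m _⟩, m _, m _⟩
  · have hk : ∃ p : V × V, Conn B p.1 p.2 ∧ π p.1 = (π x, π y).1 ∧ π p.2 = (π x, π y).2 :=
      ⟨(x, y), hxy, rfl, rfl⟩
    simp only [g, dif_pos hk]
    rw [same x y _ _ hxy hk.choose_spec.1 hk.choose_spec.2.1 hk.choose_spec.2.2]

end Planar

open Planar

theorem separate_proof : separate_stmt := by
  classical
  rintro τ T W hτ hT0 hd ⟨C₀, hC⟩ hT ⟨x, -, hx⟩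
  have hn := sq_pos hT0
  obtain ⟨u, hu, v, hv, hne, he⟩ := hx.exists_ne_map_eq_of_mapsTo
    (f := fun u : V => (if u ∈ W then det τ u else C₀ + 1, dot T u % dot T T))
    (t := Set.Icc (-|C₀| - 1) (|C₀| + 1) ×ˢ Set.Ico 0 (dot T T))
    (fun u _ => ⟨by
      have a1 := le_abs_self C₀
      have a2 := neg_abs_le C₀
      by_cases h : u ∈ W
      · have := abs_le.1 (hC u h)
        simp only [if_pos h, Set.mem_Icc]
        omega
      · simp only [if_neg h, Set.mem_Icc]
        omega, Int.emod_nonneg _ hn.ne', Int.emod_lt_of_pos _ hn⟩)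
    ((Set.finite_Icc _ _).prod (Set.finite_Ico _ _))
  have huv : Conn W u v := (symm hu).trans hv
  have mem : ∀ a b, Conn W a b → a ≠ b → b ∈ W := by
    intro a b h hab
    rcases Relation.ReflTransGen.cases_tail h with h | ⟨c, -, h⟩
    · exact absurd h.symm hab
    · exact h.2.1
  have hvW := mem _ _ huv hne
  have huW := mem _ _ (symm huv) hne.symm
  simp only [Prod.mk.injEq, if_pos huW, if_pos hvW] at he
  obtain ⟨j, hj⟩ := Int.ModEq.dvd he.2
  have e1 := he.1
  have hp := sq_pos hτ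
  have e2 : det T v = det T u := by
    apply mul_left_cancel₀ hp.ne'
    unfold det dot at *
    linear_combination (-(τ.1 * T.1 + τ.2 * T.2)) * e1 +
      (-(τ.1 * (v.1 - u.1) + τ.2 * (v.2 - u.2))) * hd
  have e3 : v = u + j • T := by
    unfold det dot at *
    refine Prod.ext (mul_left_cancel₀ hn.ne' ?_) (mul_left_cancel₀ hn.ne' ?_) <;>
      simp only [Prod.fst_add, Prod.snd_add, Prod.smul_fst, Prod.smul_snd, smul_eq_mul]
    · linear_combination T.1 * hj - T.2 * e2
    · linear_combination T.2 * hj + T.1 * e2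
  refine core (T := j • T) (x₀ := u) hτ (fun h => hne (by rw [e3, h, add_zero])) ?_ ⟨C₀, hC⟩
    (zper hT j) (e3 ▸ huv)
  unfold det at hd ⊢
  simp only [Prod.smul_fst, Prod.smul_snd, smul_eq_mul]
  linear_combination j * hd

theorem lanes_proof : lanes_stmt := by
  rintro N A hN hA ⟨a, ha⟩ ⟨b, hb⟩ h1 h2
  obtain ⟨u, z, hz, hu⟩ := ret hN (h1 a ha)
  obtain ⟨v, w, hw, hv⟩ := ret hN (h2 b hb)
  have hzw := par hN hA hu hv
  obtain ⟨C₁, hC₁⟩ := lane hN hA (τ := z) (fun u' z' h => by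
    have e1 := par hN hA h hv
    apply mul_left_cancel₀ (sq_pos hw).ne'
    unfold det dot at *
    linear_combination (w.1 * z'.1 + w.2 * z'.2) * hzw - (w.1 * z.1 + w.2 * z.2) * e1)
  obtain ⟨C₂, hC₂⟩ := lane hN (B := Aᶜ) (fun x z => not_congr (hA x z)) (τ := z)
    (fun u' z' h => par hN hA hu h)
  refine ⟨z, hz, max C₁ C₂, fun x y h => ?_⟩
  rcases h with h | h
  · exact le_max_of_le_left (hC₁ x y h)
  · exact le_max_of_le_right (hC₂ x y h)

end Pool.Agent.Sand
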