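import Pool.Agent.Lib.MP_215a10_lc.Dec.Poly2

/-! The chain attached to a polygon with subdivided edges. -/

set_option autoImplicit false

namespace Pool.Agent.Sand.Poly

open Pool.Agent.Sand Classical

/-- the data at the corner `p` between edges with normals `n` and `n'` -/
structure Corner (c : V → ℤ) (CP : Q2 → Prop) (p : Q2) (n n' : V) (W1 W3 : Prop) (m : V) :
    Prop where
  d1 : 0 < det n m
  d2 : 0 < det m n'
  d3 : 0 < det n n' ∨ (det n n' = 0 ∧ dot n n' < 0)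
  w1 : W1 → HasWire c p n
  w2 : ¬ W1 → ¬ W3 → HasWire c p m
  w3 : W3 → HasWire c p n'
  zero : p = 0 → W1 ∧ W3 ∧ HasWFWire c p n ∧ HasWFWire c p n' ∧
    ∃ η : V, 0 ≤ dot η n ∧ 0 ≤ dot η m ∧ 0 ≤ dot η n' ∧ ZeroLink c η
  nz : p ≠ 0 → ¬ (W1 ∧ W3) ∧ 0 < qd p m ∧ (CP p → qd p n = 0 → W1 → HasWFWire c p n) ∧
    (CP p → qd p n' = 0 → W3 → HasWFWire c p n')

/-- the data on an edge whose line passes through the origin -/
structure ZeroEdge (c : V → ℤ) (CP : Q2 → Prop) (n : V) (k : ℕ) (r : ℕ → Q2) (iR iL : ℕ) :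
    Prop where
  le1 : iR ≤ iL
  le2 : iL ≤ k
  tent : ∀ i, iR ≤ i → i < iL → HasWFTent c (r i) (r (i + 1)) n
  wire : ∀ i, iR ≤ i → i ≤ iL → 0 < i → i < k → HasWFWire c (r i) n
  cL : CylData c (r iL) n 1
  cR : CylData c (r iR) n (-1)
  sL : 0 ≤ qd (r iL) (rot n)
  sR : qd (r iR) (rot n) ≤ 0
  pL : r iL = 0 ∨ CP (r iL)
  pR : r iR = 0 ∨ CP (r iR)
  zL : iL = 0 → r 0 = 0
  zR : iR = k → r k = 0

structure Pg where
  Vx : Type
  fin : Finite Vx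
  nx : Vx → Vx
  nv : Vx → V
  k : Vx → ℕ
  kpos : ∀ v, 0 < k v
  r : Vx → ℕ → Q2
  W1 : Vx → Prop
  W3 : Vx → Prop
  m : Vx → V

namespace Pg

variable (T : Pg)

structure Good (c : V → ℤ) (CP : Q2 → Prop) : Prop where
  ne : Nonempty T.Vx
  surj : Function.Surjective T.nx
  hn : ∀ v, T.nv v ≠ 0
  link : ∀ v, T.r v (T.k v) = T.r (T.nx v) 0
  step : ∀ v, ∀ i < T.k v, ∃ μ : ℚ, 0 < μ ∧ T.r v (i + 1) - T.r v i = μ • toQ (rot (T.nv v))
  hs : ∀ v, 0 ≤ qd (T.r v 0) (T.nv v)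
  tent : ∀ v, ∀ i < T.k v, HasTent c (T.r v i) (T.r v (i + 1))
  wire : ∀ v i, 0 < i → i < T.k v → HasWire c (T.r v i) (T.nv v)
  zer : ∀ v, qd (T.r v 0) (T.nv v) = 0 → ∃ iR iL, ZeroEdge c CP (T.nv v) (T.k v) (T.r v) iR iL
  cor : ∀ v, Corner c CP (T.r v (T.k v)) (T.nv v) (T.nv (T.nx v)) (T.W1 v) (T.W3 v) (T.m v)

def Nd : Type := {a : T.Vx × ℕ // a.2 < T.k a.1}

theorem finNd : Finite T.Nd := by
  have := T.fin
  obtain ⟨B, hB⟩ := (Set.finite_range T.k).bddAbove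
  exact Set.Finite.subset (s := Set.univ ×ˢ {i | i < B})
    (Set.finite_univ.prod (Set.finite_lt_nat B))
    fun a ha => ⟨trivial, lt_of_lt_of_le ha (hB ⟨a.1, rfl⟩)⟩

def sc (a : T.Nd) : T.Nd :=
  if h : a.1.2 + 1 < T.k a.1.1 then ⟨(a.1.1, a.1.2 + 1), h⟩ else ⟨(T.nx a.1.1, 0), T.kpos _⟩

def pre : Pre where
  Nd := T.Nd
  fin := T.finNd
  sc := T.sc
  q a := T.r a.1.1 a.1.2
  n a := T.nv a.1.1
  m a := T.m a.1.1
  Vt a := a.1.2 + 1 = T.k a.1.1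
  w1 a := a.1.2 + 1 < T.k a.1.1 ∨ T.W1 a.1.1
  w3 a := T.W3 a.1.1

variable {T} {c : V → ℤ} {CP : Q2 → Prop}

theorem sc_int {v : T.Vx} {i : ℕ} (h0 : i < T.k v) (h : i + 1 < T.k v) :
    T.pre.sc ⟨(v, i), h0⟩ = ⟨(v, i + 1), h⟩ := dif_pos h

theorem sc_vt {v : T.Vx} {i : ℕ} (h0 : i < T.k v) (h : i + 1 = T.k v) :
    T.pre.sc ⟨(v, i), h0⟩ = ⟨(T.nx v, 0), T.kpos _⟩ := dif_neg h.not_lt

theorem q_sc (G : T.Good c CP) {v : T.Vx} {i : ℕ} (h0 : i < T.k v) :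
    T.pre.q (T.pre.sc ⟨(v, i), h0⟩) = T.r v (i + 1) := by
  rcases Nat.lt_or_eq_of_le (Nat.succ_le_of_lt h0) with h | h
  · rw [sc_int h0 h]
    rfl
  · rw [sc_vt h0 h, show i + 1 = T.k v from h, G.link]
    rfl

theorem Good.bey (G : T.Good c CP) {v : T.Vx} {i j : ℕ} (h : i ≤ j) (hj : j ≤ T.k v) :
    Bey true (T.nv v) (T.r v i) (T.r v j) ∧ Bey false (T.nv v) (T.r v j) (T.r v i) := by
  induction j, h using Nat.le_induction with
  | base => exact ⟨Bey.rfl _ _ _, Bey.rfl _ _ _⟩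
  | succ j h ih =>
    obtain ⟨μ, h1, h2⟩ := G.step v j hj
    obtain ⟨h3, h4⟩ := ih (by omega)
    refine ⟨h3.trans ⟨μ, by simpa [sg] using h1.le, h2⟩,
      Bey.trans ⟨-μ, by simpa [sg] using h1.le, ?_⟩ h4⟩
    rw [neg_smul, ← h2, neg_sub]

theorem Good.qn (G : T.Good c CP) {v : T.Vx} {i : ℕ} (h : i ≤ T.k v) :
    qd (T.r v i) (T.nv v) = qd (T.r v 0) (T.nv v) :=
  let ⟨_, _, h⟩ := (G.bey (Nat.zero_le i) h).1
  (qd_rot_eq h).1

theorem capX (G : T.Good c CP) {v : T.Vx} {j : ℕ} (h0 : j < T.k v) (hW : j + 1 < T.k v ∨ T.W1 v)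
    {b : Bool} (h1 : HasWFWire c (T.r v (j + 1)) (T.nv v)) (h2 : qd (T.r v 0) (T.nv v) = 0)
    (h3 : 0 ≤ sg b * qd (T.r v (j + 1)) (rot (T.nv v)))
    (h4 : CylData c (T.r v (j + 1)) (T.nv v) (sg b)) {y : Q2}
    (h5 : Bey b (T.nv v) (T.r v (j + 1)) y) : T.pre.Cover c b y (T.nv v) := by
  have h6 := (G.qn (Nat.succ_le_of_lt h0)).trans h2
  rw [← q_sc G h0] at h1 h3 h4 h5 h6
  exact ⟨.X ⟨(v, j), h0⟩, ⟨hW, h1, h6, h3, h4⟩, rfl, h5⟩

theorem capY {u : T.Vx} (hW : T.W3 u) {b : Bool}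
    (h1 : HasWFWire c (T.r (T.nx u) 0) (T.nv (T.nx u)))
    (h2 : qd (T.r (T.nx u) 0) (T.nv (T.nx u)) = 0)
    (h3 : 0 ≤ sg b * qd (T.r (T.nx u) 0) (rot (T.nv (T.nx u))))
    (h4 : CylData c (T.r (T.nx u) 0) (T.nv (T.nx u)) (sg b)) {y : Q2}
    (h5 : Bey b (T.nv (T.nx u)) (T.r (T.nx u) 0) y) : T.pre.Cover c b y (T.nv (T.nx u)) := by
  have h0 : T.k u - 1 < T.k u := by have := T.kpos u; omega
  have h6 : T.k u - 1 + 1 = T.k u := by omega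
  refine ⟨.Y ⟨(u, T.k u - 1), h0⟩ h6, ?_⟩
  simp only [Pre.JOK, Pre.nd, Pre.ν, sc_vt h0 h6]
  exact ⟨⟨hW, h1, h2, h3, h4⟩, rfl, h5⟩

theorem covL (G : T.Good c CP) {v : T.Vx} (h2 : qd (T.r v 0) (T.nv v) = 0) {iR iL : ℕ}
    (Z : ZeroEdge c CP (T.nv v) (T.k v) (T.r v) iR iL) (h : iL < T.k v ∨ T.W1 v) {i : ℕ}
    (h3 : iL ≤ i) (h4 : i ≤ T.k v) : T.pre.Cover c true (T.r v i) (T.nv v) := by
  have h5 := (G.bey h3 h4).1
  have h6 : 0 ≤ (sg true : ℚ) * qd (T.r v iL) (rot (T.nv v)) := by simpa [sg] using Z.sL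
  cases iL with
  | zero =>
    obtain ⟨u, rfl⟩ := G.surj v
    obtain ⟨-, a1, -, a2, -⟩ := (G.cor u).zero ((G.link u).trans (Z.zL rfl))
    exact capY a1 (G.link u ▸ a2) h2 h6 Z.cL h5
  | succ j =>
    refine capX G Z.le2 h ?_ h2 h6 Z.cL h5
    rcases Nat.lt_or_eq_of_le Z.le2 with h7 | h7
    · exact Z.wire _ Z.le1 le_rfl (Nat.succ_pos j) h7
    · have h8 := Z.pL
      rw [h7] at h8 ⊢
      by_cases h9 : T.r v (T.k v) = 0
      · exact ((G.cor v).zero h9).2.2.1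
      · exact ((G.cor v).nz h9).2.2.1 (h8.resolve_left h9) ((G.qn le_rfl).trans h2)
          (h.resolve_left h7.not_lt)

theorem covR (G : T.Good c CP) {v : T.Vx} (h2 : qd (T.r v 0) (T.nv v) = 0) {iR iL : ℕ}
    (Z : ZeroEdge c CP (T.nv v) (T.k v) (T.r v) iR iL)
    (h : 0 < iR ∨ ∃ u, T.nx u = v ∧ T.W3 u) {i : ℕ} (h3 : i ≤ iR) :
    T.pre.Cover c false (T.r v i) (T.nv v) := by
  have h4 := Z.le1.trans Z.le2
  have h5 := (G.bey h3 h4).2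
  have h6 : 0 ≤ (sg false : ℚ) * qd (T.r v iR) (rot (T.nv v)) := by simpa [sg] using Z.sR
  cases iR with
  | zero =>
    obtain ⟨u, rfl, hu⟩ := h.resolve_left (lt_irrefl 0)
    refine capY hu ?_ h2 h6 Z.cR h5
    have h8 := Z.pR
    rw [← G.link] at h8 h2 ⊢
    by_cases h9 : T.r u (T.k u) = 0
    · exact ((G.cor u).zero h9).2.2.2.1
    · exact ((G.cor u).nz h9).2.2.2 (h8.resolve_left h9) h2 hu
  | succ j =>
    rcases Nat.lt_or_eq_of_le h4 with h7 | h7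
    · exact capX G h4 (.inl h7) (Z.wire _ le_rfl Z.le1 (Nat.succ_pos j) h7) h2 h6 Z.cR h5
    · obtain ⟨a1, -, a2, -⟩ := (G.cor v).zero (Z.zR h7)
      exact capX G h4 (.inr a1) (h7 ▸ a2) h2 h6 Z.cR h5

theorem Good.nz (G : T.Good c CP) {v : T.Vx} {i : ℕ} (h0 : i < T.k v)
    (hz : ¬ (T.pre.w1 ⟨(v, i), h0⟩ ∧ T.pre.w3 ⟨(v, i), h0⟩)) : T.r v (T.k v) ≠ 0 :=
  fun h => hz ⟨.inr ((G.cor v).zero h).1, ((G.cor v).zero h).2.1⟩

theorem good (G : T.Good c CP) : T.pre.Good c where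
  ne := let ⟨v⟩ := G.ne; ⟨⟨(v, 0), T.kpos v⟩⟩
  surj := by
    rintro ⟨⟨v, i⟩, h⟩
    cases i with
    | zero =>
      obtain ⟨u, rfl⟩ := G.surj v
      have := T.kpos u
      exact ⟨⟨(u, T.k u - 1), by simp only; omega⟩, sc_vt _ (by omega)⟩
    | succ j => exact ⟨⟨(v, j), Nat.lt_of_succ_lt h⟩, sc_int _ h⟩
  hn a := G.hn _
  hq := by
    rintro ⟨⟨v, i⟩, h⟩
    rw [q_sc G h]
    exact G.step v i h
  hs := by
    rintro ⟨⟨v, i⟩, h⟩
    exact (G.hs v).trans (G.qn h.le).ge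
  hI := by
    rintro ⟨⟨v, i⟩, h⟩ hv
    have h1 : i + 1 < T.k v := lt_of_le_of_ne h hv
    rw [sc_int h h1]
    exact ⟨rfl, .inl h1⟩
  hV := by
    rintro ⟨⟨v, i⟩, h⟩ hv
    rw [sc_vt h hv]
    exact ⟨(G.cor v).d1, (G.cor v).d2, (G.cor v).d3⟩
  tent := by
    rintro ⟨⟨v, i⟩, h⟩
    rw [q_sc G h]
    exact G.tent v i h
  wire := by
    rintro (a | ⟨⟨v, i⟩, h⟩ | ⟨⟨⟨v, i⟩, h⟩, hv⟩ | ⟨⟨⟨v, i⟩, h⟩, hv⟩) hw
    · exact hw.elim
    · simp only [Pre.nd, q_sc G h]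
      rcases Nat.lt_or_eq_of_le (Nat.succ_le_of_lt h) with h1 | h1
      · exact G.wire v _ (Nat.succ_pos i) h1
      · rw [show i + 1 = T.k v from h1]
        exact (G.cor v).w1 (hw.resolve_left h1.not_lt)
    · simp only [Pre.nd, q_sc G h]
      rw [show i + 1 = T.k v from hv]
      exact (G.cor v).w2 (fun h1 => hw.1 (.inr h1)) hw.2
    · simp only [Pre.nd, Pre.ν, q_sc G h]
      rw [sc_vt h hv, show i + 1 = T.k v from hv]
      exact (G.cor v).w3 hw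
  seg := by
    rintro ⟨⟨v, i⟩, h⟩
    rw [q_sc G h]
    rcases (G.hs v).lt_or_eq with h1 | h1
    · exact .inl (h1.trans_eq (G.qn h.le).symm)
    obtain ⟨iR, iL, Z⟩ := G.zer v h1.symm
    by_cases h2 : i < iR
    · exact .inr (.inr (.inr (covR G h1.symm Z (.inl (by omega)) h2)))
    by_cases h3 : i < iL
    · exact .inr (.inl (Z.tent i (by omega) h3))
    · exact .inr (.inr (.inl (covL G h1.symm Z (.inl (lt_of_le_of_lt (not_lt.1 h3) h))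
        (not_lt.1 h3) h.le)))
  zero := by
    rintro ⟨⟨v, i⟩, h⟩ hv h1 h3
    have hv' : i + 1 = T.k v := hv
    have h0 : T.r v (T.k v) = 0 := by
      by_contra h0
      exact ((G.cor v).nz h0).1 ⟨h1.resolve_left hv'.not_lt, h3⟩
    rw [q_sc G h, sc_vt h hv, hv']
    exact ⟨h0, ((G.cor v).zero h0).2.2.2.2⟩
  mpos := by
    rintro ⟨⟨v, i⟩, h⟩ hv hz
    rw [q_sc G h, show i + 1 = T.k v from hv]
    exact ((G.cor v).nz (G.nz h hz)).2.1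
  c1 := by
    rintro ⟨⟨v, i⟩, h⟩ hv hz
    have hv' : i + 1 = T.k v := hv
    rw [q_sc G h]
    rcases (G.hs v).lt_or_eq with h1 | h1
    · exact .inl (h1.trans_eq (G.qn hv'.le).symm)
    obtain ⟨iR, iL, Z⟩ := G.zer v h1.symm
    by_cases h2 : iL < T.k v ∨ T.W1 v
    · exact .inr (.inr (covL G h1.symm Z h2 (hv' ▸ Z.le2) hv'.le))
    · have h3 : iR ≠ T.k v := fun e => G.nz h hz (Z.zR e)
      have h4 := Z.le1
      have h5 := Z.le2
      rw [not_or] at h2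
      exact .inr (.inl ⟨fun h6 => h2.2 (h6.resolve_left hv'.not_lt),
        Z.tent i (by omega) (by omega)⟩)
  c2 := by
    rintro ⟨⟨v, i⟩, h⟩ hv hz
    rw [sc_vt h hv, q_sc G]
    rcases (G.hs (T.nx v)).lt_or_eq with h1 | h1
    · exact .inl h1
    obtain ⟨iR, iL, Z⟩ := G.zer _ h1.symm
    by_cases h2 : 0 < iR ∨ T.W3 v
    · exact .inr (.inr (covR G h1.symm Z (h2.imp_right fun h3 => ⟨v, rfl, h3⟩) (Nat.zero_le _)))
    · have h3 : iL ≠ 0 := fun e => G.nz h hz ((G.link v).trans (Z.zL e))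
      rw [not_or] at h2
      exact .inr (.inl ⟨h2.2, Z.tent 0 (by omega) (by omega)⟩)
  ww1 := by
    rintro ⟨⟨v, i⟩, h⟩ hw
    have h' : i < T.k v := h
    rcases (G.hs v).lt_or_eq with h1 | h1
    · rw [q_sc G h]
      exact .inl (h1.trans_eq (G.qn (Nat.succ_le_of_lt h)).symm)
    obtain ⟨iR, iL, Z⟩ := G.zer v h1.symm
    rcases Nat.lt_or_eq_of_le (Nat.succ_le_of_lt h) with hv | hv
    · have hv' : i + 1 < T.k v := hv
      rw [sc_int h hv, q_sc G hv]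
      by_cases h2 : i + 1 < iR
      · exact .inr (.inr (.inr ⟨hv'.ne, covR G h1.symm Z (.inl (by omega)) h2⟩))
      by_cases h3 : iL ≤ i
      · exact .inr (.inr (.inl ⟨covL G h1.symm Z (.inl (by omega)) h3 h'.le,
          fun e => (hv'.ne e).elim⟩))
      · exact .inr (.inl (Z.wire (i + 1) (by omega) (by omega) (Nat.succ_pos i) hv'))
    · have hv' : i + 1 = T.k v := hv
      have hw' : T.W1 v := hw.resolve_left hv'.not_lt
      rw [q_sc G h, hv']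
      by_cases h0 : T.r v (T.k v) = 0
      · exact .inr (.inl ((G.cor v).zero h0).2.2.1)
      rcases Nat.lt_or_eq_of_le Z.le2 with h2 | h2
      · exact .inr (.inr (.inl ⟨covL G h1.symm Z (.inl h2) (show iL ≤ i by omega) h'.le,
          fun _ h3 => ((G.cor v).nz h0).1 ⟨hw', h3⟩⟩))
      · exact .inr (.inl (((G.cor v).nz h0).2.2.1 ((h2 ▸ Z.pL).resolve_left h0)
          ((G.qn le_rfl).trans h1.symm) hw'))
  ww3 := by
    rintro ⟨⟨v, i⟩, h⟩ hv hw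
    have hv' : i + 1 = T.k v := hv
    rw [sc_vt h hv, q_sc G]
    rcases (G.hs (T.nx v)).lt_or_eq with h1 | h1
    · exact .inl h1
    obtain ⟨iR, iL, Z⟩ := G.zer _ h1.symm
    by_cases h0 : T.r v (T.k v) = 0
    · exact .inr (.inl ((G.link v) ▸ ((G.cor v).zero h0).2.2.2.1 :
        HasWFWire c (T.r (T.nx v) 0) (T.nv (T.nx v))))
    cases iR with
    | zero =>
      have h2 := Z.pR
      rw [← G.link] at h2 h1
      exact .inr (.inl ((G.link v) ▸ ((G.cor v).nz h0).2.2.2 (h2.resolve_left h0) h1.symm hw :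
        HasWFWire c (T.r (T.nx v) 0) (T.nv (T.nx v))))
    | succ j =>
      exact .inr (.inr ⟨covR G h1.symm Z (.inl (Nat.succ_pos j)) (by omega),
        fun h3 => ((G.cor v).nz h0).1 ⟨h3.resolve_left hv'.not_lt, hw⟩⟩)

end Pg

end Pool.Agent.Sand.Poly
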