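import Pool.Agent.Lib.MP_215a10_lc.Dec.Poly3
import Pool.Agent.Lib.MP_215a10_lc.Dec.Poly4

/-! From the polygon of slopes to an explosion certificate. -/

set_option autoImplicit false

namespace Pool.Agent.Sand

open Classical

namespace Poly

theorem eq_zero_of_qd {p : Q2} {n n' : V} (h : det n n' ≠ 0) (h1 : qd p n = 0) (h2 : qd p n' = 0) :
    p = 0 := by
  have h3 : ((det n n' : ℤ) : ℚ) ≠ 0 := by exact_mod_cast h
  unfold qd at h1 h2
  refine Prod.ext (mul_left_cancel₀ h3 ?_) (mul_left_cancel₀ h3 ?_)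
  · simp only [det, Prod.fst_zero]
    push_cast
    linear_combination (n'.2 : ℚ) * h1 - n.2 * h2
  · simp only [det, Prod.snd_zero]
    push_cast
    linear_combination (n.1 : ℚ) * h2 - n'.1 * h1

theorem det_rot (n x : V) : det n (rot n) = dot n n ∧ det (rot n) x = -dot n x := by
  unfold det rot dot
  constructor <;> ring

theorem eq_zero_of_rot {p : Q2} {n : V} (hn : n ≠ 0) (h1 : qd p n = 0) (h2 : qd p (rot n) = 0) :
    p = 0 :=
  eq_zero_of_qd (by rw [(det_rot n n).1]; have := one_le_dot hn; omega) h1 h2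

theorem on_edge {H : List Q2} {p p' : Q2} {n : V} (h : IsEdge H p p' n) (h0 : (0 : Q2) ∈ H)
    (h1 : qd p n = 0) : qd p (rot n) ≤ 0 ∧ 0 ≤ qd p' (rot n) := by
  obtain ⟨-, -, ⟨μ, h2, h3⟩, hn, -, h4⟩ := h
  obtain ⟨s, h5, h6, h7⟩ := h4 0 h0 (by rw [qd_zero, h1])
  have h8 : (0 : Q2) - p = (s * μ) • toQ (rot n) := by
    rw [mul_smul, ← h3, sub_eq_iff_eq_add']
    exact h7
  have a1 := (qd_rot_eq h8).2
  have a2 := (qd_rot_eq h3).2
  have a3 : (1 : ℚ) ≤ (dot n n : ℤ) := by exact_mod_cast one_le_dot hn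
  have a4 : (0 : ℚ) ≤ μ * (dot n n : ℤ) := by positivity
  rw [qd_zero] at a1
  constructor <;> nlinarith [mul_nonneg h5 a4, mul_nonneg (sub_nonneg.2 h6) a4]

theorem qd_pos {p : Q2} {n n' m : V} (hn : n ≠ 0) (hp : p ≠ 0) (h1 : 0 ≤ qd p n)
    (h2 : 0 ≤ qd p n') (hg : 0 < det n n' ∨ (qd p n = 0 ∧ 0 ≤ qd p (rot n)))
    (d1 : 0 < det n m) (d2 : 0 < det m n') : 0 < qd p m := by
  have a1 : (0 : ℚ) < (det n m : ℤ) := by exact_mod_cast d1
  have a2 : (0 : ℚ) < (det m n' : ℤ) := by exact_mod_cast d2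
  rcases hg with h | h
  · have a3 : (0 : ℚ) < (det n n' : ℤ) := by exact_mod_cast h
    have e : ((det n n' : ℤ) : ℚ) * qd p m = (det m n' : ℤ) * qd p n + (det n m : ℤ) * qd p n' := by
      unfold det qd
      push_cast
      ring
    refine (mul_pos_iff_of_pos_left a3).1 ?_
    rw [e]
    rcases h1.lt_or_eq with h3 | h3
    · positivity
    rcases h2.lt_or_eq with h4 | h4
    · positivity
    · exact (hp (eq_zero_of_qd h.ne' h3.symm h4.symm)).elim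
  · have a3 : (0 : ℚ) < (dot n n : ℤ) := by exact_mod_cast one_le_dot hn
    have e : ((dot n n : ℤ) : ℚ) * qd p m =
        (dot n m : ℤ) * qd p n + (det n m : ℤ) * qd p (rot n) := by
      unfold det qd dot rot
      push_cast
      ring
    have h3 : 0 < qd p (rot n) := lt_of_le_of_ne h.2 fun e => hp (eq_zero_of_rot hn h.1 e.symm)
    refine (mul_pos_iff_of_pos_left a3).1 ?_
    rw [e, h.1, mul_zero, zero_add]
    positivity

theorem qd_par {p : Q2} {ν n : V} (hn : n ≠ 0) (h0 : det ν n = 0) (h1 : qd p n = 0) :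
    qd p ν = 0 := by
  have a3 : (0 : ℚ) < (dot n n : ℤ) := by exact_mod_cast one_le_dot hn
  have a4 : ((det ν n : ℤ) : ℚ) = 0 := by exact_mod_cast h0
  refine (mul_eq_zero.1 ?_).resolve_left a3.ne'
  have e : ((dot n n : ℤ) : ℚ) * qd p ν =
      (dot n ν : ℤ) * qd p n - (det ν n : ℤ) * qd p (rot n) := by
    unfold det qd dot rot
    push_cast
    ring
  rw [e, h1, a4]
  ring

theorem strict_cone {ν n n' : V} (hν : ν ≠ 0) (hn : n ≠ 0) (hn' : n' ≠ 0)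
    (hg : 0 < det n n' ∨ (det n n' = 0 ∧ dot n n' < 0)) (h1 : 0 ≤ det n ν) (h2 : 0 ≤ det ν n')
    (h3 : ¬ (det ν n = 0 ∧ 0 < dot ν n)) (h4 : ¬ (det ν n' = 0 ∧ 0 < dot ν n')) :
    0 < det n ν ∧ 0 < det ν n' := by
  have a1 : 0 < dot ν ν * dot n n := mul_pos (one_le_dot hν) (one_le_dot hn)
  have a2 : 0 < dot ν ν * dot n' n' := mul_pos (one_le_dot hν) (one_le_dot hn')
  have a3 := one_le_dot hn
  have a4 := one_le_dot hn'
  have e0 : det ν n = -det n ν := by unfold det; ring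
  have e1 : dot ν ν * dot n n = dot ν n ^ 2 + det n ν ^ 2 := by unfold det dot; ring
  have e2 : dot ν ν * dot n' n' = dot ν n' ^ 2 + det ν n' ^ 2 := by unfold det dot; ring
  have e3 : dot n n * det ν n' = dot ν n * det n n' - det n ν * dot n n' := by
    unfold det dot; ring
  have e4 : dot n n * dot ν n' = dot ν n * dot n n' + det n ν * det n n' := by
    unfold det dot; ring
  have e5 : dot n' n' * det n ν = dot ν n' * det n n' - det ν n' * dot n n' := by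
    unfold det dot; ring
  have e6 : dot n' n' * dot ν n = dot ν n' * dot n n' + det ν n' * det n n' := by
    unfold det dot; ring
  constructor
  · refine lt_of_le_of_ne h1 fun h => ?_
    rw [← h] at e0 e1 e3 e4
    have b1 : dot ν n < 0 := by
      refine lt_of_le_of_ne (not_lt.1 fun h5 => h3 ⟨by omega, h5⟩) fun h5 => ?_
      rw [h5] at e1
      omega
    rcases hg with h5 | h5
    · nlinarith [mul_pos (neg_pos.2 b1) h5]
    · rw [h5.1] at e3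
      refine h4 ⟨by nlinarith, ?_⟩
      nlinarith [mul_pos (neg_pos.2 b1) (neg_pos.2 h5.2)]
  · refine lt_of_le_of_ne h2 fun h => ?_
    rw [← h] at e2 e5 e6
    have b1 : dot ν n' < 0 := by
      refine lt_of_le_of_ne (not_lt.1 fun h5 => h4 ⟨h.symm, h5⟩) fun h5 => ?_
      rw [h5] at e2
      omega
    rcases hg with h5 | h5
    · nlinarith [mul_pos (neg_pos.2 b1) h5]
    · rw [h5.1] at e5
      refine h3 ⟨by nlinarith, ?_⟩
      nlinarith [mul_pos (neg_pos.2 b1) (neg_pos.2 h5.2)]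

theorem exists_mid {n n' : V} (hn : n ≠ 0) (hg : 0 < det n n' ∨ (det n n' = 0 ∧ dot n n' < 0)) :
    ∃ m, 0 < det n m ∧ 0 < det m n' ∧ ∀ η, 0 ≤ dot η n → 0 ≤ dot η n' →
      (det n n' = 0 → 0 ≤ dot η (rot n)) → 0 ≤ dot η m := by
  rcases hg with h | h
  · refine ⟨n + n', ?_, ?_, fun η h1 h2 _ => ?_⟩
    · unfold det at h ⊢
      simp only [Prod.fst_add, Prod.snd_add]
      linarith
    · unfold det at h ⊢
      simp only [Prod.fst_add, Prod.snd_add]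
      linarith
    · rw [dot_add]
      omega
  · refine ⟨rot n, ?_, ?_, fun η _ _ h3 => h3 h.1⟩
    · rw [(det_rot n n).1]
      exact one_le_dot hn
    · rw [(det_rot n n').2]
      omega

theorem corner {c : V → ℤ} {CP : Q2 → Prop} {H : List Q2} {p : Q2} {n n' : V} (hn : n ≠ 0)
    (hn' : n' ≠ 0)
    (hg : 0 < det n n' ∨ ((det n n' = 0 ∧ dot n n' < 0) ∧ qd p n = 0 ∧ 0 ≤ qd p (rot n)))
    (hν : ∀ ν, Sup H p ν → 0 ≤ det n ν ∧ 0 ≤ det ν n') (h1 : 0 ≤ qd p n) (h2 : 0 ≤ qd p n')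
    (hv : p ≠ 0 → VertexData c CP H p) (hz : p = 0 → ZeroData c n n') :
    ∃ (W1 W3 : Prop) (m : V), Corner c CP p n n' W1 W3 m := by
  have g1 := hg.imp_right And.left
  have g2 := hg.imp_right And.right
  obtain ⟨m, d1, d2, hm⟩ := exists_mid hn g1
  by_cases hp : p = 0
  · obtain ⟨a1, a2, η, a3, a4, a5, a6⟩ := hz hp
    subst hp
    exact ⟨True, True, m, d1, d2, g1, fun _ => wf_wire a1, fun h => (h trivial).elim,
      fun _ => wf_wire a2, fun _ => ⟨trivial, trivial, a1, a2, η, a3, hm η a3 a4 a5, a4, a6⟩,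
      fun h => (h rfl).elim⟩
  obtain ⟨ν, a1, a2, a3, a4⟩ := hv hp
  have a5 := qd_pos hn hp h1 h2 g2 d1 d2
  by_cases h3 : det ν n = 0 ∧ 0 < dot ν n
  · obtain ⟨b1, b2⟩ := hasWire_rescale (c := c) (p := p) hn h3.1 h3.2
    exact ⟨True, False, m, d1, d2, g1, fun _ => b1 a3, fun h => (h trivial).elim, False.elim,
      fun h => (hp h).elim, fun _ => ⟨And.right, a5,
        fun b3 b4 _ => b2 (a4 b3 (qd_par hn h3.1 b4)), fun _ _ => False.elim⟩⟩
  by_cases h4 : det ν n' = 0 ∧ 0 < dot ν n'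
  · obtain ⟨b1, b2⟩ := hasWire_rescale (c := c) (p := p) hn' h4.1 h4.2
    exact ⟨False, True, m, d1, d2, g1, False.elim, fun _ h => (h trivial).elim, fun _ => b1 a3,
      fun h => (hp h).elim, fun _ => ⟨And.left, a5, fun _ _ => False.elim,
        fun b3 b4 _ => b2 (a4 b3 (qd_par hn' h4.1 b4))⟩⟩
  obtain ⟨b1, b2⟩ := strict_cone a1 hn hn' g1 (hν ν a2).1 (hν ν a2).2 h3 h4
  exact ⟨False, False, ν, b1, b2, g1, False.elim, fun _ _ => a3, False.elim,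
    fun h => (hp h).elim, fun _ => ⟨And.left, qd_pos hn hp h1 h2 g2 b1 b2,
      fun _ _ => False.elim, fun _ _ => False.elim⟩⟩

theorem edge {c : V → ℤ} {CP : Q2 → Prop} {H : List Q2} {p p' : Q2} {n : V} (h0 : (0 : Q2) ∈ H)
    (h : IsEdge H p p' n) (hd : EdgeData c CP p p' n) :
    ∃ (k : ℕ) (r : ℕ → Q2), 0 < k ∧ r 0 = p ∧ r k = p' ∧
      (∀ i < k, ∃ μ : ℚ, 0 < μ ∧ r (i + 1) - r i = μ • toQ (rot n)) ∧
      (∀ i < k, HasTent c (r i) (r (i + 1))) ∧ (∀ i, 0 < i → i < k → HasWire c (r i) n) ∧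
      (qd p n = 0 → ∃ iR iL, ZeroEdge c CP n k r iR iL) := by
  obtain ⟨k, s, r, h1, h2, h3, h4, h5, h6, h7, h8⟩ := hd
  have e0 : r 0 = p := by rw [h5, h2, zero_smul, add_zero]
  have ek : r k = p' := by rw [h5, h3, one_smul, add_sub_cancel]
  obtain ⟨μ, hμ, e⟩ := h.2.2.1
  refine ⟨k, r, h1, e0, ek, fun i hi => ⟨(s (i + 1) - s i) * μ,
    mul_pos (sub_pos.2 (h4 i hi)) hμ, ?_⟩, h6, h7, fun hz => ?_⟩
  · rw [h5, h5, add_sub_add_left_eq_sub, ← sub_smul, e, mul_smul]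
  · obtain ⟨iR, iL, a1, a2, a3, a4, a5, a6, a7, a8, a9, a10⟩ := h8 hz
    obtain ⟨b1, b2⟩ := on_edge h h0 hz
    refine ⟨iR, iL, a1, a2, a3, a4, a5, a6, a7, a8, a9, a10, fun b3 => ?_, fun b3 => ?_⟩
    · rw [b3, e0] at a7
      rw [e0]
      exact eq_zero_of_rot h.2.2.2.1 hz (le_antisymm b1 a7)
    · rw [b3, ek] at a8
      rw [ek]
      exact eq_zero_of_rot h.2.2.2.1 ((qd_rot_eq e).1.trans hz) (le_antisymm a8 b2)

theorem sup_nonneg {H : List Q2} {p p' : Q2} {n : V} (h0 : (0 : Q2) ∈ H) (h : IsEdge H p p' n) :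
    0 ≤ qd p n ∧ qd p' n = qd p n := by
  obtain ⟨μ, -, e⟩ := h.2.2.1
  exact ⟨qd_zero n ▸ h.2.2.2.2.1 0 h0, (qd_rot_eq e).1⟩

/-- the ray system of the polygon reduced to the origin -/
noncomputable def sys0 (n : V) (π : Fin 2 → V → ℤ) (πρ : Fin 2 → V → R5) (w : Fin 4 → V → ℤ)
    (wρ : Fin 4 → V → R5) (ε : Fin 4 → ℚ) (C0 : ℕ) (Wd : ℤ) : RaySys where
  R := Fin 4
  S := Fin 4
  P := Fin 2
  J := Empty
  cen _ := 0
  ν := ![n, rot n, -n, -rot n]
  isW r := r = 0 ∨ r = 2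
  lo σ := σ
  hi σ := σ + 1
  el := ![0, 0, 1, 1]
  sp _ := 0
  sγ _ := 0
  rp _ := 0
  rγ _ := 0
  π := π
  πρ := πρ
  w := w
  wρ := wρ
  ε := ε
  jr := Empty.elim
  js := Empty.elim
  ψ := Empty.elim
  κ := Empty.elim
  C0 := C0
  Wd := Wd

end Poly

open _root_.Pool.Agent.Sand.Poly

theorem poly_proof (h1 : raysys_stmt) (h2 : edges_stmt) : poly_stmt := by
  intro c N CP H hc h0 ⟨p0, hp0, hp0'⟩ hE hV hZ
  obtain ⟨⟨p1, hp1⟩, e2, e3, -, e5⟩ := h2 H ⟨p0, hp0, 0, h0, hp0'⟩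
  have hnx : ∀ v : {p // ∃ p' n, IsEdge H p p' n}, ∃ (u : {p // ∃ p' n, IsEdge H p p' n}) (n : V),
      IsEdge H v u n := by
    rintro ⟨p, p', n, h⟩
    exact ⟨⟨p', (e2 p p' n h).1⟩, n, h⟩
  choose nx nv he using hnx
  choose k r a1 a2 a3 a4 a5 a6 a7 using fun v => edge h0 (he v) (hE _ _ _ (he v))
  have hcor : ∀ v, ∃ (W1 W3 : Prop) (m : V), Corner c CP (nx v) (nv v) (nv (nx v)) W1 W3 m := by
    intro v
    obtain ⟨b1, b2⟩ := e5 _ _ _ _ _ (he v) (he (nx v))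
    refine corner (he v).2.2.2.1 (he (nx v)).2.2.2.1 (b1.imp_right fun b3 => ?_) b2
      ((sup_nonneg h0 (he v)).1.trans (sup_nonneg h0 (he v)).2.ge) (sup_nonneg h0 (he (nx v))).1
      (hV _ _ _ (he (nx v))) fun b3 => hZ _ _ _ _ (b3 ▸ he v) (b3 ▸ he (nx v))
    have b4 : qd v (nv v) = 0 := by rw [← b3.2.2.2 0 h0, qd_zero]
    exact ⟨⟨b3.1, b3.2.1⟩, (sup_nonneg h0 (he v)).2.trans b4, (on_edge (he v) h0 b4).2⟩
  choose W1 W3 m hcor using hcor
  have hfin : Finite {p // ∃ p' n, IsEdge H p p' n} :=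
    (List.finite_toSet H).subset fun p ⟨_, _, h⟩ => h.1
  have G : (Pg.mk _ hfin nx nv k a1 r W1 W3 m).Good c CP :=
    { ne := ⟨⟨p1, hp1⟩⟩
      surj := fun u => by
        obtain ⟨p, n, h⟩ := (e2 _ _ _ (he u)).2
        exact ⟨⟨p, u, n, h⟩, Subtype.ext (e3 _ _ _ _ _ (he ⟨p, u, n, h⟩) h)⟩
      hn := fun v => (he v).2.2.2.1
      link := fun v => (a3 v).trans (a2 _).symm
      step := a4
      hs := fun v => (show 0 ≤ qd (r v 0) (nv v) from (a2 v).symm ▸ (sup_nonneg h0 (he v)).1)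
      tent := a5
      wire := a6
      zer := fun v h => a7 v (a2 v ▸ h)
      cor := fun v => (show Corner c CP (r v (k v)) (nv v) (nv (nx v)) (W1 v) (W3 v) (m v) from
        (a3 v).symm ▸ hcor v) }
  obtain ⟨D⟩ := Pre.exists_dat hc.pos (Pg.good G)
  exact h1 c N D.sys hc (D.ok hc (Pg.good G))

theorem poly0_proof (h1 : raysys_stmt) : poly0_stmt := by
  intro c N n hc hn ⟨τ0, ρ0, ⟨s0, ε0, C0, p0, b0⟩, f0⟩ ⟨τ2, ρ2, ⟨s2, ε2, C2, p2, b2⟩, f2⟩
    ⟨σ0, κ0, ⟨t0, B0, d0⟩, g0⟩ ⟨σ1, κ1, ⟨t1, B1, d1⟩, g1⟩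
  obtain ⟨C, hC⟩ := exists_bound ![(n1 n : ℚ), ε0, C0, ε2, C2, B0, B1]
  obtain ⟨Wd, hW1, hW2⟩ := exists_width ![ε0, ε2] (by simp [Fin.forall_fin_two, p0, p2]) C
  have a0 : n1 n ≤ C := by exact_mod_cast (show (n1 n : ℚ) ≤ C from hC 0)
  have a1 := one_le_dot hn
  have a2 : ∀ x, |(σ0 x : ℚ)| ≤ C := fun x => by
    simpa [qd_zero] using (d0 x).trans (show B0 ≤ C from hC 5)
  have a3 : ∀ x, |(σ1 x : ℚ)| ≤ C := fun x => by
    simpa [qd_zero] using (d1 x).trans (show B1 ≤ C from hC 6)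
  have a4 : ∀ (σ : Fin 4) x, |((![σ0, σ1] (![0, 0, 1, 1] σ) x : ℤ) : ℚ)| ≤ C := fun σ x => by
    fin_cases σ
    exacts [a2 x, a2 x, a3 x, a3 x]
  have a5 : rot n ≠ 0 := fun h => by
    rw [← (det_rot n n).1, h] at a1
    simp [det] at a1
  refine h1 c N (sys0 n ![σ0, σ1] ![κ0, κ1] ![τ0, τ0, τ2, τ2] ![ρ0, ρ0, ρ2, ρ2]
    ![ε0, ε0, ε2, ε2] C Wd) hc
    { ν_ne := fun r : Fin 4 => ?_
      ν_le := fun r : Fin 4 => ?_
      kind := fun σ : Fin 4 => .inl ?_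
      after := fun r => ⟨r, rfl⟩
      before := fun r : Fin 4 => ⟨r - 1, sub_add_cancel r 1⟩
      virt := fun (σ σ' : Fin 4) h h' => ?_
      wl := fun _ _ _ _ => ⟨rfl, rfl⟩
      cov := ⟨0, fun x _ => ?_⟩
      sign := fun _ => ⟨(qd_zero _).ge, (qd_zero _).ge⟩
      πsub := fun a : Fin 2 => ?_
      πup := fun σ x => ?_
      πlo := fun σ x _ => ?_
      wsub := ?_
      wapp := ?_
      εb := ?_
      Wdb := hW1
      secOK := fun σ : Fin 4 => .inr (.inr (.inl ?_))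
      wOK := ?_
      jOK := fun j => Empty.elim j }
  · fin_cases r
    exacts [hn, a5, neg_ne_zero.2 hn, neg_ne_zero.2 a5]
  · fin_cases r <;> simpa [sys0, n1, rot, add_comm] using a0
  · unfold dot at a1
    fin_cases σ <;> simp [sys0, det, rot] <;> linarith
  · have e : σ + 1 = σ' := h
    have e' : ¬ (σ + 1 = 0 ∨ σ + 1 = 2) := h'
    subst e
    fin_cases σ <;> first | rfl | exact (e' (by decide)).elim
  · rcases le_total 0 (det n x) with h | h <;> rcases le_total 0 (dot n x) with h' | h'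
    · refine ⟨(0 : Fin 4), ?_, ?_, fun _ => h'⟩ <;>
        simp [sys0, RaySys.f, det, dot, rot] at h h' ⊢ <;> linarith
    · refine ⟨(1 : Fin 4), ?_, ?_, fun _ => ?_⟩ <;>
        simp [sys0, RaySys.f, det, dot, rot] at h h' ⊢ <;> linarith
    · refine ⟨(3 : Fin 4), ?_, ?_, fun _ => ?_⟩ <;>
        simp [sys0, RaySys.f, det, dot, rot] at h h' ⊢ <;> linarith
    · refine ⟨(2 : Fin 4), ?_, ?_, fun _ => ?_⟩ <;>
        simp [sys0, RaySys.f, det, dot, rot] at h h' ⊢ <;> linarith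
  · fin_cases a
    exacts [t0, t1]
  · have e : RaySys.ls (sys0 n ![σ0, σ1] ![κ0, κ1] ![τ0, τ0, τ2, τ2] ![ρ0, ρ0, ρ2, ρ2]
      ![ε0, ε0, ε2, ε2] C Wd) σ x = 0 := (sub_zero _).trans (qd_zero x)
    rw [e, neg_zero, zero_add]
    exact (abs_le.1 (a4 σ x)).2
  · have e : RaySys.ls (sys0 n ![σ0, σ1] ![κ0, κ1] ![τ0, τ0, τ2, τ2] ![ρ0, ρ0, ρ2, ρ2]
      ![ε0, ε0, ε2, ε2] C Wd) σ x = 0 := (sub_zero _).trans (qd_zero x)
    rw [e, neg_zero, zero_sub]
    exact (abs_le.1 (a4 σ x)).1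
  · rintro _ (rfl | rfl)
    exacts [s0, s2]
  · rintro _ (rfl | rfl) x
    · simpa [sys0, RaySys.lr, RaySys.f] using (b0 x).trans (show C0 ≤ C from hC 2)
    · simpa [sys0, RaySys.lr, RaySys.f] using (b2 x).trans (show C2 ≤ C from hC 4)
  · rintro _ (rfl | rfl)
    exacts [⟨p0, hC 1, hW2 0⟩, ⟨p2, hC 3, hW2 1⟩]
  · unfold dot at a1
    fin_cases σ
    · refine ⟨rot n, ?_, ?_, g0⟩ <;> simp [sys0, dot, rot] <;> linarith
    · refine ⟨rot n, ?_, ?_, g0⟩ <;> simp [sys0, dot, rot] <;> linarith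
    · refine ⟨-rot n, ?_, ?_, g1⟩ <;> simp [sys0, dot, rot] <;> linarith
    · refine ⟨-rot n, ?_, ?_, g1⟩ <;> simp [sys0, dot, rot] <;> linarith
  · rintro _ (rfl | rfl)
    exacts [.inr (.inl f0), .inr (.inl f2)]

end Pool.Agent.Sand
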