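import Pool.Agent.Lib.MP_215a10_lc.Dec.Stmts

/-! The lowering operator preserves stability and equivariance; its iterates end free or cyclic. -/

set_option autoImplicit false

namespace Pool.Agent.Sand.PsiD

open Pool.Agent.Sand

theorem cd_mono {D a b : ℤ} (hD : 0 < D) (h : a ≤ b) : cd D a ≤ cd D b := by
  unfold cd
  have : (-b) / D ≤ (-a) / D := Int.ediv_le_ediv hD (by omega)
  omega

/-- `StD` at `x` is preserved when the function is lowered away from `x` -/
theorem std_mono {c : V → ℤ} {D : ℤ} {g g' : V → ℤ} {x : V} (hD : 0 < D)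
    (hle : ∀ y, g' y ≤ g y) (hx : g' x = g x) (h : StD c D g x) : StD c D g' x := by
  unfold StD lapD at *
  have : ∑ i : Fin 4, cd D (g' (x + e i) - g' x) ≤ ∑ i : Fin 4, cd D (g (x + e i) - g x) := by
    refine Finset.sum_le_sum fun i _ => cd_mono hD ?_
    have := hle (x + e i)
    omega
  omega

theorem ind_mem {F : Set V} {x : V} (h : x ∈ F) : ind F x = 1 := by
  unfold ind; simp [h]

theorem ind_not_mem {F : Set V} {x : V} (h : x ∉ F) : ind F x = 0 := by
  unfold ind; simp [h]

theorem ind_nonneg (F : Set V) (x : V) : 0 ≤ ind F x := by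
  by_cases h : x ∈ F
  · rw [ind_mem h]; omega
  · rw [ind_not_mem h]

theorem ind_le_ind {F G : Set V} (h : F ⊆ G) (x : V) : ind F x ≤ ind G x := by
  by_cases hx : x ∈ F
  · rw [ind_mem hx, ind_mem (h hx)]
  · rw [ind_not_mem hx]; exact ind_nonneg G x

theorem ind_congr {F G : Set V} {x y : V} (h : x ∈ F ↔ y ∈ G) : ind F x = ind G y := by
  by_cases hx : x ∈ F
  · rw [ind_mem hx, ind_mem (h.1 hx)]
  · rw [ind_not_mem hx, ind_not_mem (fun hy => hx (h.2 hy))]

theorem psi_le (c : V → ℤ) (D : ℤ) (I : Set V → Prop) (B : V → ℤ) (x : V) :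
    Psi c D I B x ≤ B x := by
  unfold Psi
  have := ind_nonneg (UU c D I B) x
  omega

theorem psi_std {c : V → ℤ} {D : ℤ} {I : Set V → Prop} {B : V → ℤ} (hD : 0 < D)
    (hB : ∀ x, StD c D B x) (x : V) : StD c D (Psi c D I B) x := by
  by_cases hx : x ∈ UU c D I B
  · obtain ⟨F, hI, hF, hxF⟩ := id hx
    have hsub : F ⊆ UU c D I B := fun y hy => ⟨F, hI, hF, hy⟩
    refine std_mono (g := fun y => B y - ind F y) hD (fun y => ?_) ?_ (hF x hxF)
    · have := ind_le_ind hsub y
      show B y - ind (UU c D I B) y ≤ B y - ind F y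
      omega
    · show B x - ind (UU c D I B) x = B x - ind F x
      rw [ind_mem hx, ind_mem hxF]
  · refine std_mono (g := B) hD (psi_le c D I B) ?_ (hB x)
    show B x - ind (UU c D I B) x = B x
    rw [ind_not_mem hx]; omega

/-- differences of an equivariant function are periodic -/
theorem eqv_diff {N : ℤ} {P : Q2} {B : V → ℤ} (hB : Eqv N P B) (x y z : V) :
    B (y + N • z) - B (x + N • z) = B y - B x := by
  have h1 := hB x z
  have h2 := hB y z
  have : ((B (y + N • z) - B (x + N • z) : ℤ) : ℚ) = ((B y - B x : ℤ) : ℚ) := by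
    push_cast; rw [h1, h2]; ring
  exact_mod_cast this

theorem bg_per {c : V → ℤ} {N0 N : ℤ} (hc : IsBG c N0) (hN : N0 ∣ N) (x z : V) :
    c (x + N • z) = c x := by
  obtain ⟨k, rfl⟩ := hN
  rw [mul_smul]
  exact hc.per x (k • z)

theorem uu_shift {c : V → ℤ} {N0 N D : ℤ} {I : Set V → Prop} {P : Q2} {B : V → ℤ}
    (hc : IsBG c N0) (hN : N0 ∣ N) (hI : TInv I) (hB : Eqv N P B) (x z : V)
    (hx : x + N • z ∈ UU c D I B) : x ∈ UU c D I B := by
  obtain ⟨F, hIF, hF, hxF⟩ := hx
  refine ⟨{y | y + N • z ∈ F}, hI F (N • z) hIF, fun y hy => ?_, hxF⟩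
  have h := hF (y + N • z) hy
  unfold StD lapD at h ⊢
  rw [bg_per hc hN y z] at h
  have hs : ∀ i : Fin 4,
      (B (y + e i) - ind {y | y + N • z ∈ F} (y + e i)) - (B y - ind {y | y + N • z ∈ F} y) =
      (B (y + N • z + e i) - ind F (y + N • z + e i)) - (B (y + N • z) - ind F (y + N • z)) := by
    intro i
    have e1 : y + N • z + e i = y + e i + N • z := by abel
    have h1 : ind {y | y + N • z ∈ F} (y + e i) = ind F (y + e i + N • z) := ind_congr Iff.rfl
    have h2 : ind {y | y + N • z ∈ F} y = ind F (y + N • z) := ind_congr Iff.rfl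
    have h3 := eqv_diff hB y (y + e i) z
    rw [e1, h1, h2]
    omega
  simp only [hs]
  exact h

theorem psi_eqv {c : V → ℤ} {N0 N D : ℤ} {I : Set V → Prop} {P : Q2} {B : V → ℤ}
    (hc : IsBG c N0) (hN : N0 ∣ N) (hI : TInv I) (hB : Eqv N P B) : Eqv N P (Psi c D I B) := by
  intro x z
  have hiff : x + N • z ∈ UU c D I B ↔ x ∈ UU c D I B := by
    refine ⟨uu_shift hc hN hI hB x z, fun h => uu_shift hc hN hI hB (x + N • z) (-z) ?_⟩
    have e1 : x + N • z + N • (-z) = x := by rw [smul_neg]; abel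
    rw [e1]; exact h
  have h1 : ind (UU c D I B) (x + N • z) = ind (UU c D I B) x := ind_congr hiff
  have h2 := hB x z
  unfold Psi
  rw [h1]
  push_cast
  rw [h2]; ring

theorem std_add {c : V → ℤ} {D : ℤ} (g : V → ℤ) (a : ℤ) (x : V) :
    StD c D (fun y => g y + a) x ↔ StD c D g x := by
  unfold StD lapD
  have hs : ∀ i : Fin 4, g (x + e i) + a - (g x + a) = g (x + e i) - g x := fun i => by ring
  simp only [hs]

theorem uu_add (c : V → ℤ) (D : ℤ) (I : Set V → Prop) (B : V → ℤ) (a : ℤ) :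
    UU c D I (fun x => B x + a) = UU c D I B := by
  have key : ∀ F, FSCD c D (fun x => B x + a) F ↔ FSCD c D B F := by
    intro F
    unfold FSCD
    refine forall_congr' fun x => forall_congr' fun _ => ?_
    have e1 : (fun y => B y + a - ind F y) = fun y => (B y - ind F y) + a := by
      funext y; ring
    rw [e1]
    exact std_add (fun y => B y - ind F y) a x
  unfold UU
  simp only [key]

theorem psi_add (c : V → ℤ) (D : ℤ) (I : Set V → Prop) (B : V → ℤ) (a : ℤ) :
    Psi c D I (fun x => B x + a) = fun x => Psi c D I B x + a := by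
  funext x
  unfold Psi
  rw [uu_add]
  ring

theorem iter_le (c : V → ℤ) (D : ℤ) (I : Set V → Prop) (B : V → ℤ) (j : ℕ) (x : V) :
    (Psi c D I)^[j] B x ≤ B x := by
  induction j with
  | zero => exact le_rfl
  | succ j ih =>
    rw [Function.iterate_succ_apply']
    exact (psi_le c D I _ x).trans ih

theorem eqv_add {N : ℤ} {P : Q2} {B : V → ℤ} (hB : Eqv N P B) (a : ℤ) :
    Eqv N P (fun x => B x + a) := by
  intro x z
  have h := hB x z
  push_cast
  rw [h]; ring

theorem free_of_fix {c : V → ℤ} {D : ℤ} {I : Set V → Prop} {B : V → ℤ}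
    (h : ∀ x, B x ≤ Psi c D I B x) : Free c D I B := by
  intro F hI hF
  refine Set.eq_empty_of_forall_notMem fun x hx => ?_
  have hU : x ∈ UU c D I B := ⟨F, hI, hF, hx⟩
  have h1 := h x
  unfold Psi at h1
  rw [ind_mem hU] at h1
  omega

end Pool.Agent.Sand.PsiD

namespace Pool.Agent.Sand

open PsiD

theorem psi_proof : psi_stmt := by
  intro c N0 N D I P B hc hN hD hI hS hB
  exact ⟨psi_std hD hS, psi_eqv hc hN hI hB, psi_add c D I B⟩

theorem descent_proof (hfin : finphase_stmt) : descent_stmt := by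
  intro c N0 N D I P B hc hNpos hN hD hI hS hB
  have hit : ∀ j : ℕ, (∀ x, StD c D ((Psi c D I)^[j] B) x) ∧ Eqv N P ((Psi c D I)^[j] B) := by
    intro j
    induction j with
    | zero => exact ⟨hS, hB⟩
    | succ j ih =>
      rw [Function.iterate_succ_apply']
      exact ⟨psi_std hD ih.1, psi_eqv hc hN hI ih.2⟩
  have hF := hfin c D N P hc.nonneg hD hNpos
  let f : ℕ → (V → ℤ) := fun j x => (Psi c D I)^[j] B x + -((Psi c D I)^[j] B 0)
  have hf : ∀ j, f j ∈ {B : V → ℤ | (∀ x, StD c D B x) ∧ Eqv N P B ∧ B 0 = 0} := by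
    intro j
    refine ⟨fun x => (std_add _ _ x).2 ((hit j).1 x), eqv_add (hit j).2 _, ?_⟩
    show (Psi c D I)^[j] B 0 + -((Psi c D I)^[j] B 0) = 0
    ring
  obtain ⟨i, j, hij, hfij⟩ := hF.exists_lt_map_eq_of_forall_mem hf
  obtain ⟨k, rfl⟩ := Nat.exists_eq_add_of_lt hij
  refine ⟨i, ?_⟩
  set B' := (Psi c D I)^[i] B with hB'
  have hk : (Psi c D I)^[i + k + 1] B = (Psi c D I)^[k + 1] B' := by
    rw [hB', ← Function.iterate_add_apply]
    congr 1
    omega
  have hx : ∀ x, (Psi c D I)^[k + 1] B' x = B' x - (B' 0 - (Psi c D I)^[k + 1] B' 0) := by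
    intro x
    have h1 := congrFun hfij x
    simp only [f] at h1
    rw [hk, ← hB'] at h1
    omega
  have h0 := iter_le c D I B' (k + 1) 0
  rcases h0.eq_or_lt with h0 | h0
  · left
    refine free_of_fix fun x => ?_
    have h1 := hx x
    have h2 := iter_le c D I (Psi c D I B') k x
    rw [← Function.iterate_succ_apply] at h2
    simp only [Nat.succ_eq_add_one] at h2
    omega
  · right
    exact ⟨k + 1, Nat.succ_pos k, B' 0 - (Psi c D I)^[k + 1] B' 0, by omega, funext hx⟩

end Pool.Agent.Sand
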