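import Pool.Agent.Lib.MP_215a10_lc.Dec.Basic

/-! An infinite set of grid points containing the origin either surrounds a nonzero integer point
or lies in a strip along a rational direction in which it is unbounded. -/

set_option autoImplicit false

namespace Pool.Agent.Sand.PumpA

open Filter Topology

lemma unbdd (D : ℤ) (Y : Set Q2) (hD : 0 < D) (hG : ∀ y ∈ Y, Grid D y) (hY : Y.Infinite) (n : ℕ) :
    ∃ y ∈ Y, (n : ℝ) < ‖(((y.1 : ℝ), (y.2 : ℝ)) : ℝ × ℝ)‖ := by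
  by_contra hc
  push Not at hc
  apply hY
  have hf := (ball_finite (2 * D * n)).image (fun z : V => ((1 : ℚ) / D) • toQ z)
  refine hf.subset ?_
  intro y hy
  obtain ⟨z, hz⟩ := hG y hy
  have hD' : (0 : ℚ) < D := by exact_mod_cast hD
  have h := hc y hy
  rw [Prod.norm_def] at h
  have h1 : |(y.1 : ℝ)| ≤ n := le_trans (le_max_left _ _) h
  have h2 : |(y.2 : ℝ)| ≤ n := le_trans (le_max_right _ _) h
  have h1' : |y.1| ≤ (n : ℚ) := by exact_mod_cast h1
  have h2' : |y.2| ≤ (n : ℚ) := by exact_mod_cast h2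
  have e1 : (D : ℚ) * y.1 = z.1 := by simpa [toQ] using congrArg Prod.fst hz
  have e2 : (D : ℚ) * y.2 = z.2 := by simpa [toQ] using congrArg Prod.snd hz
  refine ⟨z, ?_, ?_⟩
  · have a1 : |(z.1 : ℚ)| ≤ D * n := by
      rw [← e1, abs_mul, abs_of_pos hD']; exact mul_le_mul_of_nonneg_left h1' hD'.le
    have a2 : |(z.2 : ℚ)| ≤ D * n := by
      rw [← e2, abs_mul, abs_of_pos hD']; exact mul_le_mul_of_nonneg_left h2' hD'.le
    have a1' : |z.1| ≤ D * n := by exact_mod_cast a1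
    have a2' : |z.2| ≤ D * n := by exact_mod_cast a2
    show n1 z ≤ 2 * D * n
    unfold n1; linarith
  · show ((1 : ℚ) / D) • toQ z = y
    rw [← hz, smul_smul, one_div, inv_mul_cancel₀ hD'.ne', one_smul]

/-- a recession direction -/
lemma recess (D : ℤ) (Y : Set Q2) (hD : 0 < D) (hG : ∀ y ∈ Y, Grid D y) (hY : Y.Infinite) :
    ∃ a b : ℝ, 1 ≤ a ^ 2 + b ^ 2 ∧ ∀ p q r s M : ℝ, 0 < p * a + q * b → 0 < r * a + s * b →
      ∃ y ∈ Y, M < p * y.1 + q * y.2 ∧ M < r * y.1 + s * y.2 := by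
  choose y hy hn using unbdd D Y hD hG hY
  set w : ℕ → ℝ × ℝ := fun n => (((y n).1 : ℝ), ((y n).2 : ℝ)) with hw
  have hpos : ∀ n, 0 < ‖w n‖ := fun n => lt_of_le_of_lt (Nat.cast_nonneg n) (hn n)
  set z : ℕ → ℝ × ℝ := fun n => ‖w n‖⁻¹ • w n with hz
  have hzs : ∀ n, z n ∈ Metric.sphere (0 : ℝ × ℝ) 1 := by
    intro n
    rw [mem_sphere_zero_iff_norm, hz]
    simp only [norm_smul, norm_inv, norm_norm]
    exact inv_mul_cancel₀ (hpos n).ne'
  obtain ⟨ξ, hξ, φ, hφ, hl⟩ := (isCompact_sphere (0 : ℝ × ℝ) 1).tendsto_subseq hzs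
  have hξ1 : ‖ξ‖ = 1 := mem_sphere_zero_iff_norm.mp hξ
  refine ⟨ξ.1, ξ.2, ?_, ?_⟩
  · rw [Prod.norm_def, Real.norm_eq_abs, Real.norm_eq_abs] at hξ1
    rcases max_cases |ξ.1| |ξ.2| with h | h
    · have : ξ.1 ^ 2 = 1 := by rw [← sq_abs, ← h.1, hξ1]; norm_num
      nlinarith [sq_nonneg ξ.2]
    · have : ξ.2 ^ 2 = 1 := by rw [← sq_abs, ← h.1, hξ1]; norm_num
      nlinarith [sq_nonneg ξ.1]
  · have hr : Tendsto (fun n => ‖w (φ n)‖) atTop atTop := by
      refine tendsto_atTop_mono (fun n => (hn (φ n)).le) ?_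
      exact tendsto_natCast_atTop_atTop.comp hφ.tendsto_atTop
    have key : ∀ p q M : ℝ, 0 < p * ξ.1 + q * ξ.2 →
        ∀ᶠ n in atTop, M < p * (y (φ n)).1 + q * (y (φ n)).2 := by
      intro p q M h
      have hc : Continuous (fun v : ℝ × ℝ => p * v.1 + q * v.2) := by fun_prop
      have h1 : Tendsto (fun n => p * (z (φ n)).1 + q * (z (φ n)).2) atTop
          (𝓝 (p * ξ.1 + q * ξ.2)) := (hc.tendsto ξ).comp hl
      have h2 := hr.atTop_mul_pos h h1
      refine (h2.eventually_gt_atTop M).mono ?_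
      intro n hn'
      have : ‖w (φ n)‖ * (p * (z (φ n)).1 + q * (z (φ n)).2)
          = p * (y (φ n)).1 + q * (y (φ n)).2 := by
        have := (hpos (φ n)).ne'
        simp only [hz, Prod.smul_fst, Prod.smul_snd, smul_eq_mul]
        field_simp
        simp only [hw]
      rwa [this] at hn'
    intro p q r s M h1 h2
    obtain ⟨n, hn1, hn2⟩ := ((key p q M h1).and (key r s M h2)).exists
    exact ⟨y (φ n), hy _, hn1, hn2⟩

/-- Dirichlet approximation of a direction -/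
lemma small (a b δ : ℝ) (hδ : 0 < δ) : ∃ u : V, u ≠ 0 ∧ |a * u.2 - b * u.1| < δ := by
  by_cases ha : a = 0
  · refine ⟨(0, 1), by simp, ?_⟩
    simp [ha, hδ]
  · obtain ⟨n, hn⟩ := exists_nat_gt (|a| / δ)
    have hap : 0 < |a| := abs_pos.mpr ha
    have hn0 : 0 < n := by
      have : (0 : ℝ) < n := lt_trans (div_pos hap hδ) hn
      exact_mod_cast this
    obtain ⟨j, k, hk, -, hj⟩ := Real.exists_int_int_abs_mul_sub_le (b / a) hn0
    refine ⟨(k, j), ?_, ?_⟩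
    · intro h
      have := congrArg Prod.fst h
      simp only [Prod.fst_zero] at this
      omega
    · have e1 : a * (j : ℝ) - b * k = -(a * (k * (b / a) - j)) := by field_simp; ring
      show |a * (j : ℝ) - b * k| < δ
      rw [e1, abs_neg, abs_mul]
      have h1 : |a| * |(k : ℝ) * (b / a) - j| ≤ |a| * (1 / (n + 1)) :=
        mul_le_mul_of_nonneg_left hj hap.le
      refine lt_of_le_of_lt h1 ?_
      rw [div_lt_iff₀ hδ] at hn
      rw [mul_one_div, div_lt_iff₀ (by positivity)]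
      nlinarith

lemma sq_ge (u : V) (hu : u ≠ 0) : (1 : ℝ) ≤ (u.1 : ℝ) ^ 2 + (u.2 : ℝ) ^ 2 := by
  have h := dot_self_pos hu
  have h' : (1 : ℤ) ≤ u.1 ^ 2 + u.2 ^ 2 := by unfold dot at h; nlinarith
  exact_mod_cast h'

/-- integer points close to the line and far forward -/
lemma far (a b δ P : ℝ) (hab : 1 ≤ a ^ 2 + b ^ 2) (hδ : 0 < δ) :
    ∃ v : V, |a * v.2 - b * v.1| < δ ∧ P < a * v.1 + b * v.2 := by
  obtain ⟨M, hM⟩ := exists_nat_gt (2 * |P|)
  have hM0 : (0 : ℝ) < M := lt_of_le_of_lt (by positivity) hM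
  obtain ⟨u, hu, hs⟩ := small a b (min (1 / 2) (δ / M)) (lt_min (by norm_num) (div_pos hδ hM0))
  have hs1 : |a * u.2 - b * u.1| < 1 / 2 := lt_of_lt_of_le hs (min_le_left _ _)
  have hs2 : |a * u.2 - b * u.1| < δ / M := lt_of_lt_of_le hs (min_le_right _ _)
  rw [lt_div_iff₀ hM0] at hs2
  have hq := sq_ge u hu
  have hid : (a * u.1 + b * u.2) ^ 2 + (a * u.2 - b * u.1) ^ 2
      = (a ^ 2 + b ^ 2) * ((u.1 : ℝ) ^ 2 + (u.2 : ℝ) ^ 2) := by ring
  have h1 : 1 ≤ (a ^ 2 + b ^ 2) * ((u.1 : ℝ) ^ 2 + (u.2 : ℝ) ^ 2) := by nlinarith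
  have h2 : (a * u.2 - b * u.1) ^ 2 < 1 / 4 := by
    rw [← sq_abs]; nlinarith [abs_nonneg (a * u.2 - b * u.1)]
  have hP := le_abs_self P
  rcases le_total 0 (a * u.1 + b * u.2) with h | h
  · have h3 : 1 / 2 < a * u.1 + b * u.2 := by nlinarith
    refine ⟨((M : ℤ) * u.1, (M : ℤ) * u.2), ?_, ?_⟩
    · push_cast
      have : a * (M * (u.2 : ℝ)) - b * (M * u.1) = (a * u.2 - b * u.1) * M := by ring
      rw [this, abs_mul, abs_of_pos hM0]; exact hs2
    · push_cast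
      nlinarith
  · have h3 : a * u.1 + b * u.2 < -(1 / 2) := by nlinarith
    refine ⟨(-((M : ℤ) * u.1), -((M : ℤ) * u.2)), ?_, ?_⟩
    · push_cast
      have : a * -(M * (u.2 : ℝ)) - b * -(M * u.1) = -((a * u.2 - b * u.1) * M) := by ring
      rw [this, abs_neg, abs_mul, abs_of_pos hM0]; exact hs2
    · push_cast
      nlinarith

/-- three vectors that positively span the plane -/
lemma tri (A1 A2 B1 B2 C1 C2 x1 x2 : ℝ) (h1 : A1 * B2 - A2 * B1 < 0) (h2 : B1 * C2 - B2 * C1 < 0)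
    (h3 : C1 * A2 - C2 * A1 < 0) (ha : A1 * x1 + A2 * x2 ≤ 0) (hb : B1 * x1 + B2 * x2 ≤ 0)
    (hc : C1 * x1 + C2 * x2 ≤ 0) : x1 = 0 ∧ x2 = 0 := by
  have hid : (B1 * C2 - B2 * C1) * (A1 * x1 + A2 * x2) + (C1 * A2 - C2 * A1) * (B1 * x1 + B2 * x2)
      + (A1 * B2 - A2 * B1) * (C1 * x1 + C2 * x2) = 0 := by ring
  have p1 := mul_nonneg_of_nonpos_of_nonpos h2.le ha
  have p2 := mul_nonneg_of_nonpos_of_nonpos h3.le hb
  have p3 := mul_nonneg_of_nonpos_of_nonpos h1.le hc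
  have q1 : (B1 * C2 - B2 * C1) * (A1 * x1 + A2 * x2) = 0 := by linarith
  have q2 : (C1 * A2 - C2 * A1) * (B1 * x1 + B2 * x2) = 0 := by linarith
  have r1 : A1 * x1 + A2 * x2 = 0 := (mul_eq_zero.mp q1).resolve_left h2.ne
  have r2 : B1 * x1 + B2 * x2 = 0 := (mul_eq_zero.mp q2).resolve_left h3.ne
  have s1 : (A1 * B2 - A2 * B1) * x1 = 0 := by linear_combination B2 * r1 - A2 * r2
  have s2 : (A1 * B2 - A2 * B1) * x2 = 0 := by linear_combination A1 * r2 - B1 * r1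
  exact ⟨(mul_eq_zero.mp s1).resolve_left h1.ne, (mul_eq_zero.mp s2).resolve_left h1.ne⟩

/-- an integer point with level strictly between two levels of `Y` gives a surrounded point -/
lemma between (Y : Set Q2) (a b : ℝ) (hab : 1 ≤ a ^ 2 + b ^ 2)
    (hr : ∀ p q r s M : ℝ, 0 < p * a + q * b → 0 < r * a + s * b →
      ∃ y ∈ Y, M < p * y.1 + q * y.2 ∧ M < r * y.1 + s * y.2)
    (ya yb : Q2) (hya : ya ∈ Y) (hyb : yb ∈ Y) (u : V)
    (h1 : a * ya.2 - b * ya.1 < a * u.2 - b * u.1) (h2 : a * u.2 - b * u.1 < a * yb.2 - b * yb.1) :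
    ∃ l : V, l ≠ 0 ∧ ∃ H : List Q2, (∀ y ∈ H, y ∈ Y) ∧ PS 0 [] [toQ l] H := by
  obtain ⟨v, hv, hP⟩ := far a b
    (min (a * u.2 - b * u.1 - (a * ya.2 - b * ya.1)) (a * yb.2 - b * yb.1 - (a * u.2 - b * u.1)))
    (max 0 (max (a * ya.1 + b * ya.2) (a * yb.1 + b * yb.2)) - (a * u.1 + b * u.2)) hab
    (lt_min (by linarith) (by linarith))
  have hv1 := (abs_lt.mp (lt_of_lt_of_le hv (min_le_left _ _))).1
  have hv2 := (abs_lt.mp (lt_of_lt_of_le hv (min_le_right _ _))).2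
  have m0 := le_max_left 0 (max (a * ya.1 + b * ya.2) (a * yb.1 + b * yb.2))
  have m1 := le_trans (le_max_left (a * ya.1 + b * ya.2) (a * yb.1 + b * yb.2)) (le_max_right 0 _)
  have m2 := le_trans (le_max_right (a * ya.1 + b * ya.2) (a * yb.1 + b * yb.2)) (le_max_right 0 _)
  obtain ⟨l, hl1, hl2⟩ : ∃ l : V, (l.1 : ℝ) = u.1 + v.1 ∧ (l.2 : ℝ) = u.2 + v.2 :=
    ⟨u + v, by simp, by simp⟩
  have tA : a * (ya.2 - l.2) - b * (ya.1 - l.1) < 0 := by rw [hl1, hl2]; linarith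
  have tB : 0 < a * (yb.2 - l.2) - b * (yb.1 - l.1) := by rw [hl1, hl2]; linarith
  have pA : a * (ya.1 - l.1) + b * (ya.2 - l.2) < 0 := by rw [hl1, hl2]; linarith
  have pB : a * (yb.1 - l.1) + b * (yb.2 - l.2) < 0 := by rw [hl1, hl2]; linarith
  have pl : 0 < a * l.1 + b * l.2 := by rw [hl1, hl2]; linarith
  obtain ⟨A1, hA1⟩ : ∃ x : ℝ, x = ya.1 - l.1 := ⟨_, rfl⟩
  obtain ⟨A2, hA2⟩ : ∃ x : ℝ, x = ya.2 - l.2 := ⟨_, rfl⟩
  obtain ⟨B1, hB1⟩ : ∃ x : ℝ, x = yb.1 - l.1 := ⟨_, rfl⟩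
  obtain ⟨B2, hB2⟩ : ∃ x : ℝ, x = yb.2 - l.2 := ⟨_, rfl⟩
  rw [← hA1, ← hA2] at tA pA
  rw [← hB1, ← hB2] at tB pB
  have dAB : A1 * B2 - A2 * B1 < 0 := by
    have hid : (a ^ 2 + b ^ 2) * (A1 * B2 - A2 * B1)
        = (a * A1 + b * A2) * (a * B2 - b * B1) - (a * A2 - b * A1) * (a * B1 + b * B2) := by ring
    have n1 := mul_neg_of_neg_of_pos pA tB
    have n2 := mul_pos_of_neg_of_neg tA pB
    by_contra hc
    have := mul_nonneg (by linarith : 0 ≤ a ^ 2 + b ^ 2) (not_lt.mp hc)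
    linarith
  obtain ⟨yc, hyc, hc1, hc2⟩ := hr B2 (-B1) (-A2) A1
    (max (B2 * l.1 - B1 * l.2) (A1 * l.2 - A2 * l.1)) (by linarith) (by linarith)
  have k1 := lt_of_le_of_lt (le_max_left _ _) hc1
  have k2 := lt_of_le_of_lt (le_max_right _ _) hc2
  refine ⟨l, ?_, [ya, yb, yc], ?_, ?_⟩
  · rintro rfl
    simp at pl
  · intro y hy
    simp only [List.mem_cons, List.not_mem_nil, or_false] at hy
    rcases hy with rfl | rfl | rfl <;> assumption
  · intro ξ hξ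
    right
    by_contra hc
    push Not at hc
    have cast : ∀ y ∈ [ya, yb, yc], ((y.1 : ℝ) - l.1) * ξ.1 + ((y.2 : ℝ) - l.2) * ξ.2 ≤ 0 := by
      intro y hy
      have h := hc y hy (toQ l) (by simp)
      simp only [qd, toQ] at h
      have h' : (y.1 : ℝ) * ξ.1 + y.2 * ξ.2 ≤ (l.1 : ℝ) * ξ.1 + l.2 * ξ.2 := by exact_mod_cast h
      linarith
    have ca := cast ya (by simp)
    have cb := cast yb (by simp)
    have cc := cast yc (by simp)
    rw [← hA1, ← hA2] at ca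
    rw [← hB1, ← hB2] at cb
    obtain ⟨z1, z2⟩ := tri A1 A2 B1 B2 (yc.1 - l.1) (yc.2 - l.2) ξ.1 ξ.2 dAB (by linarith)
      (by linarith) ca cb cc
    apply hξ
    refine ⟨by simp, fun _ => ?_⟩
    exact Prod.ext (by exact_mod_cast z1) (by exact_mod_cast z2)

end Pool.Agent.Sand.PumpA

namespace Pool.Agent.Sand

open PumpA

theorem pumpA_proof : pumpA_stmt := by
  intro D Y hD hG h0 hY
  obtain ⟨a, b, hab, hr⟩ := recess D Y hD hG hY
  by_cases hfirst : ∃ l : V, l ≠ 0 ∧ ∃ H : List Q2, (∀ y ∈ H, y ∈ Y) ∧ PS 0 [] [toQ l] H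
  · exact Or.inl hfirst
  right
  have nb : ∀ y ∈ Y, ∀ u : V, |a * y.2 - b * y.1| ≤ |a * u.2 - b * u.1| ∨
      a * u.2 - b * u.1 = 0 := by
    intro y hy u
    by_contra hc
    push Not at hc
    obtain ⟨hc1, hc2⟩ := hc
    apply hfirst
    have hw : ∃ w : V, 0 < a * w.2 - b * w.1 ∧ a * w.2 - b * w.1 < |a * y.2 - b * y.1| := by
      rcases lt_or_gt_of_ne hc2 with h | h
      · refine ⟨-u, ?_, ?_⟩
        · simp only [Prod.fst_neg, Prod.snd_neg]; push_cast; linarith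
        · rw [abs_of_neg h] at hc1
          simp only [Prod.fst_neg, Prod.snd_neg]; push_cast; linarith
      · rw [abs_of_pos h] at hc1
        exact ⟨u, h, hc1⟩
    obtain ⟨w, hw1, hw2⟩ := hw
    rcases le_total 0 (a * y.2 - b * y.1) with h | h
    · rw [abs_of_nonneg h] at hw2
      exact between Y a b hab hr 0 y h0 hy w (by simpa using hw1) hw2
    · rw [abs_of_nonpos h] at hw2
      refine between Y a b hab hr y 0 hy h0 (-w) ?_ ?_
      · simp only [Prod.fst_neg, Prod.snd_neg]; push_cast; linarith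
      · simp only [Prod.fst_neg, Prod.snd_neg, Prod.fst_zero, Prod.snd_zero]; push_cast; linarith
  -- the levels are bounded
  have hbd : ∀ y ∈ Y, |a * y.2 - b * y.1| ≤ |a| + |b| := by
    intro y hy
    rcases nb y hy (0, 1) with h | h
    · have : |a * (y.2 : ℝ) - b * y.1| ≤ |a| := by simpa using h
      linarith [abs_nonneg b]
    · have ha : a = 0 := by simpa using h
      rcases nb y hy (1, 0) with h' | h'
      · have : |a * (y.2 : ℝ) - b * y.1| ≤ |b| := by simpa using h'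
        linarith [abs_nonneg a]
      · have hb : b = 0 := by simpa using h'
        rw [ha, hb] at hab; norm_num at hab
  -- the direction is rational
  have hker : ∃ u : V, u ≠ 0 ∧ a * u.2 - b * u.1 = 0 := by
    by_contra hc
    push Not at hc
    obtain ⟨y, hy, hy0⟩ : ∃ y ∈ Y, y ≠ 0 := by
      obtain ⟨y, hy, hy0⟩ := hY.exists_notMem_finite (Set.finite_singleton (0 : Q2))
      exact ⟨y, hy, hy0⟩
    obtain ⟨z, hz⟩ := hG y hy
    have hD' : (0 : ℚ) < D := by exact_mod_cast hD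
    have e1 : (D : ℚ) * y.1 = z.1 := by simpa [toQ] using congrArg Prod.fst hz
    have e2 : (D : ℚ) * y.2 = z.2 := by simpa [toQ] using congrArg Prod.snd hz
    have e1' : (D : ℝ) * y.1 = z.1 := by exact_mod_cast e1
    have e2' : (D : ℝ) * y.2 = z.2 := by exact_mod_cast e2
    have hz0 : z ≠ 0 := by
      rintro rfl
      rw [toQ_zero] at hz
      exact hy0 ((smul_eq_zero.mp hz).resolve_left hD'.ne')
    have hθ : a * y.2 - b * y.1 ≠ 0 := by
      intro h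
      apply hc z hz0
      rw [← e1', ← e2']
      linear_combination (D : ℝ) * h
    obtain ⟨u, hu, hs⟩ := small a b _ (abs_pos.mpr hθ)
    rcases nb y hy u with h | h
    · linarith
    · exact hc u hu h
  obtain ⟨l, hl0, hl, hlp⟩ : ∃ l : V, l ≠ 0 ∧ a * l.2 - b * l.1 = 0 ∧ 0 < l.1 * a + l.2 * b := by
    obtain ⟨u, hu, hk⟩ := hker
    have hq := sq_ge u hu
    have hne : (u.1 : ℝ) * a + u.2 * b ≠ 0 := by
      intro h
      have hid : ((u.1 : ℝ) * a + u.2 * b) ^ 2 + (a * u.2 - b * u.1) ^ 2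
          = (a ^ 2 + b ^ 2) * ((u.1 : ℝ) ^ 2 + (u.2 : ℝ) ^ 2) := by ring
      rw [h, hk] at hid
      nlinarith
    rcases lt_or_gt_of_ne hne with h | h
    · refine ⟨-u, neg_ne_zero.mpr hu, ?_, ?_⟩
      · simp only [Prod.fst_neg, Prod.snd_neg]; push_cast; linarith
      · simp only [Prod.fst_neg, Prod.snd_neg]; push_cast; linarith
    · exact ⟨u, hu, hk, h⟩
  refine ⟨l, hl0, ?_, ?_⟩
  · obtain ⟨K, hK⟩ := exists_rat_gt ((l.1 * a + l.2 * b) * (|a| + |b|))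
    refine ⟨K, fun y hy => ?_⟩
    have hid : (a ^ 2 + b ^ 2) * ((y.1 : ℝ) * (-l.2) + y.2 * l.1)
        = (l.1 * a + l.2 * b) * (a * y.2 - b * y.1) := by
      linear_combination (-(a * y.1 + b * y.2)) * hl
    have h1 : |(y.1 : ℝ) * (-l.2) + y.2 * l.1| ≤ (l.1 * a + l.2 * b) * (|a| + |b|) := by
      have h2 : (a ^ 2 + b ^ 2) * |(y.1 : ℝ) * (-l.2) + y.2 * l.1|
          = (l.1 * a + l.2 * b) * |a * y.2 - b * y.1| := by
        have h6 := congrArg abs hid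
        rwa [abs_mul, abs_mul, abs_of_pos hlp,
          abs_of_nonneg (by linarith : 0 ≤ a ^ 2 + b ^ 2)] at h6
      have h3 := mul_le_mul_of_nonneg_left (hbd y hy) hlp.le
      nlinarith [abs_nonneg ((y.1 : ℝ) * (-l.2) + y.2 * l.1)]
    have h4 : |(y.1 : ℝ) * (-l.2) + y.2 * l.1| ≤ K := le_trans h1 hK.le
    have h5 : ((|qd y (rot l)| : ℚ) : ℝ) ≤ K := by
      simp only [qd, rot]; push_cast; exact h4
    exact_mod_cast h5
  · intro β
    obtain ⟨y, hy, h1, -⟩ := hr l.1 l.2 l.1 l.2 β hlp hlp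
    refine ⟨y, hy, ?_⟩
    have h5 : (β : ℝ) < ((qd y l : ℚ) : ℝ) := by
      simp only [qd]; push_cast; linarith
    exact_mod_cast h5

end Pool.Agent.Sand
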