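import Pool.Agent.Lib.MP_215a10_lc.Dec.PumpB1

/-! Abstract pumping, part 2: induction on the set of types and pigeonhole on windows. -/

set_option autoImplicit false

namespace Pool.Agent.Sand

namespace PumpB
open Classical

namespace Env
variable {F : Type} (E : Env F)

lemma pos_sh (f : F) (j : ℤ) : E.pos (E.sh f (j • E.l)) = E.pos f + j * (E.L2 : ℚ) := by
  unfold pos L2; rw [E.slsh, qd_add, qd_smul]

lemma lev_sh (f : F) (j : ℤ) : E.lev (E.sh f (j • E.l)) = E.lev f := by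
  unfold lev; rw [E.slsh, qd_add, qd_smul, dot_rot]; simp

lemma sh_sh (f : F) (i j : ℤ) : E.sh (E.sh f (i • E.l)) (j • E.l) = E.sh f ((i + j) • E.l) := by
  rw [E.shsh, add_smul]

lemma fin_box (p0 p1 : ℚ) : {g | p0 ≤ E.pos g ∧ E.pos g ≤ p1 ∧ |E.lev g| ≤ E.K}.Finite := by
  have hD : (0 : ℚ) < E.D := by exact_mod_cast E.hD
  obtain ⟨C, hC⟩ := exists_nat_ge ((E.D : ℚ) * (n1 E.l * (|p0| + |p1| + E.K)))
  have hfin : (Set.Icc (-(C : ℤ)) C ×ˢ Set.Icc (-(C : ℤ)) C).Finite :=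
    (Set.finite_Icc _ _).prod (Set.finite_Icc _ _)
  refine (hfin.biUnion (t := fun z : V => {f | E.sl f = ((E.D : ℚ)⁻¹) • toQ z})
    (fun z _ => E.fib _)).subset ?_
  rintro g ⟨h1, h2, h3⟩
  obtain ⟨z, hz⟩ := E.grid g
  have e1 : (E.D : ℚ) * (E.sl g).1 = z.1 := by simpa [toQ] using congrArg Prod.fst hz
  have e2 : (E.D : ℚ) * (E.sl g).2 = z.2 := by simpa [toQ] using congrArg Prod.snd hz
  have hL : (1 : ℚ) ≤ (E.L2 : ℚ) := by exact_mod_cast E.L2_pos
  have hp : |E.pos g| ≤ |p0| + |p1| := by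
    have := neg_abs_le p0
    have := le_abs_self p1
    have := abs_nonneg p0
    have := abs_nonneg p1
    exact abs_le.mpr ⟨by linarith, by linarith⟩
  have hK := E.K_nonneg
  have hP : (0 : ℚ) ≤ |p0| + |p1| := by positivity
  have key : ∀ (x a b : ℚ), (E.L2 : ℚ) * x = a * E.pos g + b * E.lev g →
      |a| + |b| = n1 E.l → |(E.D : ℚ) * x| ≤ C := by
    intro x a b hx hab
    have a1 : |x| ≤ |(E.L2 : ℚ) * x| := by
      rw [abs_mul, abs_of_nonneg (by linarith : (0 : ℚ) ≤ E.L2)]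
      nlinarith [abs_nonneg x]
    have a2 := abs_add_le (a * E.pos g) (b * E.lev g)
    rw [abs_mul, abs_mul] at a2
    have a3 := mul_le_mul_of_nonneg_left hp (abs_nonneg a)
    have a4 := mul_le_mul_of_nonneg_left h3 (abs_nonneg b)
    have a5 := mul_nonneg (abs_nonneg a) hK
    have a6 := mul_nonneg (abs_nonneg b) hP
    have a7 : |x| ≤ n1 E.l * (|p0| + |p1| + E.K) := by
      rw [← hab]; rw [hx] at a1; nlinarith
    rw [abs_mul, abs_of_pos hD]
    exact (mul_le_mul_of_nonneg_left a7 hD.le).trans hC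
  have b1 := key (E.sl g).1 E.l.1 (-E.l.2)
    (by simp only [L2, pos, lev, dot, qd, rot]; push_cast; ring)
    (by simp only [n1, abs_neg]; push_cast; ring)
  have b2 := key (E.sl g).2 E.l.2 E.l.1
    (by simp only [L2, pos, lev, dot, qd, rot]; push_cast; ring)
    (by simp only [n1]; push_cast; ring)
  rw [e1] at b1
  rw [e2] at b2
  have c1 : |z.1| ≤ (C : ℤ) := by exact_mod_cast b1
  have c2 : |z.2| ≤ (C : ℤ) := by exact_mod_cast b2
  simp only [Set.mem_iUnion, Set.mem_ofPred_eq]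
  refine ⟨z, ⟨abs_le.mp c1, abs_le.mp c2⟩, ?_⟩
  rw [← hz, smul_smul, inv_mul_cancel₀ hD.ne', one_smul]

noncomputable def nf (f : F) : F := E.sh f ((-⌊E.pos f / (E.L2 : ℚ)⌋) • E.l)

noncomputable def Ty : Finset F := (E.fin_box 0 E.L2).toFinset

lemma nf_mem {f : F} (hf : E.C0 f) : E.nf f ∈ E.Ty := by
  have hL : (0 : ℚ) < (E.L2 : ℚ) := by exact_mod_cast E.L2_pos
  simp only [Ty, Set.Finite.mem_toFinset, Set.mem_ofPred_eq, nf, pos_sh, lev_sh]
  have h1 := Int.floor_le (E.pos f / (E.L2 : ℚ))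
  have h2 := Int.lt_floor_add_one (E.pos f / (E.L2 : ℚ))
  rw [le_div_iff₀ hL] at h1
  rw [div_lt_iff₀ hL] at h2
  push_cast
  exact ⟨by linarith, by linarith, E.hK f hf⟩

lemma nf_eq {f g : F} (h : E.nf f = E.nf g) : ∃ j : ℤ, g = E.sh f (j • E.l) := by
  refine ⟨-⌊E.pos f / (E.L2 : ℚ)⌋ + ⌊E.pos g / (E.L2 : ℚ)⌋, ?_⟩
  rw [← E.sh_sh]
  change g = E.sh (E.nf f) _
  rw [h, nf, E.sh_sh, neg_add_cancel, zero_smul, E.sh0]

lemma nf_ahead {f g : F} (h : E.nf f = E.nf g) (hp : E.pos f < E.pos g) :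
    ∃ j : ℤ, 0 < j ∧ g = E.sh f (j • E.l) := by
  obtain ⟨j, rfl⟩ := E.nf_eq h
  refine ⟨j, ?_, rfl⟩
  have hL : (0 : ℚ) < (E.L2 : ℚ) := by exact_mod_cast E.L2_pos
  rw [pos_sh] at hp
  have : (0 : ℚ) < j * (E.L2 : ℚ) := by linarith
  exact_mod_cast (mul_pos_iff_of_pos_right hL).mp this

def Goal : Prop :=
  ∃ l' : V, l' ≠ 0 ∧ ∃ a1 a2, Clo E.sl E.Lib 0 [] E.Init a1 ∧ Clo E.sl E.Lib 0 [] E.Init a2 ∧
    ∃ Y : List F, Y ≠ [] ∧ (∀ y ∈ Y, Clo E.sl E.Lib 0 [] E.Init y) ∧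
      ∀ y ∈ Y, Clo E.sl E.Lib l' [E.sl a1, E.sl a2] {y | y ∈ Y} (E.sh y l')

lemma goal_of {j : ℤ} (hj : 0 < j) {Y : List F} (hne : Y ≠ []) (hY : ∀ y ∈ Y, E.C0 y)
    (h : ∀ y ∈ Y, E.CA {y | y ∈ Y} (E.sh y (j • E.l))) : E.Goal :=
  ⟨j • E.l, smul_ne_zero hj.ne' E.l0, E.a1, E.a2, E.ha1, E.ha2, Y, hne, hY,
    fun y hy => clo_smul hj (h y hy)⟩

def Om (f : F) : Prop :=
  E.C0 f ∧ ∃ t ∈ E.Lib, t.con = f ∧ t.prem = none ∧ PSx E.l 0 t.W t.B [] E.A

lemma om_ca {f : F} (h : E.Om f) (Y : Set F) : E.CA Y f := by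
  obtain ⟨_, t, ht, rfl, hp, hps⟩ := h
  exact Clo.step t [] ht (fun f hf => by rw [hp] at hf; cases hf) (by simp) hps

lemma om_bdd (hG : ¬ E.Goal) : ∃ β0 : ℚ, E.βA ≤ β0 ∧ ∀ f, E.Om f → E.pos f ≤ β0 := by
  have hinj : ∀ f g, E.Om f → E.Om g → E.nf f = E.nf g → ¬ E.pos f < E.pos g := by
    intro f g hf hg h hp
    obtain ⟨j, hj, rfl⟩ := E.nf_ahead h hp
    refine hG (E.goal_of hj (Y := [f]) (by simp) (by simpa using hf.1) ?_)
    intro y hy
    rw [List.mem_singleton.mp hy]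
    exact E.om_ca hg _
  let p : F → ℚ := fun φ => if h : ∃ f, E.Om f ∧ E.nf f = φ then E.pos h.choose else 0
  obtain ⟨b, hb⟩ := Finset.exists_le (E.Ty.image p)
  refine ⟨max E.βA b, le_max_left _ _, fun f hf => le_trans ?_ (le_max_right _ _)⟩
  have hex : ∃ g, E.Om g ∧ E.nf g = E.nf f := ⟨f, hf, rfl⟩
  have h1 := hb _ (Finset.mem_image_of_mem p (E.nf_mem hf.1))
  simp only [p, dif_pos hex] at h1
  exact (not_lt.mp (hinj _ _ hex.choose_spec.1 hf hex.choose_spec.2)).trans h1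

inductive DL (β : ℚ) (Φ : Finset F) : List F → Prop
  | nil : DL β Φ []
  | cons (f : F) (L : List F) : DL β Φ L → E.C0 f →
      (E.pos f ≤ β ∨ (E.nf f ∈ Φ ∧ ∃ t, E.App t L ∧ t.con = f)) → DL β Φ (f :: L)

variable {E}

lemma DL.c0 {β : ℚ} {Φ : Finset F} {L : List F} (h : E.DL β Φ L) : ∀ f ∈ L, E.C0 f := by
  induction h with
  | nil => simp
  | cons f L _ hf _ ih =>
    intro g hg
    rcases List.mem_cons.mp hg with rfl | hg
    · exact hf
    · exact ih g hg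

lemma DL.mem {β : ℚ} {Φ : Finset F} {L : List F} (h : E.DL β Φ L) :
    ∀ f ∈ L, E.pos f ≤ β ∨ E.nf f ∈ Φ := by
  induction h with
  | nil => simp
  | cons f L _ _ hf ih =>
    intro g hg
    rcases List.mem_cons.mp hg with rfl | hg
    · exact hf.imp id And.left
    · exact ih g hg

lemma DL.erase {β β' : ℚ} {Φ : Finset F} {L : List F} (h : E.DL β Φ L) (hβ : β ≤ β') (φ : F)
    (hφ : ∀ g ∈ L, E.nf g = φ → E.pos g ≤ β') : E.DL β' (Φ.erase φ) L := by
  induction h with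
  | nil => exact DL.nil
  | cons f L _ hc hf ih =>
    refine DL.cons f L (ih fun g hg => hφ g (List.mem_cons_of_mem _ hg)) hc ?_
    rcases hf with hf | ⟨h1, h2⟩
    · exact Or.inl (hf.trans hβ)
    · by_cases h3 : E.nf f = φ
      · exact Or.inl (hφ f List.mem_cons_self h3)
      · exact Or.inr ⟨Finset.mem_erase.mpr ⟨h3, h1⟩, h2⟩

lemma DL.append {β : ℚ} {Φ : Finset F} {L L' : List F} (h : E.DL β Φ L) (h' : E.DL β Φ L') :
    E.DL β Φ (L ++ L') := by
  induction h with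
  | nil => exact h'
  | cons f L _ hc hf ih =>
    refine DL.cons f _ ih hc ?_
    rcases hf with hf | ⟨h1, t, h2, h3⟩
    · exact Or.inl hf
    · exact Or.inr ⟨h1, t, h2.mono fun g hg => List.mem_append_left _ hg, h3⟩

lemma exists_gl {β : ℚ} (hβ : ∀ f ∈ E.Init, E.pos f ≤ β) {f : F} (hf : E.C0 f) :
    ∃ L, E.DL β E.Ty L ∧ f ∈ L := by
  unfold C0 at hf
  induction hf with
  | init f hf => exact ⟨[f], DL.cons f [] DL.nil (Clo.init f hf) (Or.inl (hβ f hf)), by simp⟩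
  | step t H ht _ _ hps ih1 ih2 =>
    have h1 : ∃ L, E.DL β E.Ty L ∧ ∀ f, t.prem = some f → f ∈ L := by
      cases hp : t.prem with
      | none => exact ⟨[], DL.nil, fun f hf => by cases hf⟩
      | some g =>
        obtain ⟨L, hL, hg⟩ := ih1 g hp
        exact ⟨L, hL, fun f hf => by cases hf; exact hg⟩
    have h2 : ∀ H' : List F, (∀ f ∈ H', ∃ L, E.DL β E.Ty L ∧ f ∈ L) →
        ∃ L, E.DL β E.Ty L ∧ ∀ f ∈ H', f ∈ L := by
      intro H'
      induction H' with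
      | nil => exact fun _ => ⟨[], DL.nil, by simp⟩
      | cons g H' ih =>
        intro hH
        obtain ⟨L1, hL1, hg⟩ := hH g List.mem_cons_self
        obtain ⟨L2, hL2, hg2⟩ := ih fun f hf => hH f (List.mem_cons_of_mem _ hf)
        refine ⟨L1 ++ L2, hL1.append hL2, fun f hf => ?_⟩
        rcases List.mem_cons.mp hf with rfl | hf
        · exact List.mem_append_left _ hg
        · exact List.mem_append_right _ (hg2 f hf)
    obtain ⟨L1, hL1, hp⟩ := h1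
    obtain ⟨L2, hL2, hH⟩ := h2 H ih2
    have hL := hL1.append hL2
    have happ : E.App t (L1 ++ L2) := by
      refine ⟨ht, fun f hf => List.mem_append_left _ (hp f hf), fun ξ hξ => ?_⟩
      rcases hps ξ (notPar.mpr hξ) with h | ⟨_, _, h⟩
      · refine cov_mono ?_ h
        intro y hy
        obtain ⟨f, hf, rfl⟩ := List.mem_map.mp hy
        exact List.mem_map.mpr ⟨f, List.mem_append_right _ (hH f hf), rfl⟩
      · simp [Cov] at h
    have hc := happ.c0 hL.c0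
    exact ⟨t.con :: (L1 ++ L2), DL.cons _ _ hL hc (Or.inr ⟨E.nf_mem hc, t, happ, rfl⟩),
      List.mem_cons_self⟩

variable (E)

def QZ (β0 : ℚ) (Φ : Finset F) (Z : ℚ) : Prop :=
  ∀ β, β0 ≤ β → ∀ L, E.DL β Φ L → ∀ t, E.App t L → E.pos t.con < β + Z

variable {E}

lemma DL.bound {β0 β Z : ℚ} {Φ : Finset F} {L : List F} (h : E.DL β Φ L) (hQ : E.QZ β0 Φ Z)
    (hβ : β0 ≤ β) (hZ : 0 < Z) : ∀ f ∈ L, E.pos f < β + Z := by
  induction h with
  | nil => simp
  | cons f L hL _ hf ih =>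
    intro g hg
    rcases List.mem_cons.mp hg with rfl | hg
    · rcases hf with hf | ⟨_, t, ht, rfl⟩
      · linarith
      · exact hQ β hβ L hL t ht
    · exact ih g hg

lemma occurs {β0 β Z X : ℚ} {Φ : Finset F} {L : List F} {t : Tup F}
    (hQ : ∀ φ ∈ Φ, E.QZ β0 (Φ.erase φ) Z) (hZ : 0 < Z) (hβ : β0 ≤ β) (h : E.DL β Φ L)
    (ht : E.App t L) (hX : X ≤ E.pos t.con ∨ ∃ f ∈ L, X ≤ E.pos f) (hX' : β + Z ≤ X)
    {φ : F} (hφ : φ ∈ Φ) : ∃ g ∈ L, E.nf g = φ ∧ X - Z < E.pos g := by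
  by_contra hc
  push Not at hc
  have h1 : E.DL (X - Z) (Φ.erase φ) L := h.erase (by linarith) φ hc
  have h2 : β0 ≤ X - Z := by linarith
  rcases hX with hX | ⟨f, hf, hX⟩
  · have := hQ φ hφ _ h2 L h1 t ht
    linarith
  · have := h1.bound (hQ φ hφ) h2 hZ f hf
    linarith

lemma window_ne {β0 β Z τ : ℚ} {Φ : Finset F} {L : List F}
    (hQ : ∀ φ ∈ Φ, E.QZ β0 (Φ.erase φ) Z) (hZ : 0 < Z) (hβ : β0 ≤ β) (h : E.DL β Φ L)
    (hτ : β + Z ≤ τ) (hex : ∃ f ∈ L, τ < E.pos f) :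
    ∃ g ∈ L, τ - Z < E.pos g ∧ E.pos g ≤ τ := by
  induction h with
  | nil => simp at hex
  | cons f L hL _ hf ih =>
    by_cases h1 : ∃ g ∈ L, τ < E.pos g
    · obtain ⟨g, hg, h2⟩ := ih h1
      exact ⟨g, List.mem_cons_of_mem _ hg, h2⟩
    · push Not at h1
      obtain ⟨g, hg, h2⟩ := hex
      rcases List.mem_cons.mp hg with rfl | hg
      · rcases hf with hf | ⟨h3, t, ht, rfl⟩
        · linarith
        · obtain ⟨g, hg, _, h4⟩ := occurs hQ hZ hβ hL ht (Or.inl le_rfl) (by linarith) h3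
          exact ⟨g, List.mem_cons_of_mem _ hg, by linarith, h1 g hg⟩
      · exact absurd h2 (not_lt.mpr (h1 g hg))

lemma closure {β0 Z : ℚ} {Φ : Finset F} (hA : E.βA ≤ β0)
    (hQ : ∀ φ ∈ Φ, E.QZ β0 (Φ.erase φ) Z) (hZ : 0 < Z) :
    ∃ w : ℚ, Z ≤ w ∧ ∀ (β τ : ℚ) (Y : Set F) (L : List F), β0 ≤ β → β + Z + E.R ≤ τ →
      E.DL β Φ L → (∀ f ∈ L, τ - w < E.pos f → E.pos f ≤ τ → f ∈ Y) →
      ∀ f ∈ L, τ - w < E.pos f → E.CA Y f := by
  obtain ⟨R1, hR1, hfw⟩ := E.forward (Z + E.R)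
  have hR := E.R_nonneg
  refine ⟨Z + R1, by linarith, fun β τ Y L hβ hτ h => ?_⟩
  induction h with
  | nil => simp
  | cons f L hL hc hf ih =>
    intro hY g hg hgp
    have ih' := ih fun f hf => hY f (List.mem_cons_of_mem _ hf)
    rcases List.mem_cons.mp hg with rfl | hg
    swap
    · exact ih' g hg hgp
    by_cases hτ' : E.pos g ≤ τ
    · exact Clo.init g (hY g List.mem_cons_self hgp hτ')
    push Not at hτ'
    rcases hf with hf | ⟨hΦ, t, ht, rfl⟩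
    · linarith
    have hmem : ∀ f ∈ L, τ - (Z + R1) < E.pos f →
        E.sl f ∈ (L.filter fun f => decide (τ - (Z + R1) < E.pos f)).map E.sl :=
      fun f hf h1 => List.mem_map.mpr ⟨f, List.mem_filter.mpr ⟨hf, by simpa using h1⟩, rfl⟩
    refine Clo.step t (L.filter fun f => decide (τ - (Z + R1) < E.pos f)) ht.1 ?_ ?_ ?_
    · intro f hf
      have := (abs_le.mp (E.prem_pos ht.1 hf)).1
      exact ih' f (ht.2.1 f hf) (by linarith)
    · intro f hf
      obtain ⟨h1, h2⟩ := List.mem_filter.mp hf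
      exact ih' f h1 (by simpa using h2)
    · intro ξ hξ
      rw [notPar] at hξ
      rcases le_or_gt (dot E.l ξ) 0 with hu | hu
      · rcases E.backward ht hL.c0 (by linarith) ξ hξ hu with h1 | h1
        · exact Or.inl (Or.inl h1)
        · exact Or.inr ⟨rfl, hu, h1⟩
      · left
        by_cases hsh : ∀ f ∈ L, E.pos f ≤ E.pos t.con + (Z + E.R)
        · rcases hfw t L ht hL.c0 hsh ξ hu with h1 | ⟨f, hf, h1, h2⟩
          · exact Or.inl h1
          · exact Or.inr ⟨E.sl f, hmem f hf (by linarith), h2⟩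
        · push Not at hsh
          obtain ⟨g0, hg0, h0⟩ := hsh
          have hpiv : ∃ f0, E.sl f0 ∈ t.B ∧ E.nf f0 ∈ Φ := by
            rcases (E.ok t ht.1).2.2.2 with h1 | ⟨f, hf, h1⟩
            · exact ⟨t.con, h1, hΦ⟩
            · refine ⟨f, h1, ?_⟩
              have := (abs_le.mp (E.prem_pos ht.1 hf)).1
              rcases hL.mem f (ht.2.1 f hf) with h2 | h2
              · linarith
              · exact h2
          obtain ⟨f0, hB, hf0⟩ := hpiv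
          obtain ⟨g, hg, h1, h2⟩ := occurs hQ hZ hβ hL ht (Or.inr ⟨g0, hg0, le_rfl⟩)
            (by linarith) hf0
          have h3 : E.pos f0 - E.pos t.con ≤ E.R := (abs_le.mp (E.b_pos ht.1 hB)).2
          obtain ⟨j, hj, h4⟩ := E.nf_ahead h1.symm (by linarith)
          refine Or.inr ⟨E.sl g, hmem g hg (by linarith), E.sl f0, hB, ?_⟩
          rw [h4, E.slsh, qd_add, qd_smul]
          have : (0 : ℚ) < (j : ℚ) * ((dot E.l ξ : ℤ) : ℚ) := by exact_mod_cast mul_pos hj hu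
          linarith

lemma q_base {β0 : ℚ} (hA : E.βA ≤ β0) (hO : ∀ f, E.Om f → E.pos f ≤ β0) :
    ∃ Z, 0 < Z ∧ E.QZ β0 ∅ Z := by
  obtain ⟨R1, hR1, hfw⟩ := E.forward 0
  have hR := E.R_nonneg
  refine ⟨R1 + 1, by linarith, fun β hβ L hL t ht => ?_⟩
  by_contra hc
  push Not at hc
  have hle : ∀ f ∈ L, E.pos f ≤ β := fun f hf => (hL.mem f hf).resolve_right (by simp)
  have : E.Om t.con := by
    refine ⟨ht.c0 hL.c0, t, ht.1, rfl, ?_, fun ξ hξ => ?_⟩
    · cases hp : t.prem with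
      | none => rfl
      | some f =>
        have h1 := (abs_le.mp (E.prem_pos ht.1 hp)).1
        have h2 := hle f (ht.2.1 f hp)
        linarith
    · rw [notPar] at hξ
      rcases le_or_gt (dot E.l ξ) 0 with hu | hu
      · rcases E.backward ht hL.c0 (by linarith) ξ hξ hu with h1 | h1
        · exact Or.inl (Or.inl h1)
        · exact Or.inr ⟨rfl, hu, h1⟩
      · rcases hfw t L ht hL.c0 (fun f hf => by linarith [hle f hf]) ξ hu with
          h1 | ⟨f, hf, h1, _⟩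
        · exact Or.inl (Or.inl h1)
        · linarith [hle f hf]
  linarith [hO _ this]

lemma q_step (hG : ¬ E.Goal) {β0 Z : ℚ} {Φ : Finset F} (hA : E.βA ≤ β0) (hne : Φ.Nonempty)
    (hQ : ∀ φ ∈ Φ, E.QZ β0 (Φ.erase φ) Z) (hZ : 0 < Z) : ∃ Z', 0 < Z' ∧ E.QZ β0 Φ Z' := by
  obtain ⟨w, hw, hcl⟩ := closure hA hQ hZ
  have hR := E.R_nonneg
  have hL1 : (1 : ℚ) ≤ (E.L2 : ℚ) := by exact_mod_cast E.L2_pos
  set S := (E.fin_box (-w) 0).toFinset with hS
  set N := S.powerset.card with hN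
  obtain ⟨m, hm⟩ := exists_nat_ge w
  have hm0 : (0 : ℚ) < m := by linarith
  refine ⟨Z + E.R + E.L2 + N * m * E.L2 + Z, by positivity, fun β hβ L hL t ht => ?_⟩
  by_contra hc
  push Not at hc
  obtain ⟨φ, hφ⟩ := hne
  have hNm : (0 : ℚ) ≤ N * m * E.L2 := by positivity
  obtain ⟨g, hg, -, hgp⟩ := occurs hQ hZ hβ hL ht (Or.inl le_rfl) (by linarith) hφ
  set i0 : ℤ := ⌈(β + Z + E.R) / (E.L2 : ℚ)⌉ with hi0
  have hi1 : β + Z + E.R ≤ i0 * (E.L2 : ℚ) := by
    rw [← div_le_iff₀ (by linarith)]; exact Int.le_ceil _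
  have hi2 : (i0 : ℚ) * (E.L2 : ℚ) < β + Z + E.R + E.L2 := by
    have := Int.ceil_lt_add_one ((β + Z + E.R) / (E.L2 : ℚ))
    rw [← sub_lt_iff_lt_add, lt_div_iff₀ (by linarith)] at this
    linarith
  let k : ℕ → ℤ := fun i => i0 + i * m
  let Wn : ℕ → Finset F := fun i => S.filter fun s => E.sh s (k i • E.l) ∈ L
  have main : ∀ i j : ℕ, i < j → j ≤ N → Wn i = Wn j → False := by
    intro i j hij hj hW
    have hki : ((k i : ℤ) : ℚ) = i0 + i * m := by simp [k]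
    have hkj : ((k j : ℤ) : ℚ) = i0 + j * m := by simp [k]
    have hij' : (i : ℚ) + 1 ≤ j := by exact_mod_cast hij
    have hj' : (j : ℚ) ≤ N := by exact_mod_cast hj
    have hi' : (0 : ℚ) ≤ i := Nat.cast_nonneg i
    have hmL : (0 : ℚ) < m * E.L2 := by positivity
    set τ : ℚ := (k i : ℚ) * E.L2 with hτ
    have hτ1 : β + Z + E.R ≤ τ := by
      rw [hτ, hki]; nlinarith
    have hτ2 : τ < E.pos g := by
      rw [hτ, hki]; nlinarith
    obtain ⟨y0, hy0, hy1, hy2⟩ := window_ne hQ hZ hβ hL (by linarith) ⟨g, hg, hτ2⟩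
    let Y := L.filter fun f => decide (τ - w < E.pos f ∧ E.pos f ≤ τ)
    have hY : ∀ y, y ∈ Y ↔ y ∈ L ∧ τ - w < E.pos y ∧ E.pos y ≤ τ := by
      intro y; simp [Y]
    have hkk : (0 : ℤ) < k j - k i := by
      have : (0 : ℚ) < ((k j - k i : ℤ) : ℚ) := by
        push_cast; rw [hki, hkj]; nlinarith
      exact_mod_cast this
    refine hG (E.goal_of hkk (Y := Y) ?_ (fun y hy => hL.c0 y ((hY y).mp hy).1) ?_)
    · exact List.ne_nil_of_mem ((hY y0).mpr ⟨hy0, by linarith, hy2⟩)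
    · intro y hy
      obtain ⟨h1, h2, h3⟩ := (hY y).mp hy
      have hs : E.sh y ((-k i) • E.l) ∈ Wn i := by
        refine Finset.mem_filter.mpr ⟨?_, ?_⟩
        · simp only [hS, Set.Finite.mem_toFinset, Set.mem_ofPred_eq, pos_sh, lev_sh]
          push_cast
          exact ⟨by linarith, by linarith, E.hK y (hL.c0 y h1)⟩
        · rwa [E.sh_sh, neg_add_cancel, zero_smul, E.sh0]
      rw [hW] at hs
      have h4 := (Finset.mem_filter.mp hs).2
      rw [E.sh_sh, neg_add_eq_sub] at h4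
      refine hcl β τ _ L hβ hτ1 hL (fun f hf a b => (hY f).mpr ⟨hf, a, b⟩) _ h4 ?_
      rw [pos_sh]
      have : (0 : ℚ) < ((k j - k i : ℤ) : ℚ) * E.L2 := by
        have : (0 : ℚ) < ((k j - k i : ℤ) : ℚ) := by exact_mod_cast hkk
        positivity
      have h5 : (m : ℚ) ≤ ((k j - k i : ℤ) : ℚ) * E.L2 := by
        push_cast; rw [hki, hkj]; nlinarith
      by_contra h6
      push Not at h6
      linarith
  obtain ⟨i, hi, j, hj, hij, hW⟩ := Finset.exists_ne_map_eq_of_card_lt_of_maps_to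
    (s := Finset.range (N + 1)) (t := S.powerset) (f := Wn) (by simp [hN])
    (fun i _ => Finset.mem_coe.mpr (Finset.mem_powerset.mpr (Finset.filter_subset _ _)))
  rw [Finset.mem_range] at hi hj
  rcases lt_or_gt_of_ne hij with h | h
  · exact main i j h (by omega) hW
  · exact main j i h (by omega) hW.symm

lemma q_all (hG : ¬ E.Goal) {β0 : ℚ} (hA : E.βA ≤ β0) (hO : ∀ f, E.Om f → E.pos f ≤ β0)
    (Φ : Finset F) : ∃ Z, 0 < Z ∧ E.QZ β0 Φ Z := by
  induction Φ using Finset.strongInduction with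
  | H Φ ih =>
    rcases Φ.eq_empty_or_nonempty with rfl | hne
    · exact q_base hA hO
    · have h1 : ∀ φ, ∃ Z, φ ∈ Φ → E.QZ β0 (Φ.erase φ) Z := by
        intro φ
        by_cases hφ : φ ∈ Φ
        · obtain ⟨Z, _, hZ⟩ := ih _ (Finset.erase_ssubset hφ)
          exact ⟨Z, fun _ => hZ⟩
        · exact ⟨0, fun h => absurd h hφ⟩
      choose z hz using h1
      obtain ⟨b, hb⟩ := Finset.exists_le (Φ.image z)
      refine q_step hG hA hne (Z := max 1 b) (fun φ hφ β hβ L hL t ht => ?_)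
        (lt_max_of_lt_left one_pos)
      have h2 := hz φ hφ β hβ L hL t ht
      have h3 := (hb _ (Finset.mem_image_of_mem z hφ)).trans (le_max_right 1 b)
      linarith

lemma goal (hI : E.Init.Finite) (hU : ∀ β : ℚ, ∃ f, E.C0 f ∧ β < E.pos f) : E.Goal := by
  by_contra hG
  obtain ⟨β0, hA, hO⟩ := E.om_bdd hG
  obtain ⟨Z, hZ, hQ⟩ := q_all hG hA hO E.Ty
  obtain ⟨b, hb⟩ := Finset.exists_le (hI.toFinset.image E.pos)
  obtain ⟨f, hf, hp⟩ := hU (max β0 b + Z)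
  obtain ⟨L, hL, hfL⟩ := exists_gl (β := max β0 b) (fun f hf =>
    (hb _ (Finset.mem_image_of_mem _ (hI.mem_toFinset.mpr hf))).trans (le_max_right _ _)) hf
  have := hL.bound hQ (le_max_left _ _) hZ f hfL
  linarith

end Env
end PumpB

theorem pumpB_proof : pumpB_stmt := by
  intro F sl sh Lib Init D r l hD grid slsh shsh sh0 fib ok hI l0 ⟨K, hK⟩ hU
  have hne : ∃ f, Clo sl Lib 0 [] Init f := by
    obtain ⟨f, hf, _⟩ := hU 0
    exact ⟨f, hf⟩
  obtain ⟨a1, ha1, max1⟩ := PumpB.exists_max_grid (Clo sl Lib 0 [] Init)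
    (fun f => qd (sl f) (rot l)) D K hD (fun f => PumpB.grid_qd (grid f) _)
    (fun f hf => (abs_le.mp (hK f hf)).2) hne
  obtain ⟨a2, ha2, min2⟩ := PumpB.exists_max_grid (Clo sl Lib 0 [] Init)
    (fun f => -qd (sl f) (rot l)) D K hD (fun f => by
      obtain ⟨z, hz⟩ := PumpB.grid_qd (grid f) (rot l)
      exact ⟨-z, by push_cast; rw [← hz]; ring⟩)
    (fun f hf => by linarith [(abs_le.mp (hK f hf)).1]) hne
  exact PumpB.Env.goal (E := ⟨sl, sh, Lib, Init, D, r, l, K, a1, a2, hD, grid, slsh, shsh, sh0,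
    fib, ok, l0, hK, ha1, ha2, max1, fun f hf => neg_le_neg_iff.mp (min2 f hf)⟩) hI hU

end Pool.Agent.Sand
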