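import Pool.Agent.Lib.MP_215a10_lc.Dec.Basic

/-! Steps between lifted phases, staircases, and a uniform spacing. -/

set_option autoImplicit false

namespace Pool.Agent.Sand.Ramp

open Pool.Agent.Sand

theorem std_mono {c : V → ℤ} {D : ℤ} {g g' : V → ℤ} {x : V} (hD : 0 < D)
    (hle : ∀ i, g' (x + e i) ≤ g (x + e i)) (hx : g' x = g x) (h : StD c D g x) :
    StD c D g' x := by
  unfold StD lapD at *
  have : ∑ i : Fin 4, cd D (g' (x + e i) - g' x) ≤ ∑ i : Fin 4, cd D (g (x + e i) - g x) := by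
    refine Finset.sum_le_sum fun i _ => cd_mono hD ?_
    have := hle i
    omega
  omega

theorem std_shift {c : V → ℤ} {D : ℤ} (g : V → ℤ) (w : V) (a : ℤ) (x : V)
    (hc : c (x + w) = c x) (h : StD c D g (x + w)) : StD c D (fun y => g (y + w) + a) x := by
  unfold StD lapD at *
  have hs : ∀ i : Fin 4, g (x + e i + w) + a - (g (x + w) + a) = g (x + w + e i) - g (x + w) :=
    fun i => by rw [add_right_comm x (e i) w]; ring
  simp only [hs]
  omega

theorem ind_le_ind {F G : Set V} (h : F ⊆ G) (x : V) : ind F x ≤ ind G x := by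
  by_cases hx : x ∈ F
  · rw [ind_mem hx, ind_mem (h hx)]
  · rw [ind_not hx]; exact ind_nonneg G x

theorem ind_congr {F G : Set V} {x y : V} (h : x ∈ F ↔ y ∈ G) : ind F x = ind G y := by
  by_cases hx : x ∈ F
  · rw [ind_mem hx, ind_mem (h.1 hx)]
  · rw [ind_not hx, ind_not (fun hy => hx (h.2 hy))]

theorem psi_le (c : V → ℤ) (D : ℤ) (I : Set V → Prop) (B : V → ℤ) (x : V) :
    Psi c D I B x ≤ B x := by
  unfold Psi
  have := ind_nonneg (UU c D I B) x
  omega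

theorem psi_std {c : V → ℤ} {D : ℤ} {I : Set V → Prop} {B : V → ℤ} (hD : 0 < D)
    (hB : ∀ x, StD c D B x) (x : V) : StD c D (Psi c D I B) x := by
  by_cases hx : x ∈ UU c D I B
  · obtain ⟨F, hI, hF, hxF⟩ := id hx
    have hsub : F ⊆ UU c D I B := fun y hy => ⟨F, hI, hF, hy⟩
    refine std_mono (g := fun y => B y - ind F y) hD (fun i => ?_) ?_ (hF x hxF)
    · have := ind_le_ind hsub (x + e i)
      show B (x + e i) - ind (UU c D I B) (x + e i) ≤ B (x + e i) - ind F (x + e i)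
      omega
    · show B x - ind (UU c D I B) x = B x - ind F x
      rw [ind_mem hx, ind_mem hxF]
  · refine std_mono (g := B) hD (fun i => psi_le c D I B _) ?_ (hB x)
    show B x - ind (UU c D I B) x = B x
    rw [ind_not hx]; omega

/-- integer form of equivariance -/
theorem eqv_int {N : ℤ} {P : Q2} {B : V → ℤ} (hB : Eqv N P B) (z : V) :
    ∃ u : ℤ, (u : ℚ) = -(N * qd P z) ∧ ∀ x, B (x + N • z) = B x + u := by
  refine ⟨B (0 + N • z) - B 0, by push_cast; rw [hB]; ring, fun x => ?_⟩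
  have : (B (x + N • z) : ℚ) = B x + ((B (0 + N • z) - B 0 : ℤ) : ℚ) := by
    push_cast; rw [hB, hB]; ring
  exact_mod_cast this

theorem fscd_shift {c : V → ℤ} {N D : ℤ} {P : Q2} {B : V → ℤ} (hc : IsBG c N) (hB : Eqv N P B)
    {F : Set V} (hF : FSCD c D B F) (z : V) : FSCD c D B {y | y + N • z ∈ F} := by
  intro y hy
  obtain ⟨u, -, hu⟩ := eqv_int hB z
  have h := std_shift (fun y => B y - ind F y) (N • z) (-u) y (hc.per y z) (hF _ hy)
  have e1 : (fun w => B w - ind {y | y + N • z ∈ F} w) =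
      fun w => B (w + N • z) - ind F (w + N • z) + -u := by
    funext w
    have h1 : ind {y | y + N • z ∈ F} w = ind F (w + N • z) := ind_congr Iff.rfl
    rw [h1, hu]; ring
  rw [e1]; exact h

/-- `g` on the `ζ` side can be joined to the lower function `g'` on the other side -/
def Step (c : V → ℤ) (D : ℤ) (ζ w : V) (u : ℤ) (g g' : V → ℤ) : Prop :=
  ∀ A : ℤ, ∃ (C : ℤ) (h : V → ℤ), (∀ x, StD c D h x) ∧ (∀ x, A ≤ dot ζ x → h x = g x) ∧
    (∀ x, dot ζ x ≤ C → h x = g' x) ∧ (∀ x, g' x ≤ h x ∧ h x ≤ g x) ∧ ∀ x, h (x + w) = h x + u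

theorem Step.refl {c : V → ℤ} {D : ℤ} {ζ w : V} {u : ℤ} {g : V → ℤ} (h1 : ∀ x, StD c D g x)
    (h2 : ∀ x, g (x + w) = g x + u) : Step c D ζ w u g g :=
  fun _ => ⟨0, g, h1, fun _ _ => rfl, fun _ _ => rfl, fun _ => ⟨le_rfl, le_rfl⟩, h2⟩

open Classical in
theorem Step.trans {c : V → ℤ} {D : ℤ} {ζ w : V} {u : ℤ} {g g' g'' : V → ℤ} (hD : 0 < D)
    (hw : dot ζ w = 0) (s1 : Step c D ζ w u g g') (s2 : Step c D ζ w u g' g'') :
    Step c D ζ w u g g'' := by
  intro A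
  obtain ⟨C1, h1, a1, a2, a3, a4, a5⟩ := s1 A
  obtain ⟨C2, h2, b1, b2, b3, b4, b5⟩ := s2 (min C1 A - n1 ζ)
  have hn := n1_nonneg ζ
  refine ⟨min C2 (min C1 A - n1 ζ - 1), fun x => if min C1 A - n1 ζ ≤ dot ζ x then h1 x else h2 x,
    fun x => ?_, fun x hx => ?_, fun x hx => ?_, fun x => ?_, fun x => ?_⟩
  · by_cases hx : min C1 A - n1 ζ ≤ dot ζ x
    · refine std_mono hD (fun i => ?_) (if_pos hx) (a1 x)
      have := a4 (x + e i); have := b4 (x + e i)
      split_ifs <;> omega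
    · refine std_mono hD (fun i => ?_) (if_neg hx) (b1 x)
      split_ifs with hy
      · have h3 := abs_le.1 (abs_dot_e ζ i)
        have h4 := dot_add ζ x (e i)
        rw [a3 _ (by omega), b2 _ hy]
      · exact le_rfl
  · simp only
    rw [if_pos (by omega), a2 x hx]
  · simp only
    rw [if_neg (by omega), b3 x (by omega)]
  · have := a4 x; have := b4 x
    simp only
    split_ifs <;> omega
  · simp only [dot_add, hw, add_zero, a5, b5]
    split_ifs <;> rfl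

/-- one lowering is a step -/
theorem step_psi {c : V → ℤ} {N D : ℤ} {I : Set V → Prop} {P : Q2} {B : V → ℤ} {ζ : V} {u : ℤ}
    (hc : IsBG c N) (hD : 0 < D) (hI : TInv I) (hS : ∀ x, StD c D B x) (hB : Eqv N P B)
    (hb : ∀ F, I F → ∃ C : ℤ, ∀ x ∈ F, dot ζ x ≤ C)
    (hu : ∀ x, B (x + N • rot ζ) = B x + u) :
    Step c D ζ (N • rot ζ) u B (Psi c D I B) := by
  intro A
  set I' : Set V → Prop := fun F => I F ∧ ∀ x ∈ F, dot ζ x < A with hI'
  have hsub : UU c D I' B ⊆ UU c D I B := by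
    rintro x ⟨F, hF, h2, h3⟩; exact ⟨F, hF.1, h2, h3⟩
  -- a uniform bound over the box
  have hbox : ∃ K : ℤ, ∀ y : V, (0 ≤ y.1 ∧ y.1 < N ∧ 0 ≤ y.2 ∧ y.2 < N) → y ∈ UU c D I B →
      ∃ F, I F ∧ FSCD c D B F ∧ y ∈ F ∧ ∀ x ∈ F, dot ζ x - dot ζ y ≤ K := by
    have h1 : ∀ y : V, ∃ K : ℤ, y ∈ UU c D I B →
        ∃ F, I F ∧ FSCD c D B F ∧ y ∈ F ∧ ∀ x ∈ F, dot ζ x - dot ζ y ≤ K := by
      intro y
      by_cases hy : y ∈ UU c D I B
      · obtain ⟨F, h1, h2, h3⟩ := hy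
        obtain ⟨C, hC⟩ := hb F h1
        exact ⟨C - dot ζ y, fun _ => ⟨F, h1, h2, h3, fun x hx => by have := hC x hx; omega⟩⟩
      · exact ⟨0, fun h => absurd h hy⟩
    choose K hK using h1
    obtain ⟨K0, hK0⟩ := ((box_finite N).image K).bddAbove
    refine ⟨K0, fun y hy hU => ?_⟩
    obtain ⟨F, h1, h2, h3, h4⟩ := hK y hU
    have h5 : K y ≤ K0 := hK0 ⟨y, hy, rfl⟩
    exact ⟨F, h1, h2, h3, fun x hx => (h4 x hx).trans h5⟩
  obtain ⟨K, hK⟩ := hbox
  have hsh : ∀ z : V, dot ζ z = 0 → ∀ x, x + N • z ∈ UU c D I' B → x ∈ UU c D I' B := by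
    rintro z hz x ⟨F, hF, h2, h3⟩
    refine ⟨{y | y + N • z ∈ F}, ⟨hI F _ hF.1, fun y hy => ?_⟩, fscd_shift hc hB h2 z, h3⟩
    have := hF.2 _ hy
    rw [dot_add, dot_smul, hz] at this
    omega
  refine ⟨A - K - 1, Psi c D I' B, psi_std hD hS, fun x hx => ?_, fun x hx => ?_, fun x => ?_,
    fun x => ?_⟩
  · unfold Psi
    rw [ind_not, sub_zero]
    rintro ⟨F, hF, -, h3⟩
    have := hF.2 x h3
    omega
  · unfold Psi
    congr 1
    refine ind_congr ⟨fun h => hsub h, fun h => ?_⟩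
    obtain ⟨z, y, hy, rfl⟩ := box_rep hc.pos x
    have hyU : y ∈ UU c D I B := by
      obtain ⟨F, h1, h2, h3⟩ := h
      exact ⟨{y | y + N • z ∈ F}, hI F _ h1, fscd_shift hc hB h2 z, h3⟩
    obtain ⟨F, h1, h2, h3, h4⟩ := hK y hy hyU
    refine ⟨{w | w + N • (-z) ∈ F}, ⟨hI F _ h1, fun w hw => ?_⟩, fscd_shift hc hB h2 (-z), ?_⟩
    · have := h4 _ hw
      rw [dot_add, dot_smul] at hx
      rw [dot_add, dot_smul, dot_neg] at this
      have e1 : N * -dot ζ z = -(N * dot ζ z) := by ring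
      omega
    · show y + N • z + N • (-z) ∈ F
      have e1 : y + N • z + N • (-z) = y := by rw [smul_neg]; abel
      rw [e1]; exact h3
  · refine ⟨?_, psi_le c D I' B x⟩
    unfold Psi
    have := ind_le_ind hsub x
    omega
  · unfold Psi
    have h1 : ind (UU c D I' B) (x + N • rot ζ) = ind (UU c D I' B) x := by
      refine ind_congr ⟨hsh _ (dot_rot ζ) x, fun h => hsh (-rot ζ) (by simp [dot_neg]) _ ?_⟩
      have e1 : x + N • rot ζ + N • (-rot ζ) = x := by rw [smul_neg]; abel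
      rw [e1]; exact h
    rw [h1, hu]; ring

theorem iter_shift {g : V → ℤ} {z : V} {a : ℤ} (h : ∀ x, g (x + z) = g x + a) (i : ℤ) (x : V) :
    g (x + i • z) = g x + i * a :=
  (iter_eqv (Y := Set.univ) (by simp) (fun x _ => h x) i x (Set.mem_univ x)).2

/-- the staircase built from one step of height `a` -/
theorem stair_lift {c : V → ℤ} {N D a u v : ℤ} {B : V → ℤ} {ζ : V} (hc : IsBG c N) (hD : 0 < D)
    (ha : 0 < a) (hζ : ζ ≠ 0) (hv : ∀ x, B (x + N • ζ) = B x + v)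
    (hs : Step c D ζ (N • rot ζ) u B (fun x => B x - a)) :
    ∃ m0 : ℤ, ∀ m : ℤ, m0 ≤ m → ∃ S : V → ℤ, (∀ x, StD c D S x) ∧
      (∀ x, S (x + m • (N • ζ)) = S x + (a + m * v)) ∧ (∀ x, S (x + N • rot ζ) = S x + u) ∧
      (∀ x, |dot ζ x| ≤ 2 * n1 ζ → S x = B x) ∧ ∀ x, 0 ≤ dot ζ x → B x ≤ S x := by
  obtain ⟨C0, h, a1, a2, a3, a4, a5⟩ := hs 0
  have hn := n1_nonneg ζ
  set n := n1 ζ with hn'
  obtain ⟨C, hC0, hC⟩ : ∃ C : ℤ, 0 ≤ C ∧ -C ≤ C0 := ⟨|C0|, abs_nonneg _, neg_abs_le _⟩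
  obtain ⟨Q, hQ⟩ : ∃ Q, Q = N * dot ζ ζ := ⟨_, rfl⟩
  have hQ1 : 1 ≤ Q := by
    have := mul_pos hc.pos (dot_self_pos hζ); omega
  obtain ⟨k0, hk0⟩ : ∃ k0, k0 = C + 2 * n := ⟨_, rfl⟩
  have hk0Q : k0 ≤ k0 * Q := le_mul_of_one_le_right (by omega) hQ1
  refine ⟨k0 + 3 * n + 1, fun m hm => ?_⟩
  obtain ⟨L, hL⟩ : ∃ L, L = m * Q := ⟨_, rfl⟩
  have hL1 : k0 * Q + 3 * n + 1 ≤ L := by
    have h1 : (k0 + 3 * n + 1) * Q ≤ m * Q := mul_le_mul_of_nonneg_right hm (by omega)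
    have h2 : 3 * n + 1 ≤ (3 * n + 1) * Q := le_mul_of_one_le_right (by omega) hQ1
    rw [hL]; linarith
  have hL0 : 0 < L := by omega
  let H : ℤ → V → ℤ := fun j x =>
    h (x + (-(j * m + k0)) • (N • ζ)) + ((j * m + k0) * v + (j + 1) * a)
  have hd : ∀ j x, dot ζ (x + (-(j * m + k0)) • (N • ζ)) = dot ζ x - j * L - k0 * Q := by
    intro j x; rw [dot_add, dot_smul, dot_smul, hL, hQ]; ring
  have hB : ∀ j x, B (x + (-(j * m + k0)) • (N • ζ)) = B x - (j * m + k0) * v := by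
    intro j x; rw [iter_shift hv]; ring
  have H1 : ∀ j x, StD c D (H j) x := by
    intro j x
    refine std_shift h _ _ x ?_ (a1 _)
    rw [smul_comm]; exact hc.per x _
  have H2 : ∀ j x, j * L + k0 * Q ≤ dot ζ x → H j x = B x + (j + 1) * a := by
    intro j x hx
    simp only [H]
    rw [a2 _ (by rw [hd]; omega), hB]; ring
  have H3 : ∀ j x, dot ζ x ≤ j * L + k0 * Q - C → H j x = B x + j * a := by
    intro j x hx
    simp only [H]
    rw [a3 _ (by rw [hd]; omega)]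
    simp only [hB]; ring
  have H4 : ∀ j x, B x + j * a ≤ H j x ∧ H j x ≤ B x + (j + 1) * a := by
    intro j x
    have := a4 (x + (-(j * m + k0)) • (N • ζ))
    simp only [hB] at this
    simp only [H]
    constructor <;> linarith [this.1, this.2]
  let J : V → ℤ := fun x => (dot ζ x + 2 * n) / L
  have J1 : ∀ x, J x * L ≤ dot ζ x + 2 * n ∧ dot ζ x + 2 * n < (J x + 1) * L := fun x =>
    ⟨Int.ediv_mul_le _ hL0.ne', Int.lt_ediv_add_one_mul_self _ hL0⟩
  have J2 : ∀ x j, j * L ≤ dot ζ x + 2 * n → j ≤ J x := fun x j hj =>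
    Int.le_ediv_of_mul_le hL0 hj
  have J3 : ∀ x j, dot ζ x + 2 * n < (j + 1) * L → J x ≤ j := fun x j hj => by
    have := (Int.ediv_lt_iff_lt_mul hL0).2 hj
    simp only [J]; omega
  refine ⟨fun x => H (J x) x, fun x => ?_, fun x => ?_, fun x => ?_, fun x hx => ?_,
    fun x hx => ?_⟩
  · refine std_mono hD (fun i => ?_) rfl (H1 (J x) x)
    show H (J (x + e i)) (x + e i) ≤ H (J x) (x + e i)
    have h3 := abs_le.1 (abs_dot_e ζ i)
    have h4 := dot_add ζ x (e i)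
    have h5 := J1 x
    have h6 := J1 (x + e i)
    rcases lt_trichotomy (J (x + e i)) (J x) with hl | hl | hl
    · have h7 := (H4 (J (x + e i)) (x + e i)).2
      have h8 := (H4 (J x) (x + e i)).1
      have h9 : (J (x + e i) + 1) * a ≤ J x * a := mul_le_mul_of_nonneg_right (by omega) ha.le
      linarith
    · rw [hl]
    · have h7 : J (x + e i) ≤ J x + 1 := J3 _ _ (by linarith [h5.2])
      have h8 : J (x + e i) = J x + 1 := by omega
      rw [h8] at h6 ⊢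
      rw [H3 _ _ (by linarith [h5.2]), H2 _ _ (by linarith [h6.1])]
  · have h1 : J (x + m • (N • ζ)) = J x + 1 := by
      simp only [J]
      rw [dot_add, dot_smul, dot_smul, ← hQ, ← hL, add_right_comm, Int.add_ediv_of_dvd_right dvd_rfl,
        Int.ediv_self hL0.ne']
    simp only [h1, H]
    have e1 : x + m • (N • ζ) + (-((J x + 1) * m + k0)) • (N • ζ) =
        x + (-(J x * m + k0)) • (N • ζ) := by
      rw [add_assoc, ← add_smul]; congr 2; ring
    rw [e1]; ring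
  · have h1 : J (x + N • rot ζ) = J x := by
      simp only [J]
      rw [dot_add, dot_smul, dot_rot, mul_zero, add_zero]
    simp only [h1, H]
    rw [add_right_comm x, a5]; ring
  · have h1 := abs_le.1 hx
    have h2 : J x = 0 := le_antisymm (J3 _ _ (by omega)) (J2 _ _ (by omega))
    simp only [h2]
    rw [H3 _ _ (by omega)]; ring
  · have h1 : 0 ≤ J x := J2 _ _ (by omega)
    have h2 := (H4 (J x) x).1
    have h3 := mul_nonneg h1 ha.le
    simp only
    omega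

theorem stair_norm {c : V → ℤ} {N : ℤ} {φ S : V → ℤ} {p : Q2} {ζ : V} {t : ℚ}
    (h : Stair c N φ p ζ t S) (l : V) (a : ℤ) :
    Stair c N (fun x => φ x - dot l x + a) (p + toQ l) ζ t (fun x => S x - dot l x + a) := by
  obtain ⟨h1, ⟨N', hN', h2⟩, h3, h4, h5⟩ := h
  refine ⟨(h1.sub_dot l).add_const a, ⟨N', hN', ?_⟩, fun x hx => ?_, fun x hx => ?_, fun x => ?_⟩
  · have := (h2.sub_dot l).add_const a
    rwa [show p - t • toQ ζ + toQ l = p + toQ l - t • toQ ζ by abel] at this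
  · simp only [h3 x hx]
  · have := h4 x hx
    simp only
    omega
  · push_cast
    rw [h5, dot_add, dot_smul, add_qd, qd_toQ]
    push_cast
    ring

theorem unif {T : Type} {s : Set T} (hs : s.Finite) (Pr : T → ℤ → Prop) :
    ∃ m1 : ℤ, ∀ t ∈ s, (∃ m0, ∀ m, m0 ≤ m → Pr t m) → ∀ m, m1 ≤ m → Pr t m := by
  have h1 : ∀ t : T, ∃ k : ℤ, (∃ m0, ∀ m, m0 ≤ m → Pr t m) → ∀ m, k ≤ m → Pr t m := by
    intro t
    by_cases h : ∃ m0, ∀ m, m0 ≤ m → Pr t m
    · obtain ⟨m0, h0⟩ := h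
      exact ⟨m0, fun _ => h0⟩
    · exact ⟨0, fun h' => absurd h' h⟩
  choose k hk using h1
  obtain ⟨K, hK⟩ := (hs.image k).bddAbove
  exact ⟨K, fun t ht h m hm => hk t h m ((hK ⟨t, ht, rfl⟩).trans hm)⟩

theorem slopes_finite {N : ℤ} (hN : 0 < N) :
    {p : Q2 | Grid N p ∧ 0 ≤ p.1 ∧ p.1 < 1 ∧ 0 ≤ p.2 ∧ p.2 < 1}.Finite := by
  refine ((box_finite N).image fun z => (1 / (N : ℚ)) • toQ z).subset ?_
  rintro p ⟨⟨z, hz⟩, h1, h2, h3, h4⟩
  have hN' : (0 : ℚ) < N := by exact_mod_cast hN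
  have e1 : (N : ℚ) * p.1 = z.1 := by simpa [toQ] using congrArg Prod.fst hz
  have e2 : (N : ℚ) * p.2 = z.2 := by simpa [toQ] using congrArg Prod.snd hz
  refine ⟨z, ⟨?_, ?_, ?_, ?_⟩, ?_⟩
  · have : (0 : ℚ) ≤ z.1 := by rw [← e1]; positivity
    exact_mod_cast this
  · have : (z.1 : ℚ) < N := by rw [← e1]; nlinarith
    exact_mod_cast this
  · have : (0 : ℚ) ≤ z.2 := by rw [← e2]; positivity
    exact_mod_cast this
  · have : (z.2 : ℚ) < N := by rw [← e2]; nlinarith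
    exact_mod_cast this
  · show (1 / (N : ℚ)) • toQ z = p
    rw [← hz, smul_smul, one_div_mul_cancel hN'.ne', one_smul]

end Pool.Agent.Sand.Ramp

namespace Pool.Agent.Sand

open Ramp

theorem cycramp_proof (h : psi_stmt) : cycramp_stmt := by
  intro c N0 N D I m B ζ hc0 hN hdvd hD hI hS hB hcyc hζ hb
  have hc := hc0.of_dvd hN hdvd
  obtain ⟨J, -, a, ha, hJ⟩ := hcyc
  obtain ⟨u, hu1, hu⟩ := eqv_int hB (rot ζ)
  obtain ⟨v, hv1, hv⟩ := eqv_int hB ζ
  have hit : ∀ j : ℕ, (∀ x, StD c D ((Psi c D I)^[j] B) x) ∧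
      Eqv N ((D : ℚ) • m) ((Psi c D I)^[j] B) ∧ Step c D ζ (N • rot ζ) u B ((Psi c D I)^[j] B) := by
    intro j
    induction j with
    | zero => exact ⟨hS, hB, Step.refl hS hu⟩
    | succ j ih =>
      rw [Function.iterate_succ_apply']
      obtain ⟨i1, i2, i3⟩ := ih
      obtain ⟨p1, p2, -⟩ := h c N0 N D I _ _ hc0 hdvd hD hI i1 i2
      refine ⟨p1, p2, i3.trans hD (by rw [dot_smul, dot_rot, mul_zero])
        (step_psi hc hD hI i1 i2 hb fun x => ?_)⟩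
      obtain ⟨u', hu1', hu'⟩ := eqv_int i2 (rot ζ)
      have : u' = u := by exact_mod_cast hu1'.trans hu1.symm
      rw [hu', this]
  have hs := (hit J).2.2
  rw [hJ] at hs
  obtain ⟨m0, hm0⟩ := stair_lift hc hD ha hζ hv hs
  refine ⟨m0, fun k hk hk0 => ?_⟩
  obtain ⟨S, s1, s2, s3, s4, s5⟩ := hm0 (a * k) (hk.trans (le_mul_of_one_le_left hk0.le ha))
  have hq := dot_self_pos hζ
  refine ⟨fun x => S x / D, stable_of_stD hD s1, ⟨D * (a * k * N * dot ζ ζ), by positivity, ?_⟩,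
    fun x hx => ?_, fun x hx => ?_, fun x => ?_⟩
  · refine Eqv.ediv hD fun x z => ?_
    have e1 : x + (a * k * N * dot ζ ζ) • z =
        x + dot ζ z • ((a * k) • (N • ζ)) + (a * k * det ζ z) • (N • rot ζ) := by
      rw [mul_smul, dot_self_smul ζ z, smul_add, add_assoc]
      simp only [smul_smul]
      congr 2 <;> congr 1 <;> ring
    rw [e1, iter_shift s3, iter_shift s2]
    have e2 : (dot ζ ζ : ℚ) * qd m z = dot ζ z * qd m ζ + det ζ z * qd m (rot ζ) := by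
      rw [← qd_smul, dot_self_smul ζ z, qd_add, qd_smul, qd_smul]
    have hk' : (k : ℚ) ≠ 0 := by exact_mod_cast hk0.ne'
    have hD' : (D : ℚ) ≠ 0 := by exact_mod_cast hD.ne'
    have hN' : (N : ℚ) ≠ 0 := by exact_mod_cast hN.ne'
    have hq' : (dot ζ ζ : ℚ) ≠ 0 := by exact_mod_cast hq.ne'
    push_cast
    rw [hu1, hv1]
    simp only [smul_qd, sub_qd, qd_toQ]
    have e3 : (a : ℚ) * k * N * dot ζ ζ * (D * (qd m z - 1 / (k * (D * N) * dot ζ ζ) * dot ζ z)) =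
        a * k * N * D * (dot ζ ζ * qd m z) - a * dot ζ z := by
      field_simp
    rw [e3, e2]; ring
  · simp only [s4 x hx]
  · exact Int.ediv_le_ediv hD (s5 x hx)
  · simp only
    rw [mul_smul, iter_shift s3, Int.add_mul_ediv_left _ _ hD.ne']
    push_cast
    rw [hu1, smul_qd]; ring

theorem stepramp_proof (h : psi_stmt) : stepramp_stmt := by
  intro c N0 N φ p ζ hc0 hN hdvd hS hB hζ hF
  have hc := hc0.of_dvd hN hdvd
  obtain ⟨C, F, hF1, hF2, hF3⟩ := hF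
  have hq := dot_self_pos hζ
  have hI : TInv (fun F => ∃ C : ℤ, ∀ x ∈ F, dot ζ x ≤ C) := by
    rintro F z ⟨C, hC⟩
    refine ⟨C - dot ζ z, fun x hx => ?_⟩
    have := hC _ hx
    rw [dot_add] at this
    omega
  have := cycramp_proof h c N0 N 1 (fun F => ∃ C : ℤ, ∀ x ∈ F, dot ζ x ≤ C) p φ ζ hc0 hN hdvd
    one_pos hI (fun x => (stD_one c φ x).2 (hS x)) (by simpa using hB) ?_ hζ (fun F hF => hF)
  · simpa using this
  · refine ⟨1, one_pos, 1, one_pos, ?_⟩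
    funext x
    show φ x - ind _ x = φ x - 1
    rw [ind_mem]
    obtain ⟨k, hk0, hk⟩ : ∃ k : ℤ, 0 ≤ k ∧ dot ζ x + C ≤ k := ⟨|dot ζ x + C|, abs_nonneg _, le_abs_self _⟩
    refine ⟨{y | y + N • ((-k) • ζ) ∈ F}, hI F _ ⟨C, hF3⟩,
      fscd_shift hc hB ((fscD_one c φ F).2 hF1) _, hF2 _ ?_⟩
    rw [dot_add, dot_smul, dot_smul]
    have h1 : 1 ≤ N * dot ζ ζ := by have := mul_pos hN hq; omega
    have h2 : k ≤ k * (N * dot ζ ζ) := le_mul_of_one_le_right hk0 h1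
    linarith

theorem rampM_proof (h : finphase_stmt) : rampM_stmt := by
  intro c N0 N D r t0 hc hN _ ht0
  have hfin : {w : Q2 × (V → ℤ) × V | (Grid N w.1 ∧ 0 ≤ w.1.1 ∧ w.1.1 < 1 ∧ 0 ≤ w.1.2 ∧ w.1.2 < 1) ∧
      ((∀ x, StD c 1 w.2.1 x) ∧ Eqv N w.1 w.2.1 ∧ w.2.1 0 = 0) ∧ n1 w.2.2 ≤ r}.Finite := by
    refine ((slopes_finite hN).biUnion (t := fun p => ({p} : Set Q2) ×ˢ
      ({B : V → ℤ | (∀ x, StD c 1 B x) ∧ Eqv N p B ∧ B 0 = 0} ×ˢ {x : V | n1 x ≤ r}))
      fun p _ => (Set.finite_singleton p).prod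
        ((h c 1 N p hc.nonneg one_pos hN).prod (ball_finite r))).subset ?_
    rintro ⟨p, B, ζ⟩ ⟨h1, h2, h3⟩
    exact Set.mem_biUnion h1 ⟨rfl, h2, h3⟩
  obtain ⟨m1, hm1⟩ := unif hfin (fun w m => 0 < m →
    ∃ S, Stair c N w.2.1 w.1 w.2.2 (1 / ((m * N * dot w.2.2 w.2.2 : ℤ) : ℚ)) S)
  obtain ⟨K, hK1, hK2, hK3⟩ : ∃ K : ℤ, m1 ≤ K ∧ 1 ≤ K ∧ 1 / t0 ≤ K := by
    refine ⟨max m1 (max 1 ⌈1 / t0⌉), le_max_left _ _, (le_max_left _ _).trans (le_max_right _ _), ?_⟩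
    have : ⌈1 / t0⌉ ≤ max m1 (max 1 ⌈1 / t0⌉) := (le_max_right _ _).trans (le_max_right _ _)
    exact (Int.le_ceil _).trans (by exact_mod_cast this)
  obtain ⟨W, hW0, hW⟩ : ∃ W : ℤ, 0 < W ∧ ∀ ζ : V, ζ ≠ 0 → n1 ζ ≤ r → dot ζ ζ ∣ W := by
    refine ⟨((r * r).toNat.factorial : ℤ), by exact_mod_cast Nat.factorial_pos _, fun ζ h1 h2 => ?_⟩
    have h3 := dot_self_pos h1
    have h4 : dot ζ ζ ≤ r * r := by
      have h5 := (le_abs_self _).trans (abs_dot_le ζ ζ)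
      have h6 := n1_nonneg ζ
      nlinarith
    have h5 : (dot ζ ζ).toNat ∣ (r * r).toNat.factorial :=
      Nat.dvd_factorial (by omega) (by omega)
    have h6 : ((dot ζ ζ).toNat : ℤ) = dot ζ ζ := Int.toNat_of_nonneg h3.le
    rw [← h6]
    exact_mod_cast h5
  have hM : K ≤ K * N * W := by
    have h1 : 1 ≤ N * W := by have := mul_pos hN hW0; omega
    have := le_mul_of_one_le_right (by omega : 0 ≤ K) h1
    linarith
  refine ⟨K * N * W, by omega, ?_, fun φ p ζ hS _ hB hζ hr hR => ?_⟩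
  · have h1 : (1 : ℚ) / t0 ≤ ((K * N * W : ℤ) : ℚ) := hK3.trans (by exact_mod_cast hM)
    have h2 : (0 : ℚ) < ((K * N * W : ℤ) : ℚ) := by exact_mod_cast (by omega : 0 < K * N * W)
    rw [div_le_iff₀ ht0] at h1
    rw [div_le_iff₀ h2]
    linarith
  · obtain ⟨s, hs⟩ := hW ζ hζ hr
    have hq := dot_self_pos hζ
    have hs0 : 0 < s := by
      by_contra hh
      have : dot ζ ζ * s ≤ 0 := mul_nonpos_of_nonneg_of_nonpos hq.le (by omega)
      omega
    let l : V := (-⌊p.1⌋, -⌊p.2⌋)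
    have hB' : Eqv N (p + toQ l) (fun x => φ x - dot l x + -φ 0) := (hB.sub_dot l).add_const _
    have hmem := hm1 (p + toQ l, fun x => φ x - dot l x + -φ 0, ζ) ⟨⟨hB'.grid, ?_, ?_, ?_, ?_⟩,
      ⟨fun x => (stD_one _ _ x).2 (((hS.sub_dot l).add_const _) x), hB', by simp⟩, hr⟩ ?_ (K * s)
      (hK1.trans (le_mul_of_one_le_right (by omega) (by omega))) (by positivity)
    · obtain ⟨S, hS'⟩ := hmem
      have h1 := stair_norm hS' (-l) (φ 0)
      have e1 : (fun x => φ x - dot l x + -φ 0 - dot (-l) x + φ 0) = φ := by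
        funext x; rw [neg_dot]; ring
      have e2 : p + toQ l + toQ (-l) = p := by rw [toQ_neg]; abel
      have e3 : K * s * N * dot ζ ζ = K * N * W := by rw [hs]; ring
      simp only [e1, e2, e3] at h1
      exact ⟨_, h1⟩
    · have := Int.floor_le p.1
      simp only [l, toQ, Prod.fst_add]; push_cast; linarith
    · have := Int.lt_floor_add_one p.1
      simp only [l, toQ, Prod.fst_add]; push_cast; linarith
    · have := Int.floor_le p.2
      simp only [l, toQ, Prod.snd_add]; push_cast; linarith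
    · have := Int.lt_floor_add_one p.2
      simp only [l, toQ, Prod.snd_add]; push_cast; linarith
    · obtain ⟨m0, hm0⟩ := hR
      refine ⟨m0, fun m hm hm' => ?_⟩
      obtain ⟨S, hS'⟩ := hm0 m hm hm'
      exact ⟨_, stair_norm hS' l _⟩

end Pool.Agent.Sand
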