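import Pool.Agent.Lib.MP_215a10_lc.Dec.Stmts

/-! Burning ranks with finitely many stages (`rank_stmt` from `rankplus_stmt`). -/

set_option autoImplicit false

namespace Pool.Agent.Sand

namespace Rank

open Classical

lemma cnt_mono {P Q : Fin 4 → Prop} (h : ∀ i, P i → Q i) : cnt P ≤ cnt Q := by
  unfold cnt
  refine Finset.sum_le_sum fun i _ => ?_
  by_cases hp : P i
  · simp [hp, h i hp]
  · by_cases hq : Q i <;> simp [hp, hq]

lemma cnt_congr {P Q : Fin 4 → Prop} (h : ∀ i, P i ↔ Q i) : cnt P = cnt Q :=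
  le_antisymm (cnt_mono fun i => (h i).1) (cnt_mono fun i => (h i).2)

lemma cnt_le_add {P Q R : Fin 4 → Prop} (h : ∀ i, P i → Q i ∨ R i) : cnt P ≤ cnt Q + cnt R := by
  unfold cnt
  rw [← Finset.sum_add_distrib]
  refine Finset.sum_le_sum fun i _ => ?_
  have := h i
  by_cases hp : P i <;> by_cases hq : Q i <;> by_cases hr : R i <;> simp_all

lemma cnt_add_le {P Q R : Fin 4 → Prop} (h1 : ∀ i, Q i → P i) (h2 : ∀ i, R i → P i)
    (h3 : ∀ i, Q i → R i → False) : cnt Q + cnt R ≤ cnt P := by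
  unfold cnt
  rw [← Finset.sum_add_distrib]
  refine Finset.sum_le_sum fun i _ => ?_
  have a1 := h1 i
  have a2 := h2 i
  have a3 := h3 i
  by_cases hp : P i <;> by_cases hq : Q i <;> by_cases hr : R i <;> simp_all

lemma dot_add (η x y : V) : dot η (x + y) = dot η x + dot η y := by
  simp only [dot, Prod.fst_add, Prod.snd_add]; ring

lemma dot_sub (η x y : V) : dot η (x - y) = dot η x - dot η y := by
  simp only [dot, Prod.fst_sub, Prod.snd_sub]; ring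

lemma dot_neg_left (η x : V) : dot (-η) x = -dot η x := by
  simp only [dot, Prod.fst_neg, Prod.snd_neg]; ring

lemma dot_e (η : V) (i : Fin 4) : |dot η (e i)| ≤ n1 η := by
  have h1 := abs_nonneg η.1
  have h2 := abs_nonneg η.2
  fin_cases i <;> simp [dot, e, n1] <;> omega

/-- the data are invariant under the translation by `z` -/
def Inv (Y : Set V) (E : V → Fin 4 → Prop) (θ : V → ℤ) (z : V) : Prop :=
  (∀ x, x + z ∈ Y ↔ x ∈ Y) ∧ (∀ x ∈ Y, ∀ i, E (x + z) i ↔ E x i) ∧ ∀ x ∈ Y, θ (x + z) = θ x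

section
variable {Y : Set V} {E : V → Fin 4 → Prop} {θ : V → ℤ}

lemma Inv.zero : Inv Y E θ 0 := ⟨by simp, by simp, by simp⟩

lemma Inv.add {z w : V} (h : Inv Y E θ z) (h' : Inv Y E θ w) : Inv Y E θ (z + w) := by
  refine ⟨fun x => ?_, fun x hx i => ?_, fun x hx => ?_⟩
  · rw [← add_assoc, h'.1, h.1]
  · rw [← add_assoc, h'.2.1 _ ((h.1 x).2 hx), h.2.1 _ hx]
  · rw [← add_assoc, h'.2.2 _ ((h.1 x).2 hx), h.2.2 _ hx]

lemma Inv.neg {z : V} (h : Inv Y E θ z) : Inv Y E θ (-z) := by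
  have h0 : ∀ x, x + -z ∈ Y ↔ x ∈ Y := fun x => by
    rw [← h.1 (x + -z)]; simp
  refine ⟨h0, fun x hx i => ?_, fun x hx => ?_⟩
  · rw [← h.2.1 _ ((h0 x).2 hx)]; simp
  · rw [← h.2.2 _ ((h0 x).2 hx)]; simp

lemma Inv.zsmul {z : V} (h : Inv Y E θ z) (n : ℤ) : Inv Y E θ (n • z) := by
  induction n using Int.induction_on with
  | zero => simpa using Inv.zero
  | succ n ih => rw [add_smul, one_smul]; exact ih.add h
  | pred n ih => rw [sub_smul, one_smul, sub_eq_add_neg]; exact ih.add h.neg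

lemma inv_lat {z1 z2 : V} (h : RankHyp z1 z2 Y E θ) (i j : ℤ) : Inv Y E θ (i • z1 + j • z2) := by
  have a1 : Inv Y E θ z1 :=
    ⟨fun x => (h.1 x).1, fun x hx i => (h.2.1 x hx i).1, fun x hx => (h.2.2.1 x hx).1⟩
  have a2 : Inv Y E θ z2 :=
    ⟨fun x => (h.1 x).2, fun x hx i => (h.2.1 x hx i).2, fun x hx => (h.2.2.1 x hx).2⟩
  exact (a1.zsmul i).add (a2.zsmul j)

end

/-- union of the stuck sets in the half plane `s ≤ η·x` -/
def U (Y : Set V) (E : V → Fin 4 → Prop) (θ : V → ℤ) (η : V) (s : ℤ) : Set V :=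
  {x | ∃ F, F ⊆ Y ∧ (∀ y ∈ F, s ≤ dot η y) ∧ Stuck E θ F ∧ x ∈ F}

/-- union of all stuck sets that lie in a half plane -/
def A (Y : Set V) (E : V → Fin 4 → Prop) (θ : V → ℤ) (η : V) : Set V :=
  {x | ∃ s, x ∈ U Y E θ η s}

section
variable {Y : Set V} {E : V → Fin 4 → Prop} {θ : V → ℤ} {η : V}

lemma U_sub {s : ℤ} : U Y E θ η s ⊆ Y := fun _ ⟨_, h, _, _, hx⟩ => h hx

lemma U_low {s : ℤ} {x : V} (h : x ∈ U Y E θ η s) : s ≤ dot η x := by
  obtain ⟨F, _, h2, _, hx⟩ := h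
  exact h2 x hx

lemma U_stuck {s : ℤ} : Stuck E θ (U Y E θ η s) := by
  rintro x ⟨F, h1, h2, h3, hx⟩
  refine lt_of_le_of_lt (cnt_mono fun i hi => ⟨hi.1, fun hF => hi.2 ⟨F, h1, h2, h3, hF⟩⟩) (h3 x hx)

lemma U_mono {s s' : ℤ} (h : s' ≤ s) : U Y E θ η s ⊆ U Y E θ η s' :=
  fun _ ⟨F, h1, h2, h3, hx⟩ => ⟨F, h1, fun y hy => h.trans (h2 y hy), h3, hx⟩

lemma U_shift {z : V} (hz : Inv Y E θ z) {s : ℤ} {x : V} (h : x ∈ U Y E θ η s) :
    x + z ∈ U Y E θ η (s + dot η z) := by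
  obtain ⟨F, h1, h2, h3, hx⟩ := h
  refine ⟨{y | y - z ∈ F}, fun y hy => ?_, fun y hy => ?_, fun y hy => ?_, by simpa using hx⟩
  · have := (hz.1 (y - z)).2 (h1 hy)
    simpa using this
  · have := h2 _ hy
    rw [dot_sub] at this; omega
  · have a1 := h3 _ hy
    have a2 := hz.2.2 _ (h1 hy)
    rw [sub_add_cancel] at a2
    rw [a2]
    refine lt_of_le_of_lt (cnt_mono fun i hi => ⟨?_, fun hF => hi.2 ?_⟩) a1
    · have := (hz.2.1 _ (h1 hy) i).1
      rw [sub_add_cancel] at this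
      exact this hi.1
    · show y + e i - z ∈ F
      rwa [show y + e i - z = y - z + e i by abel]

lemma A_sub : A Y E θ η ⊆ Y := fun _ ⟨_, h⟩ => U_sub h

lemma A_shift {z : V} (hz : Inv Y E θ z) (x : V) : x + z ∈ A Y E θ η ↔ x ∈ A Y E θ η := by
  constructor
  · rintro ⟨s, h⟩
    have := U_shift hz.neg h
    rw [add_neg_cancel_right] at this
    exact ⟨_, this⟩
  · rintro ⟨s, h⟩
    exact ⟨_, U_shift hz h⟩

lemma unif {z1 z2 : V} (h : RankHyp z1 z2 Y E θ) :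
    ∃ c : ℤ, 0 ≤ c ∧ ∀ s x, x ∈ A Y E θ η → s + c ≤ dot η x → x ∈ U Y E θ η s := by
  obtain ⟨R, hR⟩ := h.2.2.2.2
  have h1 : ∀ ρ : V, ∃ c : ℤ, 0 ≤ c ∧ (ρ ∈ A Y E θ η → ρ ∈ U Y E θ η (dot η ρ - c)) := by
    intro ρ
    by_cases hρ : ρ ∈ A Y E θ η
    · obtain ⟨s, hs⟩ := hρ
      have := U_low hs
      exact ⟨dot η ρ - s, by omega, fun _ => by simpa using hs⟩
    · exact ⟨0, le_rfl, fun h => absurd h hρ⟩
  choose c hc0 hc using h1
  refine ⟨∑ ρ ∈ R, c ρ, Finset.sum_nonneg fun ρ _ => hc0 ρ, fun s x hx hs => ?_⟩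
  obtain ⟨i, j, hij⟩ := hR x (A_sub hx)
  have hz := inv_lat h i j
  have e1 : x - i • z1 - j • z2 + (i • z1 + j • z2) = x := by abel
  have a1 : x - i • z1 - j • z2 ∈ A Y E θ η := by
    rw [← A_shift hz, e1]; exact hx
  have a2 := U_shift hz (hc _ a1)
  rw [e1] at a2
  have a3 : c (x - i • z1 - j • z2) ≤ ∑ ρ ∈ R, c ρ :=
    Finset.single_le_sum (fun ρ _ => hc0 ρ) hij
  have a4 : dot η (x - i • z1 - j • z2) + dot η (i • z1 + j • z2) = dot η x := by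
    rw [← dot_add, e1]
  exact U_mono (by omega) a2

/-- if every point lies in stuck half sets of both kinds, there is a stuck band -/
lemma both {z1 z2 : V} (h : RankHyp z1 z2 Y E θ)
    (h0 : ∀ F ⊆ Y, (∃ C : ℤ, ∀ x ∈ F, |dot η x| ≤ C) → Stuck E θ F → F = ∅)
    (hp : Y ⊆ A Y E θ η) (hm : Y ⊆ A Y E θ (-η)) : Y = ∅ := by
  obtain ⟨c, hc0, hc⟩ := unif (η := η) h
  obtain ⟨d, hd0, hd⟩ := unif (η := -η) h
  by_contra hne
  obtain ⟨y, hy⟩ := Set.nonempty_iff_ne_empty.2 hne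
  have hn : 0 ≤ n1 η := le_trans (abs_nonneg _) (dot_e η 0)
  set s := dot η y - c with hs
  set t := s + c + d + 2 * n1 η with ht
  have key := h0 (U Y E θ η s ∩ U Y E θ (-η) (-t)) (fun x hx => U_sub hx.1)
    ⟨|s| + |t|, fun x hx => by
      have a1 := U_low hx.1
      have a2 := U_low hx.2
      rw [dot_neg_left] at a2
      have := neg_abs_le s
      have := le_abs_self t
      have := abs_nonneg s
      have := abs_nonneg t
      rw [abs_le]; constructor <;> omega⟩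
    (by
      intro x hx
      have hxY := U_sub hx.1
      by_cases hcase : dot η x ≤ t - d - n1 η
      · refine lt_of_le_of_lt (cnt_mono fun i hi => ⟨hi.1, fun hF => hi.2 ⟨hF, ?_⟩⟩)
          (U_stuck x hx.1)
        refine hd _ _ (hm (h.2.2.2.1 x hxY i hi.1)) ?_
        have := abs_le.1 (dot_e η i)
        rw [dot_neg_left, dot_add]; omega
      · refine lt_of_le_of_lt (cnt_mono fun i hi => ⟨hi.1, fun hF => hi.2 ⟨?_, hF⟩⟩)
          (U_stuck x hx.2)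
        refine hc _ _ (hp (h.2.2.2.1 x hxY i hi.1)) ?_
        have := abs_le.1 (dot_e η i)
        rw [dot_add]; omega)
  have : y ∈ U Y E θ η s ∩ U Y E θ (-η) (-t) :=
    ⟨hc _ _ (hp hy) (by omega), hd _ _ (hm hy) (by rw [dot_neg_left]; omega)⟩
  rw [key] at this
  exact this

lemma inv1 {z1 z2 : V} (h : RankHyp z1 z2 Y E θ) : Inv Y E θ z1 := by
  simpa using inv_lat h 1 0

lemma inv2 {z1 z2 : V} (h : RankHyp z1 z2 Y E θ) : Inv Y E θ z2 := by
  simpa using inv_lat h 0 1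

/-- the part that burns first -/
lemma hyp_out {z1 z2 : V} (h : RankHyp z1 z2 Y E θ) :
    RankHyp z1 z2 (Y \ A Y E θ η) (fun x i => E x i ∧ x + e i ∈ Y \ A Y E θ η) θ := by
  have m : ∀ {z}, Inv Y E θ z → ∀ x, x + z ∈ Y \ A Y E θ η ↔ x ∈ Y \ A Y E θ η := fun hz x => by
    rw [Set.mem_diff, Set.mem_diff, hz.1, A_shift hz]
  have m2 : ∀ {z}, Inv Y E θ z → ∀ x ∈ Y, ∀ i, (E (x + z) i ∧ x + z + e i ∈ Y \ A Y E θ η) ↔
      (E x i ∧ x + e i ∈ Y \ A Y E θ η) := fun hz x hx i => by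
    rw [hz.2.1 x hx, add_right_comm, m hz]
  obtain ⟨R, hR⟩ := h.2.2.2.2
  exact ⟨fun x => ⟨m (inv1 h) x, m (inv2 h) x⟩,
    fun x hx i => ⟨m2 (inv1 h) x hx.1 i, m2 (inv2 h) x hx.1 i⟩,
    fun x hx => h.2.2.1 x hx.1, fun x _ i hi => hi.2, R, fun x hx => hR x hx.1⟩

lemma plus_out {z1 z2 : V} (h : RankHyp z1 z2 Y E θ) :
    ∀ F ⊆ Y \ A Y E θ η, IHalf η F →
      Stuck (fun x i => E x i ∧ x + e i ∈ Y \ A Y E θ η) θ F → F = ∅ := by
  intro F hF hI hS
  obtain ⟨C, hC⟩ := hI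
  obtain ⟨c, hc0, hc⟩ := unif (η := η) h
  have hn : 0 ≤ n1 η := le_trans (abs_nonneg _) (dot_e η 0)
  set s := -C - n1 η - c with hs
  have hst : Stuck E θ (F ∪ U Y E θ η s) := by
    rintro x (hx | hx)
    · refine lt_of_le_of_lt (cnt_mono fun i hi => ⟨⟨hi.1, h.2.2.2.1 x (hF hx).1 i hi.1, fun hA =>
        hi.2 (Or.inr (hc _ _ hA ?_))⟩, fun h' => hi.2 (Or.inl h')⟩) (hS x hx)
      have := abs_le.1 (dot_e η i)
      have := hC x hx
      rw [dot_add]; omega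
    · exact lt_of_le_of_lt (cnt_mono fun i hi => ⟨hi.1, fun h' => hi.2 (Or.inr h')⟩)
        (U_stuck x hx)
  rw [Set.eq_empty_iff_forall_notMem]
  intro x hx
  refine (hF hx).2 ⟨s, F ∪ U Y E θ η s, ?_, ?_, hst, Or.inl hx⟩
  · rintro y (hy | hy)
    · exact (hF hy).1
    · exact U_sub hy
  · rintro y (hy | hy)
    · have := hC y hy; omega
    · exact U_low hy

/-- an invariant subset of a set that is finite modulo the lattice is automatic -/
lemma ap_inv {z1 z2 : V} {S : Set V} (R : Finset V)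
    (hS : ∀ (i j : ℤ) (x : V), x + (i • z1 + j • z2) ∈ S ↔ x ∈ S)
    (hR : ∀ x ∈ S, ∃ i j : ℤ, x - i • z1 - j • z2 ∈ R) : AP (fun x => x ∈ S) := by
  have hfin : ((R : Set V) ∩ S).Finite := R.finite_toSet.subset Set.inter_subset_left
  have a1 : AP (fun w : (V × ℤ) × ℤ => w.1.1 - w.1.2 • z1 - w.2 • z2 ∈ (R : Set V) ∩ S) :=
    AP.mem (AP.finite hfin) (by fun_prop)
  have a2 : AP (fun w : V × ℤ => ∃ j : ℤ, w.1 - w.2 • z1 - j • z2 ∈ (R : Set V) ∩ S) :=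
    AP.ex (P := fun (w : V × ℤ) (j : ℤ) => w.1 - w.2 • z1 - j • z2 ∈ (R : Set V) ∩ S) a1
  have a3 : AP (fun x : V => ∃ i j : ℤ, x - i • z1 - j • z2 ∈ (R : Set V) ∩ S) :=
    AP.ex (P := fun (x : V) (i : ℤ) => ∃ j : ℤ, x - i • z1 - j • z2 ∈ (R : Set V) ∩ S) a2
  refine a3.of_iff fun x => ⟨?_, fun hx => ?_⟩
  · rintro ⟨i, j, _, h2⟩
    rw [← hS i j, show x - i • z1 - j • z2 + (i • z1 + j • z2) = x by abel] at h2
    exact h2
  · obtain ⟨i, j, hij⟩ := hR x hx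
    refine ⟨i, j, hij, ?_⟩
    rw [← hS i j, show x - i • z1 - j • z2 + (i • z1 + j • z2) = x by abel]
    exact hx

end

lemma mk2_lt {a b a' b' : ℤ} : mk2 a b < mk2 a' b' ↔ a < a' ∨ (a = a' ∧ b < b') := by
  unfold mk2
  rw [Prod.Lex.toLex_lt_toLex]

lemma mk2_le {a b a' b' : ℤ} : mk2 a b ≤ mk2 a' b' ↔ a < a' ∨ (a = a' ∧ b ≤ b') := by
  unfold mk2
  rw [Prod.Lex.toLex_le_toLex]

lemma wf_of_low {S : Set V} {a b : V → ℤ} (K : ℤ) (ha : ∀ x, 0 ≤ a x) (hb : ∀ x ∈ S, -K ≤ b x) :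
    WFon S (fun x => mk2 (a x) (b x)) := by
  rintro F hF ⟨x0, hx0⟩
  obtain ⟨m, ⟨x1, hx1, e1⟩, hm⟩ := Int.exists_least_of_bdd (P := fun m => ∃ x ∈ F, a x = m)
    ⟨0, by rintro z ⟨x, _, rfl⟩; exact ha x⟩ ⟨_, x0, hx0, rfl⟩
  obtain ⟨n, ⟨x2, hx2, e2, e3⟩, hn⟩ :=
    Int.exists_least_of_bdd (P := fun n => ∃ x ∈ F, a x = m ∧ b x = n)
    ⟨-K, by rintro z ⟨x, hx, _, rfl⟩; exact hb x (hF hx)⟩ ⟨_, x1, hx1, e1, rfl⟩
  refine ⟨x2, hx2, fun y hy => ?_⟩
  show mk2 (a x2) (b x2) ≤ mk2 (a y) (b y)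
  rw [mk2_le]
  rcases (hm _ ⟨y, hy, rfl⟩).lt_or_eq with h | h
  · left; omega
  · right
    have := hn _ ⟨y, hy, h.symm, rfl⟩
    omega

/-- the conclusion of the stage construction -/
def Concl (η : V) (Y : Set V) (E : V → Fin 4 → Prop) (θ : V → ℤ) : Prop :=
  ∃ a b : V → ℤ, AM a ∧ AM b ∧ (∀ x, 0 ≤ a x) ∧
    (∀ C : ℤ, ∃ K : ℤ, ∀ x ∈ Y, |dot η x| ≤ C → -K ≤ b x) ∧
    ∀ x ∈ Y, θ x ≤ cnt (fun i => E x i ∧ mk2 (a (x + e i)) (b (x + e i)) < mk2 (a x) (b x))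

/-- one stage -/
lemma stage (hp : rankplus_stmt) {z1 z2 η η' : V} (hη : ∀ x, |dot η' x| = |dot η x|)
    {Y : Set V} {E : V → Fin 4 → Prop} {θ : V → ℤ} (h : RankHyp z1 z2 Y E θ)
    (ih : Concl η (A Y E θ η') (fun x i => E x i ∧ x + e i ∈ A Y E θ η')
      (fun x => θ x - cnt (fun i => E x i ∧ x + e i ∉ A Y E θ η'))) : Concl η Y E θ := by
  obtain ⟨r, j, C0, hj, hr, hb, -, hburn⟩ := hp z1 z2 η' _ _ θ (hyp_out (η := η') h) (plus_out h)
  obtain ⟨a, b, ha, hb', ha0, hlow, hst⟩ := ih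
  obtain ⟨R, hR⟩ := h.2.2.2.2
  have hA : AP (fun x => x ∈ A Y E θ η') :=
    ap_inv R (fun i j x => A_shift (inv_lat h i j) x) (fun x hx => hR x (A_sub hx))
  refine ⟨fun x => if x ∈ A Y E θ η' then a x + 1 else 0,
    fun x => if x ∈ A Y E θ η' then b x else r x,
    AM.ite hA (AM.add ha (AM.const 1)) (AM.const 0), AM.ite hA hb' hr, fun x => ?_, fun C => ?_,
    fun x hx => ?_⟩
  · have := ha0 x
    dsimp only
    split_ifs <;> omega
  · obtain ⟨K, hK⟩ := hlow C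
    refine ⟨max K (j * C + C0), fun x hx hC => ?_⟩
    dsimp only
    split_ifs with hxA
    · have := hK x hxA hC
      have := le_max_left K (j * C + C0)
      omega
    · have a1 := abs_le.1 (hb x ⟨hx, hxA⟩)
      have a2 := le_max_right K (j * C + C0)
      rw [← hη] at hC
      have a3 := (abs_le.1 hC).1
      have a4 : j * (-C) ≤ j * dot η' x := mul_le_mul_of_nonneg_left a3 hj.le
      have a5 : j * (-C) = -(j * C) := by ring
      omega
  · by_cases hxA : x ∈ A Y E θ η'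
    · have a1 := hst x hxA
      have a2 := cnt_add_le
        (P := fun i => E x i ∧
          mk2 (if x + e i ∈ A Y E θ η' then a (x + e i) + 1 else 0)
            (if x + e i ∈ A Y E θ η' then b (x + e i) else r (x + e i)) <
          mk2 (if x ∈ A Y E θ η' then a x + 1 else 0) (if x ∈ A Y E θ η' then b x else r x))
        (Q := fun i => (E x i ∧ x + e i ∈ A Y E θ η') ∧
          mk2 (a (x + e i)) (b (x + e i)) < mk2 (a x) (b x))
        (R := fun i => E x i ∧ x + e i ∉ A Y E θ η')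
        (fun i hi => ⟨hi.1.1, by
          have := mk2_lt.1 hi.2
          rw [if_pos hi.1.2, if_pos hi.1.2, if_pos hxA, if_pos hxA, mk2_lt]
          omega⟩)
        (fun i hi => ⟨hi.1, by
          have := ha0 x
          rw [if_neg hi.2, if_neg hi.2, if_pos hxA, if_pos hxA, mk2_lt]
          omega⟩)
        (fun i h1 h2 => h2.2 h1.1.2)
      dsimp only at a1 ⊢
      omega
    · refine (hburn x ⟨hx, hxA⟩).trans (cnt_mono fun i hi => ⟨hi.1.1, ?_⟩)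
      dsimp only
      rw [if_neg hi.1.2.2, if_neg hi.1.2.2, if_neg hxA, if_neg hxA, mk2_lt]
      exact Or.inr ⟨rfl, hi.2⟩

lemma main (hp : rankplus_stmt) (z1 z2 η : V) (n : ℕ) :
    ∀ (R : Finset V) (Y : Set V) (E : V → Fin 4 → Prop) (θ : V → ℤ), R.card = n →
      RankHyp z1 z2 Y E θ → (∀ x ∈ Y, ∃ i j : ℤ, x - i • z1 - j • z2 ∈ R) →
      (∀ F ⊆ Y, (∃ C : ℤ, ∀ x ∈ F, |dot η x| ≤ C) → Stuck E θ F → F = ∅) → Concl η Y E θ := by
  induction n using Nat.strong_induction_on with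
  | _ n ih =>
  intro R Y E θ hn h hR h0
  have step : ∀ η' : V, (∀ x, |dot η' x| = |dot η x|) → ¬ Y ⊆ A Y E θ η' → Concl η Y E θ := by
    intro η' hη hne
    obtain ⟨y, hy, hyA⟩ := Set.not_subset.1 hne
    obtain ⟨i, j, hij⟩ := hR y hy
    have sh : ∀ (i j : ℤ) (x : V), x - i • z1 - j • z2 ∈ A Y E θ η' ↔ x ∈ A Y E θ η' := by
      intro i j x
      rw [← A_shift (inv_lat h i j), show x - i • z1 - j • z2 + (i • z1 + j • z2) = x by abel]
    have hR' : ∀ x ∈ A Y E θ η', ∃ i' j' : ℤ,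
        x - i' • z1 - j' • z2 ∈ R.erase (y - i • z1 - j • z2) := by
      intro x hx
      obtain ⟨i', j', h'⟩ := hR x (A_sub hx)
      refine ⟨i', j', Finset.mem_erase.2 ⟨fun he => hyA ?_, h'⟩⟩
      rw [← sh i j, ← he, sh]; exact hx
    have m2 : ∀ {z}, Inv Y E θ z → ∀ x ∈ Y, ∀ i, (E (x + z) i ∧ x + z + e i ∈ A Y E θ η') ↔
        (E x i ∧ x + e i ∈ A Y E θ η') := fun hz x hx i => by
      rw [hz.2.1 x hx, add_right_comm, A_shift hz]
    have m3 : ∀ {z}, Inv Y E θ z → ∀ x ∈ Y,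
        θ (x + z) - cnt (fun i => E (x + z) i ∧ x + z + e i ∉ A Y E θ η') =
        θ x - cnt (fun i => E x i ∧ x + e i ∉ A Y E θ η') := fun hz x hx => by
      rw [hz.2.2 x hx, cnt_congr (fun i => by rw [hz.2.1 x hx, add_right_comm, A_shift hz])]
    refine stage hp hη h (ih _ ?_ (R.erase (y - i • z1 - j • z2)) _ _ _ rfl
      ⟨fun x => ⟨A_shift (inv1 h) x, A_shift (inv2 h) x⟩,
        fun x hx i => ⟨m2 (inv1 h) x (A_sub hx) i, m2 (inv2 h) x (A_sub hx) i⟩,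
        fun x hx => ⟨m3 (inv1 h) x (A_sub hx), m3 (inv2 h) x (A_sub hx)⟩,
        fun x _ i hi => hi.2, _, hR'⟩ hR' ?_)
    · rw [← hn]; exact Finset.card_erase_lt_of_mem hij
    · intro F hF hC hS
      refine h0 F (hF.trans A_sub) hC fun x hx => ?_
      have a1 := hS x hx
      have a2 := cnt_le_add (P := fun i => E x i ∧ x + e i ∉ F)
        (Q := fun i => (E x i ∧ x + e i ∈ A Y E θ η') ∧ x + e i ∉ F)
        (R := fun i => E x i ∧ x + e i ∉ A Y E θ η') (fun i hi => by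
          by_cases hA : x + e i ∈ A Y E θ η'
          · exact Or.inl ⟨⟨hi.1, hA⟩, hi.2⟩
          · exact Or.inr ⟨hi.1, hA⟩)
      dsimp only at a1
      omega
  by_cases h1 : Y ⊆ A Y E θ η
  · by_cases h2 : Y ⊆ A Y E θ (-η)
    · have hY := both h h0 h1 h2
      subst hY
      exact ⟨fun _ => 0, fun _ => 0, AM.const 0, AM.const 0, fun _ => le_rfl,
        fun _ => ⟨0, fun x hx => absurd hx (Set.notMem_empty x)⟩,
        fun x hx => absurd hx (Set.notMem_empty x)⟩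
    · exact step (-η) (fun x => by rw [dot_neg_left, abs_neg]) h2
  · exact step η (fun _ => rfl) h1

end Rank

open Rank in
theorem rank_proof (hp : rankplus_stmt) : rank_stmt := by
  intro z1 z2 η Y E θ h h0
  by_cases hplus : ∀ F ⊆ Y, IHalf η F → Stuck E θ F → F = ∅
  · obtain ⟨r, j, C0, hj, hr, hb, -, hburn⟩ := hp z1 z2 η Y E θ h hplus
    have low : ∀ C : ℤ, ∀ x ∈ Y, -C ≤ dot η x → -(j * C + C0) ≤ r x := by
      intro C x hx hC
      have a1 := abs_le.1 (hb x hx)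
      have a4 : j * (-C) ≤ j * dot η x := mul_le_mul_of_nonneg_left hC hj.le
      have a5 : j * (-C) = -(j * C) := by ring
      omega
    refine ⟨fun x => mk2 0 (r x), ⟨fun _ => 0, r, AM.const 0, hr, rfl⟩, fun x hx => ?_,
      fun C => ?_, fun _ C => ?_⟩
    · exact (hburn x hx).trans (cnt_mono fun i hi => ⟨hi.1, mk2_lt.2 (Or.inr ⟨rfl, hi.2⟩)⟩)
    · exact wf_of_low (a := fun _ => 0) (j * C + C0) (fun _ => le_rfl)
        fun x hx => low C x hx.1 (abs_le.1 hx.2).1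
    · exact wf_of_low (a := fun _ => 0) (j * C + C0) (fun _ => le_rfl)
        fun x hx => low C x hx.1 hx.2
  · obtain ⟨R, hR⟩ := h.2.2.2.2
    obtain ⟨a, b, ha, hb, ha0, hlow, hst⟩ := main hp z1 z2 η R.card R Y E θ rfl h hR h0
    refine ⟨fun x => mk2 (a x) (b x), ⟨a, b, ha, hb, rfl⟩, hst, fun C => ?_,
      fun h' => absurd h' hplus⟩
    obtain ⟨K, hK⟩ := hlow C
    exact wf_of_low K ha0 fun x hx => hK x hx.1 hx.2

end Pool.Agent.Sand
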