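import Pool.Agent.Lib.MP_215a10_lc.Dec.Stmts

/-! Burning ranks for half planes. -/

set_option autoImplicit false

namespace Pool.Agent.Sand

open Classical

namespace Rankplus

theorem cnt_mono {P Q : Fin 4 → Prop} (h : ∀ i, P i → Q i) : cnt P ≤ cnt Q := by
  unfold cnt
  refine Finset.sum_le_sum fun i _ => ?_
  by_cases hP : P i
  · simp [hP, h i hP]
  · by_cases hQ : Q i <;> simp [hP, hQ]

theorem dot_add (η x z : V) : dot η (x + z) = dot η x + dot η z := by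
  simp only [dot, Prod.fst_add, Prod.snd_add]; ring

theorem dot_smul (η z : V) (n : ℤ) : dot η (n • z) = n * dot η z := by
  simp only [dot, Prod.smul_fst, Prod.smul_snd, smul_eq_mul]; ring

/-- invariance of the data under one translation -/
def Inv (Y : Set V) (E : V → Fin 4 → Prop) (θ : V → ℤ) (z : V) : Prop :=
  (∀ x, x + z ∈ Y ↔ x ∈ Y) ∧ (∀ x ∈ Y, ∀ i, E (x + z) i ↔ E x i) ∧ ∀ x ∈ Y, θ (x + z) = θ x

variable {Y : Set V} {E : V → Fin 4 → Prop} {θ : V → ℤ}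

theorem Inv.zero : Inv Y E θ 0 := by simp [Inv]

theorem Inv.add {z w : V} (hz : Inv Y E θ z) (hw : Inv Y E θ w) : Inv Y E θ (z + w) := by
  refine ⟨fun x => ?_, fun x hx i => ?_, fun x hx => ?_⟩
  · rw [← add_assoc, hw.1, hz.1]
  · rw [← add_assoc, hw.2.1 _ ((hz.1 x).2 hx), hz.2.1 x hx]
  · rw [← add_assoc, hw.2.2 _ ((hz.1 x).2 hx), hz.2.2 x hx]

theorem Inv.neg {z : V} (hz : Inv Y E θ z) : Inv Y E θ (-z) := by
  have h1 : ∀ x, x + -z ∈ Y ↔ x ∈ Y := fun x => by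
    rw [← hz.1 (x + -z), neg_add_cancel_right]
  refine ⟨h1, fun x hx i => ?_, fun x hx => ?_⟩
  · rw [← hz.2.1 _ ((h1 x).2 hx), neg_add_cancel_right]
  · rw [← hz.2.2 _ ((h1 x).2 hx), neg_add_cancel_right]

theorem Inv.zsmul {z : V} (hz : Inv Y E θ z) (n : ℤ) : Inv Y E θ (n • z) := by
  induction n using Int.induction_on with
  | zero => simpa using Inv.zero
  | succ n ih => rw [add_smul, one_smul]; exact ih.add hz
  | pred n ih => rw [sub_smul, one_smul, sub_eq_add_neg]; exact ih.add hz.neg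

/-- the burnt set after `i` steps, started from the half plane of height `s` -/
def B (η : V) (Y : Set V) (E : V → Fin 4 → Prop) (θ : V → ℤ) (s : ℤ) : ℕ → Set V
  | 0 => {x | x ∈ Y ∧ dot η x ≤ s}
  | i + 1 => {x | x ∈ B η Y E θ s i ∨ (x ∈ Y ∧ dot η x ≤ s + (i + 1 : ℕ) ∧
      θ x ≤ cnt (fun d => E x d ∧ x + e d ∈ B η Y E θ s i))}

variable {η : V}

theorem B_sub (s : ℤ) (i : ℕ) : ∀ x ∈ B η Y E θ s i, x ∈ Y ∧ dot η x ≤ s + i := by
  induction i with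
  | zero => intro x hx; exact ⟨hx.1, by simpa using hx.2⟩
  | succ i ih =>
    rintro x (hx | hx)
    · have := ih x hx
      exact ⟨this.1, by push_cast; linarith [this.2]⟩
    · exact ⟨hx.1, hx.2.1⟩

theorem B_mono (s : ℤ) {i j : ℕ} (h : i ≤ j) : B η Y E θ s i ⊆ B η Y E θ s j := by
  induction j, h using Nat.le_induction with
  | base => exact subset_rfl
  | succ j _ ih => exact fun x hx => Or.inl (ih hx)

theorem B_mono_s {s t : ℤ} (h : s ≤ t) (i : ℕ) : B η Y E θ s i ⊆ B η Y E θ t i := by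
  induction i with
  | zero => exact fun x hx => ⟨hx.1, hx.2.trans h⟩
  | succ i ih =>
    rintro x (hx | hx)
    · exact Or.inl (ih hx)
    · exact Or.inr ⟨hx.1, by linarith [hx.2.1],
        hx.2.2.trans (cnt_mono fun d hd => ⟨hd.1, ih hd.2⟩)⟩

theorem B_trans {z : V} (hz : Inv Y E θ z) (s : ℤ) (i : ℕ) :
    ∀ x ∈ B η Y E θ s i, x + z ∈ B η Y E θ (s + dot η z) i := by
  induction i with
  | zero => exact fun x hx => ⟨(hz.1 x).2 hx.1, by rw [dot_add]; linarith [hx.2]⟩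
  | succ i ih =>
    rintro x (hx | hx)
    · exact Or.inl (ih x hx)
    · refine Or.inr ⟨(hz.1 x).2 hx.1, by rw [dot_add]; linarith [hx.2.1], ?_⟩
      rw [hz.2.2 x hx.1]
      refine hx.2.2.trans (cnt_mono fun d hd => ⟨(hz.2.1 x hx.1 d).2 hd.1, ?_⟩)
      rw [add_right_comm]
      exact ih _ hd.2

theorem B_all (hE : ∀ x ∈ Y, ∀ i, E x i → x + e i ∈ Y)
    (hF : ∀ F ⊆ Y, IHalf η F → Stuck E θ F → F = ∅) (s : ℤ) :
    ∀ x ∈ Y, ∃ i, x ∈ B η Y E θ s i := by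
  have h := hF {x | x ∈ Y ∧ ∀ i, x ∉ B η Y E θ s i} (fun x hx => hx.1) ⟨-s, fun x hx => by
    have : ¬ (x ∈ Y ∧ dot η x ≤ s) := hx.2 0
    by_contra hc
    exact this ⟨hx.1, by linarith⟩⟩ (by
      intro x hx
      have h1 : ∀ d : Fin 4, ∃ i, E x d ∧ x + e d ∉ {x | x ∈ Y ∧ ∀ i, x ∉ B η Y E θ s i} →
          x + e d ∈ B η Y E θ s i := by
        intro d
        by_cases hd : E x d ∧ x + e d ∉ {x | x ∈ Y ∧ ∀ i, x ∉ B η Y E θ s i}
        · by_contra hc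
          push Not at hc
          exact hd.2 ⟨hE x hx.1 d hd.1, fun i => (hc i).2⟩
        · exact ⟨0, fun h => absurd h hd⟩
      choose I hI using h1
      set J : ℕ := (∑ d, I d) + (dot η x - s).toNat with hJ
      have h2 : ¬ (x ∈ B η Y E θ s J ∨ (x ∈ Y ∧ dot η x ≤ s + (J + 1 : ℕ) ∧
          θ x ≤ cnt (fun d => E x d ∧ x + e d ∈ B η Y E θ s J))) := hx.2 (J + 1)
      by_contra hc
      refine h2 (Or.inr ⟨hx.1, ?_, (not_lt.1 hc).trans (cnt_mono fun d hd => ⟨hd.1, ?_⟩)⟩)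
      · have := Int.self_le_toNat (dot η x - s)
        have h3 : (((dot η x - s).toNat : ℕ) : ℤ) ≤ (J : ℤ) := by
          exact_mod_cast Nat.le_add_left _ _
        push_cast
        linarith
      · refine B_mono s ?_ (hI d hd)
        exact (Finset.single_le_sum (f := I) (fun _ _ => Nat.zero_le _) (Finset.mem_univ d)).trans
          (Nat.le_add_right _ _))
  intro x hx
  by_contra hc
  push Not at hc
  have : x ∈ (∅ : Set V) := h ▸ ⟨hx, hc⟩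
  exact this

theorem am_of_lat {z1 z2 : V} {a1 a2 : ℤ} {r : V → ℤ} {R : Finset V}
    (hY : ∀ x (i j : ℤ), x + (i • z1 + j • z2) ∈ Y ↔ x ∈ Y)
    (hR : ∀ x ∈ Y, ∃ i j : ℤ, x - i • z1 - j • z2 ∈ R)
    (hr : ∀ x ∈ Y, ∀ i j : ℤ, r (x + (i • z1 + j • z2)) = r x + i * a1 + j * a2)
    (h0 : ∀ x, x ∉ Y → r x = 0) : AM r := by
  have hfin : {ρ | ρ ∈ R ∧ ρ ∈ Y}.Finite := R.finite_toSet.subset fun x hx => hx.1
  have hmem : ∀ x, x ∈ Y ↔ ∃ ρ ∈ {ρ | ρ ∈ R ∧ ρ ∈ Y}, ∃ w : ℤ × ℤ, x = ρ + (w.1 • z1 + w.2 • z2) := by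
    intro x
    constructor
    · intro hx
      obtain ⟨i, j, h⟩ := hR x hx
      refine ⟨_, ⟨h, (hY _ i j).1 ?_⟩, (i, j), by abel⟩
      have : x - i • z1 - j • z2 + (i • z1 + j • z2) = x := by abel
      rwa [this]
    · rintro ⟨ρ, hρ, w, rfl⟩
      exact (hY _ _ _).2 hρ.2
  have hA : AP (fun x : V => x ∈ Y) :=
    (AP.exFin (P := fun ρ x => ∃ w : ℤ × ℤ, x = ρ + (w.1 • z1 + w.2 • z2)) hfin fun ρ _ =>
      AP.ex (P := fun (x : V) (w : ℤ × ℤ) => x = ρ + (w.1 • z1 + w.2 • z2)) (by fun_prop)).of_iff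
      fun x => (hmem x).symm
  refine AM.of_graph (P := fun x y => (∃ ρ ∈ {ρ | ρ ∈ R ∧ ρ ∈ Y}, ∃ w : ℤ × ℤ,
    x = ρ + (w.1 • z1 + w.2 • z2) ∧ y = r ρ + w.1 * a1 + w.2 * a2) ∨ (¬ x ∈ Y ∧ y = 0)) ?_ ?_
  · refine AP.or ?_ (AP.and (AP.not (AP.mem hA (by fun_prop))) (by fun_prop))
    exact AP.exFin (P := fun ρ (z : V × ℤ) => ∃ w : ℤ × ℤ,
      z.1 = ρ + (w.1 • z1 + w.2 • z2) ∧ z.2 = r ρ + w.1 * a1 + w.2 * a2) hfin fun ρ _ =>
      AP.ex (P := fun (z : V × ℤ) (w : ℤ × ℤ) =>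
        z.1 = ρ + (w.1 • z1 + w.2 • z2) ∧ z.2 = r ρ + w.1 * a1 + w.2 * a2) (by fun_prop)
  · intro x y
    constructor
    · rintro (⟨ρ, hρ, w, rfl, rfl⟩ | ⟨hx, rfl⟩)
      · exact hr ρ hρ.2 _ _
      · exact h0 x hx
    · rintro rfl
      by_cases hx : x ∈ Y
      · obtain ⟨ρ, hρ, w, rfl⟩ := (hmem x).1 hx
        exact Or.inl ⟨ρ, hρ, w, rfl, hr ρ hρ.2 _ _⟩
      · exact Or.inr ⟨hx, h0 x hx⟩

end Rankplus

open Rankplus in
theorem rankplus_proof : rankplus_stmt := by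
  rintro z1 z2 η Y E θ ⟨hY, hE, hθ, hEY, R, hR⟩ hF
  have i1 : Inv Y E θ z1 := ⟨fun x => (hY x).1, fun x hx i => (hE x hx i).1, fun x hx => (hθ x hx).1⟩
  have i2 : Inv Y E θ z2 := ⟨fun x => (hY x).2, fun x hx i => (hE x hx i).2, fun x hx => (hθ x hx).2⟩
  have il : ∀ a b : ℤ, Inv Y E θ (a • z1 + b • z2) := fun a b => (i1.zsmul a).add (i2.zsmul b)
  have hall := B_all hEY hF
  have h1 : ∀ ρ : V, ∃ i, ρ ∈ Y → ρ ∈ B η Y E θ (dot η ρ - 1) i := by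
    intro ρ
    by_cases h : ρ ∈ Y
    · obtain ⟨i, hi⟩ := hall (dot η ρ - 1) ρ h
      exact ⟨i, fun _ => hi⟩
    · exact ⟨0, fun h' => absurd h' h⟩
  choose I hI using h1
  obtain ⟨k, hk⟩ : ∃ k : ℕ, ∀ s : ℤ, ∀ x ∈ Y, dot η x ≤ s + 1 → x ∈ B η Y E θ s (k + 1) := by
    refine ⟨∑ ρ ∈ R, I ρ, fun s x hx hs => ?_⟩
    obtain ⟨a, b, h⟩ := hR x hx
    have e1 : x - a • z1 - b • z2 + (a • z1 + b • z2) = x := by abel
    have h2 : x - a • z1 - b • z2 ∈ Y := ((il a b).1 _).1 (by rwa [e1])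
    have h3 := B_trans (il a b) _ _ _ (hI _ h2)
    have e2 := dot_add η (x - a • z1 - b • z2) (a • z1 + b • z2)
    rw [e1] at h3 e2
    refine B_mono s ?_ (B_mono_s (by linarith) _ h3)
    exact (Finset.single_le_sum (f := I) (fun _ _ => Nat.zero_le _) h).trans (Nat.le_succ _)
  set j : ℤ := (k : ℤ) + 1 with hj
  have hj0 : 0 < j := by omega
  let P : V → ℤ → Prop := fun x t => ∃ (s : ℤ) (i : ℕ), i ≤ k ∧ x ∈ B η Y E θ s i ∧ t = j * s + i
  have hlow : ∀ x t, P x t → j * dot η x - j * j ≤ t := by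
    rintro x t ⟨s, i, hi, hx, rfl⟩
    have h2 := (B_sub s i x hx).2
    have h3 : (i : ℤ) ≤ k := by exact_mod_cast hi
    have h4 : (0 : ℤ) ≤ i := Int.natCast_nonneg i
    nlinarith
  have hup : ∀ x ∈ Y, P x (j * dot η x) := fun x hx =>
    ⟨dot η x, 0, Nat.zero_le _, ⟨hx, le_rfl⟩, by simp⟩
  have hex : ∀ x, ∃ t : ℤ, (x ∈ Y → P x t ∧ ∀ t', P x t' → t ≤ t') ∧ (x ∉ Y → t = 0) := by
    intro x
    by_cases hx : x ∈ Y
    · obtain ⟨t, ht⟩ := Int.exists_least_of_bdd ⟨_, hlow x⟩ ⟨_, hup x hx⟩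
      exact ⟨t, fun _ => ht, fun h => absurd hx h⟩
    · exact ⟨0, fun h => absurd h hx, fun _ => rfl⟩
  choose r hr hr0 using hex
  have hP : ∀ z, Inv Y E θ z → ∀ x t, P x t → P (x + z) (t + j * dot η z) := by
    rintro z hz x t ⟨s, i, hi, hx, rfl⟩
    exact ⟨s + dot η z, i, hi, B_trans hz s i x hx, by ring⟩
  have heq : ∀ z, Inv Y E θ z → ∀ x ∈ Y, r (x + z) = r x + j * dot η z := by
    intro z hz x hx
    have hxz := (hz.1 x).2 hx
    refine le_antisymm ((hr _ hxz).2 _ (hP z hz x _ (hr x hx).1)) ?_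
    have h2 := hP (-z) hz.neg _ _ (hr _ hxz).1
    rw [add_neg_cancel_right] at h2
    have h3 := (hr x hx).2 _ h2
    have h4 := dot_smul η z (-1)
    rw [neg_one_smul] at h4
    rw [h4] at h3
    linarith
  refine ⟨r, j, j * j, hj0, ?_, fun x hx => ?_, fun x hx => ⟨heq _ i1 x hx, heq _ i2 x hx⟩,
    fun x hx => ?_⟩
  · refine am_of_lat (a1 := j * dot η z1) (a2 := j * dot η z2) (fun x a b => (il a b).1 x) hR
      (fun x hx a b => ?_) hr0
    rw [heq _ (il a b) x hx, dot_add, dot_smul, dot_smul]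
    ring
  · have h2 := hlow x _ (hr x hx).1
    have h3 := (hr x hx).2 _ (hup x hx)
    rw [abs_le]
    constructor <;> nlinarith
  · obtain ⟨⟨s, i, hi, hB, ht⟩, hmin⟩ := hr x hx
    have key : ∀ (s' : ℤ) (i' : ℕ), i' ≤ k → x ∈ B η Y E θ s' (i' + 1) → j * s' + i' < r x →
        θ x ≤ cnt (fun d => E x d ∧ r (x + e d) < r x) := by
      rintro s' i' hi' (h | h) hlt
      · have := hmin _ ⟨s', i', hi', h, rfl⟩
        omega
      · refine h.2.2.trans (cnt_mono fun d hd => ⟨hd.1, ?_⟩)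
        have := (hr _ (hEY x hx d hd.1)).2 _ ⟨s', i', hi', hd.2, rfl⟩
        omega
    rcases i with _ | i
    · refine key (s - 1) k le_rfl (hk _ x hx (by linarith [hB.2])) ?_
      rw [ht, hj]; push_cast; linarith
    · refine key s i (by omega) hB ?_
      rw [ht]; push_cast; linarith

end Pool.Agent.Sand
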