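import Pool.Agent.Lib.MP_215a10_lc.Dec.Raysys2

/-! A ray system gives an explosion certificate. -/

set_option autoImplicit false

namespace Pool.Agent.Sand.Raysys

open Classical Filter

variable (X : RaySys)

abbrev Cell : Type := X.S ⊕ {r // X.isW r}

def Dom : Cell X → V → Prop
  | .inl σ, x => x ∈ X.Sec σ
  | .inr r, x => WD X r.1 x

def cls : Cell X → El X
  | .inl σ => .inl (X.el σ)
  | .inr r => .inr r

def GoodC (i : Cell X) : Prop :=
  ∀ C : ℤ, WFon {x | Dom X i x ∧ -C ≤ tau X (cls X i) x} (rho X (cls X i))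

def item (N : ℤ) (j : X.J) : CylItem where
  T := N • X.ν (X.jr j)
  Y x := 0 ≤ X.js j * X.f (X.jr j) x
  Win x := X.js j * X.f (X.jr j) x ≤ n1 (X.ν (X.jr j))
  ψ x := X.ψ j x + k0 X
  κ := X.κ j

lemma ap_Dom (i : Cell X) : AP (Dom X i) := by
  rcases i with σ | r
  · exact ap_sec X σ
  · exact ap_wd X r.1

lemma cell_of {a : El X} {x : V} (h : dom X a x) : ∃ i, cls X i = a ∧ Dom X i x := by
  rcases a with a | r
  · obtain ⟨σ, rfl, hσ⟩ := h
    exact ⟨.inl σ, rfl, hσ⟩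
  · exact ⟨.inr r, rfl, h⟩

lemma f_shift (r : X.R) (x : V) (k : ℤ) : X.f r (x + k • X.ν r) = X.f r x := by
  simp only [RaySys.f, det, Prod.fst_sub, Prod.snd_sub, Prod.fst_add, Prod.snd_add, Prod.smul_fst,
    Prod.smul_snd, smul_eq_mul]
  ring

lemma lr_shift (r : X.R) (h : qd (X.rp r) (X.ν r) = 0) (x : V) (k : ℤ) :
    X.lr r (x + k • X.ν r) = X.lr r x := by
  simp only [RaySys.lr, qd, Prod.fst_add, Prod.snd_add, Prod.smul_fst,
    Prod.smul_snd, smul_eq_mul] at h ⊢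
  push_cast
  linear_combination k * h

lemma dot_shift (ν x : V) (k : ℤ) : dot ν (x + k • ν) = dot ν x + k * dot ν ν := by
  simp only [dot, Prod.fst_add, Prod.snd_add, Prod.smul_fst, Prod.smul_snd, smul_eq_mul]
  ring

lemma det_shift (ν x : V) (k : ℤ) : det ν (x + k • ν) = det ν x := by
  simp only [det, Prod.fst_add, Prod.snd_add, Prod.smul_fst, Prod.smul_snd, smul_eq_mul]
  ring

variable {X} {c : V → ℤ} (H : X.OK c)
include H

lemma sign_W {r : X.R} (hr : X.isW r) : 0 ≤ qd (X.rp r) (X.ν r) := by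
  obtain ⟨σ, hσ⟩ := H.after r
  rw [← (H.wl σ r hr (Or.inl hσ)).1, ← hσ]
  exact (H.sign σ).1

lemma tau_bd : ∃ C : ℚ, ∀ i x, Dom X i x → (tau X (cls X i) x : ℚ) ≤ C := by
  refine uni (fun i a b hab h x hx => (h x hx).trans hab) fun i => ?_
  rcases i with σ | r
  · obtain ⟨C, hC⟩ := cone_S H σ _ (H.sign σ).1 (H.sign σ).2
    refine ⟨C + X.sγ σ + X.C0, fun x hx => ?_⟩
    have h1 := hC x hx
    have h2 := H.πup σ x
    simp only [RaySys.ls] at h2
    change (X.π (X.el σ) x : ℚ) ≤ _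
    linarith
  · obtain ⟨C, hC⟩ := cone_W H r.1 _ (sign_W H r.2) (sign_W H r.2)
    refine ⟨C + X.rγ r.1 + X.C0 + al X r.1, fun x hx => ?_⟩
    have h1 := hC x hx
    have h2 := w_up H r.2 x
    simp only [RaySys.lr] at h2
    change ((X.w r.1 x + al X r.1 : ℤ) : ℚ) ≤ _
    push_cast
    linarith

lemma lev_S (σ : X.S) {C : ℤ} {x : V} (h : -C ≤ X.π (X.el σ) x) :
    qd (X.sp σ) x ≤ C + X.sγ σ + X.C0 := by
  have h1 : -(C : ℚ) ≤ X.π (X.el σ) x := by exact_mod_cast h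
  have h2 := H.πup σ x
  simp only [RaySys.ls] at h2
  linarith

lemma lev_W {r : X.R} (hr : X.isW r) {C : ℤ} {x : V} (h : -C ≤ X.w r x + al X r) :
    qd (X.rp r) x ≤ C + X.rγ r + X.C0 + al X r := by
  have h1 : -(C : ℚ) ≤ X.w r x + al X r := by exact_mod_cast h
  have h2 := w_up H hr x
  simp only [RaySys.lr] at h2
  linarith

lemma bad_S {σ : X.S} (h : ¬ GoodC X (.inl σ)) : ∃ j, X.CylSec σ j := by
  have hs := H.sign σ
  rcases H.secOK σ with ⟨n, -, h1, h2⟩ | ⟨h1, h2⟩ | ⟨η, h1, h2, h3⟩ | h1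
  · refine absurd (fun C => ?_) h
    obtain ⟨C', hC⟩ := (cone_S H σ).out hs.1 hs.2 h1.1 h1.2 (C + X.sγ σ + X.C0)
    exact wf_mono (h2 C') fun x hx => hC x hx.1 (lev_S H σ hx.2)
  · refine absurd (fun C => ?_) h
    exact wf_fin _ (((cone_S H σ).fin h1 h2 (C + X.sγ σ + X.C0)).subset
      fun x hx => ⟨hx.1, lev_S H σ hx.2⟩)
  · refine absurd (fun C => ?_) h
    obtain ⟨C', hC⟩ := (cone_S H σ).sub hs.1 hs.2 (Or.inr h1) (Or.inr h2) (C + X.sγ σ + X.C0)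
    exact wf_mono (h3 C') fun x hx => hC x hx.1 (lev_S H σ hx.2)
  · exact h1

lemma bad_W {r : {r // X.isW r}} (h : ¬ GoodC X (.inr r)) :
    al X r.1 = a1 X ∧ ∃ j, ∀ σ, (X.lo σ = r.1 ∨ X.hi σ = r.1) → X.CylSec σ j := by
  have h0 : ¬ WFdir (X.ν r.1) (X.wρ r.1) := by
    intro h2
    refine h fun C => ?_
    obtain ⟨B, h3, hB⟩ := det_of_f r.1 (X.Wd - X.C0)
    have := H.Wdb
    refine wf_mono (h2 B) fun x hx => ⟨hB x hx.1.1, ?_⟩
    have := hx.1.2
    omega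
  refine ⟨if_neg h0, ?_⟩
  rcases H.wOK r.1 r.2 with h1 | h1 | ⟨j, -, h1⟩
  · refine absurd (fun C => ?_) h
    exact wf_fin _ (((cone_W H r.1).fin h1 h1 (C + X.rγ r.1 + X.C0 + al X r.1)).subset
      fun x hx => ⟨hx.1, lev_W H r.2 hx.2⟩)
  · exact absurd h1 h0
  · exact ⟨j, h1⟩

lemma cyl_cover {N : ℤ} (hN : 0 < N) (σ : X.S) (j : X.J) (C : ℚ) :
    ∀ᶠ R in atTop, X.CylSec σ j → ∀ x ∈ X.Sec σ, X.ls σ x ≤ C → ∃ (y : V) (k : ℤ), 0 ≤ k ∧
      n1 y ≤ R ∧ x = y + k • (item X N j).T ∧ (item X N j).Y y ∧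
      -X.ls σ x - X.C0 + k0 X ≤ (item X N j).ψ y := by
  by_cases h : X.CylSec σ j
  swap
  · exact Eventually.of_forall fun R h' => absurd h' h
  obtain ⟨-, -, -, j4, -, -, j7, -⟩ := H.jOK j
  obtain ⟨C', hC⟩ := (cone_S H σ).out (H.sign σ).1 (H.sign σ).2 h.1.1 h.1.2 (C + X.sγ σ)
  have hp := mul_pos hN (dot_pos (H.ν_ne (X.jr j)))
  set ν := X.ν (X.jr j) with hν
  obtain ⟨R, hR⟩ := box (H.ν_ne (X.jr j)) (C' + N * dot ν ν)
  filter_upwards [eventually_ge_atTop R] with R' hR' _ x hx hl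
  obtain ⟨h1, h2⟩ := hC x hx (by
    simp only [RaySys.ls] at hl
    linarith)
  obtain ⟨h3, h4⟩ := h.2 x hx
  have h0 := abs_nonneg (det ν x)
  obtain ⟨k, hk, k1, k2⟩ : ∃ k : ℤ, 0 ≤ k ∧ -C' ≤ dot ν x - k * (N * dot ν ν) ∧
      dot ν x - k * (N * dot ν ν) ≤ N * dot ν ν := by
    rcases le_total 0 (dot ν x) with h5 | h5
    · have := Int.emod_nonneg (dot ν x) hp.ne'
      have := Int.emod_lt_of_pos (dot ν x) hp
      have := Int.emod_def (dot ν x) (N * dot ν ν)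
      refine ⟨dot ν x / (N * dot ν ν), Int.ediv_nonneg h5 hp.le, ?_, ?_⟩ <;> nlinarith
    · exact ⟨0, le_rfl, by omega, by omega⟩
  refine ⟨x + (-(k * N)) • ν, k, hk, (hR _ ?_ ?_).trans hR', ?_, ?_, ?_⟩
  · rw [det_shift]
    exact h1.trans (by omega)
  · rw [dot_shift]
    exact abs_le.mpr ⟨by nlinarith, by nlinarith⟩
  · change x = x + (-(k * N)) • ν + k • N • ν
    rw [smul_smul, add_assoc, ← add_smul]
    simp
  · change 0 ≤ X.js j * X.f (X.jr j) _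
    rwa [f_shift]
  · have h5 := (abs_le.mp (j7 (x + (-(k * N)) • ν))).1
    rw [lr_shift X _ j4] at h5
    change _ ≤ ((X.ψ j _ + k0 X : ℤ) : ℚ)
    push_cast
    linarith

lemma cyl_ok {N : ℤ} (hN : 0 < N) {b : V → ℤ} (hb : ∀ a x, dom X a x → tau X a x ≤ b x)
    (j : X.J) : CylOK c N b (item X N j) := by
  obtain ⟨j1, j2, j3, j4, j5, j6, j7, j8⟩ := H.jOK j
  have hf := ap_f X (X.jr j)
  have hp := dot_pos (H.ν_ne (X.jr j))
  refine ⟨by unfold item; fun_prop, by unfold item; fun_prop, j6.1.add (AM.const _), j6.2.1,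
    ⟨_, rfl⟩, ?_, ?_, ?_, ?_⟩
  · have hp' : (0 : ℚ) < dot (X.ν (X.jr j)) (X.ν (X.jr j)) := by exact_mod_cast hp
    refine ⟨⌈-X.lr (X.jr j) (X.cen (X.jr j))⌉ + X.C0 + k0 X, fun x hx => ?_⟩
    have h1 := (abs_le.mp (j7 x)).2
    have h2 : (0 : ℚ) ≤ X.js j * X.f (X.jr j) x := by exact_mod_cast hx
    have h3 : dot (X.ν (X.jr j)) (X.ν (X.jr j)) *
        (X.lr (X.jr j) x - X.lr (X.jr j) (X.cen (X.jr j))) =
        X.f (X.jr j) x * qd (X.rp (X.jr j)) (rot (X.ν (X.jr j))) := by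
      simp only [RaySys.lr, RaySys.f, qd, dot, det, rot, Prod.fst_sub, Prod.snd_sub] at j4 ⊢
      push_cast
      linear_combination (((X.ν (X.jr j)).1 : ℚ) * (x.1 - (X.cen (X.jr j)).1) +
        (X.ν (X.jr j)).2 * (x.2 - (X.cen (X.jr j)).2)) * j4
    have h4 : 0 ≤ X.f (X.jr j) x * qd (X.rp (X.jr j)) (rot (X.ν (X.jr j))) := by
      have := mul_nonneg h2 j5
      rcases j3 with h | h <;> rw [h] at this <;> push_cast at this <;> linarith
    have h5 := nonneg_of_mul_nonneg_right (h3 ▸ h4) hp'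
    have h6 := Int.le_ceil (-X.lr (X.jr j) (X.cen (X.jr j)))
    have : ((X.ψ j x + k0 X : ℤ) : ℚ) ≤
        ((⌈-X.lr (X.jr j) (X.cen (X.jr j))⌉ + X.C0 + k0 X : ℤ) : ℚ) := by
      push_cast
      linarith
    exact_mod_cast this
  · intro x _ hw
    refine ⟨fun i => ?_, sub_shift (j6.2.2 x) _⟩
    have h1 := (step_le (X.ν (X.jr j)) x i).1
    change ¬ X.js j * X.f (X.jr j) x ≤ n1 (X.ν (X.jr j)) at hw
    change 0 ≤ X.js j * X.f (X.jr j) (x + e i)
    rw [f_eq] at hw ⊢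
    rw [abs_le] at h1
    rcases j3 with h | h <;> rw [h] at hw ⊢ <;> omega
  · intro C
    refine wf_mono (j8 (|C| + X.C0 + |k0 X|)) fun x hx => ⟨?_, ?_⟩
    · have : 0 ≤ X.js j * X.f (X.jr j) x := hx.1
      have := abs_nonneg C
      have := abs_nonneg (k0 X)
      omega
    · have h0 : -C ≤ X.ψ j x + k0 X := hx.2
      have h1 := (abs_le.mp (j7 x)).2
      have := le_abs_self C
      have := le_abs_self (k0 X)
      have h2 : -((|C| + |k0 X| : ℤ) : ℚ) ≤ X.ψ j x := by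
        exact_mod_cast (show -(|C| + |k0 X|) ≤ X.ψ j x by omega)
      push_cast at h2 ⊢
      linarith
  · intro x hy hw
    change 0 ≤ X.js j * X.f (X.jr j) x at hy
    change X.js j * X.f (X.jr j) x ≤ n1 (X.ν (X.jr j)) at hw
    refine ⟨|dot (X.ν (X.jr j)) x|, fun k hk => ?_⟩
    change X.ψ j x + k0 X ≤ b (x + k • N • X.ν (X.jr j))
    rw [smul_smul]
    have h1 := H.ν_le (X.jr j)
    have h2 := wd_big H j1
    have h3 : |X.f (X.jr j) (x + (k * N) • X.ν (X.jr j))| ≤ X.C0 := by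
      rw [f_shift, abs_le]
      rcases j3 with h | h <;> rw [h] at hw hy <;> omega
    have h4 := hb (.inr ⟨_, j1⟩) (x + (k * N) • X.ν (X.jr j)) ⟨h3.trans (by omega), by
      change 0 ≤ dot (X.ν (X.jr j)) _
      rw [dot_shift]
      have := neg_abs_le (dot (X.ν (X.jr j)) x)
      have := abs_nonneg (dot (X.ν (X.jr j)) x)
      have := mul_pos hN hp
      nlinarith⟩
    refine le_trans ?_ h4
    have h5 := w_lo H j1 h3
    rw [lr_shift X _ j4] at h5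
    have h6 := (abs_le.mp (j7 x)).2
    have h7 : al X (X.jr j) = a2 X := if_pos j2
    change _ ≤ X.w (X.jr j) _ + al X (X.jr j)
    rw [h7, a2]
    have : ((X.ψ j x + k0 X : ℤ) : ℚ) ≤ ((X.w (X.jr j) (x + (k * N) • X.ν (X.jr j)) +
        (k0 X + 2 * X.C0 + X.C0 ^ 2 + 1) : ℤ) : ℚ) := by
      push_cast
      linarith
    exact_mod_cast this

end Pool.Agent.Sand.Raysys

namespace Pool.Agent.Sand

open Raysys Classical Filter in
theorem raysys_proof : raysys_stmt := by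
  intro c N X hbg H
  obtain ⟨b, ρ, P, hb, hρ, hP, p1, p2, p3, p4, p5⟩ :=
    glue c (dom X) (tau X) (rho X) (ap_dom X) (sub_el H)
  obtain ⟨R1, hR1⟩ := H.cov
  have act : ∀ x, R1 < n1 x → ∃ a, P a x := fun x hx =>
    let ⟨σ, hσ⟩ := hR1 x hx
    (p2 (.inl (X.el σ)) x ⟨σ, rfl, hσ⟩).2
  obtain ⟨R2, hR2⟩ := far (edge H)
  refine ⟨b, ρ, fun x => ∃ i, GoodC X i ∧ Dom X i x ∧ P (cls X i) x, max R1 R2,
    Finset.univ.toList.map (item X N), hb, hρ,
    AP.exFintype fun i => (AP.const _).and ((ap_Dom X i).and (hP _)), ?_, ?_, ?_, ?_, ?_⟩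
  · obtain ⟨C, hC⟩ := tau_bd H
    refine ⟨max 0 ⌈C⌉, fun x => ?_⟩
    by_cases h : ∃ a, P a x
    · obtain ⟨a, ha⟩ := h
      obtain ⟨i, rfl, hi⟩ := cell_of X (p1 a x ha).1
      rw [(p1 _ x ha).2]
      have : (tau X (cls X i) x : ℚ) ≤ (⌈C⌉ : ℤ) := (hC i x hi).trans (Int.le_ceil C)
      exact le_max_of_le_right (by exact_mod_cast this)
    · rw [p3 x (not_exists.mp h)]
      exact le_max_left _ _
  · intro x hx
    obtain ⟨a, ha⟩ := act x (by omega)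
    refine p5 a x ha fun i hi => ?_
    obtain ⟨a', h1, h2⟩ := hR2 x (by omega) a i (p1 a x ha).1 hi
    exact h2.trans_le (p2 a' _ h1).1
  · intro C
    refine wf_mono (wf_union (S := fun i : {i // GoodC X i} =>
      {x | x ∈ {x | Dom X i.1 x ∧ -C ≤ tau X (cls X i.1) x} ∧ P (cls X i.1) x})
      fun i => p4 _ _ (i.2 C)) ?_
    rintro x ⟨⟨i, h1, h2, h3⟩, h4⟩
    exact ⟨⟨i, h1⟩, ⟨h2, (p1 _ x h3).2 ▸ h4⟩, h3⟩
  · intro it hit
    obtain ⟨j, -, rfl⟩ := List.mem_map.mp hit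
    exact cyl_ok H hbg.pos (fun a x h => (p2 a x h).1) j
  · intro C
    obtain ⟨R3, hR3⟩ := far (eventually_all.mpr fun r => adj' H r 0)
    obtain ⟨R, hR, h1, h3⟩ := ((eventually_all.mpr fun σ => eventually_all.mpr fun j =>
      cyl_cover H hbg.pos σ j (C + X.C0 + a1 X)).and
      ((eventually_ge_atTop R1).and (eventually_ge_atTop R3))).exists
    refine ⟨R, fun x hx => ?_⟩
    by_cases hfar : n1 x ≤ R
    · exact Or.inr (Or.inl hfar)
    obtain ⟨a, ha⟩ := act x (by omega)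
    obtain ⟨i, rfl, hi⟩ := cell_of X (p1 a x ha).1
    by_cases hg : GoodC X i
    · exact Or.inl ⟨i, hg, hi, ha⟩
    have ha1 : (0 : ℚ) ≤ a1 X := by
      unfold a1
      positivity
    obtain ⟨σ, j, k1, k2, k3⟩ : ∃ σ j, X.CylSec σ j ∧ x ∈ X.Sec σ ∧
        (b x : ℚ) ≤ -X.ls σ x + X.C0 + a1 X := by
      rw [(p1 _ x ha).2]
      rcases i with σ | r
      · obtain ⟨j, hj⟩ := bad_S H hg
        refine ⟨σ, j, hj, hi, ?_⟩
        have := H.πup σ x
        change (X.π (X.el σ) x : ℚ) ≤ _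
        linarith
      · obtain ⟨h4, j, hj⟩ := bad_W H hg
        obtain ⟨-, σ, hσ, h5⟩ := hR3 x (by omega) r.1 (hi.1.trans (by omega)) (by
          simpa using hi.2)
        refine ⟨σ, j, hj σ hσ, h5, ?_⟩
        have := w_up H r.2 x
        change ((X.w r.1 x + al X r.1 : ℤ) : ℚ) ≤ _
        rw [ls_lr H r.2 hσ, h4]
        push_cast
        linarith
    have hx' : -(C : ℚ) ≤ b x := by exact_mod_cast hx
    obtain ⟨y, k, y1, y2, y3, y4, y5⟩ := hR σ j k1 x k2 (by linarith)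
    refine Or.inr (Or.inr ⟨item X N j, List.mem_map.mpr ⟨j, by simp, rfl⟩, y, k, y1, y2, y3, y4, ?_⟩)
    have : (b x : ℚ) < (item X N j).ψ y := by
      simp only [k0] at y5
      push_cast at y5
      linarith
    exact_mod_cast this

end Pool.Agent.Sand
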