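import Pool.Agent.Lib.MP_215a10_lc.Dec.Basic

/-! Soundness of robustness certificates. -/

set_option autoImplicit false

namespace Pool.Agent.Sand

open Classical

namespace Rsound

/-- local limits of bounded stable `T`-invariant functions -/
def Cyl (c : V → ℤ) (T : V) (g : V → ℤ) : Prop :=
  ∀ R : ℤ, ∃ h : V → ℤ, Stable c h ∧ (∃ C : ℤ, ∀ x, |h x| ≤ C) ∧ (∀ x, h (x + T) = h x) ∧
    ∀ x, n1 x ≤ R → h x = g x

def Band (T : V) (R : ℤ) (x : V) : Prop := ∃ j : ℤ, n1 (x - j • T) ≤ R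

variable {c : V → ℤ} {N : ℤ} {T : V}

lemma inv_zsmul {h : V → ℤ} (hT : ∀ x, h (x + T) = h x) (j : ℤ) (x : V) :
    h (x + j • T) = h x := by
  have := (iter_eqv (Y := Set.univ) (g := h) (a := 0) (by simp) (by simpa using hT) j x trivial).2
  simpa using this

lemma Band.mono {R R' : ℤ} {x : V} (h : Band T R x) (hR : R ≤ R') : Band T R' x :=
  let ⟨j, hj⟩ := h; ⟨j, hj.trans hR⟩

lemma Band.of_ball {R : ℤ} {x : V} (h : n1 x ≤ R) : Band T R x := ⟨0, by simpa using h⟩

lemma Band.step {R : ℤ} {x : V} (h : Band T R x) (i : Fin 4) : Band T (R + 1) (x + e i) := by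
  obtain ⟨j, hj⟩ := h
  refine ⟨j, ?_⟩
  have h1 := n1_add (x - j • T) (e i)
  rw [n1_e] at h1
  have h2 : x + e i - j • T = x - j • T + e i := by abel
  rw [h2]; omega

lemma Band.back {R : ℤ} {x : V} {i : Fin 4} (h : Band T R (x + e i)) : Band T (R + 1) x := by
  have := h.step (opp i)
  rwa [e_opp, add_neg_cancel_right] at this

lemma band_add (R : ℤ) (x : V) : Band T R (x + T) ↔ Band T R x := by
  constructor
  · rintro ⟨j, hj⟩
    refine ⟨j - 1, ?_⟩
    have : x - (j - 1) • T = x + T - j • T := by rw [sub_smul, one_smul]; abel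
    rwa [this]
  · rintro ⟨j, hj⟩
    refine ⟨j + 1, ?_⟩
    have : x + T - (j + 1) • T = x - j • T := by rw [add_smul, one_smul]; abel
    rwa [this]

lemma ball_bdd (g : V → ℤ) (R : ℤ) : ∃ C : ℤ, ∀ x, n1 x ≤ R → |g x| ≤ C := by
  obtain ⟨C, hC⟩ := ((ball_finite R).image fun y => |g y|).bddAbove
  exact ⟨C, fun x hx => hC ⟨x, hx, rfl⟩⟩

lemma band_bdd {g : V → ℤ} (hg : ∀ x, g (x + T) = g x) (R : ℤ) :
    ∃ C : ℤ, ∀ x, Band T R x → |g x| ≤ C := by
  obtain ⟨C, hC⟩ := ball_bdd g R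
  refine ⟨C, ?_⟩
  rintro x ⟨j, hj⟩
  have e1 := inv_zsmul hg j (x - j • T)
  rw [sub_add_cancel] at e1
  rw [e1]; exact hC _ hj

lemma Cyl.inv {g : V → ℤ} (h : Cyl c T g) (x : V) : g (x + T) = g x := by
  obtain ⟨u, -, -, h2, h3⟩ := h (max (n1 x) (n1 (x + T)))
  rw [← h3 _ (le_max_right _ _), h2, h3 _ (le_max_left _ _)]

lemma Cyl.stable {g : V → ℤ} (h : Cyl c T g) : Stable c g := by
  intro x
  obtain ⟨u, h1, -, -, h3⟩ := h (n1 x + 1)
  refine (h1 x).congr (h3 x (by omega)).symm fun i => (h3 _ ?_).symm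
  have := n1_add x (e i); rw [n1_e] at this; exact this

lemma Cyl.band {g : V → ℤ} (h : Cyl c T g) (R : ℤ) :
    ∃ u : V → ℤ, Stable c u ∧ (∃ C : ℤ, ∀ x, |u x| ≤ C) ∧ (∀ x, u (x + T) = u x) ∧
      ∀ x, Band T R x → u x = g x := by
  obtain ⟨u, h1, h2, h3, h4⟩ := h R
  refine ⟨u, h1, h2, h3, ?_⟩
  rintro x ⟨j, hj⟩
  have e1 := inv_zsmul h3 j (x - j • T)
  have e2 := inv_zsmul h.inv j (x - j • T)
  rw [sub_add_cancel] at e1 e2
  rw [e1, e2, h4 _ hj]

lemma Cyl.of_bdd {g : V → ℤ} (h1 : Stable c g) (h2 : ∃ C : ℤ, ∀ x, |g x| ≤ C)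
    (h3 : ∀ x, g (x + T) = g x) : Cyl c T g := fun _ => ⟨g, h1, h2, h3, fun _ _ => rfl⟩

lemma Cyl.congr {g g' : V → ℤ} (h : Cyl c T g) (h' : ∀ x, g' x = g x) : Cyl c T g' := by
  have : g' = g := funext h'
  rwa [this]

lemma Cyl.lim {g : V → ℤ} (h : ∀ R : ℤ, ∃ g1, Cyl c T g1 ∧ ∀ x, n1 x ≤ R → g x = g1 x) :
    Cyl c T g := by
  intro R
  obtain ⟨g1, h1, h2⟩ := h R
  obtain ⟨u, k1, k2, k3, k4⟩ := h1 R
  exact ⟨u, k1, k2, k3, fun x hx => (k4 x hx).trans (h2 x hx).symm⟩

lemma Cyl.min {g g' : V → ℤ} (h : Cyl c T g) (h' : Cyl c T g') :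
    Cyl c T (fun x => min (g x) (g' x)) := by
  intro R
  obtain ⟨u, k1, ⟨C, k2⟩, k3, k4⟩ := h R
  obtain ⟨u', k1', ⟨C', k2'⟩, k3', k4'⟩ := h' R
  refine ⟨fun x => Min.min (u x) (u' x), k1.min k1', ⟨max C C', fun x => ?_⟩,
    fun x => by simp only [k3, k3'], fun x hx => by simp only [k4 x hx, k4' x hx]⟩
  have := abs_le.1 (k2 x); have := abs_le.1 (k2' x)
  simp only
  exact abs_le.2 ⟨by omega, by omega⟩

lemma Cyl.add_const {g : V → ℤ} (h : Cyl c T g) (a : ℤ) : Cyl c T (fun x => g x + a) := by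
  intro R
  obtain ⟨u, k1, ⟨C, k2⟩, k3, k4⟩ := h R
  refine ⟨fun x => u x + a, k1.add_const a, ⟨C + |a|, fun x => ?_⟩,
    fun x => by simp only [k3], fun x hx => by simp only [k4 x hx]⟩
  exact (abs_add_le _ _).trans (by have := k2 x; omega)

lemma Cyl.shift (hc : IsBG c N) {g : V → ℤ} (h : Cyl c T g) (z : V) :
    Cyl c T (fun x => g (x + N • z)) := by
  intro R
  obtain ⟨u, k1, ⟨C, k2⟩, k3, k4⟩ := h (R + n1 (N • z))
  refine ⟨fun x => u (x + N • z), k1.shift hc z, ⟨C, fun x => k2 _⟩,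
    fun x => by simp only [add_right_comm x T, k3], fun x hx => k4 _ ?_⟩
  have := n1_add x (N • z); omega

lemma Cyl.zsmul {g : V → ℤ} (h : Cyl c T g) (j : ℤ) : Cyl c (j • T) g := by
  intro R
  obtain ⟨u, k1, k2, k3, k4⟩ := h R
  exact ⟨u, k1, k2, inv_zsmul k3 j, k4⟩

/-- surgery along a band -/
lemma surgery {g g1 : V → ℤ} (h1 : Cyl c T g1) (hg : Stable c g)
    (hF : FinMod T (fun x => g x ≠ g1 x)) (hC : ∃ C : ℤ, ∀ x, |g x - g1 x| ≤ C) (R : ℤ) :
    ∃ u : V → ℤ, Stable c u ∧ (∃ C : ℤ, ∀ x, |u x| ≤ C) ∧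
      ((∀ x, g (x + T) = g x) → ∀ x, u (x + T) = u x) ∧ ∀ x, n1 x ≤ R → u x = g x := by
  obtain ⟨R0, hR0⟩ := hF
  obtain ⟨C, hC⟩ := hC
  have hout : ∀ x, ¬ Band T R0 x → g x = g1 x := fun x hx => by
    by_contra hne; exact hx (hR0 x hne)
  obtain ⟨R1, hR1, hR1'⟩ : ∃ R1, R0 + 1 ≤ R1 ∧ R ≤ R1 :=
    ⟨max (R0 + 1) R, le_max_left _ _, le_max_right _ _⟩
  obtain ⟨h, k1, ⟨C', k2⟩, k3, k4⟩ := h1.band (R1 + 1)
  refine ⟨fun x => if Band T R1 x then g x else h x, fun x => ?_, ⟨|C| + C', fun x => ?_⟩,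
    fun hT x => ?_, fun x hx => ?_⟩
  · by_cases hx : Band T R1 x
    · refine (hg x).congr (if_pos hx) fun i => ?_
      by_cases hy : Band T R1 (x + e i)
      · exact if_pos hy
      · rw [if_neg hy, k4 _ (hx.step i), hout _ fun hb => hy (hb.mono (by omega))]
    · refine (k1 x).congr (if_neg hx) fun i => ?_
      by_cases hy : Band T R1 (x + e i)
      · rw [if_pos hy, k4 _ (hy.mono (by omega)), hout _ fun hb => hx (hb.back.mono hR1)]
      · exact if_neg hy
  · have h2 := abs_le.1 (k2 x)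
    have h3 := abs_le.1 (hC x)
    have h4 := le_abs_self C
    have h5 := abs_nonneg C
    by_cases hx : Band T R1 x
    · have h6 := k4 x (hx.mono (by omega))
      simp only [if_pos hx]
      exact abs_le.2 ⟨by omega, by omega⟩
    · simp only [if_neg hx]
      exact abs_le.2 ⟨by omega, by omega⟩
  · simp only [band_add, hT, k3]
  · exact if_pos (Band.of_ball (hx.trans hR1'))

/-- finite modification modulo `T` -/
lemma Cyl.finmod {g g1 : V → ℤ} (h1 : Cyl c T g1) (hg : Stable c g) (hT : ∀ x, g (x + T) = g x)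
    (hF : FinMod T (fun x => g x ≠ g1 x)) : Cyl c T g := by
  have hC : ∃ C : ℤ, ∀ x, |g x - g1 x| ≤ C := by
    obtain ⟨R0, hR0⟩ := hF
    obtain ⟨C, hC⟩ := band_bdd (T := T) (g := fun x => g x - g1 x)
      (fun x => by simp only [hT, h1.inv]) R0
    refine ⟨|C|, fun x => ?_⟩
    by_cases hx : g x = g1 x
    · rw [hx, sub_self, abs_zero]; exact abs_nonneg _
    · exact (hC x (hR0 x hx)).trans (le_abs_self _)
  intro R
  obtain ⟨u, k1, k2, k3, k4⟩ := surgery h1 hg hF hC R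
  exact ⟨u, k1, k2, k3 hT, k4⟩

/-- bounded modification along a band -/
lemma Cyl.bandmod {g g1 : V → ℤ} (h1 : Cyl c T g1) (hg : Stable c g)
    (hF : FinMod T (fun x => g x ≠ g1 x)) (hC : ∃ C : ℤ, ∀ x, |g x - g1 x| ≤ C) : Cyl c 0 g := by
  intro R
  obtain ⟨u, k1, k2, -, k4⟩ := surgery h1 hg hF hC R
  exact ⟨u, k1, k2, fun x => by rw [add_zero], k4⟩

/-- a function is a limit of its cuts by the translates of another one -/
lemma Cyl.of_cuts {g A : V → ℤ} (h : ∀ a : ℤ, Cyl c T (fun x => Min.min (g x) (A x + a))) :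
    Cyl c T g := by
  refine Cyl.lim fun R => ?_
  obtain ⟨C, hC⟩ := ball_bdd (fun x => g x - A x) R
  refine ⟨_, h C, fun x hx => ?_⟩
  have := abs_le.1 (hC x hx)
  omega

/-- modification below an anchor -/
lemma Cyl.anchor {g g1 A : V → ℤ} (h1 : Cyl c 0 g1) (hA : Cyl c 0 A) (hg : Stable c g)
    (hF : ∀ a : ℤ, FinMod 0 (fun x => g x ≠ g1 x ∧ Min.min (g x) (g1 x) < A x + a)) :
    Cyl c 0 g := by
  refine Cyl.of_cuts (A := A) fun a => ?_
  refine (h1.min (hA.add_const a)).finmod (hg.min (hA.stable.add_const a))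
    (fun x => by rw [add_zero]) ?_
  obtain ⟨R, hR⟩ := hF a
  refine ⟨R, fun x hx => hR x ?_⟩
  simp only at hx
  constructor
  · intro h; exact hx (by rw [h])
  · omega

lemma stable_frame {g : V → ℤ} (hg : Stable c g) (k : ℤ) (l : V) :
    Stable c (fun x => g x - k * dot l x) := by
  have := hg.sub_dot (k • l)
  simpa only [smul_dot] using this

lemma frame_shift (hc : IsBG c N) {g : V → ℤ} {k : ℤ} {l : V}
    (h : Cyl c T (fun x => g x - k * dot l x)) (z : V) (a : ℤ) :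
    Cyl c T (fun x => g (x + N • z) + a - k * dot l x) :=
  ((h.shift hc z).add_const (a + k * dot l (N • z))).congr fun x => by
    simp only [dot_add]; ring

/-- the five rules are sound in the frame `k` -/
lemma sound (hc : IsBG c N) {X : Ctx} {L : List Item} (hG : Good c N X L) {k : ℤ} (hk : 0 ≤ k)
    (hz : X.z → X.l = 0) (hA : Cyl c 0 X.A)
    (hY : ∀ it ∈ X.Y, ∀ s, Cyl c it.T (fun x => it.G s x - k * dot X.l x)) :
    ∀ it ∈ L, ∀ s, Cyl c it.T (fun x => it.G s x - k * dot X.l x) := by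
  suffices H : ∀ n : ℕ, ∀ it ∈ L, it.st < n →
      ∀ s, Cyl c it.T (fun x => it.G s x - k * dot X.l x) from
    fun it hit => H (it.st + 1) it hit (Nat.lt_succ_self _)
  intro n
  induction n with
  | zero => intro it _ h; exact absurd h (Nat.not_lt_zero _)
  | succ n ih =>
    intro it hit hn s
    have hprev : ∀ it', (it' ∈ X.Y ∨ (it' ∈ L ∧ it'.st < it.st)) →
        ∀ s, Cyl c it'.T (fun x => it'.G s x - k * dot X.l x) := by
      rintro it' (h | ⟨h, h'⟩)
      · exact hY it' h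
      · exact ih it' h (by omega)
    have hmem : ∀ g, Mem N X.Y L it.st it.T g →
        Cyl c it.T (fun x => g x - k * dot X.l x) := by
      rintro g ⟨it', h1, ⟨j, hj⟩, s', z, a, hg⟩
      rw [hj]
      exact ((frame_shift hc (hprev it' h1 s') z a).zsmul j).congr fun x => by rw [hg]
    obtain ⟨-, hl, hJ⟩ := hG it hit
    obtain ⟨hst, hinv, hJ⟩ := hJ s
    have hst' := stable_frame hst k X.l
    have hinv' : ∀ x, it.G s (x + it.T) - k * dot X.l (x + it.T) = it.G s x - k * dot X.l x :=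
      fun x => by rw [hinv, dot_add, hl, add_zero]
    rcases hJ with ⟨h0, C, hC⟩ | ⟨g1, g2, h1, h2, h3⟩ | ⟨g1, h1, R, hR⟩ |
      ⟨hT, ⟨g1, h1, ⟨C, hC⟩, h2⟩ | ⟨it', h1, s', z, a, ⟨R, hR⟩, C, hC⟩⟩ | h
    · refine Cyl.of_bdd hst' ⟨C, fun x => ?_⟩ hinv'
      rw [hz h0, zero_dot, mul_zero, sub_zero]; exact hC x
    · refine ((hmem g1 h1).min (hmem g2 h2)).congr fun x => ?_
      rw [h3]; omega
    · refine (hmem g1 h1).finmod hst' hinv' ⟨R, fun x hx => hR x fun h => hx ?_⟩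
      simp only [h]
    · have h3 := hmem g1 h1
      rw [hT] at h3 ⊢
      refine h3.anchor hA hst' fun a => ?_
      obtain ⟨R, hR⟩ := h2 (a + k * C)
      refine ⟨R, fun x hx => hR x ?_⟩
      have hne : it.G s x ≠ g1 x := fun h => hx.1 (by simp only [h])
      have h4 := mul_le_mul_of_nonneg_left (hC x hne) hk
      have h5 := hx.2
      exact ⟨hne, by omega⟩
    · rw [hT]
      refine (frame_shift hc (hprev it' h1 s') z a).bandmod hst'
        ⟨R, fun x hx => hR x fun h => hx ?_⟩ ⟨C, fun x => ?_⟩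
      · simp only [h]
      · have := hC x
        rwa [sub_sub_sub_cancel_right]
    · refine Cyl.lim fun R => ?_
      obtain ⟨g1, h1, h2⟩ := h R
      exact ⟨_, hmem g1 h1, fun x hx => by simp only [h2 x hx]⟩

lemma sound0 (hc : IsBG c N) {L : List Item} (hG : Good c N ctx0 L) :
    ∀ it ∈ L, ∀ s, Cyl c it.T (it.G s) := by
  intro it hit s
  have := sound hc hG (le_refl 0) (fun _ => rfl)
    (Cyl.of_bdd (stable_const hc 0) ⟨0, fun _ => le_refl _⟩ fun _ => rfl)
    (fun it h => absurd h List.not_mem_nil) it hit s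
  exact this.congr fun x => by simp

/-- unbounded edge drops at the origin give robustness -/
lemma robust_of (hc : IsBG c N) {y : V → ℤ} {l : V} (hl : l ≠ 0)
    (h : ∀ k : ℕ, Cyl c T (fun x => y x - k * dot l x)) : Robust c := by
  intro n
  obtain ⟨i, hi⟩ := exists_e_pos hl
  rw [dot_comm] at hi
  obtain ⟨g, k1, ⟨C, k2⟩, -, k4⟩ := h (n + (y (e i) - y 0).natAbs) 1
  have h0 := k4 0 (by simp)
  have h1 := k4 (e i) (by simp)
  simp only [dot_zero, mul_zero, sub_zero] at h0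
  have hdrop : g (e i) + n ≤ g 0 := by
    rw [h0, h1]
    push_cast
    have h2 := le_abs_self (y (e i) - y 0)
    have h3 := abs_nonneg (y (e i) - y 0)
    have h4 : (0 : ℤ) ≤ n := Int.natCast_nonneg _
    nlinarith
  have hs : Stable c (fun x => Min.min (g x) (g 0) + C) :=
    (k1.min (stable_const hc (g 0))).add_const C
  have hnn : ∀ x, 0 ≤ Min.min (g x) (g 0) + C := fun x => by
    have := abs_le.1 (k2 x); have := abs_le.1 (k2 0); omega
  refine ⟨fun x => (Min.min (g x) (g 0) + C).toNat, fun x => ?_⟩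
  have hcast : (fun x => (((Min.min (g x) (g 0) + C).toNat : ℕ) : ℤ)) =
      fun x => Min.min (g x) (g 0) + C := funext fun x => Int.toNat_of_nonneg (hnn x)
  rw [hcast]
  by_cases hx : x = 0
  · subst hx
    rw [if_pos rfl]
    have h3 := hc.le3 0
    have h4 : lap (fun x => Min.min (g x) (g 0) + C) 0 ≤
        ∑ j : Fin 4, if j = i then -(n : ℤ) else 0 := by
      refine Finset.sum_le_sum fun j _ => ?_
      rw [zero_add]
      simp only
      split_ifs with hj
      · rw [hj]; omega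
      · omega
    rw [Finset.sum_ite_eq' Finset.univ i, if_pos (Finset.mem_univ _)] at h4
    omega
  · rw [if_neg hx, add_zero]; exact hs x

/-- a cylinder function falling faster than `-l·x` lets us subtract `l·x` -/
lemma Cyl.sub_dot {G g : V → ℤ} {l : V} (hG : Cyl c T G) (hl : dot l T = 0)
    (hF : ∀ a : ℤ, FinMod T (fun x => -a < G x + dot l x)) (hg : Cyl c T g) :
    Cyl c T (fun x => g x - dot l x) := by
  refine Cyl.lim fun R => ?_
  obtain ⟨b, k1, ⟨C, k2⟩, k3, k4⟩ := hg R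
  refine ⟨fun x => b x - dot l x, ?_, fun x hx => by simp only [k4 x hx]⟩
  refine Cyl.of_cuts (A := G) fun a => ?_
  refine (hG.add_const a).finmod ((k1.sub_dot l).min (hG.stable.add_const a))
    (fun x => by simp only [k3, hG.inv, dot_add, hl, add_zero]) ?_
  obtain ⟨R0, hR0⟩ := hF (a + C)
  refine ⟨R0, fun x hx => hR0 x ?_⟩
  have := abs_le.1 (k2 x)
  simp only at hx
  omega

end Rsound

open Rsound in
theorem rsound_proof : rsound_stmt := by
  rintro c N hc ⟨L0, hL0, ⟨it, hit, s, l, hl, hlT, hF⟩ |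
    ⟨itA, hA, sA, l, Y, L1, hAT, hl, hYne, hY, hL1, hstep⟩⟩
  · have hG := sound0 hc hL0 it hit s
    refine robust_of (T := it.T) (y := fun _ => 0) hc hl fun k => ?_
    induction k with
    | zero =>
      exact (Cyl.of_bdd (stable_const hc 0) ⟨0, fun _ => le_refl _⟩ fun _ => rfl).congr
        fun x => by simp
    | succ k ih => exact (hG.sub_dot hlT hF ih).congr fun x => by push_cast; ring
  · have hAc : Cyl c 0 (itA.G sA) := hAT ▸ sound0 hc hL0 itA hA sA
    have key : ∀ k : ℕ, ∀ it ∈ Y, ∀ s, Cyl c it.T (fun x => it.G s x - k * dot l x) := by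
      intro k
      induction k with
      | zero =>
        intro it hit s
        obtain ⟨h1, it', h2, h3, h4⟩ := hY it hit
        have := sound0 hc hL0 it' h2 s
        rw [h3] at this
        rw [h1]
        exact this.congr fun x => by simp [h4]
      | succ k ih =>
        intro it hit s
        obtain ⟨it', h1, h2, s', h3⟩ := hstep it hit s
        have := sound hc hL1 (k := k) (Int.natCast_nonneg _) (fun h => h.elim) hAc ih it' h1 s'
        rw [h2] at this
        rw [(hY it hit).1]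
        exact this.congr fun x => by simp only [← h3 x]; push_cast; ring
    obtain ⟨it, hit⟩ := List.exists_mem_of_ne_nil Y hYne
    exact robust_of hc hl fun k => key k it hit 0

end Pool.Agent.Sand
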