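import Pool.Agent.Lib.MP_215a10_lc.Dec.Tent2

/-! Construction of tents. -/

set_option autoImplicit false

namespace Pool.Agent.Sand

open Classical

namespace Tent

lemma sum_cnt {f g : Fin 4 → ℤ} {P Q : Fin 4 → Prop} {dP : DecidablePred P}
    {dQ : DecidablePred Q}
    (h : ∀ i, f i + (if P i then 1 else 0) ≤ g i + (if Q i then 1 else 0)) :
    ∑ i, f i + cnt P ≤ ∑ i, g i + cnt Q := by
  have h1 := Finset.sum_le_sum (s := Finset.univ) fun i _ => h i
  simp only [Finset.sum_add_distrib] at h1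
  have e1 : cnt P = ∑ i, if P i then (1 : ℤ) else 0 := by unfold cnt; congr!
  have e2 : cnt Q = ∑ i, if Q i then (1 : ℤ) else 0 := by unfold cnt; congr!
  rw [e1, e2]
  exact h1

lemma comps {N : ℤ} {w : V → G3} {u v : V} (h : ∀ x z, w (x + N • z) = w x + sig u v (N • z)) :
    (∀ x z, g1 (w (x + N • z)) = g1 (w x) - dot u (N • z)) ∧
    (∀ x z, g2 (w (x + N • z)) = g2 (w x) - dot v (N • z)) ∧
    (∀ x z, g3 (w (x + N • z)) = g3 (w x) - dot 0 (N • z)) := by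
  refine ⟨fun x z => ?_, fun x z => ?_, fun x z => ?_⟩ <;> rw [h] <;>
    simp [sig, sub_eq_add_neg, dot]

lemma orth {D1 : ℤ} {m q : Q2} {zq zm n : V} (hq : (D1 : ℚ) • q = toQ zq)
    (hm : (D1 : ℚ) • m = toQ zm) (ho : qd (m - q) n = 0) : dot (zm - zq) n = 0 := by
  have h1 := dot_grid hq n
  have h2 := dot_grid hm n
  have h3 : qd m n - qd q n = 0 := by
    rw [← ho]
    simp only [qd, Prod.fst_sub, Prod.snd_sub]
    ring
  have : ((dot (zm - zq) n : ℤ) : ℚ) = 0 := by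
    rw [dot_sub]
    push_cast
    rw [h1, h2, ← mul_sub, h3, mul_zero]
  exact_mod_cast this

lemma core (hp : pot_stmt) {c : V → ℤ} {N D : ℤ} {B : V → ℤ} {m q q' : Q2} {n : V}
    {T : V → Fin 4 → Prop} (hN : 0 < N) (hD : 0 < D) (hB : Eqv N ((D : ℚ) • m) B)
    (hTp : ∀ x z i, T (x + N • z) i ↔ T x i) (hT : ∀ x i, T x i → D ∣ B (x + e i) - B x)
    (hs : ∀ x i, T x i → T (x + e i) (opp i)) (hq : Cl N m q) (hq' : Cl N m q') (hn : n ≠ 0)
    (ho : qd (m - q) n = 0) (ho' : qd (m - q') n = 0) (r : V → R2) (hr : AR2 r)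
    (hθ : ∀ x, 4 - c x - lapD D B x ≤ cnt (fun i => T x i ∧ r (x + e i) < r x)) :
    ∃ τ ρ, IsTent c q q' τ ρ ∧ ((∀ C : ℤ, WFon {x | -C ≤ dot n x} r) → WFdir n ρ) := by
  obtain ⟨D1, hD1, ⟨zq, gq⟩, ⟨zq', gq'⟩, ⟨zm, gm⟩⟩ := ex_grid3 q q' m
  obtain ⟨w1, p1, k1⟩ := ex_w hp hN hD hD1 hB hTp hT hq gq gm
  obtain ⟨w2, p2, k2⟩ := ex_w hp hN hD hD1 hB hTp hT hq' gq' gm
  obtain ⟨a1, a2, a3⟩ := comps p1
  obtain ⟨b1, b2, b3⟩ := comps p2
  obtain ⟨ra, rb, hra, hrb, rfl⟩ := hr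
  set w : V → G3 := fun x => min (w1 x) (w2 x) with hw
  have kw : ∀ x i, kap D D1 B T x i ≤ w (x + e i) - w x := fun x i => by
    rw [le_sub_iff_add_le', hw]
    refine le_min ?_ ?_
    · exact (add_le_add_left (min_le_left _ _) _).trans (le_sub_iff_add_le'.1 (k1 x i))
    · exact (add_le_add_left (min_le_right _ _) _).trans (le_sub_iff_add_le'.1 (k2 x i))
  have A1 := am_eqv (w := fun x => g1 (w1 x)) hN a1
  have A2 := am_eqv (w := fun x => g2 (w1 x)) hN a2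
  have A3 := am_eqv (w := fun x => g3 (w1 x)) hN a3
  have B1 := am_eqv (w := fun x => g1 (w2 x)) hN b1
  have B2 := am_eqv (w := fun x => g2 (w2 x)) hN b2
  have B3 := am_eqv (w := fun x => g3 (w2 x)) hN b3
  have hle : AP (fun x => w1 x ≤ w2 x) :=
    (AP.or (AP.lt A1 B1) (AP.and (AP.eq A1 B1) (AP.or (AP.lt A2 B2)
      (AP.and (AP.eq A2 B2) (AP.le A3 B3))))).of_iff fun x => (le_iff _ _).symm
  have hg : ∀ g : G3 → ℤ, AM (fun x => g (w1 x)) → AM (fun x => g (w2 x)) →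
      AM (fun x => g (w x)) := fun g h1 h2 =>
    (AM.ite hle h1 h2).of_eq fun x => by
      simp only [hw, min_def]
      split_ifs <;> rfl
  have W1 := hg g1 A1 B1
  have W2 := hg g2 A2 B2
  have W3 := hg g3 A3 B3
  refine ⟨fun x => g1 (w x) / D1,
    fun x => mk5 (-(g1 (w x) % D1)) (-g2 (w x)) (-g3 (w x)) (ra x) (rb x),
    ⟨⟨W1.ediv D1, ⟨_, _, _, _, _, (W1.emod D1).neg, W2.neg, W3.neg, hra, hrb, rfl⟩,
      fun x => ?_⟩, ?_⟩, fun hwf C => ?_⟩
  · have h1 := sum_cnt fun i => edge_ineq hD hD1 hT hs kw ra rb x i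
    have h2 := hθ x
    simp only [SubAt, lap, lapD, kk] at h1 h2 ⊢
    linarith
  · obtain ⟨C1, c1⟩ := bd_eqv (w := fun x => g1 (w1 x)) hN a1
    obtain ⟨C2, c2⟩ := bd_eqv (w := fun x => g1 (w2 x)) hN b1
    refine ⟨C1 + C2 + 1, fun x => ?_⟩
    have d1 : |((g1 (w1 x) : ℚ)) + D1 * qd q x| ≤ C1 := by
      rw [← dot_grid gq]
      exact_mod_cast c1 x
    have d2 : |((g1 (w2 x) : ℚ)) + D1 * qd q' x| ≤ C2 := by
      rw [← dot_grid gq']
      exact_mod_cast c2 x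
    have e1 : (D1 : ℚ) * (g1 (w x) / D1 : ℤ) + (g1 (w x) % D1 : ℤ) = g1 (w x) := by
      exact_mod_cast Int.mul_ediv_add_emod (g1 (w x)) D1
    have e2 : (0 : ℚ) ≤ (g1 (w x) % D1 : ℤ) := by exact_mod_cast Int.emod_nonneg _ hD1.ne'
    have e3 : ((g1 (w x) % D1 : ℤ) : ℚ) < D1 := by exact_mod_cast Int.emod_lt_of_pos _ hD1
    have e4 : (g1 (w x) : ℚ) = min (g1 (w1 x) : ℚ) (g1 (w2 x)) := by
      exact_mod_cast g1_min (w1 x) (w2 x)
    have dp : (1 : ℚ) ≤ D1 := by exact_mod_cast hD1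
    have f1 := abs_le.1 d1
    have f2 := abs_le.1 d2
    have f3 : |(g1 (w x) : ℚ) + D1 * max (qd q x) (qd q' x)| ≤ C1 + C2 := by
      rw [e4, mul_max_of_nonneg _ _ (by linarith), abs_le]
      have g1' := abs_nonneg ((g1 (w1 x) : ℚ) + D1 * qd q x)
      have g2' := abs_nonneg ((g1 (w2 x) : ℚ) + D1 * qd q' x)
      rcases le_total (g1 (w1 x) : ℚ) (g1 (w2 x)) with h | h <;>
        rcases le_total (D1 * qd q x) (D1 * qd q' x) with h' | h' <;>
        simp only [min_eq_left, min_eq_right, max_eq_left, max_eq_right, h, h'] <;>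
        constructor <;> linarith
    have f4 := abs_le.1 f3
    have f5 : (0 : ℚ) ≤ C1 + C2 := (abs_nonneg _).trans f3
    rw [abs_le]
    constructor
    · by_contra hc
      push Not at hc
      nlinarith
    · by_contra hc
      push Not at hc
      nlinarith
  · obtain ⟨C1, c1⟩ := bd_eqv (w := fun x => g2 (w1 x)) hN a2
    obtain ⟨C2, c2⟩ := bd_eqv (w := fun x => g2 (w2 x)) hN b2
    obtain ⟨C3, c3⟩ := bd_eqv (w := fun x => g3 (w1 x)) hN a3
    obtain ⟨C4, c4⟩ := bd_eqv (w := fun x => g3 (w2 x)) hN b3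
    refine wf_lex (C := -D1) (fun x _ => ?_) (wf_lex
      (C := -max (C1 + |det n (zm - zq)| * C) (C2 + |det n (zm - zq')| * C)) (fun x hx => ?_)
      (wf_lex (C := -max C3 C4) (fun x _ => ?_) (wf_mono (hwf C) fun x hx => hx.2)))
    · have := Int.emod_lt_of_pos (g1 (w x)) hD1
      omega
    · have h1 := abs_le.1 (dot_le hn (orth gq gm ho) hx.1)
      have h2 := abs_le.1 (dot_le hn (orth gq' gm ho') hx.1)
      have h3 := abs_le.1 (c1 x)
      have h4 := abs_le.1 (c2 x)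
      rcases min_choice (w1 x) (w2 x) with h | h <;> simp only [hw, h] <;> omega
    · have h3 := abs_le.1 (c3 x)
      have h4 := abs_le.1 (c4 x)
      simp only [dot, Prod.fst_zero, Prod.snd_zero, zero_mul, add_zero] at h3 h4
      rcases min_choice (w1 x) (w2 x) with h | h <;> simp only [hw, h] <;> omega

/-- tight components lie in bands, and stuck sets meet them in forbidden sets -/
lemma comp_band (hp : pot_stmt) {c : V → ℤ} {N D : ℤ} {B : V → ℤ} {m q : Q2} {n : V}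
    (hN : 0 < N) (hD : 0 < D) (hB : Eqv N ((D : ℚ) • m) B) (hq : Cl N m q) (hne : q ≠ m)
    (hn : n ≠ 0) (ho : qd (m - q) n = 0) {F : Set V}
    (hF : Stuck (fun x i => D ∣ B (x + e i) - B x) (fun x => 4 - c x - lapD D B x) F)
    {x0 : V} (h0 : x0 ∈ F) :
    ∃ F' ⊆ F, x0 ∈ F' ∧ FSCD c D B F' ∧ ∃ C : ℤ, ∀ x ∈ F', |det n x| ≤ C := by
  obtain ⟨D1, hD1, ⟨zq, gq⟩, -, ⟨zm, gm⟩⟩ := ex_grid3 q q m
  have hs : ∀ x i, D ∣ B (x + e i) - B x → D ∣ B (x + e i + e (opp i)) - B (x + e i) :=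
    fun x i h => by
      rw [add_assoc, e_opp, add_zero, ← neg_sub]
      exact dvd_neg.2 h
  obtain ⟨w, p1, k1⟩ := ex_w (T := fun x i => D ∣ B (x + e i) - B x) hp hN hD hD1 hB
    (fun x z i => by rw [dB_per hB]) (fun _ _ h => h) hq gq gm
  obtain ⟨-, a2, -⟩ := comps p1
  obtain ⟨C, hC⟩ := bd_eqv (w := fun x => g2 (w x)) hN a2
  have hu : zm - zq ≠ 0 := fun h => hne (by
    have h1 : zq = zm := (sub_eq_zero.1 h).symm
    rw [h1, ← gm] at gq
    exact smul_right_injective _ (by exact_mod_cast hD1.ne' : (D1 : ℚ) ≠ 0) gq)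
  refine ⟨{x | x ∈ F ∧ g2 (w x) = g2 (w x0)}, fun x hx => hx.1, ⟨h0, rfl⟩, fun x hx => ?_,
    dot n n * (C + |g2 (w x0)|), fun x hx => det_le hn hu (orth gq gm ho) ?_⟩
  · have h1 := hF x hx.1
    have h2 : ∀ i, cd D (B (x + e i) - ind {x | x ∈ F ∧ g2 (w x) = g2 (w x0)} (x + e i) -
        (B x - ind {x | x ∈ F ∧ g2 (w x) = g2 (w x0)} x)) ≤ cd D (B (x + e i) - B x) +
        if D ∣ B (x + e i) - B x ∧ x + e i ∉ F then 1 else 0 := fun i => by
      by_cases hy : x + e i ∈ {x | x ∈ F ∧ g2 (w x) = g2 (w x0)}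
      · rw [ind, ind, if_pos hy, if_pos hx, if_neg (fun h => h.2 hy.1)]
        rw [show B (x + e i) - 1 - (B x - 1) = B (x + e i) - B x by ring, add_zero]
      · rw [ind, ind, if_neg hy, if_pos hx,
          show B (x + e i) - 0 - (B x - 1) = B (x + e i) - B x + 1 by ring, cd_succ hD]
        by_cases hd : D ∣ B (x + e i) - B x
        · rw [if_pos hd, if_pos ⟨hd, fun hy' => hy ⟨hy', by
            rw [tight_eq (T := fun x i => D ∣ B (x + e i) - B x) hD (fun _ _ h => h) hs k1 hd]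
            simpa using hx.2⟩⟩]
        · rw [if_neg hd, if_neg (fun h => hd h.1)]
    have h3 := Finset.sum_le_sum (s := Finset.univ) fun i _ => h2 i
    simp only [Finset.sum_add_distrib] at h3
    simp only [StD, lapD, cnt] at h1 ⊢
    have h4 : (∑ i, if D ∣ B (x + e i) - B x ∧ x + e i ∉ F then (1 : ℤ) else 0) <
      4 - c x - ∑ i, cd D (B (x + e i) - B x) := by convert h1
    linarith
  · have h1 := abs_le.1 (hC x)
    have h2 := hx.2
    have h3 := le_abs_self (g2 (w x0))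
    have h4 := neg_abs_le (g2 (w x0))
    rw [abs_le]
    constructor <;> linarith [h1.1, h1.2]

end Tent

open Tent

theorem tentU_proof (h1 : pot_stmt) (h2 : unpinned_stmt) : tentU_stmt := by
  intro c N m q q' n hc hm hq hq' hn ho ho'
  obtain ⟨D, B, hD, hB, h4⟩ := h2 c N m hc hm
  obtain ⟨τ, ρ, t1, t2⟩ := core (c := c) (T := fun _ _ => False) h1 hc.pos hD hB
    (fun _ _ _ => Iff.rfl) (fun _ _ h => h.elim) (fun _ _ h => h) hq hq' hn ho ho'
    (fun _ => mk2 0 0) ⟨_, _, AM.const 0, AM.const 0, rfl⟩ (fun x => by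
      have := h4 x
      simp only [cnt, false_and, if_false, Finset.sum_const_zero]
      omega)
  exact ⟨τ, ρ, t1, t2 fun C F _ hF => ⟨hF.some, hF.some_mem, fun _ _ => le_rfl⟩⟩

theorem tentP_proof (h1 : pot_stmt) (h2 : rank_stmt) : tentP_stmt := by
  intro c N D B m q q' n hc hD hB hq hq' hne hn ho ho'
  have hN := hc.pos
  have hs : ∀ x i, D ∣ B (x + e i) - B x → D ∣ B (x + e i + e (opp i)) - B (x + e i) :=
    fun x i h => by
      rw [add_assoc, e_opp, add_zero, ← neg_sub]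
      exact dvd_neg.2 h
  have hR : RankHyp (N • (1, 0)) (N • (0, 1)) Set.univ (fun x i => D ∣ B (x + e i) - B x)
      (fun x => 4 - c x - lapD D B x) := by
    refine ⟨fun x => by simp, fun x _ i => ⟨by simp only [dB_per hB], by simp only [dB_per hB]⟩,
      fun x _ => ⟨?_, ?_⟩, fun _ _ _ _ => trivial, box N, fun x _ => ⟨x.1 / N, x.2 / N, ?_⟩⟩
    · simp only [lapD, dB_per hB, hc.per]
    · simp only [lapD, dB_per hB, hc.per]
    · convert mem_box hN x using 1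
      ext <;> simp [Int.emod_def, mul_comm]
  have key : (∀ F ⊆ Set.univ, (∃ C : ℤ, ∀ x ∈ F, |dot n x| ≤ C) →
      Stuck (fun x i => D ∣ B (x + e i) - B x) (fun x => 4 - c x - lapD D B x) F → F = ∅) →
      ∃ τ ρ, IsTent c q q' τ ρ ∧ ((∀ F ⊆ Set.univ, IHalf n F →
        Stuck (fun x i => D ∣ B (x + e i) - B x) (fun x => 4 - c x - lapD D B x) F → F = ∅) →
        WFdir n ρ) := fun h => by
    obtain ⟨r, r1, r2, -, r4⟩ := h2 _ _ n _ _ _ hR h
    obtain ⟨τ, ρ, t1, t2⟩ := core (c := c) (T := fun x i => D ∣ B (x + e i) - B x) h1 hN hD hB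
      (fun x z i => by rw [dB_per hB]) (fun _ _ h => h) hs hq hq' hn ho ho' r r1
      (fun x => r2 x trivial)
    exact ⟨τ, ρ, t1, fun h' => t2 fun C => wf_mono (r4 h' C) fun x hx => ⟨trivial, hx⟩⟩
  constructor
  · intro hf
    obtain ⟨τ, ρ, t1, -⟩ := key fun F _ ⟨C, hC⟩ hF => by
      refine Set.eq_empty_of_forall_notMem fun x0 h0 => ?_
      obtain ⟨F', s1, s2, s3, C', s4⟩ := comp_band h1 hN hD hB hq hne hn ho hF h0
      have := hf F' ((fin_box hn (max C C')).subset fun x hx =>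
        ⟨(s4 x hx).trans (le_max_right _ _), (hC x (s1 hx)).trans (le_max_left _ _)⟩) s3
      rw [this] at s2
      exact s2
    exact ⟨τ, ρ, t1⟩
  · intro hf
    have hh : ∀ F ⊆ Set.univ, IHalf n F →
        Stuck (fun x i => D ∣ B (x + e i) - B x) (fun x => 4 - c x - lapD D B x) F → F = ∅ :=
      fun F _ ⟨C, hC⟩ hF => by
        refine Set.eq_empty_of_forall_notMem fun x0 h0 => ?_
        obtain ⟨F', s1, s2, s3, C', s4⟩ := comp_band h1 hN hD hB hq hne hn ho hF h0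
        have := hf F' ⟨max C C', fun x hx => ⟨(s4 x hx).trans (le_max_right _ _),
          (neg_le_neg (le_max_left _ _)).trans (hC x (s1 hx))⟩⟩ s3
        rw [this] at s2
        exact s2
    obtain ⟨τ, ρ, t1, t2⟩ := key fun F hu ⟨C, hC⟩ hF =>
      hh F hu ⟨C, fun x hx => (abs_le.1 (hC x hx)).1⟩ hF
    exact ⟨τ, ρ, t1, t2 hh⟩

end Pool.Agent.Sand
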