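import Pool.Agent.Lib.MP_215a10_lc.Dec.Stmts
import Pool.Agent.Lib.MP_215a10_lc.Dec.Once

/-! The trichotomy lemma `triA`: a forbidden set in a half plane gives a step or a band. -/

set_option autoImplicit false

namespace Pool.Agent.Sand.TriA

open Classical

theorem cnt_mono {P Q : Fin 4 → Prop} (h : ∀ i, P i → Q i) : cnt P ≤ cnt Q := by
  unfold cnt
  refine Finset.sum_le_sum fun i _ => ?_
  by_cases hp : P i
  · simp [hp, h i hp]
  · by_cases hq : Q i <;> simp [hp, hq]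

theorem cnt_zero {P : Fin 4 → Prop} (h : ∀ i, ¬ P i) : cnt P = 0 := by
  unfold cnt
  simp [h]

theorem e_opp (x : V) (i : Fin 4) : x = x + e i + e (opp i) := by
  fin_cases i <;> simp [e, opp, add_assoc]

theorem n1_e (i : Fin 4) : n1 (e i) = 1 := by
  fin_cases i <;> simp [e, n1]

theorem n1_add_le (a b : V) : n1 (a + b) ≤ n1 a + n1 b := by
  unfold n1
  have h1 := abs_add_le a.1 b.1
  have h2 := abs_add_le a.2 b.2
  simp only [Prod.fst_add, Prod.snd_add]
  linarith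

theorem disp_cons (i : Fin 4) (l : List (Fin 4)) : disp (i :: l) = e i + disp l := by
  simp [disp]

theorem n1_disp (l : List (Fin 4)) : n1 (disp l) ≤ l.length := by
  induction l with
  | nil => simp [disp, n1]
  | cons i l ih =>
    rw [disp_cons]
    have h := n1_add_le (e i) (disp l)
    rw [n1_e] at h
    simp only [List.length_cons]
    push_cast
    linarith

noncomputable def box (N : ℤ) : Finset V := Finset.Ico 0 N ×ˢ Finset.Ico 0 N

theorem red {N : ℤ} (hN : 0 < N) (x : V) : ∃ y ∈ box N, ∃ z : V, x = y + N • z := by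
  refine ⟨(x.1 % N, x.2 % N), ?_, (x.1 / N, x.2 / N), ?_⟩
  · simp [box, Int.emod_nonneg _ hN.ne', Int.emod_lt_of_pos _ hN]
  · ext <;> simp [Int.emod_add_mul_ediv]

theorem rd_add (η : ℝ × ℝ) (x y : V) : rd η (x + y) = rd η x + rd η y := by
  simp only [rd, Prod.fst_add, Prod.snd_add]
  push_cast
  ring

theorem rd_e (η : ℝ × ℝ) (i : Fin 4) : -(|η.1| + |η.2|) ≤ rd η (e i) := by
  have h1 := neg_abs_le η.1
  have h2 := neg_abs_le η.2
  have h3 := le_abs_self η.1
  have h4 := le_abs_self η.2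
  have h5 := abs_nonneg η.1
  have h6 := abs_nonneg η.2
  fin_cases i <;> simp [e, rd] <;> linarith

/-- periodicity of the sand configuration -/
def Per (c φ : V → ℤ) (N : ℤ) : Prop :=
  ∀ x z : V, c (x + N • z) + lap φ (x + N • z) = c x + lap φ x

theorem per_of {c φ : V → ℤ} {N0 N : ℤ} {p : Q2} (hc : IsBG c N0) (hd : N0 ∣ N)
    (hE : Eqv N p φ) : Per c φ N := by
  intro x z
  obtain ⟨k, rfl⟩ := hd
  have h1 : c (x + (N0 * k) • z) = c x := by
    rw [mul_smul]
    exact hc.per x (k • z)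
  rw [h1]
  congr 1
  unfold lap
  refine Finset.sum_congr rfl fun i _ => ?_
  have h2 := hE (x + e i) z
  have h3 := hE x z
  have h4 : x + (N0 * k) • z + e i = x + e i + (N0 * k) • z := by abel
  rw [h4]
  have : ((φ (x + e i + (N0 * k) • z) - φ (x + (N0 * k) • z) : ℤ) : ℚ)
      = ((φ (x + e i) - φ x : ℤ) : ℚ) := by
    push_cast at h2 h3 ⊢
    rw [h2, h3]
    ring
  exact_mod_cast this

theorem fsc_shift {c φ : V → ℤ} {N : ℤ} (hp : Per c φ N) {F : Set V} (hF : FSC c φ F) (z : V) :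
    FSC c φ {y | y + N • z ∈ F} := by
  intro x hx
  have h := hF _ hx
  rw [hp x z] at h
  refine le_trans ?_ h
  refine add_le_add le_rfl (cnt_mono fun i hi => ?_)
  have h4 : x + N • z + e i = x + e i + N • z := by abel
  rw [h4]
  exact hi

theorem fscd_of {c φ : V → ℤ} {F : Set V} (hF : FSC c φ F) : FSCD c 1 φ F := by
  intro x hx
  have h := hF x hx
  unfold StD lapD
  unfold lap cnt at h
  rw [add_assoc, ← Finset.sum_add_distrib] at h
  refine le_trans (le_of_eq ?_) h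
  congr 1
  refine Finset.sum_congr rfl fun i _ => ?_
  by_cases hi : x + e i ∈ F
  · simp [cd, ind, hx, hi]
  · simp [cd, ind, hx, hi]
    ring

/-- union of the forbidden sets in the half plane `s ≤ η·x` -/
def U (c φ : V → ℤ) (η : ℝ × ℝ) (s : ℝ) : Set V :=
  {x | ∃ F, FSC c φ F ∧ (∀ y ∈ F, s ≤ rd η y) ∧ x ∈ F}

/-- union of all forbidden sets that are bounded below in the direction `η` -/
def A (c φ : V → ℤ) (η : ℝ × ℝ) : Set V := {x | ∃ s, x ∈ U c φ η s}

variable {c φ : V → ℤ} {N : ℤ} {η : ℝ × ℝ}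

theorem U_fsc (s : ℝ) : FSC c φ (U c φ η s) := by
  rintro x ⟨F, hF, hs, hx⟩
  refine le_trans (add_le_add le_rfl (cnt_mono fun i hi => ?_)) (hF x hx)
  exact fun hm => hi ⟨F, hF, hs, hm⟩

theorem U_le {s : ℝ} {x : V} (hx : x ∈ U c φ η s) : s ≤ rd η x := by
  obtain ⟨F, _, hs, hx⟩ := hx
  exact hs x hx

theorem U_mono {s t : ℝ} (h : s ≤ t) {x : V} (hx : x ∈ U c φ η t) : x ∈ U c φ η s := by
  obtain ⟨F, hF, hs, hx⟩ := hx
  exact ⟨F, hF, fun y hy => h.trans (hs y hy), hx⟩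

theorem U_shift (hp : Per c φ N) {s : ℝ} {x : V} (hx : x ∈ U c φ η s) (z : V) :
    x + N • z ∈ U c φ η (s + rd η (N • z)) := by
  obtain ⟨F, hF, hs, hx⟩ := hx
  refine ⟨{y | y + N • (-z) ∈ F}, fsc_shift hp hF _, fun y hy => ?_, ?_⟩
  · have h := hs _ hy
    have h2 : y = y + N • (-z) + N • z := by simp
    rw [h2, rd_add]
    linarith
  · show x + N • z + N • (-z) ∈ F
    simpa using hx

theorem A_fsc : FSC c φ (A c φ η) := by
  rintro x ⟨s, hx⟩
  refine le_trans (add_le_add le_rfl (cnt_mono fun i hi => ?_)) (U_fsc s x hx)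
  exact fun hm => hi ⟨s, hm⟩

theorem A_per (hp : Per c φ N) (x z : V) : x + N • z ∈ A c φ η ↔ x ∈ A c φ η := by
  constructor
  · rintro ⟨s, hs⟩
    have h := U_shift hp hs (-z)
    have h2 : x + N • z + N • (-z) = x := by simp
    rw [h2] at h
    exact ⟨_, h⟩
  · rintro ⟨s, hs⟩
    exact ⟨_, U_shift hp hs z⟩

theorem A_unif (hN : 0 < N) (hp : Per c φ N) :
    ∃ d : ℝ, ∀ y ∈ A c φ η, y ∈ U c φ η (rd η y + d) := by
  have h1 : ∀ y : V, ∃ d : ℝ, y ∈ A c φ η → y ∈ U c φ η (rd η y + d) := by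
    intro y
    by_cases hy : y ∈ A c φ η
    · obtain ⟨s, hs⟩ := hy
      refine ⟨s - rd η y, fun _ => ?_⟩
      simpa using hs
    · exact ⟨0, fun h => absurd h hy⟩
  choose d hd using h1
  obtain ⟨m, hm⟩ := ((box N).finite_toSet.image d).bddBelow
  refine ⟨m, fun y hy => ?_⟩
  obtain ⟨y0, hy0, z, rfl⟩ := red hN y
  have h0 : y0 ∈ A c φ η := (A_per hp y0 z).1 hy
  have h2 := U_shift hp (hd y0 h0) z
  have h3 : m ≤ d y0 := hm ⟨y0, hy0, rfl⟩
  refine U_mono ?_ h2
  rw [rd_add]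
  linarith

/-- a set bounded below that is forbidden relative to `A` lies in `A` -/
theorem absorb (hN : 0 < N) (hp : Per c φ N) {F : Set V} {s : ℝ} (hs : ∀ y ∈ F, s ≤ rd η y)
    (hF : ∀ x ∈ F, c x + lap φ x + cnt (fun i => x + e i ∉ F ∧ x + e i ∉ A c φ η) ≤ 3) :
    F ⊆ A c φ η := by
  obtain ⟨d, hd⟩ := A_unif (η := η) hN hp
  set t : ℝ := s - (|η.1| + |η.2|) + d with ht
  intro x hx
  refine ⟨min s t, U c φ η t ∪ F, ?_, ?_, Or.inr hx⟩
  · rintro y (hy | hy)
    · refine le_trans (add_le_add le_rfl (cnt_mono fun i hi => ?_)) (U_fsc t y hy)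
      exact fun hm => hi (Or.inl hm)
    · refine le_trans (add_le_add le_rfl (cnt_mono fun i hi => ?_)) (hF y hy)
      refine ⟨fun hm => hi (Or.inr hm), fun hm => hi (Or.inl (U_mono ?_ (hd _ hm)))⟩
      have h1 := hs y hy
      have h2 := rd_e η i
      rw [rd_add]
      linarith
  · rintro y (hy | hy)
    · exact (min_le_right _ _).trans (U_le hy)
    · exact (min_le_left _ _).trans (hs y hy)

/-! ### the case where everything is forbidden -/

theorem wok_le {O : V → Fin 4 → Prop} {w : V → ℝ} (h : ∀ x i, O x i → w x ≤ w (x + e i)) :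
    ∀ (l : List (Fin 4)) (x : V), wok O x l → w x ≤ w (x + disp l) := by
  intro l
  induction l with
  | nil => intro x _; simp [disp]
  | cons i l ih =>
    intro x hx
    have h1 := h x i hx.1
    have h2 := ih _ hx.2
    rw [disp_cons, ← add_assoc]
    linarith

theorem wwt_zero (l : List (Fin 4)) : ∀ x : V, wwt (fun _ _ => (0 : ℤ)) x l = 0 := by
  induction l with
  | nil => intro x; rfl
  | cons i l ih => intro x; simp [wwt, ih]

def dotHom (a : V) : V →+ ℤ where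
  toFun := dot a
  map_zero' := by simp [dot]
  map_add' x y := by simp only [dot, Prod.fst_add, Prod.snd_add]; ring

theorem case_univ (hpot : pot_stmt) (hcone : cone_stmt) (hN : 0 < N) (hp : Per c φ N) {ν : V}
    (hν : 0 < rd η ν) (hA : ∀ x, x ∈ A c φ η) :
    ∃ ζ, ζ ≠ 0 ∧ n1 ζ ≤ N ^ 2 + 1 ∧ StepF c φ ζ ∧ dot ζ ν < 0 := by
  set w : V → ℝ := fun x => sSup {s | x ∈ U c φ η s} with hw
  have hbd : ∀ x, BddAbove {s | x ∈ U c φ η s} := fun x => ⟨rd η x, fun s hs => U_le hs⟩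
  have hne : ∀ x, {s | x ∈ U c φ η s}.Nonempty := fun x => hA x
  have hle : ∀ x s, x ∈ U c φ η s → s ≤ w x := fun x s hs => le_csSup (hbd x) hs
  have hlt : ∀ x s, s < w x → x ∈ U c φ η s := by
    intro x s hs
    obtain ⟨t, ht, hst⟩ := exists_lt_of_lt_csSup (hne x) hs
    exact U_mono hst.le ht
  have hsh1 : ∀ x z, w x + rd η (N • z) ≤ w (x + N • z) := by
    intro x z
    have : w x ≤ w (x + N • z) - rd η (N • z) := by
      refine csSup_le (hne x) fun s hs => ?_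
      have := hle _ _ (U_shift hp hs z)
      linarith
    linarith
  have hsh : ∀ x z, w (x + N • z) = w x + rd η (N • z) := by
    intro x z
    refine le_antisymm ?_ (hsh1 x z)
    have h1 := hsh1 (x + N • z) (-z)
    have h2 : x + N • z + N • (-z) = x := by simp
    have h3 : rd η (N • z) + rd η (N • (-z)) = 0 := by
      rw [← rd_add]
      simp [rd]
    rw [h2] at h1
    linarith
  set O : V → Fin 4 → Prop := fun x i => w x ≤ w (x + e i) with hO
  have hOper : ∀ x z i, O (x + N • z) i ↔ O x i := by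
    intro x z i
    have h4 : x + N • z + e i = x + e i + N • z := by abel
    simp only [hO]
    rw [h4, hsh, hsh]
    simp
  have hOc : ∀ x, c x + lap φ x + cnt (fun i => ¬ O x i) ≤ 3 := by
    intro x
    have h1 : ∃ s, s < w x ∧ ∀ i, ¬ O x i → w (x + e i) < s := by
      have h2 : ∀ i, ∃ s, s < w x ∧ (¬ O x i → w (x + e i) < s) := by
        intro i
        by_cases hi : O x i
        · exact ⟨w x - 1, by linarith, fun h => absurd hi h⟩
        · have : w (x + e i) < w x := not_le.1 hi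
          exact ⟨(w x + w (x + e i)) / 2, by linarith, fun _ => by linarith⟩
      choose s hs using h2
      obtain ⟨i0, hi0⟩ := Finite.exists_max s
      exact ⟨s i0, (hs i0).1, fun i hi => ((hs i).2 hi).trans_le (hi0 i)⟩
    obtain ⟨s, hs, hs2⟩ := h1
    refine le_trans (add_le_add le_rfl (cnt_mono fun i hi => ?_)) (U_fsc s x (hlt x s hs))
    exact fun hm => absurd (hle _ _ hm) (not_le.2 (hs2 i hi))
  obtain ⟨η', hn, hν', hC⟩ := hcone (N ^ 2)
    {a | ∃ x l z, wok O x l ∧ (l.length : ℤ) ≤ N ^ 2 ∧ disp l = N • z ∧ a = disp l} η ν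
    (by positivity) (by
      rintro a ⟨x, l, z, _, hl, _, rfl⟩
      exact (n1_disp l).trans hl) (by
      rintro a ⟨x, l, z, hok, _, hz, rfl⟩
      have h1 := wok_le (O := O) (w := w) (fun x i h => h) l x hok
      rw [hz, hsh] at h1
      rw [hz]
      linarith) hν
  obtain ⟨v, hv1, hv2⟩ := hpot ℤ N O (fun _ _ => 0) (dotHom η') hN hOper (fun _ _ _ => rfl) (by
    intro x l z hok hl hz
    rw [wwt_zero]
    exact hC _ ⟨x, l, z, hok, hl, hz, rfl⟩)
  obtain ⟨m, hm⟩ := ((box N).finite_toSet.image fun y => |v y - dot η' y|).bddAbove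
  have hb : ∀ x, |v x - dot η' x| ≤ m := by
    intro x
    obtain ⟨y, hy, z, rfl⟩ := red hN x
    have h1 : |v y - dot η' y| ≤ m := hm ⟨y, hy, rfl⟩
    have h2 : dot η' (y + N • z) = dot η' y + dot η' (N • z) := (dotHom η').map_add _ _
    have h3 : v (y + N • z) = v y + dot η' (N • z) := hv1 y z
    rw [h2, h3]
    simpa using h1
  have hneg : ∀ x, dot (-η') x = -dot η' x := fun x => by simp only [dot, Prod.fst_neg, Prod.snd_neg]; ring
  refine ⟨-η', ?_, ?_, ⟨m + 1, {x | 0 < v x}, ?_, ?_, ?_⟩, ?_⟩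
  · intro h
    have : η' = 0 := neg_eq_zero.1 h
    rw [this] at hν'
    simp [dot] at hν'
  · simpa [n1] using hn
  · intro x hx
    refine le_trans (add_le_add le_rfl (cnt_mono fun i hi => ?_)) (hOc x)
    intro ho
    have h1 := hv2 x i ho
    have h2 : 0 < v x := hx
    exact hi (show 0 < v (x + e i) by linarith)
  · intro x hx
    have h1 := abs_le.1 (hb x)
    rw [hneg] at hx
    show 0 < v x
    linarith [h1.1]
  · intro x hx
    have h1 := abs_le.1 (hb x)
    have h2 : 0 < v x := hx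
    rw [hneg]
    linarith [h1.2]
  · rw [hneg]
    linarith

/-! ### connectivity -/

theorem conn_mem {B : Set V} {x y : V} (hx : x ∈ B) (h : Conn B x y) : y ∈ B := by
  induction h with
  | refl => exact hx
  | tail _ h _ => exact h.2.1

theorem conn_step {B : Set V} {x y : V} (h : Conn B x y) (hy : y ∈ B) (i : Fin 4)
    (hi : y + e i ∈ B) : Conn B x (y + e i) :=
  Relation.ReflTransGen.tail h ⟨hy, hi, i, rfl⟩

theorem conn_shift {B : Set V} {T : V} (hT : ∀ x, x + T ∈ B ↔ x ∈ B) {x y : V} (h : Conn B x y) :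
    Conn B (x + T) (y + T) := by
  induction h with
  | refl => exact Relation.ReflTransGen.refl
  | tail _ h ih =>
    obtain ⟨h1, h2, i, rfl⟩ := h
    exact Relation.ReflTransGen.tail ih ⟨(hT _).2 h1, (hT _).2 h2, i, by abel⟩

/-- the component of `x` in `B`, saturated by the multiples of `N • τ` -/
def Sat (B : Set V) (N : ℤ) (τ x : V) : Set V := {y | ∃ j : ℤ, Conn B (x + N • (j • τ)) y}

theorem sat_sub {B : Set V} (hB : ∀ x z, x + N • z ∈ B ↔ x ∈ B) {τ x : V} (hx : x ∈ B) :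
    Sat B N τ x ⊆ B := by
  rintro y ⟨j, hj⟩
  exact conn_mem ((hB _ _).2 hx) hj

theorem sat_step {B : Set V} (hB : ∀ x z, x + N • z ∈ B ↔ x ∈ B) {τ x : V} (hx : x ∈ B) {y : V}
    (hy : y ∈ Sat B N τ x) (i : Fin 4) (hi : y + e i ∈ B) : y + e i ∈ Sat B N τ x := by
  have h := sat_sub hB hx hy
  obtain ⟨j, hj⟩ := hy
  exact ⟨j, conn_step hj h i hi⟩

theorem sat_per {B : Set V} (hB : ∀ x z, x + N • z ∈ B ↔ x ∈ B) (τ x y : V) :
    y + N • τ ∈ Sat B N τ x ↔ y ∈ Sat B N τ x := by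
  constructor
  · rintro ⟨j, hj⟩
    have h := conn_shift (fun u => hB u (-τ)) hj
    refine ⟨j - 1, ?_⟩
    have h1 : x + N • (j • τ) + N • (-τ) = x + N • ((j - 1) • τ) := by module
    have h2 : y + N • τ + N • (-τ) = y := by simp
    rwa [h1, h2] at h
  · rintro ⟨j, hj⟩
    have h := conn_shift (fun u => hB u τ) hj
    refine ⟨j + 1, ?_⟩
    have h1 : x + N • (j • τ) + N • τ = x + N • ((j + 1) • τ) := by module
    rwa [h1] at h

theorem sat_zero {B : Set V} {τ x y : V} (h : Conn B x y) : y ∈ Sat B N τ x := by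
  refine ⟨0, ?_⟩
  rw [zero_smul, smul_zero, add_zero]
  exact h

theorem sat_conn {B : Set V} {τ x y : V} (h : Conn B x y) : Conn (Sat B N τ x) x y := by
  induction h with
  | refl => exact Relation.ReflTransGen.refl
  | tail h0 h ih =>
    exact Relation.ReflTransGen.tail ih
      ⟨sat_zero h0, sat_zero (Relation.ReflTransGen.tail h0 h), h.2.2⟩

theorem sat_band {B : Set V} {τ ν x : V} {C : ℤ} (hτ : τ ≠ 0) (hd : det τ ν = 0)
    (hC : ∀ x y, Conn B x y → |det τ (y - x)| ≤ C) : IBand ν (Sat B N ν x) := by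
  refine ⟨|dot τ ν| * C + |det ν x|, ?_⟩
  rintro y ⟨j, hj⟩
  have h1 := hC _ _ hj
  set u : V := y - (x + N • (j • ν)) with hu
  have h2 : det ν y = det ν u + det ν x := by
    simp only [hu, det, Prod.fst_sub, Prod.snd_sub, Prod.fst_add, Prod.snd_add, Prod.smul_fst,
      Prod.smul_snd, smul_eq_mul]
    ring
  have h3 : dot τ τ * det ν u = dot τ ν * det τ u := by
    unfold det at hd
    unfold dot det
    linear_combination (-(τ.1 * u.1 + τ.2 * u.2)) * hd
  have h4 : 1 ≤ dot τ τ := by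
    by_contra hlt
    apply hτ
    unfold dot at hlt
    ext
    · show τ.1 = 0
      nlinarith [mul_self_nonneg τ.1, mul_self_nonneg τ.2, sq_nonneg τ.1]
    · show τ.2 = 0
      nlinarith [mul_self_nonneg τ.1, mul_self_nonneg τ.2, sq_nonneg τ.2]
  have h5 : |det ν u| ≤ |dot τ ν| * C := by
    have h6 : dot τ τ * |det ν u| = |dot τ ν| * |det τ u| := by
      rw [← abs_mul, ← h3, abs_mul, abs_of_pos (by linarith : 0 < dot τ τ)]
    have h7 : |dot τ ν| * |det τ u| ≤ |dot τ ν| * C :=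
      mul_le_mul_of_nonneg_left h1 (abs_nonneg _)
    nlinarith [abs_nonneg (det ν u)]
  rw [h2]
  exact (abs_add_le _ _).trans (by linarith)

theorem dot_rot (τ x : V) : dot (rot τ) x = det τ x := by
  simp only [dot, rot, det]
  ring

/-- a forbidden periodic set with infinite components in lanes gives a step -/
theorem step_of (hsep : separate_stmt) (hN : 0 < N) (hst : Stable c φ) {B : Set V}
    (hB : ∀ x z, x + N • z ∈ B ↔ x ∈ B) (hF : FSC c φ B) {x0 : V} (hx0 : x0 ∈ B)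
    (hinf : {y | Conn B x0 y}.Infinite) {τ : V} {C : ℤ} (hτ : τ ≠ 0)
    (hC : ∀ x y, Conn B x y → |det τ (y - x)| ≤ C) : StepF c φ (rot τ) := by
  set F0 : Set V := Sat B N τ x0 with hF0
  have hband : IBand τ F0 := sat_band hτ (by simp only [det]; ring) hC
  obtain ⟨C1, hC1⟩ := hsep τ (N • τ) F0 hτ (smul_ne_zero hN.ne' hτ)
    (by simp only [det, Prod.smul_fst, Prod.smul_snd, smul_eq_mul]; ring) hband (sat_per hB τ x0)
    ⟨x0, sat_zero Relation.ReflTransGen.refl,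
      hinf.mono fun y hy => sat_conn hy⟩
  obtain ⟨C0, hC0⟩ := hband
  set C2 : ℤ := max C1 (C0 + 1) with hC2
  have hout : ∀ x y, C2 ≤ det τ x → Conn F0ᶜ x y → y ∈ F0ᶜ := by
    intro x y hx h
    refine conn_mem (fun hm => ?_) h
    have h1 := (abs_le.1 (hC0 x hm)).2
    have h2 := le_max_right C1 (C0 + 1)
    linarith
  refine ⟨C2, {y | ¬ ∃ x, C2 ≤ det τ x ∧ Conn F0ᶜ x y}, ?_, ?_, ?_⟩
  · intro y hy
    by_cases hy0 : y ∈ F0
    · refine le_trans (add_le_add le_rfl (cnt_mono fun i hi => ?_)) (hF y (sat_sub hB hx0 hy0))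
      intro hm
      obtain ⟨x, hx, h⟩ := not_not.1 hi
      exact hout x _ hx h (sat_step hB hx0 hy0 i hm)
    · rw [cnt_zero, add_zero]
      · exact hst y
      · intro i hi
        obtain ⟨x, hx, h⟩ := not_not.1 hi
        refine hy ⟨x, hx, ?_⟩
        rw [e_opp y i]
        refine conn_step h (hout x _ hx h) _ ?_
        rw [← e_opp y i]
        exact hy0
  · rintro y hy ⟨x, hx, h⟩
    rw [dot_rot] at hy
    have h2 := le_max_left C1 (C0 + 1)
    exact hC1 x y h (by linarith) (by linarith)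
  · intro y hy
    rw [dot_rot]
    by_contra hlt
    exact hy ⟨y, (not_le.1 hlt).le, Relation.ReflTransGen.refl⟩

theorem per_finite (hN : 0 < N) : {B : Set V | ∀ x z, x + N • z ∈ B ↔ x ∈ B}.Finite := by
  refine Set.Finite.of_finite_image (f := fun B => B ∩ (box N : Set V))
    ((box N).finite_toSet.finite_subsets.subset ?_) ?_
  · rintro _ ⟨B, _, rfl⟩
    exact Set.inter_subset_right
  · intro B hB B' hB' h
    ext x
    obtain ⟨y, hy, z, rfl⟩ := red hN x
    rw [hB y z, hB' y z]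
    have h1 : y ∈ B ∩ (box N : Set V) ↔ y ∈ B' ∩ (box N : Set V) := by
      have h2 : B ∩ (box N : Set V) = B' ∩ (box N : Set V) := h
      rw [h2]
    simpa [hy] using h1

/-- lane directions can be chosen bounded -/
theorem lanes_bdd (hN : 0 < N) : ∃ r : ℤ, ∀ B : Set V, (∀ x z, x + N • z ∈ B ↔ x ∈ B) →
    (∃ τ : V, τ ≠ 0 ∧ ∃ C : ℤ, ∀ x y, (Conn B x y ∨ Conn Bᶜ x y) → |det τ (y - x)| ≤ C) →
    ∃ τ : V, n1 τ ≤ r ∧ τ ≠ 0 ∧
      ∃ C : ℤ, ∀ x y, (Conn B x y ∨ Conn Bᶜ x y) → |det τ (y - x)| ≤ C := by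
  have h1 : ∀ B : Set V, ∃ τ : V,
      (∃ τ : V, τ ≠ 0 ∧ ∃ C : ℤ, ∀ x y, (Conn B x y ∨ Conn Bᶜ x y) → |det τ (y - x)| ≤ C) →
      τ ≠ 0 ∧ ∃ C : ℤ, ∀ x y, (Conn B x y ∨ Conn Bᶜ x y) → |det τ (y - x)| ≤ C := by
    intro B
    by_cases h : ∃ τ : V, τ ≠ 0 ∧
        ∃ C : ℤ, ∀ x y, (Conn B x y ∨ Conn Bᶜ x y) → |det τ (y - x)| ≤ C
    · obtain ⟨τ, hτ⟩ := h
      exact ⟨τ, fun _ => hτ⟩
    · exact ⟨0, fun h' => absurd h' h⟩
  choose t ht using h1
  obtain ⟨r, hr⟩ := ((per_finite hN).image fun B => n1 (t B)).bddAbove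
  exact ⟨r, fun B hB h => ⟨t B, hr ⟨B, hB, rfl⟩, ht B h⟩⟩

theorem half_bdd {ν : V} (hν0 : ν ≠ 0) (hν : 0 < rd η ν) {F : Set V} (h1 : IHalf ν F)
    (h2 : IBand ν F) : ∃ s : ℝ, ∀ y ∈ F, s ≤ rd η y := by
  obtain ⟨C, hC⟩ := h1
  obtain ⟨C', hC'⟩ := h2
  have hpos : (0 : ℝ) < (ν.1 : ℝ) ^ 2 + (ν.2 : ℝ) ^ 2 := by
    by_contra hle
    apply hν0
    have h3 : (ν.1 : ℝ) = 0 := by nlinarith [sq_nonneg (ν.1 : ℝ), sq_nonneg (ν.2 : ℝ)]
    have h4 : (ν.2 : ℝ) = 0 := by nlinarith [sq_nonneg (ν.1 : ℝ), sq_nonneg (ν.2 : ℝ)]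
    ext
    · exact_mod_cast h3
    · exact_mod_cast h4
  refine ⟨(-C * rd η ν - C' * |rd η (rot ν)|) / ((ν.1 : ℝ) ^ 2 + (ν.2 : ℝ) ^ 2), fun y hy => ?_⟩
  rw [div_le_iff₀ hpos]
  have h3 : rd η y * ((ν.1 : ℝ) ^ 2 + (ν.2 : ℝ) ^ 2)
      = (dot ν y : ℝ) * rd η ν + (det ν y : ℝ) * rd η (rot ν) := by
    simp only [rd, dot, det, rot]
    push_cast
    ring
  have h4 : (-C : ℝ) ≤ (dot ν y : ℝ) := by exact_mod_cast hC y hy
  have h5 : |(det ν y : ℝ)| ≤ (C' : ℝ) := by exact_mod_cast hC' y hy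
  have h6 : -C * rd η ν ≤ (dot ν y : ℝ) * rd η ν := mul_le_mul_of_nonneg_right h4 hν.le
  have h7 : |(det ν y : ℝ) * rd η (rot ν)| ≤ C' * |rd η (rot ν)| := by
    rw [abs_mul]
    exact mul_le_mul_of_nonneg_right h5 (abs_nonneg _)
  have h8 := (abs_le.1 h7).1
  rw [h3]
  linarith

end Pool.Agent.Sand.TriA

namespace Pool.Agent.Sand

open TriA

theorem triA_proof (hpot : pot_stmt) (hcone : cone_stmt) (hlanes : lanes_stmt)
    (hsep : separate_stmt) : triA_stmt := by
  intro c N0 N hc hN hd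
  obtain ⟨r, hr⟩ := lanes_bdd hN
  refine ⟨max r (N ^ 2 + 1), fun φ p ν hst hE hfree hν0 hH => ?_⟩
  have hp : Per c φ N := per_of hc hd hE
  unfold Hnu at hH
  push Not at hH
  obtain ⟨η, hν, F1, hF1, hpos, x0, hx0⟩ := hH
  have hx0A : x0 ∈ A c φ η := ⟨0, F1, hF1, fun y hy => (hpos y hy).le, hx0⟩
  by_cases hA : ∀ x, x ∈ A c φ η
  · obtain ⟨ζ, h1, h2, h3, h4⟩ := case_univ hpot hcone hN hp hν hA
    exact Or.inl ⟨ζ, h1, h2.trans (le_max_right _ _), h3, h4⟩
  push Not at hA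
  obtain ⟨x1, hx1⟩ := hA
  have hper := A_per (η := η) hp
  have hperc : ∀ x z, x + N • z ∈ (A c φ η)ᶜ ↔ x ∈ (A c φ η)ᶜ := fun x z => not_congr (hper x z)
  have hinf : ∀ x ∈ A c φ η, {y | Conn (A c φ η) x y}.Infinite := by
    intro x hx hfin
    have h1 : FSC c φ {y | Conn (A c φ η) x y} := by
      intro y hy
      have hyA := conn_mem hx hy
      refine le_trans (add_le_add le_rfl (cnt_mono fun i hi => ?_)) (A_fsc y hyA)
      exact fun hm => hi (conn_step hy hyA i hm)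
    have h2 := hfree _ hfin (fscd_of h1)
    have h3 : x ∈ {y | Conn (A c φ η) x y} := Relation.ReflTransGen.refl
    rw [h2] at h3
    exact h3
  have hinfc : ∀ x ∈ (A c φ η)ᶜ, {y | Conn (A c φ η)ᶜ x y}.Infinite := by
    intro x hx hfin
    obtain ⟨s, hs⟩ := (hfin.image (rd η)).bddBelow
    have h1 : {y | Conn (A c φ η)ᶜ x y} ⊆ A c φ η := by
      refine absorb hN hp (s := s) (fun y hy => hs ⟨y, hy, rfl⟩) fun y hy => ?_
      rw [cnt_zero, add_zero]
      · exact hst y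
      · exact fun i hi => hi.1 (conn_step hy (conn_mem hx hy) i hi.2)
    exact hx (h1 Relation.ReflTransGen.refl)
  obtain ⟨τ, hτr, hτ, C, hC⟩ := hr _ hper (hlanes N _ hN hper ⟨x0, hx0A⟩ ⟨x1, hx1⟩ hinf hinfc)
  have hrot : ∀ t : V, t ≠ 0 → rot t ≠ 0 := by
    intro t ht h
    apply ht
    have h1 : -t.2 = 0 := congrArg Prod.fst h
    have h2 : t.1 = 0 := congrArg Prod.snd h
    ext
    · exact h2
    · exact neg_eq_zero.1 h1
  rcases lt_trichotomy (det τ ν) 0 with hlt | heq | hgt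
  · refine Or.inl ⟨rot τ, hrot τ hτ, le_trans ?_ (hτr.trans (le_max_left _ _)),
      step_of hsep hN hst hper A_fsc hx0A (hinf x0 hx0A) hτ (fun x y h => hC x y (Or.inl h)), ?_⟩
    · simp [n1, rot, add_comm]
    · rwa [dot_rot]
  · refine Or.inr ⟨Sat (A c φ η)ᶜ N ν x1, ⟨x1, sat_zero Relation.ReflTransGen.refl⟩,
      sat_band hτ heq (fun x y h => hC x y (Or.inr h)), sat_per hperc ν x1, ?_⟩
    intro F hFW hhalf hstuck
    have hb : IBand ν F := by
      obtain ⟨C', hC'⟩ := sat_band (N := N) (x := x1) hτ heq (fun x y h => hC x y (Or.inr h))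
      exact ⟨C', fun y hy => hC' y (hFW hy)⟩
    obtain ⟨s, hs⟩ := half_bdd hν0 hν hhalf hb
    have h1 : F ⊆ A c φ η := by
      refine absorb hN hp hs fun y hy => ?_
      have h2 := hstuck y hy
      have h3 : cnt (fun i => y + e i ∉ F ∧ y + e i ∉ A c φ η)
          ≤ cnt (fun i => y + e i ∈ Sat (A c φ η)ᶜ N ν x1 ∧ y + e i ∉ F) :=
        cnt_mono fun i hi => ⟨sat_step hperc hx1 (hFW hy) i hi.2, hi.1⟩
      linarith
    exact Set.eq_empty_of_forall_notMem fun y hy => sat_sub hperc hx1 (hFW hy) (h1 hy)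
  · have hneg : ∀ u : V, det (-τ) u = -det τ u := fun u => by
      simp only [det, Prod.fst_neg, Prod.snd_neg]; ring
    refine Or.inl ⟨rot (-τ), hrot _ (neg_ne_zero.2 hτ), le_trans ?_ (hτr.trans (le_max_left _ _)),
      step_of hsep hN hst hper A_fsc hx0A (hinf x0 hx0A) (C := C) (neg_ne_zero.2 hτ)
        (fun x y h => ?_), ?_⟩
    · simp [n1, rot, add_comm]
    · rw [hneg, abs_neg]
      exact hC x y (Or.inl h)
    · rw [dot_rot, hneg]
      linarith

end Pool.Agent.Sand
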