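import Pool.Agent.Lib.MP_215a10_lc.Dec.Stmts
import Pool.Agent.Lib.MP_215a10_lc.Dec.Once

/-! A self-sustaining band when no half plane on the `ν` side carries a forbidden set. -/

set_option autoImplicit false

namespace Pool.Agent.Sand

open Filter Topology

namespace TriB

theorem cnt_mono {P Q : Fin 4 → Prop} (h : ∀ i, P i → Q i) : cnt P ≤ cnt Q := by
  unfold cnt
  refine Finset.sum_le_sum fun i _ => ?_
  by_cases hp : P i
  · rw [if_pos hp, if_pos (h i hp)]
  · rw [if_neg hp]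
    split_ifs <;> norm_num

theorem cnt_lt {P Q : Fin 4 → Prop} (h : cnt P < cnt Q) : ∃ i, Q i ∧ ¬ P i := by
  by_contra hn
  exact absurd (cnt_mono fun i hi => not_not.1 fun hp => hn ⟨i, hi, hp⟩) (not_le.2 h)

theorem dot_add (a x y : V) : dot a (x + y) = dot a x + dot a y := by
  simp only [dot, Prod.fst_add, Prod.snd_add]
  ring

theorem dot_sub (a x y : V) : dot a (x - y) = dot a x - dot a y := by
  simp only [dot, Prod.fst_sub, Prod.snd_sub]
  ring

theorem dot_smul (a x : V) (k : ℤ) : dot a (k • x) = k * dot a x := by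
  simp only [dot, Prod.smul_fst, Prod.smul_snd, smul_eq_mul]
  ring

theorem dot_neg (a x : V) : dot (-a) x = -dot a x := by
  simp only [dot, Prod.fst_neg, Prod.snd_neg]
  ring

theorem dot_comb (a b x : V) (k : ℤ) : dot (a + k • b) x = dot a x + k * dot b x := by
  simp only [dot, Prod.fst_add, Prod.snd_add, Prod.smul_fst, Prod.smul_snd, smul_eq_mul]
  ring

theorem n1_nonneg (x : V) : 0 ≤ n1 x := add_nonneg (abs_nonneg _) (abs_nonneg _)

theorem n1_add (x y : V) : n1 (x + y) ≤ n1 x + n1 y := by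
  have h1 := abs_add_le x.1 y.1
  have h2 := abs_add_le x.2 y.2
  simp only [n1, Prod.fst_add, Prod.snd_add]
  linarith

theorem n1_e (i : Fin 4) : n1 (e i) = 1 := by
  fin_cases i <;> simp [n1, e]

theorem abs_dot (a x : V) : |dot a x| ≤ n1 a * n1 x := by
  have h1 := abs_add_le (a.1 * x.1) (a.2 * x.2)
  rw [abs_mul, abs_mul] at h1
  have h2 := mul_nonneg (abs_nonneg a.1) (abs_nonneg x.2)
  have h3 := mul_nonneg (abs_nonneg a.2) (abs_nonneg x.1)
  unfold dot n1
  nlinarith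

theorem dot_self_pos {a : V} (h : a ≠ 0) : 0 < dot a a := by
  by_contra hn
  unfold dot at hn
  exact h (Prod.ext (by change a.1 = 0; nlinarith [mul_self_nonneg a.1, mul_self_nonneg a.2])
    (by change a.2 = 0; nlinarith [mul_self_nonneg a.1, mul_self_nonneg a.2]))

theorem disp_cons (i : Fin 4) (l : List (Fin 4)) : disp (i :: l) = e i + disp l := by
  simp [disp]

theorem n1_disp (l : List (Fin 4)) : n1 (disp l) ≤ l.length := by
  induction l with
  | nil => simp [disp, n1]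
  | cons i l ih =>
    have h := n1_add (e i) (disp l)
    rw [n1_e] at h
    rw [disp_cons, List.length_cons]
    push_cast
    linarith

theorem walk_le (r : V → ℤ) (l : List (Fin 4)) : ∀ x,
    wok (fun x i => r (x + e i) < r x) x l → r (x + disp l) ≤ r x := by
  induction l with
  | nil => intro x _; simp [disp]
  | cons i l ih =>
    intro x h
    have h1 := ih _ h.2
    rw [disp_cons, ← add_assoc]
    exact h1.trans h.1.le

theorem wwt_zero (l : List (Fin 4)) : ∀ x, wwt (fun _ _ => (0 : ℤ)) x l = 0 := by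
  induction l with
  | nil => intro x; rfl
  | cons i l ih => intro x; simp [wwt, ih]

theorem shift (f : V → ℤ) (z : V) (a : ℤ) (h : ∀ x, f (x + z) = f x + a) (k : ℤ) :
    ∀ x, f (x + k • z) = f x + k * a := by
  induction k using Int.induction_on with
  | zero => simp
  | succ k ih =>
    intro x
    rw [add_smul, one_smul, ← add_assoc, h, ih]
    ring
  | pred k ih =>
    intro x
    have h1 := h (x + (-(k : ℤ) - 1) • z)
    rw [add_assoc, show (-(k : ℤ) - 1) • z + z = (-(k : ℤ)) • z by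
      rw [sub_smul, one_smul, sub_add_cancel], ih] at h1
    linarith

/-- the class modulo the lattice -/
def cls (N : ℤ) (x : V) : V := (x.1 % N, x.2 % N)

theorem cls_eq (N : ℤ) (x : V) : x = cls N x + N • (x.1 / N, x.2 / N) :=
  Prod.ext (Int.emod_add_mul_ediv _ _).symm (Int.emod_add_mul_ediv _ _).symm

theorem cls_mem {N : ℤ} (hN : 0 < N) (x : V) : cls N x ∈ Finset.Ico 0 N ×ˢ Finset.Ico 0 N :=
  Finset.mem_product.2 ⟨Finset.mem_Ico.2 ⟨Int.emod_nonneg _ hN.ne', Int.emod_lt_of_pos _ hN⟩,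
    Finset.mem_Ico.2 ⟨Int.emod_nonneg _ hN.ne', Int.emod_lt_of_pos _ hN⟩⟩

theorem per_bdd {N : ℤ} (hN : 0 < N) (f : V → ℤ) (h : ∀ x z, f (x + N • z) = f x) :
    ∃ C, ∀ x, |f x| ≤ C := by
  obtain ⟨C, hC⟩ := ((Finset.Ico 0 N ×ˢ Finset.Ico 0 N).image fun x => |f x|).bddAbove
  refine ⟨C, fun x => ?_⟩
  rw [cls_eq N x, h]
  exact hC (Finset.mem_coe.2 (Finset.mem_image_of_mem _ (cls_mem hN x)))

/-- no nonempty stuck set in a half plane on the `ν` side -/
def HH (θ : V → ℤ) (ν : V) : Prop :=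
  ∀ (lam : ℝ) (μ : V) (δ : ℝ) (F : Set V), dot μ ν = 0 →
    (∀ x ∈ F, cnt (fun i => x + e i ∉ F) < θ x) →
    (∀ x ∈ F, -δ ≤ dot ν x + lam * dot μ x) → F = ∅

theorem hh_of {c φ : V → ℤ} {ν : V} {N : ℤ} (hN : 0 < N) (hν : ν ≠ 0)
    (hp : ∀ x z, 4 - c (x + N • z) - lap φ (x + N • z) = 4 - c x - lap φ x) (H : Hnu c φ ν) :
    HH (fun x => 4 - c x - lap φ x) ν := by
  intro lam μ δ F hμ hF hδ
  obtain ⟨m, hm⟩ := exists_nat_gt δ
  have hrd : ∀ x, rd (ν.1 + lam * μ.1, ν.2 + lam * μ.2) x = dot ν x + lam * dot μ x := fun x => by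
    simp only [rd, dot]
    push_cast
    ring
  have h0 := dot_self_pos hν
  have h1 := H (ν.1 + lam * μ.1, ν.2 + lam * μ.2) (by
    rw [hrd, hμ, Int.cast_zero, mul_zero, add_zero]
    exact_mod_cast h0) {x | x + N • (-(m : ℤ) • ν) ∈ F} (fun x hx => by
      have h2 := hF _ hx
      have h3 := hp x (-(m : ℤ) • ν)
      have h4 : (fun i => x + N • (-(m : ℤ) • ν) + e i ∉ F) =
          fun i => x + e i ∉ {x | x + N • (-(m : ℤ) • ν) ∈ F} := by
        funext i
        rw [add_right_comm]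
        rfl
      rw [h4] at h2
      dsimp only at h2
      linarith) (fun x hx => by
      have h2 := hδ _ hx
      rw [dot_add, dot_add, dot_smul, dot_smul, dot_smul, dot_smul, hμ] at h2
      have h3 : (m : ℤ) ≤ N * (m * dot ν ν) := by
        have : (0 : ℤ) ≤ m := Int.natCast_nonneg m
        nlinarith [mul_nonneg this h0.le]
      have h4 : (m : ℝ) ≤ N * (m * dot ν ν) := by exact_mod_cast h3
      rw [hrd]
      push_cast at h2
      linarith)
  refine Set.eq_empty_of_forall_notMem fun x hx => ?_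
  have h2 : x - N • (-(m : ℤ) • ν) ∈ {x | x + N • (-(m : ℤ) • ν) ∈ F} := by
    change _ + _ ∈ F
    rwa [sub_add_cancel]
  rw [h1] at h2
  exact h2

/-- the local form of `HH` -/
theorem compact {θ : V → ℤ} {ν μ : V} {N : ℤ} (hN : 0 < N) (hp : ∀ x z, θ (x + N • z) = θ x)
    (H : HH θ ν) (hμ : dot μ ν = 0) (Λ δ : ℝ) : ∃ r0 : ℕ, ∀ (lam : ℝ) (x0 : V) (F : Set V),
      |lam| ≤ Λ → x0 ∈ F → (∀ x ∈ F, n1 (x - x0) ≤ r0 → cnt (fun i => x + e i ∉ F) < θ x) →
      (∀ x ∈ F, n1 (x - x0) ≤ r0 → -δ ≤ dot ν (x - x0) + lam * dot μ (x - x0)) → False := by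
  by_contra hn
  push Not at hn
  choose lam x0 F h1 h2 h3 h4 _ using hn
  let U : Ultrafilter ℕ := hyperfilter ℕ
  have hU : ∀ m : ℤ, ∀ᶠ k : ℕ in U, m ≤ (k : ℤ) := fun m =>
    Nat.hyperfilter_le_atTop ((eventually_ge_atTop m.toNat).mono fun k hk => by omega)
  obtain ⟨a, -, ha⟩ := (Ultrafilter.eventually_exists_mem_iff (f := U)
    (P := fun a k => cls N (x0 k) = a) (Finset.Ico 0 N ×ˢ Finset.Ico 0 N).finite_toSet).1
    (Eventually.of_forall fun k => ⟨_, cls_mem hN (x0 k), rfl⟩)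
  obtain ⟨l, -, hl⟩ := (isCompact_Icc (a := -Λ) (b := Λ)).ultrafilter_le_nhds (U.map lam)
    (le_principal_iff.2 (mem_map.2 (Eventually.of_forall fun k => abs_le.1 (h1 k))))
  have hl' : Tendsto lam U (𝓝 l) := hl
  have h5 := H l μ (δ - (dot ν a + l * dot μ a)) {y | ∀ᶠ k in U, y - a + x0 k ∈ F k} hμ
    (fun y hy => by
      have h6 : ∀ᶠ k in U, ∀ i, (y + e i - a + x0 k ∈ F k ↔
          ∀ᶠ k in U, y + e i - a + x0 k ∈ F k) := by
        refine eventually_all.2 fun i => ?_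
        by_cases h : ∀ᶠ k in U, y + e i - a + x0 k ∈ F k
        · exact h.mono fun k hk => iff_of_true hk h
        · exact (Ultrafilter.eventually_not.2 h).mono fun k hk => iff_of_false hk h
      obtain ⟨k, k1, k2, k3, k4⟩ := (Eventually.and hy (ha.and ((hU (n1 (y - a))).and h6))).exists
      have h7 := h3 k _ k1 (by rwa [add_sub_cancel_right])
      have h8 : y - a + x0 k = y + N • ((x0 k).1 / N, (x0 k).2 / N) := by
        conv_lhs => rw [cls_eq N (x0 k), k2]
        abel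
      have h9 : (fun i => y - a + x0 k + e i ∉ F k) =
          fun i => y + e i ∉ {y | ∀ᶠ k in U, y - a + x0 k ∈ F k} := by
        funext i
        rw [show y - a + x0 k + e i = y + e i - a + x0 k by abel]
        exact congrArg Not (propext (k4 i))
      rwa [h9, h8, hp] at h7)
    (fun y hy => by
      have h6 : -δ ≤ dot ν (y - a) + l * dot μ (y - a) :=
        ge_of_tendsto ((hl'.mul_const _).const_add _)
          ((Eventually.and hy (hU (n1 (y - a)))).mono fun k hk => by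
            have h7 := h4 k _ hk.1 (by rw [add_sub_cancel_right]; exact hk.2)
            rwa [add_sub_cancel_right] at h7)
      rw [dot_sub, dot_sub] at h6
      push_cast at h6
      linarith)
  have h6 : a ∈ {y | ∀ᶠ k in U, y - a + x0 k ∈ F k} :=
    Eventually.of_forall fun k => by rw [sub_self, zero_add]; exact h2 k
  rw [h5] at h6
  exact h6

/-- the burning order and the wall on one side -/
structure Side (θ : V → ℤ) (N : ℤ) (ν μ : V) (n j C : ℤ) (r w : V → ℤ) : Prop where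
  rb : ∀ x, |r x - j * (dot ν x + n * dot μ x)| ≤ C
  th : ∀ x, θ x ≤ cnt fun i => r (x + e i) < r x
  mono : ∀ x i, r (x + e i) < r x → w (x + e i) ≤ w x
  wb : ∀ x, |w x - dot μ x| ≤ C
  per : ∀ x, w (x + N • ν) = w x

theorem Side.scale {θ : V → ℤ} {N : ℤ} {ν μ : V} {n j C : ℤ} {r w : V → ℤ}
    (h : Side θ N ν μ n j C r w) {k J C' : ℤ} (hk : 0 < k) (hJ : J = k * j) (hC : k * C ≤ C') :
    Side θ N ν μ n J C' (fun x => k * r x) w := by
  have h0 : 0 ≤ C := (abs_nonneg _).trans (h.wb 0)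
  refine ⟨fun x => ?_, fun x => (h.th x).trans (cnt_mono fun i hi => ?_),
    fun x i hi => h.mono x i (lt_of_mul_lt_mul_left hi hk.le), fun x => (h.wb x).trans ?_, h.per⟩
  · rw [hJ, mul_assoc, ← mul_sub, abs_mul, abs_of_pos hk]
    exact (mul_le_mul_of_nonneg_left (h.rb x) hk.le).trans hC
  · exact mul_lt_mul_of_pos_left hi hk
  · nlinarith

theorem side (h1 : pot_stmt) (h2 : rankplus_stmt) {θ : V → ℤ} {ν μ : V} {N n : ℤ} (hN : 0 < N)
    (hp : ∀ x z, θ (x + N • z) = θ x) (H : HH θ ν) (hμ : dot μ ν = 0) (hn : n1 ν * N ^ 2 < n) :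
    ∃ j C r w, 0 < j ∧ Side θ N ν μ n j C r w := by
  obtain ⟨r, j, C, hj, -, r1, r2, r3⟩ := h2 (N • ((1, 0) : V)) (N • ((0, 1) : V)) (ν + n • μ)
    Set.univ (fun _ _ => True) θ
    ⟨fun _ => ⟨Iff.rfl, Iff.rfl⟩, fun _ _ _ => ⟨Iff.rfl, Iff.rfl⟩, fun x _ => ⟨hp _ _, hp _ _⟩,
      fun _ _ _ _ => trivial, _, fun x _ => ⟨x.1 / N, x.2 / N, by
        have h := cls_mem hN x
        rwa [show cls N x = x - (x.1 / N) • N • ((1, 0) : V) - (x.2 / N) • N • ((0, 1) : V) from
          Prod.ext (by simp [cls, Int.emod_def, mul_comm]) (by simp [cls, Int.emod_def, mul_comm])]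
          at h⟩⟩
    (fun F _ ⟨D, hD⟩ hF => H n μ D F hμ (fun x hx => by simpa using hF x hx) fun x hx => by
      have h := hD x hx
      rw [dot_comb] at h
      exact_mod_cast h)
  have r4 : ∀ x z, r (x + N • z) = r x + j * dot (ν + n • μ) (N • z) := fun x z => by
    have e1 : N • z = z.1 • N • ((1, 0) : V) + z.2 • N • ((0, 1) : V) :=
      Prod.ext (by simp [mul_comm]) (by simp [mul_comm])
    rw [e1, ← add_assoc, shift r _ _ fun x => (r2 x trivial).2,
      shift r _ _ fun x => (r2 x trivial).1, dot_add, dot_smul _ _ z.1, dot_smul _ _ z.2]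
    ring
  obtain ⟨w, w1, w2⟩ := h1 ℤ N (fun x i => r (x + e i) < r x) (fun _ _ => 0)
    (AddMonoidHom.mk' (fun a => -dot μ a) fun a b => by rw [dot_add]; ring) hN
    (fun x z i => by
      rw [add_right_comm, r4, r4]
      exact add_lt_add_iff_right _) (fun _ _ _ => rfl) (fun x l z a1 a2 a3 => by
      have a4 := walk_le r l x a1
      rw [a3, r4, ← a3, dot_comb] at a4
      have a5 := (abs_le.1 (abs_dot ν (disp l))).1
      have a6 := mul_le_mul_of_nonneg_left ((n1_disp l).trans a2) (n1_nonneg ν)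
      have a7 : dot ν (disp l) + n * dot μ (disp l) ≤ 0 := by
        by_contra a8
        have := mul_pos hj (not_le.1 a8)
        linarith
      have a9 := mul_nonneg (n1_nonneg ν) (sq_nonneg N)
      rw [wwt_zero]
      change 0 ≤ -dot μ (disp l)
      by_contra a8
      have : 1 ≤ dot μ (disp l) := by omega
      nlinarith)
  have w3 : ∀ x z, w (x + N • z) = w x - dot μ (N • z) := fun x z => w1 x z
  obtain ⟨C', hC'⟩ := per_bdd hN (fun x => -w x - dot μ x) fun x z => by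
    rw [w3, dot_add]
    ring
  refine ⟨j, max C C', r, fun x => -w x, hj, fun x => ?_, fun x => by simpa using r3 x trivial,
    fun x i hi => ?_, fun x => (hC' x).trans (le_max_right _ _), fun x => ?_⟩
  · have h := r1 x trivial
    rw [dot_comb] at h
    exact h.trans (le_max_left _ _)
  · have h := w2 x i hi
    linarith
  · rw [w3, dot_smul, hμ, mul_zero, sub_zero]

/-- clamping -/
def cp (S s : ℤ) : ℤ := max (-S) (min s S)

/-- Huber function -/
def hub (S s : ℤ) : ℤ := 2 * cp S s * s - cp S s ^ 2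

theorem cp_cases {S : ℤ} (hS : 0 ≤ S) (s : ℤ) :
    (S ≤ s ∧ cp S s = S) ∨ (s ≤ -S ∧ cp S s = -S) ∨ (-S ≤ s ∧ s ≤ S ∧ cp S s = s) := by
  unfold cp
  omega

theorem hub_nonneg {S : ℤ} (hS : 0 ≤ S) (s : ℤ) : 0 ≤ hub S s := by
  unfold hub
  rcases cp_cases hS s with ⟨a, b⟩ | ⟨a, b⟩ | ⟨a, -, b⟩ <;> rw [b] <;> nlinarith

theorem hub_le {S : ℤ} (hS : 0 ≤ S) (s t : ℤ) :
    hub S s ≤ hub S t + 2 * cp S t * (s - t) + (s - t) ^ 2 := by
  have key : (cp S s - cp S t) * (2 * s - cp S s - cp S t) ≤ (s - t) ^ 2 := by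
    rcases cp_cases hS s with ⟨a, b⟩ | ⟨a, b⟩ | ⟨a, a', b⟩ <;>
      rcases cp_cases hS t with ⟨c, d⟩ | ⟨c, d⟩ | ⟨c, c', d⟩ <;> rw [b, d] <;>
      nlinarith [sq_nonneg (s - t), sq_nonneg (s - S), sq_nonneg (s + S), sq_nonneg (t - S),
        sq_nonneg (t + S)]
  unfold hub
  linarith

theorem core {θ : V → ℤ} {ν μ : V} {N n J C : ℤ} {r w r' w' : V → ℤ} (hN : 0 < N)
    (hp : ∀ x z, θ (x + N • z) = θ x) (H : HH θ ν) (hμ : dot μ ν = 0) (hn : 0 < n) (hJ : 0 < J)
    (s1 : Side θ N ν μ n J C r w) (s2 : Side θ N ν (-μ) n J C r' w') :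
    ∃ R, C ≤ R ∧ ∀ F ⊆ {x | w x ≤ R ∧ w' x ≤ R}, IHalf ν F →
      Stuck (fun x i => x + e i ∈ {x | w x ≤ R ∧ w' x ≤ R}) θ F → F = ∅ := by
  classical
  obtain ⟨r0, hr0⟩ := compact hN hp H hμ n (2 * C + 1)
  obtain ⟨D, hD⟩ : ∃ D, D = n1 μ := ⟨_, rfl⟩
  have D0 : 0 ≤ D := hD ▸ n1_nonneg μ
  have C0 : 0 ≤ C := (abs_nonneg _).trans (s1.wb 0)
  have De : ∀ x i, |dot μ (x + e i) - dot μ x| ≤ D := fun x i => by
    have h := abs_dot μ (e i)
    rwa [n1_e, mul_one, ← hD, ← add_sub_cancel_left (dot μ x) (dot μ (e i)), ← dot_add] at h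
  obtain ⟨M, hM⟩ : ∃ M : ℤ, M = (D * r0) ^ 2 + 1 := ⟨_, rfl⟩
  have M0 : 0 < M := by rw [hM]; positivity
  obtain ⟨S, hS⟩ : ∃ S, S = M * n := ⟨_, rfl⟩
  have S0 : 0 < S := hS ▸ mul_pos M0 hn
  have Dr : 0 ≤ D * r0 := by positivity
  refine ⟨S + C + 2 * D + D * r0, by linarith, fun F hFW ⟨C1, hC1⟩ hF => ?_⟩
  by_contra hne
  obtain ⟨y0, hy0⟩ := Set.nonempty_iff_ne_empty.2 hne
  obtain ⟨b, hb⟩ : ∃ b : V → ℤ, ∀ x, b x = if S ≤ dot μ x then r x - J * (dot ν x + n * dot μ x)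
      else if dot μ x ≤ -S then r' x - J * (dot ν x + n * dot (-μ) x) else 0 := ⟨_, fun _ => rfl⟩
  have b0 : ∀ x, |b x| ≤ C := fun x => by
    rw [hb]
    split_ifs
    · exact s1.rb x
    · exact s2.rb x
    · rwa [abs_zero]
  obtain ⟨ρ, hρ⟩ : ∃ ρ : V → ℤ, ∀ x,
      ρ x = J * (2 * M * dot ν x + hub S (dot μ x)) + 2 * M * b x := ⟨_, fun _ => rfl⟩
  have top : ∀ x, S ≤ dot μ x → ρ x = 2 * M * r x - J * S ^ 2 := fun x hx => by
    have h : cp S (dot μ x) = S := by unfold cp; omega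
    rw [hρ, hb, if_pos hx, hub, h, hS]
    ring
  have bot : ∀ x, dot μ x ≤ -S → ρ x = 2 * M * r' x - J * S ^ 2 := fun x hx => by
    have h : cp S (dot μ x) = -S := by unfold cp; omega
    rw [hρ, hb, if_neg (by omega), if_pos hx, hub, h, dot_neg, hS]
    ring
  obtain ⟨_, ⟨x0, hx0, rfl⟩, hmin⟩ := Int.exists_least_of_bdd (P := fun v => ∃ x ∈ F, ρ x = v)
    ⟨J * (2 * M * -C1) + 2 * M * -C, by
      rintro _ ⟨x, hx, rfl⟩
      have a1 := mul_le_mul_of_nonneg_left (hC1 x hx) (by positivity : 0 ≤ 2 * M)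
      have a2 := mul_le_mul_of_nonneg_left (abs_le.1 (b0 x)).1 (by positivity : 0 ≤ 2 * M)
      have a3 := mul_le_mul_of_nonneg_left
        (le_add_of_le_of_nonneg a1 (hub_nonneg S0.le (dot μ x))) hJ.le
      rw [hρ]
      linarith⟩ ⟨_, y0, hy0, rfl⟩
  have hm : ∀ x ∈ F, ρ x0 ≤ ρ x := fun x hx => hmin _ ⟨x, hx, rfl⟩
  by_cases c1 : S + D ≤ dot μ x0
  · obtain ⟨i, a1, a2⟩ := cnt_lt ((hF x0 hx0).trans_le (s1.th x0))
    have a3 := (abs_le.1 (De x0 i)).1
    have a4 := (abs_le.1 (s2.wb (x0 + e i))).2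
    rw [dot_neg] at a4
    have a5 := hm _ (not_not.1 fun a => a2
      ⟨⟨(s1.mono x0 i a1).trans (hFW hx0).1, by linarith⟩, a⟩)
    rw [top _ (by linarith), top _ (by linarith)] at a5
    nlinarith
  by_cases c2 : dot μ x0 ≤ -S - D
  · obtain ⟨i, a1, a2⟩ := cnt_lt ((hF x0 hx0).trans_le (s2.th x0))
    have a3 := (abs_le.1 (De x0 i)).2
    have a4 := (abs_le.1 (s1.wb (x0 + e i))).2
    have a5 := hm _ (not_not.1 fun a => a2
      ⟨⟨by linarith, (s2.mono x0 i a1).trans (hFW hx0).2⟩, a⟩)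
    rw [bot _ (by linarith), bot _ (by linarith)] at a5
    nlinarith
  have near : ∀ x, n1 (x - x0) ≤ r0 → |dot μ (x - x0)| ≤ D * r0 := fun x hx =>
    (abs_dot μ _).trans (hD ▸ mul_le_mul_of_nonneg_left hx D0)
  have M1 : (0 : ℝ) < M := by exact_mod_cast M0
  refine hr0 (cp S (dot μ x0) / M) x0 F ?_ hx0 (fun x hx h => ?_) fun x hx h => ?_
  · have a1 : |cp S (dot μ x0)| ≤ n * M := by
      rw [mul_comm, ← hS, abs_le]
      unfold cp
      omega
    rw [abs_div, abs_of_pos M1, div_le_iff₀ M1]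
    exact_mod_cast a1
  · refine lt_of_le_of_lt (cnt_mono fun i hi => ⟨?_, hi⟩) (hF x hx)
    have a1 := abs_le.1 (near x h)
    rw [dot_sub] at a1
    have a2 := abs_le.1 (De x i)
    have a3 := (abs_le.1 (s1.wb (x + e i))).2
    have a4 := (abs_le.1 (s2.wb (x + e i))).2
    rw [dot_neg] at a4
    exact ⟨by linarith [a1.2, a2.2], by linarith [a1.1, a2.1]⟩
  · have a1 := hm x hx
    have a2 := hub_le S0.le (dot μ x) (dot μ x0)
    have a3 : dot μ (x - x0) ^ 2 ≤ M := by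
      have := sq_le_sq' (abs_le.1 (near x h)).1 (abs_le.1 (near x h)).2
      linarith
    rw [← dot_sub] at a2
    have a4 := mul_le_mul_of_nonneg_left (abs_le.1 (b0 x)).2 M0.le
    have a5 := mul_le_mul_of_nonneg_left (abs_le.1 (b0 x0)).1 M0.le
    rw [hρ, hρ] at a1
    have a6 : -(M * (2 * C + 1)) ≤ M * dot ν (x - x0) + cp S (dot μ x0) * dot μ (x - x0) := by
      by_contra a7
      have a8 : 2 * M * dot ν x + hub S (dot μ x) - (2 * M * dot ν x0 + hub S (dot μ x0)) ≤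
          -(4 * (M * C)) - 1 := by
        rw [dot_sub ν] at a7
        linarith
      have a9 := mul_le_mul_of_nonneg_left a8 hJ.le
      have a10 := mul_nonneg M0.le C0
      nlinarith
    have a7 : -((M : ℝ) * (2 * C + 1)) ≤ M * dot ν (x - x0) + cp S (dot μ x0) * dot μ (x - x0) := by
      exact_mod_cast a6
    refine le_of_mul_le_mul_left ?_ M1
    rw [mul_add, ← mul_assoc, mul_div_cancel₀ _ M1.ne']
    linarith

end TriB

open TriB in
theorem triB_proof (h1 : pot_stmt) (h2 : rankplus_stmt) : triB_stmt := by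
  intro c N0 N φ p ν hc hN hd _ hφ hν H
  have hp : ∀ x z, 4 - c (x + N • z) - lap φ (x + N • z) = 4 - c x - lap φ x := fun x z => by
    obtain ⟨k, rfl⟩ := hd
    have a1 : lap φ (x + (N0 * k) • z) = lap φ x := Finset.sum_congr rfl fun i _ => by
      have b1 := hφ x z
      have b2 := hφ (x + e i) z
      rw [add_right_comm] at b2
      have b3 : (φ (x + (N0 * k) • z + e i) : ℚ) - φ (x + (N0 * k) • z) = φ (x + e i) - φ x := by
        rw [b1, b2]
        ring
      exact_mod_cast b3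
    rw [a1, mul_smul, hc.per]
  have HH := hh_of hN hν hp H
  have hμ : dot (rot ν) ν = 0 := by
    simp only [dot, rot]
    ring
  obtain ⟨j, C, r, w, hj, s1⟩ := side h1 h2 hN hp HH hμ (lt_add_one _)
  obtain ⟨j', C', r', w', hj', s2⟩ := side h1 h2 (μ := -rot ν) hN hp HH
    (by rw [dot_neg, hμ, neg_zero]) (lt_add_one _)
  have t1 := s1.scale hj' rfl (le_max_left (j' * C) (j * C'))
  have t2 := s2.scale hj (mul_comm j' j) (le_max_right (j' * C) (j * C'))
  obtain ⟨R, hR, h⟩ := core hN hp HH hμ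
    (by have := mul_nonneg (n1_nonneg ν) (sq_nonneg N); linarith) (mul_pos hj' hj) t1 t2
  refine ⟨{x | w x ≤ R ∧ w' x ≤ R}, ⟨0, ?_, ?_⟩, ⟨R + max (j' * C) (j * C'), fun x hx => ?_⟩, fun x => ?_, h⟩
  · have a := (abs_le.1 (t1.wb 0)).2
    simp only [dot, Prod.fst_zero, Prod.snd_zero, mul_zero, add_zero, sub_zero] at a
    exact a.trans hR
  · have a := (abs_le.1 (t2.wb 0)).2
    simp only [dot, Prod.fst_zero, Prod.snd_zero, mul_zero, add_zero, sub_zero] at a
    exact a.trans hR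
  · have a1 := (abs_le.1 (t1.wb x)).1
    have a2 := (abs_le.1 (t2.wb x)).1
    have a3 : det ν x = dot (rot ν) x := by
      simp only [dot, rot, det]
      ring
    rw [dot_neg] at a2
    rw [a3, abs_le]
    exact ⟨by linarith [hx.2], by linarith [hx.1]⟩
  · simp only [Set.mem_ofPred_eq, s1.per, s2.per]

end Pool.Agent.Sand
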