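import Pool.Agent.Lib.MP_215a10_lc.Dec.Wire4

/-! A self-sustaining band gives a wire. -/

set_option autoImplicit false

namespace Pool.Agent.Sand

open Classical

namespace Wire

theorem lap_sub (φ M : V → ℤ) (x : V) :
    lap (fun y => φ y - M y) x = lap φ x + ∑ i, (M x - M (x + e i)) := by
  unfold lap
  rw [← Finset.sum_add_distrib]
  exact Finset.sum_congr rfl fun i _ => by ring

theorem free_use {c φ : V → ℤ} {I : Set V → Prop} (h : Free c 1 I φ) (F : Set V) (hF : I F)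
    (hs : ∀ x ∈ F, cnt (fun i => x + e i ∉ F) < 4 - c x - lap φ x) : F = ∅ := by
  refine h F hF fun x hx => ?_
  have a := hs x hx
  have b : lapD 1 (fun y => φ y - ind F y) x = lap φ x + cnt (fun i => x + e i ∉ F) := by
    unfold lapD lap
    rw [cnt_eq, ← Finset.sum_add_distrib]
    refine Finset.sum_congr rfl fun i _ => ?_
    unfold cd ind
    beta_reduce
    rw [Int.ediv_one, neg_neg, if_pos hx]
    by_cases k : x + e i ∈ F
    · rw [if_pos k, i1_neg (not_not.2 k)]; ring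
    · rw [if_neg k, i1_pos k]; ring
  unfold StD
  omega

theorem inf_comp {θ : V → ℤ} {W : Set V} (hθ : ∀ x, 1 ≤ θ x) (hW : W.Nonempty)
    (h1 : ∀ F ⊆ W, F.Finite → Stuck (fun x i => x + e i ∈ W) θ F → F = ∅) :
    ∃ x ∈ W, {y | Conn W x y}.Infinite := by
  obtain ⟨x, hx⟩ := hW
  refine ⟨x, hx, fun hf => ?_⟩
  have sub : {y | Conn W x y} ⊆ W := fun y hy => by
    rcases Relation.ReflTransGen.cases_tail hy with rfl | ⟨z, -, h⟩
    · exact hx
    · exact h.2.1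
  have := h1 _ sub hf fun y hy => by
    have a : cnt (fun i => y + e i ∈ W ∧ y + e i ∉ {y | Conn W x y}) ≤ ∑ _i : Fin 4, (0 : ℤ) :=
      cnt_le (fun _ => le_rfl) fun i hi =>
        absurd (Relation.ReflTransGen.tail hy ⟨sub hy, hi.1, i, rfl⟩) hi.2
    rw [Finset.sum_const_zero] at a
    exact a.trans_lt (hθ y)
  exact (this ▸ (Relation.ReflTransGen.refl : Conn W x x) : x ∈ (∅ : Set V))

/-- `s * det ν` as an additive map -/
def dm (s : ℤ) (ν : V) : V →+ ℤ where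
  toFun x := s * det ν x
  map_zero' := by simp [det]
  map_add' x y := by simp only [det, Prod.fst_add, Prod.snd_add]; ring

theorem dm_apply (s : ℤ) (ν x : V) : dm s ν x = s * det ν x := rfl

theorem side (hr : rank_stmt) {N m s C : ℤ} {ν : V} {W : Set V} {θ : V → ℤ} {wf : Prop}
    (hN : 0 < N) (hν : ν ≠ 0) (hs1 : s = 1 ∨ s = -1) (hT : ∀ x, x + N • ν ∈ W ↔ x ∈ W)
    (hW : ∀ x ∈ W, |det ν x| < C)
    (hs : ∀ x y, Conn Wᶜ x y → C ≤ det ν x → det ν y ≤ -C → False) (hC : 0 < C)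
    (hΛ : 2 * C + n1 ν ≤ m * N * dot ν ν) (θp : ∀ x z, θ (x + N • z) = θ x)
    (h1 : ∀ F ⊆ W, F.Finite → Stuck (fun x i => x + e i ∈ W) θ F → F = ∅)
    (h2 : wf → ∀ F ⊆ W, IHalf ν F → Stuck (fun x i => x + e i ∈ W) θ F → F = ∅)
    (h3 : ∀ F : Set V, F.Finite → (∀ x ∈ F, cnt (fun i => x + e i ∉ F) < θ x) → F = ∅)
    (h4 : wf → ∀ F : Set V, IOut ν F → (∀ x ∈ F, cnt (fun i => x + e i ∉ F) < θ x) → F = ∅) :
    ∃ I b r, Lev W (dm s ν) (N • ν) (N • ((s * m) • rot ν)) C (m * N * dot ν ν) I ∧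
      Rk θ W ν wf I b r := by
  have hd : ∀ x, |dm s ν x| = |det ν x| := fun x => by
    rw [dm_apply]; rcases hs1 with rfl | rfl <;> simp
  have hW' : ∀ x ∈ W, |dm s ν x| < C := fun x hx => by rw [hd]; exact hW x hx
  have dL : dm s ν (N • ((s * m) • rot ν)) = m * N * dot ν ν := by
    rw [dm_apply]
    simp only [det, dot, rot, Prod.smul_fst, Prod.smul_snd, smul_eq_mul]
    rcases hs1 with rfl | rfl <;> ring
  have n0 := n1_nonneg ν
  obtain ⟨I, hI⟩ := exists_lev (L := N • ((s * m) • rot ν)) hN hν hd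
    (by simp only [dm_apply, det]; fun_prop) hT hW' (fun x y h a b => by
      rw [dm_apply] at a b
      rcases hs1 with rfl | rfl
      · exact hs y x (conn_symm h) (by omega) (by omega)
      · exact hs x y h (by omega) (by omega)) dL hC hΛ
  obtain ⟨b, r, k⟩ := exists_rk hr hN hν hd hT hW' dL (by omega)
    (by simp only [dot, rot, Prod.smul_fst, Prod.smul_snd, smul_eq_mul]; ring) hI
    (fun x => θp x _) (fun x => θp x _) h1 h2 h3 h4
  exact ⟨I, b, r, hI, k⟩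

theorem main (hsep : separate_stmt) (hr : rank_stmt) {c φ : V → ℤ} {N0 N : ℤ} {p : Q2} {ν : V}
    {W : Set V} {wf : Prop} (hc : IsBG c N0) (hN : 0 < N) (hd : N0 ∣ N) (hφ : Stable c φ)
    (hE : Eqv N p φ) (hν : ν ≠ 0) (hne : W.Nonempty) (hb : IBand ν W)
    (hT : ∀ x, x + N • ν ∈ W ↔ x ∈ W)
    (h1 : ∀ F ⊆ W, F.Finite →
      Stuck (fun x i => x + e i ∈ W) (fun x => 4 - c x - lap φ x) F → F = ∅)
    (h2 : wf → ∀ F ⊆ W, IHalf ν F →
      Stuck (fun x i => x + e i ∈ W) (fun x => 4 - c x - lap φ x) F → F = ∅)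
    (h3 : ∀ F : Set V, F.Finite → (∀ x ∈ F, cnt (fun i => x + e i ∉ F) < 4 - c x - lap φ x) → F = ∅)
    (h4 : wf → ∀ F : Set V, IOut ν F →
      (∀ x ∈ F, cnt (fun i => x + e i ∉ F) < 4 - c x - lap φ x) → F = ∅) :
    ∃ τ ρ, IsWire c p ν τ ρ ∧ (wf → WFdir ν ρ) := by
  have hθ : ∀ x, 1 ≤ 4 - c x - lap φ x := fun x => by
    have : c x + lap φ x ≤ 3 := hφ x
    omega
  have θp : ∀ x z, (fun x => 4 - c x - lap φ x) (x + N • z) = (fun x => 4 - c x - lap φ x) x :=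
    fun x z => by
      obtain ⟨k, rfl⟩ := hd
      beta_reduce
      rw [lap_per hE, mul_smul, hc.per]
  have T0 : N • ν ≠ 0 := smul_ne_zero hN.ne' hν
  have dT : det ν (N • ν) = 0 := by
    simp only [det, Prod.smul_fst, Prod.smul_snd, smul_eq_mul]; ring
  obtain ⟨Cs, hCs⟩ := hsep ν (N • ν) W hν T0 dT hb hT (inf_comp hθ hne h1)
  obtain ⟨Cb, hCb⟩ := hb
  obtain ⟨C, hC, c1, c2⟩ : ∃ C : ℤ, 0 < C ∧ Cs ≤ C ∧ Cb < C :=
    ⟨max 1 (max Cs (Cb + 1)), by omega, by omega, by omega⟩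
  have n0 := n1_nonneg ν
  have dp := mul_pos hN (dot_pos hν)
  have hΛ : 2 * C + n1 ν ≤ (2 * C + n1 ν) * N * dot ν ν := by
    rw [mul_assoc]; exact le_mul_of_one_le_right (by omega) (by omega)
  have hW : ∀ x ∈ W, |det ν x| < C := fun x hx => (hCb x hx).trans_lt c2
  have hs : ∀ x y, Conn Wᶜ x y → C ≤ det ν x → det ν y ≤ -C → False :=
    fun x y h a b => hCs x y h (by omega) (by omega)
  obtain ⟨I1, b1, r1, l1, k1⟩ := side hr hN hν (Or.inl rfl) hT hW hs hC hΛ θp h1 h2 h3 h4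
  obtain ⟨I2, b2, r2, l2, k2⟩ := side hr hN hν (Or.inr rfl) hT hW hs hC hΛ θp h1 h2 h3 h4
  generalize (2 * C + n1 ν) * N * dot ν ν = Λ at *
  obtain ⟨M, ρ, aM, aρ, bn, bd, wf'⟩ := glue (fun x => by rw [dm_apply, dm_apply]; ring)
    (fun x y h a b => by
      rw [dm_apply] at a b
      exact hs x y h (by omega) (by omega)) l1 l2 k1 k2 hC (by omega)
  simp only [dm_apply, one_mul] at bd wf'
  obtain ⟨K, hK⟩ := near_eqv hN hE
  have Λp : (0 : ℚ) < Λ := by exact_mod_cast (by omega : 0 < Λ)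
  refine ⟨fun x => φ x - M x, ρ, ⟨⟨(am_eqv hN hE).sub aM, aρ, fun x => ?_⟩,
    1 / Λ, K + (C + Λ) / Λ, by positivity, fun x => ?_⟩, wf'⟩
  · have a := bn x
    rw [Finset.sum_add_distrib, ← cnt_eq] at a
    unfold SubAt
    rw [lap_sub]
    omega
  · have a : abs (|(det ν x : ℚ)| - M x * Λ) ≤ C + Λ := by exact_mod_cast bd x
    have e1 : ((φ x - M x : ℤ) : ℚ) + qd p x + 1 / Λ * |(det ν x : ℚ)| =
        (φ x + qd p x) + (|(det ν x : ℚ)| - M x * Λ) / Λ := by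
      rw [Int.cast_sub]; field_simp; ring
    rw [e1]
    refine (abs_add_le _ _).trans (add_le_add (hK x) ?_)
    rw [abs_div, abs_of_pos Λp]
    exact div_le_div_of_nonneg_right a Λp.le

theorem fin_out (ν : V) {F : Set V} (h : F.Finite) : IOut ν F := by
  obtain ⟨C, hC⟩ := (h.image fun x => max |det ν x| (-dot ν x)).bddAbove
  refine ⟨C, fun x hx => ?_⟩
  have := hC ⟨x, hx, rfl⟩
  exact ⟨(le_max_left _ _).trans this, neg_le.1 ((le_max_right _ _).trans this)⟩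

end Wire

theorem wire_proof (h1 : separate_stmt) (h2 : rank_stmt) : wire_stmt := by
  intro c N0 N φ p ν W hc hN hd hφ hE hν
  refine ⟨fun ⟨a1, a2, a3, a4⟩ hF => ?_, fun ⟨a1, a2, a3, a4⟩ hF => ?_⟩
  · obtain ⟨τ, ρ, h, -⟩ := Wire.main (wf := False) h1 h2 hc hN hd hφ hE hν a1 a2 a3 a4
      False.elim (Wire.free_use hF) False.elim
    exact ⟨τ, ρ, h⟩
  · obtain ⟨τ, ρ, h, k⟩ := Wire.main (wf := True) h1 h2 hc hN hd hφ hE hν a1 a2 a3
      (fun F hF hf => a4 F hF (by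
        obtain ⟨C, hC⟩ := Wire.fin_out ν hf
        exact ⟨C, fun x hx => (hC x hx).2⟩))
      (fun _ => a4) (fun F hf => Wire.free_use hF F (Wire.fin_out ν hf)) fun _ => Wire.free_use hF
    exact ⟨τ, ρ, h, k trivial⟩

end Pool.Agent.Sand
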