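import Pool.Agent.Lib.MP_215a10_lc.Dec.Stmts

/-! Wires at unpinned slopes and the cylinder data. -/

set_option autoImplicit false

namespace Pool.Agent.Sand

open Classical

namespace WireU

theorem split (N : ℤ) (x : V) :
    x = (x.1 % N, x.2 % N) + N • (x.1 / N, x.2 / N) := by
  ext
  · simp only [Prod.fst_add, Prod.smul_fst, smul_eq_mul]
    exact (Int.emod_add_mul_ediv x.1 N).symm
  · simp only [Prod.snd_add, Prod.smul_snd, smul_eq_mul]
    exact (Int.emod_add_mul_ediv x.2 N).symm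

theorem box_mem {N : ℤ} (hN : 0 < N) (x : V) :
    ((x.1 % N, x.2 % N) : V) ∈ Finset.Ico (0 : ℤ) N ×ˢ Finset.Ico (0 : ℤ) N := by
  simp only [Finset.mem_product, Finset.mem_Ico]
  exact ⟨⟨Int.emod_nonneg _ hN.ne', Int.emod_lt_of_pos _ hN⟩,
    ⟨Int.emod_nonneg _ hN.ne', Int.emod_lt_of_pos _ hN⟩⟩

theorem qd_add (p : Q2) (x y : V) : qd p (x + y) = qd p x + qd p y := by
  simp only [qd, Prod.fst_add, Prod.snd_add]; push_cast; ring

theorem qd_smul (p : Q2) (N : ℤ) (x : V) : qd p (N • x) = N * qd p x := by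
  simp only [qd, Prod.smul_fst, Prod.smul_snd, smul_eq_mul]; push_cast; ring

theorem near_of_eqv {N : ℤ} {p : Q2} {g : V → ℤ} (hN : 0 < N) (h : Eqv N p g) : Near p g := by
  refine ⟨∑ y ∈ Finset.Ico (0 : ℤ) N ×ˢ Finset.Ico (0 : ℤ) N, |(g y : ℚ) + qd p y|, fun x => ?_⟩
  have h1 : (g x : ℚ) + qd p x = g (x.1 % N, x.2 % N) + qd p (x.1 % N, x.2 % N) := by
    conv_lhs => rw [split N x]
    rw [h, qd_add, qd_smul]; ring
  rw [h1]
  exact Finset.single_le_sum (f := fun y : V => |(g y : ℚ) + qd p y|)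
    (fun _ _ => abs_nonneg _) (box_mem hN x)

theorem am_of_eqv {N : ℤ} {p : Q2} {g : V → ℤ} (hN : 0 < N) (h : Eqv N p g) : AM g := by
  set a1 : ℤ := g (N • ((1, 0) : V)) - g 0 with ha1
  set a2 : ℤ := g (N • ((0, 1) : V)) - g 0 with ha2
  have e1 : (a1 : ℚ) = -(N * p.1) := by
    have := h 0 (1, 0)
    rw [zero_add] at this
    rw [ha1]; push_cast; rw [this]; simp [qd]
  have e2 : (a2 : ℚ) = -(N * p.2) := by
    have := h 0 (0, 1)
    rw [zero_add] at this
    rw [ha2]; push_cast; rw [this]; simp [qd]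
  have key : ∀ y w : V, g (y + N • w) = g y + w.1 * a1 + w.2 * a2 := by
    intro y w
    have := h y w
    have h2 : (g (y + N • w) : ℚ) = ((g y + w.1 * a1 + w.2 * a2 : ℤ) : ℚ) := by
      rw [this]; push_cast; rw [e1, e2]; simp only [qd]; ring
    exact_mod_cast h2
  refine AM.of_graph (P := fun x y => ∃ ρ ∈ (↑(Finset.Ico (0 : ℤ) N ×ˢ Finset.Ico (0 : ℤ) N) : Set V),
    ∃ w : V, x = ρ + N • w ∧ y = g ρ + w.1 * a1 + w.2 * a2) ?_ ?_
  · exact AP.exFin (P := fun ρ (z : V × ℤ) => ∃ w : V,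
      z.1 = ρ + N • w ∧ z.2 = g ρ + w.1 * a1 + w.2 * a2) (Finset.finite_toSet _) fun ρ _ =>
      AP.ex (P := fun (z : V × ℤ) (w : V) =>
        z.1 = ρ + N • w ∧ z.2 = g ρ + w.1 * a1 + w.2 * a2) (by fun_prop)
  · intro x y
    constructor
    · rintro ⟨ρ, -, w, rfl, rfl⟩
      exact key ρ w
    · rintro rfl
      refine ⟨(x.1 % N, x.2 % N), box_mem hN x, (x.1 / N, x.2 / N), split N x, ?_⟩
      rw [← key, ← split N x]

theorem mk5_lt (a b a' b' : ℤ) : mk5 a b 0 0 0 < mk5 a' b' 0 0 0 ↔ mk2 a b < mk2 a' b' := by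
  simp only [mk5, mk2, Prod.Lex.toLex_lt_toLex, lt_self_iff_false, and_false, or_false]

theorem mk5_le (a b a' b' : ℤ) : mk5 a b 0 0 0 ≤ mk5 a' b' 0 0 0 ↔ mk2 a b ≤ mk2 a' b' := by
  rw [← not_lt, ← not_lt, mk5_lt]

theorem mk5_lt1 (a a' : ℤ) : mk5 a 0 0 0 0 < mk5 a' 0 0 0 0 ↔ a < a' := by
  simp only [mk5, Prod.Lex.toLex_lt_toLex, lt_self_iff_false, and_false, or_false]

theorem cd_split {D : ℤ} (hD : 0 < D) (u v : ℤ) :
    cd D (u - v) ≤ u / D - v / D + if -(u % D) < -(v % D) then 1 else 0 := by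
  have h1 := Int.emod_nonneg u hD.ne'
  have h2 := Int.emod_lt_of_pos u hD
  have h3 := Int.emod_nonneg v hD.ne'
  have h4 := Int.emod_lt_of_pos v hD
  have h5 := Int.mul_ediv_add_emod u D
  have h6 := Int.mul_ediv_add_emod v D
  unfold cd
  rw [neg_le]
  refine (Int.le_ediv_iff_mul_le hD).2 ?_
  split_ifs with h <;> nlinarith

theorem cd_scale {D K u s : ℤ} (hD : 0 < D) (hK : 0 < K) (hs : s < K) :
    cd D u ≤ cd (K * D) (K * u - s) := by
  unfold cd
  rw [neg_le_neg_iff]
  have h1 := Int.emod_nonneg (-u) hD.ne'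
  have h2 := Int.emod_lt_of_pos (-u) hD
  have h3 := Int.mul_ediv_add_emod (-u) D
  refine Int.le_of_lt_add_one ((Int.ediv_lt_iff_lt_mul (mul_pos hK hD)).2 ?_)
  have h4 : K * (-u % D) ≤ K * (D - 1) := mul_le_mul_of_nonneg_left (by omega) hK.le
  nlinarith

theorem det_step (n x : V) (i : Fin 4) : |det n (x + e i)| - |det n x| < n1 n + 1 := by
  have h : |det n (x + e i) - det n x| ≤ n1 n := by
    have h1 := abs_nonneg n.1
    have h2 := abs_nonneg n.2
    fin_cases i
    · have : det n (x + e 0) - det n x = -n.2 := by simp [det, e]; ring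
      simp only [Fin.zero_eta]; rw [this, abs_neg, n1]; omega
    · have : det n (x + e 1) - det n x = n.2 := by simp [det, e]; ring
      simp only [Fin.mk_one]; rw [this, n1]; omega
    · have : det n (x + e 2) - det n x = n.1 := by simp [det, e]; ring
      simp only [Fin.reduceFinMk]; rw [this, n1]; omega
    · have : det n (x + e 3) - det n x = -n.1 := by simp [det, e]; ring
      simp only [Fin.reduceFinMk]; rw [this, abs_neg, n1]; omega
  have := abs_sub_abs_le_abs_sub (det n (x + e i)) (det n x)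
  omega

theorem fscd_of_stuck {c φ : V → ℤ} {F : Set V}
    (h : Stuck (fun _ _ => True) (fun x => 4 - c x - lap φ x) F) : FSCD c 1 φ F := by
  intro x hx
  have h1 := h x hx
  have h2 : lapD 1 (fun y => φ y - ind F y) x
      = lap φ x + cnt (fun i => True ∧ x + e i ∉ F) := by
    unfold lapD lap cnt
    rw [← Finset.sum_add_distrib]
    refine Finset.sum_congr rfl fun i _ => ?_
    by_cases hi : x + e i ∈ F
    · simp [cd, ind, hx, hi]
    · simp [cd, ind, hx, hi]; ring
  unfold StD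
  rw [h2]
  beta_reduce at h1
  omega

theorem rankHyp {c φ : V → ℤ} {N0 N : ℤ} {p : Q2} (hc : IsBG c N0) (hN : 0 < N) (hd : N0 ∣ N)
    (hφ : Eqv N p φ) :
    RankHyp (N • ((1, 0) : V)) (N • ((0, 1) : V)) Set.univ (fun _ _ => True)
      (fun x => 4 - c x - lap φ x) := by
  have h1 : ∀ x z : V, 4 - c (x + N • z) - lap φ (x + N • z) = 4 - c x - lap φ x := by
    intro x z
    obtain ⟨k, rfl⟩ := hd
    have h2 : c (x + (N0 * k) • z) = c x := by rw [mul_smul]; exact hc.per x _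
    have h3 : lap φ (x + (N0 * k) • z) = lap φ x := by
      unfold lap
      refine Finset.sum_congr rfl fun i _ => ?_
      have a1 := hφ x z
      have a2 := hφ (x + e i) z
      have a3 : ((φ (x + (N0 * k) • z + e i) - φ (x + (N0 * k) • z) : ℤ) : ℚ)
          = ((φ (x + e i) - φ x : ℤ) : ℚ) := by
        rw [add_right_comm]; push_cast at a1 a2 ⊢; rw [a1, a2]; ring
      exact_mod_cast a3
    rw [h2, h3]
  refine ⟨by simp, by simp, fun x _ => ⟨h1 x _, h1 x _⟩, by simp,
    Finset.Ico (0 : ℤ) N ×ˢ Finset.Ico (0 : ℤ) N, fun x _ => ⟨x.1 / N, x.2 / N, ?_⟩⟩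
  have : x - (x.1 / N) • N • ((1, 0) : V) - (x.2 / N) • N • ((0, 1) : V) = (x.1 % N, x.2 % N) := by
    ext
    · simp [Int.emod_def]; ring
    · simp [Int.emod_def]; ring
  rw [this]
  exact box_mem hN x

theorem tent_of_rank {c φ : V → ℤ} {N : ℤ} {p : Q2} {a b : V → ℤ} (hN : 0 < N) (hφ : Eqv N p φ)
    (ha : AM a) (hb : AM b)
    (h : ∀ x, 4 - c x - lap φ x ≤
      cnt (fun i => True ∧ mk2 (a (x + e i)) (b (x + e i)) < mk2 (a x) (b x))) :
    IsTent c p p φ (fun x => mk5 (a x) (b x) 0 0 0) := by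
  refine ⟨⟨am_of_eqv hN hφ, ⟨a, b, fun _ => 0, fun _ => 0, fun _ => 0, ha, hb, AM.const _,
    AM.const _, AM.const _, rfl⟩, fun x => ?_⟩, ?_⟩
  · have h1 := h x
    unfold SubAt
    simp only [mk5_lt]
    simp only [true_and] at h1
    omega
  · obtain ⟨C, hC⟩ := near_of_eqv hN hφ
    exact ⟨C, fun x => by rw [max_self]; exact hC x⟩

theorem wf_transfer {a b : V → ℤ} {S S' : Set V} (hS : S ⊆ S')
    (h : WFon S' (fun x => mk2 (a x) (b x))) : WFon S (fun x => mk5 (a x) (b x) 0 0 0) := by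
  intro F hF hne
  obtain ⟨x, hx, hm⟩ := h F (hF.trans hS) hne
  exact ⟨x, hx, fun y hy => (mk5_le _ _ _ _).2 (hm y hy)⟩

end WireU

open WireU in
theorem wireU_proof (h1 : unpinned_stmt) : wireU_stmt := by
  intro c N r n hc hr _
  obtain ⟨D, B, hD, hB, hsub⟩ := h1 c N r hc hr
  set K : ℤ := n1 n + 1 with hK
  have hK0 : 0 < K := by
    have := abs_nonneg n.1
    have := abs_nonneg n.2
    rw [hK, n1]; omega
  have hKD : 0 < K * D := mul_pos hK0 hD
  have hA : AM B := am_of_eqv hc.pos hB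
  let B' : V → ℤ := fun x => K * B x - |det n x|
  have hA' : AM B' := by
    have : AM (fun x : V => det n x) := by unfold det; fun_prop
    exact (hA.const_mul K).sub this.abs
  refine ⟨fun x => B' x / (K * D), fun x => mk5 (-(B' x % (K * D))) 0 0 0 0,
    ⟨⟨hA'.ediv _, ⟨fun x => -(B' x % (K * D)), fun _ => 0, fun _ => 0, fun _ => 0, fun _ => 0,
      (hA'.emod _).neg, AM.const _, AM.const _, AM.const _, AM.const _, rfl⟩, fun x => ?_⟩, ?_⟩, ?_⟩
  · refine (hsub x).trans ?_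
    unfold lapD lap cnt
    rw [add_assoc, ← Finset.sum_add_distrib]
    refine add_le_add le_rfl (Finset.sum_le_sum fun i _ => ?_)
    have a1 := cd_scale (u := B (x + e i) - B x) hD hK0 (det_step n x i)
    have a2 := cd_split hKD (B' (x + e i)) (B' x)
    have a3 : B' (x + e i) - B' x
        = K * (B (x + e i) - B x) - (|det n (x + e i)| - |det n x|) := by
      simp only [B']; ring
    rw [a3] at a2
    simp only [mk5_lt1]
    refine (a1.trans a2).trans (le_of_eq ?_)
    split_ifs <;> rfl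
  · obtain ⟨C, hC⟩ := near_of_eqv hc.pos hB
    have hDq : (0 : ℚ) < D := by exact_mod_cast hD
    have hKq : (0 : ℚ) < K := by exact_mod_cast hK0
    refine ⟨1 / (K * D), C / D + 1, by positivity, fun x => ?_⟩
    have b1 := Int.emod_nonneg (B' x) hKD.ne'
    have b2 := Int.emod_lt_of_pos (B' x) hKD
    have b3 := Int.mul_ediv_add_emod (B' x) (K * D)
    have b4 := hC x
    have b5 : qd ((D : ℚ) • r) x = D * qd r x := by
      simp only [qd, Prod.smul_fst, Prod.smul_snd, smul_eq_mul]; ring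
    rw [b5] at b4
    set t : ℤ := B' x / (K * D)
    set m : ℤ := B' x % (K * D)
    have b6 : (K : ℚ) * D * t + m = K * B x - |(det n x : ℚ)| := by
      have : K * D * t + m = K * B x - |det n x| := b3
      exact_mod_cast this
    have b7 : (t : ℚ) + qd r x + 1 / (K * D) * |(det n x : ℚ)|
        = (B x + D * qd r x) / D - m / (K * D) := by
      field_simp
      linear_combination b6
    have b8 : (0 : ℚ) ≤ m / (K * D) := by
      have : (0 : ℚ) ≤ m := by exact_mod_cast b1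
      positivity
    have b9 : (m : ℚ) / (K * D) ≤ 1 := by
      rw [div_le_one (by positivity)]
      exact_mod_cast b2.le
    have b10 : |((B x : ℚ) + D * qd r x) / D| ≤ C / D := by
      rw [abs_div, abs_of_pos hDq]
      exact div_le_div_of_nonneg_right b4 hDq.le
    rw [b7, abs_le]
    obtain ⟨c1, c2⟩ := abs_le.1 b10
    constructor <;> linarith
  · intro C F _ hne
    obtain ⟨t, ⟨x, hx, rfl⟩, hm⟩ := Int.exists_least_of_bdd
      (P := fun t => ∃ x ∈ F, -(B' x % (K * D)) = t)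
      ⟨-(K * D), by
        rintro t ⟨x, -, rfl⟩
        have := Int.emod_lt_of_pos (B' x) hKD
        omega⟩
      (let ⟨x, hx⟩ := hne; ⟨_, x, hx, rfl⟩)
    refine ⟨x, hx, fun y hy => ?_⟩
    rw [← not_lt, mk5_lt1, not_lt]
    exact hm _ ⟨y, hy, rfl⟩

open WireU in
theorem cyl_proof (h1 : rank_stmt) : cyl_stmt := by
  intro c N0 N φ hc hN hd
  constructor
  · intro p n s hφ hn hF hp hs hpos
    have hdet : ∀ x, dot (rot n) x = det n x := by
      intro x; simp only [dot, rot, det]; ring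
    obtain ⟨r, ⟨a, b, ha, hb, rfl⟩, hr, hw, -⟩ := h1 _ _ (rot n) _ _ _ (rankHyp hc hN hd hφ)
      (fun F _ hb hs => hF F (by simpa only [IBand, hdet] using hb) (fscd_of_stuck hs))
    refine ⟨φ, _, tent_of_rank hN hφ ha hb (fun x => hr x trivial), fun C => ?_⟩
    set μ : ℚ := s * qd p (rot n) with hμ
    refine wf_transfer ?_ (hw (max C ⌈(C * dot n n : ℚ) / μ⌉))
    rintro x ⟨h2, h3⟩
    refine ⟨trivial, ?_⟩
    have h4 : μ * (s * det n x : ℤ) = qd p x * dot n n := by
      have hs2 : (s : ℚ) * s = 1 := by rcases hs with rfl | rfl <;> norm_num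
      simp only [qd, rot, det, dot] at hp hμ ⊢
      push_cast at hp hμ ⊢
      rw [hμ]
      linear_combination (p.1 * (-n.2) + p.2 * n.1) * (n.1 * x.2 - n.2 * x.1) * hs2
        - (n.1 * x.1 + n.2 * x.2) * hp
    have h5 : (0 : ℚ) ≤ dot n n := by
      have : 0 ≤ dot n n := by simp only [dot]; nlinarith [mul_self_nonneg n.1, mul_self_nonneg n.2]
      exact_mod_cast this
    have h6 : ((s * det n x : ℤ) : ℚ) ≤ (C * dot n n : ℚ) / μ := by
      rw [le_div_iff₀ hpos, mul_comm, h4]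
      exact mul_le_mul_of_nonneg_right h3 h5
    have h7 : s * det n x ≤ ⌈(C * dot n n : ℚ) / μ⌉ := by
      have := h6.trans (Int.le_ceil _)
      exact_mod_cast this
    have h8 := le_max_left C ⌈(C * dot n n : ℚ) / μ⌉
    have h9 := le_max_right C ⌈(C * dot n n : ℚ) / μ⌉
    rw [hdet, abs_le]
    rcases hs with rfl | rfl <;> constructor <;> linarith
  · intro η hφ hF
    have hH : ∀ F ⊆ Set.univ, IHalf η F →
        Stuck (fun _ _ => True) (fun x => 4 - c x - lap φ x) F → F = ∅ :=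
      fun F _ hb hs => hF F hb (fscd_of_stuck hs)
    obtain ⟨r, ⟨a, b, ha, hb, rfl⟩, hr, -, hw⟩ := h1 _ _ η _ _ _ (rankHyp hc hN hd hφ)
      (fun F hu ⟨C, hC⟩ hs => hH F hu ⟨C, fun x hx => (abs_le.1 (hC x hx)).1⟩ hs)
    exact ⟨φ, _, tent_of_rank hN hφ ha hb (fun x => hr x trivial),
      fun C => wf_transfer (fun x hx => And.intro (Set.mem_univ x) hx) (hw hH C)⟩

end Pool.Agent.Sand
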