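import Pool.Agent.Lib.MP_215a10_lc.Dec.Local6
import Pool.Agent.Lib.MP_215a10_lc.Dec.Budget
import Pool.Agent.Lib.MP_215a10_lc.Dec.Cells
import Pool.Agent.Lib.MP_215a10_lc.Dec.Check
import Pool.Agent.Lib.MP_215a10_lc.Dec.Edges
import Pool.Agent.Lib.MP_215a10_lc.Dec.Esound
import Pool.Agent.Lib.MP_215a10_lc.Dec.Macro1
import Pool.Agent.Lib.MP_215a10_lc.Dec.Macro2
import Pool.Agent.Lib.MP_215a10_lc.Dec.Macro3
import Pool.Agent.Lib.MP_215a10_lc.Dec.Planar
import Pool.Agent.Lib.MP_215a10_lc.Dec.Poly
import Pool.Agent.Lib.MP_215a10_lc.Dec.Pot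
import Pool.Agent.Lib.MP_215a10_lc.Dec.PsiD
import Pool.Agent.Lib.MP_215a10_lc.Dec.PumpA
import Pool.Agent.Lib.MP_215a10_lc.Dec.PumpB
import Pool.Agent.Lib.MP_215a10_lc.Dec.Ramp
import Pool.Agent.Lib.MP_215a10_lc.Dec.Rank
import Pool.Agent.Lib.MP_215a10_lc.Dec.Rankplus
import Pool.Agent.Lib.MP_215a10_lc.Dec.Raysys
import Pool.Agent.Lib.MP_215a10_lc.Dec.Rsound
import Pool.Agent.Lib.MP_215a10_lc.Dec.Tent
import Pool.Agent.Lib.MP_215a10_lc.Dec.TriA
import Pool.Agent.Lib.MP_215a10_lc.Dec.TriB
import Pool.Agent.Lib.MP_215a10_lc.Dec.Unpinned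
import Pool.Agent.Lib.MP_215a10_lc.Dec.Wire
import Pool.Agent.Lib.MP_215a10_lc.Dec.WireU

/-! Explosiveness of periodic sandpiles on the square grid is decidable. -/

set_option autoImplicit false

namespace Pool.Agent.Sand

theorem all_proof : All :=
  have rank := rank_proof rankplus_proof
  have ph := ph_proof dvof_proof dickson_proof
  have ph0 := ph0_proof dvof_proof dickson_proof
  { vfind := vfind_proof, spgrid := spgrid_proof, smallt := smallt_proof, clmove := clmove_proof
    breaks := breaks_proof, budget := budget_proof pot_proof, finphase := finphase_proof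
    triA := triA_proof pot_proof cone_proof lanes_proof separate_proof
    triB := triB_proof pot_proof rankplus_proof, wire := wire_proof separate_proof rank
    wireU := wireU_proof unpinned_proof, cyl := cyl_proof rank
    tentU := tentU_proof pot_proof unpinned_proof, tentP := tentP_proof pot_proof rank
    psi := psi_proof, descent := descent_proof finphase_proof, cycramp := cycramp_proof psi_proof
    stepramp := stepramp_proof psi_proof, rampM := rampM_proof finphase_proof, dvof := dvof_proof
    lowfin := lowfin_proof dvof_proof, lowband := lowband_proof dvof_proof dickson_proof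
    ystar := ystar_proof dvof_proof ph, enter := enter_proof dvof_proof ph0
    kmax := kmax_proof dvof_proof ph0, kmax0 := kmax0_proof dvof_proof
    kmaxC := kmaxC_proof dvof_proof (phC_proof dvof_proof dickson_proof)
    rcertA := rcertA_proof dvof_proof dickson_proof, rcertB := rcertB_proof
    pumpA := pumpA_proof, pumpB := pumpB_proof, poly0 := poly0_proof raysys_proof
    poly := poly_proof raysys_proof edges_proof, edges := edges_proof }

lemma isBG_cT (t : ℕ × ℕ × List ℕ) : IsBG (cT t) (NT t) := by
  refine ⟨by unfold NT; positivity, fun x z => ?_, fun x => by unfold cT; positivity, fun x => ?_⟩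
  · have h1 : (x + NT t • z).1 % ((t.1 : ℤ) + 1) = x.1 % ((t.1 : ℤ) + 1) := by
      simp only [NT, Prod.fst_add, Prod.smul_fst, smul_eq_mul, mul_assoc, Int.add_mul_emod_self_left]
    have h2 : (x + NT t • z).2 % ((t.2.1 : ℤ) + 1) = x.2 % ((t.2.1 : ℤ) + 1) := by
      simp only [NT, Prod.snd_add, Prod.smul_snd, smul_eq_mul]
      rw [mul_comm ((t.1 : ℤ) + 1), mul_assoc, Int.add_mul_emod_self_left]
    unfold cT; rw [h1, h2]
  · unfold cT; exact_mod_cast min_le_right _ _

theorem explosive_computable : ComputablePred (fun t : ℕ × ℕ × List ℕ => ¬ Robust (cT t)) := by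
  refine ComputablePred.computable_iff_re_compl_re'.2 ⟨?_, ?_⟩
  · refine reE_proof.of_eq fun t => ⟨esound_proof _ _ (isBG_cT t), fun h => ?_⟩
    exact (complete all_proof (isBG_cT t)).resolve_right fun h' => h (rsound_proof _ _ (isBG_cT t) h')
  · refine reR_proof.of_eq fun t => ⟨fun h h' => h' (rsound_proof _ _ (isBG_cT t) h), fun h => ?_⟩
    exact (complete all_proof (isBG_cT t)).resolve_left fun h' => h (esound_proof _ _ (isBG_cT t) h')

end Pool.Agent.Sand
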