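import Pool.Agent.Lib.MP_215a10_lc.Dec.Stmts

/-! Translation, rescaling and plane geometry for the assembly of a ray system. -/

set_option autoImplicit false

namespace Pool.Agent.Sand.Poly

open Pool.Agent.Sand Classical

/-! ### translations -/

theorem sub_shift {c : V → ℤ} {N : ℤ} (hc : IsBG c N) {τ : V → ℤ} {ρ : V → R5} (h : IsSub c τ ρ)
    {a : V} (ha : ∃ z, a = N • z) (g : ℤ) :
    IsSub c (fun x => τ (x - a) - g) (fun x => ρ (x - a)) := by
  obtain ⟨h1, ⟨a1, a2, a3, a4, a5, b1, b2, b3, b4, b5, rfl⟩, h3⟩ := h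
  obtain ⟨z, rfl⟩ := ha
  refine ⟨by fun_prop, ⟨fun x => a1 (x - N • z), fun x => a2 (x - N • z), fun x => a3 (x - N • z),
    fun x => a4 (x - N • z), fun x => a5 (x - N • z), by fun_prop, by fun_prop, by fun_prop,
    by fun_prop, by fun_prop, rfl⟩, fun x => ?_⟩
  have h4 := h3 (x - N • z)
  have h5 := hc.per (x - N • z) z
  rw [sub_add_cancel] at h5
  simp only [SubAt, lap, sub_add_eq_add_sub, sub_sub_sub_cancel_right] at h4 ⊢
  rw [h5]
  exact h4

theorem wfon_shift {S S' : Set V} {ρ : V → R5} (h : WFon S ρ) (a : V)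
    (hS : ∀ x ∈ S', x - a ∈ S) : WFon S' (fun x => ρ (x - a)) := by
  intro F hF hne
  obtain ⟨_, ⟨x, hx, rfl⟩, h2⟩ := h ((fun x => x - a) '' F)
    (by rintro _ ⟨x, hx, rfl⟩; exact hS x (hF hx)) (hne.image _)
  exact ⟨x, hx, fun y hy => h2 _ ⟨y, hy, rfl⟩⟩

theorem wfon_mono {S S' : Set V} {ρ : V → R5} (h : WFon S ρ) (hS : S' ⊆ S) : WFon S' ρ :=
  fun F hF hne => h F (hF.trans hS) hne

theorem det_sub (n x y : V) : det n (x - y) = det n x - det n y := by
  simp only [det, Prod.fst_sub, Prod.snd_sub]; ring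

theorem det_add (n x y : V) : det n (x + y) = det n x + det n y := by
  simp only [det, Prod.fst_add, Prod.snd_add]; ring

theorem dot_sub (n x y : V) : dot n (x - y) = dot n x - dot n y := by
  simp only [dot, Prod.fst_sub, Prod.snd_sub]; ring

theorem dot_add (n x y : V) : dot n (x + y) = dot n x + dot n y := by
  simp only [dot, Prod.fst_add, Prod.snd_add]; ring

theorem qd_sub (p : Q2) (x y : V) : qd p (x - y) = qd p x - qd p y := by
  simp only [qd, Prod.fst_sub, Prod.snd_sub]; push_cast; ring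

theorem qd_add (p : Q2) (x y : V) : qd p (x + y) = qd p x + qd p y := by
  simp only [qd, Prod.fst_add, Prod.snd_add]; push_cast; ring

theorem qd_zero (x : V) : qd 0 x = 0 := by simp [qd]

theorem wfdir_shift {n : V} {ρ : V → R5} (h : WFdir n ρ) (a : V) :
    WFdir n (fun x => ρ (x - a)) := by
  intro C
  refine wfon_shift (h (C + |det n a| + |dot n a|)) a fun x hx => ⟨?_, ?_⟩
  · have := abs_sub (det n x) (det n a)
    rw [det_sub]
    linarith [hx.1, abs_nonneg (dot n a)]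
  · rw [dot_sub]
    linarith [hx.2, abs_nonneg (det n a), le_abs_self (dot n a)]

theorem one_le_dot {n : V} (h : n ≠ 0) : 1 ≤ dot n n := by
  by_contra h1
  unfold dot at h1
  have h2 : n.1 = 0 := by nlinarith [mul_self_nonneg n.1, mul_self_nonneg n.2]
  have h3 : n.2 = 0 := by nlinarith [mul_self_nonneg n.1, mul_self_nonneg n.2]
  exact h (Prod.ext h2 h3)

/-! ### rescaling the direction of a wire -/

theorem wire_rescale {c : V → ℤ} {p : Q2} {ν n : V} (hn : n ≠ 0) (h0 : det ν n = 0)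
    (h1 : 0 < dot ν n) {τ : V → ℤ} {ρ : V → R5} :
    (IsWire c p ν τ ρ → IsWire c p n τ ρ) ∧ (WFdir ν ρ → WFdir n ρ) := by
  have h2 := one_le_dot hn
  have e1 : ∀ x, dot n n * det ν x = dot ν n * det n x := fun x => by
    unfold det at h0
    unfold dot det
    linear_combination (n.1 * x.1 + n.2 * x.2) * h0
  have e2 : ∀ x, dot n n * dot ν x = dot ν n * dot n x := fun x => by
    unfold det at h0
    unfold dot
    linear_combination (n.2 * x.1 - n.1 * x.2) * h0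
  have e3 : ∀ x, dot n n * |det ν x| = dot ν n * |det n x| := fun x => by
    have := congrArg abs (e1 x)
    rwa [abs_mul, abs_mul, abs_of_pos h1, abs_of_pos (by omega : 0 < dot n n)] at this
  constructor
  · rintro ⟨hs, ε, C, hε, hb⟩
    have h3 : (0 : ℚ) < dot n n := by exact_mod_cast (by omega : 0 < dot n n)
    have h4 : (0 : ℚ) < dot ν n := by exact_mod_cast h1
    refine ⟨hs, ε * dot ν n / dot n n, C, by positivity, fun x => ?_⟩
    have h5 : (dot n n : ℚ) * |(det ν x : ℚ)| = dot ν n * |(det n x : ℚ)| := by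
      exact_mod_cast e3 x
    have h6 : ε * dot ν n / dot n n * |(det n x : ℚ)| = ε * |(det ν x : ℚ)| := by
      field_simp
      linarith
    rw [h6]
    exact hb x
  · intro h C
    refine wfon_mono (h (dot ν n * C)) fun x hx => ⟨?_, ?_⟩
    · have h3 := mul_le_mul_of_nonneg_left hx.1 h1.le
      nlinarith [e3 x, abs_nonneg (det ν x)]
    · have h3 := mul_le_mul_of_nonneg_left hx.2 h1.le
      have h4 : 0 ≤ C := (abs_nonneg _).trans hx.1
      have h5 := e2 x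
      rcases le_total 0 (dot ν x) with h6 | h6
      · nlinarith
      · nlinarith

theorem hasWire_rescale {c : V → ℤ} {p : Q2} {ν n : V} (hn : n ≠ 0) (h0 : det ν n = 0)
    (h1 : 0 < dot ν n) :
    (HasWire c p ν → HasWire c p n) ∧ (HasWFWire c p ν → HasWFWire c p n) :=
  ⟨fun ⟨τ, ρ, h⟩ => ⟨τ, ρ, (wire_rescale hn h0 h1).1 h⟩,
    fun ⟨τ, ρ, h, h'⟩ => ⟨τ, ρ, (wire_rescale hn h0 h1).1 h, (wire_rescale (c := c) (p := p)
      (τ := τ) hn h0 h1).2 h'⟩⟩

theorem wf_wire {c : V → ℤ} {p : Q2} {ν : V} (h : HasWFWire c p ν) : HasWire c p ν :=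
  let ⟨τ, ρ, h, _⟩ := h
  ⟨τ, ρ, h⟩

/-! ### choices -/

theorem best_wire (c : V → ℤ) (p : Q2) (ν : V) (W : Prop) (h : W → HasWire c p ν) :
    ∃ (τ : V → ℤ) (ρ : V → R5) (ε C : ℚ), 0 < ε ∧ (W → IsSub c τ ρ ∧
      (∀ x, abs ((τ x : ℚ) + qd p x + ε * |(det ν x : ℚ)|) ≤ C) ∧
      (HasWFWire c p ν → WFdir ν ρ)) := by
  by_cases h1 : HasWFWire c p ν
  · obtain ⟨τ, ρ, ⟨h2, ε, C, h3, h4⟩, h5⟩ := h1
    exact ⟨τ, ρ, ε, C, h3, fun _ => ⟨h2, h4, fun _ => h5⟩⟩
  by_cases h0 : W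
  · obtain ⟨τ, ρ, h2, ε, C, h3, h4⟩ := h h0
    exact ⟨τ, ρ, ε, C, h3, fun _ => ⟨h2, h4, fun h5 => (h1 h5).elim⟩⟩
  · exact ⟨0, fun _ => mk5 0 0 0 0 0, 1, 0, one_pos, fun h5 => (h0 h5).elim⟩

theorem best_tent {c : V → ℤ} {q q' : Q2} (n : V) (h : HasTent c q q') :
    ∃ (τ : V → ℤ) (ρ : V → R5) (C : ℚ), IsSub c τ ρ ∧
      (∀ x, |(τ x : ℚ) + max (qd q x) (qd q' x)| ≤ C) ∧ (HasWFTent c q q' n → WFdir n ρ) := by
  by_cases h1 : HasWFTent c q q' n
  · obtain ⟨τ, ρ, ⟨h2, C, h4⟩, h5⟩ := h1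
    exact ⟨τ, ρ, C, h2, h4, fun _ => h5⟩
  · obtain ⟨τ, ρ, h2, C, h4⟩ := h
    exact ⟨τ, ρ, C, h2, h4, fun h5 => (h1 h5).elim⟩

theorem exists_bound {ι : Type} [Finite ι] (f : ι → ℚ) : ∃ C : ℕ, ∀ i, f i ≤ C := by
  obtain ⟨B, hB⟩ := (Set.finite_range f).bddAbove
  obtain ⟨C, hC⟩ := exists_nat_ge B
  exact ⟨C, fun i => (hB ⟨i, rfl⟩).trans hC⟩

theorem exists_width {ι : Type} [Finite ι] (ε : ι → ℚ) (h : ∀ i, 0 < ε i) (C : ℕ) :
    ∃ W : ℤ, (C : ℤ) < W ∧ ∀ i, 20 * ((C : ℚ) + 1) ^ 2 ≤ ε i * (W - C - 1) := by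
  obtain ⟨B, hB⟩ := exists_bound fun i => 20 * ((C : ℚ) + 1) ^ 2 / ε i
  refine ⟨C + 1 + B, by omega, fun i => ?_⟩
  have := (div_le_iff₀ (h i)).1 (hB i)
  push_cast
  linarith

theorem exists_scale {ι : Type} [Finite ι] (q : ι → Q2) {N : ℤ} (hN : 0 < N) (M0 : ℕ) :
    ∃ (M : ℚ) (P : ι → V) (g : ι → ι → ℤ), M0 ≤ M ∧ 0 < M ∧ (∀ a, toQ (P a) = M • q a) ∧
      (∀ a, ∃ z, P a = N • z) ∧ ∀ a b, (g a b : ℚ) = qd (q a) (P b) := by
  obtain ⟨D, hD⟩ := IsLocalization.exist_integer_multiples_of_finite (nonZeroDivisors ℤ)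
    (fun x : ι × Bool => if x.2 then (q x.1).1 else (q x.1).2)
  choose u hu using fun a => hD (a, true)
  choose v hv using fun a => hD (a, false)
  have hu' : ∀ a, (u a : ℚ) = (D : ℤ) * (q a).1 := fun a => by simpa using hu a
  have hv' : ∀ a, (v a : ℚ) = (D : ℤ) * (q a).2 := fun a => by simpa using hv a
  have h1 : (1 : ℚ) ≤ ((D : ℤ) : ℚ) ^ 2 := by
    exact_mod_cast sq_pos_of_ne_zero (nonZeroDivisors.coe_ne_zero D)
  have h2 : (1 : ℚ) ≤ N := by exact_mod_cast hN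
  have h3 : (0 : ℚ) ≤ M0 := Nat.cast_nonneg _
  have h4 : (1 : ℚ) ≤ N * ((D : ℤ) : ℚ) ^ 2 := one_le_mul_of_one_le_of_one_le h2 h1
  refine ⟨N * ((D : ℤ) : ℚ) ^ 2 * (M0 + 1), fun a => N • (((D : ℤ) * (M0 + 1)) • (u a, v a)),
    fun a b => N * (M0 + 1) * (u a * u b + v a * v b), by nlinarith, by nlinarith, fun a => ?_,
    fun a => ⟨_, rfl⟩, fun a b => ?_⟩
  · refine Prod.ext ?_ ?_
    · simp only [toQ, Prod.smul_mk, smul_eq_mul, Prod.smul_fst]
      push_cast
      rw [hu']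
      ring
    · simp only [toQ, Prod.smul_mk, smul_eq_mul, Prod.smul_snd]
      push_cast
      rw [hv']
      ring
  · simp only [qd, Prod.smul_mk, smul_eq_mul]
    push_cast
    rw [hu', hu', hv', hv']
    ring

/-! ### the affine functions `q x - M q q` -/

theorem comp_eq {M : ℚ} {q : Q2} {P : V} (h : toQ P = M • q) :
    (P.1 : ℚ) = M * q.1 ∧ (P.2 : ℚ) = M * q.2 :=
  ⟨congrArg Prod.fst h, congrArg Prod.snd h⟩

theorem comp_rot {t : ℚ} {q q' : Q2} {n : V} (h : q - q' = t • toQ (rot n)) :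
    q.1 = q'.1 - t * n.2 ∧ q.2 = q'.2 + t * n.1 := by
  have h1 := congrArg Prod.fst h
  have h2 := congrArg Prod.snd h
  simp only [toQ, rot, Prod.fst_sub, Prod.snd_sub, Prod.smul_mk, smul_eq_mul, Int.cast_neg] at h1 h2
  constructor <;> linarith

theorem qd_symm {M : ℚ} {q q' : Q2} {P P' : V} (h : toQ P = M • q) (h' : toQ P' = M • q') :
    qd q P' = qd q' P := by
  simp only [qd, (comp_eq h).1, (comp_eq h).2, (comp_eq h').1, (comp_eq h').2]
  ring

theorem ldiff {M t : ℚ} {q q' : Q2} {P P' n : V} (h : toQ P = M • q) (h' : toQ P' = M • q')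
    (e : q - q' = t • toQ (rot n)) (x : V) :
    qd q x - qd q P - (qd q' x - qd q' P') = t * (det n (x - (P + P')) : ℤ) := by
  simp only [qd, det, Prod.fst_sub, Prod.snd_sub, Prod.fst_add, Prod.snd_add]
  push_cast
  simp only [(comp_eq h).1, (comp_eq h).2, (comp_eq h').1, (comp_eq h').2, (comp_rot e).1,
    (comp_rot e).2]
  ring

theorem ddiff {M t : ℚ} {q q' : Q2} {P P' n : V} (h : toQ P = M • q) (h' : toQ P' = M • q')
    (e : q - q' = t • toQ (rot n)) : ((det n (P - P') : ℤ) : ℚ) = M * t * (dot n n : ℤ) := by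
  simp only [dot, det, Prod.fst_sub, Prod.snd_sub]
  push_cast
  simp only [(comp_eq h).1, (comp_eq h).2, (comp_eq h').1, (comp_eq h').2, (comp_rot e).1,
    (comp_rot e).2]
  ring

theorem qd_rot_eq {t : ℚ} {q q' : Q2} {n : V} (e : q - q' = t • toQ (rot n)) :
    qd q n = qd q' n ∧ qd q (rot n) = qd q' (rot n) + t * (dot n n : ℤ) := by
  simp only [qd, dot, rot, (comp_rot e).1, (comp_rot e).2]
  push_cast
  constructor <;> ring

def sg : Bool → ℤ
  | true => 1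
  | false => -1

/-- `y` lies beyond `y0` in the direction `± rot n` -/
def Bey (b : Bool) (n : V) (y0 y : Q2) : Prop :=
  ∃ t : ℚ, 0 ≤ sg b * t ∧ y - y0 = t • toQ (rot n)

theorem Bey.rfl (b : Bool) (n : V) (y : Q2) : Bey b n y y := ⟨0, by simp, by simp⟩

theorem Bey.trans {b : Bool} {n : V} {x y z : Q2} (h : Bey b n x y) (h' : Bey b n y z) :
    Bey b n x z := by
  obtain ⟨t, h1, h2⟩ := h
  obtain ⟨t', h3, h4⟩ := h'
  refine ⟨t + t', by linarith, ?_⟩
  rw [add_smul, ← h2, ← h4]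
  abel

theorem bey_det {M : ℚ} (hM : 0 < M) {b : Bool} {q q' : Q2} {P P' n : V} (h : toQ P = M • q)
    (h' : toQ P' = M • q') (e : Bey b n q' q) : 0 ≤ sg b * det n (P - P') := by
  obtain ⟨t, h1, h2⟩ := e
  have h3 := ddiff h h' h2
  have h4 : (0 : ℚ) ≤ (dot n n : ℤ) := by
    unfold dot
    exact_mod_cast add_nonneg (mul_self_nonneg _) (mul_self_nonneg _)
  have h5 : (0 : ℚ) ≤ sg b * ((det n (P - P') : ℤ) : ℚ) := by
    rw [h3]
    have := mul_nonneg (mul_nonneg hM.le h1) h4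
    linarith
  exact_mod_cast h5

theorem cyl_geo {M : ℚ} (hM : 0 < M) {b : Bool} {q0 q q' : Q2} {P0 P P' n x : V}
    (h0 : toQ P0 = M • q0) (h : toQ P = M • q) (h' : toQ P' = M • q') (e : Bey b n q0 q)
    (e' : Bey b n q0 q') (hx : 0 ≤ sg b * det n (x - (P + P'))) :
    0 ≤ sg b * det n (x - (P0 + P0)) ∧ qd q0 x - qd q0 P0 ≤ qd q x - qd q P := by
  have a1 := bey_det hM h h0 e
  have a2 := bey_det hM h' h0 e'
  have a3 : 0 ≤ sg b * det n (x - (P + P0)) := by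
    simp only [det_sub, det_add] at *
    linarith
  refine ⟨by simp only [det_sub, det_add] at *; linarith, ?_⟩
  obtain ⟨t, h1, h2⟩ := e
  have a4 := ldiff h h0 h2 x
  have a5 : (0 : ℚ) ≤ sg b * ((det n (x - (P + P0)) : ℤ) : ℚ) := by exact_mod_cast a3
  have a6 := mul_nonneg h1 a5
  have a7 : ((sg b : ℤ) : ℚ) * sg b = 1 := by cases b <;> simp [sg]
  have a8 : (sg b : ℚ) * t * (sg b * ((det n (x - (P + P0)) : ℤ) : ℚ)) =
      t * ((det n (x - (P + P0)) : ℤ) : ℚ) := by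
    linear_combination t * ((det n (x - (P + P0)) : ℤ) : ℚ) * a7
  linarith

/-! ### cones -/

theorem pluecker (n m n' y : V) :
    det n m * det n' y - det n n' * det m y + det n y * det m n' = 0 := by
  unfold det
  ring

theorem cone1 {n m n' y : V} (h1 : 0 < det n m) (h2 : 0 < det m n') (h3 : 0 ≤ det n n')
    (h4 : 0 ≤ det n y) (h5 : det m y ≤ 0) : det n' y ≤ 0 := by
  have := pluecker n m n' y
  by_contra h
  nlinarith [mul_pos h1 (not_le.1 h), mul_nonneg h4 h2.le, mul_nonneg h3 (neg_nonneg.2 h5)]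

theorem cone2 {n m n' y : V} (h1 : 0 < det n m) (h2 : 0 < det m n') (h3 : 0 ≤ det n n')
    (h4 : 0 ≤ det m y) (h5 : det n' y ≤ 0) : 0 ≤ det n y := by
  have := pluecker n m n' y
  by_contra h
  nlinarith [mul_pos (neg_pos.2 (not_le.1 h)) h2, mul_nonneg h3 h4,
    mul_nonneg h1.le (neg_nonneg.2 h5)]

theorem n1_le {n y : V} (hn : n ≠ 0) {K : ℤ} (h1 : |dot n y| ≤ K) (h2 : |det n y| ≤ K) :
    n1 y ≤ 2 * (K * n1 n) := by
  have h3 := one_le_dot hn
  have e1 : dot n n * y.1 = dot n y * n.1 - det n y * n.2 := by unfold dot det; ring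
  have e2 : dot n n * y.2 = dot n y * n.2 + det n y * n.1 := by unfold dot det; ring
  have a1 := abs_sub (dot n y * n.1) (det n y * n.2)
  have a2 := abs_add_le (dot n y * n.2) (det n y * n.1)
  rw [← e1] at a1
  rw [← e2] at a2
  simp only [abs_mul, abs_of_pos (by omega : 0 < dot n n)] at a1 a2
  unfold n1
  nlinarith [abs_nonneg y.1, abs_nonneg y.2, abs_nonneg n.1, abs_nonneg n.2,
    mul_le_mul_of_nonneg_right h1 (abs_nonneg n.1), mul_le_mul_of_nonneg_right h1 (abs_nonneg n.2),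
    mul_le_mul_of_nonneg_right h2 (abs_nonneg n.1), mul_le_mul_of_nonneg_right h2 (abs_nonneg n.2)]

theorem mixed_aux {A B P D K2 K3 : ℤ} (hD : 1 ≤ D) (hB : 0 < B) (h2 : 0 ≤ K2) (h3 : 0 ≤ K3)
    (a1 : -K2 ≤ A) (a2 : D * A ≤ P * B) (a3 : P * A + D * B ≤ K3) :
    B ≤ K3 + |P| * K2 ∧ A ≤ |P| * (K3 + |P| * K2) := by
  rcases le_total P 0 with h | h
  · have b1 : A ≤ 0 := by nlinarith
    have b2 : 0 ≤ |P| * K2 := by positivity
    have b3 : 0 ≤ |P| * (K3 + |P| * K2) := by positivity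
    exact ⟨by nlinarith [mul_nonneg_of_nonpos_of_nonpos h b1], by linarith⟩
  · rw [abs_of_nonneg h]
    have b1 : B ≤ K3 + P * K2 := by nlinarith [mul_le_mul_of_nonneg_left a1 h]
    refine ⟨b1, ?_⟩
    have b2 := mul_le_mul_of_nonneg_left b1 h
    rcases le_total A 0 with h' | h'
    · nlinarith
    · nlinarith

theorem mixed1 {n n' : V} (hn : n ≠ 0) (h : 0 < det n n' ∨ (det n n' = 0 ∧ dot n n' < 0))
    (cc : V) : ∃ R : ℤ, ∀ x, R < n1 x → 0 ≤ dot n x → dot n' x < 0 → 0 < det n (x - cc) →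
      det n' (x - cc) ≤ 0 := by
  have h3 := one_le_dot hn
  have e1 : ∀ y, dot n n * det n' y = dot n n' * det n y - det n n' * dot n y := fun y => by
    unfold dot det; ring
  have e2 : ∀ y, dot n n * dot n' y = dot n n' * dot n y + det n n' * det n y := fun y => by
    unfold dot det; ring
  rcases h with h | h
  · obtain ⟨K4, hK4⟩ : ∃ K4, K4 = dot n n * |dot n' cc| + |dot n n'| * |dot n cc| := ⟨_, rfl⟩
    refine ⟨2 * ((|dot n cc| + K4 + |dot n n'| * K4) * n1 n) + n1 cc, fun x hx a1 a2 a3 => ?_⟩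
    by_contra a4
    rw [not_le] at a4
    have b1 := e1 (x - cc)
    have b2 := e2 (x - cc)
    have b3 : dot n' (x - cc) ≤ |dot n' cc| := by
      rw [dot_sub]
      linarith [neg_abs_le (dot n' cc)]
    have b4 : -|dot n cc| ≤ dot n (x - cc) := by
      rw [dot_sub]
      linarith [le_abs_self (dot n cc)]
    obtain ⟨b5, b6⟩ := mixed_aux (P := dot n n') (K3 := dot n n * |dot n' cc|) h a3 (abs_nonneg _)
      (by positivity) b4 (by nlinarith) (by nlinarith)
    rw [← hK4] at b5 b6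
    have b7 : 0 ≤ |dot n n'| * K4 := by rw [hK4]; positivity
    have b8 := n1_le (y := x - cc) (K := |dot n cc| + K4 + |dot n n'| * K4) hn
      (abs_le.2 ⟨by linarith, by linarith [abs_nonneg (dot n cc)]⟩)
      (abs_le.2 ⟨by linarith [abs_nonneg (dot n cc)], by linarith [abs_nonneg (dot n cc)]⟩)
    have b9 : n1 x ≤ n1 (x - cc) + n1 cc := by
      have c1 := abs_add_le (x.1 - cc.1) cc.1
      have c2 := abs_add_le (x.2 - cc.2) cc.2
      rw [sub_add_cancel] at c1 c2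
      simp only [n1, Prod.fst_sub, Prod.snd_sub]
      linarith
    linarith
  · refine ⟨0, fun x _ _ _ a3 => ?_⟩
    have b1 := e1 (x - cc)
    rw [h.1] at b1
    by_contra a4
    nlinarith [mul_pos (neg_pos.2 h.2) a3, mul_pos (by omega : 0 < dot n n) (not_le.1 a4)]

theorem mixed2 {n n' : V} (hn : n' ≠ 0) (h : 0 < det n n' ∨ (det n n' = 0 ∧ dot n n' < 0))
    (cc : V) : ∃ R : ℤ, ∀ x, R < n1 x → dot n x < 0 → 0 ≤ dot n' x → det n' (x - cc) < 0 →
      0 ≤ det n (x - cc) := by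
  have e1 : ∀ a b : V, det a.swap b.swap = -det a b := fun a b => by simp [det]
  have e2 : ∀ a b : V, dot a.swap b.swap = dot a b := fun a b => by simp [dot]; ring
  have e3 : det n'.swap n.swap = det n n' := by simp [det]; ring
  have e4 : dot n'.swap n.swap = dot n n' := by simp [dot]; ring
  obtain ⟨R, hR⟩ := mixed1 (n := n'.swap) (n' := n.swap)
    (fun h0 => hn (by simpa using congrArg Prod.swap h0)) (by rw [e3, e4]; exact h) cc.swap
  refine ⟨R, fun x hx a1 a2 a3 => ?_⟩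
  have b1 := hR x.swap (by simpa [n1, add_comm] using hx) (by rwa [e2]) (by rwa [e2])
  have e5 : x.swap - cc.swap = (x - cc).swap := rfl
  rw [e5, e1, e1] at b1
  linarith [b1 (by linarith)]

end Pool.Agent.Sand.Poly
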