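import Pool.Agent.Lib.MP_215a10_lc.Dec.Poly1

/-! Cyclic chains of segments with junctions, and their rays and sectors. -/

set_option autoImplicit false

namespace Pool.Agent.Sand.Poly

open Pool.Agent.Sand Classical

/-- Segment `a` goes from `q a` to `q (sc a)`; it is followed by the junction `a`. -/
structure Pre where
  Nd : Type
  fin : Finite Nd
  sc : Nd → Nd
  q : Nd → Q2
  n : Nd → V
  m : Nd → V
  Vt : Nd → Prop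
  w1 : Nd → Prop
  w3 : Nd → Prop

instance (K : Pre) : Finite K.Nd := K.fin

inductive Ry (K : Pre) : Type
  | A (a : K.Nd)
  | X (a : K.Nd)
  | U (a : K.Nd) (h : K.Vt a)
  | Y (a : K.Nd) (h : K.Vt a)

inductive Sc (K : Pre) : Type
  | s0 (a : K.Nd)
  | s1 (a : K.Nd) (h : K.Vt a)
  | s2 (a : K.Nd) (h : K.Vt a)
  | s3 (a : K.Nd) (h : K.Vt a)
  | s4 (a : K.Nd) (h : ¬ K.Vt a)

def Ry.code {K : Pre} : Ry K → K.Nd × Fin 4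
  | .A a => (a, 0)
  | .X a => (a, 1)
  | .U a _ => (a, 2)
  | .Y a _ => (a, 3)

def Sc.code {K : Pre} : Sc K → K.Nd × Fin 5
  | .s0 a => (a, 0)
  | .s1 a _ => (a, 1)
  | .s2 a _ => (a, 2)
  | .s3 a _ => (a, 3)
  | .s4 a _ => (a, 4)

instance (K : Pre) : Finite (Ry K) :=
  Finite.of_injective Ry.code (by
    intro r r' h
    cases r <;> cases r' <;> simp_all [Ry.code])

instance (K : Pre) : Finite (Sc K) :=
  Finite.of_injective Sc.code (by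
    intro r r' h
    cases r <;> cases r' <;> simp_all [Sc.code])

namespace Pre

variable (K : Pre)

def nd : Ry K → K.Nd
  | .A a => a
  | .X a => K.sc a
  | .U a _ => K.sc a
  | .Y a _ => K.sc a

def ν : Ry K → V
  | .A a => K.n a
  | .X a => K.n a
  | .U a _ => K.m a
  | .Y a _ => K.n (K.sc a)

def isW : Ry K → Prop
  | .A _ => False
  | .X a => K.w1 a
  | .U a _ => ¬ K.w1 a ∧ ¬ K.w3 a
  | .Y a _ => K.w3 a

def jn : Sc K → K.Nd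
  | .s0 a => a
  | .s1 a _ => a
  | .s2 a _ => a
  | .s3 a _ => a
  | .s4 a _ => a

def lo : Sc K → Ry K
  | .s0 a => .A a
  | .s1 a _ => .X a
  | .s2 a h => .U a h
  | .s3 a h => .Y a h
  | .s4 a _ => .X a

def hi : Sc K → Ry K
  | .s0 a => .X a
  | .s1 a h => .U a h
  | .s2 a h => .Y a h
  | .s3 a _ => .A (K.sc a)
  | .s4 a _ => .A (K.sc a)

noncomputable def el : Sc K → K.Nd ⊕ K.Nd
  | .s0 a => .inl a
  | .s1 a _ => if K.w1 a then (if K.w3 a then .inr a else .inl (K.sc a)) else .inl a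
  | .s2 a _ => if K.w3 a then (if K.w1 a then .inr a else .inl a) else .inl (K.sc a)
  | .s3 a _ => .inl (K.sc a)
  | .s4 a _ => .inl (K.sc a)

def cen (P : K.Nd → V) : Ry K → V
  | .A a => P a + P (K.sc a)
  | .X a => P (K.sc a) + P (K.sc a)
  | .U a _ => P (K.sc a) + P (K.sc a)
  | .Y a _ => P (K.sc a) + P (K.sc a)

def JOK (c : V → ℤ) (r : Ry K) (b : Bool) : Prop :=
  K.isW r ∧ HasWFWire c (K.q (K.nd r)) (K.ν r) ∧ qd (K.q (K.nd r)) (K.ν r) = 0 ∧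
    0 ≤ sg b * qd (K.q (K.nd r)) (rot (K.ν r)) ∧ CylData c (K.q (K.nd r)) (K.ν r) (sg b)

def Cover (c : V → ℤ) (b : Bool) (y : Q2) (n : V) : Prop :=
  ∃ r, K.JOK c r b ∧ K.ν r = n ∧ Bey b n (K.q (K.nd r)) y

structure Good (c : V → ℤ) : Prop where
  ne : Nonempty K.Nd
  surj : Function.Surjective K.sc
  hn : ∀ a, K.n a ≠ 0
  hq : ∀ a, ∃ μ : ℚ, 0 < μ ∧ K.q (K.sc a) - K.q a = μ • toQ (rot (K.n a))
  hs : ∀ a, 0 ≤ qd (K.q a) (K.n a)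
  hI : ∀ a, ¬ K.Vt a → K.n (K.sc a) = K.n a ∧ K.w1 a
  hV : ∀ a, K.Vt a → 0 < det (K.n a) (K.m a) ∧ 0 < det (K.m a) (K.n (K.sc a)) ∧
    (0 < det (K.n a) (K.n (K.sc a)) ∨
      (det (K.n a) (K.n (K.sc a)) = 0 ∧ dot (K.n a) (K.n (K.sc a)) < 0))
  tent : ∀ a, HasTent c (K.q a) (K.q (K.sc a))
  wire : ∀ r, K.isW r → HasWire c (K.q (K.nd r)) (K.ν r)
  seg : ∀ a, 0 < qd (K.q a) (K.n a) ∨ HasWFTent c (K.q a) (K.q (K.sc a)) (K.n a) ∨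
    K.Cover c true (K.q a) (K.n a) ∨ K.Cover c false (K.q (K.sc a)) (K.n a)
  zero : ∀ a, K.Vt a → K.w1 a → K.w3 a → K.q (K.sc a) = 0 ∧ ∃ η : V, 0 ≤ dot η (K.n a) ∧
    0 ≤ dot η (K.m a) ∧ 0 ≤ dot η (K.n (K.sc a)) ∧ ZeroLink c η
  mpos : ∀ a, K.Vt a → ¬ (K.w1 a ∧ K.w3 a) → 0 < qd (K.q (K.sc a)) (K.m a)
  c1 : ∀ a, K.Vt a → ¬ (K.w1 a ∧ K.w3 a) → 0 < qd (K.q (K.sc a)) (K.n a) ∨
    (¬ K.w1 a ∧ HasWFTent c (K.q a) (K.q (K.sc a)) (K.n a)) ∨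
    K.Cover c true (K.q (K.sc a)) (K.n a)
  c2 : ∀ a, K.Vt a → ¬ (K.w1 a ∧ K.w3 a) → 0 < qd (K.q (K.sc a)) (K.n (K.sc a)) ∨
    (¬ K.w3 a ∧ HasWFTent c (K.q (K.sc a)) (K.q (K.sc (K.sc a))) (K.n (K.sc a))) ∨
    K.Cover c false (K.q (K.sc a)) (K.n (K.sc a))
  ww1 : ∀ a, K.w1 a → 0 < qd (K.q (K.sc a)) (K.n a) ∨ HasWFWire c (K.q (K.sc a)) (K.n a) ∨
    (K.Cover c true (K.q a) (K.n a) ∧ (K.Vt a → ¬ K.w3 a)) ∨
    (¬ K.Vt a ∧ K.Cover c false (K.q (K.sc (K.sc a))) (K.n a))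
  ww3 : ∀ a, K.Vt a → K.w3 a → 0 < qd (K.q (K.sc a)) (K.n (K.sc a)) ∨
    HasWFWire c (K.q (K.sc a)) (K.n (K.sc a)) ∨
    (K.Cover c false (K.q (K.sc (K.sc a))) (K.n (K.sc a)) ∧ ¬ K.w1 a)

abbrev J (c : V → ℤ) : Type := {j : Ry K × Bool // K.JOK c j.1 j.2}

/-- the chosen functions and constants -/
structure Dat (c : V → ℤ) (N : ℤ) where
  M : ℚ
  P : K.Nd → V
  g : K.Nd → K.Nd → ℤ
  tτ : K.Nd → V → ℤ
  tρ : K.Nd → V → R5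
  zτ : K.Nd → V → ℤ
  zρ : K.Nd → V → R5
  wτ : Ry K → V → ℤ
  wρ : Ry K → V → R5
  ε : Ry K → ℚ
  ψ : K.J c → V → ℤ
  κ : K.J c → V → R5
  C0 : ℕ
  Wd : ℤ
  hM : 0 < M
  hP : ∀ a, toQ (P a) = M • K.q a
  hN : ∀ a, ∃ z, P a = N • z
  hg : ∀ a b, (g a b : ℚ) = qd (K.q a) (P b)
  hν : ∀ r, n1 (K.ν r) ≤ C0
  ht : ∀ a, IsSub c (tτ a) (tρ a) ∧
    (∀ x, |(tτ a x : ℚ) + max (qd (K.q a) x) (qd (K.q (K.sc a)) x)| ≤ C0) ∧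
    (HasWFTent c (K.q a) (K.q (K.sc a)) (K.n a) → WFdir (K.n a) (tρ a))
  hz : ∀ a, IsSub c (zτ a) (zρ a) ∧ (K.Vt a → K.w1 a → K.w3 a → (∀ x, |(zτ a x : ℚ)| ≤ C0) ∧
    ∃ η : V, 0 ≤ dot η (K.n a) ∧ 0 ≤ dot η (K.m a) ∧ 0 ≤ dot η (K.n (K.sc a)) ∧
      ∀ C : ℤ, WFon {x | -C ≤ dot η x} (zρ a))
  hw : ∀ r, K.isW r → IsSub c (wτ r) (wρ r) ∧
    (∀ x, abs ((wτ r x : ℚ) + qd (K.q (K.nd r)) x + ε r * |(det (K.ν r) x : ℚ)|) ≤ C0) ∧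
    (HasWFWire c (K.q (K.nd r)) (K.ν r) → WFdir (K.ν r) (wρ r))
  hε : ∀ r, 0 < ε r ∧ ε r ≤ C0 ∧ 20 * ((C0 : ℚ) + 1) ^ 2 ≤ ε r * (Wd - C0 - 1)
  hWd : (C0 : ℤ) < Wd
  hwid : ∀ a, Wd ≤ det (K.n a) (P (K.sc a) - P a)
  hj : ∀ j, IsSub c (ψ j) (κ j) ∧ (∀ x, |(ψ j x : ℚ) + qd (K.q (K.nd j.1.1)) x| ≤ C0) ∧
    ∀ C : ℤ, WFon {x | -C ≤ sg j.1.2 * det (K.ν j.1.1) x ∧ qd (K.q (K.nd j.1.1)) x ≤ C} (κ j)

variable {K}

theorem exists_dat {c : V → ℤ} {N : ℤ} (hN : 0 < N) (G : K.Good c) : Nonempty (K.Dat c N) := by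
  choose tτ tρ tC ht1 ht2 ht3 using fun a => best_tent (K.n a) (G.tent a)
  choose wτ wρ ε wC hw1 hw2 using fun r => best_wire c _ _ _ (G.wire r)
  have hz : ∀ a, ∃ (τ : V → ℤ) (ρ : V → R5) (C : ℚ), IsSub c τ ρ ∧
      (K.Vt a → K.w1 a → K.w3 a → (∀ x, |(τ x : ℚ)| ≤ C) ∧
      ∃ η : V, 0 ≤ dot η (K.n a) ∧ 0 ≤ dot η (K.m a) ∧ 0 ≤ dot η (K.n (K.sc a)) ∧
        ∀ C : ℤ, WFon {x | -C ≤ dot η x} ρ) := by
    intro a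
    by_cases h : K.Vt a ∧ K.w1 a ∧ K.w3 a
    · obtain ⟨-, η, h1, h2, h3, τ, ρ, ⟨h4, C, h5⟩, h6⟩ := G.zero a h.1 h.2.1 h.2.2
      exact ⟨τ, ρ, C, h4, fun _ _ _ => ⟨fun x => by simpa [qd_zero] using h5 x, η, h1, h2, h3, h6⟩⟩
    · exact ⟨tτ a, tρ a, 0, ht1 a, fun h1 h2 h3 => (h ⟨h1, h2, h3⟩).elim⟩
  choose zτ zρ zC hz1 hz2 using hz
  have hj : ∀ j : K.J c, ∃ (τ : V → ℤ) (ρ : V → R5) (C : ℚ), IsSub c τ ρ ∧
      (∀ x, |(τ x : ℚ) + qd (K.q (K.nd j.1.1)) x| ≤ C) ∧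
      ∀ C : ℤ, WFon {x | -C ≤ sg j.1.2 * det (K.ν j.1.1) x ∧ qd (K.q (K.nd j.1.1)) x ≤ C} ρ := by
    intro j
    obtain ⟨τ, ρ, ⟨h1, C, h2⟩, h3⟩ := j.2.2.2.2.2
    exact ⟨τ, ρ, C, h1, fun x => by simpa using h2 x, h3⟩
  choose ψ κ jC hj1 hj2 hj3 using hj
  obtain ⟨C0, hC⟩ := exists_bound (ι := Ry K ⊕ Ry K ⊕ Ry K ⊕ K.Nd ⊕ K.Nd ⊕ K.J c)
    (Sum.elim (fun r => (n1 (K.ν r) : ℚ)) (Sum.elim ε (Sum.elim wC (Sum.elim tC (Sum.elim zC jC)))))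
  obtain ⟨Wd, hW1, hW2⟩ := exists_width ε hw1 C0
  choose μ hμ1 hμ2 using G.hq
  obtain ⟨M0, hM0⟩ := exists_bound fun a => (Wd : ℚ) / μ a
  obtain ⟨M, P, g, h1, h2, h3, h4, h5⟩ := exists_scale K.q hN M0
  refine ⟨⟨M, P, g, tτ, tρ, zτ, zρ, wτ, wρ, ε, ψ, κ, C0, Wd, h2, h3, h4, h5, fun r => ?_,
    fun a => ⟨ht1 a, fun x => (ht2 a x).trans (hC (.inr (.inr (.inr (.inl a))))), ht3 a⟩,
    fun a => ⟨hz1 a, fun a1 a2 a3 => ⟨fun x => ((hz2 a a1 a2 a3).1 x).trans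
      (hC (.inr (.inr (.inr (.inr (.inl a)))))), (hz2 a a1 a2 a3).2⟩⟩,
    fun r hr => ⟨(hw2 r hr).1, fun x => ((hw2 r hr).2.1 x).trans (hC (.inr (.inr (.inl r)))),
      (hw2 r hr).2.2⟩,
    fun r => ⟨hw1 r, hC (.inr (.inl r)), hW2 r⟩, hW1, fun a => ?_,
    fun j => ⟨hj1 j, fun x => (hj2 j x).trans (hC (.inr (.inr (.inr (.inr (.inr j)))))),
      hj3 j⟩⟩⟩
  · have := hC (.inl r)
    simp only [Sum.elim_inl] at this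
    exact_mod_cast this
  · have a1 := ddiff (h3 (K.sc a)) (h3 a) (hμ2 a)
    have a2 : (1 : ℚ) ≤ (dot (K.n a) (K.n a) : ℤ) := by exact_mod_cast one_le_dot (G.hn a)
    have a3 := (div_le_iff₀ (hμ1 a)).1 ((hM0 a).trans h1)
    have a4 : (Wd : ℚ) ≤ (det (K.n a) (P (K.sc a) - P a) : ℤ) := by
      rw [a1]
      nlinarith [mul_pos h2 (hμ1 a)]
    exact_mod_cast a4

theorem Good.bey {c : V → ℤ} (G : K.Good c) (a : K.Nd) :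
    Bey true (K.n a) (K.q a) (K.q (K.sc a)) ∧ Bey false (K.n a) (K.q (K.sc a)) (K.q a) := by
  obtain ⟨μ, h1, h2⟩ := G.hq a
  refine ⟨⟨μ, by simpa [sg] using h1.le, h2⟩, -μ, by simpa [sg] using h1.le, ?_⟩
  rw [neg_smul, ← h2, neg_sub]

theorem Good.qn {c : V → ℤ} (G : K.Good c) (a : K.Nd) :
    qd (K.q (K.sc a)) (K.n a) = qd (K.q a) (K.n a) :=
  let ⟨_, _, h⟩ := G.hq a
  (qd_rot_eq h).1

theorem Good.det_nonneg {c : V → ℤ} (G : K.Good c) {a : K.Nd} (h : K.Vt a) :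
    0 ≤ det (K.n a) (K.n (K.sc a)) :=
  (G.hV a h).2.2.elim le_of_lt fun h => h.1.ge

theorem cen_of_isW (P : K.Nd → V) {r : Ry K} (h : K.isW r) :
    K.cen P r = P (K.nd r) + P (K.nd r) := by
  cases r
  · exact h.elim
  all_goals rfl

/-- the affine function of a node -/
def Dat.l {c : V → ℤ} {N : ℤ} (D : K.Dat c N) (a : K.Nd) (x : V) : ℚ :=
  qd (K.q a) x - qd (K.q a) (D.P a)

theorem Dat.l_le {c : V → ℤ} {N : ℤ} (G : K.Good c) (D : K.Dat c N) (a : K.Nd) (x : V) :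
    (D.l a x ≤ D.l (K.sc a) x ↔ 0 ≤ det (K.n a) (x - (D.P a + D.P (K.sc a)))) ∧
    (D.l (K.sc a) x ≤ D.l a x ↔ det (K.n a) (x - (D.P a + D.P (K.sc a))) ≤ 0) := by
  obtain ⟨μ, h1, h2⟩ := G.hq a
  have h3 := ldiff (D.hP (K.sc a)) (D.hP a) h2 x
  rw [add_comm (D.P (K.sc a))] at h3
  constructor
  · rw [← sub_nonneg, Dat.l, Dat.l, h3, mul_nonneg_iff_of_pos_left h1]
    exact Int.cast_nonneg_iff
  · rw [← sub_nonpos, Dat.l, Dat.l, h3, mul_nonpos_iff_pos_imp_nonpos]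
    simp [h1, h1.le]

/-- every far point lies between two consecutive rays -/
theorem Dat.cover {c : V → ℤ} {N : ℤ} (G : K.Good c) (D : K.Dat c N) :
    ∃ R0 : ℤ, ∀ x, R0 < n1 x → ∃ σ : Sc K,
      0 ≤ det (K.ν (K.lo σ)) (x - K.cen D.P (K.lo σ)) ∧
      det (K.ν (K.hi σ)) (x - K.cen D.P (K.hi σ)) ≤ 0 ∧
      (K.ν (K.lo σ) = K.ν (K.hi σ) → 0 ≤ dot (K.ν (K.lo σ)) x) := by
  have hR : ∀ a, ∃ R : ℤ, K.Vt a → ∀ x, R < n1 x →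
      (0 ≤ dot (K.n a) x → dot (K.n (K.sc a)) x < 0 →
        0 < det (K.n a) (x - (D.P (K.sc a) + D.P (K.sc a))) →
        det (K.n (K.sc a)) (x - (D.P (K.sc a) + D.P (K.sc a))) ≤ 0) ∧
      (dot (K.n a) x < 0 → 0 ≤ dot (K.n (K.sc a)) x →
        det (K.n (K.sc a)) (x - (D.P (K.sc a) + D.P (K.sc a))) < 0 →
        0 ≤ det (K.n a) (x - (D.P (K.sc a) + D.P (K.sc a)))) := by
    intro a
    by_cases h : K.Vt a
    · obtain ⟨R1, h1⟩ := mixed1 (G.hn a) (G.hV a h).2.2 (D.P (K.sc a) + D.P (K.sc a))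
      obtain ⟨R2, h2⟩ := mixed2 (G.hn (K.sc a)) (G.hV a h).2.2 (D.P (K.sc a) + D.P (K.sc a))
      exact ⟨max R1 R2, fun _ x hx => ⟨h1 x (lt_of_le_of_lt (le_max_left _ _) hx),
        h2 x (lt_of_le_of_lt (le_max_right _ _) hx)⟩⟩
    · exact ⟨0, fun h' => (h h').elim⟩
  choose R hR using hR
  obtain ⟨R0, hR0⟩ := (Set.finite_range R).bddAbove
  refine ⟨R0, fun x hx => ?_⟩
  have hne := G.ne
  obtain ⟨a0, ha0⟩ : ∃ a, 0 ≤ dot (K.n a) x := by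
    obtain ⟨a, ha⟩ := Finite.exists_min fun a => qd (K.q a) (rot x)
    obtain ⟨μ, h1, h2⟩ := G.hq a
    have h3 := ha (K.sc a)
    simp only [qd, rot, (comp_rot h2).1, (comp_rot h2).2] at h3
    have h4 : (0 : ℚ) ≤ μ * (dot (K.n a) x : ℤ) := by
      unfold dot
      push_cast at h3 ⊢
      linarith
    exact ⟨a, Int.cast_nonneg_iff.1 ((mul_nonneg_iff_of_pos_left h1).1 h4)⟩
  obtain ⟨a, ha, hmax⟩ := Set.exists_max_image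
    {a | 0 ≤ dot (K.n a) x ∨ 0 ≤ dot (K.n (K.sc a)) x} (fun a => D.l (K.sc a) x)
    (Set.toFinite _) ⟨a0, .inl ha0⟩
  have hL : 0 ≤ dot (K.n a) x → 0 ≤ det (K.n a) (x - (D.P a + D.P (K.sc a))) := by
    intro h
    obtain ⟨b, hb⟩ := G.surj a
    have := hmax b (.inr (hb ▸ h))
    rw [hb] at this
    exact (D.l_le G a x).1.1 this
  have hRr : 0 ≤ dot (K.n (K.sc a)) x →
      det (K.n (K.sc a)) (x - (D.P (K.sc a) + D.P (K.sc (K.sc a)))) ≤ 0 :=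
    fun h => (D.l_le G (K.sc a) x).2.1 (hmax (K.sc a) (.inl h))
  by_cases hv : K.Vt a
  · obtain ⟨m1, m2⟩ := hR a hv x (lt_of_le_of_lt (hR0 ⟨a, rfl⟩) hx)
    obtain ⟨d1, d2, -⟩ := G.hV a hv
    by_cases h0 : 0 ≤ dot (K.n a) x ∧ det (K.n a) (x - (D.P (K.sc a) + D.P (K.sc a))) ≤ 0
    · exact ⟨.s0 a, hL h0.1, h0.2, fun _ => h0.1⟩
    by_cases h3 : 0 ≤ dot (K.n (K.sc a)) x ∧
        0 ≤ det (K.n (K.sc a)) (x - (D.P (K.sc a) + D.P (K.sc a)))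
    · exact ⟨.s3 a hv, h3.2, hRr h3.1, fun _ => h3.1⟩
    have h4 : 0 ≤ det (K.n a) (x - (D.P (K.sc a) + D.P (K.sc a))) ∧
        det (K.n (K.sc a)) (x - (D.P (K.sc a) + D.P (K.sc a))) ≤ 0 := by
      have ha' : 0 ≤ dot (K.n a) x ∨ 0 ≤ dot (K.n (K.sc a)) x := ha
      omega
    rcases le_total (det (K.m a) (x - (D.P (K.sc a) + D.P (K.sc a)))) 0 with h5 | h5
    · refine ⟨.s1 a hv, h4.1, h5, fun e => ?_⟩
      have e' : K.n a = K.m a := e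
      rw [← e'] at d1
      simp [det, mul_comm] at d1
    · refine ⟨.s2 a hv, h5, h4.2, fun e => ?_⟩
      have e' : K.m a = K.n (K.sc a) := e
      rw [e'] at d2
      simp [det, mul_comm] at d2
  · have e := (G.hI a hv).1
    have h0 : 0 ≤ dot (K.n a) x := by
      have ha' : 0 ≤ dot (K.n a) x ∨ 0 ≤ dot (K.n (K.sc a)) x := ha
      rwa [e, or_self] at ha'
    rcases le_total (det (K.n a) (x - (D.P (K.sc a) + D.P (K.sc a)))) 0 with h5 | h5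
    · exact ⟨.s0 a, hL h0, h5, fun _ => h0⟩
    · exact ⟨.s4 a hv, h5, hRr (e ▸ h0), fun _ => h0⟩

end Pre

end Pool.Agent.Sand.Poly
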