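import Pool.Agent.Lib.MP_215a10_lc.Dec.Poly2

/-! The ray system of a chain. -/

set_option autoImplicit false

namespace Pool.Agent.Sand.Poly.Pre.Dat

open Pool.Agent.Sand Classical

variable {K : Pre} {c : V → ℤ} {N : ℤ} (D : K.Dat c N)

def π : K.Nd ⊕ K.Nd → V → ℤ
  | .inl a => fun x => D.tτ a (x - (D.P a + D.P (K.sc a))) - D.g a (K.sc a)
  | .inr a => D.zτ a

def πρ : K.Nd ⊕ K.Nd → V → R5
  | .inl a => fun x => D.tρ a (x - (D.P a + D.P (K.sc a)))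
  | .inr a => D.zρ a

noncomputable def sys : RaySys where
  R := Ry K
  S := Sc K
  P := K.Nd ⊕ K.Nd
  J := K.J c
  fR := Fintype.ofFinite _
  fS := Fintype.ofFinite _
  fP := Fintype.ofFinite _
  fJ := Fintype.ofFinite _
  cen := K.cen D.P
  ν := K.ν
  isW := K.isW
  lo := K.lo
  hi := K.hi
  el := K.el
  sp σ := K.q (K.sc (K.jn σ))
  sγ σ := qd (K.q (K.sc (K.jn σ))) (D.P (K.sc (K.jn σ)))
  rp r := K.q (K.nd r)
  rγ r := qd (K.q (K.nd r)) (D.P (K.nd r))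
  π := D.π
  πρ := D.πρ
  w r x := D.wτ r (x - (D.P (K.nd r) + D.P (K.nd r))) - D.g (K.nd r) (K.nd r)
  wρ r x := D.wρ r (x - (D.P (K.nd r) + D.P (K.nd r)))
  ε := D.ε
  jr j := j.1.1
  js j := sg j.1.2
  ψ j x := D.ψ j (x - (D.P (K.nd j.1.1) + D.P (K.nd j.1.1))) - D.g (K.nd j.1.1) (K.nd j.1.1)
  κ j x := D.κ j (x - (D.P (K.nd j.1.1) + D.P (K.nd j.1.1)))
  C0 := D.C0
  Wd := D.Wd

theorem lat (a b : K.Nd) : ∃ z, D.P a + D.P b = N • z := by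
  obtain ⟨z, h⟩ := D.hN a
  obtain ⟨z', h'⟩ := D.hN b
  exact ⟨z + z', by rw [h, h', smul_add]⟩

theorem wid (a : K.Nd) : 0 ≤ det (K.n a) (D.P (K.sc a)) - det (K.n a) (D.P a) := by
  have h1 := D.hwid a
  have h2 := D.hWd
  rw [det_sub] at h1
  omega

theorem tent_bd (a : K.Nd) (x : V) :
    |(D.π (.inl a) x : ℚ) + max (D.l a x) (D.l (K.sc a) x)| ≤ D.C0 := by
  have h := (D.ht a).2.1 (x - (D.P a + D.P (K.sc a)))
  have e := qd_symm (D.hP a) (D.hP (K.sc a))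
  have e1 : qd (K.q a) (x - (D.P a + D.P (K.sc a))) = D.l a x - D.g a (K.sc a) := by
    rw [qd_sub, qd_add, D.hg, l]
    ring
  have e2 : qd (K.q (K.sc a)) (x - (D.P a + D.P (K.sc a))) = D.l (K.sc a) x - D.g a (K.sc a) := by
    rw [qd_sub, qd_add, D.hg, l, e]
    ring
  rw [e1, e2, max_sub_sub_right] at h
  have e3 : (D.π (.inl a) x : ℚ) + max (D.l a x) (D.l (K.sc a) x) =
      D.tτ a (x - (D.P a + D.P (K.sc a))) + (max (D.l a x) (D.l (K.sc a) x) - D.g a (K.sc a)) := by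
    simp only [π]
    push_cast
    ring
  rwa [e3]

theorem qd_cen (a : K.Nd) (x : V) :
    qd (K.q a) (x - (D.P a + D.P a)) = D.l a x - D.g a a := by
  rw [qd_sub, qd_add, D.hg, l]
  ring

theorem zero_bd (G : K.Good c) {a : K.Nd} (h : K.Vt a) (h1 : K.w1 a) (h3 : K.w3 a) (x : V) :
    |(D.π (.inr a) x : ℚ) + D.l (K.sc a) x| ≤ D.C0 := by
  rw [l, (G.zero a h h1 h3).1, qd_zero, qd_zero, sub_zero, add_zero]
  exact ((D.hz a).2 h h1 h3).1 x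

theorem el_cases (σ : Sc K) : K.el σ = .inl (K.jn σ) ∨ K.el σ = .inl (K.sc (K.jn σ)) ∨
    (K.el σ = .inr (K.jn σ) ∧ K.Vt (K.jn σ) ∧ K.w1 (K.jn σ) ∧ K.w3 (K.jn σ)) := by
  cases σ with
  | s0 a => exact .inl rfl
  | s1 a h => by_cases h1 : K.w1 a <;> by_cases h3 : K.w3 a <;> simp [el, jn, h, h1, h3]
  | s2 a h => by_cases h1 : K.w1 a <;> by_cases h3 : K.w3 a <;> simp [el, jn, h, h1, h3]
  | s3 a h => exact .inr (.inl rfl)
  | s4 a h => exact .inr (.inl rfl)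

theorem up (G : K.Good c) (σ : Sc K) (x : V) :
    (D.π (K.el σ) x : ℚ) ≤ -D.l (K.sc (K.jn σ)) x + D.C0 := by
  rcases el_cases σ with h | h | ⟨h, h1, h2, h3⟩ <;> rw [h]
  · linarith [(abs_le.1 (D.tent_bd (K.jn σ) x)).2,
      le_max_right (D.l (K.jn σ) x) (D.l (K.sc (K.jn σ)) x)]
  · linarith [(abs_le.1 (D.tent_bd (K.sc (K.jn σ)) x)).2,
      le_max_left (D.l (K.sc (K.jn σ)) x) (D.l (K.sc (K.sc (K.jn σ))) x)]
  · linarith [(abs_le.1 (D.zero_bd G h1 h2 h3 x)).2]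

theorem lowL (G : K.Good c) {a : K.Nd} {x : V}
    (h : 0 ≤ det (K.n a) (x - (D.P a + D.P (K.sc a)))) :
    -D.l (K.sc a) x - D.C0 ≤ (D.π (.inl a) x : ℚ) := by
  have h1 := D.tent_bd a x
  rw [max_eq_right ((D.l_le G a x).1.2 h)] at h1
  linarith [(abs_le.1 h1).1]

theorem lowR (G : K.Good c) {a : K.Nd} {x : V}
    (h : det (K.n a) (x - (D.P a + D.P (K.sc a))) ≤ 0) :
    -D.l a x - D.C0 ≤ (D.π (.inl a) x : ℚ) := by
  have h1 := D.tent_bd a x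
  rw [max_eq_left ((D.l_le G a x).2.2 h)] at h1
  linarith [(abs_le.1 h1).1]

theorem lowM (G : K.Good c) (σ : Sc K) {x : V}
    (h1 : 0 ≤ det (K.n (K.jn σ)) (x - (D.P (K.sc (K.jn σ)) + D.P (K.sc (K.jn σ)))))
    (h2 : det (K.n (K.sc (K.jn σ))) (x - (D.P (K.sc (K.jn σ)) + D.P (K.sc (K.jn σ)))) ≤ 0) :
    -D.l (K.sc (K.jn σ)) x - D.C0 ≤ (D.π (K.el σ) x : ℚ) := by
  have w1 := D.wid (K.jn σ)
  have w2 := D.wid (K.sc (K.jn σ))
  rcases el_cases σ with h | h | ⟨h, a1, a2, a3⟩ <;> rw [h]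
  · refine D.lowL G ?_
    simp only [det_sub, det_add] at h1 ⊢
    linarith
  · refine D.lowR G ?_
    simp only [det_sub, det_add] at h2 ⊢
    linarith
  · linarith [(abs_le.1 (D.zero_bd G a1 a2 a3 x)).1]

theorem low (G : K.Good c) (σ : Sc K) (x : V) (hx : x ∈ D.sys.Sec σ) :
    -D.l (K.sc (K.jn σ)) x - D.C0 ≤ (D.π (K.el σ) x : ℚ) := by
  cases σ with
  | s0 a => exact D.lowL G hx.1
  | s1 a h =>
    exact D.lowM G (.s1 a h) hx.1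
      (cone1 (G.hV a h).1 (G.hV a h).2.1 (G.det_nonneg h) hx.1 hx.2.1)
  | s2 a h =>
    exact D.lowM G (.s2 a h) (cone2 (G.hV a h).1 (G.hV a h).2.1 (G.det_nonneg h) hx.1 hx.2.1)
      hx.2.1
  | s3 a h => exact D.lowR G hx.2.1
  | s4 a h => exact D.lowR G hx.2.1

theorem cyl (σ : Sc K) {b : Bool} {r : Ry K} (hj : K.JOK c r b) {n : V} (hn : K.ν r = n)
    (hdir : D.sys.SecDir σ n) (a' : K.Nd) (h1 : Bey b n (K.q (K.nd r)) (K.q (K.sc (K.jn σ))))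
    (h2 : Bey b n (K.q (K.nd r)) (K.q a'))
    (hreg : ∀ x ∈ D.sys.Sec σ, 0 ≤ sg b * det n (x - (D.P (K.sc (K.jn σ)) + D.P a'))) :
    D.sys.CylSec σ ⟨(r, b), hj⟩ := by
  subst hn
  refine ⟨hdir, fun x hx => ?_⟩
  have h := cyl_geo D.hM (D.hP _) (D.hP _) (D.hP _) h1 h2 (hreg x hx)
  refine ⟨?_, h.2⟩
  show 0 ≤ sg b * det (K.ν r) (x - K.cen D.P r)
  rw [cen_of_isW D.P hj.1]
  exact h.1

theorem sg_t {z : ℤ} (h : 0 ≤ z) : 0 ≤ sg true * z := by simpa [sg] using h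

theorem sg_f {z : ℤ} (h : z ≤ 0) : 0 ≤ sg false * z := by simpa [sg] using h

theorem cyl0t (G : K.Good c) {r : Ry K} (hj : K.JOK c r true) {a : K.Nd} (hn : K.ν r = K.n a)
    (h : Bey true (K.n a) (K.q (K.nd r)) (K.q a)) : D.sys.CylSec (.s0 a) ⟨(r, true), hj⟩ :=
  D.cyl (.s0 a) hj hn ⟨.inr rfl, .inr rfl⟩ a (h.trans (G.bey a).1) h fun x hx => by
    have h1 : 0 ≤ det (K.n a) (x - (D.P a + D.P (K.sc a))) := hx.1
    rw [add_comm] at h1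
    exact sg_t h1

theorem cyl0f {r : Ry K} (hj : K.JOK c r false) {a : K.Nd} (hn : K.ν r = K.n a)
    (h : Bey false (K.n a) (K.q (K.nd r)) (K.q (K.sc a))) :
    D.sys.CylSec (.s0 a) ⟨(r, false), hj⟩ :=
  D.cyl (.s0 a) hj hn ⟨.inr rfl, .inr rfl⟩ (K.sc a) h h fun _ hx =>
    sg_f hx.2.1

theorem cyl1 {r : Ry K} (hj : K.JOK c r true) {a : K.Nd} (hv : K.Vt a) (hn : K.ν r = K.n a)
    (hm : 0 < qd (K.q (K.sc a)) (K.m a)) (h : Bey true (K.n a) (K.q (K.nd r)) (K.q (K.sc a))) :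
    D.sys.CylSec (.s1 a hv) ⟨(r, true), hj⟩ :=
  D.cyl (.s1 a hv) hj hn ⟨.inr rfl, .inl hm⟩ (K.sc a) h h fun _ hx =>
    sg_t hx.1

theorem cyl2 {r : Ry K} (hj : K.JOK c r false) {a : K.Nd} (hv : K.Vt a)
    (hn : K.ν r = K.n (K.sc a)) (hm : 0 < qd (K.q (K.sc a)) (K.m a))
    (h : Bey false (K.n (K.sc a)) (K.q (K.nd r)) (K.q (K.sc a))) :
    D.sys.CylSec (.s2 a hv) ⟨(r, false), hj⟩ :=
  D.cyl (.s2 a hv) hj hn ⟨.inl hm, .inr rfl⟩ (K.sc a) h h fun _ hx =>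
    sg_f hx.2.1

theorem cyl3t {r : Ry K} (hj : K.JOK c r true) {a : K.Nd} (hv : K.Vt a)
    (hn : K.ν r = K.n (K.sc a)) (h : Bey true (K.n (K.sc a)) (K.q (K.nd r)) (K.q (K.sc a))) :
    D.sys.CylSec (.s3 a hv) ⟨(r, true), hj⟩ :=
  D.cyl (.s3 a hv) hj hn ⟨.inr rfl, .inr rfl⟩ (K.sc a) h h fun _ hx =>
    sg_t hx.1

theorem cyl3f (G : K.Good c) {r : Ry K} (hj : K.JOK c r false) {a : K.Nd} (hv : K.Vt a)
    (hn : K.ν r = K.n (K.sc a))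
    (h : Bey false (K.n (K.sc a)) (K.q (K.nd r)) (K.q (K.sc (K.sc a)))) :
    D.sys.CylSec (.s3 a hv) ⟨(r, false), hj⟩ :=
  D.cyl (.s3 a hv) hj hn ⟨.inr rfl, .inr rfl⟩ (K.sc (K.sc a)) (h.trans (G.bey _).2) h
    fun _ hx => sg_f hx.2.1

theorem cyl4t (G : K.Good c) {r : Ry K} (hj : K.JOK c r true) {a : K.Nd} (hv : ¬ K.Vt a)
    (hn : K.ν r = K.n (K.sc a)) (h : Bey true (K.n (K.sc a)) (K.q (K.nd r)) (K.q (K.sc a))) :
    D.sys.CylSec (.s4 a hv) ⟨(r, true), hj⟩ :=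
  D.cyl (.s4 a hv) hj hn ⟨.inr (G.hI a hv).1.symm, .inr rfl⟩ (K.sc a) h h fun x hx => by
    rw [(G.hI a hv).1]
    exact sg_t hx.1

theorem cyl4f (G : K.Good c) {r : Ry K} (hj : K.JOK c r false) {a : K.Nd} (hv : ¬ K.Vt a)
    (hn : K.ν r = K.n (K.sc a))
    (h : Bey false (K.n (K.sc a)) (K.q (K.nd r)) (K.q (K.sc (K.sc a)))) :
    D.sys.CylSec (.s4 a hv) ⟨(r, false), hj⟩ :=
  D.cyl (.s4 a hv) hj hn ⟨.inr (G.hI a hv).1.symm, .inr rfl⟩ (K.sc (K.sc a))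
    (h.trans (G.bey _).2) h fun _ hx => sg_f hx.2.1

theorem tent_wf (a : K.Nd) (h : HasWFTent c (K.q a) (K.q (K.sc a)) (K.n a)) :
    WFdir (K.n a) (D.πρ (.inl a)) :=
  wfdir_shift ((D.ht a).2.2 h) _

theorem secOK (G : K.Good c) (σ : Sc K) :
    (∃ n, n ≠ 0 ∧ D.sys.SecDir σ n ∧ WFdir n (D.πρ (K.el σ))) ∨
    (0 < qd (K.q (K.sc (K.jn σ))) (K.ν (K.lo σ)) ∧ 0 < qd (K.q (K.sc (K.jn σ))) (K.ν (K.hi σ))) ∨
    (∃ η : V, 0 ≤ dot η (K.ν (K.lo σ)) ∧ 0 ≤ dot η (K.ν (K.hi σ)) ∧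
      ∀ C : ℤ, WFon {x | -C ≤ dot η x} (D.πρ (K.el σ))) ∨
    ∃ j, D.sys.CylSec σ j := by
  cases σ with
  | s0 a =>
    rcases G.seg a with h | h | ⟨r, hj, hn, h⟩ | ⟨r, hj, hn, h⟩
    · rw [← G.qn] at h
      exact .inr (.inl ⟨h, h⟩)
    · exact .inl ⟨K.n a, G.hn a, ⟨.inr rfl, .inr rfl⟩, D.tent_wf a h⟩
    · exact .inr (.inr (.inr ⟨_, D.cyl0t G hj hn h⟩))
    · exact .inr (.inr (.inr ⟨_, D.cyl0f hj hn h⟩))
  | s1 a hv =>
    by_cases hz : K.w1 a ∧ K.w3 a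
    · obtain ⟨-, η, h1, h2, -, h4⟩ := (D.hz a).2 hv hz.1 hz.2
      refine .inr (.inr (.inl ⟨η, h1, h2, ?_⟩))
      simp only [el, hz.1, hz.2, if_true]
      exact h4
    have hm := G.mpos a hv hz
    rcases G.c1 a hv hz with h | ⟨h, h'⟩ | ⟨r, hj, hn, h⟩
    · exact .inr (.inl ⟨h, hm⟩)
    · refine .inl ⟨K.n a, G.hn a, ⟨.inr rfl, .inl hm⟩, ?_⟩
      simp only [el, h, if_false]
      exact D.tent_wf a h'
    · exact .inr (.inr (.inr ⟨_, D.cyl1 hj hv hn hm h⟩))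
  | s2 a hv =>
    by_cases hz : K.w1 a ∧ K.w3 a
    · obtain ⟨-, η, -, h2, h3, h4⟩ := (D.hz a).2 hv hz.1 hz.2
      refine .inr (.inr (.inl ⟨η, h2, h3, ?_⟩))
      simp only [el, hz.1, hz.2, if_true]
      exact h4
    have hm := G.mpos a hv hz
    rcases G.c2 a hv hz with h | ⟨h, h'⟩ | ⟨r, hj, hn, h⟩
    · exact .inr (.inl ⟨hm, h⟩)
    · refine .inl ⟨K.n (K.sc a), G.hn _, ⟨.inl hm, .inr rfl⟩, ?_⟩
      simp only [el, h, if_false]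
      exact D.tent_wf _ h'
    · exact .inr (.inr (.inr ⟨_, D.cyl2 hj hv hn hm h⟩))
  | s3 a hv =>
    rcases G.seg (K.sc a) with h | h | ⟨r, hj, hn, h⟩ | ⟨r, hj, hn, h⟩
    · exact .inr (.inl ⟨h, h⟩)
    · exact .inl ⟨K.n (K.sc a), G.hn _, ⟨.inr rfl, .inr rfl⟩, D.tent_wf _ h⟩
    · exact .inr (.inr (.inr ⟨_, D.cyl3t hj hv hn h⟩))
    · exact .inr (.inr (.inr ⟨_, D.cyl3f G hj hv hn h⟩))
  | s4 a hv =>
    rcases G.seg (K.sc a) with h | h | ⟨r, hj, hn, h⟩ | ⟨r, hj, hn, h⟩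
    · exact .inr (.inl ⟨lt_of_lt_of_eq h (congrArg _ (G.hI a hv).1), h⟩)
    · exact .inl ⟨K.n (K.sc a), G.hn _, ⟨.inr (G.hI a hv).1.symm, .inr rfl⟩, D.tent_wf _ h⟩
    · exact .inr (.inr (.inr ⟨_, D.cyl4t G hj hv hn h⟩))
    · exact .inr (.inr (.inr ⟨_, D.cyl4f G hj hv hn h⟩))

theorem adjX {a : K.Nd} {σ : Sc K} (h : K.lo σ = .X a ∨ K.hi σ = .X a) :
    σ = .s0 a ∨ (∃ hv, σ = .s1 a hv) ∨ ∃ hv, σ = .s4 a hv := by
  cases σ <;> simp only [lo, hi, reduceCtorEq, Ry.X.injEq, or_false, false_or] at h <;>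
    subst h <;> simp [*]

theorem adjY {a : K.Nd} {hv : K.Vt a} {σ : Sc K} (h : K.lo σ = .Y a hv ∨ K.hi σ = .Y a hv) :
    σ = .s2 a hv ∨ σ = .s3 a hv := by
  cases σ <;> simp only [lo, hi, reduceCtorEq, Ry.Y.injEq, or_false, false_or] at h <;>
    subst h <;> simp

theorem wOK (G : K.Good c) (r : Ry K) (hr : K.isW r) :
    0 < qd (K.q (K.nd r)) (K.ν r) ∨ WFdir (K.ν r) (D.sys.wρ r) ∨
    ∃ j : K.J c, K.ν r = K.ν j.1.1 ∧ ∀ σ, (K.lo σ = r ∨ K.hi σ = r) → D.sys.CylSec σ j := by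
  cases r with
  | A a => exact hr.elim
  | X a =>
    rcases G.ww1 a hr with h | h | ⟨⟨r, hj, hn, h⟩, h'⟩ | ⟨hv, r, hj, hn, h⟩
    · exact .inl h
    · exact .inr (.inl (wfdir_shift ((D.hw _ hr).2.2 h) _))
    · refine .inr (.inr ⟨⟨(r, true), hj⟩, hn.symm, fun σ hσ => ?_⟩)
      rcases adjX hσ with rfl | ⟨hv, rfl⟩ | ⟨hv, rfl⟩
      · exact D.cyl0t G hj hn h
      · exact D.cyl1 hj hv hn (G.mpos a hv fun h3 => h' hv h3.2) (h.trans (G.bey a).1)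
      · exact D.cyl4t G hj hv (hn.trans (G.hI a hv).1.symm)
          ((G.hI a hv).1.symm ▸ h.trans (G.bey a).1)
    · refine .inr (.inr ⟨⟨(r, false), hj⟩, hn.symm, fun σ hσ => ?_⟩)
      rcases adjX hσ with rfl | ⟨hv', rfl⟩ | ⟨hv', rfl⟩
      · exact D.cyl0f hj hn (h.trans ((G.hI a hv).1 ▸ (G.bey (K.sc a)).2))
      · exact (hv hv').elim
      · exact D.cyl4f G hj hv (hn.trans (G.hI a hv).1.symm) ((G.hI a hv).1.symm ▸ h)
  | U a hv => exact .inl (G.mpos a hv fun h => hr.1 h.1)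
  | Y a hv =>
    rcases G.ww3 a hv hr with h | h | ⟨⟨r, hj, hn, h⟩, h'⟩
    · exact .inl h
    · exact .inr (.inl (wfdir_shift ((D.hw _ hr).2.2 h) _))
    · refine .inr (.inr ⟨⟨(r, false), hj⟩, hn.symm, fun σ hσ => ?_⟩)
      rcases adjY hσ with rfl | rfl
      · exact D.cyl2 hj hv hn (G.mpos a hv fun h3 => h' h3.1) (h.trans (G.bey _).2)
      · exact D.cyl3f G hj hv hn h

theorem virt (G : K.Good c) (σ σ' : Sc K) (h : K.hi σ = K.lo σ') (hw : ¬ K.isW (K.hi σ)) :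
    K.el σ = K.el σ' := by
  cases σ <;> cases σ' <;>
    simp only [lo, hi, reduceCtorEq, Ry.A.injEq, Ry.X.injEq, Ry.U.injEq, Ry.Y.injEq] at h <;>
    subst h <;> simp only [hi, isW] at hw
  · simp [el, hw]
  · exact (hw (G.hI _ ‹_›).2).elim
  · rename_i a _ _
    by_cases h1 : K.w1 a <;> by_cases h3 : K.w3 a <;> simp_all [el]
  · simp [el, hw]
  · rfl
  · rfl

theorem nd_eq (σ : Sc K) (r : Ry K) (hr : K.isW r) (h : K.lo σ = r ∨ K.hi σ = r) :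
    K.sc (K.jn σ) = K.nd r := by
  rcases h with rfl | rfl <;> cases σ <;> first | rfl | exact hr.elim

theorem sign (G : K.Good c) (σ : Sc K) : 0 ≤ qd (K.q (K.sc (K.jn σ))) (K.ν (K.lo σ)) ∧
    0 ≤ qd (K.q (K.sc (K.jn σ))) (K.ν (K.hi σ)) := by
  have h1 : ∀ a, 0 ≤ qd (K.q (K.sc a)) (K.n a) := fun a => (G.qn a).symm ▸ G.hs a
  have h2 : ∀ a, K.Vt a → 0 ≤ qd (K.q (K.sc a)) (K.m a) := fun a hv => by
    by_cases hz : K.w1 a ∧ K.w3 a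
    · rw [(G.zero a hv hz.1 hz.2).1, qd_zero]
    · exact (G.mpos a hv hz).le
  cases σ with
  | s0 a => exact ⟨h1 a, h1 a⟩
  | s1 a h => exact ⟨h1 a, h2 a h⟩
  | s2 a h => exact ⟨h2 a h, G.hs _⟩
  | s3 a h => exact ⟨G.hs _, G.hs _⟩
  | s4 a h => exact ⟨h1 a, G.hs _⟩

theorem kind (G : K.Good c) (σ : Sc K) : 0 < det (K.ν (K.lo σ)) (K.ν (K.hi σ)) ∨
    (K.ν (K.lo σ) = K.ν (K.hi σ) ∧
      D.Wd ≤ det (K.ν (K.lo σ)) (K.cen D.P (K.hi σ) - K.cen D.P (K.lo σ))) := by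
  cases σ with
  | s0 a => exact .inr ⟨rfl, by simpa [lo, hi, cen, ν] using D.hwid a⟩
  | s1 a h => exact .inl (G.hV a h).1
  | s2 a h => exact .inl (G.hV a h).2.1
  | s3 a h => exact .inr ⟨rfl, by simpa [lo, hi, cen, ν] using D.hwid (K.sc a)⟩
  | s4 a h =>
    exact .inr ⟨(G.hI a h).1.symm, by simpa [lo, hi, cen, ν, (G.hI a h).1] using D.hwid (K.sc a)⟩

theorem ok (hc : IsBG c N) (G : K.Good c) : D.sys.OK c where
  ν_ne r := by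
    cases r with
    | A a => exact G.hn a
    | X a => exact G.hn a
    | U a h =>
      intro e
      have e' : K.m a = 0 := e
      have := (G.hV a h).1
      simp [e', det] at this
    | Y a h => exact G.hn _
  ν_le := D.hν
  kind := D.kind G
  after r := by
    cases r with
    | A a => exact ⟨.s0 a, rfl⟩
    | X a =>
      by_cases h : K.Vt a
      · exact ⟨.s1 a h, rfl⟩
      · exact ⟨.s4 a h, rfl⟩
    | U a h => exact ⟨.s2 a h, rfl⟩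
    | Y a h => exact ⟨.s3 a h, rfl⟩
  before r := by
    cases r with
    | A a =>
      obtain ⟨a, rfl⟩ := G.surj a
      by_cases h : K.Vt a
      · exact ⟨.s3 a h, rfl⟩
      · exact ⟨.s4 a h, rfl⟩
    | X a => exact ⟨.s0 a, rfl⟩
    | U a h => exact ⟨.s1 a h, rfl⟩
    | Y a h => exact ⟨.s2 a h, rfl⟩
  virt := virt G
  wl σ r hr h := by
    have e := nd_eq σ r hr h
    exact ⟨congrArg K.q e, congrArg (fun a => qd (K.q a) (D.P a)) e⟩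
  cov := D.cover G
  sign := sign G
  πsub a := by
    cases a with
    | inl a => exact sub_shift hc (D.ht a).1 (D.lat _ _) _
    | inr a => exact (D.hz a).1
  πup := D.up G
  πlo := D.low G
  wsub r hr := sub_shift hc (D.hw r hr).1 (D.lat _ _) _
  wapp r hr x := by
    have h := (D.hw r hr).2.1 (x - (D.P (K.nd r) + D.P (K.nd r)))
    rw [D.qd_cen] at h
    show abs (((D.wτ r (x - (D.P (K.nd r) + D.P (K.nd r))) - D.g (K.nd r) (K.nd r) : ℤ) : ℚ) +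
      D.l (K.nd r) x + D.ε r * |(det (K.ν r) (x - K.cen D.P r) : ℚ)|) ≤ D.C0
    rw [cen_of_isW D.P hr]
    refine le_of_eq_of_le (congrArg abs ?_) h
    push_cast
    ring
  εb r _ := D.hε r
  Wdb := D.hWd
  secOK := D.secOK G
  wOK := D.wOK G
  jOK j := by
    refine ⟨j.2.1, wfdir_shift ((D.hw _ j.2.1).2.2 j.2.2.1) _, ?_, j.2.2.2.1, j.2.2.2.2.1,
      sub_shift hc (D.hj j).1 (D.lat _ _) _, fun x => ?_, fun C => ?_⟩
    · show sg j.1.2 = 1 ∨ sg j.1.2 = -1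
      cases j.1.2 <;> simp [sg]
    · have h := (D.hj j).2.1 (x - (D.P (K.nd j.1.1) + D.P (K.nd j.1.1)))
      rw [D.qd_cen] at h
      show |((D.ψ j (x - (D.P (K.nd j.1.1) + D.P (K.nd j.1.1))) -
        D.g (K.nd j.1.1) (K.nd j.1.1) : ℤ) : ℚ) + D.l (K.nd j.1.1) x| ≤ D.C0
      refine le_of_eq_of_le (congrArg abs ?_) h
      push_cast
      ring
    · refine wfon_shift ((D.hj j).2.2 (C + |D.g (K.nd j.1.1) (K.nd j.1.1)|)) _ fun x hx => ?_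
      have h1 : -C ≤ sg j.1.2 * det (K.ν j.1.1) (x - K.cen D.P j.1.1) := hx.1
      have h2 : D.l (K.nd j.1.1) x ≤ C := hx.2
      rw [cen_of_isW D.P j.2.1] at h1
      refine ⟨by linarith [abs_nonneg (D.g (K.nd j.1.1) (K.nd j.1.1))], ?_⟩
      rw [D.qd_cen]
      push_cast
      linarith [neg_abs_le (D.g (K.nd j.1.1) (K.nd j.1.1) : ℚ)]

end Pool.Agent.Sand.Poly.Pre.Dat
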