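import Pool.Agent.Lib.MP_215a10_lc.Dec.Stmts
import Pool.Agent.Lib.MP_215a10_lc.Dec.Once

/-! Potentials for periodic edge weights without positive cycles. -/

set_option autoImplicit false

namespace Pool.Agent.Sand

namespace Pot

theorem disp_nil : disp [] = 0 := by simp [disp]

theorem disp_cons (i : Fin 4) (l : List (Fin 4)) : disp (i :: l) = e i + disp l := by
  simp [disp]

theorem disp_append (a b : List (Fin 4)) : disp (a ++ b) = disp a + disp b := by
  simp [disp]

theorem wok_append (E : V → Fin 4 → Prop) (a b : List (Fin 4)) :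
    ∀ x : V, wok E x (a ++ b) ↔ wok E x a ∧ wok E (x + disp a) b := by
  induction a with
  | nil => intro x; simp [wok, disp_nil]
  | cons i a ih =>
    intro x
    simp only [List.cons_append, wok, ih, disp_cons, add_assoc, and_assoc]

theorem wwt_append {G : Type} [AddCommGroup G] (κ : V → Fin 4 → G) (a b : List (Fin 4)) :
    ∀ x : V, wwt κ x (a ++ b) = wwt κ x a + wwt κ (x + disp a) b := by
  induction a with
  | nil => intro x; simp [wwt, disp_nil]
  | cons i a ih =>
    intro x
    simp only [List.cons_append, wwt, ih, disp_cons, add_assoc]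

theorem wok_shift {E : V → Fin 4 → Prop} {v : V} (h : ∀ x i, E (x + v) i ↔ E x i)
    (l : List (Fin 4)) : ∀ x : V, wok E (x + v) l ↔ wok E x l := by
  induction l with
  | nil => intro x; simp [wok]
  | cons i l ih =>
    intro x
    simp only [wok, h]
    rw [add_right_comm, ih]

theorem wwt_shift {G : Type} [AddCommGroup G] {κ : V → Fin 4 → G} {v : V}
    (h : ∀ x i, κ (x + v) i = κ x i) (l : List (Fin 4)) :
    ∀ x : V, wwt κ (x + v) l = wwt κ x l := by
  induction l with
  | nil => intro x; simp [wwt]
  | cons i l ih =>
    intro x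
    simp only [wwt, h]
    rw [add_right_comm, ih]

/-- a walk with `N ^ 2` steps contains a closed walk modulo `N` -/
theorem exists_cycle {N : ℤ} (hN : 0 < N) (l : List (Fin 4)) (hl : N ^ 2 ≤ (l.length : ℤ)) :
    ∃ (a c b : List (Fin 4)) (z : V), l = a ++ c ++ b ∧ c ≠ [] ∧ disp c = N • z := by
  classical
  have hmaps : ∀ j ∈ Finset.range (l.length + 1),
      (((disp (l.take j)).1 % N, (disp (l.take j)).2 % N) : V) ∈
        Finset.Ico (0 : ℤ) N ×ˢ Finset.Ico (0 : ℤ) N := by
    intro j _
    simp only [Finset.mem_product, Finset.mem_Ico]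
    exact ⟨⟨Int.emod_nonneg _ hN.ne', Int.emod_lt_of_pos _ hN⟩,
      ⟨Int.emod_nonneg _ hN.ne', Int.emod_lt_of_pos _ hN⟩⟩
  have hcard : (Finset.Ico (0 : ℤ) N ×ˢ Finset.Ico (0 : ℤ) N).card <
      (Finset.range (l.length + 1)).card := by
    rw [Finset.card_product, Finset.card_range, Int.card_Ico]
    have h1 : ((N - 0).toNat : ℤ) = N := by
      rw [sub_zero]
      exact Int.toNat_of_nonneg hN.le
    have h2 : (((N - 0).toNat * (N - 0).toNat : ℕ) : ℤ) < ((l.length + 1 : ℕ) : ℤ) := by
      push_cast
      rw [h1]
      nlinarith
    exact_mod_cast h2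
  have key : ∀ i j : ℕ, i < j → j ≤ l.length →
      (((disp (l.take i)).1 % N, (disp (l.take i)).2 % N) : V) =
        ((disp (l.take j)).1 % N, (disp (l.take j)).2 % N) →
      ∃ (a c b : List (Fin 4)) (z : V), l = a ++ c ++ b ∧ c ≠ [] ∧ disp c = N • z := by
    intro i j hij hj h
    have e1 : l.take j = l.take i ++ (l.take j).drop i := by
      have := List.take_append_drop i (l.take j)
      rw [List.take_take, min_eq_left hij.le] at this
      exact this.symm
    have e2 : disp (l.take j) = disp (l.take i) + disp ((l.take j).drop i) := by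
      rw [← disp_append, ← e1]
    obtain ⟨h1, h2⟩ := Prod.mk.inj h
    obtain ⟨z1, hz1⟩ := Int.dvd_of_emod_eq_zero
      (Int.emod_eq_emod_iff_emod_sub_eq_zero.1 h1.symm)
    obtain ⟨z2, hz2⟩ := Int.dvd_of_emod_eq_zero
      (Int.emod_eq_emod_iff_emod_sub_eq_zero.1 h2.symm)
    refine ⟨l.take i, (l.take j).drop i, l.drop j, (z1, z2), ?_, ?_, ?_⟩
    · rw [← e1, List.take_append_drop]
    · intro h0
      have := congrArg List.length h0
      simp only [List.length_drop, List.length_take, List.length_nil] at this
      omega
    · rw [e2] at hz1 hz2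
      simp only [Prod.fst_add, Prod.snd_add, add_sub_cancel_left] at hz1 hz2
      ext
      · simpa using hz1
      · simpa using hz2
  obtain ⟨i, hi, j, hj, hne, h⟩ := Finset.exists_ne_map_eq_of_card_lt_of_maps_to hcard hmaps
  rw [Finset.mem_range] at hi hj
  rcases lt_or_gt_of_ne hne with hij | hij
  · exact key i j hij (by omega) h
  · exact key j i hij (by omega) h.symm

end Pot

open Pot in
theorem pot_proof : pot_stmt := by
  intro G _ _ _ N E κ σ hN hE hκ hc
  have hfin : ∀ y : V, {l : List (Fin 4) | (l.length : ℤ) < N ^ 2 ∧ wok E (y - disp l) l}.Finite := by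
    intro y
    refine (List.finite_length_lt (Fin 4) (N ^ 2).toNat).subset ?_
    intro l hl
    have := hl.1
    show l.length < (N ^ 2).toNat
    omega
  have hne : ∀ y : V,
      {l : List (Fin 4) | (l.length : ℤ) < N ^ 2 ∧ wok E (y - disp l) l}.Nonempty := by
    intro y
    refine ⟨[], ?_, trivial⟩
    simpa using pow_pos hN 2
  choose L hL hmax using fun y : V => Set.exists_max_image _
    (fun l => wwt κ (y - disp l) l - σ (disp l)) (hfin y) (hne y)
  have hle : ∀ y v : V, (∀ x i, E (x + v) i ↔ E x i) → (∀ x i, κ (x + v) i = κ x i) →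
      wwt κ (y - disp (L y)) (L y) - σ (disp (L y)) ≤
        wwt κ (y + v - disp (L (y + v))) (L (y + v)) - σ (disp (L (y + v))) := by
    intro y v h1 h2
    have e1 : y + v - disp (L y) = y - disp (L y) + v := by abel
    have := hmax (y + v) (L y) ⟨(hL y).1, by rw [e1, wok_shift h1]; exact (hL y).2⟩
    rw [e1, wwt_shift h2] at this
    exact this
  refine ⟨fun y => wwt κ (y - disp (L y)) (L y) - σ (disp (L y)) + σ y, fun x z => ?_,
    fun x i hx => ?_⟩
  · have a1 := hle x (N • z) (fun x i => hE x z i) (fun x i => hκ x z i)
    have a2 := hle (x + N • z) (N • (-z)) (fun x i => hE x (-z) i) (fun x i => hκ x (-z) i)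
    have e1 : x + N • z + N • (-z) = x := by
      rw [smul_neg]
      abel
    rw [e1] at a2
    have a3 := le_antisymm a1 a2
    simp only
    rw [← a3, map_add, add_assoc]
  · have hok : wok E (x - disp (L x)) (L x ++ [i]) := by
      rw [wok_append, sub_add_cancel]
      exact ⟨(hL x).2, hx, trivial⟩
    have hw : wwt κ (x - disp (L x)) (L x ++ [i]) = wwt κ (x - disp (L x)) (L x) + κ x i := by
      rw [wwt_append, sub_add_cancel]
      simp [wwt]
    have hd : disp (L x ++ [i]) = disp (L x) + e i := by
      rw [disp_append, disp_cons, disp_nil, add_zero]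
    have hlen : ((L x ++ [i]).length : ℤ) ≤ N ^ 2 := by
      have := (hL x).1
      simp only [List.length_append, List.length_singleton]
      push_cast
      omega
    have main : ∀ (s : V) (l : List (Fin 4)), wok E s l → (l.length : ℤ) ≤ N ^ 2 →
        wwt κ s l - σ (disp l) ≤ wwt κ (s + disp l - disp (L (s + disp l))) (L (s + disp l)) -
          σ (disp (L (s + disp l))) := by
      intro s l h1 h2
      rcases lt_or_eq_of_le h2 with h3 | h3
      · have := hmax (s + disp l) l ⟨h3, by rw [add_sub_cancel_right]; exact h1⟩
        rw [add_sub_cancel_right] at this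
        exact this
      · obtain ⟨a, c, b, z, rfl, hc0, hz⟩ := exists_cycle hN l h3.ge
        rw [wok_append, wok_append] at h1
        have hpos : 0 < c.length := List.length_pos_iff.2 hc0
        simp only [List.length_append] at h2
        push_cast at h2
        have hcyc := hc (s + disp a) c z h1.1.2 (by omega) hz
        have e1 : s + disp (a ++ c ++ b) - disp (a ++ b) = s + N • z := by
          simp only [disp_append, hz]
          abel
        have e2 : s + N • z + disp a = s + disp (a ++ c) := by
          simp only [disp_append, hz]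
          abel
        have := hmax (s + disp (a ++ c ++ b)) (a ++ b) ⟨by
          simp only [List.length_append]
          push_cast
          omega, by
          rw [e1, wok_append, e2, wok_shift (fun x i => hE x z i)]
          exact ⟨h1.1.1, h1.2⟩⟩
        refine le_trans ?_ this
        rw [e1, wwt_append, wwt_append, wwt_append, e2, wwt_shift (fun x i => hκ x z i)]
        simp only [disp_append, map_add]
        have e3 : ∀ p q r u v w : G, q ≤ v → p + q + r - (u + v + w) ≤ p + r - (u + w) := by
          intro p q r u v w h
          have : p + r - (u + w) - (p + q + r - (u + v + w)) = v - q := by abel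
          rw [← sub_nonneg, this, sub_nonneg]
          exact h
        exact e3 _ _ _ _ _ _ hcyc
    have := main _ _ hok hlen
    have e4 : x - disp (L x) + disp (L x ++ [i]) = x + e i := by
      rw [hd]
      abel
    rw [e4, hw, hd, map_add] at this
    simp only
    rw [map_add]
    have e5 : ∀ p k u t q r y : G, p + k - (u + t) ≤ q - r →
        k ≤ q - r + (y + t) - (p - u + y) := by
      intro p k u t q r y h
      have : q - r + (y + t) - (p - u + y) - k = q - r - (p + k - (u + t)) := by abel
      rw [← sub_nonneg, this, sub_nonneg]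
      exact h
    exact e5 _ _ _ _ _ _ _ this

end Pool.Agent.Sand
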