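import Pool.Agent.Lib.MP_215a10_lc.Dec.Stmts

/-! Abstract pumping, part 1: geometry of one step. -/

set_option autoImplicit false

namespace Pool.Agent.Sand.PumpB

open Classical

lemma qd_decomp (l ξ : V) (p : Q2) : ((dot l l : ℤ) : ℚ) * qd p ξ =
    ((dot l ξ : ℤ) : ℚ) * qd p l + ((dot (rot l) ξ : ℤ) : ℚ) * qd p (rot l) := by
  simp only [dot, qd, rot]; push_cast; ring

lemma dot_decomp (l ξ w : V) :
    dot l l * dot w ξ = dot l ξ * dot w l + dot (rot l) ξ * dot w (rot l) := by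
  simp only [dot, rot]; ring

lemma dot_self_pos {l : V} (h : l ≠ 0) : 0 < dot l l := by
  obtain ⟨a, b⟩ := l
  have : a ≠ 0 ∨ b ≠ 0 := by
    by_contra hc
    push Not at hc
    exact h (by rw [hc.1, hc.2]; rfl)
  simp only [dot]
  rcases this with h | h
  · have := mul_self_pos.mpr h
    nlinarith [mul_self_nonneg b]
  · have := mul_self_pos.mpr h
    nlinarith [mul_self_nonneg a]

lemma n1_rot (l : V) : n1 (rot l) = n1 l := by
  simp only [n1, rot, abs_neg]; ring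

lemma n1_nonneg (l : V) : 0 ≤ n1 l := by
  simp only [n1]; positivity

lemma cls_qd {r : ℚ} {p q : Q2} (h : Cls r p q) (ξ : V) :
    |qd p ξ - qd q ξ| ≤ |r| * (n1 ξ : ℚ) := by
  obtain ⟨h1, h2⟩ := h
  have e : qd p ξ - qd q ξ = (p.1 - q.1) * ξ.1 + (p.2 - q.2) * ξ.2 := by
    simp only [qd]; ring
  rw [e]
  have a1 : |(p.1 - q.1) * (ξ.1 : ℚ)| ≤ |r| * |(ξ.1 : ℚ)| := by
    rw [abs_mul]
    exact mul_le_mul_of_nonneg_right (h1.trans (le_abs_self r)) (abs_nonneg _)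
  have a2 : |(p.2 - q.2) * (ξ.2 : ℚ)| ≤ |r| * |(ξ.2 : ℚ)| := by
    rw [abs_mul]
    exact mul_le_mul_of_nonneg_right (h2.trans (le_abs_self r)) (abs_nonneg _)
  have a3 := abs_add_le ((p.1 - q.1) * (ξ.1 : ℚ)) ((p.2 - q.2) * (ξ.2 : ℚ))
  simp only [n1]; push_cast
  linarith

lemma abs_dot_le (w l : V) : |dot w l| ≤ n1 w * n1 l := by
  simp only [dot, n1]
  have a3 := abs_add_le (w.1 * l.1) (w.2 * l.2)
  rw [abs_mul, abs_mul] at a3
  have := mul_nonneg (abs_nonneg w.1) (abs_nonneg l.2)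
  have := mul_nonneg (abs_nonneg w.2) (abs_nonneg l.1)
  nlinarith

lemma grid_qd {D : ℤ} {p : Q2} (h : Grid D p) (ξ : V) : ∃ z : ℤ, (D : ℚ) * qd p ξ = z := by
  obtain ⟨z, hz⟩ := h
  have h1 : (D : ℚ) * p.1 = z.1 := by simpa [toQ] using congrArg Prod.fst hz
  have h2 : (D : ℚ) * p.2 = z.2 := by simpa [toQ] using congrArg Prod.snd hz
  refine ⟨dot z ξ, ?_⟩
  simp only [qd, dot]; push_cast
  rw [← h1, ← h2]; ring

lemma qd_add (p q : Q2) (ξ : V) : qd (p + q) ξ = qd p ξ + qd q ξ := by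
  simp only [qd, Prod.fst_add, Prod.snd_add]; ring

lemma qd_smul (j : ℤ) (l ξ : V) : qd (toQ (j • l)) ξ = (j : ℚ) * ((dot l ξ : ℤ) : ℚ) := by
  simp only [qd, toQ, dot, Prod.smul_fst, Prod.smul_snd, smul_eq_mul]; push_cast; ring

lemma dot_rot (l : V) : dot l (rot l) = 0 := by simp only [dot, rot]; ring

lemma dot_smul (j : ℤ) (l ξ : V) : dot (j • l) ξ = j * dot l ξ := by
  simp only [dot, Prod.smul_fst, Prod.smul_snd, smul_eq_mul]; ring

lemma notPar {ξ : V} : ¬ Par 0 ξ ↔ ξ ≠ 0 := by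
  simp [Par, det]

lemma exists_max_grid {F : Type} (S : F → Prop) (g : F → ℚ) (D : ℤ) (K : ℚ) (hD : 0 < D)
    (hg : ∀ f, ∃ z : ℤ, (D : ℚ) * g f = z) (hK : ∀ f, S f → g f ≤ K) (hne : ∃ f, S f) :
    ∃ a, S a ∧ ∀ f, S f → g f ≤ g a := by
  have hD' : (0 : ℚ) < D := by exact_mod_cast hD
  obtain ⟨z, ⟨a, ha, hz⟩, hmax⟩ := Int.exists_greatest_of_bdd
    (P := fun z => ∃ f, S f ∧ (D : ℚ) * g f = z)
    ⟨⌈(D : ℚ) * K⌉, fun z ⟨f, hf, hz⟩ => by
      have h1 : (z : ℚ) ≤ D * K := by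
        rw [← hz]; exact mul_le_mul_of_nonneg_left (hK f hf) hD'.le
      have h2 := h1.trans (Int.le_ceil _)
      exact_mod_cast h2⟩
    (by
      obtain ⟨f, hf⟩ := hne
      obtain ⟨z, hz⟩ := hg f
      exact ⟨z, f, hf, hz⟩)
  refine ⟨a, ha, fun f hf => ?_⟩
  obtain ⟨z', hz'⟩ := hg f
  have h1 : (z' : ℚ) ≤ z := by exact_mod_cast hmax z' ⟨f, hf, hz'⟩
  rw [← hz, ← hz'] at h1
  exact le_of_mul_le_mul_left h1 hD'

lemma clo_smul {F : Type} {sl : F → Q2} {Lib : Set (Tup F)} {l : V} {A : List Q2} {Y : Set F}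
    {j : ℤ} (hj : 0 < j) {f : F} (h : Clo sl Lib l A Y f) : Clo sl Lib (j • l) A Y f := by
  induction h with
  | init f hf => exact Clo.init f hf
  | step t H ht _ _ hps ih1 ih2 =>
    refine Clo.step t H ht ih1 ih2 (fun ξ hξ => ?_)
    rcases hps ξ hξ with h | ⟨h1, h2, h3⟩
    · exact Or.inl h
    · refine Or.inr ⟨h1, ?_, h3⟩
      rw [dot_smul]
      exact mul_nonpos_of_nonneg_of_nonpos hj.le h2

lemma cov_mono {W : List V} {B H H' : List Q2} {ξ : V} (hs : ∀ y ∈ H, y ∈ H')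
    (h : Cov W B H ξ) : Cov W B H' ξ := by
  rcases h with h | ⟨y, hy, h⟩
  · exact Or.inl h
  · exact Or.inr ⟨y, hs y hy, h⟩

structure Env (F : Type) where
  sl : F → Q2
  sh : F → V → F
  Lib : Set (Tup F)
  Init : Set F
  D : ℤ
  r : ℤ
  l : V
  K : ℚ
  a1 : F
  a2 : F
  hD : 0 < D
  grid : ∀ f, Grid D (sl f)
  slsh : ∀ f a, sl (sh f a) = sl f + toQ a
  shsh : ∀ f a b, sh (sh f a) b = sh f (a + b)
  sh0 : ∀ f, sh f 0 = f
  fib : ∀ p, {f | sl f = p}.Finite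
  ok : ∀ t ∈ Lib, TupOK sl D r t
  l0 : l ≠ 0
  hK : ∀ f, Clo sl Lib 0 [] Init f → |qd (sl f) (rot l)| ≤ K
  ha1 : Clo sl Lib 0 [] Init a1
  ha2 : Clo sl Lib 0 [] Init a2
  max1 : ∀ f, Clo sl Lib 0 [] Init f → qd (sl f) (rot l) ≤ qd (sl a1) (rot l)
  min2 : ∀ f, Clo sl Lib 0 [] Init f → qd (sl a2) (rot l) ≤ qd (sl f) (rot l)

namespace Env
variable {F : Type} (E : Env F)

def C0 (f : F) : Prop := Clo E.sl E.Lib 0 [] E.Init f
def pos (f : F) : ℚ := qd (E.sl f) E.l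
def lev (f : F) : ℚ := qd (E.sl f) (rot E.l)
def A : List Q2 := [E.sl E.a1, E.sl E.a2]
def CA (Y : Set F) (f : F) : Prop := Clo E.sl E.Lib E.l E.A Y f
def R : ℚ := |(E.r : ℚ)| * (n1 E.l : ℚ)
def L2 : ℤ := dot E.l E.l
def App (t : Tup F) (L : List F) : Prop :=
  t ∈ E.Lib ∧ (∀ f, t.prem = some f → f ∈ L) ∧ ∀ ξ, ξ ≠ 0 → Cov t.W t.B (L.map E.sl) ξ
def βA : ℚ := max (E.pos E.a1) (E.pos E.a2) + E.R

lemma L2_pos : 0 < E.L2 := dot_self_pos E.l0

lemma R_nonneg : 0 ≤ E.R := by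
  have : (0 : ℚ) ≤ n1 E.l := by exact_mod_cast n1_nonneg E.l
  unfold R; positivity

lemma K_nonneg : 0 ≤ E.K := (abs_nonneg _).trans (E.hK _ E.ha1)

lemma App.mono {E : Env F} {t : Tup F} {L L' : List F} (h : E.App t L) (hs : ∀ f ∈ L, f ∈ L') :
    E.App t L' := by
  refine ⟨h.1, fun f hf => hs f (h.2.1 f hf), fun ξ hξ => cov_mono ?_ (h.2.2 ξ hξ)⟩
  intro y hy
  obtain ⟨f, hf, rfl⟩ := List.mem_map.mp hy
  exact List.mem_map.mpr ⟨f, hs f hf, rfl⟩

lemma App.c0 {E : Env F} {t : Tup F} {L : List F} (h : E.App t L) (hL : ∀ f ∈ L, E.C0 f) :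
    E.C0 t.con :=
  Clo.step t L h.1 (fun f hf => hL f (h.2.1 f hf)) hL
    (fun ξ hξ => Or.inl (h.2.2 ξ (notPar.mp hξ)))

lemma b_pos {t : Tup F} (ht : t ∈ E.Lib) {b : Q2} (hb : b ∈ t.B) :
    |qd b E.l - E.pos t.con| ≤ E.R := cls_qd ((E.ok t ht).2.1 b hb).2 E.l

lemma b_lev {t : Tup F} (ht : t ∈ E.Lib) {b : Q2} (hb : b ∈ t.B) :
    |qd b (rot E.l) - E.lev t.con| ≤ E.R := by
  have := cls_qd ((E.ok t ht).2.1 b hb).2 (rot E.l)
  rwa [n1_rot] at this

lemma prem_pos {t : Tup F} (ht : t ∈ E.Lib) {f : F} (hf : t.prem = some f) :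
    |E.pos f - E.pos t.con| ≤ E.R := cls_qd ((E.ok t ht).2.2.1 f hf) E.l

lemma lt_iff (b y : Q2) (ξ : V) : qd b ξ < qd y ξ ↔
    0 < ((dot E.l ξ : ℤ) : ℚ) * (qd y E.l - qd b E.l) +
      ((dot (rot E.l) ξ : ℤ) : ℚ) * (qd y (rot E.l) - qd b (rot E.l)) := by
  have h1 := qd_decomp E.l ξ b
  have h2 := qd_decomp E.l ξ y
  have h3 : (0 : ℚ) < ((dot E.l E.l : ℤ) : ℚ) := by exact_mod_cast E.L2_pos
  constructor
  · intro h
    have := mul_lt_mul_of_pos_left h h3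
    linarith
  · intro h
    have : ((dot E.l E.l : ℤ) : ℚ) * qd b ξ < ((dot E.l E.l : ℤ) : ℚ) * qd y ξ := by linarith
    exact lt_of_mul_lt_mul_left this h3.le

lemma w_iff (w ξ : V) : 0 < dot w ξ ↔
    0 < dot E.l ξ * dot w E.l + dot (rot E.l) ξ * dot w (rot E.l) := by
  rw [← dot_decomp]
  exact ⟨fun h => mul_pos E.L2_pos h, fun h => pos_of_mul_pos_left' h E.L2_pos⟩
  where pos_of_mul_pos_left' {a b : ℤ} (h : 0 < a * b) (ha : 0 < a) : 0 < b :=
    (mul_pos_iff_of_pos_left ha).mp h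

/-- backward and vertical directions are covered by the anchors -/
lemma backward {t : Tup F} {L : List F} (h : E.App t L) (hL : ∀ f ∈ L, E.C0 f)
    (hp : E.βA < E.pos t.con) (ξ : V) (hξ : ξ ≠ 0) (hu : dot E.l ξ ≤ 0) :
    (∃ w ∈ t.W, 0 < dot w ξ) ∨ Cov [] t.B E.A ξ := by
  have hanc : ∃ a ∈ E.A, qd a E.l + E.R < E.pos t.con ∧ ∀ f, E.C0 f →
      ((dot (rot E.l) ξ : ℤ) : ℚ) * E.lev f ≤ ((dot (rot E.l) ξ : ℤ) : ℚ) * qd a (rot E.l) := by
    have m1 := le_max_left (E.pos E.a1) (E.pos E.a2)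
    have m2 := le_max_right (E.pos E.a1) (E.pos E.a2)
    unfold βA at hp
    rcases le_total 0 ((dot (rot E.l) ξ : ℤ) : ℚ) with hv | hv
    · refine ⟨E.sl E.a1, by simp [A], ?_, fun f hf => mul_le_mul_of_nonneg_left (E.max1 f hf) hv⟩
      change E.pos E.a1 + E.R < _
      linarith
    · refine ⟨E.sl E.a2, by simp [A], ?_, fun f hf => mul_le_mul_of_nonpos_left (E.min2 f hf) hv⟩
      change E.pos E.a2 + E.R < _
      linarith
  obtain ⟨a, haA, hap, hal⟩ := hanc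
  rcases hu.lt_or_eq with hu | hu
  · right; right
    have hpiv : ∃ f, E.C0 f ∧ E.sl f ∈ t.B := by
      rcases (E.ok t h.1).2.2.2 with h1 | ⟨f, hf, h1⟩
      · exact ⟨t.con, h.c0 hL, h1⟩
      · exact ⟨f, hL f (h.2.1 f hf), h1⟩
    obtain ⟨f, hf, hfB⟩ := hpiv
    refine ⟨a, haA, E.sl f, hfB, (E.lt_iff _ _ _).mpr ?_⟩
    have h1 := (abs_le.mp (E.b_pos h.1 hfB)).1
    have h2 := hal f hf
    have hu' : ((dot E.l ξ : ℤ) : ℚ) < 0 := by exact_mod_cast hu
    have h3 : 0 < ((dot E.l ξ : ℤ) : ℚ) * (qd a E.l - qd (E.sl f) E.l) :=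
      mul_pos_of_neg_of_neg hu' (by linarith)
    unfold lev at h2
    linarith
  · rcases h.2.2 ξ hξ with h1 | ⟨y, hy, b, hb, h1⟩
    · exact Or.inl h1
    · right; right
      obtain ⟨f, hf, rfl⟩ := List.mem_map.mp hy
      refine ⟨a, haA, b, hb, (E.lt_iff _ _ _).mpr ?_⟩
      rw [E.lt_iff] at h1
      have h2 := hal f (hL f hf)
      unfold lev at h2
      rw [hu] at h1 ⊢
      push_cast at h1 ⊢
      linarith

/-- forward directions of a shallow step are covered by `W` or by nearby facts -/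
lemma forward (G : ℚ) : ∃ R1 : ℚ, E.R ≤ R1 ∧ ∀ (t : Tup F) (L : List F), E.App t L →
    (∀ f ∈ L, E.C0 f) → (∀ f ∈ L, E.pos f ≤ E.pos t.con + G) → ∀ ξ, 0 < dot E.l ξ →
    (∃ w ∈ t.W, 0 < dot w ξ) ∨
      ∃ f ∈ L, E.pos t.con - R1 < E.pos f ∧ ∃ b ∈ t.B, qd b ξ < qd (E.sl f) ξ := by
  have hD : (0 : ℚ) < E.D := by exact_mod_cast E.hD
  have hR := E.R_nonneg
  have hK := E.K_nonneg
  obtain ⟨M, hM⟩ := exists_nat_gt (max E.R ((E.D : ℚ) * (G + E.R)))
  have hM1 : E.R < M := (le_max_left _ _).trans_lt hM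
  have hM2 : (E.D : ℚ) * (G + E.R) < M := (le_max_right _ _).trans_lt hM
  have hM0 : (0 : ℚ) < M := hR.trans_lt hM1
  refine ⟨M * (2 * E.K + E.R) + E.R, by have : 0 ≤ (M : ℚ) * (2 * E.K + E.R) := by positivity
                                        linarith, ?_⟩
  intro t L h hL hG ξ hu
  have hcon := h.c0 hL
  have hlev : ∀ f ∈ L, ∀ b ∈ t.B, |qd (E.sl f) (rot E.l) - qd b (rot E.l)| ≤ 2 * E.K + E.R := by
    intro f hf b hb
    have h1 := abs_le.mp (E.hK f (hL f hf))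
    have h2 := abs_le.mp (E.hK _ hcon)
    have h3 := abs_le.mp (E.b_lev h.1 hb)
    unfold lev at h3
    exact abs_le.mpr ⟨by linarith, by linarith⟩
  have hu' : (0 : ℚ) < ((dot E.l ξ : ℤ) : ℚ) := by exact_mod_cast hu
  have hξ : ξ ≠ 0 := by
    rintro rfl
    simp [dot] at hu
  by_cases hv : |((dot (rot E.l) ξ : ℤ) : ℚ)| ≤ M * ((dot E.l ξ : ℤ) : ℚ)
  · rcases h.2.2 ξ hξ with h1 | ⟨y, hy, b, hb, h1⟩
    · exact Or.inl h1
    · obtain ⟨f, hf, rfl⟩ := List.mem_map.mp hy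
      refine Or.inr ⟨f, hf, ?_, b, hb, h1⟩
      rw [E.lt_iff] at h1
      have h2 : ((dot (rot E.l) ξ : ℤ) : ℚ) * (qd (E.sl f) (rot E.l) - qd b (rot E.l)) ≤
          (M * ((dot E.l ξ : ℤ) : ℚ)) * (2 * E.K + E.R) := by
        refine (le_abs_self _).trans ?_
        rw [abs_mul]
        exact mul_le_mul hv (hlev f hf b hb) (abs_nonneg _) (by positivity)
      have h3 : 0 < ((dot E.l ξ : ℤ) : ℚ) *
          (qd (E.sl f) E.l - qd b E.l + M * (2 * E.K + E.R)) := by nlinarith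
      have h4 := (mul_pos_iff_of_pos_left hu').mp h3
      have h5 := (abs_le.mp (E.b_pos h.1 hb)).1
      unfold pos at *
      linarith
  · push Not at hv
    obtain ⟨ε, hε, hεv⟩ : ∃ ε : ℤ, (ε = 1 ∨ ε = -1) ∧
        (M : ℤ) * dot E.l ξ < ε * dot (rot E.l) ξ := by
      have hv' : (M : ℤ) * dot E.l ξ < |dot (rot E.l) ξ| := by exact_mod_cast hv
      rcases le_total 0 (dot (rot E.l) ξ) with h0 | h0
      · exact ⟨1, Or.inl rfl, by rwa [abs_of_nonneg h0, ← one_mul (dot (rot E.l) ξ)] at hv'⟩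
      · exact ⟨-1, Or.inr rfl, by rwa [abs_of_nonpos h0, ← neg_one_mul (dot (rot E.l) ξ)] at hv'⟩
    have hε2 : ε * ε = 1 := by rcases hε with rfl | rfl <;> norm_num
    set ξ' : V := E.l + (ε * M) • rot E.l with hξ'
    have hu1 : dot E.l ξ' = E.L2 := by
      simp only [hξ', dot, rot, L2, Prod.fst_add, Prod.snd_add, Prod.smul_fst, Prod.smul_snd,
        smul_eq_mul]; ring
    have hv1 : dot (rot E.l) ξ' = ε * M * E.L2 := by
      simp only [hξ', dot, rot, L2, Prod.fst_add, Prod.snd_add, Prod.smul_fst, Prod.smul_snd,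
        smul_eq_mul]; ring
    have hL2 := E.L2_pos
    have hne : ξ' ≠ 0 := by
      intro h0
      rw [h0] at hu1
      simp only [dot, Prod.fst_zero, Prod.snd_zero, mul_zero, add_zero] at hu1
      omega
    rcases h.2.2 ξ' hne with ⟨w, hw, h1⟩ | ⟨y, hy, b, hb, h1⟩
    · refine Or.inl ⟨w, hw, (E.w_iff _ _).mpr ?_⟩
      rw [E.w_iff, hu1, hv1] at h1
      have h2 : 0 < dot w E.l + M * (ε * dot w (rot E.l)) := by
        have : 0 < E.L2 * (dot w E.l + M * (ε * dot w (rot E.l))) := by nlinarith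
        exact (mul_pos_iff_of_pos_left hL2).mp this
      have h3 : |dot w E.l| < M := by
        have a1 := abs_dot_le w E.l
        have a2 : n1 w * n1 E.l ≤ |E.r| * n1 E.l :=
          mul_le_mul_of_nonneg_right (((E.ok t h.1).1 w hw).trans (le_abs_self _)) (n1_nonneg _)
        have a3 : ((|E.r| * n1 E.l : ℤ) : ℚ) < M := by
          unfold R at hM1
          push_cast; exact hM1
        have a4 : |E.r| * n1 E.l < M := by exact_mod_cast a3
        omega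
      have h4 : 0 ≤ ε * dot w (rot E.l) := by
        by_contra hc
        have a1 : ε * dot w (rot E.l) ≤ -1 := by omega
        have a2 : (M : ℤ) * (ε * dot w (rot E.l)) ≤ M * (-1) :=
          mul_le_mul_of_nonneg_left a1 (by positivity)
        have := (abs_lt.mp h3).2
        omega
      have h5 : dot (rot E.l) ξ * dot w (rot E.l) =
          (ε * dot (rot E.l) ξ) * (ε * dot w (rot E.l)) := by
        linear_combination (-(dot (rot E.l) ξ * dot w (rot E.l))) * hε2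
      have h6 := mul_le_mul_of_nonneg_right hεv.le h4
      have h7 := mul_pos hu h2
      rw [h5]; nlinarith
    · obtain ⟨f, hf, rfl⟩ := List.mem_map.mp hy
      rw [E.lt_iff, hu1, hv1] at h1
      have hL2' : (0 : ℚ) < (E.L2 : ℚ) := by exact_mod_cast hL2
      set dp := qd (E.sl f) E.l - qd b E.l with hdp
      set dl := qd (E.sl f) (rot E.l) - qd b (rot E.l) with hdl
      have h2 : 0 < dp + M * (ε * dl) := by
        have : 0 < (E.L2 : ℚ) * (dp + M * (ε * dl)) := by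
          push_cast at h1; nlinarith
        exact (mul_pos_iff_of_pos_left hL2').mp this
      have hε2' : (ε : ℚ) * ε = 1 := by exact_mod_cast hε2
      have hεa : |(ε : ℚ)| = 1 := by rcases hε with rfl | rfl <;> simp
      have h5 := abs_le.mp (E.b_pos h.1 hb)
      have h4 : 0 ≤ (ε : ℚ) * dl := by
        by_contra hc
        push Not at hc
        obtain ⟨z1, hz1⟩ := grid_qd (E.grid f) (rot E.l)
        obtain ⟨z2, hz2⟩ := grid_qd ((E.ok t h.1).2.1 b hb).1 (rot E.l)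
        have a1 : (E.D : ℚ) * (ε * dl) = ((ε * (z1 - z2) : ℤ) : ℚ) := by
          push_cast; rw [← hz1, ← hz2, hdl]; ring
        have a2 : ((ε * (z1 - z2) : ℤ) : ℚ) < 0 := by
          rw [← a1]; exact mul_neg_of_pos_of_neg hD hc
        have a3 : ε * (z1 - z2) ≤ -1 := by
          have : ε * (z1 - z2) < 0 := by exact_mod_cast a2
          omega
        have a4 : (E.D : ℚ) * (ε * dl) ≤ -1 := by rw [a1]; exact_mod_cast a3
        have a5 : (M : ℚ) < E.D * dp := by nlinarith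
        have a6 : (E.D : ℚ) * (G + E.R) < E.D * dp := hM2.trans a5
        have a7 := lt_of_mul_lt_mul_left a6 hD.le
        have a8 := hG f hf
        unfold pos at *
        linarith
      refine Or.inr ⟨f, hf, ?_, b, hb, (E.lt_iff _ _ _).mpr ?_⟩
      · have a1 : (ε : ℚ) * dl ≤ 2 * E.K + E.R := by
          refine (le_abs_self _).trans ?_
          rw [abs_mul, hεa, one_mul]
          exact hlev f hf b hb
        have a2 := mul_le_mul_of_nonneg_left a1 hM0.le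
        unfold pos at *
        linarith
      · have hεv' : (M : ℚ) * ((dot E.l ξ : ℤ) : ℚ) < ε * ((dot (rot E.l) ξ : ℤ) : ℚ) := by
          exact_mod_cast hεv
        have a1 : ((dot (rot E.l) ξ : ℤ) : ℚ) * dl =
            (ε * ((dot (rot E.l) ξ : ℤ) : ℚ)) * (ε * dl) := by
          linear_combination (-(((dot (rot E.l) ξ : ℤ) : ℚ) * dl)) * hε2'
        have a2 := mul_le_mul_of_nonneg_right hεv'.le h4
        have a3 := mul_pos hu' h2
        rw [a1]; nlinarith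

end Env

end Pool.Agent.Sand.PumpB
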