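import Pool.Agent.Lib.MP_215a10_lc.Dec.Stmts

/-! Gluing finitely many subsolutions by a maximum; elementary plane geometry. -/

set_option autoImplicit false

namespace Pool.Agent.Sand.Raysys

open Classical Filter

lemma wf_mono {α : Type} [LE α] {S T : Set V} {ρ : V → α} (h : WFon T ρ) (hS : S ⊆ T) :
    WFon S ρ := fun F hF => h F (hF.trans hS)

lemma wf_fin {α : Type} [LinearOrder α] {S : Set V} (ρ : V → α) (h : S.Finite) : WFon S ρ :=
  fun F hF hne => Set.exists_min_image F ρ (h.subset hF) hne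

lemma wf_union {α ι : Type} [LinearOrder α] [Finite ι] {S : ι → Set V} {ρ : V → α}
    (h : ∀ i, WFon (S i) ρ) : WFon {x | ∃ i, x ∈ S i} ρ := by
  intro F hF ⟨x0, hx0⟩
  have h1 : ∀ i, (F ∩ S i).Nonempty → ∃ x ∈ F, ∀ y ∈ F ∩ S i, ρ x ≤ ρ y := by
    intro i hi
    obtain ⟨x, hx, hm⟩ := h i _ Set.inter_subset_right hi
    exact ⟨x, hx.1, hm⟩
  choose! m hm using h1
  obtain ⟨i0, hi0⟩ := hF hx0
  obtain ⟨i, hi, hmin⟩ := Set.exists_min_image {i | (F ∩ S i).Nonempty} (fun i => ρ (m i))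
    (Set.toFinite _) ⟨i0, x0, hx0, hi0⟩
  refine ⟨m i, (hm i hi).1, fun y hy => ?_⟩
  obtain ⟨j, hj⟩ := hF hy
  exact (hmin j ⟨y, hy, hj⟩).trans ((hm j ⟨y, hy, hj⟩).2 y ⟨hy, hj⟩)

noncomputable def selF {E : Type} [Fintype E] (P : E → V → Prop) (g : E → V → ℤ) (x : V) : ℤ :=
  ∑ a, if P a x then g a x else 0

lemma am_sel {E : Type} [Fintype E] {P : E → V → Prop} (hP : ∀ a, AP (P a)) {g : E → V → ℤ}
    (hg : ∀ a, AM (g a)) : AM (selF P g) :=
  AM.sum Finset.univ (f := fun a x => if P a x then g a x else 0) fun a =>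
    AM.ite (hP a) (hg a) (AM.const 0)

lemma sel_eq {E : Type} [Fintype E] {P : E → V → Prop} (g : E → V → ℤ) {a : E} {x : V}
    (ha : P a x) (hu : ∀ a', P a' x → a' = a) : selF P g x = g a x := by
  rw [selF, Finset.sum_eq_single a, if_pos ha]
  · intro a' _ h
    exact if_neg fun h' => h (hu a' h')
  · simp

lemma glue {E : Type} [Fintype E] (c : V → ℤ) (dom : E → V → Prop) (τ : E → V → ℤ)
    (ρ : E → V → R5) (hd : ∀ a, AP (dom a)) (hs : ∀ a, IsSub c (τ a) (ρ a)) :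
    ∃ (b : V → ℤ) (ρ' : V → R6) (P : E → V → Prop), AM b ∧ AR6 ρ' ∧ (∀ a, AP (P a)) ∧
      (∀ a x, P a x → dom a x ∧ b x = τ a x) ∧ (∀ a x, dom a x → τ a x ≤ b x ∧ ∃ a', P a' x) ∧
      (∀ x, (∀ a, ¬ P a x) → b x = 0) ∧
      (∀ a S, WFon S (ρ a) → WFon {x | x ∈ S ∧ P a x} ρ') ∧
      ∀ a x, P a x → (∀ i, ¬ dom a (x + e i) → τ a (x + e i) < b (x + e i)) → SubAt c b ρ' x := by
  let idx : E → ℤ := fun a => ((Fintype.equivFin E a : ℕ) : ℤ)
  have hidx : ∀ a a', idx a = idx a' → a = a' := fun a a' h =>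
    (Fintype.equivFin E).injective (Fin.ext (by simpa [idx] using h))
  let P : E → V → Prop := fun a x => dom a x ∧
    ∀ a', dom a' x → τ a' x < τ a x ∨ (τ a' x = τ a x ∧ idx a ≤ idx a')
  have hP : ∀ a, AP (P a) := fun a => (hd a).and (AP.allFintype fun a' => (hd a').imp (by
    have := (hs a).1
    have := (hs a').1
    fun_prop))
  have hu : ∀ a x, P a x → ∀ a', P a' x → a' = a := by
    intro a x h a' h'
    have h1 := h.2 a' h'.1
    have h2 := h'.2 a h.1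
    exact hidx _ _ (by omega)
  have hex : ∀ a x, dom a x → ∃ a', P a' x := by
    intro a x h
    obtain ⟨a', h1, h2⟩ := Set.exists_min_image {a | dom a x}
      (fun a => toLex (-τ a x, idx a)) (Set.toFinite _) ⟨a, h⟩
    refine ⟨a', h1, fun a'' h3 => ?_⟩
    have := Prod.Lex.toLex_le_toLex.mp (h2 a'' h3)
    simp only at this
    omega
  choose r1 r2 r3 r4 r5 h1 h2 h3 h4 h5 hr using fun a => (hs a).2.1
  let sel : (E → V → ℤ) → V → ℤ := selF P
  have hsel : ∀ g a x, P a x → sel g x = g a x := fun g a x h =>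
    sel_eq g h (hu a x h)
  let ρ' : V → R6 := fun x => toLex (sel (fun a _ => idx a) x,
    mk5 (sel r1 x) (sel r2 x) (sel r3 x) (sel r4 x) (sel r5 x))
  have hρ' : ∀ a x, P a x → ρ' x = toLex (idx a, ρ a x) := by
    intro a x h
    simp only [ρ', hsel _ a x h, hr]
  have hle : ∀ a x, dom a x → τ a x ≤ sel τ x := by
    intro a x h
    obtain ⟨a', h'⟩ := hex a x h
    have := h'.2 a h
    rw [hsel _ a' x h']
    omega
  refine ⟨sel τ, ρ', P, am_sel hP fun a => (hs a).1,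
    ⟨_, _, am_sel hP fun a => AM.const (idx a), ⟨_, _, _, _, _, am_sel hP h1, am_sel hP h2,
      am_sel hP h3, am_sel hP h4, am_sel hP h5, rfl⟩, rfl⟩, hP,
    fun a x h => ⟨h.1, hsel _ a x h⟩, fun a x h => ⟨hle a x h, hex a x h⟩, ?_, ?_, ?_⟩
  · intro x h
    exact Finset.sum_eq_zero fun a _ => if_neg (h a)
  · intro a S hS F hF hne
    obtain ⟨x, hx, hm⟩ := hS F (fun y hy => (hF hy).1) hne
    refine ⟨x, hx, fun y hy => ?_⟩
    rw [hρ' a x (hF hx).2, hρ' a y (hF hy).2]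
    exact Prod.Lex.toLex_le_toLex.mpr (Or.inr ⟨rfl, hm y hy⟩)
  · intro a x h hedge
    have h0 := (hs a).2.2 x
    unfold SubAt lap cnt at h0 ⊢
    rw [add_assoc, ← Finset.sum_add_distrib] at h0 ⊢
    refine h0.trans (add_le_add le_rfl (Finset.sum_le_sum fun i _ => ?_))
    rw [hsel _ a x h]
    by_cases hy : dom a (x + e i)
    · have h6 := hle a _ hy
      obtain ⟨a', h'⟩ := hex a _ hy
      have h7 := h'.2 a hy
      rw [hsel _ a' _ h'] at h6 ⊢
      split_ifs with c1 c2 c2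
      · omega
      · have : τ a (x + e i) < τ a' (x + e i) := by
          by_contra hc
          apply c2
          rw [hρ' a x h, hρ' a' _ h']
          rcases lt_or_eq_of_le (show idx a' ≤ idx a by omega) with h8 | h8
          · exact Prod.Lex.toLex_lt_toLex.mpr (Or.inl h8)
          · obtain rfl := hidx _ _ h8
            exact Prod.Lex.toLex_lt_toLex.mpr (Or.inr ⟨rfl, c1⟩)
        omega
      · omega
      · omega
    · have := hedge i hy
      split_ifs <;> omega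

/-! ### geometry -/

lemma uni {ι : Type} [Finite ι] {P : ι → ℚ → Prop} (hm : ∀ i a b, a ≤ b → P i a → P i b)
    (h : ∀ i, ∃ a, P i a) : ∃ a, ∀ i, P i a := by
  choose a ha using h
  obtain ⟨b, hb⟩ := (Set.finite_range a).bddAbove
  exact ⟨b, fun i => hm i _ _ (hb ⟨i, rfl⟩) (ha i)⟩

lemma far {P : V → Prop} (h : ∀ᶠ x in cofinite, P x) : ∃ R : ℤ, ∀ x, R < n1 x → P x := by
  obtain ⟨R, hR⟩ := ((eventually_cofinite.mp h).image n1).bddAbove
  refine ⟨R, fun x hx => ?_⟩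
  by_contra hc
  exact absurd (hR ⟨x, hc, rfl⟩) (not_le.mpr hx)

lemma fin_n1 (R : ℤ) : {x : V | n1 x ≤ R}.Finite := by
  refine ((Set.finite_Icc (-R) R).prod (Set.finite_Icc (-R) R)).subset ?_
  intro x hx
  simp only [Set.mem_ofPred_eq, n1] at hx
  have := abs_nonneg x.1
  have := abs_nonneg x.2
  exact ⟨abs_le.mp (by omega), abs_le.mp (by omega)⟩

lemma dot_pos {ν : V} (h : ν ≠ 0) : 0 < dot ν ν := by
  unfold dot
  by_contra hc
  apply h
  have h1 : ν.1 = 0 := by nlinarith [mul_self_nonneg ν.1, mul_self_nonneg ν.2]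
  have h2 : ν.2 = 0 := by nlinarith [mul_self_nonneg ν.1, mul_self_nonneg ν.2]
  exact Prod.ext h1 h2

lemma box {ν : V} (h : ν ≠ 0) (A : ℤ) :
    ∃ R : ℤ, ∀ x, |det ν x| ≤ A → |dot ν x| ≤ A → n1 x ≤ R := by
  refine ⟨2 * (A * |ν.1| + A * |ν.2|), fun x h1 h2 => ?_⟩
  have hp := dot_pos h
  have e1 : dot ν ν * x.1 = dot ν x * ν.1 - det ν x * ν.2 := by unfold dot det; ring
  have e2 : dot ν ν * x.2 = dot ν x * ν.2 + det ν x * ν.1 := by unfold dot det; ring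
  have b1 : ∀ u v : ℤ, |u| ≤ A → |u * v| ≤ A * |v| := fun u v hu => by
    rw [abs_mul]
    exact mul_le_mul_of_nonneg_right hu (abs_nonneg _)
  have b2 : ∀ u : ℤ, |u| ≤ |dot ν ν * u| := fun u => by
    rw [abs_mul, abs_of_pos hp]
    nlinarith [abs_nonneg u]
  have c1 := b2 x.1
  have c2 := b2 x.2
  rw [e1] at c1
  rw [e2] at c2
  have d1 := abs_sub (dot ν x * ν.1) (det ν x * ν.2)
  have d2 := abs_add_le (dot ν x * ν.2) (det ν x * ν.1)
  have := b1 _ ν.1 h1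
  have := b1 _ ν.2 h1
  have := b1 _ ν.1 h2
  have := b1 _ ν.2 h2
  unfold n1
  omega

lemma fw {ν : V} (h : ν ≠ 0) (A M : ℤ) :
    ∀ᶠ x in cofinite, |det ν x| ≤ A → -A ≤ dot ν x → M ≤ dot ν x := by
  obtain ⟨R, hR⟩ := box h (|A| + |M|)
  refine eventually_cofinite.mpr ((fin_n1 R).subset fun x hx => ?_)
  simp only [Set.mem_ofPred_eq, not_forall, not_le] at hx
  obtain ⟨h1, h2, h3⟩ := hx
  have := le_abs_self A
  have := le_abs_self M
  have := abs_nonneg A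
  have := abs_nonneg M
  exact hR x (by omega) (abs_le.mpr ⟨by omega, by omega⟩)

lemma fwd {ν μ : V} (h : 0 < det ν μ) (A K : ℤ) :
    ∃ M : ℤ, ∀ y, M ≤ dot ν y → |det ν y| ≤ A → det μ y ≤ K := by
  have hν : ν ≠ 0 := by
    rintro rfl
    simp [det] at h
  have hp := dot_pos hν
  refine ⟨|A| * |dot μ ν| + dot ν ν * |K|, fun y h1 h2 => ?_⟩
  have e1 : dot ν ν * det μ y = det ν y * dot μ ν - dot ν y * det ν μ := by unfold dot det; ring
  have b1 : det ν y * dot μ ν ≤ |A| * |dot μ ν| := by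
    refine (le_abs_self _).trans ?_
    rw [abs_mul]
    exact mul_le_mul_of_nonneg_right (h2.trans (le_abs_self _)) (abs_nonneg _)
  have b0 : 0 ≤ |A| * |dot μ ν| + dot ν ν * |K| := by positivity
  have b2 : dot ν y ≤ dot ν y * det ν μ := by nlinarith
  have b3 : dot ν ν * det μ y ≤ dot ν ν * (-|K|) := by nlinarith
  have := le_of_mul_le_mul_left b3 hp
  have := neg_abs_le K
  omega

lemma step_le (ν x : V) (i : Fin 4) :
    |det ν (x + e i) - det ν x| ≤ n1 ν ∧ |dot ν (x + e i) - dot ν x| ≤ n1 ν := by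
  have := abs_nonneg ν.1
  have := abs_nonneg ν.2
  have := le_abs_self ν.1
  have := le_abs_self ν.2
  have := neg_abs_le ν.1
  have := neg_abs_le ν.2
  fin_cases i <;> simp only [det, dot, n1, e, abs_le] <;> simp <;> ring_nf <;> omega

/-- linear forms that are nonnegative on the two generators are bounded below on `S` -/
def Cone (S : Set V) (ν μ : V) : Prop :=
  ∀ q : Q2, 0 ≤ qd q ν → 0 ≤ qd q μ → ∃ C : ℚ, ∀ x ∈ S, -C ≤ qd q x

lemma qd_add (p q : Q2) (l : ℚ) (x : V) : qd (q + l • p) x = qd q x + l * qd p x := by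
  simp only [qd, Prod.fst_add, Prod.snd_add, Prod.smul_fst, Prod.smul_snd, smul_eq_mul]
  ring

lemma qd_toQ (ν x : V) : qd (toQ ν) x = dot ν x := by simp [qd, toQ, dot]
lemma dot_rot (ν x : V) : dot (rot ν) x = det ν x := by
  simp only [dot, rot, det]
  ring

lemma Cone.sub {S : Set V} {ν μ : V} (h : Cone S ν μ) {p : Q2} (hν : 0 ≤ qd p ν) (hμ : 0 ≤ qd p μ)
    {η : V} (h1 : 0 < qd p ν ∨ 0 ≤ dot η ν) (h2 : 0 < qd p μ ∨ 0 ≤ dot η μ) (C : ℚ) :
    ∃ C' : ℤ, ∀ x ∈ S, qd p x ≤ C → -C' ≤ dot η x := by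
  have key : ∀ ξ, 0 ≤ qd p ξ → (0 < qd p ξ ∨ 0 ≤ dot η ξ) →
      ∃ l0 : ℚ, ∀ l, l0 ≤ l → 0 ≤ l → 0 ≤ qd (toQ η + l • p) ξ := by
    intro ξ h0 h3
    rcases h3 with h3 | h3
    · refine ⟨-(dot η ξ : ℚ) / qd p ξ, fun l hl _ => ?_⟩
      rw [qd_add, qd_toQ]
      rw [div_le_iff₀ h3] at hl
      linarith
    · refine ⟨0, fun l _ hl => ?_⟩
      rw [qd_add, qd_toQ]
      have : (0 : ℚ) ≤ dot η ξ := by exact_mod_cast h3
      positivity
  obtain ⟨l1, k1⟩ := key ν hν h1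
  obtain ⟨l2, k2⟩ := key μ hμ h2
  have hl : 0 ≤ max 0 (max l1 l2) := le_max_left _ _
  obtain ⟨C1, hC⟩ := h _ (k1 _ ((le_max_left _ _).trans (le_max_right _ _)) hl)
    (k2 _ ((le_max_right _ _).trans (le_max_right _ _)) hl)
  refine ⟨⌈C1 + max 0 (max l1 l2) * C⌉, fun x hx h3 => ?_⟩
  have h4 := hC x hx
  rw [qd_add, qd_toQ] at h4
  have h5 := mul_le_mul_of_nonneg_left h3 hl
  have h6 := Int.le_ceil (C1 + max 0 (max l1 l2) * C)
  have : ((-⌈C1 + max 0 (max l1 l2) * C⌉ : ℤ) : ℚ) ≤ dot η x := by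
    push_cast
    linarith
  exact_mod_cast this

lemma Cone.out {S : Set V} {ν μ : V} (h : Cone S ν μ) {p : Q2} (hν : 0 ≤ qd p ν) (hμ : 0 ≤ qd p μ)
    {n : V} (h1 : 0 < qd p ν ∨ ν = n) (h2 : 0 < qd p μ ∨ μ = n) (C : ℚ) :
    ∃ C' : ℤ, ∀ x ∈ S, qd p x ≤ C → |det n x| ≤ C' ∧ -C' ≤ dot n x := by
  have k : ∀ η, 0 ≤ dot η n → ∃ C' : ℤ, ∀ x ∈ S, qd p x ≤ C → -C' ≤ dot η x := fun η hη =>
    h.sub hν hμ (h1.imp id fun a => a ▸ hη) (h2.imp id fun a => a ▸ hη) C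
  obtain ⟨A1, k1⟩ := k n (by unfold dot; nlinarith [mul_self_nonneg n.1, mul_self_nonneg n.2])
  obtain ⟨A2, k2⟩ := k (rot n) (by simp only [dot, rot]; linarith)
  obtain ⟨A3, k3⟩ := k (-rot n) (by simp only [dot, rot, Prod.fst_neg, Prod.snd_neg]; linarith)
  refine ⟨max A1 (max A2 A3), fun x hx hp => ?_⟩
  have a1 := k1 x hx hp
  have a2 := k2 x hx hp
  have a3 := k3 x hx hp
  have : dot (-rot n) x = -det n x := by
    simp only [dot, rot, det, Prod.fst_neg, Prod.snd_neg]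
    ring
  rw [dot_rot] at a2
  exact ⟨abs_le.mpr ⟨by omega, by omega⟩, by omega⟩

lemma Cone.fin {S : Set V} {ν μ : V} (h : Cone S ν μ) {p : Q2} (hν : 0 < qd p ν) (hμ : 0 < qd p μ)
    (C : ℚ) : {x | x ∈ S ∧ qd p x ≤ C}.Finite := by
  obtain ⟨A1, k1⟩ := h.out hν.le hμ.le (n := (1, 0)) (Or.inl hν) (Or.inl hμ) C
  obtain ⟨A2, k2⟩ := h.out hν.le hμ.le (n := (0, 1)) (Or.inl hν) (Or.inl hμ) C
  refine (fin_n1 (A1 + A2)).subset fun x hx => ?_
  have a1 := (k1 x hx.1 hx.2).1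
  have a2 := (k2 x hx.1 hx.2).1
  simp only [det, one_mul, zero_mul, sub_zero, zero_sub, abs_neg] at a1 a2
  simp only [Set.mem_ofPred_eq, n1]
  omega

lemma cone_strip {ν : V} (h : ν ≠ 0) (A : ℤ) :
    Cone {x | |det ν x| ≤ A ∧ 0 ≤ dot ν x} ν ν := by
  intro q h1 _
  have hp : (0 : ℚ) < dot ν ν := by exact_mod_cast dot_pos h
  refine ⟨A * |qd q (rot ν)| / dot ν ν, fun x hx => ?_⟩
  have e1 : dot ν ν * qd q x = dot ν x * qd q ν + det ν x * qd q (rot ν) := by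
    simp only [dot, det, qd, rot]
    push_cast
    ring
  have a1 : (0 : ℚ) ≤ dot ν x := by exact_mod_cast hx.2
  have a2 : |(det ν x : ℚ)| ≤ A := by exact_mod_cast hx.1
  have a3 : |det ν x * qd q (rot ν)| ≤ A * |qd q (rot ν)| := by
    rw [abs_mul]
    exact mul_le_mul_of_nonneg_right a2 (abs_nonneg _)
  have a4 := neg_abs_le (det ν x * qd q (rot ν))
  have a5 := mul_nonneg a1 h1
  rw [← neg_div, div_le_iff₀ hp]
  linarith

lemma cone_sec {ν μ : V} (h : 0 < det ν μ) (A B : ℤ) :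
    Cone {x | A ≤ det ν x ∧ det μ x ≤ B} ν μ := by
  intro q h1 h2
  have hp : (0 : ℚ) < det ν μ := by exact_mod_cast h
  refine ⟨(B * qd q ν - A * qd q μ) / det ν μ, fun x hx => ?_⟩
  have e1 : det ν μ * qd q x = det ν x * qd q μ - det μ x * qd q ν := by
    simp only [det, qd]
    push_cast
    ring
  have a1 : (A : ℚ) ≤ det ν x := by exact_mod_cast hx.1
  have a2 : (det μ x : ℚ) ≤ B := by exact_mod_cast hx.2
  have a3 := mul_le_mul_of_nonneg_right a1 h2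
  have a4 := mul_le_mul_of_nonneg_right a2 h1
  rw [← neg_div, div_le_iff₀ hp]
  linarith

lemma Cone.mono {S T : Set V} {ν μ : V} (h : Cone T ν μ) (hS : S ⊆ T) : Cone S ν μ :=
  fun q h1 h2 => let ⟨C, hC⟩ := h q h1 h2; ⟨C, fun x hx => hC x (hS hx)⟩

end Pool.Agent.Sand.Raysys
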