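import Pool.Agent.Lib.MP_215a10_lc.Dec.Raysys1

/-! Geometry of the sectors and wires of a ray system; the edge rule. -/

set_option autoImplicit false

namespace Pool.Agent.Sand.Raysys

open Classical Filter

variable (X : RaySys)

instance : Fintype X.R := X.fR
instance : Fintype X.S := X.fS
instance : Fintype X.P := X.fP
instance : Fintype X.J := X.fJ

def WD (r : X.R) (x : V) : Prop := |X.f r x| ≤ X.Wd - X.C0 ∧ 0 ≤ dot (X.ν r) x
def a1 : ℤ := 2 * X.C0 + X.C0 ^ 2 + 1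
def k0 : ℤ := 2 * X.C0 + a1 X + 1
def a2 : ℤ := k0 X + 2 * X.C0 + X.C0 ^ 2 + 1
noncomputable def al (r : X.R) : ℤ := if WFdir (X.ν r) (X.wρ r) then a2 X else a1 X

abbrev El : Type := X.P ⊕ {r // X.isW r}

def dom : El X → V → Prop
  | .inl a, x => ∃ σ, X.el σ = a ∧ x ∈ X.Sec σ
  | .inr r, x => WD X r.1 x

noncomputable def tau : El X → V → ℤ
  | .inl a, x => X.π a x
  | .inr r, x => X.w r.1 x + al X r.1

def rho : El X → V → R5
  | .inl a => X.πρ a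
  | .inr r => X.wρ r.1

lemma al_bd (r : X.R) : a1 X ≤ al X r ∧ al X r ≤ a2 X := by
  have : a1 X ≤ a2 X := by
    unfold a2 k0
    nlinarith [Int.natCast_nonneg X.C0]
  unfold al
  split_ifs <;> omega

lemma f_eq (r : X.R) (x : V) : X.f r x = det (X.ν r) x - det (X.ν r) (X.cen r) := by
  simp only [RaySys.f, det, Prod.fst_sub, Prod.snd_sub]
  ring

lemma ap_f (r : X.R) : AM (X.f r) := by
  unfold RaySys.f det
  simp only [Prod.fst_sub, Prod.snd_sub]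
  fun_prop

lemma am_dot (ν : V) : AM (dot ν) := by
  unfold dot
  fun_prop

lemma ap_sec (σ : X.S) : AP (fun x => x ∈ X.Sec σ) := by
  have h1 := ap_f X (X.lo σ)
  have h2 := ap_f X (X.hi σ)
  have h3 := am_dot (X.ν (X.lo σ))
  refine AP.and (by fun_prop) (AP.and (by fun_prop) (AP.imp (AP.const _) (by fun_prop)))

lemma ap_wd (r : X.R) : AP (WD X r) := by
  have h1 := ap_f X r
  have h3 := am_dot (X.ν r)
  unfold WD
  fun_prop

lemma ap_dom (a : El X) : AP (dom X a) := by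
  rcases a with a | r
  · exact AP.exFintype fun σ => (AP.const _).and (ap_sec X σ)
  · exact ap_wd X r.1

lemma sub_shift {α : Type} [LT α] {c τ : V → ℤ} {ρ : V → α} {x : V} (h : SubAt c τ ρ x) (k : ℤ) :
    SubAt c (fun y => τ y + k) ρ x := by
  unfold SubAt lap at h ⊢
  simpa using h

variable {X} {c : V → ℤ} (H : X.OK c)
include H

lemma sub_el (a : El X) : IsSub c (tau X a) (rho X a) := by
  rcases a with a | r
  · exact H.πsub a
  · obtain ⟨h1, h2, h3⟩ := H.wsub r.1 r.2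
    exact ⟨h1.add (AM.const _), h2, fun x => sub_shift (h3 x) _⟩

lemma step_f (r : X.R) (x : V) (i : Fin 4) : |X.f r (x + e i) - X.f r x| ≤ X.C0 ∧
    |dot (X.ν r) (x + e i) - dot (X.ν r) x| ≤ X.C0 := by
  have h1 := step_le (X.ν r) x i
  have h2 := H.ν_le r
  rw [f_eq, f_eq, sub_sub_sub_cancel_right]
  omega

omit H in
lemma kind2 {σ : X.S} (h : X.ν (X.lo σ) = X.ν (X.hi σ)) (x : V) :
    X.f (X.lo σ) x = X.f (X.hi σ) x + X.f (X.lo σ) (X.cen (X.hi σ)) := by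
  simp only [f_eq, h]
  ring

lemma cone_S (σ : X.S) : Cone (X.Sec σ) (X.ν (X.lo σ)) (X.ν (X.hi σ)) := by
  rcases H.kind σ with h | ⟨h, h'⟩
  · refine (cone_sec h (det (X.ν (X.lo σ)) (X.cen (X.lo σ)))
      (det (X.ν (X.hi σ)) (X.cen (X.hi σ)))).mono fun x hx => ?_
    have h1 := hx.1
    have h2 := hx.2.1
    rw [f_eq] at h1 h2
    exact ⟨by omega, by omega⟩
  · rw [← h]
    refine (cone_strip (H.ν_ne _) (|X.f (X.lo σ) (X.cen (X.hi σ))| +
      |det (X.ν (X.lo σ)) (X.cen (X.lo σ))|)).mono fun x hx => ⟨?_, hx.2.2 h⟩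
    have h1 := hx.1
    have h2 := hx.2.1
    have h3 := kind2 h x
    have h4 := f_eq X (X.lo σ) x
    have := le_abs_self (X.f (X.lo σ) (X.cen (X.hi σ)))
    have := abs_nonneg (X.f (X.lo σ) (X.cen (X.hi σ)))
    have := le_abs_self (det (X.ν (X.lo σ)) (X.cen (X.lo σ)))
    have := neg_abs_le (det (X.ν (X.lo σ)) (X.cen (X.lo σ)))
    exact abs_le.mpr ⟨by omega, by omega⟩

omit H in
lemma det_of_f (r : X.R) (A : ℤ) : ∃ B : ℤ, A ≤ B ∧ ∀ x, |X.f r x| ≤ A → |det (X.ν r) x| ≤ B := by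
  refine ⟨A + |det (X.ν r) (X.cen r)|, by simp, fun x hx => ?_⟩
  rw [f_eq, abs_le] at hx
  have := le_abs_self (det (X.ν r) (X.cen r))
  have := neg_abs_le (det (X.ν r) (X.cen r))
  exact abs_le.mpr ⟨by omega, by omega⟩

lemma cone_W (r : X.R) : Cone {x | WD X r x} (X.ν r) (X.ν r) := by
  obtain ⟨B, -, hB⟩ := det_of_f r (X.Wd - X.C0)
  exact (cone_strip (H.ν_ne r) B).mono fun x hx => ⟨hB x hx.1, hx.2⟩

lemma fw_f (r : X.R) (A M : ℤ) :
    ∀ᶠ x in cofinite, |X.f r x| ≤ A → -A ≤ dot (X.ν r) x → M ≤ dot (X.ν r) x := by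
  obtain ⟨B, h0, hB⟩ := det_of_f r A
  filter_upwards [fw (H.ν_ne r) B M] with x hx h1 h2
  exact hx (hB x h1) (by omega)

/-- far forward points near a ray lie in the adjacent sectors -/
lemma adj_lo (σ : X.S) : ∃ M : ℤ, ∀ y, M ≤ dot (X.ν (X.lo σ)) y → 0 ≤ X.f (X.lo σ) y →
    X.f (X.lo σ) y ≤ X.Wd → y ∈ X.Sec σ := by
  rcases H.kind σ with h | ⟨h, h'⟩
  · obtain ⟨B, -, hB⟩ := det_of_f (X.lo σ) X.Wd
    obtain ⟨M, hM⟩ := fwd h B (det (X.ν (X.hi σ)) (X.cen (X.hi σ)))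
    refine ⟨max M 0, fun y h1 h2 h3 => ⟨h2, ?_, fun _ => by omega⟩⟩
    have := hM y (by omega) (hB y (abs_le.mpr ⟨by omega, h3⟩))
    rw [f_eq]
    omega
  · refine ⟨0, fun y h1 h2 h3 => ⟨h2, ?_, fun _ => h1⟩⟩
    have := kind2 h y
    omega

lemma adj_hi (σ : X.S) : ∃ M : ℤ, ∀ y, M ≤ dot (X.ν (X.hi σ)) y → X.f (X.hi σ) y ≤ 0 →
    -X.Wd ≤ X.f (X.hi σ) y → y ∈ X.Sec σ := by
  rcases H.kind σ with h | ⟨h, h'⟩
  · obtain ⟨B, -, hB⟩ := det_of_f (X.hi σ) X.Wd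
    have hn : ∀ y, det (-X.ν (X.lo σ)) y = -det (X.ν (X.lo σ)) y := fun y => by
      simp only [det, Prod.fst_neg, Prod.snd_neg]
      ring
    obtain ⟨M, hM⟩ := fwd (ν := X.ν (X.hi σ)) (μ := -X.ν (X.lo σ)) (by
      simp only [det, Prod.fst_neg, Prod.snd_neg] at h ⊢
      linarith) B (-det (X.ν (X.lo σ)) (X.cen (X.lo σ)))
    refine ⟨max M 0, fun y h1 h2 h3 => ⟨?_, h2, fun h4 => by rw [h4]; omega⟩⟩
    have := hM y (by omega) (hB y (abs_le.mpr ⟨h3, by omega⟩))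
    rw [f_eq]
    rw [hn] at this
    omega
  · refine ⟨0, fun y h1 h2 h3 => ⟨?_, h2, fun _ => h ▸ h1⟩⟩
    have := kind2 h y
    omega

lemma adj (r : X.R) (A : ℤ) : ∀ᶠ y in cofinite, |X.f r y| ≤ X.Wd → -A ≤ dot (X.ν r) y →
    0 ≤ dot (X.ν r) y ∧ (∀ σ, X.lo σ = r → 0 ≤ X.f r y → y ∈ X.Sec σ) ∧
      ∀ σ, X.hi σ = r → X.f r y ≤ 0 → y ∈ X.Sec σ := by
  choose M1 h1 using adj_lo H
  choose M2 h2 using adj_hi H
  filter_upwards [fw_f H r (max A X.Wd) 0,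
    eventually_all.mpr fun σ => fw_f H r (max A X.Wd) (M1 σ),
    eventually_all.mpr fun σ => fw_f H r (max A X.Wd) (M2 σ)] with y k0 k1 k2 h3 h4
  have h5 : |X.f r y| ≤ max A X.Wd := by omega
  have h6 : -max A X.Wd ≤ dot (X.ν r) y := by omega
  rw [abs_le] at h3
  refine ⟨k0 h5 h6, ?_, ?_⟩
  · rintro σ rfl h7
    exact h1 σ y (k1 σ h5 h6) h7 h3.2
  · rintro σ rfl h7
    exact h2 σ y (k2 σ h5 h6) h7 h3.1

lemma adj' (r : X.R) (A : ℤ) : ∀ᶠ y in cofinite, |X.f r y| ≤ X.Wd → -A ≤ dot (X.ν r) y →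
    0 ≤ dot (X.ν r) y ∧ ∃ σ, (X.lo σ = r ∨ X.hi σ = r) ∧ y ∈ X.Sec σ := by
  filter_upwards [adj H r A] with y h h1 h2
  obtain ⟨h3, h4, h5⟩ := h h1 h2
  refine ⟨h3, ?_⟩
  rcases le_total 0 (X.f r y) with h6 | h6
  · obtain ⟨σ, hσ⟩ := H.after r
    exact ⟨σ, Or.inl hσ, h4 σ hσ h6⟩
  · obtain ⟨σ, hσ⟩ := H.before r
    exact ⟨σ, Or.inr hσ, h5 σ hσ h6⟩

/-- points of a sector near one of its boundary lines are not far backward -/
lemma near (σ : X.S) (r : X.R) (hr : X.lo σ = r ∨ X.hi σ = r) (A : ℤ) :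
    ∃ B : ℤ, ∀ x ∈ X.Sec σ, |X.f r x| ≤ A → -B ≤ dot (X.ν r) x := by
  obtain ⟨A', -, hA⟩ := det_of_f r A
  have hd : ∀ ν : V, 0 ≤ dot ν ν := fun ν => by
    unfold dot
    nlinarith [mul_self_nonneg ν.1, mul_self_nonneg ν.2]
  have hz : ∀ ν : V, det ν ν = 0 := fun ν => by
    unfold det
    ring
  have hq : ∀ ν x : V, qd (toQ (rot ν)) x = det ν x := fun ν x => by rw [qd_toQ, dot_rot]
  have hq' : ∀ ν x : V, qd (toQ (rot (-ν))) x = -det ν x := fun ν x => by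
    rw [hq]
    simp only [det, Prod.fst_neg, Prod.snd_neg]
    push_cast
    ring
  have hk := H.kind σ
  rcases hr with rfl | rfl
  · obtain ⟨B, hB⟩ := (cone_S H σ).sub (p := toQ (rot (X.ν (X.lo σ)))) (η := X.ν (X.lo σ))
      (by rw [hq, hz]; simp) (by
        rw [hq]
        rcases hk with h | h
        · exact_mod_cast h.le
        · rw [h.1, hz]; simp) (Or.inr (hd _)) (by
        rw [hq]
        rcases hk with h | h
        · exact Or.inl (by exact_mod_cast h)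
        · exact Or.inr (h.1 ▸ hd _)) A'
    refine ⟨B, fun x hx h => hB x hx ?_⟩
    rw [hq]
    exact_mod_cast (abs_le.mp (hA x h)).2
  · have hs : det (X.ν (X.hi σ)) (X.ν (X.lo σ)) = -det (X.ν (X.lo σ)) (X.ν (X.hi σ)) := by
      unfold det
      ring
    obtain ⟨B, hB⟩ := (cone_S H σ).sub (p := toQ (rot (-X.ν (X.hi σ)))) (η := X.ν (X.hi σ))
      (by
        rw [hq', hs]
        rcases hk with h | h
        · push_cast
          rw [neg_neg]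
          exact_mod_cast h.le
        · rw [h.1, hz]; simp) (by rw [hq', hz]; simp) (by
        rw [hq', hs]
        rcases hk with h | h
        · left
          push_cast
          rw [neg_neg]
          exact_mod_cast h
        · exact Or.inr (h.1 ▸ hd _)) (Or.inr (hd _)) A'
    refine ⟨B, fun x hx h => hB x hx ?_⟩
    rw [hq']
    have := (abs_le.mp (hA x h)).1
    exact_mod_cast (show -det (X.ν (X.hi σ)) x ≤ A' by omega)

lemma wd_big {r : X.R} (hr : X.isW r) : 2 * (X.C0 : ℤ) ≤ X.Wd := by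
  obtain ⟨h1, h2, h3⟩ := H.εb r hr
  by_contra hc
  have h4 : (X.Wd : ℚ) < 2 * X.C0 := by exact_mod_cast not_le.mp hc
  have h5 : (0 : ℚ) ≤ X.C0 := Nat.cast_nonneg _
  nlinarith

lemma w_lo {r : X.R} (hr : X.isW r) {y : V} (h : |X.f r y| ≤ X.C0) :
    -X.lr r y - X.C0 ^ 2 - X.C0 ≤ (X.w r y : ℚ) := by
  obtain ⟨h1, h2, -⟩ := H.εb r hr
  have h3 := (abs_le.mp (H.wapp r hr y)).1
  have h4 : |(X.f r y : ℚ)| ≤ X.C0 := by exact_mod_cast h
  have h5 := mul_le_mul h2 h4 (abs_nonneg _) (Nat.cast_nonneg _)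
  nlinarith

lemma w_up {r : X.R} (hr : X.isW r) (y : V) : (X.w r y : ℚ) ≤ -X.lr r y + X.C0 := by
  obtain ⟨h1, -, -⟩ := H.εb r hr
  have h3 := (abs_le.mp (H.wapp r hr y)).2
  have := mul_nonneg h1.le (abs_nonneg (X.f r y : ℚ))
  linarith

lemma ls_lr {σ : X.S} {r : X.R} (hr : X.isW r) (h : X.lo σ = r ∨ X.hi σ = r) (x : V) :
    X.ls σ x = X.lr r x := by
  obtain ⟨h1, h2⟩ := H.wl σ r hr h
  rw [RaySys.ls, RaySys.lr, h1, h2]

lemma edge_W (r : {r // X.isW r}) (i : Fin 4) : ∀ᶠ x in cofinite, dom X (.inr r) x →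
    ¬ dom X (.inr r) (x + e i) → ∃ a, dom X a (x + e i) ∧
      tau X (.inr r) (x + e i) < tau X a (x + e i) := by
  filter_upwards [(add_left_injective (e i)).tendsto_cofinite.eventually (adj' H r.1 X.C0)]
    with x h hx hy
  obtain ⟨s1, s2⟩ := step_f H r.1 x i
  obtain ⟨x1, x2⟩ := hx
  rw [abs_le] at s1 s2 x1
  obtain ⟨h1, σ, hσ, h2⟩ := h (abs_le.mpr ⟨by omega, by omega⟩) (by omega)
  refine ⟨.inl (X.el σ), ⟨σ, rfl, h2⟩, ?_⟩
  have h3 : X.Wd - X.C0 < |X.f r.1 (x + e i)| := not_le.mp fun h4 => hy ⟨h4, h1⟩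
  have h4 : (X.Wd : ℚ) - X.C0 - 1 ≤ |(X.f r.1 (x + e i) : ℚ)| := by
    exact_mod_cast (show X.Wd - X.C0 - 1 ≤ |X.f r.1 (x + e i)| by omega)
  obtain ⟨e1, -, e3⟩ := H.εb r.1 r.2
  have h5 := mul_le_mul_of_nonneg_left h4 e1.le
  have h6 := (abs_le.mp (H.wapp r.1 r.2 (x + e i))).2
  have h7 := H.πlo σ _ h2
  rw [ls_lr H r.2 hσ] at h7
  have h8 : (al X r.1 : ℚ) ≤ a2 X := by exact_mod_cast (al_bd X r.1).2
  have h9 : (0 : ℚ) ≤ X.C0 := Nat.cast_nonneg _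
  simp only [a2, k0, a1] at h8
  push_cast at h8
  have : ((X.w r.1 (x + e i) + al X r.1 : ℤ) : ℚ) < X.π (X.el σ) (x + e i) := by
    push_cast
    nlinarith
  exact_mod_cast this

lemma edge_S (σ : X.S) (i : Fin 4) : ∀ᶠ x in cofinite, x ∈ X.Sec σ →
    ¬ dom X (.inl (X.el σ)) (x + e i) → ∃ a, dom X a (x + e i) ∧
      tau X (.inl (X.el σ)) (x + e i) < tau X a (x + e i) := by
  obtain ⟨B1, hB1⟩ := near H σ _ (Or.inl rfl) X.C0
  obtain ⟨B2, hB2⟩ := near H σ _ (Or.inr rfl) X.C0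
  have hi := (add_left_injective (e i)).tendsto_cofinite
  have hW := H.Wdb
  have wire : ∀ r y, (X.lo σ = r ∨ X.hi σ = r) → X.isW r → |X.f r y| ≤ X.C0 →
      0 ≤ dot (X.ν r) y → ∃ a, dom X a y ∧ tau X (.inl (X.el σ)) y < tau X a y := by
    intro r y hσ hr h1 h2
    have := wd_big H hr
    refine ⟨.inr ⟨r, hr⟩, ⟨h1.trans (by omega), h2⟩, ?_⟩
    have h3 := w_lo H hr h1
    have h4 := H.πup σ y
    rw [ls_lr H hr hσ] at h4
    have h8 : (a1 X : ℚ) ≤ al X r := by exact_mod_cast (al_bd X r).1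
    simp only [a1] at h8
    push_cast at h8
    have : (X.π (X.el σ) y : ℚ) < ((X.w r y + al X r : ℤ) : ℚ) := by
      push_cast
      linarith
    exact_mod_cast this
  filter_upwards [hi.eventually (adj H (X.lo σ) (B1 + X.C0)),
    hi.eventually (adj H (X.hi σ) (B2 + X.C0)),
    hi.eventually (fw_f H (X.lo σ) (|X.f (X.lo σ) (X.cen (X.hi σ))| + X.C0) 0)]
    with x k1 k2 k3 hx hy
  obtain ⟨s1, s2⟩ := step_f H (X.lo σ) x i
  obtain ⟨s3, s4⟩ := step_f H (X.hi σ) x i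
  rw [abs_le] at s1 s2 s3 s4
  have x1 := hx.1
  have x2 := hx.2.1
  by_cases c1 : X.f (X.lo σ) (x + e i) < 0
  · have := hB1 x hx (abs_le.mpr ⟨by omega, by omega⟩)
    obtain ⟨h1, -, h2⟩ := k1 (abs_le.mpr ⟨by omega, by omega⟩) (by omega)
    by_cases hr : X.isW (X.lo σ)
    · exact wire _ _ (Or.inl rfl) hr (abs_le.mpr ⟨by omega, by omega⟩) h1
    · obtain ⟨σ', hσ⟩ := H.before (X.lo σ)
      exact absurd ⟨σ', H.virt σ' σ hσ (hσ ▸ hr), h2 σ' hσ c1.le⟩ hy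
  by_cases c2 : 0 < X.f (X.hi σ) (x + e i)
  · have := hB2 x hx (abs_le.mpr ⟨by omega, by omega⟩)
    obtain ⟨h1, h2, -⟩ := k2 (abs_le.mpr ⟨by omega, by omega⟩) (by omega)
    by_cases hr : X.isW (X.hi σ)
    · exact wire _ _ (Or.inr rfl) hr (abs_le.mpr ⟨by omega, by omega⟩) h1
    · obtain ⟨σ', hσ⟩ := H.after (X.hi σ)
      exact absurd ⟨σ', (H.virt σ σ' hσ.symm hr).symm, h2 σ' hσ c2.le⟩ hy
  refine absurd ⟨σ, rfl, not_lt.mp c1, not_lt.mp c2, fun h => ?_⟩ hy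
  have := hx.2.2 h
  have := kind2 h (x + e i)
  have := le_abs_self (X.f (X.lo σ) (X.cen (X.hi σ)))
  have := abs_nonneg (X.f (X.lo σ) (X.cen (X.hi σ)))
  exact k3 (abs_le.mpr ⟨by omega, by omega⟩) (by omega)

lemma edge : ∀ᶠ x in cofinite, ∀ a i, dom X a x → ¬ dom X a (x + e i) →
    ∃ a', dom X a' (x + e i) ∧ tau X a (x + e i) < tau X a' (x + e i) := by
  filter_upwards [eventually_all.mpr fun r => eventually_all.mpr fun i => edge_W H r i,
    eventually_all.mpr fun σ => eventually_all.mpr fun i => edge_S H σ i] with x h1 h2 a i hx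
  rcases a with a | r
  · obtain ⟨σ, rfl, hσ⟩ := hx
    exact h2 σ i hσ
  · exact h1 r i hx

end Pool.Agent.Sand.Raysys
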