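import Pool.Agent.Lib.MP_215a10_lc.Dec.Defs

/-! Statements of the lemmas of the decidability proof (each is proved in its own file). -/

set_option autoImplicit false

namespace Pool.Agent.Sand

/-! ### potentials, cells, budgets -/

def pot_stmt : Prop :=
  ∀ (G : Type) [AddCommGroup G] [LinearOrder G] [IsOrderedAddMonoid G] (N : ℤ)
    (E : V → Fin 4 → Prop) (κ : V → Fin 4 → G) (σ : V →+ G), 0 < N →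
    (∀ x z i, E (x + N • z) i ↔ E x i) → (∀ x z i, κ (x + N • z) i = κ x i) →
    (∀ x l z, wok E x l → (l.length : ℤ) ≤ N ^ 2 → disp l = N • z → wwt κ x l ≤ σ (disp l)) →
    ∃ w : V → G, (∀ x z, w (x + N • z) = w x + σ (N • z)) ∧
      ∀ x i, E x i → κ x i ≤ w (x + e i) - w x

def vfind_stmt : Prop :=
  ∀ (N : ℤ) (q : Q2) (ξ : V), 0 < N → ∃ v, Special N v ∧ Cl N q v ∧ qd q ξ ≤ qd v ξ

def spgrid_stmt : Prop := ∀ (N : ℤ) (p : Q2), Special N p → Grid (DD N) p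

def smallt_stmt : Prop :=
  ∀ (N D r : ℤ), 0 < D → ∃ t0 : ℚ, 0 < t0 ∧ ∀ (p : Q2) (ζ : V) (t : ℚ), Grid D p → n1 ζ ≤ r →
    0 ≤ t → t ≤ t0 → Cl N (p - t • toQ ζ) p

def clmove_stmt : Prop :=
  ∀ (N : ℤ) (q d : Q2), (∀ a, n1 a ≤ N ^ 2 → IsZ (qd q a) → qd d a = 0) →
    ∃ t0 : ℚ, 0 < t0 ∧ ∀ t : ℚ, |t| ≤ t0 → Cl N q (q + t • d)

def breaks_stmt : Prop :=
  ∀ (N : ℤ) (p d : Q2), ∃ (k : ℕ) (s : ℕ → ℚ), 0 < k ∧ s 0 = 0 ∧ s k = 1 ∧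
    (∀ i < k, s i < s (i + 1)) ∧
    (∀ i, 0 < i → i < k → ∃ a, n1 a ≤ N ^ 2 ∧ qd d a ≠ 0 ∧ IsZ (qd (p + s i • d) a)) ∧
    (∀ t : ℚ, 0 ≤ t → t ≤ 1 → (∃ a, n1 a ≤ N ^ 2 ∧ qd d a ≠ 0 ∧ IsZ (qd (p + t • d) a)) →
      ∃ i ≤ k, s i = t) ∧
    ∀ i < k, Cl N (p + ((s i + s (i + 1)) / 2) • d) (p + s i • d) ∧
      Cl N (p + ((s i + s (i + 1)) / 2) • d) (p + s (i + 1) • d)

def cone_stmt : Prop :=
  ∀ (n : ℤ) (C : Set V) (η : ℝ × ℝ) (ν : V), 0 ≤ n → (∀ a ∈ C, n1 a ≤ n) → (∀ a ∈ C, 0 ≤ rd η a) →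
    0 < rd η ν → ∃ η' : V, n1 η' ≤ n + 1 ∧ 0 < dot η' ν ∧ ∀ a ∈ C, 0 ≤ dot η' a

def budget_stmt : Prop :=
  ∀ (c : V → ℤ) (N : ℤ) (q : Q2), IsBG c N → Pinned c q → ∃ k, Budget c N k ∧
    ∀ (q' : Q2) (D : ℤ), 0 < D → Cl N q q' → Grid D q' →
      ∃ B : V → ℤ, Eqv N ((D : ℚ) • q') B ∧ ∀ x i, B (x + e i) - B x ≤ D * k x i

def unpinned_stmt : Prop :=
  ∀ (c : V → ℤ) (N : ℤ) (m : Q2), IsBG c N → ¬ Pinned c m →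
    ∃ (D : ℤ) (B : V → ℤ), 0 < D ∧ Eqv N ((D : ℚ) • m) B ∧ ∀ x, 4 ≤ c x + lapD D B x

def finphase_stmt : Prop :=
  ∀ (c : V → ℤ) (D N : ℤ) (P : Q2), (∀ x, 0 ≤ c x) → 0 < D → 0 < N →
    {B : V → ℤ | (∀ x, StD c D B x) ∧ Eqv N P B ∧ B 0 = 0}.Finite

/-! ### planarity -/

def separate_stmt : Prop :=
  ∀ (τ T : V) (W : Set V), τ ≠ 0 → T ≠ 0 → det τ T = 0 → IBand τ W → (∀ x, x + T ∈ W ↔ x ∈ W) →
    (∃ x ∈ W, {y | Conn W x y}.Infinite) →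
    ∃ C : ℤ, ∀ x y, Conn Wᶜ x y → C ≤ det τ x → det τ y ≤ -C → False

def lanes_stmt : Prop :=
  ∀ (N : ℤ) (A : Set V), 0 < N → (∀ x z, x + N • z ∈ A ↔ x ∈ A) → A.Nonempty → Aᶜ.Nonempty →
    (∀ x ∈ A, {y | Conn A x y}.Infinite) → (∀ x ∈ Aᶜ, {y | Conn Aᶜ x y}.Infinite) →
    ∃ τ : V, τ ≠ 0 ∧ ∃ C : ℤ, ∀ x y, (Conn A x y ∨ Conn Aᶜ x y) → |det τ (y - x)| ≤ C

/-! ### burning ranks -/

/-- data invariant under the lattice generated by `z1, z2`, `Y` finite modulo the lattice -/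
def RankHyp (z1 z2 : V) (Y : Set V) (E : V → Fin 4 → Prop) (θ : V → ℤ) : Prop :=
  (∀ x, (x + z1 ∈ Y ↔ x ∈ Y) ∧ (x + z2 ∈ Y ↔ x ∈ Y)) ∧
  (∀ x ∈ Y, ∀ i, (E (x + z1) i ↔ E x i) ∧ (E (x + z2) i ↔ E x i)) ∧
  (∀ x ∈ Y, θ (x + z1) = θ x ∧ θ (x + z2) = θ x) ∧
  (∀ x ∈ Y, ∀ i, E x i → x + e i ∈ Y) ∧
  ∃ R : Finset V, ∀ x ∈ Y, ∃ i j : ℤ, x - i • z1 - j • z2 ∈ R

def rankplus_stmt : Prop :=
  ∀ (z1 z2 η : V) (Y : Set V) (E : V → Fin 4 → Prop) (θ : V → ℤ), RankHyp z1 z2 Y E θ →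
    (∀ F ⊆ Y, IHalf η F → Stuck E θ F → F = ∅) →
    ∃ (r : V → ℤ) (j C : ℤ), 0 < j ∧ AM r ∧ (∀ x ∈ Y, |r x - j * dot η x| ≤ C) ∧
      (∀ x ∈ Y, r (x + z1) = r x + j * dot η z1 ∧ r (x + z2) = r x + j * dot η z2) ∧
      ∀ x ∈ Y, θ x ≤ cnt (fun i => E x i ∧ r (x + e i) < r x)

def rank_stmt : Prop :=
  ∀ (z1 z2 η : V) (Y : Set V) (E : V → Fin 4 → Prop) (θ : V → ℤ), RankHyp z1 z2 Y E θ →
    (∀ F ⊆ Y, (∃ C : ℤ, ∀ x ∈ F, |dot η x| ≤ C) → Stuck E θ F → F = ∅) →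
    ∃ r : V → R2, AR2 r ∧ (∀ x ∈ Y, θ x ≤ cnt (fun i => E x i ∧ r (x + e i) < r x)) ∧
      (∀ C : ℤ, WFon {x | x ∈ Y ∧ |dot η x| ≤ C} r) ∧
      ((∀ F ⊆ Y, IHalf η F → Stuck E θ F → F = ∅) →
        ∀ C : ℤ, WFon {x | x ∈ Y ∧ -C ≤ dot η x} r)

/-! ### wires and tents -/

/-- no nonempty forbidden set in a half plane pointing to the `ν` side -/
def Hnu (c φ : V → ℤ) (ν : V) : Prop :=
  ∀ η : ℝ × ℝ, 0 < rd η ν → ∀ F, FSC c φ F → (∀ x ∈ F, 0 < rd η x) → F = ∅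

def triA_stmt : Prop :=
  ∀ (c : V → ℤ) (N0 N : ℤ), IsBG c N0 → 0 < N → N0 ∣ N → ∃ r : ℤ, ∀ (φ : V → ℤ) (p : Q2) (ν : V),
    Stable c φ → Eqv N p φ → Free c 1 IFin φ → ν ≠ 0 → ¬ Hnu c φ ν →
    (∃ ζ, ζ ≠ 0 ∧ n1 ζ ≤ r ∧ StepF c φ ζ ∧ dot ζ ν < 0) ∨ ∃ W, SB c N φ ν (IHalf ν) W

def triB_stmt : Prop :=
  ∀ (c : V → ℤ) (N0 N : ℤ) (φ : V → ℤ) (p : Q2) (ν : V), IsBG c N0 → 0 < N → N0 ∣ N →
    Stable c φ → Eqv N p φ → ν ≠ 0 → Hnu c φ ν → ∃ W, SB c N φ ν (IHalf ν) W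

def wire_stmt : Prop :=
  ∀ (c : V → ℤ) (N0 N : ℤ) (φ : V → ℤ) (p : Q2) (ν : V) (W : Set V), IsBG c N0 → 0 < N → N0 ∣ N →
    Stable c φ → Eqv N p φ → ν ≠ 0 →
    (SB c N φ ν IFin W → Free c 1 IFin φ → HasWire c p ν) ∧
    (SB c N φ ν (IHalf ν) W → Free c 1 (IOut ν) φ → HasWFWire c p ν)

def wireU_stmt : Prop :=
  ∀ (c : V → ℤ) (N : ℤ) (r : Q2) (n : V), IsBG c N → ¬ Pinned c r → n ≠ 0 → HasWFWire c r n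

def cyl_stmt : Prop :=
  ∀ (c : V → ℤ) (N0 N : ℤ) (φ : V → ℤ), IsBG c N0 → 0 < N → N0 ∣ N →
    (∀ (p : Q2) (n : V) (s : ℤ), Eqv N p φ → n ≠ 0 → Free c 1 (IBand n) φ → qd p n = 0 →
      (s = 1 ∨ s = -1) → 0 < s * qd p (rot n) → CylData c p n s) ∧
    (∀ η : V, Eqv N 0 φ → Free c 1 (IHalf η) φ → ZeroLink c η)

def tentU_stmt : Prop :=
  ∀ (c : V → ℤ) (N : ℤ) (m q q' : Q2) (n : V), IsBG c N → ¬ Pinned c m → Cl N m q → Cl N m q' →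
    n ≠ 0 → qd (m - q) n = 0 → qd (m - q') n = 0 → HasWFTent c q q' n

def tentP_stmt : Prop :=
  ∀ (c : V → ℤ) (N D : ℤ) (B : V → ℤ) (m q q' : Q2) (n : V), IsBG c N → 0 < D →
    Eqv N ((D : ℚ) • m) B → Cl N m q → Cl N m q' → q ≠ m → n ≠ 0 →
    qd (m - q) n = 0 → qd (m - q') n = 0 →
    (Free c D IFin B → HasTent c q q') ∧ (Free c D (IOut n) B → HasWFTent c q q' n)

/-! ### lowering -/

def psi_stmt : Prop :=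
  ∀ (c : V → ℤ) (N0 N D : ℤ) (I : Set V → Prop) (P : Q2) (B : V → ℤ), IsBG c N0 → N0 ∣ N → 0 < D →
    TInv I → (∀ x, StD c D B x) → Eqv N P B →
    (∀ x, StD c D (Psi c D I B) x) ∧ Eqv N P (Psi c D I B) ∧
    ∀ a : ℤ, Psi c D I (fun x => B x + a) = fun x => Psi c D I B x + a

def descent_stmt : Prop :=
  ∀ (c : V → ℤ) (N0 N D : ℤ) (I : Set V → Prop) (P : Q2) (B : V → ℤ), IsBG c N0 → 0 < N → N0 ∣ N →
    0 < D → TInv I → (∀ x, StD c D B x) → Eqv N P B →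
    ∃ j : ℕ, Free c D I ((Psi c D I)^[j] B) ∨ Cyc c D I ((Psi c D I)^[j] B)

def cycramp_stmt : Prop :=
  ∀ (c : V → ℤ) (N0 N D : ℤ) (I : Set V → Prop) (m : Q2) (B : V → ℤ) (ζ : V), IsBG c N0 → 0 < N →
    N0 ∣ N → 0 < D → TInv I → (∀ x, StD c D B x) → Eqv N ((D : ℚ) • m) B → Cyc c D I B → ζ ≠ 0 →
    (∀ F, I F → ∃ C : ℤ, ∀ x ∈ F, dot ζ x ≤ C) → HasRamp c (D * N) (fun x => B x / D) m ζ

def stepramp_stmt : Prop :=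
  ∀ (c : V → ℤ) (N0 N : ℤ) (φ : V → ℤ) (p : Q2) (ζ : V), IsBG c N0 → 0 < N → N0 ∣ N →
    Stable c φ → Eqv N p φ → ζ ≠ 0 → StepF c φ ζ → HasRamp c N φ p ζ

/-- a spacing that works for all phases at grid points and all bounded directions -/
def rampM_stmt : Prop :=
  ∀ (c : V → ℤ) (N0 N D r : ℤ) (t0 : ℚ), IsBG c N0 → 0 < N → 0 < D → 0 < t0 →
    ∃ M : ℤ, 0 < M ∧ 1 / (M : ℚ) ≤ t0 ∧ ∀ (φ : V → ℤ) (p : Q2) (ζ : V), Stable c φ → Grid D p →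
      Eqv N p φ → ζ ≠ 0 → n1 ζ ≤ r → HasRamp c N φ p ζ → ∃ S, Stair c N φ p ζ (1 / (M : ℚ)) S

/-! ### soundness and enumerability of the certificates -/

def esound_stmt : Prop := ∀ (c : V → ℤ) (N : ℤ), IsBG c N → ECert c N → ¬ Robust c
def rsound_stmt : Prop := ∀ (c : V → ℤ) (N : ℤ), IsBG c N → RCert c N → Robust c
def reE_stmt : Prop := REPred (fun t : ℕ × ℕ × List ℕ => ECert (cT t) (NT t))
def reR_stmt : Prop := REPred (fun t : ℕ × ℕ × List ℕ => RCert (cT t) (NT t))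

/-! ### derived rules -/

/-- one application of a primitive rule to finitely many derivable families -/
def dvof_stmt : Prop :=
  ∀ (c : V → ℤ) (N : ℤ) (X : Ctx) (fam : List (V × (V → V → ℤ))) (T : V) (G : V → V → ℤ),
    (∀ f ∈ fam, DvF c N X f.1 f.2) → AM (fun w : V × V => G w.1 w.2) → dot X.l T = 0 →
    (∀ s, Just c N X (fam.map fun f => ⟨0, f.1, f.2⟩) 1 T (G s)) → DvF c N X T G

def dickson_stmt : Prop :=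
  ∀ (ws : List Q2) (C : ℚ),
    (∀ T : V, (∀ ξ, ¬ Par T ξ → ∃ w ∈ ws, 0 < qd w ξ) → FinMod T (fun x => ∀ w ∈ ws, qd w x ≤ C)) ∧
    (∀ l : V, (∀ ξ, 0 < dot l ξ → ∃ w ∈ ws, 0 < qd w ξ) →
      ∃ C' : ℤ, ∀ x, (∀ w ∈ ws, qd w x ≤ C) → dot l x ≤ C')

/-- surgery against the hull, comparing with a derivable family `G` -/
def ph_stmt : Prop :=
  ∀ (c : V → ℤ) (N : ℤ) (X : Ctx) (T : V) (F G : ℤ → V → ℤ) (W : List V) (B H A : List Q2),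
    IsBG c N → dot X.l T = 0 → AncOK X A → AM (fun w : ℤ × V => F w.1 w.2) →
    (∀ s, Stable c (F s) ∧ ∀ x, F s (x + T) = F s x) → DvF c N X T (fun s => G s.1) →
    (∀ s, ∃ C : ℚ, ∀ x, F s x ≠ G s x → (∀ w ∈ W, (dot w x : ℚ) ≤ C) ∧
      ∀ b ∈ B, -qd b x - C ≤ F s x ∧ -qd b x - C ≤ G s x) →
    (∀ y ∈ H, Hull c N X T y) → PSx X.l T W B H A → DvF c N X T (fun s => F s.1)

/-- surgery against the hull alone -/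
def ph0_stmt : Prop :=
  ∀ (c : V → ℤ) (N : ℤ) (X : Ctx) (T : V) (F : ℤ → V → ℤ) (B H A : List Q2),
    IsBG c N → dot X.l T = 0 → AncOK X A → AM (fun w : ℤ × V => F w.1 w.2) →
    (∀ s, Stable c (F s) ∧ ∀ x, F s (x + T) = F s x) →
    (∀ s, ∃ C : ℚ, ∀ x, ∀ b ∈ B, -qd b x - C ≤ F s x) →
    (∀ y ∈ H, Hull c N X T y) → PSx X.l T [] B H A → DvF c N X T (fun s => F s.1)

/-- surgery in a band against cylinder hull functions; the result need not be `T`-invariant -/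
def phC_stmt : Prop :=
  ∀ (c : V → ℤ) (N : ℤ) (X : Ctx) (T : V) (F : ℤ → V → ℤ) (B H : List Q2),
    IsBG c N → T ≠ 0 → dot X.l T = 0 → AM (fun w : ℤ × V => F w.1 w.2) →
    (∀ s, Stable c (F s)) → (∀ b ∈ B, qd b T = 0) →
    (∀ s, ∃ C : ℚ, ∀ x, ∀ b ∈ B, -qd b x - C ≤ F s x) →
    (∀ y ∈ H, Hull c N X T y) → PS T [] B H → DvF c N X 0 (fun s => F s.1)

def kmaxC_stmt : Prop :=
  ∀ (c : V → ℤ) (N0 : ℤ) (X : Ctx) (T : V) (k : V → Fin 4 → ℤ) (g : V → ℤ) (B H : List Q2),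
    IsBG c N0 → T ≠ 0 → dot X.l T = 0 → Budget c N0 k → KF k g → AM g →
    (∀ b ∈ B, qd b T = 0 ∧ ∃ h, KF k h ∧ AM h ∧ Near b h) →
    (∀ y ∈ H, Hull c N0 X T y) → PS T [] B H → Dv c N0 X 0 g

def lowfin_stmt : Prop :=
  ∀ (c : V → ℤ) (N0 N : ℤ) (X : Ctx) (φ : V → ℤ) (p : Q2), IsBG c N0 → 0 < N → N0 ∣ N →
    Stable c φ → Eqv N p φ → Dv c N0 X 0 φ → Dv c N0 X 0 (Psi c 1 IFin φ)

def lowband_stmt : Prop :=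
  ∀ (c : V → ℤ) (N0 N m : ℤ) (X : Ctx) (φ : V → ℤ) (p : Q2) (n : V), IsBG c N0 → 0 < N → N0 ∣ N →
    Stable c φ → Eqv N p φ → n ≠ 0 → 0 < m → qd p n = 0 → dot X.l n = 0 →
    Dv c N0 X ((m * N) • n) φ → Dv c N0 X ((m * N) • n) (Psi c 1 (IBand n) φ)

def ystar_stmt : Prop :=
  ∀ (c : V → ℤ) (N0 N : ℤ) (X : Ctx) (T : V) (φ : V → ℤ) (p : Q2) (t : ℚ) (Z : List V)
    (H A : List Q2), IsBG c N0 → 0 < N → N0 ∣ N → dot X.l T = 0 → AncOK X A → 0 < t →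
    Stable c φ → Eqv N p φ → Dv c N0 X T φ → qd p T = 0 →
    (∀ ζ ∈ Z, ζ ≠ 0 ∧ (∃ j : ℤ, T = (j * N) • rot ζ) ∧ ∃ S, Stair c N φ p ζ t S) →
    (∀ y ∈ H, Hull c N0 X T y) → PSx X.l T (Z.map fun ζ => -ζ) [p] H A →
    ∀ ζ ∈ Z, Hull c N0 X T (p - t • toQ ζ)

def enter_stmt : Prop :=
  ∀ (c : V → ℤ) (N0 N : ℤ) (X : Ctx) (φ S : V → ℤ) (p : Q2) (t : ℚ) (ζ : V) (H A : List Q2),
    IsBG c N0 → 0 < N → N0 ∣ N → AncOK X A → 0 < t → Stable c φ → Eqv N p φ → ζ ≠ 0 →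
    Stair c N φ p ζ t S → (∀ y ∈ H, Hull c N0 X 0 y) →
    PSx X.l 0 [] [p, p - t • toQ ζ] H A → Dv c N0 X 0 φ

def kmax_stmt : Prop :=
  ∀ (c : V → ℤ) (N0 : ℤ) (X : Ctx) (T : V) (k : V → Fin 4 → ℤ) (g : V → ℤ) (B H A : List Q2),
    IsBG c N0 → dot X.l T = 0 → AncOK X A → Budget c N0 k →
    KF k g → AM g → (∀ x, g (x + T) = g x) →
    (∀ b ∈ B, ∃ h, KF k h ∧ AM h ∧ Near b h ∧ ∀ x, h (x + T) = h x) →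
    (∀ y ∈ H, Hull c N0 X T y) → PSx X.l T [] B H A → Dv c N0 X T g

def kmax0_stmt : Prop :=
  ∀ (c : V → ℤ) (N0 : ℤ) (T : V) (k : V → Fin 4 → ℤ) (g h : V → ℤ),
    IsBG c N0 → Budget c N0 k → KF k g → AM g → (∀ x, g (x + T) = g x) →
    KF k h → AM h → Near 0 h → (∀ x, h (x + T) = h x) → Dv c N0 ctx0 T g

def rcertA_stmt : Prop :=
  ∀ (c : V → ℤ) (N : ℤ) (T l : V) (H : List Q2), IsBG c N → l ≠ 0 → dot l T = 0 →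
    (∀ y ∈ H, Hull c N ctx0 T y) → PS T [] [toQ l] H → RCert c N

def rcertB_stmt : Prop :=
  ∀ (c : V → ℤ) (N : ℤ) (l : V) (A : V → ℤ) (ys : List (V → ℤ)), l ≠ 0 → ys ≠ [] →
    Dv c N ctx0 0 A → (∀ y ∈ ys, Dv c N ctx0 0 y) →
    (∀ y ∈ ys, Dv c N ⟨False, l, A, ys.map fun y => ⟨0, 0, fun _ => y⟩⟩ 0 (fun x => y x - dot l x)) →
    RCert c N

/-! ### pumping -/

def pumpA_stmt : Prop :=
  ∀ (D : ℤ) (Y : Set Q2), 0 < D → (∀ y ∈ Y, Grid D y) → (0 : Q2) ∈ Y → Y.Infinite →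
    (∃ l : V, l ≠ 0 ∧ ∃ H : List Q2, (∀ y ∈ H, y ∈ Y) ∧ PS 0 [] [toQ l] H) ∨
    ∃ l : V, l ≠ 0 ∧ (∃ K : ℚ, ∀ y ∈ Y, |qd y (rot l)| ≤ K) ∧ ∀ β : ℚ, ∃ y ∈ Y, β < qd y l

def pumpB_stmt : Prop :=
  ∀ (F : Type) (sl : F → Q2) (sh : F → V → F) (Lib : Set (Tup F)) (Init : Set F) (D r : ℤ) (l : V),
    0 < D → (∀ f, Grid D (sl f)) → (∀ f a, sl (sh f a) = sl f + toQ a) →
    (∀ f a b, sh (sh f a) b = sh f (a + b)) → (∀ f, sh f 0 = f) → (∀ p, {f | sl f = p}.Finite) →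
    (∀ t ∈ Lib, TupOK sl D r t) → Init.Finite → l ≠ 0 →
    (∃ K : ℚ, ∀ f, Clo sl Lib 0 [] Init f → |qd (sl f) (rot l)| ≤ K) →
    (∀ β : ℚ, ∃ f, Clo sl Lib 0 [] Init f ∧ β < qd (sl f) l) →
    ∃ l' : V, l' ≠ 0 ∧ ∃ a1 a2, Clo sl Lib 0 [] Init a1 ∧ Clo sl Lib 0 [] Init a2 ∧
      ∃ Y : List F, Y ≠ [] ∧ (∀ y ∈ Y, Clo sl Lib 0 [] Init y) ∧
        ∀ y ∈ Y, Clo sl Lib l' [sl a1, sl a2] {y | y ∈ Y} (sh y l')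

/-! ### assembly -/

def raysys_stmt : Prop := ∀ (c : V → ℤ) (N : ℤ) (X : RaySys), IsBG c N → X.OK c → ECert c N

def poly0_stmt : Prop :=
  ∀ (c : V → ℤ) (N : ℤ) (n : V), IsBG c N → n ≠ 0 → HasWFWire c 0 n → HasWFWire c 0 (-n) →
    ZeroLink c (rot n) → ZeroLink c (-rot n) → ECert c N

def poly_stmt : Prop :=
  ∀ (c : V → ℤ) (N : ℤ) (CP : Q2 → Prop) (H : List Q2), IsBG c N → (0 : Q2) ∈ H →
    (∃ p ∈ H, p ≠ 0) →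
    (∀ p p' n, IsEdge H p p' n → EdgeData c CP p p' n) →
    (∀ p p' n, IsEdge H p p' n → p ≠ 0 → VertexData c CP H p) →
    (∀ p n p' n', IsEdge H p 0 n → IsEdge H 0 p' n' → ZeroData c n n') → ECert c N

/-- existence and uniqueness of the boundary edges of a finite set of points -/
def edges_stmt : Prop :=
  ∀ (H : List Q2), (∃ p ∈ H, ∃ p' ∈ H, p ≠ p') →
    (∃ p p' n, IsEdge H p p' n) ∧
    (∀ p p' n, IsEdge H p p' n → (∃ p'' n', IsEdge H p' p'' n') ∧ ∃ p'' n', IsEdge H p'' p n') ∧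
    (∀ p p' n p'' n', IsEdge H p p' n → IsEdge H p p'' n' → p' = p'') ∧
    (∀ p p' n p'' n', IsEdge H p p' n → IsEdge H p'' p' n' → p = p'') ∧
    (∀ p p' n p'' n', IsEdge H p p' n → IsEdge H p' p'' n' →
      (0 < det n n' ∨ (det n n' = 0 ∧ dot n n' < 0 ∧ p'' = p ∧ ∀ y ∈ H, qd y n = qd p n)) ∧
      ∀ ν, Sup H p' ν → 0 ≤ det n ν ∧ 0 ≤ det ν n')

end Pool.Agent.Sand
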