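import Pool.Agent.Lib.MP_215a10_lc.Dec.Stmts

/-! Auxiliary lemmas for the construction of tents. -/

set_option autoImplicit false

namespace Pool.Agent.Sand.Tent

abbrev G3 := ℤ ×ₗ ℤ ×ₗ ℤ
def mk3 (a b c : ℤ) : G3 := toLex (a, toLex (b, c))
def g1 (u : G3) : ℤ := (ofLex u).1
def g2 (u : G3) : ℤ := (ofLex (ofLex u).2).1
def g3 (u : G3) : ℤ := (ofLex (ofLex u).2).2

@[simp] lemma g1_mk (a b c : ℤ) : g1 (mk3 a b c) = a := rfl
@[simp] lemma g2_mk (a b c : ℤ) : g2 (mk3 a b c) = b := rfl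
@[simp] lemma g3_mk (a b c : ℤ) : g3 (mk3 a b c) = c := rfl
@[simp] lemma g1_add (u v : G3) : g1 (u + v) = g1 u + g1 v := rfl
@[simp] lemma g2_add (u v : G3) : g2 (u + v) = g2 u + g2 v := rfl
@[simp] lemma g3_add (u v : G3) : g3 (u + v) = g3 u + g3 v := rfl
@[simp] lemma g1_sub (u v : G3) : g1 (u - v) = g1 u - g1 v := rfl
@[simp] lemma g2_sub (u v : G3) : g2 (u - v) = g2 u - g2 v := rfl
@[simp] lemma g3_sub (u v : G3) : g3 (u - v) = g3 u - g3 v := rfl
lemma mk3_add (a b c a' b' c' : ℤ) : mk3 a b c + mk3 a' b' c' = mk3 (a + a') (b + b') (c + c') := rfl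
lemma mk3_zero : (0 : G3) = mk3 0 0 0 := rfl

lemma le_iff (u v : G3) : u ≤ v ↔ g1 u < g1 v ∨ (g1 u = g1 v ∧
    (g2 u < g2 v ∨ (g2 u = g2 v ∧ g3 u ≤ g3 v))) := by
  rw [Prod.Lex.le_iff, Prod.Lex.le_iff]
  rfl

lemma g1_min (u v : G3) : g1 (min u v) = min (g1 u) (g1 v) := by
  rcases le_total u v with h | h
  · rw [min_eq_left h]
    have := (le_iff _ _).1 h
    omega
  · rw [min_eq_right h]
    have := (le_iff _ _).1 h
    omega

/-- decomposition modulo `N` -/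
lemma decomp (N : ℤ) (x : V) : x = (x.1 % N, x.2 % N) + N • (x.1 / N, x.2 / N) := by
  ext
  · simp [Int.emod_add_mul_ediv]
  · simp [Int.emod_add_mul_ediv]

noncomputable def box (N : ℤ) : Finset V := Finset.Ico 0 N ×ˢ Finset.Ico 0 N

lemma mem_box {N : ℤ} (hN : 0 < N) (x : V) : (x.1 % N, x.2 % N) ∈ box N := by
  simp only [box, Finset.mem_product, Finset.mem_Ico]
  exact ⟨⟨Int.emod_nonneg _ hN.ne', Int.emod_lt_of_pos _ hN⟩,
    ⟨Int.emod_nonneg _ hN.ne', Int.emod_lt_of_pos _ hN⟩⟩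

lemma dot_add (u a b : V) : dot u (a + b) = dot u a + dot u b := by
  simp only [dot, Prod.fst_add, Prod.snd_add]; ring

lemma per_of_eqv {N : ℤ} {w : V → ℤ} {u : V} (h : ∀ x z, w (x + N • z) = w x - dot u (N • z))
    (x : V) : w x + dot u x = w (x.1 % N, x.2 % N) + dot u (x.1 % N, x.2 % N) := by
  conv_lhs => rw [decomp N x]
  rw [h, dot_add]
  ring

lemma am_eqv {N : ℤ} (hN : 0 < N) {w : V → ℤ} {u : V}
    (h : ∀ x z, w (x + N • z) = w x - dot u (N • z)) : AM w := by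
  refine AM.of_graph (P := fun x y => ∃ r ∈ (box N : Set V),
    x.1 % N = r.1 ∧ x.2 % N = r.2 ∧ y + (u.1 * x.1 + u.2 * x.2) = w r + dot u r)
    (AP.exFin (box N).finite_toSet fun r _ => by fun_prop) fun x y => ?_
  have h1 := per_of_eqv h x
  constructor
  · rintro ⟨r, -, e1, e2, e3⟩
    have e4 : r = (x.1 % N, x.2 % N) := Prod.ext e1.symm e2.symm
    rw [e4, ← h1] at e3
    simp only [dot] at e3
    linarith
  · rintro rfl
    exact ⟨_, mem_box hN x, rfl, rfl, h1⟩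

lemma bd_eqv {N : ℤ} (hN : 0 < N) {w : V → ℤ} {u : V}
    (h : ∀ x z, w (x + N • z) = w x - dot u (N • z)) : ∃ C : ℤ, ∀ x, |w x + dot u x| ≤ C := by
  refine ⟨∑ r ∈ box N, |w r + dot u r|, fun x => ?_⟩
  rw [per_of_eqv h x]
  exact Finset.single_le_sum (f := fun r => |w r + dot u r|) (fun _ _ => abs_nonneg _)
    (mem_box hN x)

lemma ex_grid (p : Q2) : ∃ D : ℤ, 0 < D ∧ Grid D p := by
  refine ⟨(p.1.den : ℤ) * p.2.den, by positivity, (p.1.num * p.2.den, p.2.num * p.1.den), ?_⟩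
  ext
  · simp only [toQ, Prod.smul_fst, smul_eq_mul]
    push_cast
    rw [← Rat.mul_den_eq_num p.1]
    ring
  · simp only [toQ, Prod.smul_snd, smul_eq_mul]
    push_cast
    rw [← Rat.mul_den_eq_num p.2]
    ring

lemma grid_mul {D : ℤ} {p : Q2} (h : Grid D p) (E : ℤ) : Grid (E * D) p := by
  obtain ⟨z, hz⟩ := h
  refine ⟨E • z, ?_⟩
  rw [Int.cast_mul, mul_smul, hz]
  ext <;> simp [toQ]

lemma ex_grid3 (p q r : Q2) : ∃ D : ℤ, 0 < D ∧ Grid D p ∧ Grid D q ∧ Grid D r := by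
  obtain ⟨a, ha, h1⟩ := ex_grid p
  obtain ⟨b, hb, h2⟩ := ex_grid q
  obtain ⟨c, hc, h3⟩ := ex_grid r
  refine ⟨a * b * c, by positivity, ?_, ?_, ?_⟩
  · have := grid_mul h1 (b * c)
    rwa [show b * c * a = a * b * c by ring] at this
  · have := grid_mul h2 (a * c)
    rwa [show a * c * b = a * b * c by ring] at this
  · exact grid_mul h3 (a * b)

lemma dot_grid {D : ℤ} {p : Q2} {z : V} (h : (D : ℚ) • p = toQ z) (a : V) :
    (dot z a : ℚ) = D * qd p a := by
  have h1 : (D : ℚ) * p.1 = z.1 := congrArg Prod.fst h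
  have h2 : (D : ℚ) * p.2 = z.2 := congrArg Prod.snd h
  simp only [dot, qd]
  push_cast
  rw [← h1, ← h2]
  ring

lemma cd_lt {D : ℤ} (hD : 0 < D) (a : ℤ) : D * (cd D a - 1) + 1 ≤ a := by
  have h1 := Int.mul_ediv_add_emod (-a) D
  have h2 := Int.emod_lt_of_pos (-a) hD
  unfold cd
  nlinarith

lemma cd_dvd {D : ℤ} (hD : 0 < D) {a : ℤ} (h : D ∣ a) : D * cd D a = a := by
  obtain ⟨k, rfl⟩ := h
  unfold cd
  rw [show -(D * k) = D * (-k) by ring, Int.mul_ediv_cancel_left _ hD.ne']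
  ring

lemma cd_succ {D : ℤ} (hD : 0 < D) (a : ℤ) :
    cd D (a + 1) = cd D a + if D ∣ a then 1 else 0 := by
  have h1 := Int.mul_ediv_add_emod (-a) D
  have h2 := Int.emod_lt_of_pos (-a) hD
  have h3 := Int.emod_nonneg (-a) hD.ne'
  unfold cd
  split_ifs with h
  · have h4 : (-a) % D = 0 := Int.emod_eq_zero_of_dvd (dvd_neg.2 h)
    have := (Int.ediv_emod_unique (a := -(a + 1)) (b := D) (r := D - 1) (q := -a / D - 1) hD).2
      ⟨by linarith, by omega, by omega⟩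
    rw [this.1]
    ring
  · have h4 : (-a) % D ≠ 0 := fun e => h (dvd_neg.1 (Int.dvd_of_emod_eq_zero e))
    have := (Int.ediv_emod_unique (a := -(a + 1)) (b := D) (r := -a % D - 1) (q := -a / D) hD).2
      ⟨by linarith, by omega, by omega⟩
    rw [this.1]
    ring

lemma e_opp (i : Fin 4) : e i + e (opp i) = 0 := by
  fin_cases i <;> rfl

lemma n1_disp (l : List (Fin 4)) : n1 (disp l) ≤ l.length := by
  induction l with
  | nil => simp [disp, n1]
  | cons i l ih =>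
    have h1 : disp (i :: l) = e i + disp l := by simp [disp]
    have h2 : n1 (e i) = 1 := by fin_cases i <;> rfl
    rw [h1, List.length_cons]
    simp only [n1, Prod.fst_add, Prod.snd_add] at *
    push_cast
    linarith [abs_add_le (e i).1 (disp l).1, abs_add_le (e i).2 (disp l).2]

lemma wf_lex {α : Type} [Preorder α] {S : Set V} {a : V → ℤ} {σ : V → α} {C : ℤ}
    (ha : ∀ x ∈ S, C ≤ a x) (h : WFon S σ) : WFon S (fun x => toLex (a x, σ x)) := by
  intro F hF hne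
  obtain ⟨m, ⟨x0, hx0, e0⟩, hm⟩ := Int.exists_least_of_bdd (P := fun v => ∃ x ∈ F, a x = v)
    ⟨C, by rintro _ ⟨x, hx, rfl⟩; exact ha x (hF hx)⟩ ⟨_, hne.some, hne.some_mem, rfl⟩
  obtain ⟨x, ⟨hx, ex⟩, hmin⟩ := h {x | x ∈ F ∧ a x = m} (fun x hx => hF hx.1) ⟨x0, hx0, e0⟩
  refine ⟨x, hx, fun y hy => ?_⟩
  rw [Prod.Lex.toLex_le_toLex]
  rcases (hm _ ⟨y, hy, rfl⟩).lt_or_eq with h1 | h1
  · exact Or.inl (by simpa [ex] using h1)
  · exact Or.inr ⟨by simp [ex, h1], hmin y ⟨hy, h1.symm⟩⟩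

lemma wf_mono {α : Type} [LE α] {S S' : Set V} {σ : V → α} (h : WFon S σ) (hs : S' ⊆ S) :
    WFon S' σ := fun F hF => h F (hF.trans hs)

/-- a vector orthogonal to `n` pairs with `x` through `det n x` -/
lemma dot_det {u n : V} (h : dot u n = 0) (x : V) :
    dot n n * dot u x = det n u * det n x := by
  simp only [dot, det] at *
  linear_combination (n.1 * x.1 + n.2 * x.2) * h

lemma dot_self_pos {n : V} (hn : n ≠ 0) : 0 < dot n n := by
  have : n.1 ≠ 0 ∨ n.2 ≠ 0 := by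
    by_contra h
    push Not at h
    exact hn (Prod.ext h.1 h.2)
  simp only [dot]
  rcases this with h | h
  · nlinarith [mul_self_pos.2 h, mul_self_nonneg n.2]
  · nlinarith [mul_self_pos.2 h, mul_self_nonneg n.1]

lemma dot_le {u n : V} (hn : n ≠ 0) (h : dot u n = 0) {x : V} {C : ℤ} (hx : |det n x| ≤ C) :
    |dot u x| ≤ |det n u| * C := by
  have h1 := congrArg abs (dot_det h x)
  have h2 := dot_self_pos hn
  rw [abs_mul, abs_mul, abs_of_pos h2] at h1
  nlinarith [abs_nonneg (dot u x), abs_nonneg (det n u), mul_le_mul_of_nonneg_left hx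
    (abs_nonneg (det n u))]

lemma det_le {u n : V} (hn : n ≠ 0) (hu : u ≠ 0) (h : dot u n = 0) {x : V} {C : ℤ}
    (hx : |dot u x| ≤ C) : |det n x| ≤ dot n n * C := by
  have h1 := congrArg abs (dot_det h x)
  have h2 := dot_self_pos hn
  rw [abs_mul, abs_mul, abs_of_pos h2] at h1
  have h3 : det n u ≠ 0 := fun e => by
    have h4 := dot_det h u
    rw [e, zero_mul] at h4
    exact (mul_pos h2 (dot_self_pos hu)).ne' h4
  have h4 : 1 ≤ |det n u| := Int.one_le_abs h3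
  nlinarith [abs_nonneg (det n x), mul_le_mul_of_nonneg_left hx h2.le]

lemma fin_box {n : V} (hn : n ≠ 0) (C : ℤ) : {x : V | |det n x| ≤ C ∧ |dot n x| ≤ C}.Finite := by
  have h2 := dot_self_pos hn
  refine ((Set.finite_Icc (-((|n.1| + |n.2|) * C)) ((|n.1| + |n.2|) * C)).prod
    (Set.finite_Icc (-((|n.1| + |n.2|) * C)) ((|n.1| + |n.2|) * C))).subset ?_
  rintro x ⟨h3, h4⟩
  have e1 : dot n n * x.1 = n.1 * dot n x - n.2 * det n x := by simp only [dot, det]; ring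
  have e2 : dot n n * x.2 = n.2 * dot n x + n.1 * det n x := by simp only [dot, det]; ring
  have p1 := mul_le_mul_of_nonneg_left h3 (abs_nonneg n.1)
  have p2 := mul_le_mul_of_nonneg_left h3 (abs_nonneg n.2)
  have p3 := mul_le_mul_of_nonneg_left h4 (abs_nonneg n.1)
  have p4 := mul_le_mul_of_nonneg_left h4 (abs_nonneg n.2)
  have b1 : dot n n * |x.1| ≤ (|n.1| + |n.2|) * C := by
    rw [← abs_of_pos h2, ← abs_mul, e1]
    refine (abs_sub _ _).trans ?_
    rw [abs_mul, abs_mul]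
    linarith
  have b2 : dot n n * |x.2| ≤ (|n.1| + |n.2|) * C := by
    rw [← abs_of_pos h2, ← abs_mul, e2]
    refine (abs_add_le _ _).trans ?_
    rw [abs_mul, abs_mul]
    linarith
  exact ⟨abs_le.1 (by nlinarith [abs_nonneg x.1]), abs_le.1 (by nlinarith [abs_nonneg x.2])⟩

end Pool.Agent.Sand.Tent
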