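import Pool.Agent.Lib.MP_215a10_lc.Dec.Tent1
import Pool.Agent.Lib.MP_215a10_lc.Dec.Once

/-! Lexicographic potentials for the construction of tents. -/

set_option autoImplicit false

namespace Pool.Agent.Sand.Tent

open Classical

def kk (D : ℤ) (B : V → ℤ) (x : V) (i : Fin 4) : ℤ := cd D (B (x + e i) - B x)

noncomputable def kap (D D1 : ℤ) (B : V → ℤ) (T : V → Fin 4 → Prop) (x : V) (i : Fin 4) : G3 :=
  if T x i then mk3 (D1 * kk D B x i) 0 0 else mk3 (D1 * (kk D B x i - 1)) 0 1

lemma dB_per {N : ℤ} {P : Q2} {B : V → ℤ} (hB : Eqv N P B) (x z : V) (i : Fin 4) :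
    B (x + N • z + e i) - B (x + N • z) = B (x + e i) - B x := by
  have h1 := hB x z
  have h2 := hB (x + e i) z
  rw [add_right_comm] at h2
  have : ((B (x + N • z + e i) - B (x + N • z) : ℤ) : ℚ) = (B (x + e i) - B x : ℤ) := by
    push_cast
    rw [h1, h2]
    ring
  exact_mod_cast this

lemma kk_per {N D : ℤ} {P : Q2} {B : V → ℤ} (hB : Eqv N P B) (x z : V) (i : Fin 4) :
    kk D B (x + N • z) i = kk D B x i := by
  unfold kk
  rw [dB_per hB]

lemma wwt_kap {D D1 : ℤ} {B : V → ℤ} {T : V → Fin 4 → Prop} (hD : 0 < D)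
    (hT : ∀ x i, T x i → D ∣ B (x + e i) - B x) (l : List (Fin 4)) : ∀ x : V, ∃ S t : ℤ,
    wwt (kap D D1 B T) x l = mk3 (D1 * S) 0 t ∧ 0 ≤ t ∧ D * S + t ≤ B (x + disp l) - B x := by
  induction l with
  | nil => exact fun x => ⟨0, 0, by simp [wwt, mk3_zero], le_rfl, by simp [disp]⟩
  | cons i l ih =>
    intro x
    obtain ⟨S, t, h1, h2, h3⟩ := ih (x + e i)
    have h4 : x + disp (i :: l) = x + e i + disp l := by simp [disp, add_assoc]
    rw [h4]
    by_cases h : T x i
    · refine ⟨kk D B x i + S, t, ?_, h2, ?_⟩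
      · rw [wwt, h1, kap, if_pos h, mk3_add]
        congr 1 <;> ring
      · have := cd_dvd hD (hT x i h)
        unfold kk
        linarith
    · refine ⟨kk D B x i - 1 + S, 1 + t, ?_, by omega, ?_⟩
      · rw [wwt, h1, kap, if_neg h, mk3_add]
        congr 1
        ring
      · have := cd_lt hD (B (x + e i) - B x)
        unfold kk
        linarith

def sig (u v : V) : V →+ G3 where
  toFun a := mk3 (-dot u a) (-dot v a) 0
  map_zero' := by simp [dot, mk3_zero]
  map_add' a b := by
    rw [mk3_add, dot_add, dot_add]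
    congr 1 <;> ring

lemma qd_smul (p : Q2) (N : ℤ) (z : V) : qd p (N • z) = N * qd p z := by
  simp only [qd, Prod.smul_fst, Prod.smul_snd, smul_eq_mul]
  push_cast
  ring

lemma qd_smul' (a : ℚ) (p : Q2) (z : V) : qd (a • p) z = a * qd p z := by
  simp only [qd, Prod.smul_fst, Prod.smul_snd, smul_eq_mul]
  ring

lemma dot_sub (u v a : V) : dot (u - v) a = dot u a - dot v a := by
  simp only [dot, Prod.fst_sub, Prod.snd_sub]; ring

lemma ex_w (hp : pot_stmt) {N D D1 : ℤ} {B : V → ℤ} {m q : Q2} {T : V → Fin 4 → Prop}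
    (hN : 0 < N) (hD : 0 < D) (hD1 : 0 < D1) (hB : Eqv N ((D : ℚ) • m) B)
    (hTp : ∀ x z i, T (x + N • z) i ↔ T x i) (hT : ∀ x i, T x i → D ∣ B (x + e i) - B x)
    (hcl : Cl N m q) {zq zm : V} (hq : (D1 : ℚ) • q = toQ zq) (hm : (D1 : ℚ) • m = toQ zm) :
    ∃ w : V → G3, (∀ x z, w (x + N • z) = w x + sig zq (zm - zq) (N • z)) ∧
      ∀ x i, kap D D1 B T x i ≤ w (x + e i) - w x := by
  obtain ⟨w, h1, h2⟩ := hp G3 N (fun _ _ => True) (kap D D1 B T) (sig zq (zm - zq)) hN
    (fun _ _ _ => Iff.rfl)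
    (fun x z i => by simp only [kap, hTp, kk_per hB]) (fun x l z _ hl hz => by
      obtain ⟨S, t, e1, t0, e2⟩ := wwt_kap (D1 := D1) hD hT l x
      have a1 : n1 (disp l) ≤ N ^ 2 := (n1_disp l).trans hl
      have a2 : ((B (x + disp l) - B x : ℤ) : ℚ) = -(D * qd m (disp l)) := by
        push_cast
        rw [hz, hB x z, qd_smul, qd_smul']
        ring
      have a3 : (D : ℚ) * S + t ≤ -(D * qd m (disp l)) := by
        rw [← a2]
        exact_mod_cast e2
      have dp : (0 : ℚ) < D := by exact_mod_cast hD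
      have dp1 : (0 : ℚ) < D1 := by exact_mod_cast hD1
      have tp : (0 : ℚ) ≤ t := by exact_mod_cast t0
      have a4 : qd m (disp l) ≤ ((-S : ℤ) : ℚ) := by
        push_cast
        by_contra hc
        push Not at hc
        nlinarith
      have a5 := hcl _ a1 _ a4
      have b1 := dot_grid hq (disp l)
      have b2 := dot_grid hm (disp l)
      have c1 : D1 * S ≤ -dot zq (disp l) := by
        have : ((D1 * S : ℤ) : ℚ) ≤ ((-dot zq (disp l) : ℤ) : ℚ) := by
          push_cast at a5 ⊢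
          rw [b1]
          nlinarith
        exact_mod_cast this
      have c2 : D * dot zm (disp l) + D1 * t ≤ -(D * (D1 * S)) := by
        have : ((D * dot zm (disp l) + D1 * t : ℤ) : ℚ) ≤ ((-(D * (D1 * S)) : ℤ) : ℚ) := by
          push_cast
          rw [b2]
          nlinarith
        exact_mod_cast this
      rw [e1, le_iff]
      simp only [sig, AddMonoidHom.coe_mk, ZeroHom.coe_mk, g1_mk, g2_mk, g3_mk, dot_sub]
      rcases c1.lt_or_eq with c3 | c3
      · exact Or.inl c3
      refine Or.inr ⟨c3, ?_⟩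
      rw [c3] at c2
      have c4 : dot zm (disp l) ≤ dot zq (disp l) := by
        by_contra hc
        push Not at hc
        nlinarith [mul_nonneg hD1.le t0]
      rcases c4.lt_or_eq with c5 | c5
      · exact Or.inl (by omega)
      · refine Or.inr ⟨by omega, ?_⟩
        rw [c5] at c2
        by_contra hc
        push Not at hc
        nlinarith [mul_pos hD1 hc])
  exact ⟨w, h1, fun x i => h2 x i trivial⟩

/-- potentials have exact differences along tight edges -/
lemma tight_eq {D D1 : ℤ} {B : V → ℤ} {T : V → Fin 4 → Prop} (hD : 0 < D)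
    (hT : ∀ x i, T x i → D ∣ B (x + e i) - B x) (hs : ∀ x i, T x i → T (x + e i) (opp i))
    {w : V → G3} (hw : ∀ x i, kap D D1 B T x i ≤ w (x + e i) - w x) {x : V} {i : Fin 4}
    (h : T x i) : w (x + e i) = w x + mk3 (D1 * kk D B x i) 0 0 := by
  have h1 := hw x i
  have h2 := hw (x + e i) (opp i)
  have h3 : x + e i + e (opp i) = x := by rw [add_assoc, e_opp, add_zero]
  have h4 := cd_dvd hD (hT x i h)
  have h5 := cd_dvd hD (hT _ _ (hs x i h))
  have h6 : kk D B (x + e i) (opp i) = -kk D B x i := by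
    unfold kk
    rw [h3] at h5 ⊢
    refine mul_left_cancel₀ hD.ne' ?_
    linarith
  rw [kap, if_pos h] at h1
  rw [kap, if_pos (hs x i h), h3, h6] at h2
  refine le_antisymm ?_ (by rwa [le_sub_iff_add_le'] at h1)
  rw [le_iff] at h2 ⊢
  simp only [g1_mk, g2_mk, g3_mk, g1_add, g2_add, g3_add, g1_sub, g2_sub, g3_sub, mul_neg] at h2 ⊢
  omega

/-- the burning inequality along one edge -/
lemma edge_ineq {D D1 : ℤ} {B : V → ℤ} {T : V → Fin 4 → Prop} (hD : 0 < D) (hD1 : 0 < D1)
    (hT : ∀ x i, T x i → D ∣ B (x + e i) - B x) (hs : ∀ x i, T x i → T (x + e i) (opp i))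
    {w : V → G3} (hw : ∀ x i, kap D D1 B T x i ≤ w (x + e i) - w x) (a b : V → ℤ) (x : V)
    (i : Fin 4) :
    kk D B x i + (if T x i ∧ mk2 (a (x + e i)) (b (x + e i)) < mk2 (a x) (b x) then 1 else 0) ≤
      g1 (w (x + e i)) / D1 - g1 (w x) / D1 +
      if mk5 (-(g1 (w (x + e i)) % D1)) (-g2 (w (x + e i))) (-g3 (w (x + e i))) (a (x + e i))
          (b (x + e i)) < mk5 (-(g1 (w x) % D1)) (-g2 (w x)) (-g3 (w x)) (a x) (b x)
        then 1 else 0 := by
  by_cases h : T x i
  · rw [tight_eq hD hT hs hw h]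
    simp only [g1_add, g2_add, g3_add, g1_mk, g2_mk, g3_mk, add_zero, h, true_and,
      Int.add_mul_ediv_left _ _ hD1.ne', Int.add_mul_emod_self_left, mk5, mk2,
      Prod.Lex.toLex_lt_toLex, lt_self_iff_false, false_or]
    omega
  · have h1 := hw x i
    rw [kap, if_neg h, le_iff] at h1
    simp only [g1_mk, g2_mk, g3_mk, g1_sub, g2_sub, g3_sub] at h1
    rw [if_neg (fun hc => h hc.1)]
    set u := g1 (w x)
    set v := g1 (w (x + e i))
    set k := kk D B x i
    have e1 := Int.mul_ediv_add_emod u D1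
    have e2 := Int.mul_ediv_add_emod v D1
    have e3 := Int.emod_nonneg u hD1.ne'
    have e4 := Int.emod_lt_of_pos v hD1
    have e5 : u / D1 + (k - 1) ≤ v / D1 := by
      have : D1 * (u / D1 + (k - 1)) < D1 * (v / D1 + 1) := by
        have : D1 * (k - 1) ≤ v - u := by omega
        nlinarith
      have := lt_of_mul_lt_mul_left this hD1.le
      omega
    rcases e5.lt_or_eq with e6 | e6
    · split_ifs <;> omega
    · rw [if_pos]
      · omega
      have e7 : v - u - D1 * (k - 1) = v % D1 - u % D1 := by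
        rw [← e6] at e2
        linear_combination e1 - e2
      simp only [mk5, Prod.Lex.toLex_lt_toLex]
      omega

end Pool.Agent.Sand.Tent
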