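import Pool.Agent.Lib.MP_215a10_lc.Dec.Stmts

/-! Unpinned slopes carry strict subsolutions; finitely many normalised phases. -/

set_option autoImplicit false

namespace Pool.Agent.Sand

namespace Unpinned

open Finset

theorem step_back (a : V) (n : ℕ) (h : n1 a ≤ (n + 1 : ℕ)) :
    n1 a ≤ n ∨ ∃ k, n1 (a - e k) ≤ n := by
  obtain ⟨a, b⟩ := a
  simp only [n1] at h ⊢
  push_cast at h
  by_cases h1 : 0 < a
  · refine Or.inr ⟨0, ?_⟩
    change |a - 1| + |b - 0| ≤ _
    rw [abs_of_pos h1] at h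
    rw [abs_of_nonneg (by omega : 0 ≤ a - 1), sub_zero]; omega
  by_cases h2 : a < 0
  · refine Or.inr ⟨1, ?_⟩
    change |a - (-1)| + |b - 0| ≤ _
    rw [abs_of_neg h2] at h
    rw [abs_of_nonpos (by omega : a - (-1) ≤ 0), sub_zero]; omega
  by_cases h3 : 0 < b
  · refine Or.inr ⟨2, ?_⟩
    change |a - 0| + |b - 1| ≤ _
    rw [abs_of_pos h3] at h
    rw [abs_of_nonneg (by omega : 0 ≤ b - 1), sub_zero]; omega
  by_cases h4 : b < 0
  · refine Or.inr ⟨3, ?_⟩
    change |a - 0| + |b - (-1)| ≤ _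
    rw [abs_of_neg h4] at h
    rw [abs_of_nonpos (by omega : b - (-1) ≤ 0), sub_zero]; omega
  · left
    have e1 : a = 0 := by omega
    have e2 : b = 0 := by omega
    subst e1 e2
    simp

theorem n1_zero {a : V} (h : n1 a ≤ 0) : a = 0 := by
  obtain ⟨a, b⟩ := a
  simp only [n1] at h
  have h1 := abs_nonneg a
  have h2 := abs_nonneg b
  have e1 : a = 0 := abs_eq_zero.1 (by omega)
  have e2 : b = 0 := abs_eq_zero.1 (by omega)
  rw [e1, e2]; rfl

theorem harnack {f : V → ℚ} {A : ℚ} (hA : 0 ≤ A) (h0 : ∀ x, 0 ≤ f x)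
    (h : ∀ x k, f (x + e k) ≤ 4 * f x + A) (x : V) (n : ℕ) :
    ∀ a, n1 a ≤ n → f (x + a) + A ≤ 4 ^ n * (f x + A) := by
  induction n with
  | zero =>
    intro a ha
    rw [n1_zero (a := a) (by simpa using ha), add_zero, pow_zero, one_mul]
  | succ n ih =>
    intro a ha
    have h4 : 0 ≤ (4 : ℚ) ^ n * (f x + A) := mul_nonneg (by positivity) (add_nonneg (h0 x) hA)
    rw [pow_succ, mul_right_comm]
    rcases step_back a n ha with h1 | ⟨k, h1⟩
    · have := ih a h1
      linarith
    · have h2 := ih _ h1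
      have h3 := h (x + (a - e k)) k
      rw [add_assoc, sub_add_cancel] at h3
      linarith

theorem spread {P : V → Prop} (h : ∀ x k, P x → P (x + e k)) {x : V} (hx : P x) (y : V) : P y := by
  have key : ∀ n : ℕ, ∀ a, n1 a ≤ n → P (x + a) := by
    intro n
    induction n with
    | zero =>
      intro a ha
      rwa [n1_zero (a := a) (by simpa using ha), add_zero]
    | succ n ih =>
      intro a ha
      rcases step_back a n ha with h1 | ⟨k, h1⟩
      · exact ih a h1
      · have h3 := h _ k (ih _ h1)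
        rwa [add_assoc, sub_add_cancel] at h3
  have := key (n1 (y - x)).toNat (y - x) (Int.self_le_toNat _)
  rwa [add_sub_cancel] at this

/-- the fundamental domain -/
noncomputable def dom (N : ℤ) : Finset V := Ico 0 N ×ˢ Ico 0 N

theorem reduce {N : ℤ} (hN : 0 < N) (x : V) : ∃ r ∈ dom N, ∃ z : V, x = r + N • z := by
  refine ⟨(x.1 % N, x.2 % N), ?_, (x.1 / N, x.2 / N), ?_⟩
  · simp only [dom, mem_product, mem_Ico]
    exact ⟨⟨Int.emod_nonneg _ hN.ne', Int.emod_lt_of_pos _ hN⟩,
      Int.emod_nonneg _ hN.ne', Int.emod_lt_of_pos _ hN⟩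
  · ext
    · exact (Int.emod_add_mul_ediv _ _).symm
    · exact (Int.emod_add_mul_ediv _ _).symm

theorem dom_n1 {N : ℤ} {x y : V} (hx : x ∈ dom N) (hy : y ∈ dom N) :
    n1 (y - x) ≤ (2 * N).toNat := by
  simp only [dom, mem_product, mem_Ico] at hx hy
  have h1 : |y.1 - x.1| ≤ N := abs_le.2 ⟨by omega, by omega⟩
  have h2 : |y.2 - x.2| ≤ N := abs_le.2 ⟨by omega, by omega⟩
  have h3 := Int.self_le_toNat (2 * N)
  change |y.1 - x.1| + |y.2 - x.2| ≤ _
  omega

theorem le_cd {D : ℤ} (hD : 0 < D) (a : ℤ) : a ≤ D * cd D a := by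
  have := Int.mul_ediv_self_le (x := -a) hD.ne'
  unfold cd
  linarith

theorem cd_lt {D : ℤ} (hD : 0 < D) (a : ℤ) : D * (cd D a - 1) < a := by
  have := Int.lt_mul_ediv_self_add (x := -a) hD
  unfold cd
  linarith

theorem cd_le {D a q : ℤ} (hD : 0 < D) (h : a ≤ D * q) : cd D a ≤ q := by
  have h1 := cd_lt hD a
  have h2 : D * (cd D a - 1) < D * q := lt_of_lt_of_le h1 h
  have := lt_of_mul_lt_mul_left h2 hD.le
  omega

theorem cd_mono {D a b : ℤ} (hD : 0 < D) (h : a ≤ b) : cd D a ≤ cd D b :=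
  cd_le hD (h.trans (le_cd hD b))

theorem cd_scale {D j u w : ℤ} (hD : 0 < D) (hj : 0 < j) (h : j * u - j + 1 ≤ w) :
    cd D u ≤ cd (j * D) w := by
  refine cd_le hD ?_
  have h1 := le_cd (mul_pos hj hD) w
  have h2 : j * (u - 1) < j * (D * cd (j * D) w) := by linarith
  have := lt_of_mul_lt_mul_left h2 hj.le
  omega

theorem ediv_sub_le {D : ℤ} (hD : 0 < D) (a b : ℤ) : a / D - b / D ≤ cd D (a - b) := by
  have h1 := le_cd hD (a - b)
  have h2 := Int.mul_ediv_self_le (x := a) hD.ne'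
  have h3 := Int.lt_mul_ediv_self_add (x := b) hD
  have h4 : D * (a / D - b / D) < D * (cd D (a - b) + 1) := by linarith
  have := lt_of_mul_lt_mul_left h4 hD.le
  omega

theorem qd_add (p : Q2) (x y : V) : qd p (x + y) = qd p x + qd p y := by
  simp only [qd, Prod.fst_add, Prod.snd_add]; push_cast; ring

theorem qd_smul (p : Q2) (n : ℤ) (x : V) : qd p (n • x) = n * qd p x := by
  simp only [qd, Prod.smul_fst, Prod.smul_snd, smul_eq_mul]; push_cast; ring

theorem smul_qd (t : ℚ) (p : Q2) (x : V) : qd (t • p) x = t * qd p x := by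
  simp only [qd, Prod.smul_fst, Prod.smul_snd, smul_eq_mul]; ring

theorem qd_e (p : Q2) : ∑ i : Fin 4, qd p (e i) = 0 := by
  simp [Fin.sum_univ_four, qd, e]

/-- parallel toppling -/
def it (c : V → ℤ) (D : ℤ) (B : V → ℤ) : ℕ → V → ℤ
  | 0 => B
  | i + 1 => fun x => it c D B i x + if 4 ≤ c x + lapD D (it c D B i) x then 1 else 0

section
variable {c : V → ℤ} {D N : ℤ} {B : V → ℤ} {P : Q2}

theorem it_succ (i : ℕ) (x : V) : it c D B (i + 1) x =
    it c D B i x + if 4 ≤ c x + lapD D (it c D B i) x then 1 else 0 := rfl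

theorem it_mono (x : V) : Monotone fun i => it c D B i x :=
  monotone_nat_of_le_succ fun i => by
    rw [it_succ]; split_ifs <;> omega

theorem it_per (hc : ∀ x z : V, c (x + N • z) = c x) (hB : Eqv N P B) (i : ℕ) :
    Eqv N P (it c D B i) := by
  induction i with
  | zero => exact hB
  | succ i ih =>
    intro x z
    have key : lapD D (it c D B i) (x + N • z) = lapD D (it c D B i) x := by
      refine sum_congr rfl fun k _ => ?_
      have h1 := ih x z
      have h2 := ih (x + e k) z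
      rw [add_right_comm] at h2
      have : ((it c D B i (x + N • z + e k) - it c D B i (x + N • z) : ℤ) : ℚ) =
          (it c D B i (x + e k) - it c D B i x : ℤ) := by
        push_cast; linarith
      rw [Int.cast_injective this]
    rw [it_succ, it_succ, key, hc]
    have := ih x z
    push_cast
    linarith

theorem exists_flat {s : ℕ → ℤ} (hs : Monotone s) {M : ℤ} (hM : ∀ i, s i ≤ M) (i : ℕ) :
    ∃ i', i ≤ i' ∧ s (i' + 1) = s i' := by
  by_contra hn
  have key : ∀ n : ℕ, s i + n ≤ s (i + n) := by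
    intro n
    induction n with
    | zero => simp
    | succ n ih =>
      have h1 : s (i + n + 1) ≠ s (i + n) := fun h => hn ⟨i + n, by omega, h⟩
      have h2 := hs (Nat.le_succ (i + n))
      rw [← add_assoc]
      push_cast
      simp only [Nat.succ_eq_add_one] at h2
      omega
  have h1 := key ((M - s i).toNat + 1)
  have h2 := hM (i + ((M - s i).toNat + 1))
  have h3 := Int.self_le_toNat (M - s i)
  push_cast at h1
  omega

theorem bd_step (hc : ∀ x, 0 ≤ c x) (hD : 0 < D) (x : V) (k : Fin 4)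
    (h : ∃ M, ∀ i, it c D B i x ≤ M) : ∃ M, ∀ i, it c D B i (x + e k) ≤ M := by
  obtain ⟨M, hM⟩ := h
  refine ⟨M + D * (3 - ∑ l ∈ univ.erase k, cd D (B (x + e l) - M)), fun i => ?_⟩
  obtain ⟨j, hij, hj⟩ := exists_flat (it_mono x) hM i
  refine (it_mono (x + e k) hij).trans ?_
  have h1 : c x + lapD D (it c D B j) x ≤ 3 := by
    rw [it_succ] at hj
    by_contra hn
    rw [if_pos (by omega)] at hj
    omega
  have h2 : ∑ l ∈ univ.erase k, cd D (B (x + e l) - M) ≤
      ∑ l ∈ univ.erase k, cd D (it c D B j (x + e l) - it c D B j x) :=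
    sum_le_sum fun l _ => cd_mono hD (by
      have h3 : it c D B 0 (x + e l) ≤ it c D B j (x + e l) := it_mono (x + e l) (Nat.zero_le j)
      have h4 := hM j
      change B (x + e l) ≤ _ at h3
      omega)
  have h3 := add_sum_erase univ (fun l => cd D (it c D B j (x + e l) - it c D B j x)) (mem_univ k)
  have h4 := le_cd hD (it c D B j (x + e k) - it c D B j x)
  have h5 := hc x
  have h6 := hM j
  unfold lapD at h1
  have h7 : cd D (it c D B j (x + e k) - it c D B j x) ≤
      3 - ∑ l ∈ univ.erase k, cd D (B (x + e l) - M) := by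
    omega
  have h8 := mul_le_mul_of_nonneg_left h7 hD.le
  simp only
  omega

theorem per_bdd (hN : 0 < N) (hB : Eqv N P B) : ∃ C : ℚ, ∀ x, |(B x : ℚ) + qd P x| ≤ C := by
  refine ⟨∑ r ∈ dom N, |(B r : ℚ) + qd P r|, fun x => ?_⟩
  obtain ⟨r, hr, z, rfl⟩ := reduce hN x
  have : (B (r + N • z) : ℚ) + qd P (r + N • z) = B r + qd P r := by
    rw [hB, qd_add, qd_smul]; ring
  rw [this]
  exact single_le_sum (f := fun r => |(B r : ℚ) + qd P r|) (fun _ _ => abs_nonneg _) hr

theorem pinned_of_std {m : Q2} (hN : 0 < N) (hD : 0 < D) (hB : Eqv N ((D : ℚ) • m) B)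
    (hs : ∀ x, StD c D B x) : Pinned c m := by
  refine ⟨fun x => B x / D, fun x => le_trans ?_ (hs x), ?_⟩
  · exact add_le_add le_rfl (sum_le_sum fun k _ => ediv_sub_le hD _ _)
  · obtain ⟨C, hC⟩ := per_bdd hN hB
    refine ⟨C + 1, fun x => ?_⟩
    have h1 := abs_le.1 (hC x)
    rw [smul_qd] at h1
    have h2 : ((D * (B x / D) : ℤ) : ℚ) ≤ B x :=
      Int.cast_le.2 (Int.mul_ediv_self_le (x := B x) hD.ne')
    have h3 : (B x : ℚ) < (D * (B x / D) + D : ℤ) :=
      Int.cast_lt.2 (Int.lt_mul_ediv_self_add (x := B x) hD)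
    have h4 : (1 : ℚ) ≤ D := by exact_mod_cast hD
    have h5 : 0 ≤ C := (abs_nonneg _).trans (hC x)
    have h6 : C ≤ D * C := le_mul_of_one_le_left h5 h4
    rw [Int.cast_add, Int.cast_mul] at h3
    rw [Int.cast_mul] at h2
    simp only
    generalize ((B x / D : ℤ) : ℚ) = g at h2 h3
    refine abs_le.2 ⟨?_, ?_⟩
    · refine le_of_mul_le_mul_left ?_ (show (0 : ℚ) < D by linarith)
      linarith [h1.1]
    · refine le_of_mul_le_mul_left ?_ (show (0 : ℚ) < D by linarith)
      linarith [h1.2]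

theorem std_of_bdd (hc : IsBG c N) (hB : Eqv N P B) (h : ∀ x, ∃ M, ∀ i, it c D B i x ≤ M) :
    ∃ i, ∀ x, StD c D (it c D B i) x := by
  choose M hM using h
  obtain ⟨i, -, hi⟩ := exists_flat (s := fun i => ∑ r ∈ dom N, it c D B i r)
    (fun a b hab => sum_le_sum fun r _ => it_mono r hab) (M := ∑ r ∈ dom N, M r)
    (fun i => sum_le_sum fun r _ => hM r i) 0
  have h1 := (sum_eq_sum_iff_of_le (s := dom N) (f := fun r => it c D B i r)
    (g := fun r => it c D B (i + 1) r) fun r _ => it_mono r (Nat.le_succ i)).1 hi.symm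
  refine ⟨i, fun x => ?_⟩
  obtain ⟨r, hr, z, rfl⟩ := reduce hc.pos x
  have h2 := it_per (D := D) hc.per hB i r z
  have h3 := it_per (D := D) hc.per hB (i + 1) r z
  have h4 : it c D B i r = it c D B (i + 1) r := h1 r hr
  rw [← h4, ← h2, Int.cast_inj, it_succ] at h3
  unfold StD
  by_contra hn
  rw [if_pos (by omega)] at h3
  omega

theorem uniform (hc : IsBG c N) (hB : Eqv N P B) (h : ∀ x, ¬ ∃ M, ∀ i, it c D B i x ≤ M) :
    ∃ j : ℕ, ∀ x, B x + 1 ≤ it c D B (j + 1) x := by
  have h1 : ∀ x, ∃ i, B x + 1 ≤ it c D B i x := fun x => by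
    by_contra hn
    exact h x ⟨B x, fun i => by
      by_contra h2
      exact hn ⟨i, by omega⟩⟩
  choose f hf using h1
  refine ⟨(dom N).sup f, fun x => ?_⟩
  obtain ⟨r, hr, z, rfl⟩ := reduce hc.pos x
  have h2 := hB r z
  have h3 := it_per (D := D) hc.per hB ((dom N).sup f + 1) r z
  have h4 : B r + 1 ≤ it c D B ((dom N).sup f + 1) r :=
    (hf r).trans (it_mono r ((le_sup (f := f) hr).trans (Nat.le_succ _)))
  have h5 : ((B r + 1 : ℤ) : ℚ) ≤ (it c D B ((dom N).sup f + 1) r : ℤ) := Int.cast_le.2 h4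
  rw [← Int.cast_le (R := ℚ)]
  push_cast at h5 ⊢
  linarith

theorem final {m : Q2} (hc : IsBG c N) (hD : 0 < D) (hB : Eqv N ((D : ℚ) • m) B) {j : ℕ}
    (hj : ∀ x, B x + 1 ≤ it c D B (j + 1) x) :
    ∃ B' : V → ℤ, Eqv N (((((j : ℤ) + 1) * D : ℤ) : ℚ) • m) B' ∧
      ∀ x, 4 ≤ c x + lapD (((j : ℤ) + 1) * D) B' x := by
  have hex : ∀ x, ∃ i, i ≤ j ∧ ∀ i' ≤ j,
      ((j : ℤ) + 1) * it c D B i' x - i' ≤ ((j : ℤ) + 1) * it c D B i x - i := fun x => by
    obtain ⟨i, hi, h⟩ := exists_max_image (range (j + 1))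
      (fun i => ((j : ℤ) + 1) * it c D B i x - i) ⟨0, mem_range.2 (Nat.succ_pos j)⟩
    exact ⟨i, Nat.lt_succ_iff.1 (mem_range.1 hi),
      fun i' hi' => h i' (mem_range.2 (Nat.lt_succ_iff.2 hi'))⟩
  choose f hf hmax using hex
  have hj0 : (0 : ℤ) < (j : ℤ) + 1 := by positivity
  refine ⟨fun x => ((j : ℤ) + 1) * it c D B (f x) x - f x, fun x z => ?_, fun x => ?_⟩
  · have h1 := Int.cast_le (R := ℚ).2 (hmax x _ (hf (x + N • z)))
    have h2 := Int.cast_le (R := ℚ).2 (hmax (x + N • z) _ (hf x))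
    have h3 := it_per (D := D) hc.per hB (f x) x z
    have h4 := it_per (D := D) hc.per hB (f (x + N • z)) x z
    rw [smul_qd] at h3 h4 ⊢
    push_cast at h1 h2 ⊢
    rw [h3, h4] at h2
    rw [h4]
    linarith
  · have key : ∃ i ≤ j, it c D B (i + 1) x ≠ it c D B i x ∧
        ((j : ℤ) + 1) * it c D B (f x) x - f x ≤ ((j : ℤ) + 1) * it c D B i x + j - i := by
      have h0 := hf x
      have h1 := hmax x
      generalize f x = i at h0 h1
      rcases i with _ | i
      · have h2 := h1 j le_rfl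
        have h3 : it c D B 0 x ≤ it c D B j x := it_mono x (Nat.zero_le j)
        have h4 := hj x
        change _ ≤ _ * B x - _ at h2
        change B x ≤ _ at h3
        have h5 : ((j : ℤ) + 1) * it c D B j x < ((j : ℤ) + 1) * (B x + 1) := by
          push_cast at h2
          linarith
        have h6 := lt_of_mul_lt_mul_left h5 hj0.le
        refine ⟨j, le_rfl, by omega, ?_⟩
        change _ * B x - _ ≤ _
        have h7 := mul_le_mul_of_nonneg_left h3 hj0.le
        push_cast
        linarith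
      · have h2 := h1 i (by omega)
        have h3 : it c D B (i + 1) x ≠ it c D B i x := fun h => by
          rw [h] at h2
          push_cast at h2
          linarith
        refine ⟨i, by omega, h3, ?_⟩
        have h4 : it c D B (i + 1) x ≤ it c D B i x + 1 := by
          rw [it_succ]; split_ifs <;> omega
        have h7 := mul_le_mul_of_nonneg_left h4 hj0.le
        push_cast
        linarith
    obtain ⟨i, hi, h1, h2⟩ := key
    have h3 : 4 ≤ c x + lapD D (it c D B i) x := by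
      by_contra hn
      rw [it_succ, if_neg hn, add_zero] at h1
      exact h1 rfl
    refine h3.trans (add_le_add le_rfl (sum_le_sum fun k _ => cd_scale hD hj0 ?_))
    have h4 := hmax (x + e k) i hi
    simp only
    linarith

end

end Unpinned

open Unpinned Finset

theorem unpinned_proof : unpinned_stmt := by
  intro c N m hc hm
  have hD : (0 : ℤ) < (m.1.den : ℤ) * m.2.den :=
    mul_pos (by exact_mod_cast m.1.den_pos) (by exact_mod_cast m.2.den_pos)
  have hB : Eqv N ((((m.1.den : ℤ) * m.2.den : ℤ) : ℚ) • m)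
      (fun x => -(m.1.num * m.2.den * x.1 + m.2.num * m.1.den * x.2)) := by
    intro x z
    have h1 := Rat.mul_den_eq_num m.1
    have h2 := Rat.mul_den_eq_num m.2
    simp only [qd, Prod.smul_fst, Prod.smul_snd, smul_eq_mul, Prod.fst_add, Prod.snd_add]
    push_cast
    rw [← h1, ← h2]
    ring
  generalize (m.1.den : ℤ) * m.2.den = D at hD hB
  generalize (fun x : V => -(m.1.num * m.2.den * x.1 + m.2.num * m.1.den * x.2)) = B at hB
  by_cases h : ∃ x, ∃ M, ∀ i, it c D B i x ≤ M
  · obtain ⟨x, hx⟩ := h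
    obtain ⟨i, hi⟩ := std_of_bdd hc hB (spread (P := fun x => ∃ M, ∀ i, it c D B i x ≤ M)
      (fun x k => bd_step hc.nonneg hD x k) hx)
    exact absurd (pinned_of_std hc.pos hD (it_per hc.per hB i) hi) hm
  · obtain ⟨j, hj⟩ := uniform (D := D) hc hB fun x hx => h ⟨x, hx⟩
    obtain ⟨B', h1, h2⟩ := final hc hD hB hj
    exact ⟨_, B', mul_pos (by positivity) hD, h1, h2⟩

theorem finphase_proof : finphase_stmt := by
  intro c D N P hc hD hN
  set K : ℚ := 4 ^ (2 * N).toNat * (3 * D) with hK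
  have hD' : (0 : ℚ) ≤ 3 * D := by positivity
  have h0 : (0 : V) ∈ dom N := by
    simp only [dom, mem_product, mem_Ico]
    exact ⟨⟨le_rfl, hN⟩, le_rfl, hN⟩
  have bound : ∀ B : V → ℤ, (∀ x, StD c D B x) → Eqv N P B → B 0 = 0 →
      ∀ r ∈ dom N, |(B r : ℚ) + qd P r| ≤ K := by
    intro B hs hB hB0
    obtain ⟨x0, hx0, hmin⟩ := exists_min_image (dom N) (fun r => (B r : ℚ) + qd P r) ⟨0, h0⟩
    have hnn : ∀ x, 0 ≤ (B x : ℚ) + qd P x - (B x0 + qd P x0) := fun x => by
      obtain ⟨r, hr, z, rfl⟩ := reduce hN x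
      have := hmin r hr
      rw [hB, qd_add, qd_smul]
      linarith
    have hstep : ∀ x k, (B (x + e k) : ℚ) + qd P (x + e k) - (B x0 + qd P x0) ≤
        4 * ((B x : ℚ) + qd P x - (B x0 + qd P x0)) + 3 * D := fun x k => by
      refine (single_le_sum (f := fun k => (B (x + e k) : ℚ) + qd P (x + e k) - (B x0 + qd P x0))
        (fun l _ => hnn _) (mem_univ k)).trans ?_
      have h1 : ∑ l : Fin 4, (B (x + e l) - B x) ≤ D * lapD D B x := by
        unfold lapD
        rw [mul_sum]
        exact sum_le_sum fun l _ => le_cd hD _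
      have h2 : lapD D B x ≤ 3 := by
        have h3 := hs x
        have h4 := hc x
        unfold StD at h3
        omega
      have h3 := Int.cast_le (R := ℚ).2 (h1.trans (mul_le_mul_of_nonneg_left h2 hD.le))
      have h4 := qd_e P
      simp only [Fin.sum_univ_four, qd_add] at h3 h4 ⊢
      push_cast at h3
      linarith
    have key : ∀ r ∈ dom N, (B r : ℚ) + qd P r - (B x0 + qd P x0) ≤ K := fun r hr => by
      have := harnack (f := fun x => (B x : ℚ) + qd P x - (B x0 + qd P x0)) hD' hnn hstep x0 _ _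
        (dom_n1 hx0 hr)
      simp only [add_sub_cancel, sub_self, zero_add] at this
      linarith
    intro r hr
    have h1 := key r hr
    have h2 := key 0 h0
    have h3 := hnn r
    have h4 := hnn 0
    have h5 : qd P 0 = 0 := by simp [qd]
    rw [hB0, h5] at h2 h4
    push_cast at h2 h4
    exact abs_le.2 ⟨by linarith, by linarith⟩
  have hfin : {g : dom N → ℤ | ∀ r : dom N, g r ∈ Set.Icc ⌈-K - qd P r⌉ ⌊K - qd P r⌋}.Finite :=
    Set.Finite.pi' fun r => Set.finite_Icc _ _
  refine Set.Finite.of_injOn (f := fun (B : V → ℤ) (r : dom N) => B r) ?_ ?_ hfin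
  · rintro B ⟨h1, h2, h3⟩ r
    have := abs_le.1 (bound B h1 h2 h3 r r.2)
    exact ⟨Int.ceil_le.2 (by linarith [this.1]), Int.le_floor.2 (by linarith [this.2])⟩
  · rintro B ⟨-, h1, -⟩ B' ⟨-, h2, -⟩ h
    funext x
    obtain ⟨r, hr, z, rfl⟩ := reduce hN x
    have h3 : B r = B' r := congrFun h ⟨r, hr⟩
    have h4 := h1 r z
    rw [h3, ← h2 r z] at h4
    exact Int.cast_injective h4

end Pool.Agent.Sand
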