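import Pool.Agent.Lib.MP_215a10_lc.Dec.Stmts

/-! Small tools for the construction of wires. -/

set_option autoImplicit false

namespace Pool.Agent.Sand.Wire

open Classical

theorem decomp (N : ℤ) (x : V) : x = (x.1 % N, x.2 % N) + N • (x.1 / N, x.2 / N) := by
  ext
  · simp only [Prod.fst_add, Prod.smul_fst, smul_eq_mul]; exact (Int.emod_add_mul_ediv _ _).symm
  · simp only [Prod.snd_add, Prod.smul_snd, smul_eq_mul]; exact (Int.emod_add_mul_ediv _ _).symm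

theorem box_fin (N : ℤ) : (Set.Ico (0 : ℤ) N ×ˢ Set.Ico (0 : ℤ) N).Finite :=
  (Set.finite_Ico 0 N).prod (Set.finite_Ico 0 N)

theorem mem_box {N : ℤ} (hN : 0 < N) (x : V) :
    ((x.1 % N, x.2 % N) : V) ∈ Set.Ico (0 : ℤ) N ×ˢ Set.Ico (0 : ℤ) N :=
  ⟨⟨Int.emod_nonneg _ hN.ne', Int.emod_lt_of_pos _ hN⟩,
    ⟨Int.emod_nonneg _ hN.ne', Int.emod_lt_of_pos _ hN⟩⟩

theorem am_eqv {N : ℤ} {p : Q2} {φ : V → ℤ} (hN : 0 < N) (h : Eqv N p φ) : AM φ := by
  have h1 : AM (fun x : V => φ (x.1 % N, x.2 % N)) := by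
    refine AM.of_graph (P := fun (x : V) (y : ℤ) => ∃ r ∈ Set.Ico (0 : ℤ) N ×ˢ Set.Ico (0 : ℤ) N,
      ((x.1 % N, x.2 % N) : V) = r ∧ φ r = y) (AP.exFin (box_fin N) fun r _ => by fun_prop) ?_
    intro x y
    exact ⟨fun ⟨r, _, h1, h2⟩ => h1 ▸ h2, fun h1 => ⟨_, mem_box hN x, rfl, h1⟩⟩
  have h2 : AM (fun x : V => φ (x.1 % N, x.2 % N) + (φ (0 + N • (1, 0)) - φ 0) * (x.1 / N) +
      (φ (0 + N • (0, 1)) - φ 0) * (x.2 / N)) :=
    (h1.add (AM.const_mul _ (AM.ediv AM.id.fst N))).add (AM.const_mul _ (AM.ediv AM.id.snd N))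
  refine h2.of_eq fun x => ?_
  have e1 := h 0 (1, 0)
  have e2 := h 0 (0, 1)
  have e3 := h (x.1 % N, x.2 % N) (x.1 / N, x.2 / N)
  rw [← decomp N x] at e3
  have : ((φ (x.1 % N, x.2 % N) + (φ (0 + N • (1, 0)) - φ 0) * (x.1 / N) +
      (φ (0 + N • (0, 1)) - φ 0) * (x.2 / N) : ℤ) : ℚ) = φ x := by
    rw [Int.cast_add, Int.cast_add, Int.cast_mul, Int.cast_mul, Int.cast_sub, Int.cast_sub,
      e1, e2, e3]
    simp only [qd, Int.cast_one, Int.cast_zero]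
    ring
  exact_mod_cast this

theorem near_eqv {N : ℤ} {p : Q2} {φ : V → ℤ} (hN : 0 < N) (h : Eqv N p φ) : Near p φ := by
  obtain ⟨C, hC⟩ := ((box_fin N).image fun r : V => |(φ r : ℚ) + qd p r|).bddAbove
  refine ⟨C, fun x => ?_⟩
  have e3 := h (x.1 % N, x.2 % N) (x.1 / N, x.2 / N)
  rw [← decomp N x] at e3
  have e4 : qd p x = qd p (x.1 % N, x.2 % N) + N * qd p (x.1 / N, x.2 / N) := by
    conv_lhs => rw [decomp N x]
    simp only [qd, Prod.fst_add, Prod.snd_add, Prod.smul_fst, Prod.smul_snd, smul_eq_mul,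
      Int.cast_add, Int.cast_mul]
    ring
  have e5 : (φ x : ℚ) + qd p x = φ (x.1 % N, x.2 % N) + qd p (x.1 % N, x.2 % N) := by
    rw [e3, e4]; ring
  rw [e5]
  exact hC ⟨_, mem_box hN x, rfl⟩

theorem lap_per {N : ℤ} {p : Q2} {φ : V → ℤ} (h : Eqv N p φ) (x z : V) :
    lap φ (x + N • z) = lap φ x := by
  unfold lap
  refine Finset.sum_congr rfl fun i _ => ?_
  have e1 := h x z
  have e2 := h (x + e i) z
  rw [add_right_comm] at e2
  have : ((φ (x + N • z + e i) - φ (x + N • z) : ℤ) : ℚ) = (φ (x + e i) - φ x : ℤ) := by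
    rw [Int.cast_sub, Int.cast_sub, e1, e2]; ring
  exact_mod_cast this

theorem dot_pos {ν : V} (h : ν ≠ 0) : 0 < dot ν ν := by
  unfold dot
  by_contra hc
  have h1 := mul_self_nonneg ν.1
  have h2 := mul_self_nonneg ν.2
  exact h (Prod.ext (mul_self_eq_zero.1 (by linarith)) (mul_self_eq_zero.1 (by linarith)))

theorem band_fin {ν : V} (h : ν ≠ 0) (C : ℤ) : {x | |det ν x| ≤ C ∧ |dot ν x| ≤ C}.Finite := by
  have hp := (dot_pos h).ne'
  have inj : Function.Injective fun x : V => (det ν x, dot ν x) := by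
    intro x y hxy
    have h1 : det ν x = det ν y := congrArg Prod.fst hxy
    have h2 : dot ν x = dot ν y := congrArg Prod.snd hxy
    unfold det at h1
    unfold dot at h2 hp
    ext
    · exact mul_left_cancel₀ hp (by linear_combination ν.1 * h2 - ν.2 * h1)
    · exact mul_left_cancel₀ hp (by linear_combination ν.2 * h2 + ν.1 * h1)
  refine (((Set.finite_Icc (-C) C).prod (Set.finite_Icc (-C) C)).preimage inj.injOn).subset ?_
  intro x hx
  exact ⟨abs_le.1 hx.1, abs_le.1 hx.2⟩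

theorem redT {N : ℤ} {ν : V} (hN : 0 < N) (h : ν ≠ 0) (x : V) :
    ∃ j : ℤ, |dot ν (x - j • (N • ν))| ≤ N * dot ν ν := by
  have hp := mul_pos hN (dot_pos h)
  refine ⟨dot ν x / (N * dot ν ν), ?_⟩
  have e1 : dot ν (x - (dot ν x / (N * dot ν ν)) • (N • ν)) = dot ν x % (N * dot ν ν) := by
    rw [Int.emod_def]
    simp only [dot, Prod.fst_sub, Prod.snd_sub, Prod.smul_fst, Prod.smul_snd, smul_eq_mul]
    ring
  rw [e1, abs_of_nonneg (Int.emod_nonneg _ hp.ne')]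
  exact (Int.emod_lt_of_pos _ hp).le

theorem det_sub_T (N j : ℤ) (ν x : V) : det ν (x - j • (N • ν)) = det ν x := by
  simp only [det, Prod.fst_sub, Prod.snd_sub, Prod.smul_fst, Prod.smul_snd, smul_eq_mul]
  ring

theorem per_zsmul {α : Type} {f : V → α} {T : V} (h : ∀ x, f (x + T) = f x) (j : ℤ) (x : V) :
    f (x + j • T) = f x := by
  induction j using Int.induction_on with
  | zero => simp
  | succ j ih => rw [add_smul, one_smul, ← add_assoc, h, ih]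
  | pred j ih =>
    rw [← h (x + (-(j : ℤ) - 1) • T), ← ih]
    congr 1
    rw [sub_smul, one_smul]; abel

theorem inv_zsmul {S : Set V} {T : V} (h : ∀ x, x + T ∈ S ↔ x ∈ S) (j : ℤ) (x : V) :
    x + j • T ∈ S ↔ x ∈ S :=
  iff_of_eq (per_zsmul (f := fun x => x ∈ S) (fun x => propext (h x)) j x)

theorem ap_band {N : ℤ} {ν : V} (hN : 0 < N) (h : ν ≠ 0) {S : Set V}
    (hS : ∀ x, x + N • ν ∈ S ↔ x ∈ S) {C : ℤ} (hC : ∀ x ∈ S, |det ν x| ≤ C) :
    AP (fun x => x ∈ S) := by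
  have hf : {x | x ∈ S ∧ |det ν x| ≤ max C (N * dot ν ν) ∧ |dot ν x| ≤ max C (N * dot ν ν)}.Finite :=
    (band_fin h _).subset fun x hx => hx.2
  refine (AP.exFin (P := fun (r : V) (x : V) => ∃ j : ℤ, x = r + j • (N • ν)) hf fun r _ =>
    AP.ex (P := fun (x : V) (j : ℤ) => x = r + j • (N • ν)) (by fun_prop)).of_iff fun x => ?_
  constructor
  · rintro ⟨r, hr, j, rfl⟩
    exact (inv_zsmul hS j r).2 hr.1
  · intro hx
    obtain ⟨j, hj⟩ := redT hN h x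
    refine ⟨x - j • (N • ν), ⟨?_, ?_, hj.trans (le_max_right _ _)⟩, j, by abel⟩
    · rw [← inv_zsmul hS j, sub_add_cancel]; exact hx
    · rw [det_sub_T]; exact (hC x hx).trans (le_max_left _ _)

theorem e_opp (x : V) (i : Fin 4) : x + e i + e (opp i) = x := by
  fin_cases i <;> simp [e, opp, Prod.ext_iff]

theorem det_e (ν : V) (i : Fin 4) : |det ν (e i)| ≤ n1 ν := by
  have h1 := abs_nonneg ν.1
  have h2 := abs_nonneg ν.2
  fin_cases i <;> simp [e, det, n1]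

theorem conn_symm {A : Set V} {x y : V} (h : Conn A x y) : Conn A y x := by
  induction h with
  | refl => exact Relation.ReflTransGen.refl
  | tail _ h ih =>
    obtain ⟨h1, h2, i, rfl⟩ := h
    exact Relation.ReflTransGen.head ⟨h2, h1, opp i, (e_opp _ i).symm⟩ ih

theorem conn_shift {A : Set V} {T : V} (hA : ∀ x, x + T ∈ A ↔ x ∈ A) {x y : V} (h : Conn A x y) :
    Conn A (x + T) (y + T) := by
  induction h with
  | refl => exact Relation.ReflTransGen.refl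
  | tail _ h ih =>
    obtain ⟨h1, h2, i, rfl⟩ := h
    exact ih.tail ⟨(hA _).2 h1, (hA _).2 h2, i, add_right_comm _ _ _⟩

/-- indicator of a proposition -/
noncomputable def i1 (p : Prop) : ℤ := if p then 1 else 0

theorem i1_nonneg (p : Prop) : 0 ≤ i1 p := by unfold i1; split_ifs <;> norm_num
theorem i1_pos {p : Prop} (h : p) : i1 p = 1 := if_pos h
theorem i1_neg {p : Prop} (h : ¬ p) : i1 p = 0 := if_neg h
theorem cnt_eq (P : Fin 4 → Prop) : cnt P = ∑ i, i1 (P i) := rfl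

theorem cnt_le {P : Fin 4 → Prop} {f : Fin 4 → ℤ} (h0 : ∀ i, 0 ≤ f i) (h1 : ∀ i, P i → 1 ≤ f i) :
    cnt P ≤ ∑ i, f i := by
  rw [cnt_eq]
  refine Finset.sum_le_sum fun i _ => ?_
  by_cases h : P i
  · rw [i1_pos h]; exact h1 i h
  · rw [i1_neg h]; exact h0 i

theorem cnt_mono {P Q : Fin 4 → Prop} (h : ∀ i, P i → Q i) : cnt P ≤ cnt Q :=
  cnt_le (fun _ => i1_nonneg _) fun i hi => (i1_pos (h i hi)).ge

theorem cnt_or {P Q R : Fin 4 → Prop} (h : ∀ i, R i → P i ∨ Q i) : cnt R ≤ cnt P + cnt Q := by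
  rw [cnt_eq P, cnt_eq Q, ← Finset.sum_add_distrib]
  refine cnt_le (fun i => add_nonneg (i1_nonneg _) (i1_nonneg _)) fun i hi => ?_
  rcases h i hi with k | k
  · rw [i1_pos k]; linarith [i1_nonneg (Q i)]
  · rw [i1_pos k]; linarith [i1_nonneg (P i)]

theorem cnt_add {P Q : Fin 4 → Prop} (h : ∀ i, P i → ¬ Q i) :
    cnt P + cnt Q ≤ cnt fun i => P i ∨ Q i := by
  rw [cnt_eq P, cnt_eq Q, ← Finset.sum_add_distrib, cnt_eq]
  refine Finset.sum_le_sum fun i _ => ?_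
  by_cases hp : P i
  · rw [i1_pos hp, i1_neg (h i hp), i1_pos (Or.inl hp)]; norm_num
  · by_cases hq : Q i
    · rw [i1_neg hp, i1_pos hq, i1_pos (Or.inr hq)]; norm_num
    · rw [i1_neg hp, i1_neg hq]; exact i1_nonneg _

/-- rank with two leading components -/
def mkr (a b : ℤ) (r : R2) : R5 := mk5 a b (ofLex r).1 (ofLex r).2 0

theorem mkr_lt1 {a a' : ℤ} (h : a < a') (b b' : ℤ) (r r' : R2) : mkr a b r < mkr a' b' r' :=
  Prod.Lex.toLex_lt_toLex.2 (Or.inl h)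

theorem mkr_lt2 (a : ℤ) {b b' : ℤ} (h : b < b') (r r' : R2) : mkr a b r < mkr a b' r' :=
  Prod.Lex.toLex_lt_toLex.2 (Or.inr ⟨rfl, Prod.Lex.toLex_lt_toLex.2 (Or.inl h)⟩)

theorem mkr_lt3 (a b : ℤ) {r r' : R2} (h : r < r') : mkr a b r < mkr a b r' := by
  refine Prod.Lex.toLex_lt_toLex.2 (Or.inr ⟨rfl, Prod.Lex.toLex_lt_toLex.2 (Or.inr ⟨rfl, ?_⟩)⟩)
  rcases Prod.Lex.lt_iff.1 h with k | ⟨k, k'⟩
  · exact Prod.Lex.toLex_lt_toLex.2 (Or.inl k)
  · exact Prod.Lex.toLex_lt_toLex.2 (Or.inr ⟨k, Prod.Lex.toLex_lt_toLex.2 (Or.inl k')⟩)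

theorem mkr_le3 (a b : ℤ) {r r' : R2} (h : r ≤ r') : mkr a b r ≤ mkr a b r' := by
  rcases h.lt_or_eq with k | k
  · exact (mkr_lt3 a b k).le
  · rw [k]

theorem wf_mono {α : Type} [LE α] {S S' : Set V} {ρ : V → α} (h : WFon S ρ) (hs : S' ⊆ S) :
    WFon S' ρ := fun F hF => h F (hF.trans hs)

theorem wf_congr {α : Type} [LE α] {S : Set V} {ρ ρ' : V → α} (h : WFon S ρ)
    (e : ∀ x ∈ S, ρ' x = ρ x) : WFon S ρ' := fun F hF hn => by
  obtain ⟨x, hx, h1⟩ := h F hF hn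
  exact ⟨x, hx, fun y hy => by rw [e x (hF hx), e y (hF hy)]; exact h1 y hy⟩

theorem wf_union {α : Type} [LinearOrder α] {S S' : Set V} {ρ : V → α} (h : WFon S ρ)
    (h' : WFon S' ρ) : WFon (S ∪ S') ρ := by
  intro F hF hn
  rcases (F ∩ S).eq_empty_or_nonempty with h1 | h1
  · exact h' F (fun x hx => (hF hx).resolve_left fun k => (h1 ▸ ⟨hx, k⟩ : x ∈ (∅ : Set V))) hn
  rcases (F ∩ S').eq_empty_or_nonempty with h2 | h2
  · exact h F (fun x hx => (hF hx).resolve_right fun k => (h2 ▸ ⟨hx, k⟩ : x ∈ (∅ : Set V))) hn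
  obtain ⟨x, hx, k1⟩ := h _ Set.inter_subset_right h1
  obtain ⟨x', hx', k2⟩ := h' _ Set.inter_subset_right h2
  rcases le_total (ρ x) (ρ x') with k | k
  · exact ⟨x, hx.1, fun y hy => (hF hy).elim (fun a => k1 y ⟨hy, a⟩) fun a => k.trans (k2 y ⟨hy, a⟩)⟩
  · exact ⟨x', hx'.1, fun y hy =>
      (hF hy).elim (fun a => k.trans (k1 y ⟨hy, a⟩)) fun a => k2 y ⟨hy, a⟩⟩

theorem wf_levels {α : Type} [LinearOrder α] {S : Set V} {ρ : V → α} {J : V → ℤ}
    (h : ∀ k, WFon {x | x ∈ S ∧ J x = k} ρ) (s : Finset ℤ) : WFon {x | x ∈ S ∧ J x ∈ s} ρ := by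
  induction s using Finset.induction_on with
  | empty => intro F hF ⟨x, hx⟩; exact absurd (hF hx).2 (Finset.notMem_empty _)
  | insert k s _ ih =>
    refine wf_mono (wf_union (h k) ih) fun x hx => ?_
    rcases Finset.mem_insert.1 hx.2 with a | a
    · exact Or.inl ⟨hx.1, a⟩
    · exact Or.inr ⟨hx.1, a⟩

end Pool.Agent.Sand.Wire
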