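import Pool.Agent.Lib.MP_215a10_lc.Dec.Wire1

/-! The level function on one side of a band. -/

set_option autoImplicit false

namespace Pool.Agent.Sand.Wire

open Classical

structure Lev (W : Set V) (d : V →+ ℤ) (T L : V) (C Λ : ℤ) (I : V → ℤ) : Prop where
  amI : AM I
  lo : ∀ x, d x - I x * Λ < C
  hi : ∀ x, -C < d x - (I x - 1) * Λ
  nb : ∀ x i, I (x + e i) ≤ I x + 1
  sep : ∀ x, 1 ≤ I x → ∃ y, Conn Wᶜ x y ∧ C ≤ d y
  inW : ∀ x ∈ W, I x = 0
  out : ∀ x i, x - I x • L ∉ W → I (x + e i) ≤ I x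
  perT : ∀ x, I (x + T) = I x
  perL : ∀ x (j : ℤ), I (x + j • L) = I x + j

theorem n1_nonneg (ν : V) : 0 ≤ n1 ν := add_nonneg (abs_nonneg _) (abs_nonneg _)

theorem exists_lev {N : ℤ} {ν L : V} {W : Set V} {d : V →+ ℤ} {C Λ : ℤ} (hN : 0 < N) (hν : ν ≠ 0)
    (hd : ∀ x, |d x| = |det ν x|) (amd : AM fun x => d x) (hT : ∀ x, x + N • ν ∈ W ↔ x ∈ W)
    (hW : ∀ x ∈ W, |d x| < C) (hs : ∀ x y, Conn Wᶜ x y → d x ≤ -C → C ≤ d y → False)
    (dL : d L = Λ) (hC : 0 < C) (hΛ : 2 * C + n1 ν ≤ Λ) : ∃ I, Lev W d (N • ν) L C Λ I := by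
  have n0 := n1_nonneg ν
  have dT : d (N • ν) = 0 := by
    have h1 := hd (N • ν)
    have h2 := det_sub_T N 1 ν (N • ν)
    rw [one_smul, sub_self] at h2
    rw [← h2] at h1
    simpa [det] using h1
  have de : ∀ i, |d (e i)| ≤ n1 ν := fun i => (hd _).le.trans (det_e ν i)
  have dj : ∀ x (j : ℤ), d (x - j • L) = d x - j * Λ := fun x j => by
    rw [map_sub, map_zsmul, dL, smul_eq_mul]
  obtain ⟨Wt, hWt⟩ : ∃ Wt : Set V, ∀ x, x ∈ Wt ↔ ¬ ∃ y, Conn Wᶜ x y ∧ C ≤ d y :=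
    ⟨{x | ¬ ∃ y, Conn Wᶜ x y ∧ C ≤ d y}, fun _ => Iff.rfl⟩
  have a1 : ∀ x ∈ Wt, d x < C := fun x hx => by
    by_contra h
    exact (hWt x).1 hx ⟨x, Relation.ReflTransGen.refl, not_lt.1 h⟩
  have a2 : ∀ x, d x ≤ -C → x ∈ Wt := fun x hx => (hWt x).2 fun ⟨y, h1, h2⟩ => hs x y h1 hx h2
  have a3 : ∀ x ∈ W, x ∈ Wt := fun x hx => (hWt x).2 fun ⟨y, h1, h2⟩ => by
    rcases h1.cases_head with rfl | ⟨z, h3, -⟩
    · have := (abs_lt.1 (hW x hx)).2; omega
    · exact h3.1 hx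
  have a4 : ∀ x ∈ Wt, x ∉ W → ∀ i, x + e i ∈ Wt := fun x hx hn i => by
    by_cases h : x + e i ∈ W
    · exact a3 _ h
    · exact (hWt _).2 fun ⟨y, h1, h2⟩ =>
        (hWt x).1 hx ⟨y, Relation.ReflTransGen.head ⟨hn, h, i, rfl⟩ h1, h2⟩
  have a5 : ∀ x, x + N • ν ∈ Wt ↔ x ∈ Wt := fun x => by
    rw [hWt, hWt]
    refine not_congr ⟨fun ⟨y, h1, h2⟩ => ⟨y + -(N • ν), ?_, ?_⟩, fun ⟨y, h1, h2⟩ =>
      ⟨y + N • ν, conn_shift (fun x => not_congr (hT x)) h1, ?_⟩⟩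
    · have := conn_shift (A := Wᶜ) (T := -(N • ν)) (fun x => not_congr (by
        rw [← hT (x + -(N • ν)), neg_add_cancel_right])) h1
      rwa [add_neg_cancel_right] at this
    · rw [map_add, map_neg, dT]; simpa using h2
    · rw [map_add, dT]; simpa using h2
  have apW : AP fun x => x ∈ Wt := by
    have h1 : AP fun x => x ∈ {x | x ∈ Wt ∧ -C < d x} := by
      refine ap_band hN hν (C := C) (fun x => ?_) fun x hx => ?_
      · simp only [Set.mem_setOf_eq, a5, map_add, dT, add_zero]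
      · rw [← hd]; exact abs_le.2 ⟨hx.2.le, (a1 x hx.1).le⟩
    refine (AP.or (AP.le amd (AM.const (-C))) h1).of_iff fun x => ⟨fun h => ?_, fun h => ?_⟩
    · exact h.elim (a2 x) fun k => k.1
    · by_cases k : d x ≤ -C
      · exact Or.inl k
      · exact Or.inr ⟨h, not_le.1 k⟩
  have ex : ∀ x, ∃ i : ℤ, x - i • L ∈ Wt ∧ ∀ j : ℤ, x - j • L ∈ Wt → i ≤ j := fun x => by
    have h1 := le_abs_self (d x)
    have h2 := neg_abs_le (d x)
    have h3 := abs_nonneg (d x)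
    refine Int.exists_least_of_bdd (P := fun i : ℤ => x - i • L ∈ Wt)
      ⟨-(|d x| + C), fun j hj => ?_⟩ ⟨|d x| + C, a2 _ ?_⟩
    · have h4 := a1 _ hj
      rw [dj] at h4
      by_contra h5
      have h6 : (|d x| + C) * 1 ≤ (-j) * Λ :=
        mul_le_mul (by omega) (by omega) zero_le_one (by omega)
      linarith
    · rw [dj]
      have h6 : (|d x| + C) * 1 ≤ (|d x| + C) * Λ := mul_le_mul_of_nonneg_left (by omega) (by omega)
      linarith
  choose I hI using ex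
  have key : ∀ x (i : ℤ), x - i • L ∈ Wt ↔ I x ≤ i := fun x i => by
    refine ⟨(hI x).2 i, fun h => ?_⟩
    rcases h.lt_or_eq with h | h
    · refine a2 _ ?_
      have h4 := a1 _ (hI x).1
      rw [dj] at h4 ⊢
      have h6 : (I x + 1) * Λ ≤ i * Λ := mul_le_mul_of_nonneg_right (by omega) (by omega)
      linarith
    · rw [← h]; exact (hI x).1
  refine ⟨I, ?_, fun x => ?_, fun x => ?_, fun x i => ?_, fun x h => ?_, fun x hx => ?_,
    fun x i h => ?_, fun x => ?_, fun x j => ?_⟩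
  · refine AM.of_graph (P := fun (x : V) (i : ℤ) => x - i • L ∈ Wt ∧ ¬ x - (i - 1) • L ∈ Wt)
      (AP.and (AP.mem apW (by fun_prop)) (AP.mem apW (by fun_prop)).not) fun x i => ?_
    rw [key, key]; omega
  · rw [← dj]; exact a1 _ (hI x).1
  · rw [← dj]
    by_contra h
    have := (key x _).1 (a2 _ (not_lt.1 h))
    omega
  · refine (key _ _).1 (a2 _ ?_)
    have h4 := a1 _ (hI x).1
    have h5 := (abs_le.1 (de i)).2
    rw [dj] at h4 ⊢
    rw [map_add]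
    linarith
  · by_contra hc
    have := (key x 0).1 (by rw [zero_smul, sub_zero]; exact (hWt x).2 hc)
    omega
  · have h1 := (key x 0).1 (by rw [zero_smul, sub_zero]; exact a3 x hx)
    by_contra hc
    have h2 := a1 _ ((key x (-1)).2 (by omega))
    have h3 := (abs_lt.1 (hW x hx)).1
    rw [dj] at h2
    linarith
  · refine (key _ _).1 ?_
    rw [add_sub_right_comm]
    exact a4 _ (hI x).1 h i
  · refine eq_of_forall_ge_iff fun i => ?_
    rw [← key, ← key, add_sub_right_comm, a5]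
  · refine eq_of_forall_ge_iff fun i => ?_
    rw [← key, ← le_sub_iff_add_le, ← key, sub_smul]
    exact iff_of_eq (congrArg (· ∈ Wt) (by abel))

end Pool.Agent.Sand.Wire
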