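import Pool.Agent.Lib.MP_215a10_lc.Dec.Wire2

/-! The burning rank on one side of a band. -/

set_option autoImplicit false

namespace Pool.Agent.Sand.Wire

open Classical

structure Rk (θ : V → ℤ) (W : Set V) (ν : V) (wf : Prop) (I b : V → ℤ) (r : V → R2) : Prop where
  amb : AM b
  amr : AR2 r
  burn : ∀ x, θ x ≤ ∑ i, (I x - I (x + e i) +
    i1 (mkr (-I (x + e i)) (b (x + e i)) (r (x + e i)) < mkr (-I x) (b x) (r x)))
  burnW : ∀ x ∈ W, θ x ≤ cnt fun i => x + e i ∈ W ∧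
    mkr (-I (x + e i)) (b (x + e i)) (r (x + e i)) < mkr (-I x) (b x) (r x)
  wf : wf → ∀ k C : ℤ, WFon {x | -C ≤ dot ν x ∧ I x = k} fun x => mkr (-I x) (b x) (r x)

theorem dot_add (ν x y : V) : dot ν (x + y) = dot ν x + dot ν y := by
  simp only [dot, Prod.fst_add, Prod.snd_add]; ring

theorem dot_sub_smul (ν x L : V) (j : ℤ) : dot ν (x - j • L) = dot ν x - j * dot ν L := by
  simp only [dot, Prod.fst_sub, Prod.snd_sub, Prod.smul_fst, Prod.smul_snd, smul_eq_mul]; ring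

theorem contrib {a a' : ℤ} (h : a' ≤ a + 1) (b b' : ℤ) (r r' : R2) :
    0 ≤ a - a' + i1 (mkr (-a') b' r' < mkr (-a) b r) := by
  rcases le_or_gt a' a with k | k
  · linarith [i1_nonneg (mkr (-a') b' r' < mkr (-a) b r)]
  · rw [i1_pos (mkr_lt1 (by omega) _ _ _ _)]; omega

theorem rank_W (hr : rank_stmt) {N : ℤ} {ν : V} {W : Set V} {θ : V → ℤ} {C : ℤ} (hN : 0 < N)
    (hν : ν ≠ 0) (hT : ∀ x, x + N • ν ∈ W ↔ x ∈ W) (hW : ∀ x ∈ W, |det ν x| ≤ C)
    (θT : ∀ x, θ (x + N • ν) = θ x)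
    (h1 : ∀ F ⊆ W, F.Finite → Stuck (fun x i => x + e i ∈ W) θ F → F = ∅) :
    ∃ r : V → R2, AR2 r ∧ (∀ x ∈ W, θ x ≤ cnt (fun i => x + e i ∈ W ∧ r (x + e i) < r x)) ∧
      ((∀ F ⊆ W, IHalf ν F → Stuck (fun x i => x + e i ∈ W) θ F → F = ∅) →
        ∀ C : ℤ, WFon {x | x ∈ W ∧ -C ≤ dot ν x} r) := by
  obtain ⟨r, a1, a2, -, a4⟩ := hr (N • ν) 0 ν W (fun x i => x + e i ∈ W) θ
    ⟨fun x => ⟨hT x, by rw [add_zero]⟩,
      fun x _ i => ⟨by beta_reduce; rw [add_right_comm, hT], by rw [add_zero]⟩,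
      fun x _ => ⟨θT x, by rw [add_zero]⟩, fun _ _ _ h => h,
      (band_fin hν (max C (N * dot ν ν))).toFinset, fun x hx => by
        obtain ⟨j, hj⟩ := redT hN hν x
        refine ⟨j, 0, ?_⟩
        rw [Set.Finite.mem_toFinset, smul_zero, sub_zero]
        exact ⟨by rw [det_sub_T]; exact (hW x hx).trans (le_max_left _ _),
          hj.trans (le_max_right _ _)⟩⟩
    (fun F hF ⟨C', hC'⟩ => h1 F hF ((band_fin hν (max C C')).subset fun x hx =>
      ⟨(hW x (hF hx)).trans (le_max_left _ _), (hC' x hx).trans (le_max_right _ _)⟩))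
  exact ⟨r, a1, a2, a4⟩

theorem exists_rk (hr : rank_stmt) {N : ℤ} {ν L : V} {W : Set V} {d : V →+ ℤ} {C Λ : ℤ}
    {θ I : V → ℤ} {wf : Prop} (hN : 0 < N) (hν : ν ≠ 0) (hd : ∀ x, |d x| = |det ν x|)
    (hT : ∀ x, x + N • ν ∈ W ↔ x ∈ W) (hW : ∀ x ∈ W, |d x| < C) (dL : d L = Λ) (hΛ : 0 ≤ Λ)
    (νL : dot ν L = 0) (hI : Lev W d (N • ν) L C Λ I) (θT : ∀ x, θ (x + N • ν) = θ x)
    (θL : ∀ x, θ (x + L) = θ x)
    (h1 : ∀ F ⊆ W, F.Finite → Stuck (fun x i => x + e i ∈ W) θ F → F = ∅)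
    (h2 : wf → ∀ F ⊆ W, IHalf ν F → Stuck (fun x i => x + e i ∈ W) θ F → F = ∅)
    (h3 : ∀ F : Set V, F.Finite → (∀ x ∈ F, cnt (fun i => x + e i ∉ F) < θ x) → F = ∅)
    (h4 : wf → ∀ F : Set V, IOut ν F → (∀ x ∈ F, cnt (fun i => x + e i ∉ F) < θ x) → F = ∅) :
    ∃ b r, Rk θ W ν wf I b r := by
  have hW' : ∀ x ∈ W, |det ν x| ≤ C := fun x hx => by rw [← hd]; exact (hW x hx).le
  obtain ⟨rW, aW, bW, wW⟩ := rank_W hr hN hν hT hW' θT h1
  have apW : AP fun x => x ∈ W := ap_band hN hν hT hW'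
  obtain ⟨P, hP⟩ : ∃ P : V → V, ∀ x, P x = x - I x • L := ⟨_, fun _ => rfl⟩
  have amP : AM P := (AM.id.sub (hI.amI.smul_const L)).of_eq fun x => (hP x).symm
  have PT : ∀ x, P (x + N • ν) = P x + N • ν := fun x => by
    rw [hP, hP, hI.perT, add_sub_right_comm]
  have IL : ∀ x, I (x + L) = I x + 1 := fun x => by simpa using hI.perL x 1
  have PL : ∀ x, P (x + L) = P x := fun x => by
    rw [hP, hP, IL, add_smul, one_smul]; abel
  have Pe : ∀ x i, I (x + e i) = I x → P (x + e i) = P x + e i := fun x i h => by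
    rw [hP, hP, h, add_sub_right_comm]
  have Pd : ∀ x, |det ν (P x)| ≤ C + Λ := fun x => by
    have a := hI.lo x
    have b := hI.hi x
    rw [← hd, hP, map_sub, map_zsmul, dL, smul_eq_mul]
    exact abs_le.2 ⟨by linarith, by linarith⟩
  have Pν : ∀ x, dot ν (P x) = dot ν x := fun x => by rw [hP, dot_sub_smul, νL, mul_zero, sub_zero]
  have θP : ∀ x, θ (P x) = θ x := fun x => by
    rw [← per_zsmul θL (I x) (P x), hP, sub_add_cancel]
  have lev : ∀ (k : ℤ) (x : V), I x = k → |det ν x| ≤ C + Λ + |k| * Λ := fun k x h => by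
    have a := Pd x
    have b : d x = d (P x) + k * Λ := by
      rw [hP, map_sub, map_zsmul, dL, smul_eq_mul, h]; ring
    rw [← hd] at a ⊢
    rw [b]
    refine (abs_add_le _ _).trans ?_
    rw [abs_mul, abs_of_nonneg hΛ]
    linarith
  obtain ⟨E, hE⟩ : ∃ E : V → Fin 4 → Prop, ∀ x i, E x i ↔ I (x + e i) = I x ∧ P (x + e i) ∉ W :=
    ⟨_, fun _ _ => Iff.rfl⟩
  have ET : ∀ x i, E (x + N • ν) i ↔ E x i := fun x i => by
    rw [hE, hE, add_right_comm, hI.perT, hI.perT, PT, hT]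
  have EL : ∀ x i, E (x + L) i ↔ E x i := fun x i => by
    rw [hE, hE, add_right_comm, IL, IL, PL, add_left_inj]
  have stk : ∀ F ⊆ {x | P x ∉ W}, Stuck E (fun x => θ x - cnt fun i => ¬ E x i) F →
      ∀ k, ∀ x ∈ {x | x ∈ F ∧ I x = k}, cnt (fun i => x + e i ∉ {x | x ∈ F ∧ I x = k}) < θ x := by
    intro F hF hs k x hx
    have a := hs x hx.1
    have b : cnt (fun i => x + e i ∉ {x | x ∈ F ∧ I x = k}) ≤
        cnt (fun i => E x i ∧ x + e i ∉ F) + cnt fun i => ¬ E x i := cnt_or fun i hi => by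
      by_cases k : E x i
      · exact Or.inl ⟨k, fun h => hi ⟨h, ((hE x i).1 k).1.trans hx.2⟩⟩
      · exact Or.inr k
    linarith
  obtain ⟨κ, aκ, bκ, -, wκ⟩ := hr (N • ν) L ν {x | P x ∉ W} E (fun x => θ x - cnt fun i => ¬ E x i)
    ⟨fun x => ⟨by simp only [Set.mem_setOf_eq, PT, hT], by simp only [Set.mem_setOf_eq, PL]⟩,
      fun x _ i => ⟨ET x i, EL x i⟩,
      fun x _ => ⟨by simp only [θT, ET], by simp only [θL, EL]⟩,
      fun x _ i h => ((hE x i).1 h).2,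
      (band_fin hν (max (C + Λ) (N * dot ν ν))).toFinset, fun x _ => by
        obtain ⟨j, hj⟩ := redT hN hν (P x)
        refine ⟨j, I x, ?_⟩
        rw [Set.Finite.mem_toFinset, sub_right_comm, ← hP]
        exact ⟨by rw [det_sub_T]; exact (Pd x).trans (le_max_left _ _),
          hj.trans (le_max_right _ _)⟩⟩
    (fun F hF ⟨C', hC'⟩ hs => Set.eq_empty_of_forall_notMem fun x hx => by
      have := h3 _ ((band_fin hν (max (C + Λ + |I x| * Λ) C')).subset fun y hy =>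
        ⟨(lev _ y hy.2).trans (le_max_left _ _), (hC' y hy.1).trans (le_max_right _ _)⟩)
        (stk F hF hs (I x))
      exact (this ▸ ⟨hx, rfl⟩ : x ∈ (∅ : Set V)))
  obtain ⟨b, hb⟩ : ∃ b : V → ℤ, ∀ x, b x = if P x ∈ W then 0 else 1 := ⟨_, fun _ => rfl⟩
  obtain ⟨r, hr'⟩ : ∃ r : V → R2, ∀ x, r x = if P x ∈ W then rW (P x) else κ x := ⟨_, fun _ => rfl⟩
  have main : ∀ x, P x ∈ W → θ x ≤ cnt fun i => P x + e i ∈ W ∧ I (x + e i) = I x ∧
      mkr (-I (x + e i)) (b (x + e i)) (r (x + e i)) < mkr (-I x) (b x) (r x) := fun x hx => by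
    rw [← θP]
    refine (bW _ hx).trans (cnt_mono fun i hi => ?_)
    have e1 : I (x + e i) = I x := by
      have := hI.perL (P x + e i) (I x)
      rw [hI.inW _ hi.1, zero_add, hP, add_right_comm, sub_add_cancel] at this
      exact this
    refine ⟨hi.1, e1, ?_⟩
    rw [hb, hb, hr', hr', Pe x i e1, e1, if_pos hi.1, if_pos hi.1, if_pos hx, if_pos hx]
    exact mkr_lt3 _ _ hi.2
  refine ⟨b, r, ?_, ?_, fun x => ?_, fun x hx => ?_, fun hw k C' => ?_⟩
  · exact (AM.ite (AP.mem apW amP) (AM.const 0) (AM.const 1)).of_eq fun x => (hb x).symm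
  · obtain ⟨a1, a2, m1, m2, rfl⟩ := aW
    obtain ⟨c1, c2, n1, n2, rfl⟩ := aκ
    refine ⟨_, _, AM.ite (AP.mem apW amP) (m1.comp amP) n1,
      AM.ite (AP.mem apW amP) (m2.comp amP) n2, funext fun x => ?_⟩
    rw [hr']
    split_ifs <;> rfl
  · by_cases hx : P x ∈ W
    · refine (main x hx).trans (cnt_le (fun i => contrib (hI.nb x i) _ _ _ _) fun i hi => ?_)
      rw [i1_pos hi.2.2, hi.2.1]; omega
    · have a := bκ x hx
      have c := cnt_add (P := fun i => E x i ∧ κ (x + e i) < κ x) (Q := fun i => ¬ E x i)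
        fun i h k => k h.1
      refine le_trans (by linarith) (c.trans
        (cnt_le (fun i => contrib (hI.nb x i) _ _ _ _) fun i hi => ?_))
      have o := hI.out x i (by rw [← hP]; exact hx)
      rcases o.lt_or_eq with o | o
      · linarith [i1_nonneg (mkr (-I (x + e i)) (b (x + e i)) (r (x + e i)) <
          mkr (-I x) (b x) (r x))]
      · rw [i1_pos, o]
        · omega
        · rw [o, hb, hb, hr', hr', if_neg hx, if_neg hx]
          by_cases k : P (x + e i) ∈ W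
          · rw [if_pos k]; exact mkr_lt2 _ zero_lt_one _ _
          · rw [if_neg k, if_neg k]
            exact mkr_lt3 _ _ (hi.resolve_right fun h => h ((hE x i).2 ⟨o, k⟩)).2
  · have e1 : P x = x := by rw [hP, hI.inW x hx, zero_smul, sub_zero]
    refine (main x (by rw [e1]; exact hx)).trans (cnt_mono fun i hi => ⟨?_, hi.2.2⟩)
    rw [← e1]; exact hi.1
  · have wκ' := wκ (fun F hF ⟨C', hC'⟩ hs => Set.eq_empty_of_forall_notMem fun x hx => by
      have := h4 hw _ ⟨max (C + Λ + |I x| * Λ) C', fun y hy =>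
        ⟨(lev _ y hy.2).trans (le_max_left _ _),
          (neg_le_neg (le_max_right _ _)).trans (hC' y hy.1)⟩⟩ (stk F hF hs (I x))
      exact (this ▸ ⟨hx, rfl⟩ : x ∈ (∅ : Set V))) C'
    have wW' := wW (h2 hw) C'
    refine wf_mono (wf_union (S := {x | P x ∈ W ∧ -C' ≤ dot ν x ∧ I x = k})
      (S' := {x | P x ∉ W ∧ -C' ≤ dot ν x ∧ I x = k}) ?_ ?_) fun x hx => ?_
    · intro F hF hn
      obtain ⟨_, ⟨x, hx, rfl⟩, h⟩ := wW' (P '' F) (by
        rintro _ ⟨x, hx, rfl⟩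
        exact ⟨(hF hx).1, by rw [Pν]; exact (hF hx).2.1⟩) (hn.image P)
      refine ⟨x, hx, fun y hy => ?_⟩
      beta_reduce
      rw [(hF hx).2.2, (hF hy).2.2, hb, hb, hr', hr', if_pos (hF hx).1, if_pos (hF hx).1,
        if_pos (hF hy).1, if_pos (hF hy).1]
      exact mkr_le3 _ _ (h _ ⟨y, hy, rfl⟩)
    · intro F hF hn
      obtain ⟨x, hx, h⟩ := wκ' F (fun x hx => ⟨(hF hx).1, (hF hx).2.1⟩) hn
      refine ⟨x, hx, fun y hy => ?_⟩
      beta_reduce
      rw [(hF hx).2.2, (hF hy).2.2, hb, hb, hr', hr', if_neg (hF hx).1, if_neg (hF hx).1,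
        if_neg (hF hy).1, if_neg (hF hy).1]
      exact mkr_le3 _ _ (h _ hy)
    · by_cases h : P x ∈ W
      · exact Or.inl ⟨h, hx⟩
      · exact Or.inr ⟨h, hx⟩

end Pool.Agent.Sand.Wire
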