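import Pool.Agent.Lib.MP_215a10_lc.Dec.Wire3

/-! Gluing the two sides of a band. -/

set_option autoImplicit false

namespace Pool.Agent.Sand.Wire

open Classical

theorem excl {W : Set V} {d1 d2 : V →+ ℤ} {T L1 L2 : V} {C Λ : ℤ} {I1 I2 : V → ℤ}
    (h1 : Lev W d1 T L1 C Λ I1) (h2 : Lev W d2 T L2 C Λ I2)
    (hs : ∀ x y, Conn Wᶜ x y → C ≤ d1 x → C ≤ d2 y → False) {x y : V} (a : 1 ≤ I1 x)
    (b : 1 ≤ I2 y) (c : y = x ∨ ∃ i, y = x + e i) : False := by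
  obtain ⟨y1, c1, e1⟩ := h1.sep x a
  obtain ⟨y2, c2, e2⟩ := h2.sep y b
  have nx : x ∉ W := fun h => by have := h1.inW x h; omega
  have ny : y ∉ W := fun h => by have := h2.inW y h; omega
  have c3 : Conn Wᶜ x y := by
    rcases c with rfl | ⟨i, c⟩
    · exact Relation.ReflTransGen.refl
    · exact Relation.ReflTransGen.single ⟨nx, ny, i, c⟩
  exact hs y1 y2 ((conn_symm c1).trans (c3.trans c2)) e1 e2

theorem opp_pos {W : Set V} {d1 d2 : V →+ ℤ} {T L1 L2 : V} {C Λ : ℤ} {I1 I2 : V → ℤ}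
    (h1 : Lev W d1 T L1 C Λ I1) (h2 : Lev W d2 T L2 C Λ I2) (hC : 0 < C) (hΛ : 2 * C ≤ Λ)
    {x : V} (hd : d1 x + d2 x = 0) (a : I1 x ≤ -1) : 1 ≤ I2 x := by
  have a1 := h1.lo x
  have a2 := h2.lo x
  have a3 : I1 x * Λ ≤ (-1) * Λ := mul_le_mul_of_nonneg_right a (by omega)
  by_contra h
  have a4 : I2 x * Λ ≤ 0 * Λ := mul_le_mul_of_nonneg_right (by omega) (by omega)
  linarith

theorem lev_ub {W : Set V} {d : V →+ ℤ} {T L : V} {C Λ : ℤ} {I : V → ℤ}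
    (h : Lev W d T L C Λ I) (hC : 0 < C) (hΛ : 2 * C ≤ Λ) {x : V} {K : ℤ} (hx : |d x| ≤ K) :
    I x ≤ K + C := by
  have a1 := h.hi x
  have a2 := le_abs_self (d x)
  have a3 := abs_nonneg (d x)
  by_contra hc
  have a4 : (I x - 1) * 1 ≤ (I x - 1) * Λ := mul_le_mul_of_nonneg_left (by omega) (by omega)
  linarith

theorem glue {θ : V → ℤ} {W : Set V} {ν : V} {wf : Prop} {d1 d2 : V →+ ℤ} {T L1 L2 : V} {C Λ : ℤ}
    {I1 I2 b1 b2 : V → ℤ} {r1 r2 : V → R2} (hd : ∀ x, d1 x + d2 x = 0)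
    (hs : ∀ x y, Conn Wᶜ x y → C ≤ d1 x → C ≤ d2 y → False)
    (h1 : Lev W d1 T L1 C Λ I1) (h2 : Lev W d2 T L2 C Λ I2) (k1 : Rk θ W ν wf I1 b1 r1)
    (k2 : Rk θ W ν wf I2 b2 r2) (hC : 0 < C) (hΛ : 2 * C ≤ Λ) :
    ∃ (M : V → ℤ) (ρ : V → R5), AM M ∧ AR5 ρ ∧
      (∀ x, θ x ≤ ∑ i, (M x - M (x + e i) + i1 (ρ (x + e i) < ρ x))) ∧
      (∀ x, abs (|d1 x| - M x * Λ) ≤ C + Λ) ∧
      (wf → ∀ K : ℤ, WFon {x | |d1 x| ≤ K ∧ -K ≤ dot ν x} ρ) := by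
  have hs' : ∀ x y, Conn Wᶜ x y → C ≤ d2 x → C ≤ d1 y → False :=
    fun x y h a b => hs y x (conn_symm h) b a
  have n12 : ∀ x, I1 x ≤ -1 → 1 ≤ I2 x := fun x => opp_pos h1 h2 hC hΛ (hd x)
  have n21 : ∀ x, I2 x ≤ -1 → 1 ≤ I1 x := fun x => opp_pos h2 h1 hC hΛ (by rw [add_comm, hd])
  obtain ⟨M, hM⟩ : ∃ M : V → ℤ, ∀ x, M x = max (I1 x) (I2 x) := ⟨_, fun _ => rfl⟩
  obtain ⟨b, hb⟩ : ∃ b : V → ℤ, ∀ x, b x = if 1 ≤ I1 x then b1 x else b2 x := ⟨_, fun _ => rfl⟩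
  obtain ⟨r, hr⟩ : ∃ r : V → R2, ∀ x, r x = if 1 ≤ I1 x then r1 x else r2 x := ⟨_, fun _ => rfl⟩
  have M1 : ∀ x, 1 ≤ I1 x → M x = I1 x := fun x h => by
    have : ¬ 1 ≤ I2 x := fun k => excl h1 h2 hs h k (Or.inl rfl)
    rw [hM]; exact max_eq_left (by omega)
  have M2 : ∀ x, ¬ 1 ≤ I1 x → M x = I2 x ∧ 0 ≤ I2 x := fun x h => by
    have a := n12 x
    have a' := n21 x
    rw [hM]; exact ⟨max_eq_right (by omega), by omega⟩
  have ρ1 : ∀ x, 1 ≤ I1 x → mkr (-M x) (b x) (r x) = mkr (-I1 x) (b1 x) (r1 x) := fun x h => by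
    rw [M1 x h, hb, hr, if_pos h, if_pos h]
  have ρ2 : ∀ x, ¬ 1 ≤ I1 x → mkr (-M x) (b x) (r x) = mkr (-I2 x) (b2 x) (r2 x) := fun x h => by
    rw [(M2 x h).1, hb, hr, if_neg h, if_neg h]
  have Mnb : ∀ x i, M (x + e i) ≤ M x + 1 := fun x i => by
    have a := h1.nb x i
    have a' := h2.nb x i
    rw [hM, hM]; omega
  have amM : AM M := (h1.amI.max h2.amI).of_eq fun x => (hM x).symm
  have ap1 : AP fun x => 1 ≤ I1 x := AP.le (AM.const 1) h1.amI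
  refine ⟨M, fun x => mkr (-M x) (b x) (r x), amM, ?_, fun x => ?_, fun x => ?_, fun hw K => ?_⟩
  · obtain ⟨a1, a2, m1, m2, e1⟩ := k1.amr
    obtain ⟨c1, c2, n1, n2, e2⟩ := k2.amr
    refine ⟨_, _, _, _, _, amM.neg, AM.ite ap1 k1.amb k2.amb, AM.ite ap1 m1 n1, AM.ite ap1 m2 n2,
      AM.const 0, funext fun x => ?_⟩
    rw [hb, hr, e1, e2]
    split_ifs <;> rfl
  · beta_reduce
    by_cases hx : 1 ≤ I1 x
    · refine (k1.burn x).trans (Finset.sum_le_sum fun i _ => ?_)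
      by_cases hy : 1 ≤ I1 (x + e i)
      · rw [ρ1 _ hx, ρ1 _ hy, M1 _ hx, M1 _ hy]
      · have a : ¬ 1 ≤ I2 (x + e i) := fun k => excl h1 h2 hs hx k (Or.inr ⟨i, rfl⟩)
        have a1 := M2 _ hy
        have a2 := n12 (x + e i)
        have a3 := M1 _ hx
        rw [i1_neg (lt_asymm (mkr_lt1 (by omega) _ _ _ _))]
        have := i1_nonneg (mkr (-M (x + e i)) (b (x + e i)) (r (x + e i)) < mkr (-M x) (b x) (r x))
        omega
    · by_cases hW : x ∈ W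
      · refine (k2.burnW x hW).trans (cnt_le (fun i => contrib (Mnb x i) _ _ _ _) fun i hi => ?_)
        have a1 := h1.inW _ hi.1
        have hy : ¬ 1 ≤ I1 (x + e i) := by omega
        rw [ρ2 _ hx, ρ2 _ hy, i1_pos hi.2, (M2 _ hx).1, (M2 _ hy).1, h2.inW _ hW, h2.inW _ hi.1]
        omega
      · refine (k2.burn x).trans (Finset.sum_le_sum fun i _ => ?_)
        have hy : ¬ 1 ≤ I1 (x + e i) := fun k => by
          by_cases a : 1 ≤ I2 x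
          · exact excl h2 h1 hs' a k (Or.inr ⟨i, rfl⟩)
          · have a1 := n12 x
            have a2 : I1 x = 0 := by omega
            have a3 := h1.out x i (by rw [a2, zero_smul, sub_zero]; exact hW)
            omega
        rw [ρ2 _ hx, ρ2 _ hy, (M2 _ hx).1, (M2 _ hy).1]
  · have a1 := h1.lo x
    have a2 := h1.hi x
    have a3 := h2.lo x
    have a4 := h2.hi x
    have a5 := hd x
    have a6 : M x * Λ = max (I1 x * Λ) (I2 x * Λ) := by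
      rw [hM, max_mul_of_nonneg _ _ (by omega)]
    rw [sub_mul, one_mul] at a2 a4
    rw [a6]
    generalize I1 x * Λ = u at *
    generalize I2 x * Λ = v at *
    refine abs_le.2 ⟨?_, ?_⟩ <;> rcases abs_cases (d1 x) with k | k <;> omega
  · refine wf_mono (wf_union
      (S := {x | (-K ≤ dot ν x ∧ I1 x ∈ Finset.Icc 0 (K + C)) ∧ 1 ≤ I1 x})
      (S' := {x | (-K ≤ dot ν x ∧ I2 x ∈ Finset.Icc 0 (K + C)) ∧ ¬ 1 ≤ I1 x}) ?_ ?_)
      fun x hx => ?_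
    · exact wf_congr (wf_mono (wf_levels (S := {x | -K ≤ dot ν x}) (fun k => k1.wf hw k K) _)
        fun x hx => hx.1) fun x hx => ρ1 x hx.2
    · exact wf_congr (wf_mono (wf_levels (S := {x | -K ≤ dot ν x}) (fun k => k2.wf hw k K) _)
        fun x hx => hx.1) fun x hx => ρ2 x hx.2
    · by_cases h : 1 ≤ I1 x
      · exact Or.inl ⟨⟨hx.2, Finset.mem_Icc.2 ⟨by omega, lev_ub h1 hC hΛ hx.1⟩⟩, h⟩
      · refine Or.inr ⟨⟨hx.2, Finset.mem_Icc.2 ⟨(M2 x h).2, lev_ub h2 hC hΛ ?_⟩⟩, h⟩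
        rw [show d2 x = -d1 x by have := hd x; omega, abs_neg]; exact hx.1

end Pool.Agent.Sand.Wire
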